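import Pool.Agent.Lib.MP_f58a57_nt.Defs

/-! # A0e: closure properties of modular forms (MP_f58a57_nt) -/

open Complex ModularForm EisensteinSeries Filter
open UpperHalfPlane hiding I
open scoped Topology MatrixGroups

noncomputable section

namespace Pool.Agent.MSD

/-- A0e. Closure properties of `IsMF`. -/
theorem IsMF.add {k : ℕ} {f g : ℂ → ℂ} (hf : IsMF k f) (hg : IsMF k g) : IsMF k (fun z => f z + g z) := by
  obtain ⟨C, hC⟩ := hf.bdd
  obtain ⟨D, hD⟩ := hg.bdd
  refine ⟨hf.diff.add hg.diff, ?_, ?_, ⟨C + D, ?_⟩⟩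
  · intro z hz
    simp only [hf.per z hz, hg.per z hz]
  · intro z hz
    simp only [hf.inv z hz, hg.inv z hz]
    ring
  · intro z hz
    exact (norm_add_le _ _).trans (add_le_add (hC z hz) (hD z hz))

theorem IsMF.const_mul {k : ℕ} {f : ℂ → ℂ} (hf : IsMF k f) (c : ℂ) : IsMF k (fun z => c * f z) := by
  obtain ⟨C, hC⟩ := hf.bdd
  refine ⟨hf.diff.const_mul c, ?_, ?_, ⟨‖c‖ * C, ?_⟩⟩
  · intro z hz
    simp only [hf.per z hz]
  · intro z hz
    simp only [hf.inv z hz]
    ring
  · intro z hz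
    rw [norm_mul]
    exact mul_le_mul_of_nonneg_left (hC z hz) (norm_nonneg c)

theorem IsMF.mul {k l : ℕ} {f g : ℂ → ℂ} (hf : IsMF k f) (hg : IsMF l g) :
    IsMF (k + l) (fun z => f z * g z) := by
  obtain ⟨C, hC⟩ := hf.bdd
  obtain ⟨D, hD⟩ := hg.bdd
  refine ⟨hf.diff.mul hg.diff, ?_, ?_, ⟨C * D, ?_⟩⟩
  · intro z hz
    simp only [hf.per z hz, hg.per z hz]
  · intro z hz
    simp only [hf.inv z hz, hg.inv z hz, pow_add]
    ring
  · intro z hz
    rw [norm_mul]
    exact mul_le_mul (hC z hz) (hD z hz) (norm_nonneg _) ((norm_nonneg _).trans (hC z hz))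

theorem IsMF.pow {k : ℕ} {f : ℂ → ℂ} (hf : IsMF k f) (n : ℕ) : IsMF (k * n) (fun z => f z ^ n) := by
  induction n with
  | zero =>
    refine ⟨?_, ?_, ?_, ⟨1, ?_⟩⟩
    · simp only [pow_zero]
      exact differentiableOn_const 1
    · intro z hz
      simp
    · intro z hz
      simp
    · intro z hz
      simp
  | succ n ih =>
    have h := ih.mul hf
    have e1 : k * n + k = k * (n + 1) := by ring
    rw [e1] at h
    have e2 : (fun z => f z ^ n * f z) = fun z => f z ^ (n + 1) := by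
      funext z
      rw [pow_succ]
    rw [e2] at h
    exact h

end Pool.Agent.MSD
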