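import Pool.Agent.Lib.MP_f58a57_nt.Defs

/-! # A0: elementary rules for q-expansions and modular forms (MP_f58a57_nt) -/

open Complex ModularForm EisensteinSeries Filter
open UpperHalfPlane hiding I
open scoped Topology MatrixGroups

noncomputable section

namespace Pool.Agent.MSD

theorem A0Q_norm_qq (z : ℂ) : ‖qq z‖ = Real.exp (-(2 * Real.pi * z.im)) := by
  unfold qq
  rw [Complex.norm_exp]
  congr 1
  simp [Complex.mul_re, Complex.mul_im]

/-- A0a. `qq` has absolute value less than one on the upper half plane, is periodic, ... -/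
theorem norm_qq_lt_one (z : ℂ) (hz : 0 < z.im) : ‖qq z‖ < 1 := by
  rw [A0Q_norm_qq, Real.exp_lt_one_iff]
  have := Real.pi_pos
  have h : 0 < 2 * Real.pi * z.im := by positivity
  linarith

theorem A0Q_exists_qq (q : ℂ) (h0 : q ≠ 0) (h1 : ‖q‖ < 1) : ∃ z : ℂ, 0 < z.im ∧ qq z = q := by
  have hpi : (Real.pi : ℂ) ≠ 0 := Complex.ofReal_ne_zero.2 Real.pi_ne_zero
  refine ⟨Complex.log q / (2 * Real.pi * I), ?_, ?_⟩
  · have h2 : Complex.log q / (2 * Real.pi * I) = -(Complex.log q * I) * ((1 / (2 * Real.pi) : ℝ) : ℂ) := by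
      push_cast
      field_simp
      rw [Complex.I_sq]
      ring
    rw [h2, Complex.im_mul_ofReal]
    simp only [Complex.neg_im, Complex.mul_im, Complex.I_im, Complex.I_re, mul_one, mul_zero,
      add_zero, Complex.log_re]
    have h3 : Real.log ‖q‖ < 0 := Real.log_neg (norm_pos_iff.2 h0) h1
    have := Real.pi_pos
    have h4 : 0 < 1 / (2 * Real.pi) := by positivity
    exact mul_pos (by linarith) h4
  · unfold qq
    rw [mul_div_cancel₀]
    · exact Complex.exp_log h0
    · simp [hpi, Complex.I_ne_zero]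

/-- A0b. The `q`-expansion is unique (identity theorem for power series at `q → 0`). -/
theorem QExp.unique {c c' : ℕ → ℤ} {f : ℂ → ℂ} (h : QExp c f) (h' : QExp c' f) : c = c' := by
  classical
  set d : ℕ → ℂ := fun n => (c n : ℂ) - c' n with hd
  set p : FormalMultilinearSeries ℂ ℂ ℂ := FormalMultilinearSeries.ofScalars ℂ d with hp
  have hcoeff : ∀ n, p.coeff n = d n := by
    intro n
    rw [hp, FormalMultilinearSeries.coeff_ofScalars]
  set g : ℂ → ℂ := fun q => if q = 0 then d 0 else 0 with hg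
  have key : ∀ q : ℂ, q ≠ 0 → ‖q‖ < 1 → HasSum (fun n => d n * q ^ n) 0 := by
    intro q hq0 hq1
    obtain ⟨z, hz, rfl⟩ := A0Q_exists_qq q hq0 hq1
    have h1 := (h z hz).sub (h' z hz)
    rw [sub_self] at h1
    refine h1.congr_fun ?_
    intro n
    simp only [hd]
    ring
  have hps : HasFPowerSeriesAt g p 0 := by
    rw [hasFPowerSeriesAt_iff]
    have hev : ∀ᶠ z : ℂ in 𝓝 0, ‖z‖ < 1 := by
      have : Metric.ball (0 : ℂ) 1 ∈ 𝓝 (0 : ℂ) := Metric.ball_mem_nhds _ one_pos
      filter_upwards [this] with z hz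
      simpa using hz
    filter_upwards [hev] with z hz
    by_cases hz0 : z = 0
    · subst hz0
      have h2 : g (0 + 0) = d 0 := by simp [hg]
      rw [h2]
      have h3 := hasSum_single (f := fun n => (0 : ℂ) ^ n • p.coeff n) 0 (by
        intro n hn
        simp [hn])
      simpa [hcoeff] using h3
    · have h2 : g (0 + z) = 0 := by simp [hg, hz0]
      rw [h2]
      refine (key z hz0 hz).congr_fun ?_
      intro n
      rw [hcoeff, smul_eq_mul, mul_comm]
  have hg0 : g = 0 := by
    have hc := hps.continuousAt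
    have hd0 : d 0 = 0 := by
      have h4 : Tendsto g (𝓝[≠] 0) (𝓝 (g 0)) := hc.tendsto.mono_left nhdsWithin_le_nhds
      have h5 : Tendsto g (𝓝[≠] 0) (𝓝 0) := by
        refine tendsto_const_nhds.congr' ?_
        filter_upwards [self_mem_nhdsWithin] with z hz
        have hz' : z ≠ 0 := hz
        simp [hg, hz']
      have h6 := tendsto_nhds_unique h4 h5
      simpa [hg] using h6
    funext q
    simp [hg, hd0]
  rw [hg0] at hps
  have hp0 := hps.eq_zero
  funext n
  have h7 := hcoeff n
  rw [hp0] at h7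
  have h8 : d n = 0 := by
    rw [← h7]
    simp [FormalMultilinearSeries.coeff]
  have h9 : (c n : ℂ) = c' n := sub_eq_zero.1 h8
  exact_mod_cast h9

/-- A0c. Sums and Cauchy products of `q`-expansions. -/
theorem QExp.add {c c' : ℕ → ℤ} {f g : ℂ → ℂ} (h : QExp c f) (h' : QExp c' g) :
    QExp (fun n => c n + c' n) (fun z => f z + g z) := by
  intro z hz
  refine ((h z hz).add (h' z hz)).congr_fun ?_
  intro n
  push_cast
  ring

theorem QExp.const_mul {c : ℕ → ℤ} {f : ℂ → ℂ} (h : QExp c f) (m : ℤ) :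
    QExp (fun n => m * c n) (fun z => m * f z) := by
  intro z hz
  refine ((h z hz).mul_left (m : ℂ)).congr_fun ?_
  intro n
  push_cast
  ring

theorem QExp.mul {c c' : ℕ → ℤ} {f g : ℂ → ℂ} (h : QExp c f) (h' : QExp c' g) :
    QExp (fun n => ∑ p ∈ Finset.HasAntidiagonal.antidiagonal n, c p.1 * c' p.2) (fun z => f z * g z) := by
  intro z hz
  have h1 := (h z hz).summable.norm
  have h2 := (h' z hz).summable.norm
  have h3 := (summable_norm_sum_mul_antidiagonal_of_summable_norm h1 h2).of_norm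
  have h4 := tsum_mul_tsum_eq_tsum_sum_antidiagonal_of_summable_norm h1 h2
  have h5 := h3.hasSum
  rw [← h4, (h z hz).tsum_eq, (h' z hz).tsum_eq] at h5
  refine h5.congr_fun ?_
  intro n
  push_cast
  rw [Finset.sum_mul]
  refine Finset.sum_congr rfl ?_
  rintro ⟨i, j⟩ hij
  rw [Finset.HasAntidiagonal.mem_antidiagonal] at hij
  simp only at hij ⊢
  rw [← hij, pow_add]
  ring

theorem A0Q_norm_le (z : ℂ) (hz : 1 ≤ z.im) : ‖qq z‖ ≤ ‖qq I‖ := by
  rw [A0Q_norm_qq, A0Q_norm_qq, Real.exp_le_exp]
  have := Real.pi_pos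
  simp only [Complex.I_im]
  nlinarith

/-- A0d. A `q`-expansion gives boundedness for `Im z ≥ 1`, and the limit `c 0` at `i∞`. -/
theorem QExp.bdd {c : ℕ → ℤ} {f : ℂ → ℂ} (h : QExp c f) : ∃ C : ℝ, ∀ z : ℂ, 1 ≤ z.im → ‖f z‖ ≤ C := by
  have h1 := (h I (by simp)).summable.norm
  refine ⟨∑' n, ‖(c n : ℂ) * qq I ^ n‖, ?_⟩
  intro z hz
  have hz0 : 0 < z.im := by linarith
  have h2 := (h z hz0).summable.norm
  rw [← (h z hz0).tsum_eq]
  refine (norm_tsum_le_tsum_norm h2).trans ?_
  refine h2.tsum_le_tsum (fun n => ?_) h1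
  rw [norm_mul, norm_mul, norm_pow, norm_pow]
  exact mul_le_mul_of_nonneg_left (pow_le_pow_left₀ (norm_nonneg _) (A0Q_norm_le z hz) n)
    (norm_nonneg _)

theorem QExp.tendsto {c : ℕ → ℤ} {f : ℂ → ℂ} (h : QExp c f) :
    Tendsto (fun y : ℝ => f (I * y)) atTop (𝓝 (c 0 : ℂ)) := by
  have h1 := (h I (by simp)).summable.norm
  have h2 : Tendsto (fun y : ℝ => ∑' n, (c n : ℂ) * qq (I * y) ^ n) atTop
      (𝓝 (∑' n, if n = 0 then (c 0 : ℂ) else 0)) := by
    refine tendsto_tsum_of_dominated_convergence h1 ?_ ?_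
    · intro n
      by_cases hn : n = 0
      · subst hn
        simp
      · simp only [hn, if_false]
        have h3 : Tendsto (fun y : ℝ => qq (I * y)) atTop (𝓝 0) := by
          rw [tendsto_zero_iff_norm_tendsto_zero]
          have h4 : (fun y : ℝ => ‖qq (I * y)‖) = fun y : ℝ => Real.exp (-(2 * Real.pi * y)) := by
            funext y
            rw [A0Q_norm_qq]
            simp
          rw [h4]
          refine Real.tendsto_exp_atBot.comp ?_
          rw [tendsto_neg_atBot_iff]
          exact tendsto_id.const_mul_atTop (by positivity)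
        have h5 := (h3.pow n).const_mul (c n : ℂ)
        rw [zero_pow hn, mul_zero] at h5
        exact h5
    · filter_upwards [eventually_ge_atTop (1 : ℝ)] with y hy n
      rw [norm_mul, norm_mul, norm_pow, norm_pow]
      refine mul_le_mul_of_nonneg_left (pow_le_pow_left₀ (norm_nonneg _) (A0Q_norm_le _ ?_) n)
        (norm_nonneg _)
      simpa using hy
  rw [tsum_ite_eq] at h2
  refine h2.congr' ?_
  filter_upwards [eventually_gt_atTop (0 : ℝ)] with y hy
  exact (h (I * y) (by simpa using hy)).tsum_eq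

end Pool.Agent.MSD
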