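import Pool.Agent.Lib.MP_f58a57_nt.Defs

/-! # A1: basic facts on e2, e4, e6, dl (MP_f58a57_nt) -/

open Complex ModularForm EisensteinSeries Filter
open UpperHalfPlane hiding I
open scoped Topology MatrixGroups

noncomputable section

namespace Pool.Agent.MSD

theorem a1b_qParam (z : ℂ) : Function.Periodic.qParam 1 z = qq z := by
  simp [Function.Periodic.qParam, qq]

theorem a1b_bern4 : bernoulli 4 = -1 / 30 := by
  rw [bernoulli_eq_bernoulli'_of_ne_one (by norm_num), bernoulli'_four]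

theorem a1b_bern6 : bernoulli 6 = 1 / 42 := by
  rw [bernoulli_eq_bernoulli'_of_ne_one (by norm_num)]
  have h5 : bernoulli' 5 = 0 := bernoulli'_eq_zero_of_odd (by decide) (by norm_num)
  rw [bernoulli'_def]
  have h2 : Nat.choose 6 2 = 15 := by decide
  have h4 : Nat.choose 6 4 = 15 := by decide
  have h3 : Nat.choose 6 3 = 20 := by decide
  norm_num [Finset.sum_range_succ, h2, h3, h4, h5]

/-- A1a. Holomorphy. (Mathlib: `E2_mdifferentiable`, modular forms are holomorphic, `UpperHalfPlane.mdifferentiable_iff`.) -/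
theorem e2_diff : DifferentiableOn ℂ e2 {z | 0 < z.im} :=
  UpperHalfPlane.mdifferentiable_iff.mp E2_mdifferentiable

theorem e4_diff : DifferentiableOn ℂ e4 {z | 0 < z.im} :=
  UpperHalfPlane.mdifferentiable_iff.mp (ModularFormClass.holo E₄)

theorem e6_diff : DifferentiableOn ℂ e6 {z | 0 < z.im} :=
  UpperHalfPlane.mdifferentiable_iff.mp (ModularFormClass.holo E₆)

theorem dl_diff : DifferentiableOn ℂ dl {z | 0 < z.im} :=
  ((e4_diff.pow 3).sub (e6_diff.pow 2)).div_const 1728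

/-- A1b. `dl` is Mathlib's discriminant (`ModularForm.discriminant_eq_E₄_cube_sub_E₆_sq`), which has no zero
(`ModularForm.discriminant_ne_zero`). -/
theorem dl_eq (z : ℍ) : dl z = ModularForm.discriminant z := by
  rw [ModularForm.discriminant_eq_E₄_cube_sub_E₆_sq]
  simp [dl, e4, e6, ofComplex_apply]

theorem dl_ne_zero (z : ℂ) (hz : 0 < z.im) : dl z ≠ 0 := by
  have h := ModularForm.discriminant_ne_zero ⟨z, hz⟩
  rw [← dl_eq] at h
  exact h

/-- A1c. Integer `q`-expansions. `e2 = 1 - 24 Σ σ₁(n) qⁿ` (`E2_eq_tsum_cexp`, `hasSum_qExpansion_E2`),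
`e4 = 1 + 240 Σ σ₃(n) qⁿ`, `e6 = 1 - 504 Σ σ₅(n) qⁿ` (`EisensteinSeries.E_qExpansion_coeff`,
`ModularFormClass.hasSum_qExpansion`; `bernoulli 4 = -1/30`, `bernoulli 6 = 1/42`). -/
theorem e2_q : ∃ c : ℕ → ℤ, QExp c e2 ∧ c 0 = 1 := by
  refine ⟨fun n => if n = 0 then 1 else -24 * (ArithmeticFunction.sigma 1 n : ℤ), ?_, by simp⟩
  intro z hz
  have h := hasSum_qExpansion_E2 (z := ⟨z, hz⟩)
  have he : E2 ⟨z, hz⟩ = e2 z := by
    rw [e2, ofComplex_apply_of_im_pos hz]
  rw [he] at h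
  refine h.congr_fun ?_
  intro m
  by_cases hm : m = 0
  · simp [hm, qq]
  · simp [hm, qq]

theorem e4_q : ∃ c : ℕ → ℤ, QExp c e4 ∧ c 0 = 1 := by
  refine ⟨fun n => if n = 0 then 1 else 240 * (ArithmeticFunction.sigma 3 n : ℤ), ?_, by simp⟩
  intro z hz
  have h := ModularForm.hasSum_qExpansion (f := E₄) one_pos one_mem_strictPeriods_SL ⟨z, hz⟩
  have h2 : ∀ m : ℕ, (qExpansion 1 (E₄ : ℍ → ℂ)).coeff m =
      (((if m = 0 then 1 else 240 * (ArithmeticFunction.sigma 3 m : ℤ)) : ℤ) : ℂ) := by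
    intro m
    have := EisensteinSeries.E_qExpansion_coeff (k := 4) (by norm_num) (by decide) m
    rw [this, a1b_bern4]
    by_cases hm : m = 0
    · simp [hm]
    · simp only [hm, if_false]
      push_cast
      norm_num
  have he : E₄ ⟨z, hz⟩ = e4 z := by
    rw [e4, ofComplex_apply_of_im_pos hz]
  rw [he] at h
  refine h.congr_fun ?_
  intro m
  rw [h2 m, ← a1b_qParam z]

theorem e6_q : ∃ c : ℕ → ℤ, QExp c e6 ∧ c 0 = 1 := by
  refine ⟨fun n => if n = 0 then 1 else -504 * (ArithmeticFunction.sigma 5 n : ℤ), ?_, by simp⟩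
  intro z hz
  have h := ModularForm.hasSum_qExpansion (f := E₆) one_pos one_mem_strictPeriods_SL ⟨z, hz⟩
  have h2 : ∀ m : ℕ, (qExpansion 1 (E₆ : ℍ → ℂ)).coeff m =
      (((if m = 0 then 1 else -504 * (ArithmeticFunction.sigma 5 m : ℤ)) : ℤ) : ℂ) := by
    intro m
    have := EisensteinSeries.E_qExpansion_coeff (k := 6) (by norm_num) (by decide) m
    rw [this, a1b_bern6]
    by_cases hm : m = 0
    · simp [hm]
    · simp only [hm, if_false]
      push_cast
      norm_num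
  have he : E₆ ⟨z, hz⟩ = e6 z := by
    rw [e6, ofComplex_apply_of_im_pos hz]
  rw [he] at h
  refine h.congr_fun ?_
  intro m
  rw [h2 m, ← a1b_qParam z]

end Pool.Agent.MSD
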