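import Pool.Agent.Lib.MP_f58a57_nt.A0_Q
import Pool.Agent.Lib.MP_f58a57_nt.A1_Basic

/-! # A1d: the q-expansion of the discriminant (MP_f58a57_nt) -/

open Complex ModularForm EisensteinSeries Filter
open UpperHalfPlane hiding I
open scoped Topology MatrixGroups

noncomputable section

namespace Pool.Agent.MSD

theorem a1d_of (z : ℂ) (hz : 0 < z.im) : ((ofComplex z : ℍ) : ℂ) = z := by
  rw [ofComplex_apply_of_im_pos hz]

/-- the `q`-series of `σ_k` -/
def a1dS (k : ℕ) (z : ℂ) : ℂ := ∑' n : ℕ, (ArithmeticFunction.sigma k n : ℂ) * qq z ^ n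

theorem a1d_summable (k : ℕ) (z : ℂ) (hz : 0 < z.im) :
    Summable fun n : ℕ => (ArithmeticFunction.sigma k n : ℂ) * qq z ^ n := by
  have h := EisensteinSeries.summable_sigma_mul_cexp_pow (k := k + 1) (by omega) (ofComplex z)
  rw [a1d_of z hz] at h
  simpa [qq] using h

theorem a1d_qexp (k : ℕ) : QExp (fun n => (ArithmeticFunction.sigma k n : ℤ)) (a1dS k) := by
  intro z hz
  have h := (a1d_summable k z hz).hasSum
  simpa [a1dS] using h

theorem a1d_pnat (k : ℕ) (z : ℂ) (hz : 0 < z.im) :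
    ∑' n : ℕ+, (ArithmeticFunction.sigma k n : ℂ) * cexp (2 * Real.pi * I * z) ^ (n : ℤ) = a1dS k z := by
  have h1 : ∀ n : ℕ+, (ArithmeticFunction.sigma k n : ℂ) * cexp (2 * Real.pi * I * z) ^ (n : ℤ)
      = (fun m : ℕ => (ArithmeticFunction.sigma k m : ℂ) * qq z ^ m) n := by
    intro n
    simp [qq, zpow_natCast]
  simp_rw [h1]
  rw [tsum_pnat_eq_tsum_succ (f := fun m : ℕ => (ArithmeticFunction.sigma k m : ℂ) * qq z ^ m)]
  rw [a1dS, (a1d_summable k z hz).tsum_eq_zero_add]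
  simp

theorem a1d_e4 (z : ℂ) (hz : 0 < z.im) : e4 z = 1 + 240 * a1dS 3 z := by
  have h := EisensteinSeries.q_expansion_bernoulli (k := 4) (by norm_num) ⟨2, rfl⟩ (ofComplex z)
  rw [a1d_of z hz] at h
  have h2 := a1d_pnat 3 z hz
  simp only [show (4 - 1 : ℕ) = 3 from rfl] at h
  rw [h2] at h
  rw [e4]
  refine h.trans ?_
  rw [show bernoulli 4 = -1 / 30 by decide +kernel]
  push_cast
  ring

theorem a1d_e6 (z : ℂ) (hz : 0 < z.im) : e6 z = 1 - 504 * a1dS 5 z := by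
  have h := EisensteinSeries.q_expansion_bernoulli (k := 6) (by norm_num) ⟨3, rfl⟩ (ofComplex z)
  rw [a1d_of z hz] at h
  have h2 := a1d_pnat 5 z hz
  simp only [show (6 - 1 : ℕ) = 5 from rfl] at h
  rw [h2] at h
  rw [e6]
  refine h.trans ?_
  rw [show bernoulli 6 = 1 / 42 by decide +kernel]
  push_cast
  ring

theorem a1d_dvd (n : ℕ) : (12 : ℤ) ∣ 5 * (ArithmeticFunction.sigma 3 n : ℤ) + 7 * (ArithmeticFunction.sigma 5 n : ℤ) := by
  have h : (5 * (ArithmeticFunction.sigma 3 n : ℤ) + 7 * (ArithmeticFunction.sigma 5 n : ℤ))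
      = ∑ d ∈ n.divisors, (5 * (d : ℤ) ^ 3 + 7 * (d : ℤ) ^ 5) := by
    rw [ArithmeticFunction.sigma_apply, ArithmeticFunction.sigma_apply]
    push_cast
    rw [Finset.sum_add_distrib, Finset.mul_sum, Finset.mul_sum]
  rw [h]
  refine Finset.dvd_sum fun d _ => ?_
  have h3 : ∀ x : ZMod 12, 5 * x ^ 3 + 7 * x ^ 5 = 0 := by decide
  have h4 := h3 (d : ZMod 12)
  refine (ZMod.intCast_zmod_eq_zero_iff_dvd _ 12).1 ?_
  push_cast
  exact h4

theorem a1d_congr {c : ℕ → ℤ} {f g : ℂ → ℂ} (h : QExp c f) (hfg : ∀ z : ℂ, 0 < z.im → g z = f z) :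
    QExp c g := by
  intro z hz
  rw [hfg z hz]
  exact h z hz

/-- A1d. `dl = (e4³ - e6²)/1728`: with `e4 = 1 + 240 A`, `e6 = 1 - 504 B`:
`e4³ - e6² = 144 (5A + 7B) + 1728 (100 A² + 8000 A³ - 147 B²)` and `12 ∣ 5σ₃(n) + 7σ₅(n)` because `12 ∣ d³(5 + 7d²)`.
(Cauchy products of the three `q`-expansions; `c 1 = 1`.) -/
theorem dl_q : ∃ c : ℕ → ℤ, QExp c dl ∧ c 0 = 0 ∧ c 1 = 1 := by
  set a : ℕ → ℤ := fun n => (ArithmeticFunction.sigma 3 n : ℤ) with ha
  set b : ℕ → ℤ := fun n => (ArithmeticFunction.sigma 5 n : ℤ) with hb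
  have hA : QExp a (a1dS 3) := a1d_qexp 3
  have hB : QExp b (a1dS 5) := a1d_qexp 5
  choose d hd using fun n => a1d_dvd n
  have hD : QExp d (fun z => (5 * a1dS 3 z + 7 * a1dS 5 z) / 12) := by
    intro z hz
    have h1 := (((hA.const_mul 5).add (hB.const_mul 7)) z hz).div_const 12
    have h2 : ∀ n, ((5 * a n + 7 * b n : ℤ) : ℂ) * qq z ^ n / 12 = (d n : ℂ) * qq z ^ n := by
      intro n
      have h3 : (5 * a n + 7 * b n : ℤ) = 12 * d n := hd n
      rw [h3]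
      push_cast
      ring
    simp only [h2] at h1
    simpa using h1
  have hAA := hA.mul hA
  have hAAA := hAA.mul hA
  have hBB := hB.mul hB
  have hall := ((hD.add (hAA.const_mul 100)).add (hAAA.const_mul 8000)).add (hBB.const_mul (-147))
  have h0 := hd 0
  have hd0 : d 0 = 0 := by simp at h0; exact h0
  have h1 := hd 1
  have hd1 : d 1 = 1 := by simp at h1; omega
  refine ⟨_, a1d_congr hall ?_, ?_, ?_⟩
  · intro z hz
    rw [dl, a1d_e4 z hz, a1d_e6 z hz]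
    push_cast
    ring
  · simp [ha, hb, hd0]
  · simp [ha, hb, hd1, Finset.Nat.antidiagonal_succ]

end Pool.Agent.MSD
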