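import Pool.Agent.Lib.MP_f58a57_nt.Defs

/-! # A2: modular transformation laws (MP_f58a57_nt) -/

open Complex ModularForm EisensteinSeries Filter
open UpperHalfPlane hiding I
open scoped Topology MatrixGroups

noncomputable section

namespace Pool.Agent.MSD

/-- the matrix and the point -/
theorem a2t_setup (a b c d : ℤ) (h : a * d - b * c = 1) (z : ℂ) (hz : 0 < z.im) :
    ∃ (γ : SL(2, ℤ)) (τ : ℍ), ofComplex z = τ ∧ (τ : ℂ) = z ∧
      ofComplex ((a * z + b) / (c * z + d)) = γ • τ ∧ denom γ τ = c * z + d ∧ γ 1 0 = c := by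
  let γ : SL(2, ℤ) := ⟨!![a, b; c, d], by rw [Matrix.det_fin_two_of]; exact h⟩
  let τ : ℍ := ⟨z, hz⟩
  have h1 : ((γ • τ : ℍ) : ℂ) = (a * z + b) / (c * z + d) := by
    rw [coe_specialLinearGroup_apply]
    simp [γ, τ]
  refine ⟨γ, τ, ofComplex_apply_of_im_pos hz, rfl, ?_, ?_, rfl⟩
  · rw [← h1]
    exact ofComplex_apply (γ • τ)
  · rw [ModularGroup.denom_apply]
    simp [γ, τ]

/-- A2a. The transformation laws under `(a b; c d) ∈ SL₂(ℤ)`. For `e4`, `e6` from the slash invariance of Mathlib's `E₄`, `E₆`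
(`SlashInvariantForm.slash_action_eqn''` or similar), for `e2` from `EisensteinSeries.E2_slash_action` and `riemannZeta_two`. -/
theorem e4_transform (a b c d : ℤ) (h : a * d - b * c = 1) (z : ℂ) (hz : 0 < z.im) :
    e4 ((a * z + b) / (c * z + d)) = (c * z + d) ^ 4 * e4 z := by
  obtain ⟨γ, τ, h1, h2, h3, h4, h5⟩ := a2t_setup a b c d h z hz
  have h6 := SlashInvariantForm.slash_action_eqn'' (Γ := 𝒮ℒ) E₄
    (γ := (γ : GL (Fin 2) ℝ)) (MonoidHom.mem_range.mpr ⟨γ, rfl⟩) τ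
  unfold e4
  rw [h3, h1]
  rw [← h4]
  exact_mod_cast h6

theorem e6_transform (a b c d : ℤ) (h : a * d - b * c = 1) (z : ℂ) (hz : 0 < z.im) :
    e6 ((a * z + b) / (c * z + d)) = (c * z + d) ^ 6 * e6 z := by
  obtain ⟨γ, τ, h1, h2, h3, h4, h5⟩ := a2t_setup a b c d h z hz
  have h6 := SlashInvariantForm.slash_action_eqn'' (Γ := 𝒮ℒ) E₆
    (γ := (γ : GL (Fin 2) ℝ)) (MonoidHom.mem_range.mpr ⟨γ, rfl⟩) τ
  unfold e6
  rw [h3, h1]
  rw [← h4]
  exact_mod_cast h6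

theorem e2_transform (a b c d : ℤ) (h : a * d - b * c = 1) (z : ℂ) (hz : 0 < z.im) :
    e2 ((a * z + b) / (c * z + d)) = (c * z + d) ^ 2 * e2 z - 6 * I * c / Real.pi * (c * z + d) := by
  obtain ⟨γ, τ, h1, h2, h3, h4, h5⟩ := a2t_setup a b c d h z hz
  have h6 := congrFun (E2_slash_action γ) τ
  have h7 : denom γ τ ≠ 0 := denom_ne_zero γ τ
  have hpi : (Real.pi : ℂ) ≠ 0 := by exact_mod_cast Real.pi_ne_zero
  rw [SL_slash_apply] at h6
  simp only [Pi.sub_apply, Pi.smul_apply, D2, riemannZeta_two, smul_eq_mul, h5] at h6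
  unfold e2
  rw [h3, h1]
  rw [h4] at h6 h7
  have h8 : ((c : ℂ) * z + d) ^ (-2 : ℤ) = ((c * z + d) ^ 2)⁻¹ := by
    rw [zpow_neg]; norm_cast
  rw [h8, ← div_eq_mul_inv, div_eq_iff (pow_ne_zero 2 h7)] at h6
  rw [h6]
  field_simp

end Pool.Agent.MSD
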