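import Pool.Agent.Lib.MP_f58a57_nt.A0_Q
import Pool.Agent.Lib.MP_f58a57_nt.A0_MF
import Pool.Agent.Lib.MP_f58a57_nt.A1_Basic
import Pool.Agent.Lib.MP_f58a57_nt.A1_DlQ
import Pool.Agent.Lib.MP_f58a57_nt.A2_Transform

/-! # A2b: e4, e6, dl are modular forms (MP_f58a57_nt) -/

open Complex ModularForm EisensteinSeries Filter
open UpperHalfPlane hiding I
open scoped Topology MatrixGroups

noncomputable section

namespace Pool.Agent.MSD

/-- A2b. `e4`, `e6`, `dl` are modular forms in the elementary sense. -/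
theorem isMF_e4 : IsMF 4 e4 := by
  obtain ⟨c, hc, -⟩ := e4_q
  refine ⟨e4_diff, ?_, ?_, hc.bdd⟩
  · intro z hz
    have h := e4_transform 1 1 0 1 (by norm_num) z hz
    simpa using h
  · intro z hz
    have h := e4_transform 0 (-1) 1 0 (by norm_num) z hz
    simpa using h

theorem isMF_e6 : IsMF 6 e6 := by
  obtain ⟨c, hc, -⟩ := e6_q
  refine ⟨e6_diff, ?_, ?_, hc.bdd⟩
  · intro z hz
    have h := e6_transform 1 1 0 1 (by norm_num) z hz
    simpa using h
  · intro z hz
    have h := e6_transform 0 (-1) 1 0 (by norm_num) z hz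
    simpa using h

theorem isMF_dl : IsMF 12 dl := by
  obtain ⟨c, hc, -⟩ := dl_q
  refine ⟨dl_diff, ?_, ?_, hc.bdd⟩
  · intro z hz
    unfold dl
    rw [isMF_e4.per z hz, isMF_e6.per z hz]
  · intro z hz
    unfold dl
    rw [isMF_e4.inv z hz, isMF_e6.inv z hz]
    ring

end Pool.Agent.MSD
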