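import Pool.Agent.Lib.MP_f58a57_nt.Defs

/-! # A3: elementary modular forms are modular forms in the sense of Mathlib (MP_f58a57_nt) -/

open Complex ModularForm EisensteinSeries Filter
open UpperHalfPlane hiding I
open scoped Topology MatrixGroups

noncomputable section

namespace Pool.Agent.MSD

/-- invariance under `T` -/
private theorem a3form_T {k : ℕ} {f : ℂ → ℂ} (hf : IsMF k f) :
    ((fun z : ℍ => f z) ∣[(k : ℤ)] ModularGroup.T) = (fun z : ℍ => f z) := by
  ext z
  have hz : 0 < ((z : ℍ) : ℂ).im := z.im_pos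
  have h := hf.per z hz
  have hd : denom (ModularGroup.T : GL (Fin 2) ℝ) z = 1 := by
    rw [ModularGroup.denom_apply]
    simp [ModularGroup.T]
  rw [SL_slash_apply, hd, modular_T_smul]
  have h2 : (((1 : ℝ) +ᵥ z : ℍ) : ℂ) = (z : ℂ) + 1 := by
    simp [add_comm]
  simp [h2, h]

/-- invariance under `S` -/
private theorem a3form_S {k : ℕ} {f : ℂ → ℂ} (hf : IsMF k f) :
    ((fun z : ℍ => f z) ∣[(k : ℤ)] ModularGroup.S) = (fun z : ℍ => f z) := by
  ext z
  have hz : 0 < ((z : ℍ) : ℂ).im := z.im_pos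
  have h := hf.inv z hz
  have hz0 : (z : ℂ) ≠ 0 := z.ne_zero
  have hd : denom (ModularGroup.S : GL (Fin 2) ℝ) z = z := by
    rw [ModularGroup.denom_apply]
    simp [ModularGroup.S]
  suffices f (-(↑z)⁻¹) * ((z : ℂ) ^ k)⁻¹ = f z by
    rw [SL_slash_apply, UpperHalfPlane.modular_S_smul, hd]
    simpa using this
  have h3 : -((z : ℂ))⁻¹ = -1 / z := by ring
  rw [h3, h]
  field_simp

/-- A3. `ModularGroup.S`, `T` generate; `slash_action_generators_SL2Z`; boundedness at `i∞` gives boundedness at all cusps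
(level one). -/
theorem IsMF.exists_form {k : ℕ} {f : ℂ → ℂ} (hf : IsMF k f) :
    ∃ F : ModularForm 𝒮ℒ k, ∀ z : ℍ, F z = f z := by
  have hall := SlashInvariantForm.slash_action_generators_SL2Z (a3form_S hf) (a3form_T hf)
  have hb : IsBoundedAtImInfty (fun z : ℍ => f z) := by
    obtain ⟨C, hC⟩ := hf.bdd
    rw [isBoundedAtImInfty_iff]
    exact ⟨C, 1, fun z hz => hC z hz⟩
  refine ⟨{ toFun := fun z : ℍ => f z
            slash_action_eq' := ?_
            holo' := ?_
            bdd_at_cusps' := ?_ }, fun z => rfl⟩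
  · intro A hA
    obtain ⟨A, rfl⟩ := hA
    exact hall A
  · rw [UpperHalfPlane.mdifferentiable_iff]
    refine hf.diff.congr ?_
    intro z hz
    simp [ofComplex_apply_of_im_pos hz]
  · intro c hc
    rw [OnePoint.isBoundedAt_iff_forall_SL2Z hc]
    intro γ _
    have h := hall γ
    have h2 : IsBoundedAtImInfty ((fun z : ℍ => f z) ∣[(k : ℤ)] γ) := by
      rw [h]
      exact hb
    exact h2

end Pool.Agent.MSD
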