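import Pool.Agent.Lib.MP_f58a57_nt.A0_Q
import Pool.Agent.Lib.MP_f58a57_nt.A1_Basic
import Pool.Agent.Lib.MP_f58a57_nt.A3_Form

/-! # A3b: small weights and division by the discriminant (MP_f58a57_nt) -/

open Complex ModularForm EisensteinSeries Filter
open UpperHalfPlane hiding I
open scoped Topology MatrixGroups

noncomputable section

namespace Pool.Agent.MSD

theorem a3w_of (z : ℂ) (hz : 0 < z.im) : ((ofComplex z : ℍ) : ℂ) = z := by
  rw [ofComplex_apply_of_im_pos hz]

theorem a3w_val {k : ℤ} {f : ℂ → ℂ} {F : ModularForm 𝒮ℒ k} (hF : ∀ z : ℍ, F z = f z)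
    (z : ℂ) (hz : 0 < z.im) : f z = F (ofComplex z) := by
  rw [hF, a3w_of z hz]

/-- A3b. Modular forms of weight zero are constant, there are none of weight 2 and of odd weight. -/
theorem IsMF.weight_zero {f : ℂ → ℂ} (hf : IsMF 0 f) : ∃ c : ℂ, ∀ z : ℂ, 0 < z.im → f z = c := by
  obtain ⟨F, hF⟩ := hf.exists_form
  obtain ⟨c, hc⟩   := ModularFormClass.levelOne_weight_zero_const (ModularForm.mcast (by norm_num : ((0 : ℕ) : ℤ) = 0) F)
  refine ⟨c, fun z hz => ?_⟩
  rw [a3w_val hF z hz]
  have h := congrFun hc (ofComplex z)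
  exact h

theorem IsMF.weight_two {f : ℂ → ℂ} (hf : IsMF 2 f) : ∀ z : ℂ, 0 < z.im → f z = 0 := by
  obtain ⟨F, hF⟩ := hf.exists_form
  intro z hz
  have h := rank_zero_iff_forall_zero.mp ModularForm.levelOne_weight_two_rank_zero
    (ModularForm.mcast (by norm_num : ((2 : ℕ) : ℤ) = 2) F)
  rw [a3w_val hF z hz]
  have h2 := congrArg (fun G : ModularForm 𝒮ℒ 2 => G (ofComplex z)) h
  exact h2

theorem IsMF.weight_odd {k : ℕ} (hk : Odd k) {f : ℂ → ℂ} (hf : IsMF k f) : ∀ z : ℂ, 0 < z.im → f z = 0 := by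
  obtain ⟨F, hF⟩ := hf.exists_form
  intro z hz
  have h := ModularForm.levelOne_odd_weight_eq_zero (k := (k : ℤ)) (by exact_mod_cast hk) F
  rw [a3w_val hF z hz, h]
  rfl

theorem a3w_coeff {k : ℤ} (F : ModularForm 𝒮ℒ k)
    (h0 : Tendsto (fun y : ℝ => F (ofComplex (I * y))) atTop (𝓝 0)) :
    (qExpansion 1 F).coeff 0 = 0 := by
  have han := ModularFormClass.analyticAt_cuspFunction_zero F one_pos one_mem_strictPeriods_SL
  have h1 : Tendsto F atImInfty (𝓝 (cuspFunction 1 F 0)) := by
    have h2 := han.continuousAt.tendsto.comp (qParam_tendsto_atImInfty one_pos)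
    refine h2.congr fun τ => ?_
    exact SlashInvariantFormClass.eq_cuspFunction F τ one_mem_strictPeriods_SL one_ne_zero
  have h4 : Tendsto (fun y : ℝ => ofComplex (I * y)) atTop atImInfty := by
    refine tendsto_comap_im_ofComplex.comp (tendsto_comap_iff.2 ?_)
    refine tendsto_id.congr fun y => ?_
    simp
  have h5 := tendsto_nhds_unique h0 (h1.comp h4)
  simp [qExpansion_coeff, ← h5]

theorem a3w_isMF {k : ℕ} (G : ModularForm 𝒮ℒ k) : IsMF k (fun z => G (ofComplex z)) where
  diff := UpperHalfPlane.mdifferentiable_iff.mp G.holo'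
  per z hz := by
    have h := SlashInvariantFormClass.periodic_comp_ofComplex G one_mem_strictPeriods_SL z
    simpa using h
  inv z hz := by
    have hz' : 0 < (-1 / z).im := by
      rw [neg_div, Complex.neg_im, one_div, Complex.inv_im]
      rw [neg_div, neg_neg]
      exact div_pos hz (Complex.normSq_pos.mpr (by rintro rfl; simp at hz))
    have h6 := SlashInvariantForm.slash_action_eqn'' (Γ := 𝒮ℒ) G
      (γ := (ModularGroup.S : GL (Fin 2) ℝ)) (MonoidHom.mem_range.mpr ⟨ModularGroup.S, rfl⟩) (ofComplex z)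
    have h7 : ((ModularGroup.S : GL (Fin 2) ℝ) • (ofComplex z) : ℍ) = ofComplex (-1 / z) := by
      apply UpperHalfPlane.ext
      rw [a3w_of _ hz']
      have h8 : (((ModularGroup.S : SL(2, ℤ)) • (ofComplex z) : ℍ) : ℂ) = -1 / z := by
        rw [coe_specialLinearGroup_apply]
        simp [ModularGroup.S, a3w_of z hz]
      exact h8
    have h9 : denom (ModularGroup.S : GL (Fin 2) ℝ) (ofComplex z) = z := by
      have h10 := ModularGroup.denom_apply ModularGroup.S (ofComplex z)
      refine h10.trans ?_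
      simp [ModularGroup.S, a3w_of z hz]
    rw [h7, h9] at h6
    exact_mod_cast h6
  bdd := by
    have hs : ∀ τ : ℍ, HasSum (fun m : ℕ ↦ (qExpansion 1 G).coeff m • Function.Periodic.qParam 1 τ ^ m) (G τ) := by
      intro τ
      exact UpperHalfPlane.hasSum_qExpansion one_pos
        (SlashInvariantFormClass.periodic_comp_ofComplex G one_mem_strictPeriods_SL)
        (ModularFormClass.holo G) (ModularFormClass.bdd_at_infty G) τ
    have h1 := (hs UpperHalfPlane.I).summable.norm
    refine ⟨∑' m, ‖(qExpansion 1 G).coeff m • Function.Periodic.qParam 1 (UpperHalfPlane.I : ℍ) ^ m‖, ?_⟩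
    intro z hz
    have hz0 : 0 < z.im := lt_of_lt_of_le one_pos hz
    have h2 := hs (ofComplex z)
    rw [← h2.tsum_eq]
    have h3 : ∀ m : ℕ, ‖(qExpansion 1 G).coeff m • Function.Periodic.qParam 1 (ofComplex z : ℍ) ^ m‖
        ≤ ‖(qExpansion 1 G).coeff m • Function.Periodic.qParam 1 (UpperHalfPlane.I : ℍ) ^ m‖ := by
      intro m
      rw [norm_smul, norm_smul, norm_pow, norm_pow]
      gcongr
      rw [Function.Periodic.norm_qParam, Function.Periodic.norm_qParam, a3w_of z hz0]
      apply Real.exp_le_exp.mpr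
      simp only [UpperHalfPlane.I, UpperHalfPlane.coe_mk, Complex.I_im]
      have := Real.pi_pos
      nlinarith
    exact (norm_tsum_le_tsum_norm h2.summable.norm).trans
      (h2.summable.norm.tsum_le_tsum h3 h1)

/-- A3c. Division by `dl`: if `f → 0` at `i∞` then `f = dl * g` with `g` of weight `k - 12`; if `k < 12` then `f = 0`.
(`CuspForm.divDiscriminant`, `CuspForm.rank_eq_zero_of_weight_lt_twelve`.) -/
theorem IsMF.div_dl {k : ℕ} {f : ℂ → ℂ} (hf : IsMF k f) (h0 : Tendsto (fun y : ℝ => f (I * y)) atTop (𝓝 0)) :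
    (∀ z : ℂ, 0 < z.im → f z = 0) ∨ (12 ≤ k ∧ ∃ g : ℂ → ℂ, IsMF (k - 12) g ∧ ∀ z : ℂ, 0 < z.im → f z = dl z * g z) := by
  obtain ⟨F, hF⟩ := hf.exists_form
  have h1 : Tendsto (fun y : ℝ => F (ofComplex (I * y))) atTop (𝓝 0) := by
    refine h0.congr' ?_
    filter_upwards [eventually_gt_atTop 0] with y hy
    exact a3w_val hF (I * y) (by simpa using hy)
  have hc := a3w_coeff F h1
  rcases lt_or_ge k 12 with hk | hk
  · left
    intro z hz
    have h2 := rank_zero_iff_forall_zero.mp (CuspForm.rank_eq_zero_of_weight_lt_twelve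
      (k := (k : ℤ)) (by exact_mod_cast hk)) (ModularForm.toCuspForm F hc)
    rw [a3w_val hF z hz, ← ModularForm.toCuspForm_apply F hc, h2]
    rfl
  · right
    refine ⟨hk, ?_⟩
    let G : ModularForm 𝒮ℒ ((k - 12 : ℕ) : ℤ) :=
      ModularForm.mcast (by push_cast [hk]; ring) (CuspForm.discriminantEquiv (ModularForm.toCuspForm F hc))
    refine ⟨fun z => G (ofComplex z), a3w_isMF G, fun z hz => ?_⟩
    have h3 : G (ofComplex z) = (CuspForm.discriminantEquiv (ModularForm.toCuspForm F hc)) (ofComplex z) := rfl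
    change f z = dl z * G (ofComplex z)
    rw [h3]
    have h4 := ModularForm.discriminant_mul_discriminantEquiv_apply (ModularForm.toCuspForm F hc) (ofComplex z)
    have h5 : dl z = ModularForm.discriminant (ofComplex z) := by
      rw [← dl_eq, a3w_of z hz]
    rw [h5, h4, ModularForm.toCuspForm_apply, a3w_val hF z hz]

end Pool.Agent.MSD
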