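import Pool.Agent.Lib.MP_f58a57_nt.A0_MF
import Pool.Agent.Lib.MP_f58a57_nt.A1_DlQ
import Pool.Agent.Lib.MP_f58a57_nt.A2_IsMF
import Pool.Agent.Lib.MP_f58a57_nt.A3_Weights

/-! # A4: integral structure of level one forms (MP_f58a57_nt) -/

open Complex ModularForm EisensteinSeries Filter
open UpperHalfPlane hiding I
open scoped Topology MatrixGroups

noncomputable section

namespace Pool.Agent.MSD

theorem a4_qParam (z : ℂ) : Function.Periodic.qParam 1 z = qq z := by
  simp [Function.Periodic.qParam, qq]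

/-- complex `q`-expansion of a modular form -/
theorem a4_hasSum {k : ℕ} {g : ℂ → ℂ} (hg : IsMF k g) :
    ∃ G : ℕ → ℂ, ∀ z : ℂ, 0 < z.im → HasSum (fun n => G n * qq z ^ n) (g z) := by
  obtain ⟨F, hF⟩ := hg.exists_form
  refine ⟨fun n => (qExpansion 1 F).coeff n, fun z hz => ?_⟩
  have h := ModularForm.hasSum_qExpansion (f := F) (h := 1) one_pos one_mem_strictPeriods_SL ⟨z, hz⟩
  rw [hF] at h
  simpa [a4_qParam] using h

/-- uniqueness of the complex `q`-expansion -/
theorem a4_unique {k : ℕ} {f : ℂ → ℂ} (hf : IsMF k f) {a b : ℕ → ℂ}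
    (ha : ∀ z : ℂ, 0 < z.im → HasSum (fun n => a n * qq z ^ n) (f z))
    (hb : ∀ z : ℂ, 0 < z.im → HasSum (fun n => b n * qq z ^ n) (f z)) (n : ℕ) : a n = b n := by
  obtain ⟨F, hF⟩ := hf.exists_form
  have h1 : a n = (qExpansion 1 F).coeff n := by
    refine ModularFormClass.qExpansion_coeff_unique (f := F) (h := 1) one_pos one_mem_strictPeriods_SL
      (fun τ => ?_) n
    have := ha τ τ.im_pos
    rw [hF]
    simpa [a4_qParam] using this
  have h2 : b n = (qExpansion 1 F).coeff n := by
    refine ModularFormClass.qExpansion_coeff_unique (f := F) (h := 1) one_pos one_mem_strictPeriods_SL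
      (fun τ => ?_) n
    have := hb τ τ.im_pos
    rw [hF]
    simpa [a4_qParam] using this
  rw [h1, h2]

/-- Cauchy product of complex `q`-expansions -/
theorem a4_mul {a b : ℕ → ℂ} {x y q : ℂ} (ha : HasSum (fun n => a n * q ^ n) x)
    (hb : HasSum (fun n => b n * q ^ n) y) :
    HasSum (fun n => (∑ p ∈ Finset.HasAntidiagonal.antidiagonal n, a p.1 * b p.2) * q ^ n) (x * y) := by
  have ha' := summable_norm_iff.2 ha.summable
  have hb' := summable_norm_iff.2 hb.summable
  have hs := (summable_norm_sum_mul_antidiagonal_of_summable_norm ha' hb').of_norm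
  have ht := tsum_mul_tsum_eq_tsum_sum_antidiagonal_of_summable_norm ha' hb'
  rw [ha.tsum_eq, hb.tsum_eq] at ht
  rw [ht]
  have he : (fun n => (∑ p ∈ Finset.HasAntidiagonal.antidiagonal n, a p.1 * b p.2) * q ^ n) =
      fun n => ∑ kl ∈ Finset.HasAntidiagonal.antidiagonal n,
        a kl.1 * q ^ kl.1 * (b kl.2 * q ^ kl.2) := by
    funext n
    rw [Finset.sum_mul]
    refine Finset.sum_congr rfl fun p hp => ?_
    rw [Finset.HasAntidiagonal.mem_antidiagonal] at hp
    rw [← hp, pow_add]
    ring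
  rw [he]
  exact hs.hasSum

/-- the `q`-expansion of `g` is integral if the one of `dl * g` is -/
theorem a4_div {k l : ℕ} {f g : ℂ → ℂ} (hf : IsMF k f) (hg : IsMF l g) (hq : HasIntQ f)
    (h : ∀ z : ℂ, 0 < z.im → f z = dl z * g z) : HasIntQ g := by
  obtain ⟨c, hc⟩ := hq
  obtain ⟨D, hD, hD0, hD1⟩ := dl_q
  obtain ⟨G, hG⟩ := a4_hasSum hg
  have key : ∀ n, (c n : ℂ) = ∑ p ∈ Finset.HasAntidiagonal.antidiagonal n, (D p.1 : ℂ) * G p.2 := by
    intro n
    refine a4_unique hf hc (b := fun n => ∑ p ∈ Finset.HasAntidiagonal.antidiagonal n,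
      (D p.1 : ℂ) * G p.2) (fun z hz => ?_) n
    rw [h z hz]
    exact a4_mul (a := fun n => (D n : ℂ)) (hD z hz) (hG z hz)
  have hint : ∀ n, ∃ m : ℤ, (m : ℂ) = G n := by
    intro n
    induction n using Nat.strong_induction_on with
    | _ n ih =>
      have h1 := key (n + 1)
      rw [Finset.Nat.antidiagonal_succ, Finset.sum_cons] at h1
      simp only [hD0, Int.cast_zero, zero_mul, zero_add, Finset.sum_map] at h1
      rw [Finset.Nat.sum_antidiagonal_eq_sum_range_succ_mk, Finset.sum_range_succ'] at h1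
      simp only [Function.Embedding.prodMap, Function.Embedding.coeFn_mk, Prod.map,
        Function.Embedding.refl_apply, Nat.succ_eq_add_one, Nat.sub_zero] at h1
      rw [hD1, Int.cast_one, one_mul] at h1
      have h2 : ∀ i : ℕ, ∃ m : ℤ, i ∈ Finset.range n →
          (m : ℂ) = (D (i + 1 + 1) : ℂ) * G (n - (i + 1)) := by
        intro i
        by_cases hi : i ∈ Finset.range n
        · obtain ⟨m, hm⟩ := ih (n - (i + 1)) (by rw [Finset.mem_range] at hi; omega)
          exact ⟨D (i + 1 + 1) * m, fun _ => by push_cast; rw [hm]⟩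
        · exact ⟨0, fun h => absurd h hi⟩
      choose m hm using h2
      refine ⟨c (n + 1) - ∑ i ∈ Finset.range n, m i, ?_⟩
      push_cast
      rw [h1, Finset.sum_congr rfl hm]
      ring
  choose m hm using hint
  refine ⟨m, fun z hz => ?_⟩
  simp only [hm]
  exact hG z hz

/-- A4. A modular form of level one with integer `q`-expansion is a polynomial in `e4, e6, dl` with integer coefficients,
weighted homogeneous of weight `k` for the weights `4, 6, 12`.

PROOF. Strong induction on `k`. Odd `k` and `k = 2`: `f = 0`. `k = 0`: constant, an integer. Otherwise `k = 4a + 6b` for some `a, b`; the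
form `f - c₀ e4^a e6^b` has integer `q`-expansion with vanishing constant term, so by A3c it is `dl * g` (or zero); `g` has a
`q`-expansion (periodic and bounded: as `dl g` has one with complex coefficients, or through A3 and Mathlib's `hasSum_qExpansion`);
comparing coefficients, `Σ_{i+j=n} D_i g_j = f_n` with `D_0 = 0`, `D_1 = 1`, `D_i ∈ ℤ`, gives `g_j ∈ ℤ` recursively. -/
theorem integral_structure {k : ℕ} {f : ℂ → ℂ} (hf : IsMF k f) (hq : HasIntQ f) :
    ∃ Θ : MvPolynomial (Fin 3) ℤ, MvPolynomial.IsWeightedHomogeneous wts Θ k ∧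
      ∀ z : ℂ, 0 < z.im → f z = MvPolynomial.aeval (vals z) Θ := by
  induction k using Nat.strong_induction_on generalizing f with
  | _ k ih =>
    have hzero : (∀ z : ℂ, 0 < z.im → f z = 0) → ∃ Θ : MvPolynomial (Fin 3) ℤ,
        MvPolynomial.IsWeightedHomogeneous wts Θ k ∧
          ∀ z : ℂ, 0 < z.im → f z = MvPolynomial.aeval (vals z) Θ := by
      intro h
      exact ⟨0, MvPolynomial.isWeightedHomogeneous_zero _ _ _, fun z hz => by rw [h z hz, map_zero]⟩
    rcases Nat.even_or_odd k with hk | hk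
    swap
    · exact hzero (hf.weight_odd hk)
    by_cases h0 : k = 0
    · subst h0
      obtain ⟨c, hc⟩ := hf.weight_zero
      obtain ⟨d, hd⟩ := hq
      have h1 := hd.tendsto
      have h2 : Tendsto (fun y : ℝ => f (I * y)) atTop (𝓝 c) := by
        refine Tendsto.congr' ?_ tendsto_const_nhds
        filter_upwards [eventually_gt_atTop 0] with y hy
        exact (hc _ (by simpa using hy)).symm
      have h3 : c = (d 0 : ℂ) := tendsto_nhds_unique h2 h1
      refine ⟨MvPolynomial.C (d 0), MvPolynomial.isWeightedHomogeneous_C _ _, fun z hz => ?_⟩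
      rw [hc z hz, h3]
      simp
    by_cases h2 : k = 2
    · subst h2
      exact hzero hf.weight_two
    obtain ⟨a, b, hab⟩ : ∃ a b : ℕ, k = 4 * a + 6 * b := by
      obtain ⟨r, hr⟩ := hk
      rcases Nat.even_or_odd' r with ⟨s, hs | hs⟩
      · exact ⟨s, 0, by omega⟩
      · exact ⟨s - 1, 1, by omega⟩
    -- the form e4^a e6^b
    have hE : IsMF k (fun z => e4 z ^ a * e6 z ^ b) := by
      rw [hab]
      exact (isMF_e4.pow a).mul (isMF_e6.pow b)
    have hpow : ∀ (u : ℂ → ℂ), (∃ c : ℕ → ℤ, QExp c u ∧ c 0 = 1) → ∀ n : ℕ,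
        ∃ c : ℕ → ℤ, QExp c (fun z => u z ^ n) ∧ c 0 = 1 := by
      rintro u ⟨c, hc, hc0⟩ n
      induction n with
      | zero =>
        refine ⟨fun n => if n = 0 then 1 else 0, fun z hz => ?_, by simp⟩
        have := hasSum_single (f := fun n : ℕ => (((if n = 0 then 1 else 0 : ℤ) : ℂ)) * qq z ^ n) 0
          (by intro n hn; simp [hn])
        simpa using this
      | succ n ih =>
        obtain ⟨d, hd, hd0⟩ := ih
        exact ⟨_, by simpa only [pow_succ] using hd.mul hc, by simp [hc0, hd0]⟩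
    obtain ⟨c4, hc4, hc40⟩ := hpow e4 e4_q a
    obtain ⟨c6, hc6, hc60⟩ := hpow e6 e6_q b
    obtain ⟨d, hd⟩ := hq
    have hg0 : IsMF k (fun z => f z + ((-d 0 : ℤ) : ℂ) * (e4 z ^ a * e6 z ^ b)) :=
      hf.add (hE.const_mul _)
    have hgq := hd.add ((hc4.mul hc6).const_mul (-d 0))
    have hlim : Tendsto (fun y : ℝ => (fun z => f z + ((-d 0 : ℤ) : ℂ) * (e4 z ^ a * e6 z ^ b)) (I * y)) atTop (𝓝 0) := by
      have := hgq.tendsto
      simpa [hc40, hc60] using this
    have hmono : MvPolynomial.IsWeightedHomogeneous wts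
        (MvPolynomial.C (d 0) * (MvPolynomial.X 0 ^ a * MvPolynomial.X 1 ^ b) : MvPolynomial (Fin 3) ℤ) k := by
      have h1 := (MvPolynomial.isWeightedHomogeneous_X ℤ wts (0 : Fin 3)).pow a
      have h2 := (MvPolynomial.isWeightedHomogeneous_X ℤ wts (1 : Fin 3)).pow b
      have h3 := (MvPolynomial.isWeightedHomogeneous_C wts (d 0)).mul (h1.mul h2)
      have h4 : 0 + (a • wts 0 + b • wts 1) = k := by
        simp [wts]; omega
      rw [h4] at h3
      exact h3
    rcases hg0.div_dl hlim with hz | ⟨h12, g, hg, hfg⟩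
    · refine ⟨MvPolynomial.C (d 0) * (MvPolynomial.X 0 ^ a * MvPolynomial.X 1 ^ b), hmono, fun z hz' => ?_⟩
      have := hz z hz'
      simp only [map_mul, map_pow, MvPolynomial.aeval_X, MvPolynomial.aeval_C, vals]
      push_cast at this
      simp
      linear_combination this
    · obtain ⟨Θ, hΘ, hΘv⟩ := ih (k - 12) (by omega) hg (a4_div hg0 hg ⟨_, hgq⟩ hfg)
      refine ⟨MvPolynomial.C (d 0) * (MvPolynomial.X 0 ^ a * MvPolynomial.X 1 ^ b) + MvPolynomial.X 2 * Θ,
        hmono.add ?_, fun z hz' => ?_⟩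
      · have h1 := (MvPolynomial.isWeightedHomogeneous_X ℤ wts (2 : Fin 3)).mul hΘ
        have h4 : wts 2 + (k - 12) = k := by
          simp [wts]; omega
        rw [h4] at h1
        exact h1
      · have := hfg z hz'
        rw [hΘv z hz'] at this
        simp only [map_mul, map_add, map_pow, MvPolynomial.aeval_X, MvPolynomial.aeval_C, vals] at this ⊢
        push_cast at this
        simp at this ⊢
        linear_combination this

end Pool.Agent.MSD
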