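import Pool.Agent.Lib.MP_f58a57_nt.A0_MF
import Pool.Agent.Lib.MP_f58a57_nt.A1_DlQ
import Pool.Agent.Lib.MP_f58a57_nt.A2_IsMF
import Pool.Agent.Lib.MP_f58a57_nt.A3_Weights

/-! # A5: uniformisation (MP_f58a57_nt) -/

open Complex ModularForm EisensteinSeries Filter
open UpperHalfPlane hiding I
open scoped Topology MatrixGroups

noncomputable section

namespace Pool.Agent.MSD

theorem a5_norm_qq (z : ℂ) : ‖qq z‖ = Real.exp (-(2 * Real.pi * z.im)) := by
  rw [qq, Complex.norm_exp]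
  congr 1
  simp

theorem a5_tendsto_qq : Tendsto (fun z : ℂ => ‖qq z‖) (comap Complex.im atTop) (𝓝 0) := by
  have h1 : Tendsto (fun y : ℝ => Real.exp (-(2 * Real.pi * y))) atTop (𝓝 0) := by
    refine Real.tendsto_exp_neg_atTop_nhds_zero.comp ?_
    exact tendsto_id.const_mul_atTop (by positivity)
  have h2 := h1.comp (tendsto_comap (f := Complex.im) (x := atTop))
  refine h2.congr fun z => ?_
  rw [a5_norm_qq]
  rfl

theorem a5_bound {c : ℕ → ℤ} {f : ℂ → ℂ} (h : QExp c f) :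
    ∃ C : ℝ, ∀ z : ℂ, 1 ≤ z.im → ‖f z - c 0‖ ≤ C * ‖qq z‖ := by
  have hI := (h I (by simp)).summable.norm
  set r : ℝ := ‖qq I‖ with hr
  have hr0 : 0 < r := by rw [hr, a5_norm_qq]; positivity
  have hI' : Summable fun n : ℕ => ‖(c n : ℂ)‖ * r ^ n := by
    refine hI.congr fun n => ?_
    rw [norm_mul, norm_pow]
  have hI1 : Summable fun n : ℕ => ‖(c (n + 1) : ℂ)‖ * r ^ n := by
    have := ((summable_nat_add_iff 1).2 hI').mul_right r⁻¹
    refine this.congr fun n => ?_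
    rw [pow_succ]
    field_simp
  refine ⟨∑' n : ℕ, ‖(c (n + 1) : ℂ)‖ * r ^ n, fun z hz => ?_⟩
  have hz0 : 0 < z.im := by linarith
  have hqr : ‖qq z‖ ≤ r := by
    rw [hr, a5_norm_qq, a5_norm_qq, Real.exp_le_exp]
    have : 2 * Real.pi * (I : ℂ).im ≤ 2 * Real.pi * z.im :=
      mul_le_mul_of_nonneg_left (by simpa using hz) (by positivity)
    linarith
  have hs := h z hz0
  have hs1 : HasSum (fun n => (c (n + 1) : ℂ) * qq z ^ (n + 1)) (f z - c 0) := by
    rw [← hasSum_nat_add_iff' 1] at hs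
    simpa using hs
  have hle : ∀ n : ℕ, ‖(c (n + 1) : ℂ) * qq z ^ (n + 1)‖ ≤ ‖(c (n + 1) : ℂ)‖ * r ^ n * ‖qq z‖ := by
    intro n
    rw [norm_mul, norm_pow, pow_succ, ← mul_assoc]
    gcongr
  rw [← hs1.tsum_eq]
  refine (norm_tsum_le_tsum_norm ?_).trans ?_
  · exact Summable.of_nonneg_of_le (fun _ => norm_nonneg _) hle (hI1.mul_right _)
  · rw [← tsum_mul_right]
    exact Summable.tsum_le_tsum hle
      (Summable.of_nonneg_of_le (fun _ => norm_nonneg _) hle (hI1.mul_right _)) (hI1.mul_right _)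

theorem a5_tendsto {c : ℕ → ℤ} {f : ℂ → ℂ} (h : QExp c f) :
    Tendsto f (comap Complex.im atTop) (𝓝 (c 0 : ℂ)) := by
  obtain ⟨C, hC⟩ := a5_bound h
  rw [tendsto_iff_norm_sub_tendsto_zero]
  have h1 : Tendsto (fun z : ℂ => C * ‖qq z‖) (comap Complex.im atTop) (𝓝 0) := by
    simpa using a5_tendsto_qq.const_mul C
  refine squeeze_zero' (Eventually.of_forall fun z => norm_nonneg _) ?_ h1
  have h2 : ∀ᶠ z : ℂ in comap Complex.im atTop, 1 ≤ z.im :=
    (tendsto_comap (f := Complex.im) (x := atTop)).eventually (eventually_ge_atTop 1)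
  filter_upwards [h2] with z hz using hC z hz

theorem a5_per_int {g : ℂ → ℂ} (hper : ∀ z : ℂ, 0 < z.im → g (z + 1) = g z) (n : ℤ) :
    ∀ z : ℂ, 0 < z.im → g (z + n) = g z := by
  induction n using Int.induction_on with
  | zero => intro z _; simp
  | succ n ih =>
    intro z hz
    have h1 := hper (z + n) (by simpa using hz)
    have h2 := ih z hz
    push_cast at h2 ⊢
    rw [← add_assoc, h1, h2]
  | pred n ih =>
    intro z hz
    have h1 := hper (z + (-(n : ℂ) - 1)) (by simpa using hz)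
    have h2 := ih z hz
    push_cast at h2 ⊢
    rw [← h1, ← h2]
    congr 1
    ring

/-- boundedness on `Im z ≥ 1` from the limit at `i∞` -/
theorem a5_bdd {g : ℂ → ℂ} (hd : DifferentiableOn ℂ g {z | 0 < z.im})
    (hper : ∀ z : ℂ, 0 < z.im → g (z + 1) = g z) {a : ℂ}
    (hlim : Tendsto g (comap Complex.im atTop) (𝓝 a)) :
    ∃ C : ℝ, ∀ z : ℂ, 1 ≤ z.im → ‖g z‖ ≤ C := by
  have h1 : ∀ᶠ z in comap Complex.im atTop, ‖g z‖ ≤ ‖a‖ + 1 := by
    have := hlim.norm.eventually (eventually_le_nhds (show ‖a‖ < ‖a‖ + 1 by linarith))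
    exact this
  rw [eventually_comap] at h1
  obtain ⟨Y, hY⟩ := eventually_atTop.1 h1
  have hK : IsCompact (Set.Icc (0 : ℝ) 1 ×ℂ Set.Icc (1 : ℝ) Y) := isCompact_Icc.reProdIm isCompact_Icc
  have hc : ContinuousOn g (Set.Icc (0 : ℝ) 1 ×ℂ Set.Icc (1 : ℝ) Y) := by
    refine hd.continuousOn.mono fun z hz => ?_
    have := (Complex.mem_reProdIm.1 hz).2.1
    exact lt_of_lt_of_le one_pos this
  obtain ⟨C, hC⟩ := hK.exists_bound_of_continuousOn hc
  refine ⟨max C (‖a‖ + 1), fun z hz => ?_⟩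
  rcases le_total Y z.im with h | h
  · exact (hY z.im h z rfl).trans (le_max_right _ _)
  · have h2 := a5_per_int hper (-⌊z.re⌋) z (by linarith)
    rw [← h2]
    refine (hC _ ?_).trans (le_max_left _ _)
    rw [Complex.mem_reProdIm]
    have h3 := Int.floor_le z.re
    have h4 := Int.lt_floor_add_one z.re
    refine ⟨⟨?_, ?_⟩, ?_, ?_⟩ <;> simp <;> linarith

/-- the `j`-function takes every value -/
theorem a5_surj (J : ℂ) : ∃ τ : ℂ, 0 < τ.im ∧ e4 τ ^ 3 = J * dl τ := by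
  by_contra hcon
  push Not at hcon
  obtain ⟨c4, hc4, hc40⟩ := e4_q
  obtain ⟨cd, hcd, hcd0, -⟩ := dl_q
  have h4 := a5_tendsto hc4
  have hdl := a5_tendsto hcd
  rw [hc40] at h4
  rw [hcd0] at hdl
  have hf : Tendsto (fun z => e4 z ^ 3 - J * dl z) (comap Complex.im atTop) (𝓝 1) := by
    have := (h4.pow 3).sub (hdl.const_mul J)
    simpa using this
  have hg : Tendsto (fun z => dl z / (e4 z ^ 3 - J * dl z)) (comap Complex.im atTop) (𝓝 0) := by
    have h := hdl.div hf one_ne_zero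
    rw [Int.cast_zero, zero_div] at h
    exact h
  have hne : ∀ z : ℂ, 0 < z.im → e4 z ^ 3 - J * dl z ≠ 0 := fun z hz h => hcon z hz (sub_eq_zero.1 h)
  have hdiff : DifferentiableOn ℂ (fun z => dl z / (e4 z ^ 3 - J * dl z)) {z | 0 < z.im} := by
    refine dl_diff.div ((e4_diff.pow 3).sub (dl_diff.const_mul J)) fun z hz => hne z hz
  have hper : ∀ z : ℂ, 0 < z.im → (fun z => dl z / (e4 z ^ 3 - J * dl z)) (z + 1) =
      (fun z => dl z / (e4 z ^ 3 - J * dl z)) z := by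
    intro z hz
    simp only [isMF_e4.per z hz, isMF_dl.per z hz]
  have hMF : IsMF 0 (fun z => dl z / (e4 z ^ 3 - J * dl z)) := by
    refine ⟨hdiff, hper, fun z hz => ?_, a5_bdd hdiff hper hg⟩
    have hz0 : z ≠ 0 := by rintro rfl; simp at hz
    simp only [isMF_e4.inv z hz, isMF_dl.inv z hz, pow_zero, one_mul]
    have : (z ^ 4 * e4 z) ^ 3 - J * (z ^ 12 * dl z) = z ^ 12 * (e4 z ^ 3 - J * dl z) := by ring
    rw [this, mul_div_mul_left _ _ (pow_ne_zero 12 hz0)]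
  obtain ⟨c, hc⟩ := hMF.weight_zero
  have hIy : Tendsto (fun y : ℝ => I * y) atTop (comap Complex.im atTop) := by
    rw [tendsto_comap_iff]
    refine tendsto_id.congr fun y => ?_
    simp
  have h1 := hg.comp hIy
  have h2 : Tendsto (fun y : ℝ => dl (I * y) / (e4 (I * y) ^ 3 - J * dl (I * y))) atTop (𝓝 c) := by
    refine Tendsto.congr' ?_ tendsto_const_nhds
    filter_upwards [eventually_gt_atTop 0] with y hy
    exact (hc _ (by simpa using hy)).symm
  have h3 : c = 0 := tendsto_nhds_unique h2 h1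
  have h4 := hc I (by simp)
  rw [h3, div_eq_zero_iff] at h4
  rcases h4 with h4 | h4
  · exact dl_ne_zero I (by simp) h4
  · exact hne I (by simp) h4

/-- A5. Every pair `(u, v)` with `u³ ≠ v²` is `(e4 τ/Ω⁴, e6 τ/Ω⁶)`.

PROOF. First `J := 1728 u³/(u³ - v²)` is a value of `jj`: otherwise `f = e4³ - J dl` (weight 12, limit 1 at `i∞`) has no zero in the upper
half plane, so `dl/f` is a modular form of weight 0 (bounded because `f → 1`, `dl → 0`), hence constant `= 0`, contradiction.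
So `e4(τ)³ v² = e6(τ)² u³` for some `τ`. If `u = 0` then `e4 τ = 0`, `e6 τ ≠ 0`, choose `Ω⁶ = e6 τ/v`. If `v = 0` then `e6 τ = 0`, choose
`Ω⁴ = e4 τ/u`. Otherwise choose `Ω⁴ = e4 τ/u`; then `Ω^12 = e4³/u³ = e6²/v²` so `e6 τ = ± v Ω⁶`; replacing `Ω` by `iΩ` changes the
sign of `Ω⁶` and not `Ω⁴`. -/
theorem uniformization (u v : ℂ) (h : u ^ 3 ≠ v ^ 2) :
    ∃ τ Ω : ℂ, 0 < τ.im ∧ Ω ≠ 0 ∧ e4 τ / Ω ^ 4 = u ∧ e6 τ / Ω ^ 6 = v := by
  have huv : u ^ 3 - v ^ 2 ≠ 0 := sub_ne_zero.2 h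
  obtain ⟨τ, hτ, hJ⟩ := a5_surj (1728 * u ^ 3 / (u ^ 3 - v ^ 2))
  have hd := dl_ne_zero τ hτ
  have hd' : e4 τ ^ 3 - e6 τ ^ 2 ≠ 0 := by
    intro h0
    apply hd
    rw [dl, h0, zero_div]
  have key : e4 τ ^ 3 * v ^ 2 = u ^ 3 * e6 τ ^ 2 := by
    rw [dl] at hJ
    field_simp at hJ
    linear_combination -hJ
  by_cases hu : u = 0
  · subst hu
    have hv : v ≠ 0 := by rintro rfl; simp at h
    have h4 : e4 τ = 0 := by
      have : e4 τ ^ 3 * v ^ 2 = 0 := by rw [key]; ring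
      rcases mul_eq_zero.1 this with h' | h'
      · exact pow_eq_zero_iff (by norm_num) |>.1 h'
      · exact absurd (pow_eq_zero_iff (by norm_num) |>.1 h') hv
    have h6 : e6 τ ≠ 0 := by
      intro h6; apply hd'; rw [h4, h6]; ring
    obtain ⟨Ω, hΩ⟩ := IsAlgClosed.exists_pow_nat_eq (e6 τ / v) (n := 6) (by norm_num)
    have hΩ0 : Ω ≠ 0 := by
      rintro rfl
      rw [zero_pow (by norm_num)] at hΩ
      exact div_ne_zero h6 hv hΩ.symm
    refine ⟨τ, Ω, hτ, hΩ0, by rw [h4, zero_div], ?_⟩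
    rw [hΩ]; field_simp
  by_cases hv : v = 0
  · subst hv
    have h6 : e6 τ = 0 := by
      have : u ^ 3 * e6 τ ^ 2 = 0 := by rw [← key]; ring
      rcases mul_eq_zero.1 this with h' | h'
      · exact absurd (pow_eq_zero_iff (by norm_num) |>.1 h') hu
      · exact pow_eq_zero_iff (by norm_num) |>.1 h'
    have h4 : e4 τ ≠ 0 := by
      intro h4; apply hd'; rw [h4, h6]; ring
    obtain ⟨Ω, hΩ⟩ := IsAlgClosed.exists_pow_nat_eq (e4 τ / u) (n := 4) (by norm_num)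
    have hΩ0 : Ω ≠ 0 := by
      rintro rfl
      rw [zero_pow (by norm_num)] at hΩ
      exact div_ne_zero h4 hu hΩ.symm
    refine ⟨τ, Ω, hτ, hΩ0, ?_, by rw [h6, zero_div]⟩
    rw [hΩ]; field_simp
  have h4 : e4 τ ≠ 0 := by
    intro h4
    have : u ^ 3 * e6 τ ^ 2 = 0 := by rw [← key, h4]; ring
    rcases mul_eq_zero.1 this with h' | h'
    · exact hu (pow_eq_zero_iff (by norm_num) |>.1 h')
    · apply hd'; rw [h4, h']; ring
  obtain ⟨Ω, hΩ⟩ := IsAlgClosed.exists_pow_nat_eq (e4 τ / u) (n := 4) (by norm_num)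
  have hΩ0 : Ω ≠ 0 := by
    rintro rfl
    rw [zero_pow (by norm_num)] at hΩ
    exact div_ne_zero h4 hu hΩ.symm
  have hsq : (e6 τ / v) ^ 2 = (Ω ^ 6) ^ 2 := by
    have : (Ω ^ 6) ^ 2 = (Ω ^ 4) ^ 3 := by ring
    rw [this, hΩ]
    field_simp
    linear_combination -key
  rcases sq_eq_sq_iff_eq_or_eq_neg.1 hsq with h6 | h6
  · refine ⟨τ, Ω, hτ, hΩ0, by rw [hΩ]; field_simp, ?_⟩
    rw [← h6]
    have : e6 τ ≠ 0 := by
      intro h0
      rw [h0, zero_div] at h6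
      exact pow_ne_zero 6 hΩ0 h6.symm
    field_simp
  · have hI4 : (I * Ω) ^ 4 = Ω ^ 4 := by
      rw [mul_pow, Complex.I_pow_four, one_mul]
    have hI6 : (I * Ω) ^ 6 = - Ω ^ 6 := by
      have : (I : ℂ) ^ 6 = -1 := by
        rw [show (6 : ℕ) = 4 + 2 from rfl, pow_add, Complex.I_pow_four, Complex.I_sq]; ring
      rw [mul_pow, this]; ring
    refine ⟨τ, I * Ω, hτ, mul_ne_zero Complex.I_ne_zero hΩ0, by rw [hI4, hΩ]; field_simp, ?_⟩
    rw [hI6, ← h6]
    have : e6 τ ≠ 0 := by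
      intro h0
      rw [h0, zero_div] at h6
      exact pow_ne_zero 6 hΩ0 (neg_eq_zero.1 h6.symm)
    field_simp

end Pool.Agent.MSD
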