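import Pool.Agent.Lib.MP_f58a57_nt.A0_MF
import Pool.Agent.Lib.MP_f58a57_nt.A1_DlQ
import Pool.Agent.Lib.MP_f58a57_nt.A2_IsMF
import Pool.Agent.Lib.MP_f58a57_nt.A3_Weights

/-! # A6: Ramanujan differential equations (MP_f58a57_nt) -/

open Complex ModularForm EisensteinSeries Filter
open UpperHalfPlane hiding I
open scoped Topology MatrixGroups

noncomputable section

namespace Pool.Agent.MSD

theorem A6_open : IsOpen {z : ℂ | 0 < z.im} := isOpen_lt continuous_const Complex.continuous_im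

theorem A6_norm_qq (z : ℂ) : ‖qq z‖ = Real.exp (-(2 * Real.pi * z.im)) := by
  unfold qq
  rw [Complex.norm_exp]
  congr 1
  simp

/-- a `q`-expansion tends to its constant term exponentially fast -/
theorem A6_decay {c : ℕ → ℤ} {f : ℂ → ℂ} (h : QExp c f) :
    ∃ K : ℝ, 0 ≤ K ∧ ∀ z : ℂ, 1 / 2 ≤ z.im →
      ‖f z - c 0‖ ≤ K * Real.exp (-(2 * Real.pi * (z.im - 1 / 2))) := by
  have h0 := (h (I / 2) (by simp)).summable.norm
  have him : (I / 2 : ℂ).im = 1 / 2 := by simp
  refine ⟨∑' n, ‖(c n : ℂ) * qq (I / 2) ^ n‖, tsum_nonneg fun n => norm_nonneg _, fun z hz => ?_⟩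
  have hpi := Real.pi_pos
  have h1 := h z (by linarith)
  have h2 : HasSum (fun n => (c (n + 1) : ℂ) * qq z ^ (n + 1)) (f z - c 0) := by
    have := (hasSum_nat_add_iff' 1).2 h1
    simpa using this
  have h3 : ∀ n, ‖(c (n + 1) : ℂ) * qq z ^ (n + 1)‖ ≤
      ‖(c (n + 1) : ℂ) * qq (I / 2) ^ (n + 1)‖ * Real.exp (-(2 * Real.pi * (z.im - 1 / 2))) := by
    intro n
    rw [norm_mul, norm_mul, norm_pow, norm_pow, A6_norm_qq, A6_norm_qq, him]
    refine (mul_le_mul_of_nonneg_left ?_ (norm_nonneg (c (n + 1) : ℂ))).trans_eq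
      (mul_assoc _ _ _).symm
    rw [← Real.exp_nat_mul, ← Real.exp_nat_mul, ← Real.exp_add, Real.exp_le_exp]
    have hn : (0 : ℝ) ≤ n := Nat.cast_nonneg n
    push_cast
    have : (0 : ℝ) ≤ (n : ℝ) * (2 * Real.pi * (z.im - 1 / 2)) := by
      apply mul_nonneg hn
      apply mul_nonneg (by positivity)
      linarith
    nlinarith
  have h4 : Summable (fun n => ‖(c (n + 1) : ℂ) * qq (I / 2) ^ (n + 1)‖) :=
    (summable_nat_add_iff 1).2 h0
  have h5 : Summable (fun n => ‖(c (n + 1) : ℂ) * qq (I / 2) ^ (n + 1)‖ *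
      Real.exp (-(2 * Real.pi * (z.im - 1 / 2)))) := h4.mul_right _
  rw [← h2.tsum_eq]
  calc ‖∑' n, (c (n + 1) : ℂ) * qq z ^ (n + 1)‖
      ≤ ∑' n, ‖(c (n + 1) : ℂ) * qq (I / 2) ^ (n + 1)‖ *
        Real.exp (-(2 * Real.pi * (z.im - 1 / 2))) := tsum_of_norm_bounded h5.hasSum h3
    _ = (∑' n, ‖(c (n + 1) : ℂ) * qq (I / 2) ^ (n + 1)‖) *
        Real.exp (-(2 * Real.pi * (z.im - 1 / 2))) := tsum_mul_right
    _ ≤ _ := by
      refine mul_le_mul_of_nonneg_right ?_ (Real.exp_pos _).le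
      have h6 := h0.sum_add_tsum_nat_add 1
      have h7 : 0 ≤ ∑ i ∈ Finset.range 1, ‖(c i : ℂ) * qq (I / 2) ^ i‖ :=
        Finset.sum_nonneg fun i _ => norm_nonneg _
      linarith

/-- the derivative of a `q`-expansion decays exponentially -/
theorem A6_deriv_decay {c : ℕ → ℤ} {f : ℂ → ℂ} (h : QExp c f)
    (hd : DifferentiableOn ℂ f {z | 0 < z.im}) :
    ∃ K : ℝ, 0 ≤ K ∧ ∀ z : ℂ, 1 ≤ z.im →
      ‖deriv f z‖ ≤ K * Real.exp (-(2 * Real.pi * (z.im - 1))) := by
  obtain ⟨K, hK, hb⟩ := A6_decay h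
  refine ⟨K * 2, by positivity, fun z hz => ?_⟩
  have hpi := Real.pi_pos
  have him : ∀ w : ℂ, ‖w - z‖ ≤ 1 / 2 → z.im - 1 / 2 ≤ w.im := by
    intro w hw
    have h1 : |(w - z).im| ≤ ‖w - z‖ := Complex.abs_im_le_norm _
    have h2 := abs_le.1 (h1.trans hw)
    rw [Complex.sub_im] at h2
    linarith [h2.1]
  have h1 : DiffContOnCl ℂ (fun w => f w - c 0) (Metric.ball z (1 / 2)) := by
    have h2 : DifferentiableOn ℂ (fun w => f w - c 0) (Metric.closedBall z (1 / 2)) := by
      refine (hd.mono ?_).sub_const _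
      intro w hw
      rw [Metric.mem_closedBall, dist_eq_norm] at hw
      have := him w hw
      show 0 < w.im
      linarith
    refine ⟨h2.mono Metric.ball_subset_closedBall, ?_⟩
    exact h2.continuousOn.mono Metric.closure_ball_subset_closedBall
  have h3 : deriv f z = deriv (fun w => f w - c 0) z := by
    rw [deriv_sub_const_fun]
  rw [h3]
  have h4 := Complex.norm_deriv_le_of_forall_mem_sphere_norm_le (c := z) (R := 1 / 2)
    (C := K * Real.exp (-(2 * Real.pi * (z.im - 1)))) (by norm_num) h1 (by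
      intro w hw
      rw [mem_sphere_iff_norm] at hw
      have h5 := him w hw.le
      refine (hb w (by linarith)).trans ?_
      refine mul_le_mul_of_nonneg_left ?_ hK
      rw [Real.exp_le_exp]
      nlinarith)
  refine h4.trans (le_of_eq ?_)
  ring

/-- the Serre derivative -/
theorem A6_serre {k : ℕ} {f : ℂ → ℂ} {c : ℕ → ℤ} (hf : IsMF k f) (hq : QExp c f) :
    IsMF (k + 2) (fun z => (2 * Real.pi * I)⁻¹ * deriv f z - (k : ℂ) / 12 * (e2 z * f z)) ∧
    Tendsto (fun y : ℝ => (2 * Real.pi * I)⁻¹ * deriv f (I * y) -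
      (k : ℂ) / 12 * (e2 (I * y) * f (I * y))) atTop (𝓝 (-((k : ℂ) / 12) * c 0)) := by
  obtain ⟨c2, hc2, hc20⟩ := e2_q
  obtain ⟨K, hK, hder⟩ := A6_deriv_decay hq hf.diff
  have hpi := Real.pi_pos
  have hpiC : (Real.pi : ℂ) ≠ 0 := by exact_mod_cast Real.pi_ne_zero
  have hderf : ∀ z : ℂ, 0 < z.im → HasDerivAt f (deriv f z) z := fun z hz =>
    (hf.diff.differentiableAt (A6_open.mem_nhds hz)).hasDerivAt
  have he2per : ∀ z : ℂ, 0 < z.im → e2 (z + 1) = e2 z := by
    intro z hz
    have := e2_transform 1 1 0 1 (by norm_num) z hz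
    simpa using this
  have he2inv : ∀ z : ℂ, 0 < z.im → e2 (-1 / z) = z ^ 2 * e2 z - 6 * I / Real.pi * z := by
    intro z hz
    have := e2_transform 0 (-1) 1 0 (by norm_num) z hz
    simpa using this
  constructor
  · refine ⟨?_, ?_, ?_, ?_⟩
    · refine DifferentiableOn.sub ?_ ?_
      · exact (hf.diff.deriv A6_open).const_mul _
      · exact (e2_diff.mul hf.diff).const_mul _
    · intro z hz
      have h1 : HasDerivAt f (deriv f (z + 1)) (z + 1) := hderf (z + 1) (by simp [hz])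
      have h2 : HasDerivAt (fun w => f (w + 1)) (deriv f (z + 1)) z := h1.comp_add_const z 1
      have h3 : (fun w => f (w + 1)) =ᶠ[𝓝 z] f := by
        filter_upwards [A6_open.mem_nhds hz] with w hw
        exact hf.per w hw
      have h4 : deriv f (z + 1) = deriv f z := (h2.congr_of_eventuallyEq h3.symm).unique (hderf z hz)
      show (2 * Real.pi * I)⁻¹ * deriv f (z + 1) - (k : ℂ) / 12 * (e2 (z + 1) * f (z + 1)) = _
      rw [h4, he2per z hz, hf.per z hz]
    · intro z hz
      have hz0 : z ≠ 0 := by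
        rintro rfl
        simp at hz
      have him : 0 < (-1 / z).im := by
        rw [show (-1 : ℂ) / z = -z⁻¹ by field_simp, Complex.neg_im, Complex.inv_im]
        have : 0 < Complex.normSq z := Complex.normSq_pos.2 hz0
        have h5 : -(-z.im / Complex.normSq z) = z.im / Complex.normSq z := by ring
        rw [h5]
        positivity
      have h1 : HasDerivAt (fun w : ℂ => -1 / w) (1 / z ^ 2) z := by
        have := (hasDerivAt_inv hz0).neg
        refine (this.congr_deriv ?_).congr_of_eventuallyEq (Eventually.of_forall fun w => ?_)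
        · field_simp
        · show -1 / w = -w⁻¹
          field_simp
      have h2 : HasDerivAt (fun w => f (-1 / w)) (deriv f (-1 / z) * (1 / z ^ 2)) z :=
        (hderf _ him).comp z h1
      have h3 : HasDerivAt (fun w => w ^ k * f w) ((k : ℂ) * z ^ (k - 1) * f z + z ^ k * deriv f z) z := by
        have := (hasDerivAt_pow k z).mul (hderf z hz)
        exact this
      have h4 : (fun w => f (-1 / w)) =ᶠ[𝓝 z] (fun w => w ^ k * f w) := by
        filter_upwards [A6_open.mem_nhds hz] with w hw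
        exact hf.inv w hw
      have h5 : deriv f (-1 / z) * (1 / z ^ 2) = (k : ℂ) * z ^ (k - 1) * f z + z ^ k * deriv f z :=
        h2.unique (h3.congr_of_eventuallyEq h4)
      have h6 : deriv f (-1 / z) = (k : ℂ) * z ^ (k + 1) * f z + z ^ (k + 2) * deriv f z := by
        have h7 : deriv f (-1 / z) = (deriv f (-1 / z) * (1 / z ^ 2)) * z ^ 2 := by field_simp
        rw [h7, h5]
        rcases Nat.eq_zero_or_pos k with rfl | hk
        · simp; ring
        · obtain ⟨m, rfl⟩ : ∃ m, k = m + 1 := ⟨k - 1, by omega⟩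
          simp only [Nat.add_sub_cancel]
          ring
      show (2 * Real.pi * I)⁻¹ * deriv f (-1 / z) - (k : ℂ) / 12 * (e2 (-1 / z) * f (-1 / z)) = _
      rw [h6, he2inv z hz, hf.inv z hz]
      have hI : (I : ℂ) ≠ 0 := Complex.I_ne_zero
      have h8 : (2 * (Real.pi : ℂ) * I)⁻¹ = -I / (2 * Real.pi) := by
        rw [inv_eq_iff_eq_inv, eq_comm, inv_div, div_eq_iff (by simpa using hI)]
        ring_nf
        rw [Complex.I_sq]
        ring
      rw [h8]
      field_simp
      ring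
    · obtain ⟨C1, hC1⟩ := hc2.bdd
      obtain ⟨C2, hC2⟩ := hq.bdd
      refine ⟨‖(2 * Real.pi * I : ℂ)⁻¹‖ * K + ‖(k : ℂ) / 12‖ * (C1 * C2), fun z hz => ?_⟩
      have h1 : ‖deriv f z‖ ≤ K := by
        refine (hder z hz).trans ?_
        have : Real.exp (-(2 * Real.pi * (z.im - 1))) ≤ 1 := by
          rw [Real.exp_le_one_iff]
          have : 0 ≤ 2 * Real.pi * (z.im - 1) := mul_nonneg (by positivity) (by linarith)
          linarith
        nlinarith
      refine (norm_sub_le _ _).trans ?_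
      rw [norm_mul, norm_mul, norm_mul (e2 z)]
      have h2 := hC1 z hz
      have h3 := hC2 z hz
      have h4 : ‖e2 z‖ * ‖f z‖ ≤ C1 * C2 := mul_le_mul h2 h3 (norm_nonneg _) ((norm_nonneg _).trans h2)
      gcongr
  · have h1 : Tendsto (fun y : ℝ => deriv f (I * y)) atTop (𝓝 0) := by
      rw [tendsto_zero_iff_norm_tendsto_zero]
      have h2 : Tendsto (fun y : ℝ => K * Real.exp (-(2 * Real.pi * (y - 1)))) atTop (𝓝 (K * 0)) := by
        refine Tendsto.const_mul K ?_
        refine Real.tendsto_exp_atBot.comp ?_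
        refine tendsto_neg_atTop_atBot.comp ?_
        refine Tendsto.const_mul_atTop (by positivity) ?_
        exact tendsto_atTop_add_const_right _ (-1) tendsto_id
      rw [mul_zero] at h2
      refine squeeze_zero' (Eventually.of_forall fun y => norm_nonneg _) ?_ h2
      filter_upwards [eventually_ge_atTop (1 : ℝ)] with y hy
      have h3 := hder (I * y) (by simpa using hy)
      simpa using h3
    have h2 := ((h1.const_mul ((2 * Real.pi * I : ℂ)⁻¹)).sub
      ((hc2.tendsto.mul hq.tendsto).const_mul ((k : ℂ) / 12)))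
    rw [hc20] at h2
    convert h2 using 2
    push_cast
    ring

/-- A6. PROOF. The Serre derivative `(2πi)⁻¹ e4' - e2 e4/3` is a modular form of weight 6 (Mathlib: `serreDerivative_slash_equivariant`; or
differentiate the transformation laws of A2 under `z ↦ z + 1`, `z ↦ -1/z`), holomorphic and bounded, with value `-1/3` at `i∞`; add `e6/3`: it
tends to 0 at `i∞`, so it vanishes by `IsMF.div_dl` (`6 < 12`). Same for `e6` (weight 8, add `e4²/2`). -/
theorem deriv_e4 (z : ℂ) (hz : 0 < z.im) :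
    HasDerivAt e4 (2 * Real.pi * I * ((e2 z * e4 z - e6 z) / 3)) z := by
  obtain ⟨c, hc, hc0⟩ := e4_q
  obtain ⟨c6, hc6, hc60⟩ := e6_q
  obtain ⟨h1, h2⟩ := A6_serre isMF_e4 hc
  have h3 := h1.add (isMF_e6.const_mul (1 / 3))
  have h4 : Tendsto (fun y : ℝ => (2 * Real.pi * I)⁻¹ * deriv e4 (I * y) -
      ((4 : ℕ) : ℂ) / 12 * (e2 (I * y) * e4 (I * y)) + 1 / 3 * e6 (I * y)) atTop (𝓝 0) := by
    have := h2.add (hc6.tendsto.const_mul (1 / 3))
    rw [hc0, hc60] at this
    convert this using 2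
    push_cast
    ring
  have h5 : ∀ z : ℂ, 0 < z.im → (2 * Real.pi * I)⁻¹ * deriv e4 z -
      ((4 : ℕ) : ℂ) / 12 * (e2 z * e4 z) + 1 / 3 * e6 z = 0 := by
    rcases h3.div_dl h4 with h | ⟨h, _⟩
    · exact h
    · omega
  have h6 := h5 z hz
  have h7 : deriv e4 z = 2 * Real.pi * I * ((e2 z * e4 z - e6 z) / 3) := by
    have hI : (2 * Real.pi * I : ℂ) ≠ 0 := by
      have := Real.pi_ne_zero
      simp [Complex.I_ne_zero, this]
    have h8 : deriv e4 z = (2 * Real.pi * I) * ((2 * Real.pi * I)⁻¹ * deriv e4 z) := by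
      rw [← mul_assoc, mul_inv_cancel₀ hI, one_mul]
    rw [h8]
    congr 1
    push_cast at h6
    linear_combination h6
  rw [← h7]
  exact (e4_diff.differentiableAt (A6_open.mem_nhds hz)).hasDerivAt

theorem deriv_e6 (z : ℂ) (hz : 0 < z.im) :
    HasDerivAt e6 (2 * Real.pi * I * ((e2 z * e6 z - e4 z ^ 2) / 2)) z := by
  obtain ⟨c, hc, hc0⟩ := e6_q
  obtain ⟨c4, hc4, hc40⟩ := e4_q
  obtain ⟨h1, h2⟩ := A6_serre isMF_e6 hc
  have h3 := h1.add ((isMF_e4.pow 2).const_mul (1 / 2))
  have h4 : Tendsto (fun y : ℝ => (2 * Real.pi * I)⁻¹ * deriv e6 (I * y) -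
      ((6 : ℕ) : ℂ) / 12 * (e2 (I * y) * e6 (I * y)) + 1 / 2 * e4 (I * y) ^ 2) atTop (𝓝 0) := by
    have := h2.add ((hc4.tendsto.pow 2).const_mul (1 / 2))
    rw [hc0, hc40] at this
    convert this using 2
    push_cast
    ring
  have h5 : ∀ z : ℂ, 0 < z.im → (2 * Real.pi * I)⁻¹ * deriv e6 z -
      ((6 : ℕ) : ℂ) / 12 * (e2 z * e6 z) + 1 / 2 * e4 z ^ 2 = 0 := by
    rcases h3.div_dl h4 with h | ⟨h, _⟩
    · exact h
    · omega
  have h6 := h5 z hz
  have h7 : deriv e6 z = 2 * Real.pi * I * ((e2 z * e6 z - e4 z ^ 2) / 2) := by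
    have hI : (2 * Real.pi * I : ℂ) ≠ 0 := by
      have := Real.pi_ne_zero
      simp [Complex.I_ne_zero, this]
    have h8 : deriv e6 z = (2 * Real.pi * I) * ((2 * Real.pi * I)⁻¹ * deriv e6 z) := by
      rw [← mul_assoc, mul_inv_cancel₀ hI, one_mul]
    rw [h8]
    congr 1
    push_cast at h6
    linear_combination h6
  rw [← h7]
  exact (e6_diff.differentiableAt (A6_open.mem_nhds hz)).hasDerivAt

end Pool.Agent.MSD
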