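import Pool.Agent.Lib.MP_f58a57_nt.A6_Ramanujan
import Pool.Agent.Lib.MP_f58a57_nt.A2_Transform

/-! # A7: the derivatives of the j-function (MP_f58a57_nt) -/

open Complex ModularForm EisensteinSeries Filter
open UpperHalfPlane hiding I
open scoped Topology MatrixGroups

noncomputable section

namespace Pool.Agent.MSD

/-- A7a. `dl' = 2πi e2 dl`, `jj' = -2πi e4² e6/dl`. -/
theorem deriv_dl (z : ℂ) (hz : 0 < z.im) : HasDerivAt dl (2 * Real.pi * I * (e2 z * dl z)) z := by
  have h := (((deriv_e4 z hz).pow 3).sub ((deriv_e6 z hz).pow 2)).div_const 1728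
  have h' : HasDerivAt dl _ z := h
  refine h'.congr_deriv ?_
  unfold dl
  push_cast
  ring

theorem deriv_jj (z : ℂ) (hz : 0 < z.im) :
    HasDerivAt jj (-(2 * Real.pi * I) * (e4 z ^ 2 * e6 z / dl z)) z := by
  have hd := dl_ne_zero z hz
  have h := ((deriv_e4 z hz).pow 3).div (deriv_dl z hz) hd
  have h' : HasDerivAt jj _ z := h
  refine h'.congr_deriv ?_
  simp only [Pi.pow_apply]
  push_cast
  field_simp
  ring

/-- A7b. `jj'' = -(2πi)² (e2 e4² e6/6 - (2/3) e4 e6² - e4⁴/2)/dl`. -/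
theorem deriv_deriv_jj (z : ℂ) (hz : 0 < z.im) :
    deriv (deriv jj) z = -(2 * Real.pi * I) ^ 2 *
      ((e2 z * e4 z ^ 2 * e6 z / 6 - 2 / 3 * e4 z * e6 z ^ 2 - e4 z ^ 4 / 2) / dl z) := by
  have hd := dl_ne_zero z hz
  have hev : deriv jj =ᶠ[𝓝 z] fun w => -(2 * Real.pi * I) * (e4 w ^ 2 * e6 w / dl w) := by
    have hopen : IsOpen {w : ℂ | 0 < w.im} := isOpen_lt continuous_const Complex.continuous_im
    filter_upwards [hopen.mem_nhds hz] with w hw
    exact (deriv_jj w hw).deriv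
  rw [hev.deriv_eq]
  have h := (((((deriv_e4 z hz).pow 2).mul (deriv_e6 z hz)).div (deriv_dl z hz) hd)).const_mul
    (-(2 * Real.pi * I))
  have h' : HasDerivAt (fun w => -(2 * Real.pi * I) * (e4 w ^ 2 * e6 w / dl w)) _ z := h
  rw [h'.deriv]
  simp only [Pi.pow_apply, Pi.mul_apply]
  push_cast
  field_simp
  ring

/-- A7c. invariance of `jj` (sanity check, not used). -/
theorem jj_transform (a b c d : ℤ) (h : a * d - b * c = 1) (z : ℂ) (hz : 0 < z.im) :
    jj ((a * z + b) / (c * z + d)) = jj z := by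
  have hd := dl_ne_zero z hz
  have hcd : (c : ℂ) * z + d ≠ 0 := by
    intro h0
    have him : (c : ℝ) * z.im = 0 := by
      have := congrArg Complex.im h0
      simpa using this
    have hc : c = 0 := by
      rcases mul_eq_zero.mp him with h1 | h1
      · exact_mod_cast h1
      · exact absurd h1 hz.ne'
    subst hc
    have hd0 : (d : ℂ) = 0 := by simpa using h0
    have hd1 : d = 0 := by exact_mod_cast hd0
    subst hd1
    simp at h
  unfold jj dl
  rw [e4_transform a b c d h z hz, e6_transform a b c d h z hz]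
  have hd2 : e4 z ^ 3 - e6 z ^ 2 ≠ 0 := by
    intro h0
    apply hd
    unfold dl
    rw [h0]
    simp
  have e1 : ((c * z + d) ^ 4 * e4 z) ^ 3 - ((c * z + d) ^ 6 * e6 z) ^ 2
      = (c * z + d) ^ 12 * (e4 z ^ 3 - e6 z ^ 2) := by ring
  rw [e1]
  field_simp

end Pool.Agent.MSD
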