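import Pool.Agent.Lib.MP_f58a57_nt.A0_Q
import Pool.Agent.Lib.MP_f58a57_nt.A1_Basic

/-! # A8: growth (MP_f58a57_nt) -/

open Complex ModularForm EisensteinSeries Filter
open UpperHalfPlane hiding I
open scoped Topology MatrixGroups

noncomputable section

namespace Pool.Agent.MSD

open scoped ArithmeticFunction.sigma Nat in
theorem a8_key (k : ℕ) (q : ℂ) (r : ℝ) (hr0 : 0 ≤ r) (hr1 : r < 1) (hq : ‖q‖ ≤ r) :
    ‖∑' n : ℕ+, (σ k n : ℂ) * q ^ (n : ℕ)‖ ≤ (k + 1)! * (1 / (1 - r) ^ (k + 2)) := by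
  have hr : ‖r‖ < 1 := by rwa [Real.norm_of_nonneg hr0]
  have h1 := hasSum_choose_mul_geometric_of_norm_lt_one (𝕜 := ℝ) (k + 1) hr
  have h2 := h1.mul_left (((k + 1)! : ℕ) : ℝ)
  have hb : ∀ n : ℕ, ‖(σ k n : ℂ) * q ^ n‖ ≤ ((k + 1)! : ℝ) * (((n + (k + 1)).choose (k + 1) : ℝ) * r ^ n) := by
    intro n
    rw [norm_mul, norm_pow, Complex.norm_natCast, ← mul_assoc]
    apply mul_le_mul _ (pow_le_pow_left₀ (norm_nonneg _) hq n) (by positivity) (by positivity)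
    have h3 : σ k n ≤ n ^ (k + 1) := ArithmeticFunction.sigma_le_pow_succ k n
    have h4 : n ^ (k + 1) ≤ (n + 1) ^ (k + 1) := Nat.pow_le_pow_left (Nat.le_succ n) _
    have h5 : (n + 1) ^ (k + 1) ≤ (n + 1).ascFactorial (k + 1) := Nat.pow_succ_le_ascFactorial _ _
    rw [Nat.ascFactorial_eq_factorial_mul_choose] at h5
    exact_mod_cast h3.trans (h4.trans h5)
  have hs : Summable fun n : ℕ => ‖(σ k n : ℂ) * q ^ n‖ :=
    Summable.of_nonneg_of_le (fun _ => norm_nonneg _) hb h2.summable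
  have hs' : Summable fun n : ℕ+ => ‖(σ k n : ℂ) * q ^ (n : ℕ)‖ :=
    hs.comp_injective (i := fun n : ℕ+ => (n : ℕ)) PNat.coe_injective
  calc ‖∑' n : ℕ+, (σ k n : ℂ) * q ^ (n : ℕ)‖ ≤ ∑' n : ℕ+, ‖(σ k n : ℂ) * q ^ (n : ℕ)‖ := norm_tsum_le_tsum_norm hs'
    _ ≤ ∑' n : ℕ, ‖(σ k n : ℂ) * q ^ n‖ := by
        exact hs'.tsum_le_tsum_of_inj (fun n : ℕ+ => (n : ℕ)) PNat.coe_injective (fun _ _ => norm_nonneg _)
          (fun _ => le_rfl) hs
    _ ≤ _ := by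
        rw [← h2.tsum_eq]
        exact hs.tsum_le_tsum hb h2.summable

theorem a8_one_sub (ε : ℝ) (h0 : 0 < ε) (h1 : ε ≤ 1) : ε / 2 ≤ 1 - Real.exp (-(2 * Real.pi * ε)) := by
  have h2 : ε ≤ 2 * Real.pi * ε := by nlinarith [Real.pi_gt_three]
  have h3 : Real.exp (-(2 * Real.pi * ε)) ≤ Real.exp (-ε) := Real.exp_le_exp.2 (by linarith)
  have h4 : 1 + ε ≤ Real.exp ε := by linarith [Real.add_one_le_exp ε]
  have h5 : Real.exp (-ε) ≤ 1 / (1 + ε) := by
    rw [Real.exp_neg, ← one_div]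
    exact one_div_le_one_div_of_le (by linarith) h4
  have h6 : 1 / (1 + ε) ≤ 1 - ε / 2 := by
    rw [div_le_iff₀ (by linarith)]
    nlinarith
  linarith

open scoped ArithmeticFunction.sigma Nat in
theorem a8_key2 (k : ℕ) (z : ℂ) (ε : ℝ) (h0 : 0 < ε) (h1 : ε ≤ 1) (hz : ε ≤ z.im) :
    ‖∑' n : ℕ+, (σ k n : ℂ) * exp (2 * Real.pi * I * z) ^ (n : ℕ)‖ ≤ (k + 1)! * (2 / ε) ^ (k + 2) := by
  have hr : ‖exp (2 * Real.pi * I * z)‖ ≤ Real.exp (-(2 * Real.pi * ε)) := by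
    rw [Complex.norm_exp]
    apply Real.exp_le_exp.2
    have : (2 * Real.pi * I * z).re = -(2 * Real.pi * z.im) := by simp
    rw [this]
    have := Real.pi_pos
    nlinarith
  have h2 := a8_one_sub ε h0 h1
  have hr1 : Real.exp (-(2 * Real.pi * ε)) < 1 := by linarith
  refine (a8_key k _ _ (Real.exp_nonneg _) hr1 hr).trans ?_
  apply mul_le_mul_of_nonneg_left _ (by positivity)
  rw [div_pow, one_div, ← one_div, div_le_div_iff₀ (by apply pow_pos; linarith) (by positivity), one_mul, ← mul_pow]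
  apply pow_le_pow_left₀ h0.le
  linarith

/-- A8. Polynomial growth towards the real line. PROOF. From `e2 = 1 - 24 Σ σ₁(n) qⁿ` etc.: coefficients are at most `504 n⁶`
in absolute value for `n ≥ 1`, `|q| = e^{-2πy}` and `Σ n⁶ e^{-2πny} ≤ C y^{-7}` for `0 < y ≤ 1`
(or: `n⁶ r^n` sums to a rational function of `r = e^{-2πy}` with denominator `(1-r)^7`, and `1 - r ≥ y/2` for `0 < y ≤ 1`).
If the coefficient bounds are not at hand: any exponent in place of 7 is fine. -/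
theorem growth : ∃ C : ℕ, ∀ (z : ℂ) (ε : ℝ), 0 < ε → ε ≤ 1 → ε ≤ z.im →
    ‖e2 z‖ ≤ C * (1 / ε) ^ C ∧ ‖e4 z‖ ≤ C * (1 / ε) ^ C ∧ ‖e6 z‖ ≤ C * (1 / ε) ^ C := by
  refine ⟨10 ^ 8, fun z ε h0 h1 hz => ?_⟩
  have hz0 : 0 < z.im := lt_of_lt_of_le h0 hz
  have he : 1 ≤ 1 / ε := by rw [le_div_iff₀ h0]; linarith
  -- general comparison
  have hcmp : ∀ (w S : ℂ) (c A : ℝ) (m : ℕ), w = 1 + c * S → ‖S‖ ≤ A * (2 / ε) ^ m → 0 ≤ A → m ≤ 10 ^ 8 →
      1 + |c| * A * 2 ^ m ≤ 10 ^ 8 → ‖w‖ ≤ (10 ^ 8 : ℕ) * (1 / ε) ^ (10 ^ 8) := by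
    intro w S c A m hw hS hA hm hc
    have e1 : ‖w‖ ≤ 1 + |c| * (A * (2 / ε) ^ m) := by
      rw [hw]
      refine (norm_add_le _ _).trans ?_
      rw [norm_one, norm_mul, Complex.norm_real, Real.norm_eq_abs]
      gcongr
    have e2 : (2 / ε) ^ m = 2 ^ m * (1 / ε) ^ m := by
      rw [← mul_pow]; congr 1; ring
    have e3 : (1 / ε) ^ m ≤ (1 / ε) ^ (10 ^ 8) := pow_le_pow_right₀ he hm
    have e4 : 1 ≤ (1 / ε) ^ (10 ^ 8) := one_le_pow₀ he
    calc ‖w‖ ≤ 1 + |c| * (A * (2 / ε) ^ m) := e1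
      _ = 1 + |c| * A * 2 ^ m * (1 / ε) ^ m := by rw [e2]; ring
      _ ≤ (1 / ε) ^ (10 ^ 8) + |c| * A * 2 ^ m * (1 / ε) ^ (10 ^ 8) := by
          apply add_le_add e4
          apply mul_le_mul_of_nonneg_left e3 (by positivity)
      _ = (1 + |c| * A * 2 ^ m) * (1 / ε) ^ (10 ^ 8) := by ring
      _ ≤ (10 ^ 8 : ℕ) * (1 / ε) ^ (10 ^ 8) := by
          apply mul_le_mul_of_nonneg_right _ (by positivity)
          exact_mod_cast hc
  set τ : ℍ := ⟨z, hz0⟩ with hτ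
  have hτz : (τ : ℂ) = z := rfl
  have hof : ofComplex z = τ := by
    rw [← hτz]; exact ofComplex_apply τ
  refine ⟨?_, ?_, ?_⟩
  · have hk := a8_key2 1 z ε h0 h1 hz
    have h := E2_eq_tsum_cexp (z := τ)
    refine hcmp (e2 z) _ (-24) 2 3 ?_ (by simpa [Nat.factorial] using hk) (by norm_num) (by norm_num) ?_
    · rw [e2, hof, h]
      simp only [Function.Periodic.qParam, ofReal_one, div_one, hτz]
      push_cast; ring
    · rw [abs_neg, abs_of_nonneg (by norm_num)]; norm_num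
  · have hk := a8_key2 3 z ε h0 h1 hz
    have h := EisensteinSeries.q_expansion_bernoulli (k := 4) (by norm_num) (by decide) τ
    refine hcmp (e4 z) _ 240 24 5 ?_ (by simpa [Nat.factorial] using hk) (by norm_num) (by norm_num) ?_
    · rw [e4, hof, h]
      simp only [hτz, zpow_natCast]
      rw [show bernoulli 4 = -1 / 30 by decide +kernel]
      push_cast; ring
    · rw [abs_of_nonneg (by norm_num)]; norm_num
  · have hk := a8_key2 5 z ε h0 h1 hz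
    have h := EisensteinSeries.q_expansion_bernoulli (k := 6) (by norm_num) (by decide) τ
    refine hcmp (e6 z) _ (-504) 720 7 ?_ (by simpa [Nat.factorial] using hk) (by norm_num) (by norm_num) ?_
    · rw [e6, hof, h]
      simp only [hτz, zpow_natCast]
      rw [show bernoulli 6 = 1 / 42 by decide +kernel]
      push_cast; ring
    · rw [abs_neg, abs_of_nonneg (by norm_num)]; norm_num

end Pool.Agent.MSD
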