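import Pool.Agent.Lib.MP_f58a57_nt.Defs

/-! # B1: the coset sum (MP_f58a57_nt) -/

open Complex ModularForm EisensteinSeries Filter
open UpperHalfPlane hiding I
open scoped Topology MatrixGroups

noncomputable section

namespace Pool.Agent.MSD

lemma B1_mem_TT {N : ℕ} {ρ : Σ _ : ℕ × ℕ, ℕ} :
    ρ ∈ TT N ↔ (ρ.1.1 * ρ.1.2 = N ∧ N ≠ 0) ∧ ρ.2 < ρ.1.2 := by
  unfold TT
  rw [Finset.mem_sigma, Nat.mem_divisorsAntidiagonal, Finset.mem_range]

/-- B1a. Every integer matrix of determinant `N > 0` is `γ * mat ρ` with `det γ = 1` and `ρ ∈ TT N`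
(Mathlib: `FixedDetMatrices.reduce_mem_reps` and friends; or the Euclidean algorithm). -/
theorem exists_rep (N : ℕ) (hN : 0 < N) (M : Matrix (Fin 2) (Fin 2) ℤ) (hM : M.det = N) :
    ∃ γ : Matrix (Fin 2) (Fin 2) ℤ, γ.det = 1 ∧ ∃ ρ ∈ TT N, M = γ * mat ρ := by
  obtain ⟨A, B, C, D, rfl⟩ : ∃ A B C D, M = !![A, B; C, D] :=
    ⟨M 0 0, M 0 1, M 1 0, M 1 1, Matrix.eta_fin_two M⟩
  rw [Matrix.det_fin_two_of] at hM
  have hg0 : 0 < Int.gcd A C := by
    rcases Nat.eq_zero_or_pos (Int.gcd A C) with h | h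
    · exfalso
      rw [Int.gcd_eq_zero_iff] at h
      obtain ⟨rfl, rfl⟩ := h
      simp at hM
      omega
    · exact h
  obtain ⟨g, hg⟩ : ∃ g : ℤ, g = Int.gcd A C := ⟨_, rfl⟩
  have hgpos : 0 < g := by rw [hg]; exact_mod_cast hg0
  obtain ⟨a', ha'⟩ : g ∣ A := by rw [hg]; exact Int.gcd_dvd_left _ _
  obtain ⟨c', hc'⟩ : g ∣ C := by rw [hg]; exact Int.gcd_dvd_right _ _
  obtain ⟨u, v, huv⟩ : ∃ u v : ℤ, g = A * u + C * v :=
    ⟨_, _, by rw [hg]; exact Int.gcd_eq_gcd_ab A C⟩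
  have h1 : a' * u + c' * v = 1 := by
    have h2 : g * (a' * u + c' * v) = g * 1 := by
      rw [mul_one]
      conv_rhs => rw [huv, ha', hc']
      ring
    exact mul_left_cancel₀ hgpos.ne' h2
  obtain ⟨x, hx⟩ : ∃ x : ℤ, x = u * B + v * D := ⟨_, rfl⟩
  obtain ⟨δ, hδ⟩ : ∃ δ : ℤ, δ = a' * D - c' * B := ⟨_, rfl⟩
  have hgδ : g * δ = N := by
    rw [hδ, ← hM, ha', hc']
    ring
  have hδpos : 0 < δ := by
    have : 0 < g * δ := by rw [hgδ]; exact_mod_cast hN
    exact pos_of_mul_pos_right this hgpos.le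
  have hb0 := Int.emod_nonneg x hδpos.ne'
  have hb1 := Int.emod_lt_of_pos x hδpos
  have hdiv := Int.emod_add_mul_ediv x δ
  obtain ⟨b, hb⟩ : ∃ b : ℤ, b = x % δ := ⟨_, rfl⟩
  obtain ⟨t, ht⟩ : ∃ t : ℤ, t = x / δ := ⟨_, rfl⟩
  rw [← hb] at hb0 hb1 hdiv
  rw [← ht] at hdiv
  refine ⟨!![a', a' * t - v; c', c' * t + u], ?_, ⟨(g.toNat, δ.toNat), b.toNat⟩, ?_, ?_⟩
  · rw [Matrix.det_fin_two_of]
    linear_combination h1
  · rw [B1_mem_TT]
    refine ⟨⟨?_, hN.ne'⟩, ?_⟩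
    · have : ((g.toNat * δ.toNat : ℕ) : ℤ) = N := by
        push_cast
        rw [Int.toNat_of_nonneg hgpos.le, Int.toNat_of_nonneg hδpos.le, hgδ]
      exact_mod_cast this
    · simp only
      omega
  · unfold mat
    simp only
    rw [Int.toNat_of_nonneg hgpos.le, Int.toNat_of_nonneg hδpos.le, Int.toNat_of_nonneg hb0]
    rw [Matrix.mul_fin_two]
    have e1 : A = a' * g + (a' * t - v) * 0 := by rw [ha']; ring
    have e2 : B = a' * b + (a' * t - v) * δ := by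
      have : a' * x - v * δ = B := by
        rw [hx, hδ]; linear_combination B * h1
      linear_combination (-1 : ℤ) * this - a' * hdiv
    have e3 : C = c' * g + (c' * t + u) * 0 := by rw [hc']; ring
    have e4 : D = c' * b + (c' * t + u) * δ := by
      have : c' * x + u * δ = D := by
        rw [hx, hδ]; linear_combination D * h1
      linear_combination (-1 : ℤ) * this - c' * hdiv
    rw [← e1, ← e2, ← e3, ← e4]

/-- B1b. The representative is unique. -/
theorem rep_unique (N : ℕ) (hN : 0 < N) (γ : Matrix (Fin 2) (Fin 2) ℤ) (hγ : γ.det = 1)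
    (ρ ρ' : Σ _ : ℕ × ℕ, ℕ) (hρ : ρ ∈ TT N) (hρ' : ρ' ∈ TT N) (h : mat ρ' = γ * mat ρ) : ρ = ρ' := by
  obtain ⟨p, q, r, s, rfl⟩ : ∃ A B C D, γ = !![A, B; C, D] :=
    ⟨γ 0 0, γ 0 1, γ 1 0, γ 1 1, Matrix.eta_fin_two γ⟩
  rw [Matrix.det_fin_two_of] at hγ
  obtain ⟨⟨a, d⟩, b⟩ := ρ
  obtain ⟨⟨a', d'⟩, b'⟩ := ρ'
  rw [B1_mem_TT] at hρ hρ'
  simp only at hρ hρ'
  obtain ⟨⟨h1, _⟩, h2⟩ := hρ
  obtain ⟨⟨h1', _⟩, h2'⟩ := hρ'
  unfold mat at h
  simp only [Matrix.mul_fin_two] at h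
  have e1 := congrFun (congrFun h 0) 0
  have e2 := congrFun (congrFun h 0) 1
  have e3 := congrFun (congrFun h 1) 0
  have e4 := congrFun (congrFun h 1) 1
  simp at e1 e2 e3 e4
  have ha : 0 < a := Nat.pos_of_ne_zero (by rintro rfl; simp at h1; omega)
  have ha' : 0 < a' := Nat.pos_of_ne_zero (by rintro rfl; simp at h1'; omega)
  have hr : r = 0 := by
    rcases e3 with h | h
    · exact h
    · omega
  subst hr
  have hps : p * s = 1 := by linarith
  have hp : 0 < p := by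
    have : 0 < p * (a : ℤ) := by rw [← e1]; exact_mod_cast ha'
    exact pos_of_mul_pos_left this (by positivity)
  have hp1 : p = 1 := by
    have hd : p ∣ 1 := ⟨s, hps.symm⟩
    exact Int.eq_one_of_dvd_one hp.le hd
  subst hp1
  have hs1 : s = 1 := by linarith
  subst hs1
  have hdd : d' = d := by
    have : (d' : ℤ) = d := by linarith
    exact_mod_cast this
  subst hdd
  have haa : a' = a := by
    have : (a' : ℤ) = a := by linarith
    exact_mod_cast this
  subst haa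
  have hbb : b' = b := by
    have e2' : (b' : ℤ) = b + q * d' := by linarith
    have hq : q = 0 := by
      by_contra hq
      rcases lt_or_gt_of_ne hq with h | h
      · have : q * (d' : ℤ) ≤ -1 * d' := mul_le_mul_of_nonneg_right (by omega) (by positivity)
        omega
      · have : 1 * (d' : ℤ) ≤ q * d' := mul_le_mul_of_nonneg_right (by omega) (by positivity)
        omega
    rw [hq] at e2'
    have : (b' : ℤ) = b := by linarith
    exact_mod_cast this
  subst hbb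
  rfl

/-- B1d. The number of representatives is at most `N²`, and `mat ρ` has determinant `N`. -/
theorem card_TT (N : ℕ) : (TT N).card ≤ N ^ 2 := by
  unfold TT
  rw [Finset.card_sigma]
  calc ∑ p ∈ Nat.divisorsAntidiagonal N, (Finset.range p.2).card
      ≤ ∑ p ∈ Nat.divisorsAntidiagonal N, N := by
        refine Finset.sum_le_sum fun p hp => ?_
        rw [Finset.card_range]
        have := Nat.mem_divisorsAntidiagonal.1 hp
        exact Nat.le_of_dvd (Nat.pos_of_ne_zero this.2) ⟨p.1, by rw [mul_comm]; exact this.1.symm⟩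
    _ = (Nat.divisorsAntidiagonal N).card * N := by rw [Finset.sum_const, smul_eq_mul]
    _ ≤ N * N := by
        refine Nat.mul_le_mul_right N ?_
        refine le_trans ?_ (Nat.card_divisors_le_self N)
        refine Finset.card_le_card_of_injOn Prod.fst ?_ ?_
        · intro p hp
          exact Nat.fst_mem_divisors_of_mem_antidiagonal hp
        · intro p hp p' hp' he
          have h1 := Nat.mem_divisorsAntidiagonal.1 (Finset.mem_coe.1 hp)
          have h2 := Nat.mem_divisorsAntidiagonal.1 (Finset.mem_coe.1 hp')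
          rw [← he, ← h1.1] at h2
          have hp0 : 0 < p.1 := Nat.pos_of_ne_zero (by
            intro h0
            apply h1.2
            rw [← h1.1, h0, zero_mul])
          exact Prod.ext he (Nat.eq_of_mul_eq_mul_left hp0 h2.1.symm)
    _ = N ^ 2 := (sq N).symm

theorem det_mat (N : ℕ) (ρ : Σ _ : ℕ × ℕ, ℕ) (hρ : ρ ∈ TT N) : (mat ρ).det = N := by
  unfold mat
  rw [Matrix.det_fin_two_of, mul_zero, sub_zero]
  exact_mod_cast (B1_mem_TT.1 hρ).1.1

/-- B1c. Sums of a left invariant function over the representatives are invariant under right multiplication.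
PROOF. `ρ ↦` representative of `mat ρ * g` is injective by B1b, hence a bijection of `TT N`. -/
theorem perm_sum (N : ℕ) (hN : 0 < N) (φ : Matrix (Fin 2) (Fin 2) ℤ → ℂ)
    (hφ : ∀ γ M : Matrix (Fin 2) (Fin 2) ℤ, γ.det = 1 → M.det = N → φ (γ * M) = φ M)
    (g : Matrix (Fin 2) (Fin 2) ℤ) (hg : g.det = 1) :
    ∑ ρ ∈ TT N, φ (mat ρ * g) = ∑ ρ ∈ TT N, φ (mat ρ) := by
  classical
  have hex : ∀ ρ : Σ _ : ℕ × ℕ, ℕ, ∃ (ρ' : Σ _ : ℕ × ℕ, ℕ) (γ : Matrix (Fin 2) (Fin 2) ℤ),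
      ρ ∈ TT N → (ρ' ∈ TT N ∧ γ.det = 1 ∧ mat ρ * g = γ * mat ρ') := by
    intro ρ
    by_cases hρ : ρ ∈ TT N
    · obtain ⟨γ, hγ, ρ', hρ', h⟩ := exists_rep N hN (mat ρ * g)
        (by rw [Matrix.det_mul, hg, mul_one, det_mat N ρ hρ])
      exact ⟨ρ', γ, fun _ => ⟨hρ', hγ, h⟩⟩
    · exact ⟨ρ, 1, fun h => absurd h hρ⟩
  choose σ γ hσ using hex
  have hinj : Set.InjOn σ (TT N : Set (Σ _ : ℕ × ℕ, ℕ)) := by
    intro ρ1 h1 ρ2 h2 he
    have h1' := hσ ρ1 h1
    have h2' := hσ ρ2 h2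
    have hg' : g * g.adjugate = 1 := by rw [Matrix.mul_adjugate, hg, one_smul]
    have hγ' : (γ ρ1).adjugate * γ ρ1 = 1 := by rw [Matrix.adjugate_mul, h1'.2.1, one_smul]
    have hm : mat (σ ρ1) = (γ ρ1).adjugate * (mat ρ1 * g) := by
      rw [h1'.2.2, ← Matrix.mul_assoc, hγ', Matrix.one_mul]
    refine rep_unique N hN (γ ρ2 * (γ ρ1).adjugate) ?_ ρ1 ρ2 h1 h2 ?_
    · rw [Matrix.det_mul, Matrix.det_adjugate, h1'.2.1, h2'.2.1]
      simp
    · calc mat ρ2 = mat ρ2 * g * g.adjugate := by rw [Matrix.mul_assoc, hg', Matrix.mul_one]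
        _ = γ ρ2 * mat (σ ρ1) * g.adjugate := by rw [h2'.2.2, he]
        _ = γ ρ2 * ((γ ρ1).adjugate * (mat ρ1 * g)) * g.adjugate := by rw [hm]
        _ = γ ρ2 * (γ ρ1).adjugate * mat ρ1 * (g * g.adjugate) := by
            simp only [Matrix.mul_assoc]
        _ = γ ρ2 * (γ ρ1).adjugate * mat ρ1 := by rw [hg', Matrix.mul_one]
  have himg : (TT N).image σ = TT N := by
    apply Finset.eq_of_subset_of_card_le
    · intro ρ' h
      obtain ⟨ρ, hρ, rfl⟩ := Finset.mem_image.1 h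
      exact (hσ ρ hρ).1
    · rw [Finset.card_image_of_injOn hinj]
  calc ∑ ρ ∈ TT N, φ (mat ρ * g) = ∑ ρ ∈ TT N, φ (mat (σ ρ)) := by
        refine Finset.sum_congr rfl fun ρ hρ => ?_
        have h := hσ ρ hρ
        rw [h.2.2]
        exact hφ _ _ h.2.1 (det_mat N _ h.1)
    _ = ∑ ρ' ∈ (TT N).image σ, φ (mat ρ') :=
        (Finset.sum_image (f := fun ρ => φ (mat ρ)) hinj).symm
    _ = ∑ ρ ∈ TT N, φ (mat ρ) := by rw [himg]

end Pool.Agent.MSD
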