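import Pool.Agent.Lib.MP_f58a57_nt.B2_Two

/-! # B2: the matrix families (MP_f58a57_nt) -/

open Complex ModularForm EisensteinSeries Filter
open UpperHalfPlane hiding I
open scoped Topology MatrixGroups

noncomputable section

namespace Pool.Agent.MSD

/-- denominators are nonzero -/
theorem b2fm_den_ne (a b c e N : ℤ) (hN : 0 < N) (hM : a * e - b * c = N) (z : ℂ) (hz : 0 < z.im) :
    (c : ℂ) * z + e ≠ 0 := by
  intro h
  have h1 := congrArg Complex.im h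
  simp at h1
  have hc : c = 0 := by
    rcases h1 with h1 | h1
    · exact h1
    · exact absurd h1 hz.ne'
  subst hc
  have h2 := congrArg Complex.re h
  simp at h2
  subst h2
  simp at hM
  omega

/-- the transformed point is in the upper half plane -/
theorem b2fm_im_pos (a b c e N : ℤ) (hN : 0 < N) (hM : a * e - b * c = N) (z : ℂ) (hz : 0 < z.im) :
    0 < (((a : ℂ) * z + b) / ((c : ℂ) * z + e)).im := by
  have hne := b2fm_den_ne a b c e N hN hM z hz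
  have hpos : 0 < Complex.normSq ((c : ℂ) * z + e) := Complex.normSq_pos.2 hne
  have key : (((a : ℂ) * z + b) / ((c : ℂ) * z + e)).im =
      (N : ℝ) * z.im / Complex.normSq ((c : ℂ) * z + e) := by
    rw [Complex.div_im, ← hM]
    simp only [Complex.add_im, Complex.mul_im, Complex.intCast_re, Complex.intCast_im, Complex.add_re,
      Complex.mul_re, zero_mul, add_zero, sub_zero]
    push_cast
    ring
  rw [key]
  have : (0 : ℝ) < N := by exact_mod_cast hN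
  positivity

theorem b2fm_det (M : Matrix (Fin 2) (Fin 2) ℤ) : M.det = M 0 0 * M 1 1 - M 0 1 * M 1 0 :=
  Matrix.det_fin_two M

/-- the cases 4 and 6 uniformly; also for 2 by `FM_two` -/
theorem b2fm_left_aux (w : ℕ) (E : ℂ → ℂ)
    (hE : ∀ (a b c d : ℤ), a * d - b * c = 1 → ∀ z : ℂ, 0 < z.im →
      E ((a * z + b) / (c * z + d)) = (c * z + d) ^ w * E z)
    (N : ℕ) (hN : 0 < N) (γ M : Matrix (Fin 2) (Fin 2) ℤ) (hγ : γ.det = 1) (hM : M.det = N)
    (z : ℂ) (hz : 0 < z.im) :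
    ((N : ℂ) / ((γ * M) 1 0 * z + (γ * M) 1 1)) ^ w *
        E (((γ * M) 0 0 * z + (γ * M) 0 1) / ((γ * M) 1 0 * z + (γ * M) 1 1)) =
      ((N : ℂ) / (M 1 0 * z + M 1 1)) ^ w * E ((M 0 0 * z + M 0 1) / (M 1 0 * z + M 1 1)) := by
  rw [b2fm_det] at hγ hM
  have hN' : (0 : ℤ) < N := by exact_mod_cast hN
  have hne := b2fm_den_ne _ _ _ _ _ hN' hM z hz
  have him := b2fm_im_pos _ _ _ _ _ hN' hM z hz
  set W : ℂ := (M 0 0 * z + M 0 1) / (M 1 0 * z + M 1 1) with hW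
  have hne2 := b2fm_den_ne (γ 0 0) (γ 0 1) (γ 1 0) (γ 1 1) 1 one_pos hγ W him
  have e1 : ((γ * M) 1 0 : ℂ) * z + (γ * M) 1 1 = (γ 1 0 * W + γ 1 1) * (M 1 0 * z + M 1 1) := by
    rw [hW, add_mul, mul_assoc, div_mul_cancel₀ _ hne]
    simp only [Matrix.mul_apply, Fin.sum_univ_two]
    push_cast
    ring
  have e2 : ((γ * M) 0 0 : ℂ) * z + (γ * M) 0 1 = (γ 0 0 * W + γ 0 1) * (M 1 0 * z + M 1 1) := by
    rw [hW, add_mul, mul_assoc, div_mul_cancel₀ _ hne]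
    simp only [Matrix.mul_apply, Fin.sum_univ_two]
    push_cast
    ring
  rw [e1, e2, mul_div_mul_right _ _ hne, hE _ _ _ _ hγ W him, div_pow, div_pow, mul_pow]
  field_simp

/-- B2a. Left invariance. For `M = (a b; c e)`, `γ = (p q; r s)`: `γM z = γ(Mz)`, and the automorphy factor is multiplicative.
For `κ = 2` the quasi-modular term of `e2` cancels: `FM 2 N M z = N² (cz+e)⁻² E₂*(Mz) - N E₂*(z)`, `E₂* = e2s`, and `e2s` is invariant
(`Im Mz = N Im z/|cz+e|²`). -/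
theorem FM_left (κ : Fin 3) (N : ℕ) (hN : 0 < N) (γ M : Matrix (Fin 2) (Fin 2) ℤ) (hγ : γ.det = 1) (hM : M.det = N)
    (z : ℂ) (hz : 0 < z.im) : FM κ N (γ * M) z = FM κ N M z := by
  have hd : (γ * M).det = N := by rw [Matrix.det_mul, hγ, hM, one_mul]
  fin_cases κ
  · exact b2fm_left_aux 4 e4 e4_transform N hN γ M hγ hM z hz
  · exact b2fm_left_aux 6 e6 e6_transform N hN γ M hγ hM z hz
  · change FM 2 N (γ * M) z = FM 2 N M z
    rw [FM_two N hN _ hd z hz, FM_two N hN _ hM z hz,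
      b2fm_left_aux 2 e2s e2s_transform N hN γ M hγ hM z hz]

theorem b2fm_S_aux (w : ℕ) (E : ℂ → ℂ) (N : ℕ) (hN : 0 < N) (M : Matrix (Fin 2) (Fin 2) ℤ) (hM : M.det = N)
    (z : ℂ) (hz : 0 < z.im) :
    ((N : ℂ) / (M 1 0 * (-1 / z) + M 1 1)) ^ w * E ((M 0 0 * (-1 / z) + M 0 1) / (M 1 0 * (-1 / z) + M 1 1)) =
    z ^ w * (((N : ℂ) / ((M * matS) 1 0 * z + (M * matS) 1 1)) ^ w *
      E (((M * matS) 0 0 * z + (M * matS) 0 1) / ((M * matS) 1 0 * z + (M * matS) 1 1))) := by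
  have hz0 : z ≠ 0 := by
    rintro rfl
    simp at hz
  have hN' : (0 : ℤ) < N := by exact_mod_cast hN
  have hd : (M * matS).det = N := by rw [Matrix.det_mul, hM]; simp [matS, Matrix.det_fin_two]
  rw [b2fm_det] at hd
  have hne := b2fm_den_ne _ _ _ _ _ hN' hd z hz
  have e1 : (M 1 0 : ℂ) * (-1 / z) + M 1 1 = ((M * matS) 1 0 * z + (M * matS) 1 1) / z := by
    rw [eq_div_iff hz0, add_mul, mul_assoc, div_mul_cancel₀ _ hz0]
    simp [Matrix.mul_apply, Fin.sum_univ_two, matS]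
    ring
  have e2 : (M 0 0 : ℂ) * (-1 / z) + M 0 1 = ((M * matS) 0 0 * z + (M * matS) 0 1) / z := by
    rw [eq_div_iff hz0, add_mul, mul_assoc, div_mul_cancel₀ _ hz0]
    simp [Matrix.mul_apply, Fin.sum_univ_two, matS]
    ring
  rw [e1, e2, div_div_div_cancel_right₀ hz0, ← mul_assoc, ← mul_pow]
  congr 2
  rw [div_div_eq_mul_div]
  ring

theorem b2fm_e2s_S (z : ℂ) (hz : 0 < z.im) : e2s (-1 / z) = z ^ 2 * e2s z := by
  have h := e2s_transform 0 (-1) 1 0 (by norm_num) z hz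
  simpa using h

theorem b2fm_e2s_T (z : ℂ) (hz : 0 < z.im) : e2s (z + 1) = e2s z := by
  have h := e2s_transform 1 1 0 1 (by norm_num) z hz
  simpa using h

theorem b2fm_im_S (z : ℂ) (hz : 0 < z.im) : 0 < (-1 / z).im := by
  have h := b2fm_im_pos 0 (-1) 1 0 1 one_pos (by norm_num) z hz
  simpa using h

/-- B2b. Behaviour under `z ↦ -1/z` and `z ↦ z + 1`. -/
theorem FM_S (κ : Fin 3) (N : ℕ) (hN : 0 < N) (M : Matrix (Fin 2) (Fin 2) ℤ) (hM : M.det = N)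
    (z : ℂ) (hz : 0 < z.im) : FM κ N M (-1 / z) = z ^ kwt κ * FM κ N (M * matS) z := by
  have hd : (M * matS).det = N := by rw [Matrix.det_mul, hM]; simp [matS, Matrix.det_fin_two]
  fin_cases κ
  · exact b2fm_S_aux 4 e4 N hN M hM z hz
  · exact b2fm_S_aux 6 e6 N hN M hM z hz
  · change FM 2 N M (-1 / z) = z ^ 2 * FM 2 N (M * matS) z
    rw [FM_two N hN _ hd z hz, FM_two N hN _ hM _ (b2fm_im_S z hz),
      b2fm_S_aux 2 e2s N hN M hM z hz, b2fm_e2s_S z hz]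
    ring

theorem b2fm_T_aux (w : ℕ) (E : ℂ → ℂ) (N : ℕ) (M M' : Matrix (Fin 2) (Fin 2) ℤ) (hM' : M' = M * !![1, 1; 0, 1])
    (z : ℂ) :
    ((N : ℂ) / (M 1 0 * (z + 1) + M 1 1)) ^ w * E ((M 0 0 * (z + 1) + M 0 1) / (M 1 0 * (z + 1) + M 1 1)) =
    (((N : ℂ) / (M' 1 0 * z + M' 1 1)) ^ w * E ((M' 0 0 * z + M' 0 1) / (M' 1 0 * z + M' 1 1))) := by
  have e1 : (M 1 0 : ℂ) * (z + 1) + M 1 1 = (M' 1 0 * z + M' 1 1) := by
    rw [hM']
    simp [Matrix.mul_apply, Fin.sum_univ_two]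
    ring
  have e2 : (M 0 0 : ℂ) * (z + 1) + M 0 1 = (M' 0 0 * z + M' 0 1) := by
    rw [hM']
    simp [Matrix.mul_apply, Fin.sum_univ_two]
    ring
  rw [e1, e2]

theorem FM_T (κ : Fin 3) (N : ℕ) (hN : 0 < N) (M : Matrix (Fin 2) (Fin 2) ℤ) (hM : M.det = N)
    (z : ℂ) (hz : 0 < z.im) : FM κ N M (z + 1) = FM κ N (M * !![1, 1; 0, 1]) z := by
  have hd : Matrix.det (M * (!![1, 1; 0, 1] : Matrix (Fin 2) (Fin 2) ℤ)) = (N : ℤ) := by
    rw [Matrix.det_mul, hM]; simp [Matrix.det_fin_two]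
  have hz1 : 0 < (z + 1).im := by simpa using hz
  fin_cases κ
  · exact b2fm_T_aux 4 e4 N M _ rfl z
  · exact b2fm_T_aux 6 e6 N M _ rfl z
  · change FM 2 N M (z + 1) = FM 2 N (M * !![1, 1; 0, 1]) z
    rw [FM_two N hN _ hd z hz, FM_two N hN _ hM _ hz1, b2fm_T_aux 2 e2s N M _ rfl z, b2fm_e2s_T z hz]

/-- B2c. Upper triangular matrices: `N = a δ`. -/
theorem FM_mat (κ : Fin 3) (N : ℕ) (hN : 0 < N) (ρ : Σ _ : ℕ × ℕ, ℕ) (hρ : ρ ∈ TT N) (z : ℂ) (hz : 0 < z.im) :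
    FM κ N (mat ρ) z = Gr κ z ρ := by
  obtain ⟨⟨a, δ⟩, b⟩ := ρ
  rw [TT, Finset.mem_sigma, Nat.mem_divisorsAntidiagonal] at hρ
  have hprod : a * δ = N := hρ.1.1
  have hδ : (δ : ℂ) ≠ 0 := by
    have : δ ≠ 0 := by
      rintro rfl
      simp at hprod
      omega
    exact_mod_cast this
  have hdiv : (N : ℂ) / δ = a := by
    rw [← hprod, Nat.cast_mul, mul_div_assoc, div_self hδ, mul_one]
  fin_cases κ
  · simp [FM, Gr, GG, mat, hdiv]
  · simp [FM, Gr, GG, mat, hdiv]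
  · simp [FM, Gr, GG, mat, hdiv]
    left
    rw [← hprod]
    push_cast
    ring

end Pool.Agent.MSD
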