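import Pool.Agent.Lib.MP_f58a57_nt.A2_Transform

/-! # B2d: the weight 2 family (MP_f58a57_nt) -/

open Complex ModularForm EisensteinSeries Filter
open UpperHalfPlane hiding I
open scoped Topology MatrixGroups

noncomputable section

namespace Pool.Agent.MSD

/-- the denominator does not vanish -/
theorem B2_denom_ne {a b c d : ℤ} (h : 0 < a * d - b * c) {z : ℂ} (hz : 0 < z.im) :
    (c : ℂ) * z + d ≠ 0 := by
  intro h0
  have him := congrArg Complex.im h0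
  have hre := congrArg Complex.re h0
  simp at him hre
  rcases him with hc | hc
  · rw [hc] at hre
    simp at hre
    rw [hc, hre] at h
    simp at h
  · exact hz.ne' hc

/-- the imaginary part of `Mz` -/
theorem B2_im {a b c d : ℤ} (h : 0 < a * d - b * c) {z : ℂ} (hz : 0 < z.im) :
    ((((a : ℂ) * z + b) / (c * z + d)).im : ℂ) =
      (a * d - b * c : ℤ) * z.im / ((c * z + d) * (starRingEnd ℂ) (c * z + d)) := by
  have hD := B2_denom_ne h hz
  have h1 : (((a : ℂ) * z + b) / (c * z + d)).im =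
      (a * d - b * c : ℤ) * z.im / Complex.normSq (c * z + d) := by
    rw [Complex.div_im]
    have hn : Complex.normSq ((c : ℂ) * z + d) ≠ 0 := by
      rwa [Ne, Complex.normSq_eq_zero]
    field_simp
    simp
    ring
  rw [h1, Complex.mul_conj]
  push_cast
  ring

theorem B2_sub_conj (c d : ℤ) (z : ℂ) :
    ((c : ℂ) * z + d) - (starRingEnd ℂ) (c * z + d) = 2 * I * c * z.im := by
  apply Complex.ext
  · simp
  · simp
    ring

/-- B2d. `e2s` is invariant of weight 2, and the expression of `FM 2` through `e2s`. -/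
theorem e2s_transform (a b c d : ℤ) (h : a * d - b * c = 1) (z : ℂ) (hz : 0 < z.im) :
    e2s ((a * z + b) / (c * z + d)) = (c * z + d) ^ 2 * e2s z := by
  have h0 : 0 < a * d - b * c := by omega
  have hD := B2_denom_ne h0 hz
  have him := B2_im h0 hz
  have hcj := B2_sub_conj c d z
  unfold e2s
  rw [e2_transform a b c d h z hz, him, h]
  obtain ⟨D, hDdef⟩ : ∃ D : ℂ, D = c * z + d := ⟨_, rfl⟩
  obtain ⟨D', hD'⟩ : ∃ D' : ℂ, D' = (starRingEnd ℂ) (c * z + d) := ⟨_, rfl⟩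
  rw [← hD', ← hDdef] at hcj
  rw [← hD', ← hDdef]
  rw [← hDdef] at hD
  have hD'0 : D' ≠ 0 := by
    rw [hD', ← hDdef]
    exact (map_ne_zero _).2 hD
  have hpi : (Real.pi : ℂ) ≠ 0 := by exact_mod_cast Real.pi_ne_zero
  have hy : (z.im : ℂ) ≠ 0 := by exact_mod_cast hz.ne'
  have hc : D' = D - 2 * I * c * z.im := by linear_combination -hcj
  have e : (3 : ℂ) / (Real.pi * (((1 : ℤ) : ℂ) * z.im / (D * D'))) =
      3 * (D * D') / (Real.pi * z.im) := by
    push_cast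
    field_simp
  rw [e, hc]
  field_simp
  ring

theorem FM_two (N : ℕ) (hN : 0 < N) (M : Matrix (Fin 2) (Fin 2) ℤ) (hM : M.det = N) (z : ℂ) (hz : 0 < z.im) :
    FM 2 N M z = ((N : ℂ) / (M 1 0 * z + M 1 1)) ^ 2 * e2s ((M 0 0 * z + M 0 1) / (M 1 0 * z + M 1 1)) - N * e2s z := by
  have hdet : M 0 0 * M 1 1 - M 0 1 * M 1 0 = N := by rw [← hM, Matrix.det_fin_two]
  obtain ⟨a, ha⟩ : ∃ a, a = M 0 0 := ⟨_, rfl⟩
  obtain ⟨b, hb⟩ : ∃ a, a = M 0 1 := ⟨_, rfl⟩
  obtain ⟨c, hc⟩ : ∃ a, a = M 1 0 := ⟨_, rfl⟩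
  obtain ⟨d, hd⟩ : ∃ a, a = M 1 1 := ⟨_, rfl⟩
  have hFM : FM 2 N M z = ((N : ℂ) / (M 1 0 * z + M 1 1)) ^ 2 * e2 ((M 0 0 * z + M 0 1) / (M 1 0 * z + M 1 1))
      + 6 * I * M 1 0 * N / Real.pi / (M 1 0 * z + M 1 1) - N * e2 z := rfl
  rw [hFM]
  rw [← ha, ← hb, ← hc, ← hd] at hdet ⊢
  have h0 : 0 < a * d - b * c := by rw [hdet]; exact_mod_cast hN
  have hD := B2_denom_ne h0 hz
  have him := B2_im h0 hz
  have hcj := B2_sub_conj c d z
  unfold e2s
  rw [him, hdet]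
  obtain ⟨w, hw⟩ : ∃ w : ℂ, w = e2 ((a * z + b) / (c * z + d)) := ⟨_, rfl⟩
  rw [← hw]
  obtain ⟨D, hDdef⟩ : ∃ D : ℂ, D = c * z + d := ⟨_, rfl⟩
  obtain ⟨D', hD'⟩ : ∃ D' : ℂ, D' = (starRingEnd ℂ) (c * z + d) := ⟨_, rfl⟩
  rw [← hD', ← hDdef] at hcj
  rw [← hD', ← hDdef]
  rw [← hDdef] at hD
  have hD'0 : D' ≠ 0 := by
    rw [hD', ← hDdef]
    exact (map_ne_zero _).2 hD
  have hpi : (Real.pi : ℂ) ≠ 0 := by exact_mod_cast Real.pi_ne_zero
  have hy : (z.im : ℂ) ≠ 0 := by exact_mod_cast hz.ne'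
  have hN' : (N : ℂ) ≠ 0 := by exact_mod_cast hN.ne'
  have hcc : D' = D - 2 * I * c * z.im := by linear_combination -hcj
  have e : (3 : ℂ) / (Real.pi * ((((N : ℤ) : ℂ)) * z.im / (D * D'))) =
      3 * (D * D') / (Real.pi * (N * z.im)) := by
    push_cast
    field_simp
  rw [e, hcc]
  field_simp
  ring

end Pool.Agent.MSD
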