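import Pool.Agent.Lib.MP_f58a57_nt.A0_Q
import Pool.Agent.Lib.MP_f58a57_nt.A1_Basic
import Pool.Agent.Lib.MP_f58a57_nt.A8_Growth
import Pool.Agent.Lib.MP_f58a57_nt.B1_Perm
import Pool.Agent.Lib.MP_f58a57_nt.B2_FM

/-! # B3: power sums are modular forms (MP_f58a57_nt) -/

open Complex ModularForm EisensteinSeries Filter
open UpperHalfPlane hiding I
open scoped Topology MatrixGroups

noncomputable section

namespace Pool.Agent.MSD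

lemma B3_mem_TT {N : ℕ} {ρ : Σ _ : ℕ × ℕ, ℕ} (h : ρ ∈ TT N) :
    ρ.1.1 * ρ.1.2 = N ∧ 0 < ρ.1.1 ∧ 0 < ρ.1.2 ∧ ρ.1.1 ≤ N ∧ ρ.1.2 ≤ N := by
  unfold TT at h
  rw [Finset.mem_sigma, Nat.mem_divisorsAntidiagonal] at h
  have hN : 0 < N := Nat.pos_of_ne_zero h.1.2
  have h1 : 0 < ρ.1.1 := Nat.pos_of_ne_zero (by intro h0; apply h.1.2; rw [← h.1.1, h0, zero_mul])
  have h2 : 0 < ρ.1.2 := Nat.pos_of_ne_zero (by intro h0; apply h.1.2; rw [← h.1.1, h0, mul_zero])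
  refine ⟨h.1.1, h1, h2, ?_, ?_⟩
  · rw [← h.1.1]; exact Nat.le_mul_of_pos_right _ h2
  · rw [← h.1.1]; exact Nat.le_mul_of_pos_left _ h1

lemma B3_im (a b δ : ℕ) (z : ℂ) :
    (((a : ℂ) * z + b) / δ).im = a * z.im / δ := by
  have h1 : (δ : ℂ) = ((δ : ℝ) : ℂ) := by push_cast; rfl
  rw [h1, Complex.div_ofReal_im]
  simp

lemma B3_GG0 (a b δ : ℕ) (z : ℂ) : GG 0 a b δ z = (a : ℂ) ^ 4 * e4 ((a * z + b) / δ) := rfl
lemma B3_GG1 (a b δ : ℕ) (z : ℂ) : GG 1 a b δ z = (a : ℂ) ^ 6 * e6 ((a * z + b) / δ) := rfl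
lemma B3_GG2 (a b δ : ℕ) (z : ℂ) :
    GG 2 a b δ z = (a : ℂ) ^ 2 * e2 ((a * z + b) / δ) - a * δ * e2 z := rfl

lemma B3_diff (κ : Fin 3) {N : ℕ} {ρ : Σ _ : ℕ × ℕ, ℕ} (h : ρ ∈ TT N) :
    DifferentiableOn ℂ (fun z => Gr κ z ρ) {z | 0 < z.im} := by
  obtain ⟨-, ha, hδ, -, -⟩ := B3_mem_TT h
  have haff : DifferentiableOn ℂ (fun z : ℂ => ((ρ.1.1 : ℂ) * z + ρ.2) / ρ.1.2) {z | 0 < z.im} := by
    fun_prop
  have hmaps : Set.MapsTo (fun z : ℂ => ((ρ.1.1 : ℂ) * z + ρ.2) / ρ.1.2)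
      {z | 0 < z.im} {z | 0 < z.im} := by
    intro z hz
    show 0 < (((ρ.1.1 : ℂ) * z + ρ.2) / ρ.1.2).im
    rw [B3_im]
    have hz' : 0 < z.im := hz
    positivity
  fin_cases κ
  · show DifferentiableOn ℂ (fun z => GG 0 ρ.1.1 ρ.2 ρ.1.2 z) _
    simp only [B3_GG0]
    exact (e4_diff.comp haff hmaps).const_mul _
  · show DifferentiableOn ℂ (fun z => GG 1 ρ.1.1 ρ.2 ρ.1.2 z) _
    simp only [B3_GG1]
    exact (e6_diff.comp haff hmaps).const_mul _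
  · show DifferentiableOn ℂ (fun z => GG 2 ρ.1.1 ρ.2 ρ.1.2 z) _
    simp only [B3_GG2]
    exact ((e2_diff.comp haff hmaps).const_mul _).sub (e2_diff.const_mul _)

/-- size of the members -/
lemma B3_size : ∃ C : ℕ, ∀ (κ : Fin 3) (N : ℕ) (z : ℂ) (y : ℝ), 0 < N → 0 < y → y ≤ 1 → y ≤ z.im →
    ∀ ρ ∈ TT N, ‖Gr κ z ρ‖ ≤ 2 * (N : ℝ) ^ 6 * (C * (N / y) ^ C) := by
  obtain ⟨C, hC⟩ := growth
  refine ⟨C, fun κ N z y hN hy hy1 hyz ρ hρ => ?_⟩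
  obtain ⟨-, ha, hδ, haN, hδN⟩ := B3_mem_TT hρ
  have hN1 : (1 : ℝ) ≤ N := by exact_mod_cast hN
  have hN0 : (0 : ℝ) < N := by linarith
  have ha1 : (1 : ℝ) ≤ ρ.1.1 := by exact_mod_cast ha
  have hδ0 : (0 : ℝ) < ρ.1.2 := by exact_mod_cast hδ
  have haN' : (ρ.1.1 : ℝ) ≤ N := by exact_mod_cast haN
  have hδN' : (ρ.1.2 : ℝ) ≤ N := by exact_mod_cast hδN
  have hε : 0 < y / N := by positivity
  have hε1 : y / N ≤ 1 := by
    rw [div_le_one hN0]; linarith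
  have him : y / N ≤ ((((ρ.1.1 : ℂ) * z + ρ.2) / ρ.1.2).im) := by
    rw [B3_im, div_le_div_iff₀ hN0 hδ0]
    have hz0 : 0 ≤ z.im := hy.le.trans hyz
    calc y * ρ.1.2 ≤ z.im * N := mul_le_mul hyz hδN' hδ0.le hz0
      _ = 1 * z.im * N := by ring
      _ ≤ ρ.1.1 * z.im * N := by gcongr
  have hyε : y / N ≤ z.im := by
    refine le_trans ?_ hyz
    rw [div_le_iff₀ hN0]
    nlinarith
  obtain ⟨h2, h4, h6⟩ := hC _ (y / N) hε hε1 him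
  have h2z := (hC z (y / N) hε hε1 hyε).1
  rw [one_div_div] at h2 h4 h6 h2z
  obtain ⟨X, hX⟩ : ∃ X : ℝ, X = C * (N / y) ^ C := ⟨_, rfl⟩
  rw [← hX] at h2 h4 h6 h2z ⊢
  have hX0 : 0 ≤ X := (norm_nonneg _).trans h2
  have hpow : ∀ j ≤ 6, (ρ.1.1 : ℝ) ^ j ≤ (N : ℝ) ^ 6 := fun j hj =>
    (pow_le_pow_left₀ (by linarith) haN' j).trans (pow_le_pow_right₀ hN1 hj)
  have hN6 : (0 : ℝ) ≤ (N : ℝ) ^ 6 := by positivity
  fin_cases κ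
  · show ‖GG 0 ρ.1.1 ρ.2 ρ.1.2 z‖ ≤ _
    rw [B3_GG0, norm_mul, norm_pow, Complex.norm_natCast]
    calc (ρ.1.1 : ℝ) ^ 4 * _ ≤ (N : ℝ) ^ 6 * X :=
          mul_le_mul (hpow 4 (by norm_num)) h4 (norm_nonneg _) hN6
      _ ≤ 2 * (N : ℝ) ^ 6 * X := by nlinarith [mul_nonneg hN6 hX0]
  · show ‖GG 1 ρ.1.1 ρ.2 ρ.1.2 z‖ ≤ _
    rw [B3_GG1, norm_mul, norm_pow, Complex.norm_natCast]
    calc (ρ.1.1 : ℝ) ^ 6 * _ ≤ (N : ℝ) ^ 6 * X :=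
          mul_le_mul (hpow 6 (by norm_num)) h6 (norm_nonneg _) hN6
      _ ≤ 2 * (N : ℝ) ^ 6 * X := by nlinarith [mul_nonneg hN6 hX0]
  · show ‖GG 2 ρ.1.1 ρ.2 ρ.1.2 z‖ ≤ _
    rw [B3_GG2]
    refine (norm_sub_le _ _).trans ?_
    rw [norm_mul, norm_pow, Complex.norm_natCast, norm_mul, norm_mul, Complex.norm_natCast,
      Complex.norm_natCast]
    have e1 : (ρ.1.1 : ℝ) ^ 2 * ‖e2 ((ρ.1.1 * z + ρ.2) / ρ.1.2)‖ ≤ (N : ℝ) ^ 6 * X :=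
      mul_le_mul (hpow 2 (by norm_num)) h2 (norm_nonneg _) hN6
    have e2' : (ρ.1.1 : ℝ) * ρ.1.2 ≤ (N : ℝ) ^ 6 := by
      calc (ρ.1.1 : ℝ) * ρ.1.2 ≤ N * N := mul_le_mul haN' hδN' hδ0.le hN0.le
        _ = (N : ℝ) ^ 2 := (sq _).symm
        _ ≤ (N : ℝ) ^ 6 := pow_le_pow_right₀ hN1 (by norm_num)
    have e3 : (ρ.1.1 : ℝ) * ρ.1.2 * ‖e2 z‖ ≤ (N : ℝ) ^ 6 * X :=
      mul_le_mul e2' h2z (norm_nonneg _) hN6
    linarith

/-- B3. PROOF. Holomorphy is clear from A1; periodicity and the behaviour under `z ↦ -1/z` from `perm_sum` with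
`φ M = FM κ N M z ^ k` (matrices `(1 1; 0 1)` and `matS`); boundedness for `Im z ≥ 1` from A8: `Im((az+b)/δ) = a Im z/δ ≥ 1/N`. -/
theorem hecke_isMF (κ : Fin 3) (N k : ℕ) (hN : 0 < N) : IsMF (kwt κ * k) (SS κ N k) := by
  have hφ : ∀ z : ℂ, 0 < z.im → ∀ γ M : Matrix (Fin 2) (Fin 2) ℤ, γ.det = 1 → M.det = N →
      FM κ N (γ * M) z ^ k = FM κ N M z ^ k := fun z hz γ M hγ hM => by
    rw [FM_left κ N hN γ M hγ hM z hz]
  have hSS : ∀ z : ℂ, 0 < z.im → SS κ N k z = ∑ ρ ∈ TT N, FM κ N (mat ρ) z ^ k := by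
    intro z hz
    unfold SS
    refine Finset.sum_congr rfl fun ρ hρ => ?_
    rw [FM_mat κ N hN ρ hρ z hz]
  refine ⟨?_, ?_, ?_, ?_⟩
  · unfold SS
    refine DifferentiableOn.fun_sum fun ρ hρ => ?_
    exact (B3_diff κ hρ).pow k
  · intro z hz
    have hz1 : 0 < (z + 1).im := by simpa using hz
    rw [hSS _ hz1, hSS _ hz, ← perm_sum N hN (fun M => FM κ N M z ^ k) (hφ z hz) !![1, 1; 0, 1]
      (by rw [Matrix.det_fin_two_of]; norm_num)]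
    refine Finset.sum_congr rfl fun ρ hρ => ?_
    rw [FM_T κ N hN (mat ρ) (det_mat N ρ hρ) z hz]
  · intro z hz
    have hz1 : 0 < (-1 / z).im := by
      have hz0 : z ≠ 0 := by rintro rfl; simp at hz
      have hn : 0 < Complex.normSq z := Complex.normSq_pos.2 hz0
      have e : (-1 / z).im = z.im / Complex.normSq z := by
        rw [Complex.div_im]
        simp
        ring
      rw [e]
      exact div_pos hz hn
    rw [hSS _ hz1, hSS _ hz, ← perm_sum N hN (fun M => FM κ N M z ^ k) (hφ z hz) matS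
      (by unfold matS; rw [Matrix.det_fin_two_of]; norm_num), Finset.mul_sum]
    refine Finset.sum_congr rfl fun ρ hρ => ?_
    rw [FM_S κ N hN (mat ρ) (det_mat N ρ hρ) z hz, mul_pow, ← pow_mul]
  · obtain ⟨C, hC⟩ := B3_size
    obtain ⟨X, hX⟩ : ∃ X : ℝ, X = 2 * (N : ℝ) ^ 6 * (C * (N / 1) ^ C) := ⟨_, rfl⟩
    refine ⟨(TT N).card • X ^ k, fun z hz => ?_⟩
    unfold SS
    refine (norm_sum_le _ _).trans ?_
    refine Finset.sum_le_card_nsmul _ _ _ fun ρ hρ => ?_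
    rw [norm_pow]
    refine pow_le_pow_left₀ (norm_nonneg _) ?_ k
    rw [hX]
    exact hC κ N z 1 hN one_pos le_rfl hz ρ hρ

/-- B3b. Size of the members at a fixed point. -/
theorem Gr_bound (z : ℂ) (hz : 0 < z.im) : ∃ C : ℕ, ∀ (κ : Fin 3) (N : ℕ), 0 < N → ∀ ρ ∈ TT N,
    ‖Gr κ z ρ‖ ≤ (C : ℝ) * (N : ℝ) ^ C := by
  obtain ⟨C, hC⟩ := B3_size
  obtain ⟨y, hy⟩ : ∃ y : ℝ, y = min z.im 1 := ⟨_, rfl⟩
  have hy0 : 0 < y := by rw [hy]; exact lt_min hz one_pos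
  have hy1 : y ≤ 1 := by rw [hy]; exact min_le_right _ _
  have hyz : y ≤ z.im := by rw [hy]; exact min_le_left _ _
  obtain ⟨A, hA⟩ := exists_nat_ge (2 * (C * (1 / y) ^ C))
  refine ⟨A + (6 + C), fun κ N hN ρ hρ => ?_⟩
  have hN1 : (1 : ℝ) ≤ N := by exact_mod_cast hN
  have hN0 : (0 : ℝ) < N := by linarith
  refine (hC κ N z y hN hy0 hy1 hyz ρ hρ).trans ?_
  calc 2 * (N : ℝ) ^ 6 * (C * (N / y) ^ C)
      = (2 * (C * (1 / y) ^ C)) * (N : ℝ) ^ (6 + C) := by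
        rw [pow_add, div_pow, div_pow, one_pow]
        field_simp
    _ ≤ A * (N : ℝ) ^ (6 + C) := by gcongr
    _ ≤ ((A + (6 + C) : ℕ) : ℝ) * (N : ℝ) ^ (A + (6 + C)) := by
        refine mul_le_mul ?_ (pow_le_pow_right₀ hN1 (by omega)) (by positivity) (by positivity)
        push_cast
        linarith [(Nat.cast_nonneg C : (0 : ℝ) ≤ C)]

end Pool.Agent.MSD
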