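import Pool.Agent.Lib.MP_f58a57_nt.A0_Q
import Pool.Agent.Lib.MP_f58a57_nt.A1_Basic

/-! # B4: power sums have integer q-expansions (MP_f58a57_nt) -/

open Complex ModularForm EisensteinSeries Filter
open UpperHalfPlane hiding I
open scoped Topology MatrixGroups

noncomputable section

namespace Pool.Agent.MSD

theorem B4_hs {f g : ℕ → ℂ} {a : ℂ} (h : HasSum f a) (he : ∀ n, f n = g n) : HasSum g a := by
  rw [← funext he]
  exact h

theorem B4_add {f g : ℂ → ℂ} (h : HasIntQ f) (h' : HasIntQ g) : HasIntQ (fun z => f z + g z) := by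
  obtain ⟨c, hc⟩ := h
  obtain ⟨c', hc'⟩ := h'
  exact ⟨_, hc.add hc'⟩

theorem B4_mul {f g : ℂ → ℂ} (h : HasIntQ f) (h' : HasIntQ g) : HasIntQ (fun z => f z * g z) := by
  obtain ⟨c, hc⟩ := h
  obtain ⟨c', hc'⟩ := h'
  exact ⟨_, hc.mul hc'⟩

theorem B4_const (m : ℤ) : HasIntQ (fun _ => (m : ℂ)) := by
  refine ⟨fun n => if n = 0 then m else 0, fun z _ => ?_⟩
  have h := hasSum_ite_eq (0 : ℕ) (m : ℂ)
  refine B4_hs h ?_
  intro n
  by_cases hn : n = 0
  · subst hn; simp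
  · simp [hn]

theorem B4_pow {f : ℂ → ℂ} (h : HasIntQ f) (k : ℕ) : HasIntQ (fun z => f z ^ k) := by
  induction k with
  | zero => simpa using B4_const 1
  | succ k ih =>
    simp only [pow_succ]
    exact B4_mul ih h

theorem B4_sum {ι : Type*} (s : Finset ι) (f : ι → ℂ → ℂ) (h : ∀ i ∈ s, HasIntQ (f i)) :
    HasIntQ (fun z => ∑ i ∈ s, f i z) := by
  classical
  induction s using Finset.induction_on with
  | empty => simpa using B4_const 0
  | insert i s hi ih =>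
    simp only [Finset.sum_insert hi]
    exact B4_add (h i (Finset.mem_insert_self _ _)) (ih fun j hj => h j (Finset.mem_insert_of_mem hj))

theorem B4_congr {f g : ℂ → ℂ} (h : HasIntQ f) (he : ∀ z : ℂ, 0 < z.im → f z = g z) : HasIntQ g := by
  obtain ⟨c, hc⟩ := h
  exact ⟨c, fun z hz => by rw [← he z hz]; exact hc z hz⟩

theorem B4_root_sum (δ : ℕ) (hδ : 0 < δ) (n : ℕ) :
    ∑ b ∈ Finset.range δ, (exp (2 * Real.pi * I / δ) ^ b) ^ n = if δ ∣ n then (δ : ℂ) else 0 := by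
  have hp := Complex.isPrimitiveRoot_exp δ hδ.ne'
  set ζ := exp (2 * Real.pi * I / δ) with hζ
  have e : ∀ b, (ζ ^ b) ^ n = (ζ ^ n) ^ b := fun b => by rw [← pow_mul, ← pow_mul, mul_comm]
  simp only [e]
  split_ifs with hd
  · rw [(hp.pow_eq_one_iff_dvd n).2 hd]
    simp
  · have h1 : ζ ^ n ≠ 1 := fun h => hd ((hp.pow_eq_one_iff_dvd n).1 h)
    rw [geom_sum_eq h1, ← pow_mul, mul_comm n δ, pow_mul, hp.pow_eq_one, one_pow, sub_self, zero_div]

/-- the core: averaging over `b` -/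
theorem B4_core {f : ℂ → ℂ} (h : HasIntQ f) (a δ : ℕ) (ha : 0 < a) (hδ : 0 < δ) :
    HasIntQ (fun z => ∑ b ∈ Finset.range δ, f ((a * z + b) / δ)) := by
  obtain ⟨c, hc⟩ := h
  refine ⟨fun n => if a ∣ n then δ * c (δ * (n / a)) else 0, fun z hz => ?_⟩
  have hδ' : (δ : ℂ) ≠ 0 := by exact_mod_cast hδ.ne'
  have ha' : (a : ℂ) ≠ 0 := by exact_mod_cast ha.ne'
  set ζ := exp (2 * Real.pi * I / δ) with hζ
  set u := exp (2 * Real.pi * I * (a * z / δ)) with hu
  have him : ∀ b : ℕ, 0 < ((a * z + b) / δ : ℂ).im := by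
    intro b
    have : ((a * z + b) / δ : ℂ).im = a * z.im / δ := by
      rw [Complex.div_natCast_im]
      simp
    rw [this]
    have h1 : (0 : ℝ) < a := by exact_mod_cast ha
    have h2 : (0 : ℝ) < δ := by exact_mod_cast hδ
    positivity
  have hq : ∀ b : ℕ, qq ((a * z + b) / δ) = ζ ^ b * u := by
    intro b
    rw [qq, hζ, hu, ← Complex.exp_nat_mul, ← Complex.exp_add]
    congr 1
    field_simp
    ring
  have huδ : u ^ δ = qq z ^ a := by
    rw [hu, qq, ← Complex.exp_nat_mul, ← Complex.exp_nat_mul]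
    congr 1
    field_simp
  have h1 : HasSum (fun n => ∑ b ∈ Finset.range δ, (c n : ℂ) * (ζ ^ b * u) ^ n)
      (∑ b ∈ Finset.range δ, f ((a * z + b) / δ)) := by
    refine hasSum_sum fun b _ => ?_
    have := hc _ (him b)
    rw [hq] at this
    exact this
  have h2 : HasSum (fun n => if δ ∣ n then (δ : ℂ) * c n * u ^ n else 0)
      (∑ b ∈ Finset.range δ, f ((a * z + b) / δ)) := by
    refine B4_hs h1 fun n => ?_
    have e : ∑ b ∈ Finset.range δ, (c n : ℂ) * (ζ ^ b * u) ^ n =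
        (c n : ℂ) * u ^ n * ∑ b ∈ Finset.range δ, (ζ ^ b) ^ n := by
      rw [Finset.mul_sum]
      refine Finset.sum_congr rfl fun b _ => ?_
      rw [mul_pow]; ring
    rw [e, B4_root_sum δ hδ n]
    split_ifs <;> ring
  have i1 : Function.Injective (fun m : ℕ => δ * m) := fun x y h => Nat.eq_of_mul_eq_mul_left hδ h
  have i2 : Function.Injective (fun m : ℕ => a * m) := fun x y h => Nat.eq_of_mul_eq_mul_left ha h
  have h3 : HasSum (fun m : ℕ => (δ : ℂ) * c (δ * m) * (qq z ^ a) ^ m)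
      (∑ b ∈ Finset.range δ, f ((a * z + b) / δ)) := by
    have := (i1.hasSum_iff (f := fun n => if δ ∣ n then (δ : ℂ) * c n * u ^ n else 0)
      (a := ∑ b ∈ Finset.range δ, f ((a * z + b) / δ)) ?_).2 h2
    · refine B4_hs this fun m => ?_
      simp only [Function.comp_apply, dvd_mul_right, if_true]
      rw [pow_mul, huδ]
    · intro n hn
      rw [if_neg]
      rintro ⟨m, rfl⟩
      exact hn ⟨m, rfl⟩
  refine (i2.hasSum_iff ?_).1 ?_
  · intro n hn
    have hn' : ¬ a ∣ n := by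
      rintro ⟨m, rfl⟩
      exact hn ⟨m, rfl⟩
    simp [hn']
  · refine B4_hs h3 fun m => ?_
    simp only [Function.comp_apply, dvd_mul_right, if_true]
    rw [Nat.mul_div_cancel_left m ha, pow_mul]
    push_cast
    ring

/-- B4. PROOF. Fix `(a, δ)`. For `κ = 0, 1` the function `e4^k` has an integer `q`-expansion `Σ c_n qⁿ`, and
`Σ_{b<δ} e4^k((az+b)/δ) = Σ_n c_n (Σ_b ζ^{bn}) e^{2πi a n z/δ} = δ Σ_{δ ∣ n} c_n q^{a n/δ}`, `ζ = e^{2πi/δ}`.
For `κ = 2` expand `(a² e2(w) - aδ e2(z))^k` binomially, `w = (az+b)/δ`: products of `e2(w)^i` (sum over `b` as before) and `e2(z)^{k-i}`. -/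
theorem hecke_intQ (κ : Fin 3) (N k : ℕ) (hN : 0 < N) : HasIntQ (SS κ N k) := by
  obtain ⟨c2, q2, -⟩ := e2_q
  obtain ⟨c4, q4, -⟩ := e4_q
  obtain ⟨c6, q6, -⟩ := e6_q
  have Q2 : HasIntQ e2 := ⟨c2, q2⟩
  have Q4 : HasIntQ e4 := ⟨c4, q4⟩
  have Q6 : HasIntQ e6 := ⟨c6, q6⟩
  have key : HasIntQ (fun z => ∑ p ∈ Nat.divisorsAntidiagonal N, ∑ b ∈ Finset.range p.2,
      GG κ p.1 b p.2 z ^ k) := by
    refine B4_sum _ _ fun p hp => ?_
    obtain ⟨hp1, hp2⟩ := Nat.mem_divisorsAntidiagonal.1 hp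
    have ha : 0 < p.1 := Nat.pos_of_ne_zero fun h => hp2 (by rw [← hp1, h, zero_mul])
    have hδ : 0 < p.2 := Nat.pos_of_ne_zero fun h => hp2 (by rw [← hp1, h, mul_zero])
    fin_cases κ
    · have h := B4_mul (B4_const ((p.1 : ℤ) ^ (4 * k))) (B4_core (B4_pow Q4 k) p.1 p.2 ha hδ)
      refine B4_congr h fun z _ => ?_
      simp only [GG]
      rw [Finset.mul_sum]
      refine Finset.sum_congr rfl fun b _ => ?_
      simp [mul_pow, pow_mul]
    · have h := B4_mul (B4_const ((p.1 : ℤ) ^ (6 * k))) (B4_core (B4_pow Q6 k) p.1 p.2 ha hδ)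
      refine B4_congr h fun z _ => ?_
      simp only [GG]
      rw [Finset.mul_sum]
      refine Finset.sum_congr rfl fun b _ => ?_
      simp [mul_pow, pow_mul]
    · have h : HasIntQ (fun z => ∑ i ∈ Finset.range (k + 1),
          (((p.1 : ℤ) ^ (2 * i) * (-((p.1 : ℤ) * p.2)) ^ (k - i) * (k.choose i : ℤ) : ℤ) : ℂ) *
          ((∑ b ∈ Finset.range p.2, (e2 ((p.1 * z + b) / p.2)) ^ i) * e2 z ^ (k - i))) :=
        B4_sum _ _ fun i _ => B4_mul (B4_const _)
          (B4_mul (B4_core (B4_pow Q2 i) p.1 p.2 ha hδ) (B4_pow Q2 (k - i)))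
      refine B4_congr h fun z _ => ?_
      have e : ∀ b : ℕ, GG (2 : Fin 3) p.1 b p.2 z ^ k = ∑ i ∈ Finset.range (k + 1),
          ((p.1 : ℂ) ^ 2 * e2 ((p.1 * z + b) / p.2)) ^ i * (-((p.1 : ℂ) * p.2 * e2 z)) ^ (k - i) *
            (k.choose i : ℂ) := by
        intro b
        have e0 : GG (2 : Fin 3) p.1 b p.2 z =
            (p.1 : ℂ) ^ 2 * e2 ((p.1 * z + b) / p.2) + -((p.1 : ℂ) * p.2 * e2 z) := by
          simp [GG, sub_eq_add_neg]
        rw [e0, add_pow]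
      have e' : ∑ b ∈ Finset.range p.2, GG (2 : Fin 3) p.1 b p.2 z ^ k =
          ∑ i ∈ Finset.range (k + 1), ∑ b ∈ Finset.range p.2,
          ((p.1 : ℂ) ^ 2 * e2 ((p.1 * z + b) / p.2)) ^ i * (-((p.1 : ℂ) * p.2 * e2 z)) ^ (k - i) *
            (k.choose i : ℂ) := by
        rw [Finset.sum_comm]
        exact Finset.sum_congr rfl fun b _ => e b
      refine Eq.trans ?_ e'.symm
      refine Finset.sum_congr rfl fun i _ => ?_
      rw [Finset.sum_mul, Finset.mul_sum]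
      refine Finset.sum_congr rfl fun b _ => ?_
      push_cast
      rw [mul_pow, ← pow_mul, show -((p.1 : ℂ) * p.2 * e2 z) = (-((p.1 : ℂ) * p.2)) * e2 z by ring,
        mul_pow]
      ring
  refine B4_congr key fun z _ => ?_
  simp only [SS, TT, Gr, Finset.sum_sigma]

end Pool.Agent.MSD
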