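import Pool.Agent.Lib.MP_f58a57_nt.B5_Newton

/-! # B5c: coefficients in a field; isobaric products (MP_f58a57_nt) -/

open Complex ModularForm EisensteinSeries Filter
open UpperHalfPlane hiding I
open scoped Topology MatrixGroups

noncomputable section

namespace Pool.Agent.MSD

/-- the elementary symmetric functions of a finite family -/
def B5F_E {J : Type*} (s : Finset J) (α : J → ℂ) (k : ℕ) : ℂ :=
  ((Finset.univ : Finset s).val.map (fun i : s => α i)).esymm k

theorem B5F_zero {J : Type*} (s : Finset J) (α : J → ℂ) : B5F_E s α 0 = 1 := by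
  unfold B5F_E
  rw [← MvPolynomial.aeval_esymm_eq_multiset_esymm (σ := s) (R := ℚ), MvPolynomial.esymm_zero, map_one]

theorem B5F_newton {J : Type*} (s : Finset J) (α : J → ℂ) (k : ℕ) :
    (k : ℂ) * B5F_E s α k = (-1) ^ (k + 1) *
      ∑ a ∈ (Finset.HasAntidiagonal.antidiagonal k).filter (fun a => a.1 < k),
        (-1) ^ a.1 * B5F_E s α a.1 * ∑ i ∈ s, α i ^ a.2 := by
  have h := congrArg (MvPolynomial.aeval (R := ℚ) (fun i : s => α i)) (MvPolynomial.mul_esymm_eq_sum s ℚ k)
  simp only [map_mul, map_natCast, map_pow, map_neg, map_one, map_sum,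
    MvPolynomial.aeval_esymm_eq_multiset_esymm] at h
  unfold B5F_E
  rw [h]
  congr 1
  refine Finset.sum_congr rfl ?_
  intro a _
  congr 1
  unfold MvPolynomial.psum
  rw [map_sum, ← Finset.sum_coe_sort s]
  refine Finset.sum_congr rfl ?_
  intro i _
  rw [map_pow, MvPolynomial.aeval_X]

theorem B5F_prod {J : Type*} (s : Finset J) (α : J → ℂ) :
    ∏ i ∈ s, (Polynomial.X - Polynomial.C (α i)) =
      ∑ j ∈ Finset.range (s.card + 1),
        (-1) ^ j * (Polynomial.C (B5F_E s α j) * Polynomial.X ^ (s.card - j)) := by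
  have h := Multiset.prod_X_sub_X_eq_sum_esymm ((Finset.univ : Finset s).val.map (fun i : s => α i))
  have hc : Multiset.card ((Finset.univ : Finset s).val.map (fun i : s => α i)) = s.card := by
    rw [Multiset.card_map, Finset.card_val, Finset.card_univ, Fintype.card_coe]
  rw [hc, Multiset.map_map] at h
  rw [← Finset.prod_coe_sort s]
  exact h

/-- B5c. If all power sums lie in a subfield `k` of `ℂ`, the characteristic polynomial has coefficients in `k`. -/
theorem coeff_mem_of_psum {J : Type*} (s : Finset J) (α : J → ℂ) (k : IntermediateField ℚ ℂ)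
    (h : ∀ m : ℕ, 0 < m → ∑ i ∈ s, α i ^ m ∈ k) (n : ℕ) :
    (∏ i ∈ s, (Polynomial.X - Polynomial.C (α i))).coeff n ∈ k := by
  have hE : ∀ j, B5F_E s α j ∈ k := by
    intro j
    induction j using Nat.strong_induction_on with
    | _ j ih =>
      rcases Nat.eq_zero_or_pos j with rfl | hj
      · rw [B5F_zero]; exact one_mem k
      · have h1 : B5F_E s α j = (j : ℂ)⁻¹ * ((j : ℂ) * B5F_E s α j) := by
          rw [inv_mul_cancel_left₀ (Nat.cast_ne_zero.2 (by omega))]
        rw [h1, B5F_newton]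
        refine mul_mem (inv_mem (natCast_mem k j)) (mul_mem (pow_mem (neg_mem (one_mem k)) _) ?_)
        refine sum_mem ?_
        rintro ⟨a, b⟩ hab
        rw [Finset.mem_filter, Finset.HasAntidiagonal.mem_antidiagonal] at hab
        obtain ⟨hab1, hab2⟩ := hab
        simp only at hab1 hab2
        exact mul_mem (mul_mem (pow_mem (neg_mem (one_mem k)) _) (ih a hab2)) (h b (by omega))
  rw [B5F_prod, Polynomial.finsetSum_coeff]
  refine sum_mem ?_
  intro j _
  have h2 : ((-1 : Polynomial ℂ) ^ j * (Polynomial.C (B5F_E s α j) * Polynomial.X ^ (s.card - j))) =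
      Polynomial.C ((-1) ^ j * B5F_E s α j) * Polynomial.X ^ (s.card - j) := by
    rw [Polynomial.C_mul, Polynomial.C_pow, Polynomial.C_neg, Polynomial.C_1]
    ring
  rw [h2, Polynomial.coeff_C_mul_X_pow]
  split_ifs
  · exact mul_mem (pow_mem (neg_mem (one_mem k)) _) (hE j)
  · exact zero_mem k

theorem B5F_map {w : ℕ} {Θ : MvPolynomial (Fin 3) ℤ} (h : MvPolynomial.IsWeightedHomogeneous wts Θ w) :
    MvPolynomial.IsWeightedHomogeneous wts (MvPolynomial.map (algebraMap ℤ ℚ) Θ) w := by
  intro d hd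
  refine h ?_
  intro h0
  apply hd
  rw [MvPolynomial.coeff_map, h0, map_zero]

/-- B5d. Elementary symmetric functions of a family of functions whose power sums are isobaric polynomials in `e4, e6, dl`
(with integer coefficients) are isobaric polynomials in `e4, e6, dl` with rational coefficients: if
`Σ_i (F i z)^m = Θ_m(vals z)`, `Θ_m` of weight `w m`, then `Π_i (c X z - F i z) = Ξ(vals z)` where `X z = P(vals z)` has weight `w`. -/
theorem prod_isobaric {J : Type*} (s : Finset J) (w : ℕ) (F : J → ℂ → ℂ)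
    (h : ∀ m : ℕ, 0 < m → ∃ Θ : MvPolynomial (Fin 3) ℤ, MvPolynomial.IsWeightedHomogeneous wts Θ (w * m) ∧
      ∀ z : ℂ, 0 < z.im → ∑ i ∈ s, F i z ^ m = MvPolynomial.aeval (vals z) Θ)
    (P : MvPolynomial (Fin 3) ℚ) (hP : MvPolynomial.IsWeightedHomogeneous wts P w) :
    ∃ Ξ : MvPolynomial (Fin 3) ℚ, MvPolynomial.IsWeightedHomogeneous wts Ξ (w * s.card) ∧
      ∀ z : ℂ, 0 < z.im → ∏ i ∈ s, (MvPolynomial.aeval (vals z) P - F i z) = MvPolynomial.aeval (vals z) Ξ := by
  have h' : ∀ m : ℕ, 0 < m → ∃ Θ : MvPolynomial (Fin 3) ℚ, MvPolynomial.IsWeightedHomogeneous wts Θ (w * m) ∧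
      ∀ z : ℂ, 0 < z.im → ∑ i ∈ s, F i z ^ m = MvPolynomial.aeval (vals z) Θ := by
    intro m hm
    obtain ⟨Θ, h1, h2⟩ := h m hm
    refine ⟨MvPolynomial.map (algebraMap ℤ ℚ) Θ, B5F_map h1, fun z hz => ?_⟩
    rw [h2 z hz, MvPolynomial.aeval_map_algebraMap]
  choose! Θ hΘ1 hΘ2 using h'
  have hE : ∀ j, ∃ Ξ : MvPolynomial (Fin 3) ℚ, MvPolynomial.IsWeightedHomogeneous wts Ξ (w * j) ∧
      ∀ z : ℂ, 0 < z.im → B5F_E s (fun i => F i z) j = MvPolynomial.aeval (vals z) Ξ := by
    intro j
    induction j using Nat.strong_induction_on with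
    | _ j ih =>
      rcases Nat.eq_zero_or_pos j with rfl | hj
      · refine ⟨1, MvPolynomial.isWeightedHomogeneous_one ℚ wts, fun z _ => ?_⟩
        rw [B5F_zero, map_one]
      · choose! Ξ h1 h2 using ih
        refine ⟨MvPolynomial.C ((j : ℚ)⁻¹ * (-1) ^ (j + 1)) *
          ∑ a ∈ (Finset.HasAntidiagonal.antidiagonal j).filter (fun a => a.1 < j),
            MvPolynomial.C ((-1) ^ a.1) * Ξ a.1 * Θ a.2, ?_, ?_⟩
        · refine MvPolynomial.IsWeightedHomogeneous.C_mul ?_ _
          refine MvPolynomial.IsWeightedHomogeneous.sum _ _ _ ?_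
          rintro ⟨a, b⟩ hab
          rw [Finset.mem_filter, Finset.HasAntidiagonal.mem_antidiagonal] at hab
          obtain ⟨hab1, hab2⟩ := hab
          simp only at hab1 hab2 ⊢
          have h3 : w * j = w * a + w * b := by rw [← hab1]; ring
          rw [h3]
          exact ((h1 a hab2).C_mul _).mul (hΘ1 b (by omega))
        · intro z hz
          have h1' : B5F_E s (fun i => F i z) j = (j : ℂ)⁻¹ * ((j : ℂ) * B5F_E s (fun i => F i z) j) := by
            rw [inv_mul_cancel_left₀ (Nat.cast_ne_zero.2 (by omega))]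
          rw [h1', B5F_newton, map_mul, MvPolynomial.aeval_C, map_mul, map_inv₀, map_natCast, map_pow,
            map_neg, map_one, map_sum, mul_assoc]
          congr 2
          refine Finset.sum_congr rfl ?_
          rintro ⟨a, b⟩ hab
          rw [Finset.mem_filter, Finset.HasAntidiagonal.mem_antidiagonal] at hab
          obtain ⟨hab1, hab2⟩ := hab
          simp only at hab1 hab2 ⊢
          rw [h2 a hab2 z hz, hΘ2 b (by omega) z hz, map_mul, map_mul, MvPolynomial.aeval_C, map_pow,
            map_neg, map_one]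
  choose Ξ hΞ1 hΞ2 using hE
  refine ⟨∑ j ∈ Finset.range (s.card + 1), MvPolynomial.C ((-1) ^ j) * (Ξ j * P ^ (s.card - j)), ?_, ?_⟩
  · refine MvPolynomial.IsWeightedHomogeneous.sum _ _ _ ?_
    intro j hj
    rw [Finset.mem_range] at hj
    refine MvPolynomial.IsWeightedHomogeneous.C_mul ?_ _
    have h3 : w * s.card = w * j + (s.card - j) • w := by
      rw [smul_eq_mul, mul_comm (s.card - j) w, ← mul_add]
      congr 1
      omega
    rw [h3]
    exact (hΞ1 j).mul (hP.pow _)
  · intro z hz
    have h4 := congrArg (Polynomial.eval (MvPolynomial.aeval (vals z) P)) (B5F_prod s (fun i => F i z))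
    rw [Polynomial.eval_prod, Polynomial.eval_finsetSum] at h4
    simp only [Polynomial.eval_sub, Polynomial.eval_X, Polynomial.eval_C, Polynomial.eval_mul,
      Polynomial.eval_pow, Polynomial.eval_neg, Polynomial.eval_one] at h4
    rw [h4, map_sum]
    refine Finset.sum_congr rfl ?_
    intro j _
    rw [hΞ2 j z hz]
    simp only [map_mul, map_pow, map_neg, map_one]

end Pool.Agent.MSD
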