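import Pool.Agent.Lib.MP_f58a57_nt.Defs

/-! # B5: consequences of the Newton identities (MP_f58a57_nt) -/

open Complex ModularForm EisensteinSeries Filter
open UpperHalfPlane hiding I
open scoped Topology MatrixGroups

noncomputable section

namespace Pool.Agent.MSD

/-- the Newton identities for a finite family of complex numbers -/
theorem B5_newton {J : Type*} (s : Finset J) (α : J → ℂ) (k : ℕ) :
    (k : ℂ) * (s.val.map α).esymm k = (-1) ^ (k + 1) *
      ∑ a ∈ (Finset.HasAntidiagonal.antidiagonal k).filter (fun a => a.1 < k),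
        (-1) ^ a.1 * (s.val.map α).esymm a.1 * ∑ i ∈ s, α i ^ a.2 := by
  have hval : ((Finset.univ : Finset s).val.map (fun i : s => α i)) = s.val.map α := by
    show (s.val.attach.map (fun i => α i.val)) = s.val.map α
    exact Multiset.attach_map_val' s.val α
  have hes : ∀ n, MvPolynomial.aeval (fun i : s => α i) (MvPolynomial.esymm s ℂ n) =
      (s.val.map α).esymm n := by
    intro n
    rw [MvPolynomial.aeval_esymm_eq_multiset_esymm, hval]
  have hps : ∀ n, MvPolynomial.aeval (fun i : s => α i) (MvPolynomial.psum s ℂ n) =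
      ∑ i ∈ s, α i ^ n := by
    intro n
    rw [MvPolynomial.psum, map_sum]
    simp only [map_pow, MvPolynomial.aeval_X]
    exact Finset.sum_coe_sort s (fun i => α i ^ n)
  have h := congrArg (MvPolynomial.aeval (fun i : s => α i)) (MvPolynomial.mul_esymm_eq_sum s ℂ k)
  simpa only [map_mul, map_natCast, map_pow, map_neg, map_one, map_sum, hes, hps] using h

theorem B5_esymm_eq {J : Type*} (s : Finset J) (α β : J → ℂ)
    (h : ∀ k : ℕ, 0 < k → ∑ i ∈ s, α i ^ k = ∑ i ∈ s, β i ^ k) (k : ℕ) :
    (s.val.map α).esymm k = (s.val.map β).esymm k := by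
  induction k using Nat.strong_induction_on with
  | _ k ih =>
    rcases Nat.eq_zero_or_pos k with rfl | hk
    · simp [Multiset.esymm]
    · have h1 := B5_newton s α k
      have h2 := B5_newton s β k
      have h3 : (k : ℂ) * (s.val.map α).esymm k = (k : ℂ) * (s.val.map β).esymm k := by
        rw [h1, h2]
        congr 1
        refine Finset.sum_congr rfl fun a ha => ?_
        rw [Finset.mem_filter, Finset.HasAntidiagonal.mem_antidiagonal] at ha
        rw [ih a.1 ha.2, h a.2 (by omega)]
      exact mul_left_cancel₀ (by exact_mod_cast hk.ne') h3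

/-- B5a. Families with equal power sums have the same characteristic polynomial. (`MvPolynomial.mul_esymm_eq_sum`: the elementary
symmetric functions are determined by the power sums in characteristic zero; `Multiset.prod_X_sub_C_eq_sum_esymm`.) -/
theorem prod_eq_of_psum {J : Type*} (s : Finset J) (α β : J → ℂ)
    (h : ∀ k : ℕ, 0 < k → ∑ i ∈ s, α i ^ k = ∑ i ∈ s, β i ^ k) :
    ∏ i ∈ s, (Polynomial.X - Polynomial.C (α i)) = ∏ i ∈ s, (Polynomial.X - Polynomial.C (β i)) := by
  have key : ∀ γ : J → ℂ, ∏ i ∈ s, (Polynomial.X - Polynomial.C (γ i)) =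
      ∑ j ∈ Finset.range (s.card + 1),
        (-1) ^ j * (Polynomial.C ((s.val.map γ).esymm j) * Polynomial.X ^ (s.card - j)) := by
    intro γ
    have := Multiset.prod_X_sub_X_eq_sum_esymm (s.val.map γ)
    rw [Multiset.map_map, Multiset.card_map] at this
    exact this
  rw [key α, key β]
  refine Finset.sum_congr rfl fun j _ => ?_
  rw [B5_esymm_eq s α β h j]

/-- `k! e_k` is integral -/
theorem B5_fact_esymm {J : Type*} (s : Finset J) (α : J → ℂ)
    (h : ∀ k : ℕ, 0 < k → IsIntegral ℤ (∑ i ∈ s, α i ^ k)) (k : ℕ) :
    IsIntegral ℤ ((k.factorial : ℂ) * (s.val.map α).esymm k) := by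
  induction k using Nat.strong_induction_on with
  | _ k ih =>
    rcases Nat.eq_zero_or_pos k with rfl | hk
    · simp only [Multiset.esymm, Multiset.powersetCard_zero_left, Multiset.map_singleton,
        Multiset.prod_zero, Multiset.sum_singleton, Nat.factorial_zero, Nat.cast_one, mul_one]
      exact isIntegral_one
    · obtain ⟨m, rfl⟩ : ∃ m, k = m + 1 := ⟨k - 1, by omega⟩
      have h1 := B5_newton s α (m + 1)
      have h2 : (((m + 1).factorial : ℕ) : ℂ) * (s.val.map α).esymm (m + 1) =
          (-1) ^ (m + 1 + 1) * ∑ a ∈ (Finset.HasAntidiagonal.antidiagonal (m + 1)).filter (fun a => a.1 < m + 1),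
            (-1) ^ a.1 * ((m.factorial : ℂ) * (s.val.map α).esymm a.1) * ∑ i ∈ s, α i ^ a.2 := by
        rw [Nat.factorial_succ, Nat.cast_mul, mul_comm ((m + 1 : ℕ) : ℂ), mul_assoc, h1,
          Finset.mul_sum, Finset.mul_sum, Finset.mul_sum]
        refine Finset.sum_congr rfl fun a _ => ?_
        ring
      rw [h2]
      refine IsIntegral.mul ((isIntegral_one.neg).pow _) (IsIntegral.sum _ fun a ha => ?_)
      rw [Finset.mem_filter, Finset.HasAntidiagonal.mem_antidiagonal] at ha
      have hle : a.1 ≤ m := by omega
      obtain ⟨q, hq⟩ := Nat.factorial_dvd_factorial hle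
      have h3 : (m.factorial : ℂ) * (s.val.map α).esymm a.1 =
          (q : ℂ) * ((a.1.factorial : ℂ) * (s.val.map α).esymm a.1) := by
        rw [hq]
        push_cast
        ring
      rw [h3]
      exact IsIntegral.mul (IsIntegral.mul ((isIntegral_one.neg).pow _)
        (IsIntegral.mul (isIntegral_algebraMap (R := ℤ) (x := (q : ℤ)) |> fun h => by simpa using h)
          (ih a.1 ha.2))) (h a.2 (by omega))

theorem B5_esymm_smul (c : ℂ) (t : Multiset ℂ) (k : ℕ) :
    (t.map (fun x => c * x)).esymm k = c ^ k * t.esymm k := by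
  unfold Multiset.esymm
  rw [Multiset.powersetCard_map, Multiset.map_map, ← Multiset.sum_map_mul_left]
  congr 1
  refine Multiset.map_congr rfl fun u hu => ?_
  rw [Multiset.mem_powersetCard] at hu
  simp only [Function.comp_apply]
  rw [Multiset.prod_map_mul, Multiset.map_const', Multiset.prod_replicate, hu.2, Multiset.map_id']

/-- B5b. If all power sums are algebraic integers then `n! α i` is an algebraic integer, `n` = number of members.
PROOF. `k! e_k` is an algebraic integer by induction from the Newton identities; `n! α` is a root of the monic polynomial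
`Σ (-1)^k (n!)^k e_k X^{n-k}` with integral coefficients. -/
theorem integral_of_psum {J : Type*} (s : Finset J) (α : J → ℂ)
    (h : ∀ k : ℕ, 0 < k → IsIntegral ℤ (∑ i ∈ s, α i ^ k)) (i : J) (hi : i ∈ s) :
    IsIntegral ℤ (((s.card).factorial : ℂ) * α i) := by
  set c : ℂ := ((s.card).factorial : ℂ) with hc
  set t : Multiset ℂ := s.val.map α with ht
  have hcard : Multiset.card (t.map (fun x => c * x)) = s.card := by
    rw [Multiset.card_map, ht, Multiset.card_map]
    rfl
  set p : Polynomial ℂ := ((t.map (fun x => c * x)).map (fun x => Polynomial.X - Polynomial.C x)).prod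
    with hp
  have hmonic : p.Monic := Polynomial.monic_multiset_prod_of_monic _ _
    fun x _ => Polynomial.monic_X_sub_C x
  have hdeg : p.natDegree = s.card := by
    rw [hp, Polynomial.natDegree_multiset_prod_X_sub_C_eq_card, hcard]
  have hspos : 0 < s.card := Finset.card_pos.2 ⟨i, hi⟩
  refine IsIntegral.of_aeval_monic_of_isIntegral_coeff (p := p) hmonic (by omega) ?_ ?_
  · have h0 : Polynomial.eval (c * α i) p = 0 := by
      rw [hp, Polynomial.eval_multiset_prod]
      apply Multiset.prod_eq_zero
      rw [Multiset.mem_map]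
      refine ⟨Polynomial.X - Polynomial.C (c * α i), ?_, by simp⟩
      rw [Multiset.mem_map]
      refine ⟨c * α i, ?_, rfl⟩
      rw [Multiset.mem_map]
      exact ⟨α i, Multiset.mem_map_of_mem α hi, rfl⟩
    rw [h0]
    exact isIntegral_zero
  · intro k
    by_cases hk : k ≤ s.card
    · rw [hp, Multiset.prod_X_sub_C_coeff _ (by rw [hcard]; exact hk), hcard, B5_esymm_smul]
      refine IsIntegral.mul ((isIntegral_one.neg).pow _) ?_
      rcases Nat.eq_zero_or_pos (s.card - k) with h0 | hpos
      · rw [h0]
        simp only [Multiset.esymm, Multiset.powersetCard_zero_left, Multiset.map_singleton,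
          Multiset.prod_zero, Multiset.sum_singleton, pow_zero, mul_one]
        exact isIntegral_one
      · obtain ⟨q, hq⟩ := Nat.factorial_dvd_factorial (Nat.sub_le s.card k)
        obtain ⟨m, hm⟩ : ∃ m, s.card - k = m + 1 := ⟨s.card - k - 1, by omega⟩
        have h3 : c ^ (s.card - k) * t.esymm (s.card - k) =
            c ^ m * ((q : ℂ) * (((s.card - k).factorial : ℂ) * t.esymm (s.card - k))) := by
          have h4 : c = (((s.card - k).factorial : ℕ) : ℂ) * (q : ℂ) := by
            rw [hc, ← Nat.cast_mul, ← hq]
          conv_lhs => rw [hm, pow_succ]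
          rw [hm] at h4 ⊢
          linear_combination (c ^ m * t.esymm (m + 1)) * h4
        rw [h3]
        have hcint : ∀ n : ℕ, IsIntegral ℤ (n : ℂ) := fun n => by
          have := isIntegral_algebraMap (R := ℤ) (A := ℂ) (x := (n : ℤ))
          simpa using this
        exact IsIntegral.mul ((hcint _).pow _) (IsIntegral.mul (hcint _) (B5_fact_esymm s α h _))
    · rw [Polynomial.coeff_eq_zero_of_natDegree_lt (by omega)]
      exact isIntegral_zero

end Pool.Agent.MSD
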