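import Pool.Agent.Lib.MP_f58a57_nt.A4_Structure
import Pool.Agent.Lib.MP_f58a57_nt.B3_HeckeMF
import Pool.Agent.Lib.MP_f58a57_nt.B4_HeckeQ

/-! # B6: power sums as polynomials (MP_f58a57_nt) -/

open Complex ModularForm EisensteinSeries Filter
open UpperHalfPlane hiding I
open scoped Topology MatrixGroups

noncomputable section

namespace Pool.Agent.MSD

/-- evaluation of a weighted homogeneous polynomial at scaled variables -/
theorem B6_aeval_scale {Θ : MvPolynomial (Fin 3) ℤ} {n : ℕ}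
    (h : MvPolynomial.IsWeightedHomogeneous wts Θ n) (c : ℂ) (v : Fin 3 → ℂ) :
    MvPolynomial.aeval (fun i => c ^ wts i * v i) Θ = c ^ n * MvPolynomial.aeval v Θ := by
  rw [MvPolynomial.aeval_def, MvPolynomial.aeval_def, MvPolynomial.eval₂_eq',
    MvPolynomial.eval₂_eq', Finset.mul_sum]
  refine Finset.sum_congr rfl fun d hd => ?_
  have h1 : Finsupp.weight wts d = n := h (MvPolynomial.mem_support_iff.1 hd)
  have h2 : ∑ i, wts i * d i = n := by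
    rw [← h1, Finsupp.weight_apply, Finsupp.sum_fintype _ _ (fun i => by simp)]
    exact Finset.sum_congr rfl fun i _ => by rw [smul_eq_mul, mul_comm]
  have h3 : ∏ i, (c ^ wts i * v i) ^ d i = c ^ n * ∏ i, v i ^ d i := by
    rw [← h2, ← Finset.prod_pow_eq_pow_sum, ← Finset.prod_mul_distrib]
    exact Finset.prod_congr rfl fun i _ => by rw [mul_pow, pow_mul]
  rw [h3]
  ring

/-- B6. Immediate from A4, B3, B4. -/
theorem theta (κ : Fin 3) (N k : ℕ) (hN : 0 < N) :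
    ∃ Θ : MvPolynomial (Fin 3) ℤ, MvPolynomial.IsWeightedHomogeneous wts Θ (kwt κ * k) ∧
      ∀ z : ℂ, 0 < z.im → SS κ N k z = MvPolynomial.aeval (vals z) Θ :=
  integral_structure (hecke_isMF κ N k hN) (hecke_intQ κ N k hN)

/-- B6b. After normalisation by `Ω`: `Σ (Gr/Ω^w)^k = Θ(e4/Ω⁴, e6/Ω⁶, dl/Ω¹²)`. -/
theorem theta_norm (κ : Fin 3) (N k : ℕ) (hN : 0 < N) :
    ∃ Θ : MvPolynomial (Fin 3) ℤ, ∀ z Ω : ℂ, 0 < z.im → Ω ≠ 0 →
      ∑ ρ ∈ TT N, (Gr κ z ρ / Ω ^ kwt κ) ^ k =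
        MvPolynomial.aeval ![e4 z / Ω ^ 4, e6 z / Ω ^ 6, dl z / Ω ^ 12] Θ := by
  obtain ⟨Θ, hΘ, h⟩ := theta κ N k hN
  refine ⟨Θ, fun z Ω hz hΩ => ?_⟩
  have h1 : (![e4 z / Ω ^ 4, e6 z / Ω ^ 6, dl z / Ω ^ 12] : Fin 3 → ℂ) =
      fun i => (Ω⁻¹) ^ wts i * vals z i := by
    funext i
    fin_cases i
    · show e4 z / Ω ^ 4 = (Ω⁻¹) ^ 4 * e4 z
      rw [inv_pow, div_eq_inv_mul]
    · show e6 z / Ω ^ 6 = (Ω⁻¹) ^ 6 * e6 z
      rw [inv_pow, div_eq_inv_mul]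
    · show dl z / Ω ^ 12 = (Ω⁻¹) ^ 12 * dl z
      rw [inv_pow, div_eq_inv_mul]
  rw [h1, B6_aeval_scale hΘ, ← h z hz, SS, Finset.mul_sum]
  refine Finset.sum_congr rfl fun ρ _ => ?_
  rw [div_pow, ← pow_mul, inv_pow, div_eq_inv_mul]

end Pool.Agent.MSD
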