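import Pool.Agent.Lib.MP_f58a57_nt.B5_Field
import Pool.Agent.Lib.MP_f58a57_nt.B6_Theta

/-! # B7b: degree of the members (MP_f58a57_nt) -/

open Complex ModularForm EisensteinSeries Filter
open UpperHalfPlane hiding I
open scoped Topology MatrixGroups

noncomputable section

namespace Pool.Agent.MSD

theorem B7b_card (N : ℕ) : (TT N).card ≤ N ^ 2 := by
  unfold TT
  rw [Finset.card_sigma]
  have h1 : ∀ p ∈ Nat.divisorsAntidiagonal N, (Finset.range p.2).card ≤ N := by
    intro p hp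
    rw [Finset.card_range]
    obtain ⟨h2, h3⟩ := Nat.mem_divisorsAntidiagonal.mp hp
    exact Nat.le_of_dvd (Nat.pos_of_ne_zero h3) ⟨p.1, by rw [← h2]; ring⟩
  refine (Finset.sum_le_card_nsmul _ _ _ h1).trans ?_
  have h4 : (Nat.divisorsAntidiagonal N).card ≤ N := by
    rw [← Nat.map_div_right_divisors, Finset.card_map]
    exact Nat.card_divisors_le_self N
  rw [smul_eq_mul, sq]
  exact Nat.mul_le_mul_right _ h4

/-- degree over `ℚ` of an element that is a root of a monic polynomial with coefficients in a finite extension -/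
theorem B7b_degree (k : IntermediateField ℚ ℂ) [FiniteDimensional ℚ k] (P : Polynomial ℂ) (hP : P.Monic)
    (hc : ∀ n, P.coeff n ∈ k) (α : ℂ) (hα : P.eval α = 0) :
    (minpoly ℚ α).natDegree ≤ Module.finrank ℚ k * P.natDegree := by
  have hl : P ∈ Polynomial.lifts (algebraMap k ℂ) := by
    rw [Polynomial.lifts_iff_coeff_lifts]
    intro n
    exact ⟨⟨P.coeff n, hc n⟩, rfl⟩
  obtain ⟨Q, hQ1, hQ2, hQ3⟩ := Polynomial.lifts_and_natDegree_eq_and_monic hl hP
  have hroot : Polynomial.aeval α Q = 0 := by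
    rw [Polynomial.aeval_def, ← Polynomial.eval_map, hQ1, hα]
  have hint : IsIntegral k α := ⟨Q, hQ3, by rw [← Polynomial.aeval_def]; exact hroot⟩
  haveI hfd : FiniteDimensional k (IntermediateField.adjoin k {α}) :=
    IntermediateField.adjoin.finiteDimensional hint
  haveI : FiniteDimensional ℚ (IntermediateField.adjoin k {α}) :=
    Module.Finite.trans (R := ℚ) k (IntermediateField.adjoin k {α})
  let a : IntermediateField.adjoin k {α} := IntermediateField.AdjoinSimple.gen k α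
  have h1 : (minpoly ℚ a).natDegree ≤ Module.finrank ℚ (IntermediateField.adjoin k {α}) :=
    minpoly.natDegree_le a
  have h2 : minpoly ℚ α = minpoly ℚ a := by
    have := minpoly.algebraMap_eq (A := ℚ) (B := IntermediateField.adjoin k {α}) (B' := ℂ)
      (algebraMap (IntermediateField.adjoin k {α}) ℂ).injective a
    rw [← this]
    rfl
  rw [h2]
  refine h1.trans ?_
  rw [← Module.finrank_mul_finrank ℚ k (IntermediateField.adjoin k {α})]
  refine Nat.mul_le_mul_left _ ?_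
  rw [IntermediateField.adjoin.finrank hint, ← hQ2]
  exact Polynomial.natDegree_le_of_dvd (minpoly.dvd k α hroot) hQ3.ne_zero

/-- B7b. Degree: `Gr/Ω^w` is a root of a polynomial of degree `card (TT N) ≤ N²` over `k₀ = ℚ(e4/Ω⁴, e6/Ω⁶, dl/Ω¹²)`. -/
theorem Gr_degree (τ Ω : ℂ) (h : CMBase τ Ω) : ∃ C : ℕ, ∀ (κ : Fin 3) (N : ℕ), 0 < N → ∀ ρ ∈ TT N,
    (minpoly ℚ (Gr κ τ ρ / Ω ^ kwt κ)).natDegree ≤ C * N ^ 2 := by
  classical
  let S : Set ℂ := {e4 τ / Ω ^ 4, e6 τ / Ω ^ 6, dl τ / Ω ^ 12}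
  let k : IntermediateField ℚ ℂ := IntermediateField.adjoin ℚ S
  have hfin : Finite S := by
    have : S.Finite := by
      simp only [S]
      exact Set.toFinite _
    exact this.to_subtype
  haveI : FiniteDimensional ℚ k := by
    refine IntermediateField.finiteDimensional_adjoin ?_
    intro x hx
    simp only [S, Set.mem_insert_iff, Set.mem_singleton_iff] at hx
    rcases hx with h1 | h1 | h1
    · rw [h1]; exact h.i4.tower_top
    · rw [h1]; exact h.i6.tower_top
    · rw [h1]; exact h.idl.tower_top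
  refine ⟨Module.finrank ℚ k, ?_⟩
  intro κ N hN ρ hρ
  have hmem : ∀ i : Fin 3, (![e4 τ / Ω ^ 4, e6 τ / Ω ^ 6, dl τ / Ω ^ 12] : Fin 3 → ℂ) i ∈ k := by
    intro i
    apply IntermediateField.subset_adjoin
    fin_cases i <;> simp [S]
  have hps : ∀ m : ℕ, 0 < m → ∑ ρ ∈ TT N, (Gr κ τ ρ / Ω ^ kwt κ) ^ m ∈ k := by
    intro m _
    obtain ⟨Θ, hΘ⟩ := theta_norm κ N m hN
    rw [hΘ τ Ω h.im h.ne]
    let f : Fin 3 → k := fun i => ⟨_, hmem i⟩
    have e : (![e4 τ / Ω ^ 4, e6 τ / Ω ^ 6, dl τ / Ω ^ 12] : Fin 3 → ℂ) = algebraMap k ℂ ∘ f := by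
      funext i
      rfl
    rw [e, MvPolynomial.aeval_algebraMap_apply]
    exact (MvPolynomial.aeval f Θ).2
  have hcoef := coeff_mem_of_psum (TT N) (fun ρ => Gr κ τ ρ / Ω ^ kwt κ) k hps
  have hmon : (∏ ρ ∈ TT N, (Polynomial.X - Polynomial.C (Gr κ τ ρ / Ω ^ kwt κ))).Monic :=
    Polynomial.monic_prod_of_monic _ _ fun i _ => Polynomial.monic_X_sub_C _
  have hdeg : (∏ ρ ∈ TT N, (Polynomial.X - Polynomial.C (Gr κ τ ρ / Ω ^ kwt κ))).natDegree = (TT N).card := by
    rw [Polynomial.natDegree_prod_of_monic _ _ fun i _ => Polynomial.monic_X_sub_C _]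
    simp
  have hev : (∏ ρ ∈ TT N, (Polynomial.X - Polynomial.C (Gr κ τ ρ / Ω ^ kwt κ))).eval (Gr κ τ ρ / Ω ^ kwt κ) = 0 := by
    rw [Polynomial.eval_prod]
    refine Finset.prod_eq_zero hρ ?_
    simp
  have := B7b_degree k _ hmon hcoef _ hev
  rw [hdeg] at this
  exact this.trans (Nat.mul_le_mul_left _ (B7b_card N))

end Pool.Agent.MSD
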