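import Pool.Agent.Lib.MP_f58a57_nt.A5_Uniform
import Pool.Agent.Lib.MP_f58a57_nt.B5_Newton
import Pool.Agent.Lib.MP_f58a57_nt.B6_Theta

/-! # B7c: conjugates of the members (MP_f58a57_nt) -/

open Complex ModularForm EisensteinSeries Filter
open UpperHalfPlane hiding I
open scoped Topology MatrixGroups

noncomputable section

namespace Pool.Agent.MSD

/-- the members of the normalised families are algebraic integers up to a factorial, hence algebraic -/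
theorem b7c_isAlg (τ Ω : ℂ) (h : CMBase τ Ω) (κ : Fin 3) (N : ℕ) (hN : 0 < N)
    (ρ : Σ _ : ℕ × ℕ, ℕ) (hρ : ρ ∈ TT N) : IsAlgebraic ℚ (Gr κ τ ρ / Ω ^ kwt κ) := by
  have hint : IsIntegral ℤ ((((TT N).card).factorial : ℂ) * (Gr κ τ ρ / Ω ^ kwt κ)) := by
    refine integral_of_psum (TT N) (fun ρ => Gr κ τ ρ / Ω ^ kwt κ) ?_ ρ hρ
    intro k _
    obtain ⟨Θ, hΘ⟩ := theta_norm κ N k hN
    rw [hΘ τ Ω h.im h.ne]
    have hmem : ∀ i : Fin 3,
        (![e4 τ / Ω ^ 4, e6 τ / Ω ^ 6, dl τ / Ω ^ 12] : Fin 3 → ℂ) i ∈ integralClosure ℤ ℂ := by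
      intro i
      fin_cases i
      · exact h.i4
      · exact h.i6
      · exact h.idl
    have : (MvPolynomial.aeval (![e4 τ / Ω ^ 4, e6 τ / Ω ^ 6, dl τ / Ω ^ 12] : Fin 3 → ℂ)) Θ ∈
        integralClosure ℤ ℂ := by
      rw [MvPolynomial.aeval_def, MvPolynomial.eval₂_eq]
      refine Subalgebra.sum_mem _ fun d _ => ?_
      refine Subalgebra.mul_mem _ (Subalgebra.algebraMap_mem _ _) ?_
      exact Subalgebra.prod_mem _ fun i _ => Subalgebra.pow_mem _ (hmem i) _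
    exact this
  have h0 : (((TT N).card).factorial : ℂ) ≠ 0 := by
    exact_mod_cast Nat.factorial_ne_zero _
  have h1 : IsAlgebraic ℚ ((((TT N).card).factorial : ℂ) * (Gr κ τ ρ / Ω ^ kwt κ)) :=
    (hint.tower_top (A := ℚ)).isAlgebraic
  have h2 : IsAlgebraic ℚ ((((TT N).card).factorial : ℂ)⁻¹) := by
    have : ((((TT N).card).factorial : ℂ)⁻¹) = algebraMap ℚ ℂ ((((TT N).card).factorial : ℚ)⁻¹) := by
      simp
    rw [this]
    exact isAlgebraic_algebraMap _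
  have h3 := h2.mul h1
  rwa [← mul_assoc, inv_mul_cancel₀ h0, one_mul] at h3

/-- B7c. Conjugates. PROOF. Let `r` be a root of the minimal polynomial of `α = Gr κ τ ρ/Ω^w`. There is an embedding `σ` of
`ℚ(α, u, v, d)` (`u = e4/Ω⁴`, `v = e6/Ω⁶`, `d = dl/Ω¹²`) into `ℂ` with `σ α = r`; `(σu)³ - (σv)² = 1728 σd ≠ 0`, so
`(σu, σv) = (e4 τ'/Ω'⁴, e6 τ'/Ω'⁶)` by `uniformization`; by `theta_norm` (same `Θ`!) the families `σ(Gr κ τ ρ/Ω^w)` — for a `σ` defined on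
the field generated by all members — and `Gr κ τ' ρ/Ω'^w` have the same power sums, hence (`prod_eq_of_psum`) `r` is a member of the
second; bound by `Gr_bound`. There are finitely many pairs `(σu, σv)` (roots of the minimal polynomials of `u`, `v`): choose one
`(τ', Ω')` for each pair and take the maximum of the constants. -/
theorem Gr_conj (τ Ω : ℂ) (h : CMBase τ Ω) : ∃ C : ℕ, ∀ (κ : Fin 3) (N : ℕ), 0 < N → ∀ ρ ∈ TT N,
    ∀ r ∈ (minpoly ℚ (Gr κ τ ρ / Ω ^ kwt κ)).aroots ℂ, ‖r‖ ≤ (C : ℝ) * (N : ℝ) ^ C := by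
  classical
  -- for each pair the parameters
  have hpair : ∀ p : ℂ × ℂ, ∃ C : ℕ, p.1 ^ 3 ≠ p.2 ^ 2 → ∃ τ' Ω' : ℂ, 0 < τ'.im ∧ Ω' ≠ 0 ∧
      e4 τ' / Ω' ^ 4 = p.1 ∧ e6 τ' / Ω' ^ 6 = p.2 ∧
      ∀ (κ : Fin 3) (N : ℕ), 0 < N → ∀ ρ ∈ TT N, ‖Gr κ τ' ρ / Ω' ^ kwt κ‖ ≤ (C : ℝ) * (N : ℝ) ^ C := by
    intro p
    by_cases hp : p.1 ^ 3 ≠ p.2 ^ 2
    swap
    · exact ⟨0, fun h' => absurd h' hp⟩
    obtain ⟨τ', Ω', him, hne, h4, h6⟩ := uniformization p.1 p.2 hp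
    obtain ⟨C, hC⟩ := Gr_bound τ' him
    obtain ⟨M, hM⟩ := exists_nat_ge (max 1 (‖Ω'‖⁻¹))
    have hM1 : (1 : ℝ) ≤ M := (le_max_left _ _).trans hM
    have hM2 : ‖Ω'‖⁻¹ ≤ (M : ℝ) := (le_max_right _ _).trans hM
    refine ⟨max C (C * M ^ 6), fun _ => ⟨τ', Ω', him, hne, h4, h6, ?_⟩⟩
    intro κ N hN ρ hρ
    have hN1 : (1 : ℝ) ≤ N := by exact_mod_cast hN
    have hb := hC κ N hN ρ hρ
    have hw : (‖Ω'‖⁻¹) ^ kwt κ ≤ (M : ℝ) ^ 6 := by
      calc (‖Ω'‖⁻¹) ^ kwt κ ≤ (M : ℝ) ^ kwt κ :=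
            pow_le_pow_left₀ (inv_nonneg.2 (norm_nonneg _)) hM2 _
        _ ≤ (M : ℝ) ^ 6 := by
            refine pow_le_pow_right₀ hM1 ?_
            fin_cases κ <;> simp [kwt]
    rw [norm_div, norm_pow, div_eq_mul_inv, ← inv_pow]
    have hC0 : (0 : ℝ) ≤ C := Nat.cast_nonneg _
    calc ‖Gr κ τ' ρ‖ * (‖Ω'‖⁻¹) ^ kwt κ ≤ ((C : ℝ) * (N : ℝ) ^ C) * (M : ℝ) ^ 6 := by
          refine mul_le_mul hb hw (by positivity) (by positivity)
      _ = ((C : ℝ) * (M : ℝ) ^ 6) * (N : ℝ) ^ C := by ring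
      _ ≤ ((max C (C * M ^ 6) : ℕ) : ℝ) * (N : ℝ) ^ (max C (C * M ^ 6)) := by
          refine mul_le_mul ?_ ?_ (by positivity) (by positivity)
          · have : C * M ^ 6 ≤ max C (C * M ^ 6) := le_max_right _ _
            exact_mod_cast this
          · exact pow_le_pow_right₀ hN1 (le_max_left _ _)
  choose Cp hCp using hpair
  set u : ℂ := e4 τ / Ω ^ 4 with hu
  set v : ℂ := e6 τ / Ω ^ 6 with hv
  have hΩ := h.ne
  have huv : u ^ 3 - v ^ 2 = 1728 * (dl τ / Ω ^ 12) := by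
    rw [hu, hv, dl]
    field_simp
  have hd0 : dl τ / Ω ^ 12 ≠ 0 := div_ne_zero (dl_ne_zero τ h.im) (pow_ne_zero _ hΩ)
  have hualg : IsAlgebraic ℚ u := (h.i4.tower_top (A := ℚ)).isAlgebraic
  have hvalg : IsAlgebraic ℚ v := (h.i6.tower_top (A := ℚ)).isAlgebraic
  set P : Finset (ℂ × ℂ) :=
    ((minpoly ℚ u).aroots ℂ).toFinset ×ˢ ((minpoly ℚ v).aroots ℂ).toFinset with hP
  refine ⟨∑ p ∈ P, Cp p, ?_⟩
  intro κ N hN ρ hρ r hr
  have hN1 : (1 : ℝ) ≤ N := by exact_mod_cast hN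
  -- the algebraic closure
  let A : IntermediateField ℚ ℂ := algebraicClosure ℚ ℂ
  have hAmem : ∀ x : ℂ, x ∈ A ↔ IsAlgebraic ℚ x := fun x => by
    simp only [A]
    rw [mem_algebraicClosure_iff]
  have hspl : ∀ s : A, IsIntegral ℚ s ∧ ((minpoly ℚ s).map (algebraMap ℚ ℂ)).Splits := by
    intro s
    have : IsAlgebraic ℚ (s : ℂ) := (hAmem _).1 s.2
    exact ⟨(isIntegral_algebraMap_iff (algebraMap A ℂ).injective).1 this.isIntegral,
      IsAlgClosed.splits _⟩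
  have halg : ∀ ρ' ∈ TT N, Gr κ τ ρ' / Ω ^ kwt κ ∈ A := fun ρ' hρ' =>
    (hAmem _).2 (b7c_isAlg τ Ω h κ N hN ρ' hρ')
  let α : A := ⟨Gr κ τ ρ / Ω ^ kwt κ, halg ρ hρ⟩
  have hmin : minpoly ℚ α = minpoly ℚ (Gr κ τ ρ / Ω ^ kwt κ) := by
    have := minpoly.algebraMap_eq (A := ℚ) (B := A) (B' := ℂ) (algebraMap A ℂ).injective α
    exact this.symm
  have hr0 : Polynomial.aeval r (minpoly ℚ α) = 0 := by
    rw [hmin]
    exact (Polynomial.mem_aroots.1 hr).2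
  obtain ⟨σ, hσ⟩ := IntermediateField.exists_algHom_of_splits_of_aeval hspl hr0
  let uA : A := ⟨u, (hAmem _).2 hualg⟩
  let vA : A := ⟨v, (hAmem _).2 hvalg⟩
  have hdl : (dl τ / Ω ^ 12) = (u ^ 3 - v ^ 2) / 1728 := by
    rw [huv]; ring
  let dA : A := algebraMap ℚ A (1 / 1728) * (uA ^ 3 - vA ^ 2)
  have hdA : (algebraMap A ℂ dA) = dl τ / Ω ^ 12 := by
    rw [hdl]
    have e0 : algebraMap A ℂ (algebraMap ℚ A (1 / 1728)) = (1 / 1728 : ℂ) := by
      rw [← IsScalarTower.algebraMap_apply ℚ A ℂ]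
      norm_num
    have e1 : algebraMap A ℂ uA = u := rfl
    have e2 : algebraMap A ℂ vA = v := rfl
    simp only [dA]
    rw [map_mul, map_sub, map_pow, map_pow, e0, e1, e2]
    ring
  have hne : (σ uA) ^ 3 ≠ (σ vA) ^ 2 := by
    intro hcon
    have h1 : σ (uA ^ 3 - vA ^ 2) = 0 := by
      rw [map_sub, map_pow, map_pow, hcon, sub_self]
    have h2 : uA ^ 3 - vA ^ 2 = 0 := by
      exact (map_eq_zero σ).1 h1
    have h3 : ((uA ^ 3 - vA ^ 2 : A) : ℂ) = 0 := by rw [h2]; rfl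
    have h4 : u ^ 3 - v ^ 2 = 0 := by simpa [uA, vA] using h3
    rw [huv] at h4
    exact hd0 (by simpa using h4)
  obtain ⟨τ', Ω', him', hne', h4', h6', hbd'⟩ := hCp (σ uA, σ vA) hne
  simp only at h4' h6'
  -- power sums
  have hps : ∀ k : ℕ, 0 < k →
      ∑ ρ' ∈ TT N, (if hm : ρ' ∈ TT N then σ ⟨Gr κ τ ρ' / Ω ^ kwt κ, halg ρ' hm⟩ else 0) ^ k =
        ∑ ρ' ∈ TT N, (Gr κ τ' ρ' / Ω' ^ kwt κ) ^ k := by
    intro k _
    obtain ⟨Θ, hΘ⟩ := theta_norm κ N k hN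
    rw [hΘ τ' Ω' him' hne']
    have hA : (∑ ρ' ∈ TT N, (if hm : ρ' ∈ TT N then (⟨Gr κ τ ρ' / Ω ^ kwt κ, halg ρ' hm⟩ : A) else 0) ^ k) =
        MvPolynomial.aeval (![uA, vA, dA] : Fin 3 → A) Θ := by
      apply (algebraMap A ℂ).injective
      have e1 : (algebraMap A ℂ) (∑ ρ' ∈ TT N,
          (if hm : ρ' ∈ TT N then (⟨Gr κ τ ρ' / Ω ^ kwt κ, halg ρ' hm⟩ : A) else 0) ^ k) =
          ∑ ρ' ∈ TT N, (Gr κ τ ρ' / Ω ^ kwt κ) ^ k := by
        rw [map_sum]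
        refine Finset.sum_congr rfl fun ρ' hρ' => ?_
        rw [map_pow, dif_pos hρ']
        rfl
      rw [e1, hΘ τ Ω h.im h.ne]
      rw [MvPolynomial.aeval_def, MvPolynomial.eval₂_eq, MvPolynomial.aeval_def, MvPolynomial.eval₂_eq,
        map_sum]
      refine Finset.sum_congr rfl fun d _ => ?_
      rw [map_mul, map_prod]
      congr 1
      refine Finset.prod_congr rfl fun i _ => ?_
      rw [map_pow]
      congr 1
      fin_cases i
      · rfl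
      · rfl
      · exact hdA.symm
    have hσA := congrArg σ hA
    rw [map_sum] at hσA
    have e2 : ∑ ρ' ∈ TT N, (if hm : ρ' ∈ TT N then σ ⟨Gr κ τ ρ' / Ω ^ kwt κ, halg ρ' hm⟩ else 0) ^ k =
        ∑ ρ' ∈ TT N, σ ((if hm : ρ' ∈ TT N then (⟨Gr κ τ ρ' / Ω ^ kwt κ, halg ρ' hm⟩ : A) else 0) ^ k) := by
      refine Finset.sum_congr rfl fun ρ' hρ' => ?_
      rw [map_pow, dif_pos hρ', dif_pos hρ']
    rw [e2, hσA]
    rw [MvPolynomial.aeval_def, MvPolynomial.eval₂_eq, MvPolynomial.aeval_def, MvPolynomial.eval₂_eq,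
        map_sum]
    refine Finset.sum_congr rfl fun d _ => ?_
    rw [map_mul, map_prod]
    congr 1
    · simp
    · refine Finset.prod_congr rfl fun i _ => ?_
      rw [map_pow]
      congr 1
      fin_cases i
      · exact h4'.symm
      · exact h6'.symm
      · change σ dA = dl τ' / Ω' ^ 12
        have e3 : dl τ' / Ω' ^ 12 = ((e4 τ' / Ω' ^ 4) ^ 3 - (e6 τ' / Ω' ^ 6) ^ 2) / 1728 := by
          rw [dl]
          field_simp
        have e4 : σ (algebraMap ℚ A (1 / 1728)) = (1 / 1728 : ℂ) := by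
          rw [AlgHom.commutes]
          norm_num
        rw [e3, h4', h6']
        simp only [dA]
        rw [map_mul, map_sub, map_pow, map_pow, e4]
        ring
  have hprod := prod_eq_of_psum (TT N)
    (fun ρ' => if hm : ρ' ∈ TT N then σ ⟨Gr κ τ ρ' / Ω ^ kwt κ, halg ρ' hm⟩ else 0)
    (fun ρ' => Gr κ τ' ρ' / Ω' ^ kwt κ) hps
  have hev := congrArg (Polynomial.eval r) hprod
  rw [Polynomial.eval_prod, Polynomial.eval_prod] at hev
  have hz : ∏ i ∈ TT N, Polynomial.eval r (Polynomial.X - Polynomial.C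
      ((fun ρ' => if hm : ρ' ∈ TT N then σ ⟨Gr κ τ ρ' / Ω ^ kwt κ, halg ρ' hm⟩ else 0) i)) = 0 := by
    refine Finset.prod_eq_zero hρ ?_
    simp only [Polynomial.eval_sub, Polynomial.eval_X, Polynomial.eval_C]
    rw [dif_pos hρ]
    have : σ ⟨Gr κ τ ρ / Ω ^ kwt κ, halg ρ hρ⟩ = r := hσ
    rw [this, sub_self]
  rw [hz] at hev
  obtain ⟨ρ', hρ', he⟩ := Finset.prod_eq_zero_iff.1 hev.symm
  have hrr : r = Gr κ τ' ρ' / Ω' ^ kwt κ := by
    simp only [Polynomial.eval_sub, Polynomial.eval_X, Polynomial.eval_C] at he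
    exact sub_eq_zero.1 he
  have hb := hbd' κ N hN ρ' hρ'
  rw [hrr]
  refine hb.trans ?_
  have hmemP : (σ uA, σ vA) ∈ P := by
    rw [hP, Finset.mem_product]
    constructor
    · rw [Multiset.mem_toFinset, Polynomial.mem_aroots]
      refine ⟨minpoly.ne_zero hualg.isIntegral, ?_⟩
      have hm : minpoly ℚ uA = minpoly ℚ u :=
        (minpoly.algebraMap_eq (A := ℚ) (B := A) (B' := ℂ) (algebraMap A ℂ).injective uA).symm
      rw [← hm, Polynomial.aeval_algHom_apply, minpoly.aeval, map_zero]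
    · rw [Multiset.mem_toFinset, Polynomial.mem_aroots]
      refine ⟨minpoly.ne_zero hvalg.isIntegral, ?_⟩
      have hm : minpoly ℚ vA = minpoly ℚ v :=
        (minpoly.algebraMap_eq (A := ℚ) (B := A) (B' := ℂ) (algebraMap A ℂ).injective vA).symm
      rw [← hm, Polynomial.aeval_algHom_apply, minpoly.aeval, map_zero]
  have hle : Cp (σ uA, σ vA) ≤ ∑ p ∈ P, Cp p := Finset.single_le_sum (fun _ _ => Nat.zero_le _) hmemP
  refine mul_le_mul ?_ (pow_le_pow_right₀ hN1 hle) (by positivity) (by positivity)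
  exact_mod_cast hle

end Pool.Agent.MSD
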