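import Pool.Agent.Lib.MP_f58a57_nt.B7a_Integral
import Pool.Agent.Lib.MP_f58a57_nt.B7b_Degree
import Pool.Agent.Lib.MP_f58a57_nt.B7c_Conj

/-! # B7: degree and height of the members (MP_f58a57_nt) -/

open Complex ModularForm EisensteinSeries Filter
open UpperHalfPlane hiding I
open scoped Topology MatrixGroups

noncomputable section

namespace Pool.Agent.MSD

/-- B7. Summary of B7a, B7b, B7c (`Gr/Ω^w` is algebraic because `(N²)! · Gr/Ω^w` is integral). -/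
theorem ctrl_Gr (τ Ω : ℂ) (h : CMBase τ Ω) : ∃ C : ℕ, ∀ (κ : Fin 3) (N : ℕ), 0 < N → ∀ ρ ∈ TT N,
    Ctrl (C * N ^ 2) ((N ^ 2).factorial) ((C : ℝ) * (N : ℝ) ^ C) (Gr κ τ ρ / Ω ^ kwt κ) := by
  obtain ⟨C₁, h₁⟩ := Gr_degree τ Ω h
  obtain ⟨C₂, h₂⟩ := Gr_conj τ Ω h
  refine ⟨max C₁ C₂, fun κ N hN ρ hρ => ?_⟩
  have hint := Gr_integral τ Ω h κ N hN ρ hρ
  have hN1 : (1 : ℝ) ≤ N := by exact_mod_cast hN
  refine ⟨?_, hint, ?_, ?_⟩
  · have h0 : (((N ^ 2).factorial : ℕ) : ℂ) ≠ 0 := by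
      exact_mod_cast Nat.factorial_ne_zero _
    have h1 : IsAlgebraic ℚ ((((N ^ 2).factorial : ℕ) : ℂ) * (Gr κ τ ρ / Ω ^ kwt κ)) :=
      (hint.tower_top (A := ℚ)).isAlgebraic
    have h2 : IsAlgebraic ℚ ((((N ^ 2).factorial : ℕ) : ℂ)⁻¹) := by
      have : ((((N ^ 2).factorial : ℕ) : ℂ)⁻¹) = algebraMap ℚ ℂ ((((N ^ 2).factorial : ℕ) : ℚ)⁻¹) := by
        simp
      rw [this]
      exact isAlgebraic_algebraMap _
    have h3 := h2.mul h1
    rwa [← mul_assoc, inv_mul_cancel₀ h0, one_mul] at h3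
  · exact (h₁ κ N hN ρ hρ).trans (Nat.mul_le_mul_right _ (le_max_left _ _))
  · intro r hr
    refine (h₂ κ N hN ρ hρ r hr).trans ?_
    refine mul_le_mul ?_ (pow_le_pow_right₀ hN1 (le_max_right _ _)) (by positivity) (by positivity)
    exact_mod_cast le_max_right C₁ C₂

end Pool.Agent.MSD
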