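import Pool.Agent.Lib.MP_f58a57_nt.B5_Newton
import Pool.Agent.Lib.MP_f58a57_nt.B6_Theta

/-! # B7a: integrality of the members (MP_f58a57_nt) -/

open Complex ModularForm EisensteinSeries Filter
open UpperHalfPlane hiding I
open scoped Topology MatrixGroups

noncomputable section

namespace Pool.Agent.MSD

theorem b7a_card_TT_le (N : ℕ) (hN : 0 < N) : (TT N).card ≤ N ^ 2 := by
  unfold TT
  rw [Finset.card_sigma]
  have h1 : ∀ p ∈ Nat.divisorsAntidiagonal N, (Finset.range p.2).card ≤ N := by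
    intro p hp
    rw [Finset.card_range]
    rw [Nat.mem_divisorsAntidiagonal] at hp
    exact Nat.le_of_dvd hN (Dvd.intro_left _ hp.1)
  refine (Finset.sum_le_sum h1).trans ?_
  rw [Finset.sum_const, smul_eq_mul, sq]
  refine Nat.mul_le_mul_right _ ?_
  have h2 : (Nat.divisorsAntidiagonal N).card = N.divisors.card := by
    rw [← Nat.map_div_right_divisors, Finset.card_map]
  rw [h2]
  exact Nat.card_divisors_le_self N

theorem b7a_integral_aeval (x : Fin 3 → ℂ) (hx : ∀ i, IsIntegral ℤ (x i)) (Θ : MvPolynomial (Fin 3) ℤ) :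
    IsIntegral ℤ (MvPolynomial.aeval x Θ) := by
  induction Θ using MvPolynomial.induction_on with
  | C a => simpa using isIntegral_algebraMap (R := ℤ) (A := ℂ) (x := a)
  | add p q hp hq => rw [map_add]; exact hp.add hq
  | mul_X p i hp => rw [map_mul, MvPolynomial.aeval_X]; exact hp.mul (hx i)

/-- B7a. `D α` integral. (`theta_norm` and `integral_of_psum`; `card! ∣ (N²)!`.) -/
theorem Gr_integral (τ Ω : ℂ) (h : CMBase τ Ω) (κ : Fin 3) (N : ℕ) (hN : 0 < N)
    (ρ : Σ _ : ℕ × ℕ, ℕ) (hρ : ρ ∈ TT N) : IsIntegral ℤ (((N ^ 2).factorial : ℂ) * (Gr κ τ ρ / Ω ^ kwt κ)) := by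
  have hps : ∀ k : ℕ, 0 < k → IsIntegral ℤ (∑ ρ ∈ TT N, (Gr κ τ ρ / Ω ^ kwt κ) ^ k) := by
    intro k _
    obtain ⟨Θ, hΘ⟩ := theta_norm κ N k hN
    rw [hΘ τ Ω h.im h.ne]
    refine b7a_integral_aeval _ ?_ Θ
    intro i
    fin_cases i
    · exact h.i4
    · exact h.i6
    · exact h.idl
  have h1 := integral_of_psum (TT N) (fun ρ => Gr κ τ ρ / Ω ^ kwt κ) hps ρ hρ
  obtain ⟨m, hm⟩ := Nat.factorial_dvd_factorial (b7a_card_TT_le N hN)
  rw [hm, Nat.cast_mul, mul_comm ((TT N).card.factorial : ℂ) (m : ℂ), mul_assoc]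
  refine IsIntegral.mul ?_ h1
  simpa using isIntegral_algebraMap (R := ℤ) (A := ℂ) (x := (m : ℤ))

end Pool.Agent.MSD
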