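import Pool.Agent.Lib.MP_f58a57_nt.B8a_Rel

/-! # B8c: CM points have algebraic invariants (MP_f58a57_nt) -/

open Complex ModularForm EisensteinSeries Filter
open UpperHalfPlane hiding I
open scoped Topology MatrixGroups

noncomputable section

namespace Pool.Agent.MSD

theorem B8_scale {W : ℕ} {Ξ : MvPolynomial (Fin 3) ℚ}
    (hΞ : MvPolynomial.IsWeightedHomogeneous wts Ξ W) (ω : ℂ) (x : Fin 3 → ℂ) :
    MvPolynomial.aeval (fun i => ω ^ wts i * x i) Ξ = ω ^ W * MvPolynomial.aeval x Ξ := by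
  rw [MvPolynomial.aeval_def, MvPolynomial.aeval_def, MvPolynomial.eval₂_eq', MvPolynomial.eval₂_eq',
    Finset.mul_sum]
  refine Finset.sum_congr rfl fun d hd => ?_
  have hw : Finsupp.weight wts d = W := hΞ (MvPolynomial.mem_support_iff.1 hd)
  have hw' : ∑ i, wts i * d i = W := by
    rw [← hw, Finsupp.weight_apply, Finsupp.sum_fintype _ _ (by simp)]
    refine Finset.sum_congr rfl fun i _ => ?_
    rw [smul_eq_mul, mul_comm]
  have e : ∏ i, (ω ^ wts i * x i) ^ d i = ω ^ W * ∏ i, x i ^ d i := by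
    rw [← hw', ← Finset.prod_pow_eq_pow_sum, ← Finset.prod_mul_distrib]
    refine Finset.prod_congr rfl fun i _ => ?_
    rw [mul_pow, ← pow_mul]
  rw [e]
  ring

theorem B8_vals (A B Ω : ℂ) (hΩ : Ω ^ 4 = A) (hΩ0 : Ω ≠ 0) :
    (fun i => Ω ^ wts i * (![1, B / Ω ^ 6, (1 / 1728) * (1 - (B / Ω ^ 6) ^ 2)] : Fin 3 → ℂ) i) =
      ![A, B, (A ^ 3 - B ^ 2) / 1728] := by
  funext i
  fin_cases i
  · simp [wts, hΩ]
  · simp only [wts]
    simp
    field_simp
  · simp only [wts]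
    simp
    rw [← hΩ]
    field_simp

theorem B8_multiple {z : ℂ} (h : IsAlgebraic ℚ z) : ∃ m : ℕ, 0 < m ∧ IsIntegral ℤ ((m : ℂ) * z) := by
  have h1 : IsAlgebraic ℤ z := (IsFractionRing.isAlgebraic_iff ℤ ℚ ℂ).2 h
  obtain ⟨y, hy, hi⟩ := h1.exists_integral_multiple
  refine ⟨y.natAbs, Int.natAbs_pos.2 hy, ?_⟩
  rw [zsmul_eq_mul] at hi
  rcases Int.natAbs_eq y with h2 | h2
  · have e : ((y.natAbs : ℕ) : ℂ) = (y : ℂ) := by
      conv_rhs => rw [h2]
      simp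
    rw [e]
    exact hi
  · have e : ((y.natAbs : ℕ) : ℂ) = -(y : ℂ) := by
      conv_rhs => rw [h2]
      simp
    rw [e, neg_mul]
    exact hi.neg

theorem B8_nat (m : ℕ) : IsIntegral ℤ (m : ℂ) := by
  have := (isIntegral_algebraMap (R := ℤ) (A := ℂ) (x := (m : ℤ)))
  simpa using this

theorem B8_final (τ Ω : ℂ) (hτ : 0 < τ.im) (hΩ : Ω ≠ 0) (hu : IsAlgebraic ℚ (e4 τ / Ω ^ 4))
    (hv : IsAlgebraic ℚ (e6 τ / Ω ^ 6)) : ∃ Ω' : ℂ, CMBase τ Ω' := by
  have hd : IsAlgebraic ℚ (dl τ / Ω ^ 12) := by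
    have e : dl τ / Ω ^ 12 = ((e4 τ / Ω ^ 4) ^ 3 - (e6 τ / Ω ^ 6) ^ 2) * (((1 / 1728 : ℚ) : ℂ)) := by
      rw [dl]
      push_cast
      field_simp
    rw [e]
    exact ((hu.pow 3).sub (hv.pow 2)).mul (isAlgebraic_algebraMap (1 / 1728 : ℚ))
  obtain ⟨m1, p1, i1⟩ := B8_multiple hu
  obtain ⟨m2, p2, i2⟩ := B8_multiple hv
  obtain ⟨m3, p3, i3⟩ := B8_multiple hd
  have q1 : (m1 : ℂ) ≠ 0 := by exact_mod_cast p1.ne'
  have q2 : (m2 : ℂ) ≠ 0 := by exact_mod_cast p2.ne'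
  have q3 : (m3 : ℂ) ≠ 0 := by exact_mod_cast p3.ne'
  refine ⟨Ω / ((m1 : ℂ) * m2 * m3), hτ, div_ne_zero hΩ (by positivity), ?_, ?_, ?_⟩
  · have e : e4 τ / (Ω / ((m1 : ℂ) * m2 * m3)) ^ 4 =
        ((m1 ^ 3 * m2 ^ 4 * m3 ^ 4 : ℕ) : ℂ) * ((m1 : ℂ) * (e4 τ / Ω ^ 4)) := by
      push_cast
      field_simp
    rw [e]
    exact (B8_nat _).mul i1
  · have e : e6 τ / (Ω / ((m1 : ℂ) * m2 * m3)) ^ 6 =
        ((m1 ^ 6 * m2 ^ 5 * m3 ^ 6 : ℕ) : ℂ) * ((m2 : ℂ) * (e6 τ / Ω ^ 6)) := by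
      push_cast
      field_simp
    rw [e]
    exact (B8_nat _).mul i2
  · have e : dl τ / (Ω / ((m1 : ℂ) * m2 * m3)) ^ 12 =
        ((m1 ^ 12 * m2 ^ 12 * m3 ^ 11 : ℕ) : ℂ) * ((m3 : ℂ) * (dl τ / Ω ^ 12)) := by
      push_cast
      field_simp
    rw [e]
    exact (B8_nat _).mul i3

theorem B8_rt_im (d : ℕ) (hd : 0 < d) : 0 < (rt d).im := by
  have : (rt d).im = Real.sqrt d := by simp [rt]
  rw [this]
  exact Real.sqrt_pos.2 (by exact_mod_cast hd)

/-- B8c. PROOF. Let `τ = √(-d)`. If `e4 τ = 0`, choose `Ω⁶ = e6 τ ≠ 0`. Otherwise choose `Ω⁴ = e4 τ` and let `v = e6 τ/Ω⁶`; substituting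
`dl = (e4³ - e6²)/1728` in `Ξ` and dividing by `Ω^W`, `Q(v) = 0` where `Q = Σ c_{a,b} V^b ∈ ℚ[V]` (monomials `X₄^a X₆^b`, `4a + 6b = W`, so
different monomials give different `b`); `Q ≠ 0` because `Ξ(vals z) ≠ 0` for some `z`. So `v` is algebraic. In both cases
`e4/Ω⁴, e6/Ω⁶, dl/Ω¹²` are algebraic; multiply them by powers of a positive integer `m` (replace `Ω` by `Ω/m`) to make them integral. -/
theorem cm_base (d : ℕ) (hd : 0 < d) : ∃ Ω : ℂ, CMBase (rt d) Ω := by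
  have hτ := B8_rt_im d hd
  set τ := rt d with hτd
  by_cases hA : e4 τ = 0
  · obtain ⟨Ω, hΩ⟩ := IsAlgClosed.exists_pow_nat_eq (e6 τ) (n := 6) (by norm_num)
    have hB : e6 τ ≠ 0 := by
      intro h
      have := dl_ne_zero τ hτ
      apply this
      rw [dl, hA, h]
      norm_num
    have hΩ0 : Ω ≠ 0 := by
      rintro rfl
      apply hB
      rw [← hΩ]
      norm_num
    refine B8_final τ Ω hτ hΩ0 ?_ ?_
    · rw [hA, zero_div]
      exact isAlgebraic_zero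
    · rw [← hΩ, div_self (pow_ne_zero _ hΩ0)]
      exact isAlgebraic_one
  · obtain ⟨Ω, hΩ⟩ := IsAlgClosed.exists_pow_nat_eq (e4 τ) (n := 4) (by norm_num)
    have hΩ0 : Ω ≠ 0 := by
      rintro rfl
      apply hA
      rw [← hΩ]
      norm_num
    obtain ⟨W, Ξ, hΞ, h0, z, hz, hne⟩ := cm_relation d hd
    let Q : Polynomial ℚ := MvPolynomial.aeval
      (![1, Polynomial.X, Polynomial.C (1 / 1728) * (1 - Polynomial.X ^ 2)] : Fin 3 → Polynomial ℚ) Ξ
    have hQ : ∀ v : ℂ, Polynomial.aeval v Q =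
        MvPolynomial.aeval (![1, v, (1 / 1728) * (1 - v ^ 2)] : Fin 3 → ℂ) Ξ := by
      intro v
      have := congrArg (fun g => g Ξ) (MvPolynomial.comp_aeval
        (![1, Polynomial.X, Polynomial.C (1 / 1728) * (1 - Polynomial.X ^ 2)] : Fin 3 → Polynomial ℚ)
        (Polynomial.aeval v : Polynomial ℚ →ₐ[ℚ] ℂ))
      simp only [AlgHom.comp_apply] at this
      rw [show Polynomial.aeval v Q = _ from this]
      congr 2
      funext i
      fin_cases i <;> simp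
    have key : ∀ A B ω : ℂ, ω ^ 4 = A → ω ≠ 0 →
        MvPolynomial.aeval (![A, B, (A ^ 3 - B ^ 2) / 1728] : Fin 3 → ℂ) Ξ =
          ω ^ W * Polynomial.aeval (B / ω ^ 6) Q := by
      intro A B ω h1 h2
      rw [hQ, ← B8_scale hΞ, B8_vals A B ω h1 h2]
    have hv0 : ∀ w : ℂ, vals w = ![e4 w, e6 w, (e4 w ^ 3 - e6 w ^ 2) / 1728] := fun w => rfl
    have hroot : Polynomial.aeval (e6 τ / Ω ^ 6) Q = 0 := by
      have h1 := key (e4 τ) (e6 τ) Ω hΩ hΩ0
      rw [← hv0, h0] at h1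
      exact (mul_eq_zero.1 h1.symm).resolve_left (pow_ne_zero _ hΩ0)
    have hQ0 : Q ≠ 0 := by
      intro hQz
      have hall : ∀ A B : ℂ, A ≠ 0 →
          MvPolynomial.aeval (![A, B, (A ^ 3 - B ^ 2) / 1728] : Fin 3 → ℂ) Ξ = 0 := by
        intro A B hA'
        obtain ⟨ω, hω⟩ := IsAlgClosed.exists_pow_nat_eq A (n := 4) (by norm_num)
        have hω0 : ω ≠ 0 := by
          rintro rfl
          apply hA'
          rw [← hω]
          norm_num
        rw [key A B ω hω hω0, hQz]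
        simp
      let R : Polynomial ℂ := MvPolynomial.aeval
        (![Polynomial.X, Polynomial.C (e6 z), Polynomial.C (1 / 1728) *
          (Polynomial.X ^ 3 - Polynomial.C (e6 z) ^ 2)] : Fin 3 → Polynomial ℂ) Ξ
      have hR : ∀ A : ℂ, Polynomial.eval A R =
          MvPolynomial.aeval (![A, e6 z, (A ^ 3 - e6 z ^ 2) / 1728] : Fin 3 → ℂ) Ξ := by
        intro A
        have := congrArg (fun g => g Ξ) (MvPolynomial.comp_aeval
          (![Polynomial.X, Polynomial.C (e6 z), Polynomial.C (1 / 1728) *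
          (Polynomial.X ^ 3 - Polynomial.C (e6 z) ^ 2)] : Fin 3 → Polynomial ℂ)
          ((Polynomial.aeval A : Polynomial ℂ →ₐ[ℂ] ℂ).restrictScalars ℚ))
        simp only [AlgHom.comp_apply] at this
        rw [show Polynomial.eval A R = _ from this]
        congr 2
        funext i
        fin_cases i
        · simp
        · simp
        · simp
          ring
      have hR0 : R = 0 := by
        refine Polynomial.eq_zero_of_infinite_isRoot R (Set.Infinite.mono (s := ({0} : Set ℂ)ᶜ) ?_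
          (Set.finite_singleton (0 : ℂ)).infinite_compl)
        intro A hA'
        change Polynomial.eval A R = 0
        rw [hR]
        exact hall A _ hA'
      apply hne
      rw [hv0, ← hR, hR0]
      simp
    refine B8_final τ Ω hτ hΩ0 ?_ ⟨Q, hQ0, hroot⟩
    rw [hΩ, div_self hA]
    exact isAlgebraic_one

end Pool.Agent.MSD
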