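import Pool.Agent.Lib.MP_f58a57_nt.B5_Field
import Pool.Agent.Lib.MP_f58a57_nt.B6_Theta

/-! # B8ab: the isobaric relation at a CM point (MP_f58a57_nt) -/

open Complex ModularForm EisensteinSeries Filter
open UpperHalfPlane hiding I
open scoped Topology MatrixGroups

noncomputable section

namespace Pool.Agent.MSD

theorem B8a_norm_qq (z : ℂ) : ‖qq z‖ = Real.exp (-(2 * Real.pi * z.im)) := by
  unfold qq
  rw [Complex.norm_exp]
  congr 1
  simp [Complex.mul_re, Complex.mul_im]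

theorem B8a_bound {c : ℕ → ℤ} {f : ℂ → ℂ} (h : QExp c f) :
    ∃ K : ℝ, ∀ z : ℂ, 1 ≤ z.im → ‖f z - c 0‖ ≤ K * ‖qq z‖ := by
  have hI : HasSum (fun n => (c n : ℂ) * qq I ^ n) (f I) := h I (by simp)
  have hs : Summable (fun n => ‖(c n : ℂ) * qq I ^ n‖) := hI.summable.norm
  have hq0 : 0 < ‖qq I‖ := by
    rw [B8a_norm_qq]
    exact Real.exp_pos _
  have hs1 : Summable (fun n => ‖(c (n + 1) : ℂ)‖ * ‖qq I‖ ^ n) := by
    have h1 : Summable (fun n => ‖(c (n + 1) : ℂ) * qq I ^ (n + 1)‖) :=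
      (summable_nat_add_iff 1).2 hs
    have h2 := h1.mul_left (‖qq I‖⁻¹)
    refine h2.congr fun n => ?_
    rw [norm_mul, norm_pow, pow_succ]
    field_simp
  refine ⟨∑' n, ‖(c (n + 1) : ℂ)‖ * ‖qq I‖ ^ n, fun z hz => ?_⟩
  have hle : ‖qq z‖ ≤ ‖qq I‖ := by
    rw [B8a_norm_qq, B8a_norm_qq]
    apply Real.exp_le_exp.2
    have := Real.pi_pos
    simp only [Complex.I_im]
    nlinarith
  have hz' : HasSum (fun n => (c n : ℂ) * qq z ^ n) (f z) := h z (by linarith)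
  have h1 : HasSum (fun n => (c (n + 1) : ℂ) * qq z ^ (n + 1)) (f z - c 0) := by
    have := (hasSum_nat_add_iff' (f := fun n => (c n : ℂ) * qq z ^ n) 1).2 hz'
    simpa using this
  rw [← h1.tsum_eq]
  refine tsum_of_norm_bounded (hs1.hasSum.mul_right ‖qq z‖) fun n => ?_
  rw [norm_mul, norm_pow, pow_succ, ← mul_assoc]
  apply mul_le_mul_of_nonneg_right _ (norm_nonneg _)
  apply mul_le_mul_of_nonneg_left _ (norm_nonneg _)
  exact pow_le_pow_left₀ (norm_nonneg _) hle n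

theorem B8a_tendsto {c : ℕ → ℤ} {f : ℂ → ℂ} (h : QExp c f) {u : ℝ → ℂ}
    (hu : Tendsto (fun y => (u y).im) atTop atTop) :
    Tendsto (fun y => f (u y)) atTop (𝓝 (c 0 : ℂ)) := by
  obtain ⟨K, hK⟩ := B8a_bound h
  rw [tendsto_iff_norm_sub_tendsto_zero]
  have h1 : Tendsto (fun y => K * ‖qq (u y)‖) atTop (𝓝 0) := by
    have h2 : Tendsto (fun y => ‖qq (u y)‖) atTop (𝓝 0) := by
      have h3 : (fun y => ‖qq (u y)‖) = fun y => Real.exp (-(2 * Real.pi * (u y).im)) := by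
        funext y
        exact B8a_norm_qq _
      rw [h3]
      have h4 : Tendsto (fun y => 2 * Real.pi * (u y).im) atTop atTop :=
        hu.const_mul_atTop (by positivity)
      exact Real.tendsto_exp_atBot.comp (tendsto_neg_atTop_atBot.comp h4)
    simpa using h2.const_mul K
  refine squeeze_zero' (Eventually.of_forall fun _ => norm_nonneg _) ?_ h1
  filter_upwards [hu.eventually_ge_atTop 1] with y hy
  exact hK _ hy

theorem B8a_rt_sq (d : ℕ) : rt d * rt d = -(d : ℂ) := by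
  unfold rt
  have h1 : (Real.sqrt d : ℂ) * (Real.sqrt d : ℂ) = (d : ℂ) := by
    rw [← Complex.ofReal_mul, Real.mul_self_sqrt (Nat.cast_nonneg d)]
    simp
  calc (Real.sqrt d : ℂ) * I * ((Real.sqrt d : ℂ) * I)
      = ((Real.sqrt d : ℂ) * (Real.sqrt d : ℂ)) * (I * I) := by ring
    _ = -(d : ℂ) := by rw [h1, Complex.I_mul_I]; ring

theorem B8a_rt_im (d : ℕ) (hd : 0 < d) : 0 < (rt d).im := by
  unfold rt
  simp only [Complex.mul_im, Complex.ofReal_re, Complex.I_im, Complex.ofReal_im, Complex.I_re,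
    mul_one, mul_zero, add_zero]
  exact Real.sqrt_pos.2 (by exact_mod_cast hd)

/-- B8a. With `τ = √(-d)` and `M = (0 -d; 1 0)`, `Mτ = τ`: `FM 1 d M τ = -d³ e6(τ)`; it is `Gr 1 τ ρ` for some `ρ ∈ TT d`
(`exists_rep`, `FM_left`, `FM_mat`). -/
theorem e6_mem (d : ℕ) (hd : 0 < d) : ∃ ρ ∈ TT d, Gr 1 (rt d) ρ = -(d : ℂ) ^ 3 * e6 (rt d) := by
  have him := B8a_rt_im d hd
  have hne : rt d ≠ 0 := by
    intro h0
    rw [h0] at him
    simp at him
  have hsq := B8a_rt_sq d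
  have hM : (!![0, -(d : ℤ); 1, 0] : Matrix (Fin 2) (Fin 2) ℤ).det = (d : ℤ) := by
    rw [Matrix.det_fin_two]
    simp
  obtain ⟨γ, hγ, ρ, hρ, hMγ⟩ := exists_rep d hd _ hM
  refine ⟨ρ, hρ, ?_⟩
  rw [← FM_mat 1 d hd ρ hρ (rt d) him, ← FM_left 1 d hd γ (mat ρ) hγ (det_mat d ρ hρ) (rt d) him,
    ← hMγ]
  have h1 : (-(d : ℂ)) / rt d = rt d := by
    rw [div_eq_iff hne, hsq]
  have h2 : (d : ℂ) / rt d = - rt d := by
    rw [div_eq_iff hne]
    linear_combination hsq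
  have h3 : FM 1 d !![0, -(d : ℤ); 1, 0] (rt d) =
      ((d : ℂ) / rt d) ^ 6 * e6 ((-(d : ℂ)) / rt d) := by
    unfold FM
    simp
  rw [h3, h1, h2]
  have h4 : (-rt d) ^ 6 = (rt d * rt d) ^ 3 := by ring
  rw [h4, hsq]
  ring

/-- B8b. The isobaric relation. PROOF. `Ξ` from `prod_isobaric` (`F ρ = Gr 1 · ρ`, `P = -d³ X₁`, `w = 6`): `Π_ρ (-d³ e6 z - Gr 1 z ρ) = Ξ(vals z)`;
it vanishes at `√(-d)` and tends to `Π_ρ (-d³ - a⁶) ≠ 0` as `z = iy → i∞`. -/
theorem cm_relation (d : ℕ) (hd : 0 < d) : ∃ (W : ℕ) (Ξ : MvPolynomial (Fin 3) ℚ),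
    MvPolynomial.IsWeightedHomogeneous wts Ξ W ∧ MvPolynomial.aeval (vals (rt d)) Ξ = 0 ∧
      ∃ z : ℂ, 0 < z.im ∧ MvPolynomial.aeval (vals z) Ξ ≠ 0 := by
  have him := B8a_rt_im d hd
  have hP : MvPolynomial.IsWeightedHomogeneous wts
      (MvPolynomial.C (-(d : ℚ) ^ 3) * MvPolynomial.X 1 : MvPolynomial (Fin 3) ℚ) 6 := by
    have h1 := (MvPolynomial.isWeightedHomogeneous_C (R := ℚ) wts (-(d : ℚ) ^ 3)).mul
      (MvPolynomial.isWeightedHomogeneous_X ℚ wts 1)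
    simpa [wts] using h1
  have hPv : ∀ z, MvPolynomial.aeval (vals z)
      (MvPolynomial.C (-(d : ℚ) ^ 3) * MvPolynomial.X 1 : MvPolynomial (Fin 3) ℚ) =
        -(d : ℂ) ^ 3 * e6 z := by
    intro z
    simp [vals]
  obtain ⟨Ξ, hΞ, hΞv⟩ := prod_isobaric (TT d) 6 (fun ρ z => Gr 1 z ρ) (by
    intro m _
    obtain ⟨Θ, hΘ, hΘv⟩ := theta 1 d m hd
    exact ⟨Θ, hΘ, hΘv⟩) _ hP
  refine ⟨6 * (TT d).card, Ξ, hΞ, ?_, ?_⟩
  · rw [← hΞv _ him]
    obtain ⟨ρ, hρ, hρv⟩ := e6_mem d hd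
    apply Finset.prod_eq_zero hρ
    rw [hPv, hρv, sub_self]
  · obtain ⟨c, hc, hc0⟩ := e6_q
    have hlim : Tendsto (fun y : ℝ => ∏ ρ ∈ TT d, (MvPolynomial.aeval (vals (I * y))
        (MvPolynomial.C (-(d : ℚ) ^ 3) * MvPolynomial.X 1 : MvPolynomial (Fin 3) ℚ) -
          Gr 1 (I * y) ρ)) atTop
        (𝓝 (∏ ρ ∈ TT d, (-(d : ℂ) ^ 3 * 1 - (ρ.1.1 : ℂ) ^ 6 * 1))) := by
      apply tendsto_finsetProd
      intro ρ hρ
      have hρ' := Finset.mem_sigma.1 hρ
      have hprod : ρ.1.1 * ρ.1.2 = d := (Nat.mem_divisorsAntidiagonal.1 hρ'.1).1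
      have ha : 0 < ρ.1.1 := by
        rcases Nat.eq_zero_or_pos ρ.1.1 with h0 | h0
        · rw [h0, zero_mul] at hprod
          omega
        · exact h0
      have hδ : 0 < ρ.1.2 := by
        rcases Nat.eq_zero_or_pos ρ.1.2 with h0 | h0
        · rw [h0, mul_zero] at hprod
          omega
        · exact h0
      have t1 : Tendsto (fun y : ℝ => e6 (I * y)) atTop (𝓝 (1 : ℂ)) := by
        have := B8a_tendsto hc (u := fun y : ℝ => I * y) (by
          have h6 : (fun y : ℝ => (I * (y : ℂ)).im) = fun y : ℝ => y := by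
            funext y
            simp
          rw [h6]
          exact tendsto_id)
        rw [hc0] at this
        simpa using this
      have t2 : Tendsto (fun y : ℝ => e6 (((ρ.1.1 : ℂ) * (I * y) + (ρ.2 : ℂ)) / (ρ.1.2 : ℂ)))
          atTop (𝓝 (1 : ℂ)) := by
        have hu : Tendsto (fun y : ℝ => (((ρ.1.1 : ℂ) * (I * y) + (ρ.2 : ℂ)) / (ρ.1.2 : ℂ)).im)
            atTop atTop := by
          have h5 : (fun y : ℝ => (((ρ.1.1 : ℂ) * (I * y) + (ρ.2 : ℂ)) / (ρ.1.2 : ℂ)).im) =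
              fun y : ℝ => ((ρ.1.1 : ℝ) / (ρ.1.2 : ℝ)) * y := by
            funext y
            rw [Complex.div_natCast_im]
            simp [Complex.mul_im]
            ring
          rw [h5]
          exact tendsto_id.const_mul_atTop (by positivity)
        have := B8a_tendsto hc hu
        rw [hc0] at this
        simpa using this
      refine Tendsto.sub ?_ ?_
      · have := t1.const_mul (-(d : ℂ) ^ 3)
        refine this.congr fun y => ?_
        rw [hPv]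
      · have := t2.const_mul ((ρ.1.1 : ℂ) ^ 6)
        refine this.congr fun y => ?_
        unfold Gr GG
        simp
    have hne : (∏ ρ ∈ TT d, (-(d : ℂ) ^ 3 * 1 - (ρ.1.1 : ℂ) ^ 6 * 1)) ≠ 0 := by
      rw [Finset.prod_ne_zero_iff]
      intro ρ _ h0
      have h1 : ((d ^ 3 + ρ.1.1 ^ 6 : ℕ) : ℂ) = 0 := by
        push_cast
        linear_combination -h0
      have h2 : d ^ 3 + ρ.1.1 ^ 6 = 0 := by exact_mod_cast h1
      have h3 : 0 < d ^ 3 := pow_pos hd 3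
      omega
    have hev := (hlim.eventually_ne hne).and (eventually_gt_atTop (0 : ℝ))
    obtain ⟨y, hy, hy0⟩ := hev.exists
    refine ⟨I * y, by simpa using hy0, ?_⟩
    rw [← hΞv (I * y) (by simpa using hy0)]
    exact hy

end Pool.Agent.MSD
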