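import Pool.Agent.Lib.MP_f58a57_nt.B5_Field
import Pool.Agent.Lib.MP_f58a57_nt.B6_Theta
import Pool.Agent.Lib.MP_f58a57_nt.B2_FM
import Pool.Agent.Lib.MP_f58a57_nt.B1_Perm

/-! # B8d: the weight 2 value at a CM point (MP_f58a57_nt) -/

open Complex ModularForm EisensteinSeries Filter
open UpperHalfPlane hiding I
open scoped Topology MatrixGroups

noncomputable section

namespace Pool.Agent.MSD

theorem b8d_int_aeval (f : Fin 3 → ℂ) (hf : ∀ i, IsIntegral ℤ (f i)) (Θ : MvPolynomial (Fin 3) ℤ) :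
    IsIntegral ℤ (MvPolynomial.aeval f Θ) := by
  induction Θ using MvPolynomial.induction_on with
  | C a =>
    rw [MvPolynomial.aeval_C]
    exact isIntegral_algebraMap
  | add p q hp hq =>
    rw [map_add]
    exact hp.add hq
  | mul_X p i hp =>
    rw [map_mul, MvPolynomial.aeval_X]
    exact hp.mul (hf i)

theorem b8d_rt_im (d : ℕ) (hd : 0 < d) : 0 < (rt d).im := by
  have hsd : 0 < Real.sqrt d := Real.sqrt_pos.2 (by exact_mod_cast hd)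
  unfold rt
  simpa using hsd

theorem b8d_rt_sq (d : ℕ) : rt d ^ 2 = -(d : ℂ) := by
  unfold rt
  rw [mul_pow, I_sq, ← ofReal_pow, Real.sq_sqrt (Nat.cast_nonneg d)]
  push_cast
  ring

/-- the member of the weight 2 family given by the matrix `(0 -d; 1 0)` -/
theorem b8d_mem (d : ℕ) (hd : 0 < d) : ∃ ρ ∈ TT d, Gr 2 (rt d) ρ = -2 * (d : ℂ) * e2s (rt d) := by
  have him := b8d_rt_im d hd
  have hsq := b8d_rt_sq d
  have hd0 : (d : ℂ) ≠ 0 := Nat.cast_ne_zero.2 hd.ne'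
  have ht0 : rt d ≠ 0 := fun h => by
    rw [h] at him
    simp at him
  obtain ⟨M, hMdef⟩ : ∃ M : Matrix (Fin 2) (Fin 2) ℤ, M = !![0, -(d : ℤ); 1, 0] := ⟨_, rfl⟩
  have hM : M.det = (d : ℤ) := by
    rw [hMdef, Matrix.det_fin_two_of]
    ring
  obtain ⟨γ, hγ, ρ, hρ, hMρ⟩ := exists_rep d hd M hM
  refine ⟨ρ, hρ, ?_⟩
  have h1 : FM 2 d M (rt d) = Gr 2 (rt d) ρ := by
    rw [hMρ, FM_left 2 d hd γ (mat ρ) hγ (det_mat d ρ hρ) (rt d) him, FM_mat 2 d hd ρ hρ (rt d) him]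
  rw [← h1, FM_two d hd M hM (rt d) him, hMdef]
  have h2 : (((0 : ℤ) : ℂ) * rt d + ((-(d : ℤ) : ℤ) : ℂ)) / (((1 : ℤ) : ℂ) * rt d + ((0 : ℤ) : ℂ)) = rt d := by
    push_cast
    rw [zero_mul, zero_add, one_mul, add_zero, div_eq_iff ht0, ← sq, hsq]
  have h3 : ((d : ℂ) / (((1 : ℤ) : ℂ) * rt d + ((0 : ℤ) : ℂ))) ^ 2 = -(d : ℂ) := by
    push_cast
    rw [one_mul, add_zero, div_pow, hsq]
    field_simp
  show ((d : ℂ) / (((1 : ℤ) : ℂ) * rt d + ((0 : ℤ) : ℂ))) ^ 2 *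
    e2s ((((0 : ℤ) : ℂ) * rt d + ((-(d : ℤ) : ℤ) : ℂ)) / (((1 : ℤ) : ℂ) * rt d + ((0 : ℤ) : ℂ))) - d * e2s (rt d) = _
  rw [h2, h3]
  ring

/-- B8d. PROOF. `M = (0 -d; 1 0)`: `FM 2 d M τ = d² τ⁻² e2s τ - d e2s τ = -2d e2s τ` (B2d), a member of the family, so algebraic after
normalisation (`theta_norm` and B5c: root of a polynomial with coefficients in an algebraic extension). -/
theorem cm_e2 (d : ℕ) (hd : 0 < d) (Ω : ℂ) (h : CMBase (rt d) Ω) : IsAlgebraic ℚ (e2s (rt d) / Ω ^ 2) := by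
  have him := b8d_rt_im d hd
  have hd0 : (d : ℂ) ≠ 0 := Nat.cast_ne_zero.2 hd.ne'
  obtain ⟨ρ, hρ, hG⟩ := b8d_mem d hd
  have h1 : ∀ k : ℕ, 0 < k → IsIntegral ℤ (∑ ρ ∈ TT d, (Gr 2 (rt d) ρ / Ω ^ kwt 2) ^ k) := by
    intro k _
    obtain ⟨Θ, hΘ⟩ := theta_norm 2 d k hd
    rw [hΘ (rt d) Ω him h.ne]
    refine b8d_int_aeval _ (fun i => ?_) Θ
    fin_cases i
    · exact h.i4
    · exact h.i6
    · exact h.idl
  have h2 := integral_of_psum (TT d) (fun ρ => Gr 2 (rt d) ρ / Ω ^ kwt 2) h1 ρ hρ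
  have h3 : IsAlgebraic ℚ ((((TT d).card).factorial : ℂ) * (Gr 2 (rt d) ρ / Ω ^ kwt 2)) := by
    have h4 : IsAlgebraic ℤ ((((TT d).card).factorial : ℂ) * (Gr 2 (rt d) ρ / Ω ^ kwt 2)) := h2.isAlgebraic
    exact h4.extendScalars (Int.cast_injective)
  have hf0 : (((TT d).card).factorial : ℂ) ≠ 0 := Nat.cast_ne_zero.2 (Nat.factorial_ne_zero _)
  have h5 : e2s (rt d) / Ω ^ 2 = ((((TT d).card).factorial : ℂ) * (Gr 2 (rt d) ρ / Ω ^ kwt 2)) *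
      algebraMap ℚ ℂ ((-2 * (d : ℚ) * (((TT d).card).factorial : ℚ))⁻¹) := by
    rw [hG]
    have hΩ0 := h.ne
    show _ = ((((TT d).card).factorial : ℂ) * (-2 * (d : ℂ) * e2s (rt d) / Ω ^ 2)) *
      (((-2 * (d : ℚ) * (((TT d).card).factorial : ℚ))⁻¹ : ℚ) : ℂ)
    push_cast
    field_simp
  rw [h5]
  exact h3.mul (isAlgebraic_algebraMap _)

end Pool.Agent.MSD
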