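import Pool.Agent.Lib.MP_f58a57_nt.Defs

/-! # C1a: sums and products of controlled algebraic numbers (MP_f58a57_nt) -/

open Complex ModularForm EisensteinSeries Filter
open UpperHalfPlane hiding I
open scoped Topology MatrixGroups

noncomputable section

namespace Pool.Agent.MSD

open IntermediateField in
/-- degree of an element of `ℚ(α, β)` -/
theorem C1a_deg {α β γ : ℂ} (h : IsAlgebraic ℚ α) (h' : IsAlgebraic ℚ β)
    (hγ : γ ∈ ℚ⟮α⟯ ⊔ ℚ⟮β⟯) :
    (minpoly ℚ γ).natDegree ≤ (minpoly ℚ α).natDegree * (minpoly ℚ β).natDegree := by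
  have i1 : IsIntegral ℚ α := h.isIntegral
  have i2 : IsIntegral ℚ β := h'.isIntegral
  have f1 : FiniteDimensional ℚ ℚ⟮α⟯ := adjoin.finiteDimensional i1
  have f2 : FiniteDimensional ℚ ℚ⟮β⟯ := adjoin.finiteDimensional i2
  have f3 : FiniteDimensional ℚ ↥(ℚ⟮α⟯ ⊔ ℚ⟮β⟯) := IntermediateField.finiteDimensional_sup _ _
  have i3 : IsIntegral ℚ γ := by
    have : IsIntegral ℚ (⟨γ, hγ⟩ : ↥(ℚ⟮α⟯ ⊔ ℚ⟮β⟯)) := Algebra.IsIntegral.isIntegral _
    exact this.map (ℚ⟮α⟯ ⊔ ℚ⟮β⟯).val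
  have hle : ℚ⟮γ⟯ ≤ ℚ⟮α⟯ ⊔ ℚ⟮β⟯ := by
    rw [adjoin_simple_le_iff]
    exact hγ
  rw [← adjoin.finrank i1, ← adjoin.finrank i2, ← adjoin.finrank i3]
  exact (IntermediateField.finrank_le_of_le_right hle).trans (finrank_sup_le _ _)

/-- conjugates of polynomial expressions -/
theorem C1a_conj {α β γ : ℂ} (h : IsAlgebraic ℚ α) (h' : IsAlgebraic ℚ β)
    (op : ∀ (K : Type) [Field K], K → K → K)
    (hop : ∀ (K : Type) [Field K] (K' : Type) [Field K'] (f : K →+* K') (x y : K),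
      f (op K x y) = op K' (f x) (f y)) (hγ : γ = op ℂ α β) {r : ℂ}
    (hr : r ∈ (minpoly ℚ γ).aroots ℂ) :
    ∃ s ∈ (minpoly ℚ α).aroots ℂ, ∃ t ∈ (minpoly ℚ β).aroots ℂ, r = op ℂ s t := by
  set K := algebraicClosure ℚ ℂ with hK
  have halg : Algebra.IsAlgebraic ℚ K := algebraicClosure.isAlgebraic ℚ ℂ
  have ma : α ∈ K := mem_algebraicClosure_iff.2 h
  have mb : β ∈ K := mem_algebraicClosure_iff.2 h'
  let a : K := ⟨α, ma⟩
  let b : K := ⟨β, mb⟩
  let c : K := op K a b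
  have hc : (algebraMap K ℂ) c = γ := by
    rw [hγ]
    exact hop K ℂ (algebraMap K ℂ) a b
  have m1 : minpoly ℚ α = minpoly ℚ a := by
    have := minpoly.algebraMap_eq (A := ℚ) (B := K) (B' := ℂ) (algebraMap K ℂ).injective a
    exact this
  have m2 : minpoly ℚ β = minpoly ℚ b := by
    have := minpoly.algebraMap_eq (A := ℚ) (B := K) (B' := ℂ) (algebraMap K ℂ).injective b
    exact this
  have m3 : minpoly ℚ γ = minpoly ℚ c := by
    have := minpoly.algebraMap_eq (A := ℚ) (B := K) (B' := ℂ) (algebraMap K ℂ).injective c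
    rw [← this, hc]
  have hroot : ∀ (x : K) (ψ : K →ₐ[ℚ] ℂ), ψ x ∈ (minpoly ℚ x).aroots ℂ := by
    intro x ψ
    have h1 : ψ x ∈ (minpoly ℚ x).rootSet ℂ := by
      rw [← Algebra.IsAlgebraic.range_eval_eq_rootSet_minpoly (F := ℚ) ℂ x]
      exact ⟨ψ, rfl⟩
    exact Polynomial.mem_rootSet'.1 h1 |> fun h2 => (Polynomial.mem_aroots'.2 h2)
  have hr' : r ∈ (minpoly ℚ c).rootSet ℂ := by
    rw [m3] at hr
    exact Polynomial.mem_rootSet'.2 (Polynomial.mem_aroots'.1 hr)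
  rw [← Algebra.IsAlgebraic.range_eval_eq_rootSet_minpoly (F := ℚ) ℂ c] at hr'
  obtain ⟨ψ, hψ⟩ := hr'
  refine ⟨ψ a, ?_, ψ b, ?_, ?_⟩
  · rw [m1]; exact hroot a ψ
  · rw [m2]; exact hroot b ψ
  · have := hop K ℂ (ψ : K →+* ℂ) a b
    rw [← hψ]
    exact this

/-- C1a. PROOF. Minimal polynomial of `α + β`: its roots are sums of roots (every root `r` of `minpoly ℚ (α+β)` is `σ(α+β) = σα + σβ` for
an embedding `σ` of `ℚ(α,β)`), the degree is at most `[ℚ(α,β):ℚ] ≤ m m'`. -/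
theorem Ctrl.add {m m' D D' : ℕ} {S S' : ℝ} {α β : ℂ} (h : Ctrl m D S α) (h' : Ctrl m' D' S' β) :
    Ctrl (m * m') (D * D') (S + S') (α + β) := by
  refine ⟨h.alg.add h'.alg, ?_, ?_, ?_⟩
  · have e : (((D * D' : ℕ) : ℂ)) * (α + β) = (D' : ℂ) * ((D : ℂ) * α) + (D : ℂ) * ((D' : ℂ) * β) := by
      push_cast; ring
    rw [e]
    have j1 : IsIntegral ℤ ((D' : ℂ)) := by
      have := (isIntegral_algebraMap (R := ℤ) (A := ℂ) (x := (D' : ℤ)))
      simpa using this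
    have j2 : IsIntegral ℤ ((D : ℂ)) := by
      have := (isIntegral_algebraMap (R := ℤ) (A := ℂ) (x := (D : ℤ)))
      simpa using this
    exact (j1.mul h.int).add (j2.mul h'.int)
  · refine (C1a_deg h.alg h'.alg ?_).trans (Nat.mul_le_mul h.deg h'.deg)
    exact add_mem (SetLike.le_def.1 le_sup_left (IntermediateField.mem_adjoin_simple_self ℚ α))
      (SetLike.le_def.1 le_sup_right (IntermediateField.mem_adjoin_simple_self ℚ β))
  · intro r hr
    obtain ⟨s, hs, t, ht, e⟩ := C1a_conj h.alg h'.alg (fun K _ x y => x + y)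
      (fun K _ K' _ f x y => map_add f x y) rfl hr
    rw [e]
    exact (norm_add_le _ _).trans (add_le_add (h.conj s hs) (h'.conj t ht))

theorem Ctrl.mul {m m' D D' : ℕ} {S S' : ℝ} {α β : ℂ} (h : Ctrl m D S α) (h' : Ctrl m' D' S' β) :
    Ctrl (m * m') (D * D') (S * S') (α * β) := by
  refine ⟨h.alg.mul h'.alg, ?_, ?_, ?_⟩
  · have e : (((D * D' : ℕ) : ℂ)) * (α * β) = ((D : ℂ) * α) * ((D' : ℂ) * β) := by
      push_cast; ring
    rw [e]
    exact h.int.mul h'.int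
  · refine (C1a_deg h.alg h'.alg ?_).trans (Nat.mul_le_mul h.deg h'.deg)
    exact mul_mem (SetLike.le_def.1 le_sup_left (IntermediateField.mem_adjoin_simple_self ℚ α))
      (SetLike.le_def.1 le_sup_right (IntermediateField.mem_adjoin_simple_self ℚ β))
  · intro r hr
    obtain ⟨s, hs, t, ht, e⟩ := C1a_conj h.alg h'.alg (fun K _ x y => x * y)
      (fun K _ K' _ f x y => map_mul f x y) rfl hr
    rw [e, norm_mul]
    exact mul_le_mul (h.conj s hs) (h'.conj t ht) (norm_nonneg _)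
      ((norm_nonneg _).trans (h.conj s hs))

end Pool.Agent.MSD
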