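import Pool.Agent.Lib.MP_f58a57_nt.Defs

/-! # C1c: Liouville inequality (MP_f58a57_nt) -/

open Complex ModularForm EisensteinSeries Filter
open UpperHalfPlane hiding I
open scoped Topology MatrixGroups

noncomputable section

namespace Pool.Agent.MSD

/-- a product of numbers, one of them `a`, the others of size at most `T ≥ 1` -/
theorem C1c_prod_le {T : ℝ} (hT : 1 ≤ T) (s : Multiset ℂ) (a : ℂ) (ha : a ∈ s)
    (h : ∀ r ∈ s, ‖r‖ ≤ T) : ‖s.prod‖ ≤ ‖a‖ * T ^ (Multiset.card s) := by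
  obtain ⟨t, rfl⟩ := Multiset.exists_cons_of_mem ha
  have h1 : ∀ t : Multiset ℂ, (∀ r ∈ t, ‖r‖ ≤ T) → ‖t.prod‖ ≤ T ^ (Multiset.card t) := by
    intro t
    induction t using Multiset.induction_on with
    | empty => intro _; simp
    | cons b t ih =>
      intro hb
      rw [Multiset.prod_cons, norm_mul, Multiset.card_cons, pow_succ, mul_comm]
      exact mul_le_mul (ih fun r hr => hb r (Multiset.mem_cons_of_mem hr))
        (hb b (Multiset.mem_cons_self b t)) (norm_nonneg _) (by positivity)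
  rw [Multiset.prod_cons, norm_mul, Multiset.card_cons]
  refine mul_le_mul_of_nonneg_left ?_ (norm_nonneg a)
  refine (h1 t fun r hr => h r (Multiset.mem_cons_of_mem hr)).trans ?_
  exact pow_le_pow_right₀ hT (Nat.le_succ _)

/-- C1b. Liouville. PROOF. The norm of `D α` is a nonzero integer: the constant coefficient of the minimal polynomial of `Dα`
(which is in `ℤ[X]`, `minpoly.isIntegrallyClosed_eq_field_fractions'`) is the product of its roots, `Dr` with `r` the conjugates of `α`. -/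
theorem Ctrl.lower {m D : ℕ} {S : ℝ} {α : ℂ} (h : Ctrl m D S α) (hD : 0 < D) (h0 : α ≠ 0) :
    1 ≤ ‖α‖ * (D : ℝ) ^ m * (max 1 S) ^ m := by
  have hαint : IsIntegral ℚ α := h.alg.isIntegral
  set q := minpoly ℚ α with hq
  set n := q.natDegree with hn
  have hDα : (D : ℂ) * α = (D : ℚ) • α := by
    rw [Algebra.smul_def]
    simp
  have hint : IsIntegral ℤ ((D : ℂ) * α) := h.int
  have h1 : minpoly ℚ ((D : ℂ) * α) = q.scaleRoots (D : ℚ) := by
    rw [hDα]
    exact IsIntegrallyClosed.minpoly_smul (by exact_mod_cast hD.ne') hαint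
  have h2 : minpoly ℚ ((D : ℂ) * α) = (minpoly ℤ ((D : ℂ) * α)).map (algebraMap ℤ ℚ) :=
    minpoly.isIntegrallyClosed_eq_field_fractions' ℚ hint
  have h3 : (((minpoly ℤ ((D : ℂ) * α)).coeff 0 : ℤ) : ℚ) = q.coeff 0 * (D : ℚ) ^ n := by
    have := congrArg (fun p => Polynomial.coeff p 0) (h2.symm.trans h1)
    simpa [Polynomial.coeff_map, Polynomial.coeff_scaleRoots] using this
  have h4 : q.coeff 0 ≠ 0 := minpoly.coeff_zero_ne_zero hαint h0
  have h5 : ((minpoly ℤ ((D : ℂ) * α)).coeff 0 : ℤ) ≠ 0 := by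
    intro h6
    rw [h6] at h3
    have : q.coeff 0 * (D : ℚ) ^ n ≠ 0 := mul_ne_zero h4 (pow_ne_zero _ (by exact_mod_cast hD.ne'))
    exact this (by rw [← h3]; simp)
  have h6 : (1 : ℝ) ≤ |((q.coeff 0 : ℚ) : ℝ)| * (D : ℝ) ^ n := by
    have h7 : (1 : ℝ) ≤ |(((minpoly ℤ ((D : ℂ) * α)).coeff 0 : ℤ) : ℝ)| := by
      rw [← Int.cast_abs]
      exact_mod_cast Int.one_le_abs h5
    have h8 : ((((minpoly ℤ ((D : ℂ) * α)).coeff 0 : ℤ)) : ℝ) = ((q.coeff 0 : ℚ) : ℝ) * (D : ℝ) ^ n := by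
      exact_mod_cast congrArg (fun x : ℚ => (x : ℝ)) h3
    rw [h8, abs_mul, abs_of_nonneg (by positivity : (0 : ℝ) ≤ (D : ℝ) ^ n)] at h7
    exact h7
  have hmonic : (q.map (algebraMap ℚ ℂ)).Monic := (minpoly.monic hαint).map _
  have hsplit : (q.map (algebraMap ℚ ℂ)).Splits := IsAlgClosed.splits _
  have h9 := hsplit.coeff_zero_eq_prod_roots_of_monic hmonic
  have hdeg : (q.map (algebraMap ℚ ℂ)).natDegree = n := Polynomial.natDegree_map _
  have hcard : Multiset.card (q.aroots ℂ) = n := by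
    rw [Polynomial.aroots_def, ← hsplit.natDegree_eq_card_roots, hdeg]
  have h10 : |((q.coeff 0 : ℚ) : ℝ)| = ‖(q.aroots ℂ).prod‖ := by
    have h11 : (((q.coeff 0 : ℚ) : ℂ)) = (q.map (algebraMap ℚ ℂ)).coeff 0 := by
      rw [Polynomial.coeff_map]
      rfl
    have h12 : ‖((q.coeff 0 : ℚ) : ℂ)‖ = |((q.coeff 0 : ℚ) : ℝ)| := by
      rw [show ((q.coeff 0 : ℚ) : ℂ) = (((q.coeff 0 : ℚ) : ℝ) : ℂ) by push_cast; rfl,
        Complex.norm_real, Real.norm_eq_abs]
    rw [← h12, h11, h9, norm_mul, norm_pow, norm_neg, norm_one, one_pow, one_mul,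
      Polynomial.aroots_def]
  have hmem : α ∈ q.aroots ℂ := by
    rw [Polynomial.mem_aroots]
    exact ⟨minpoly.ne_zero hαint, minpoly.aeval ℚ α⟩
  have hT : (1 : ℝ) ≤ max 1 S := le_max_left _ _
  have h13 := C1c_prod_le hT (q.aroots ℂ) α hmem fun r hr => (h.conj r hr).trans (le_max_right _ _)
  rw [hcard, ← h10] at h13
  have hnm : n ≤ m := h.deg
  have hD1 : (1 : ℝ) ≤ (D : ℝ) := by exact_mod_cast hD
  calc (1 : ℝ) ≤ |((q.coeff 0 : ℚ) : ℝ)| * (D : ℝ) ^ n := h6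
    _ ≤ (‖α‖ * (max 1 S) ^ n) * (D : ℝ) ^ n := mul_le_mul_of_nonneg_right h13 (by positivity)
    _ = ‖α‖ * (D : ℝ) ^ n * (max 1 S) ^ n := by ring
    _ ≤ ‖α‖ * (D : ℝ) ^ m * (max 1 S) ^ m := by
      refine mul_le_mul (mul_le_mul_of_nonneg_left (pow_le_pow_right₀ hD1 hnm) (norm_nonneg _))
        (pow_le_pow_right₀ hT hnm) (by positivity) (by positivity)

end Pool.Agent.MSD
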