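import Pool.Agent.Lib.MP_f58a57_nt.Defs

/-! # C1b: controlled algebraic numbers, simple facts (MP_f58a57_nt) -/

open Complex ModularForm EisensteinSeries Filter
open UpperHalfPlane hiding I
open scoped Topology MatrixGroups

noncomputable section

namespace Pool.Agent.MSD

theorem C1m_nat_int (n : ℕ) : IsIntegral ℤ (n : ℂ) := by
  have := isIntegral_algebraMap (R := ℤ) (A := ℂ) (x := (n : ℤ))
  simpa using this

theorem Ctrl.mono {m m' D D' : ℕ} {S S' : ℝ} {α : ℂ} (h : Ctrl m D S α) (hm : m ≤ m') (hD : D ∣ D') (hS : S ≤ S') :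
    Ctrl m' D' S' α := by
  refine ⟨h.alg, ?_, h.deg.trans hm, fun r hr => (h.conj r hr).trans hS⟩
  obtain ⟨k, rfl⟩ := hD
  have : (((D * k : ℕ)) : ℂ) * α = (k : ℂ) * ((D : ℂ) * α) := by
    push_cast
    ring
  rw [this]
  exact (C1m_nat_int k).mul h.int

theorem ctrl_of_algebraic (α : ℂ) (h : IsAlgebraic ℚ α) : ∃ (m D : ℕ) (S : ℝ), 0 < D ∧ Ctrl m D S α := by
  have hz : IsAlgebraic ℤ α := (IsFractionRing.isAlgebraic_iff ℤ ℚ ℂ).2 h
  obtain ⟨y, hy, hint⟩ := hz.exists_integral_multiple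
  refine ⟨(minpoly ℚ α).natDegree, y.natAbs, (((minpoly ℚ α).aroots ℂ).map (fun r => ‖r‖)).sum,
    Int.natAbs_pos.2 hy, h, ?_, le_rfl, ?_⟩
  · have h1 : ((y.natAbs : ℕ) : ℂ) = ((y.natAbs : ℤ) : ℂ) := (Int.cast_natCast _).symm
    rcases Int.natAbs_eq y with h2 | h2
    · have h3 : ((y.natAbs : ℕ) : ℂ) * α = y • α := by
        rw [h1, ← h2, zsmul_eq_mul]
      rw [h3]
      exact hint
    · have h3 : ((y.natAbs : ℕ) : ℂ) * α = - (y • α) := by
        rw [h1, zsmul_eq_mul]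
        conv_rhs => rw [h2]
        push_cast
        ring
      rw [h3]
      exact hint.neg
  · intro r hr
    apply Multiset.single_le_sum (s := ((minpoly ℚ α).aroots ℂ).map (fun r => ‖r‖))
    · intro x hx
      rw [Multiset.mem_map] at hx
      obtain ⟨z, -, rfl⟩ := hx
      exact norm_nonneg z
    · exact Multiset.mem_map_of_mem _ hr

theorem ctrl_rat (r : ℚ) : Ctrl 1 r.den |(r : ℝ)| (r : ℂ) := by
  have hmin : minpoly ℚ (r : ℂ) = Polynomial.X - Polynomial.C r := minpoly.eq_X_sub_C ℂ r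
  refine ⟨isAlgebraic_algebraMap (R := ℚ) (A := ℂ) r, ?_, ?_, ?_⟩
  · have h1 : ((r.den : ℕ) : ℂ) * (r : ℂ) = ((r.num : ℤ) : ℂ) := by
      have h2 : ((r.den : ℕ) : ℚ) * r = ((r.num : ℤ) : ℚ) := Rat.den_mul_eq_num r
      exact_mod_cast congrArg (fun q : ℚ => (q : ℂ)) h2
    rw [h1]
    exact isIntegral_algebraMap (R := ℤ) (A := ℂ) (x := r.num)
  · rw [hmin, Polynomial.natDegree_X_sub_C]
  · intro z hz
    rw [hmin, Polynomial.aroots_X_sub_C, Multiset.mem_singleton] at hz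
    rw [hz]
    have : (algebraMap ℚ ℂ r) = ((r : ℝ) : ℂ) := by simp
    rw [this, Complex.norm_real, Real.norm_eq_abs]

end Pool.Agent.MSD
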