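import Pool.Agent.Lib.MP_f58a57_nt.C1_Add
import Pool.Agent.Lib.MP_f58a57_nt.C1_Misc
import Pool.Agent.Lib.MP_f58a57_nt.C1_Lower

/-! # C2: families with polynomially bounded degree and logarithmic height (MP_f58a57_nt) -/

open Complex ModularForm EisensteinSeries Filter
open UpperHalfPlane hiding I
open scoped Topology MatrixGroups

noncomputable section

namespace Pool.Agent.MSD

variable {X : Type*} {B : X → ℕ}

theorem C2_S_nonneg {m D : ℕ} {S : ℝ} {α : ℂ} (h : Ctrl m D S α) : 0 ≤ S := by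
  have hroot : α ∈ (minpoly ℚ α).aroots ℂ := by
    rw [Polynomial.mem_aroots]
    exact ⟨minpoly.ne_zero h.alg.isIntegral, minpoly.aeval ℚ α⟩
  exact (norm_nonneg _).trans (h.conj α hroot)

theorem C2_pow_mono {b : ℝ} (hb : 2 ≤ b) {C C' : ℕ} (h : C ≤ C') : b ^ C ≤ b ^ C' :=
  pow_le_pow_right₀ (by linarith) h

theorem C2_two_mul {b : ℝ} (hb : 2 ≤ b) (C : ℕ) : 2 * b ^ C ≤ b ^ (C + 1) := by
  rw [pow_succ, mul_comm]
  exact mul_le_mul_of_nonneg_left hb (by positivity)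

theorem C2_one_le {b : ℝ} (hb : 2 ≤ b) (C : ℕ) : 1 ≤ b ^ C := one_le_pow₀ (by linarith)

theorem PC.add (hB : ∀ x, 2 ≤ B x) {α β : X → ℂ} (h : PC B α) (h' : PC B β) : PC B (fun x => α x + β x) := by
  obtain ⟨C, hC⟩ := h
  obtain ⟨C', hC'⟩ := h'
  refine ⟨C + C' + 1, fun x => ?_⟩
  obtain ⟨m, D, S, h1, h2, h3, h4, h5⟩ := hC x
  obtain ⟨m', D', S', h1', h2', h3', h4', h5'⟩ := hC' x
  have hb : (2 : ℝ) ≤ B x := by exact_mod_cast hB x
  have a1 := C2_pow_mono hb (show C ≤ C + C' by omega)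
  have a2 := C2_pow_mono hb (show C' ≤ C + C' by omega)
  have a3 := C2_two_mul hb (C + C')
  have a4 := C2_one_le hb (C + C')
  refine ⟨m * m', D * D', S + S', h1.add h1', Nat.mul_pos h2 h2', ?_, ?_, ?_⟩
  · push_cast
    calc (m : ℝ) * m' ≤ (B x : ℝ) ^ C * (B x : ℝ) ^ C' :=
          mul_le_mul h3 h3' (Nat.cast_nonneg _) (by positivity)
      _ = (B x : ℝ) ^ (C + C') := (pow_add _ _ _).symm
      _ ≤ _ := C2_pow_mono hb (by omega)
  · push_cast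
    calc (D : ℝ) * D' ≤ Real.exp ((B x : ℝ) ^ C) * Real.exp ((B x : ℝ) ^ C') :=
          mul_le_mul h4 h4' (Nat.cast_nonneg _) (Real.exp_nonneg _)
      _ = Real.exp ((B x : ℝ) ^ C + (B x : ℝ) ^ C') := (Real.exp_add _ _).symm
      _ ≤ _ := Real.exp_le_exp.2 (by linarith)
  · have e1 : S ≤ Real.exp ((B x : ℝ) ^ (C + C')) := h5.trans (Real.exp_le_exp.2 a1)
    have e2 : S' ≤ Real.exp ((B x : ℝ) ^ (C + C')) := h5'.trans (Real.exp_le_exp.2 a2)
    have e3 : (2 : ℝ) ≤ Real.exp 1 := by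
      have := Real.add_one_le_exp (1 : ℝ)
      linarith
    calc S + S' ≤ 2 * Real.exp ((B x : ℝ) ^ (C + C')) := by linarith
      _ ≤ Real.exp 1 * Real.exp ((B x : ℝ) ^ (C + C')) :=
          mul_le_mul_of_nonneg_right e3 (Real.exp_nonneg _)
      _ = Real.exp (1 + (B x : ℝ) ^ (C + C')) := (Real.exp_add _ _).symm
      _ ≤ _ := Real.exp_le_exp.2 (by linarith)

theorem PC.mul (hB : ∀ x, 2 ≤ B x) {α β : X → ℂ} (h : PC B α) (h' : PC B β) : PC B (fun x => α x * β x) := by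
  obtain ⟨C, hC⟩ := h
  obtain ⟨C', hC'⟩ := h'
  refine ⟨C + C' + 1, fun x => ?_⟩
  obtain ⟨m, D, S, h1, h2, h3, h4, h5⟩ := hC x
  obtain ⟨m', D', S', h1', h2', h3', h4', h5'⟩ := hC' x
  have hb : (2 : ℝ) ≤ B x := by exact_mod_cast hB x
  have a1 := C2_pow_mono hb (show C ≤ C + C' by omega)
  have a2 := C2_pow_mono hb (show C' ≤ C + C' by omega)
  have a3 := C2_two_mul hb (C + C')
  refine ⟨m * m', D * D', S * S', h1.mul h1', Nat.mul_pos h2 h2', ?_, ?_, ?_⟩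
  · push_cast
    calc (m : ℝ) * m' ≤ (B x : ℝ) ^ C * (B x : ℝ) ^ C' :=
          mul_le_mul h3 h3' (Nat.cast_nonneg _) (by positivity)
      _ = (B x : ℝ) ^ (C + C') := (pow_add _ _ _).symm
      _ ≤ _ := C2_pow_mono hb (by omega)
  · push_cast
    calc (D : ℝ) * D' ≤ Real.exp ((B x : ℝ) ^ C) * Real.exp ((B x : ℝ) ^ C') :=
          mul_le_mul h4 h4' (Nat.cast_nonneg _) (Real.exp_nonneg _)
      _ = Real.exp ((B x : ℝ) ^ C + (B x : ℝ) ^ C') := (Real.exp_add _ _).symm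
      _ ≤ _ := Real.exp_le_exp.2 (by linarith)
  · calc S * S' ≤ Real.exp ((B x : ℝ) ^ C) * Real.exp ((B x : ℝ) ^ C') :=
          mul_le_mul h5 h5' (C2_S_nonneg h1') (Real.exp_nonneg _)
      _ = Real.exp ((B x : ℝ) ^ C + (B x : ℝ) ^ C') := (Real.exp_add _ _).symm
      _ ≤ _ := Real.exp_le_exp.2 (by linarith)

theorem PC.const (hB : ∀ x, 2 ≤ B x) (a : ℂ) (h : IsAlgebraic ℚ a) : PC B (fun _ => a) := by
  obtain ⟨m, D, S, hD, hc⟩ := ctrl_of_algebraic a h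
  obtain ⟨C, hC⟩ := exists_nat_gt (max (m : ℝ) (max (D : ℝ) S))
  refine ⟨C, fun x => ⟨m, D, S, hc, hD, ?_, ?_, ?_⟩⟩
  all_goals
    have hb : (2 : ℝ) ≤ B x := by exact_mod_cast hB x
    have h1 : (C : ℝ) ≤ (B x : ℝ) ^ C := by
      have h2 : (C : ℝ) < (2 : ℝ) ^ C := by exact_mod_cast Nat.lt_two_pow_self
      exact h2.le.trans (pow_le_pow_left₀ (by norm_num) hb C)
    have h3 : (B x : ℝ) ^ C ≤ Real.exp ((B x : ℝ) ^ C) := by
      have := Real.add_one_le_exp ((B x : ℝ) ^ C)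
      linarith
    have h4 := le_max_left (m : ℝ) (max (D : ℝ) S)
    have h5 := le_max_right (m : ℝ) (max (D : ℝ) S)
    have h6 := le_max_left (D : ℝ) S
    have h7 := le_max_right (D : ℝ) S
    linarith

/-- reindexing with a bigger size function -/
theorem PC.comp {Y : Type*} {B' : Y → ℕ} (f : Y → X) (hB' : ∀ y, 2 ≤ B' y) (hf : ∀ y, B (f y) ≤ B' y) {α : X → ℂ}
    (h : PC B α) : PC B' (fun y => α (f y)) := by
  obtain ⟨C, hC⟩ := h
  refine ⟨C, fun y => ?_⟩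
  obtain ⟨m, D, S, h1, h2, h3, h4, h5⟩ := hC (f y)
  have e : ((B (f y) : ℕ) : ℝ) ^ C ≤ (B' y : ℝ) ^ C :=
    pow_le_pow_left₀ (Nat.cast_nonneg _) (by exact_mod_cast hf y) C
  exact ⟨m, D, S, h1, h2, h3.trans e, h4.trans (Real.exp_le_exp.2 e), h5.trans (Real.exp_le_exp.2 e)⟩

/-- polynomials in PC families -/
theorem PC.aeval (hB : ∀ x, 2 ≤ B x) {J : Type*} (P : MvPolynomial J ℚ) (α : J → X → ℂ) (h : ∀ j, PC B (α j)) :
    PC B (fun x => MvPolynomial.aeval (fun j => α j x) P) := by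
  induction P using MvPolynomial.induction_on with
  | C a =>
    simp only [MvPolynomial.algHom_C]
    exact PC.const hB _ (isAlgebraic_algebraMap a)
  | add p q hp hq =>
    simp only [map_add]
    exact PC.add hB hp hq
  | mul_X p j hp =>
    simp only [map_mul, MvPolynomial.aeval_X]
    exact PC.mul hB hp (h j)

/-- the lower bound -/
theorem PC.lower (hB : ∀ x, 2 ≤ B x) {α : X → ℂ} (h : PC B α) :
    ∃ C : ℕ, ∀ x, α x = 0 ∨ Real.exp (-(B x : ℝ) ^ C) ≤ ‖α x‖ := by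
  obtain ⟨C, hC⟩ := h
  refine ⟨C + C + 1, fun x => ?_⟩
  by_cases h0 : α x = 0
  · exact Or.inl h0
  refine Or.inr ?_
  obtain ⟨m, D, S, h1, h2, h3, h4, h5⟩ := hC x
  have hb : (2 : ℝ) ≤ B x := by exact_mod_cast hB x
  have hl := h1.lower h2 h0
  have a3 := C2_two_mul hb (C + C)
  have hp : (0 : ℝ) ≤ (B x : ℝ) ^ C := by positivity
  have key : ∀ T : ℝ, 0 ≤ T → T ≤ Real.exp ((B x : ℝ) ^ C) → T ^ m ≤ Real.exp ((B x : ℝ) ^ (C + C)) := by
    intro T hT0 hT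
    calc T ^ m ≤ Real.exp ((B x : ℝ) ^ C) ^ m := pow_le_pow_left₀ hT0 hT m
      _ = Real.exp ((m : ℝ) * (B x : ℝ) ^ C) := (Real.exp_nat_mul _ _).symm
      _ ≤ _ := Real.exp_le_exp.2 (by rw [pow_add]; exact mul_le_mul_of_nonneg_right h3 hp)
  have k1 := key (D : ℝ) (Nat.cast_nonneg _) h4
  have k2 := key (max 1 S) (by positivity) (max_le (Real.one_le_exp hp) h5)
  have k3 : (1 : ℝ) ≤ ‖α x‖ * Real.exp ((B x : ℝ) ^ (C + C + 1)) := by
    calc (1 : ℝ) ≤ ‖α x‖ * (D : ℝ) ^ m * (max 1 S) ^ m := hl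
      _ = ‖α x‖ * ((D : ℝ) ^ m * (max 1 S) ^ m) := by ring
      _ ≤ ‖α x‖ * (Real.exp ((B x : ℝ) ^ (C + C)) * Real.exp ((B x : ℝ) ^ (C + C))) := by
          refine mul_le_mul_of_nonneg_left ?_ (norm_nonneg _)
          exact mul_le_mul k1 k2 (by positivity) (Real.exp_nonneg _)
      _ = ‖α x‖ * Real.exp ((B x : ℝ) ^ (C + C) + (B x : ℝ) ^ (C + C)) := by rw [Real.exp_add]
      _ ≤ _ := mul_le_mul_of_nonneg_left (Real.exp_le_exp.2 (by linarith)) (norm_nonneg _)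
  rw [Real.exp_neg, inv_le_iff_one_le_mul₀ (Real.exp_pos _)]
  exact k3

end Pool.Agent.MSD
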