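import Pool.Agent.Lib.MP_f58a57_nt.Defs

/-! # C3a: coordinates of the values at rational points (MP_f58a57_nt) -/

open Complex ModularForm EisensteinSeries Filter
open UpperHalfPlane hiding I
open scoped Topology MatrixGroups

noncomputable section

namespace Pool.Agent.MSD

theorem C3a_rt_sq (d : ℕ) : rt d * rt d = -(d : ℂ) := by
  unfold rt
  have h : ((Real.sqrt d : ℝ) : ℂ) * ((Real.sqrt d : ℝ) : ℂ) = (d : ℂ) := by
    rw [← Complex.ofReal_mul, Real.mul_self_sqrt (Nat.cast_nonneg d)]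
    simp
  linear_combination (I * I) * h + (d : ℂ) * I_mul_I

theorem C3a_conj_rt (d : ℕ) : (starRingEnd ℂ) (rt d) = - rt d := by
  unfold rt
  rw [map_mul, Complex.conj_ofReal, Complex.conj_I]
  ring

theorem C3a_rt_im (d : ℕ) : (rt d).im = Real.sqrt d := by
  unfold rt
  simp

theorem C3a_rt_re (d : ℕ) : (rt d).re = 0 := by
  unfold rt
  simp

theorem C3a_mul_int (u : ℚ) (D : ℕ) (h : u.den ∣ D) : ∃ k : ℤ, (D : ℂ) * (u : ℂ) = (k : ℂ) := by
  obtain ⟨q, rfl⟩ := h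
  refine ⟨q * u.num, ?_⟩
  have h2 : ((u.den : ℕ) : ℚ) * u = ((u.num : ℤ) : ℚ) := Rat.den_mul_eq_num u
  have h3 : ((u.den : ℕ) : ℂ) * (u : ℂ) = ((u.num : ℤ) : ℂ) := by exact_mod_cast congrArg (fun q : ℚ => (q : ℂ)) h2
  push_cast
  linear_combination (q : ℂ) * h3

/-- common denominator -/
theorem C3a_common (d : ℕ) (w : Fin 4 → ℂ) (hw : ∀ i, w i ∈ KK d) :
    ∃ (M : ℕ) (u v : Fin 4 → ℤ), 0 < M ∧ ∀ i, (M : ℂ) * w i = u i + v i * rt d := by
  choose x y hxy using hw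
  set M : ℕ := (∏ i, (x i).den) * ∏ i, (y i).den with hM
  have h1 : ∀ i, ∃ k : ℤ, (M : ℂ) * (x i : ℂ) = (k : ℂ) := fun i => C3a_mul_int (x i) M
    ((Finset.dvd_prod_of_mem (fun i => (x i).den) (Finset.mem_univ i)).mul_right _)
  have h2 : ∀ i, ∃ k : ℤ, (M : ℂ) * (y i : ℂ) = (k : ℂ) := fun i => C3a_mul_int (y i) M
    ((Finset.dvd_prod_of_mem (fun i => (y i).den) (Finset.mem_univ i)).mul_left _)
  choose u hu using h1
  choose v hv using h2
  refine ⟨M, u, v, Nat.mul_pos (Finset.prod_pos fun i _ => (x i).den_pos)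
    (Finset.prod_pos fun i _ => (y i).den_pos), fun i => ?_⟩
  rw [hxy i]
  linear_combination hu i + (rt d) * hv i

theorem C3a_bound {R : ℕ} {u v s t : ℤ} (ht : 0 < t) (hs : |s| ≤ R * t) :
    |u * s + v * t| ≤ (|u| * R + |v|) * t := by
  calc |u * s + v * t| ≤ |u * s| + |v * t| := abs_add_le _ _
    _ = |u| * |s| + |v| * t := by rw [abs_mul, abs_mul, abs_of_pos ht]
    _ ≤ |u| * (R * t) + |v| * t := by
      have := mul_le_mul_of_nonneg_left hs (abs_nonneg u)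
      linarith
    _ = (|u| * R + |v|) * t := by ring

theorem C3a_qr_bound {d : ℕ} {K t n1 n2 m1 m2 : ℤ} (hK0 : 0 ≤ K) (ht : 0 < t)
    (hb1 : |n1| ≤ K * t) (hb2 : |n2| ≤ K * t) (hb3 : |m1| ≤ K * t) (hb4 : |m2| ≤ K * t) :
    (n2 * m1 - n1 * m2) * (m1 ^ 2 + d * m2 ^ 2) ≤ (2 * (1 + d) * K ^ 4) * t ^ 4 := by
  have hKt : 0 ≤ K * t := mul_nonneg hK0 ht.le
  have hq2 : n2 * m1 - n1 * m2 ≤ 2 * (K * t) ^ 2 := by
    have h1 : n2 * m1 ≤ (K * t) * (K * t) := by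
      calc n2 * m1 ≤ |n2 * m1| := le_abs_self _
        _ = |n2| * |m1| := abs_mul _ _
        _ ≤ (K * t) * (K * t) := mul_le_mul hb2 hb3 (abs_nonneg _) hKt
    have h2 : -(n1 * m2) ≤ (K * t) * (K * t) := by
      calc -(n1 * m2) ≤ |n1 * m2| := neg_le_abs _
        _ = |n1| * |m2| := abs_mul _ _
        _ ≤ (K * t) * (K * t) := mul_le_mul hb1 hb4 (abs_nonneg _) hKt
    linarith [sq (K * t)]
  have hr2 : m1 ^ 2 + d * m2 ^ 2 ≤ (1 + d) * (K * t) ^ 2 := by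
    have h1 : m1 ^ 2 ≤ (K * t) ^ 2 := by
      rw [← sq_abs m1]
      exact pow_le_pow_left₀ (abs_nonneg _) hb3 2
    have h2 : m2 ^ 2 ≤ (K * t) ^ 2 := by
      rw [← sq_abs m2]
      exact pow_le_pow_left₀ (abs_nonneg _) hb4 2
    have h3 : (d : ℤ) * m2 ^ 2 ≤ (d : ℤ) * (K * t) ^ 2 :=
      mul_le_mul_of_nonneg_left h2 (Int.natCast_nonneg d)
    linarith
  calc (n2 * m1 - n1 * m2) * (m1 ^ 2 + d * m2 ^ 2) ≤ (2 * (K * t) ^ 2) * ((1 + d) * (K * t) ^ 2) :=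
        mul_le_mul hq2 hr2 (by positivity) (by positivity)
    _ = (2 * (1 + d) * K ^ 4) * t ^ 4 := by ring

theorem C3a_bK1 {R' : ℕ} {u v : Fin 4 → ℤ} {K s t : ℤ}
    (hK : K = |u 0| * R' + |u 1| + (|v 0| * R' + |v 1|) + (|u 2| * R' + |u 3|) + (|v 2| * R' + |v 3|))
    (ht : 0 < t) (hs : |s| ≤ R' * t) : |u 0 * s + u 1 * t| ≤ K * t := by
  have k1 : 0 ≤ |u 0| * (R' : ℤ) + |u 1| := by positivity
  have k2 : 0 ≤ |v 0| * (R' : ℤ) + |v 1| := by positivity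
  have k3 : 0 ≤ |u 2| * (R' : ℤ) + |u 3| := by positivity
  have k4 : 0 ≤ |v 2| * (R' : ℤ) + |v 3| := by positivity
  exact (C3a_bound ht hs).trans (mul_le_mul_of_nonneg_right (by rw [hK]; linarith) ht.le)

theorem C3a_bK2 {R' : ℕ} {u v : Fin 4 → ℤ} {K s t : ℤ}
    (hK : K = |u 0| * R' + |u 1| + (|v 0| * R' + |v 1|) + (|u 2| * R' + |u 3|) + (|v 2| * R' + |v 3|))
    (ht : 0 < t) (hs : |s| ≤ R' * t) : |v 0 * s + v 1 * t| ≤ K * t := by
  have k1 : 0 ≤ |u 0| * (R' : ℤ) + |u 1| := by positivity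
  have k2 : 0 ≤ |v 0| * (R' : ℤ) + |v 1| := by positivity
  have k3 : 0 ≤ |u 2| * (R' : ℤ) + |u 3| := by positivity
  have k4 : 0 ≤ |v 2| * (R' : ℤ) + |v 3| := by positivity
  exact (C3a_bound ht hs).trans (mul_le_mul_of_nonneg_right (by rw [hK]; linarith) ht.le)

theorem C3a_bK3 {R' : ℕ} {u v : Fin 4 → ℤ} {K s t : ℤ}
    (hK : K = |u 0| * R' + |u 1| + (|v 0| * R' + |v 1|) + (|u 2| * R' + |u 3|) + (|v 2| * R' + |v 3|))
    (ht : 0 < t) (hs : |s| ≤ R' * t) : |u 2 * s + u 3 * t| ≤ K * t := by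
  have k1 : 0 ≤ |u 0| * (R' : ℤ) + |u 1| := by positivity
  have k2 : 0 ≤ |v 0| * (R' : ℤ) + |v 1| := by positivity
  have k3 : 0 ≤ |u 2| * (R' : ℤ) + |u 3| := by positivity
  have k4 : 0 ≤ |v 2| * (R' : ℤ) + |v 3| := by positivity
  exact (C3a_bound ht hs).trans (mul_le_mul_of_nonneg_right (by rw [hK]; linarith) ht.le)

theorem C3a_bK4 {R' : ℕ} {u v : Fin 4 → ℤ} {K s t : ℤ}
    (hK : K = |u 0| * R' + |u 1| + (|v 0| * R' + |v 1|) + (|u 2| * R' + |u 3|) + (|v 2| * R' + |v 3|))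
    (ht : 0 < t) (hs : |s| ≤ R' * t) : |v 2 * s + v 3 * t| ≤ K * t := by
  have k1 : 0 ≤ |u 0| * (R' : ℤ) + |u 1| := by positivity
  have k2 : 0 ≤ |v 0| * (R' : ℤ) + |v 1| := by positivity
  have k3 : 0 ≤ |u 2| * (R' : ℤ) + |u 3| := by positivity
  have k4 : 0 ≤ |v 2| * (R' : ℤ) + |v 3| := by positivity
  exact (C3a_bound ht hs).trans (mul_le_mul_of_nonneg_right (by rw [hK]; linarith) ht.le)

/-- C3a. PROOF. Multiply the entries of `h` by an integer so that they lie in `ℤ + ℤ√(-d)`. For `x = a/b`: `h(x) = n/m` with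
`n = αa + βb = n₁ + n₂√(-d)`, `m = γa + δb = m₁ + m₂√(-d)`, so `h(x) = (p + q√(-d))/r`, `r = m₁² + d m₂² > 0`, `q = n₂m₁ - n₁m₂ > 0`,
`p = n₁m₁ + d n₂m₂`; all are at most `C b²` when `|x| ≤ R`. -/
theorem cm_coords (d : ℕ) (hd : 0 < d) (h : Mob) (hK : h.InK d) (R : ℝ) : ∃ C : ℕ, ∀ x : ℚ, |(x : ℝ)| ≤ R → 0 < h.N (x : ℂ) →
    ∃ (q r : ℕ) (p : ℤ), 0 < q ∧ 0 < r ∧ q * r ≤ C * x.den ^ 4 ∧ h.app (x : ℂ) = (q * rt d + p) / r := by
  obtain ⟨M, u, v, hM, huv⟩ := C3a_common d ![h.a, h.b, h.c, h.e] (by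
    intro i
    fin_cases i
    · exact hK.1
    · exact hK.2.1
    · exact hK.2.2.1
    · exact hK.2.2.2)
  have ha := huv 0
  have hb := huv 1
  have hc := huv 2
  have he := huv 3
  simp only [Matrix.cons_val] at ha hb hc he
  obtain ⟨R', hR'⟩ := exists_nat_ge R
  set K : ℤ := |u 0| * R' + |u 1| + (|v 0| * R' + |v 1|) + (|u 2| * R' + |u 3|) + (|v 2| * R' + |v 3|)
    with hKdef
  have hK0 : 0 ≤ K := by positivity
  refine ⟨(2 * (1 + d) * K ^ 4).toNat, fun x hx hN => ?_⟩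
  set s : ℤ := x.num with hs
  set t : ℤ := (x.den : ℤ) with ht
  have htpos : 0 < t := by rw [ht]; exact_mod_cast x.den_pos
  have hxt : (x : ℂ) * (t : ℂ) = (s : ℂ) := by
    have h2 : x * ((x.den : ℕ) : ℚ) = ((x.num : ℤ) : ℚ) := Rat.mul_den_eq_num x
    have := congrArg (fun q : ℚ => (q : ℂ)) h2
    push_cast at this
    rw [ht, hs]
    push_cast
    exact this
  have hst : |s| ≤ R' * t := by
    have h2 : x * ((x.den : ℕ) : ℚ) = ((x.num : ℤ) : ℚ) := Rat.mul_den_eq_num x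
    have h3 : (x : ℝ) * (t : ℝ) = (s : ℝ) := by
      have := congrArg (fun q : ℚ => (q : ℝ)) h2
      push_cast at this
      rw [ht, hs]
      push_cast
      exact this
    have h4 : |(s : ℝ)| ≤ R' * t := by
      rw [← h3, abs_mul, abs_of_pos (show (0 : ℝ) < (t : ℝ) by exact_mod_cast htpos)]
      exact mul_le_mul_of_nonneg_right (hx.trans hR') (by exact_mod_cast htpos.le)
    exact_mod_cast h4
  -- the integers
  set n1 : ℤ := u 0 * s + u 1 * t with hn1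
  set n2 : ℤ := v 0 * s + v 1 * t with hn2
  set m1 : ℤ := u 2 * s + u 3 * t with hm1
  set m2 : ℤ := v 2 * s + v 3 * t with hm2
  have hMt : ((M : ℂ) * (t : ℂ)) ≠ 0 := mul_ne_zero (by exact_mod_cast hM.ne') (by exact_mod_cast htpos.ne')
  have hnum : ((M : ℂ) * (t : ℂ)) * (h.a * x + h.b) = (n1 : ℂ) + n2 * rt d := by
    rw [hn1, hn2]
    push_cast
    linear_combination (x : ℂ) * (t : ℂ) * ha + (t : ℂ) * hb + ((u 0 : ℂ) + (v 0 : ℂ) * rt d) * hxt
  have hden : ((M : ℂ) * (t : ℂ)) * (h.c * x + h.e) = (m1 : ℂ) + m2 * rt d := by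
    rw [hm1, hm2]
    push_cast
    linear_combination (x : ℂ) * (t : ℂ) * hc + (t : ℂ) * he + ((u 2 : ℂ) + (v 2 : ℂ) * rt d) * hxt
  set q : ℤ := n2 * m1 - n1 * m2 with hq
  set p : ℤ := n1 * m1 + d * (n2 * m2) with hp
  set r : ℤ := m1 ^ 2 + d * m2 ^ 2 with hr
  have hprod : ((n1 : ℂ) + n2 * rt d) * (starRingEnd ℂ) ((m1 : ℂ) + m2 * rt d) = (q : ℂ) * rt d + p := by
    rw [map_add, map_mul, C3a_conj_rt, map_intCast, map_intCast, hq, hp]
    push_cast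
    linear_combination (-(n2 : ℂ) * m2) * C3a_rt_sq d
  have hprod2 : ((m1 : ℂ) + m2 * rt d) * (starRingEnd ℂ) ((m1 : ℂ) + m2 * rt d) = (r : ℂ) := by
    rw [map_add, map_mul, C3a_conj_rt, map_intCast, map_intCast, hr]
    push_cast
    linear_combination (-(m2 : ℂ) * m2) * C3a_rt_sq d
  have hsd : (0 : ℝ) < Real.sqrt d := Real.sqrt_pos.2 (by exact_mod_cast hd)
  have hqpos : 0 < q := by
    have h1 : (((n1 : ℂ) + n2 * rt d) * (starRingEnd ℂ) ((m1 : ℂ) + m2 * rt d)).im =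
        ((M : ℝ) * t) ^ 2 * h.N (x : ℂ) := by
      rw [← hnum, ← hden, map_mul]
      have h2 : (starRingEnd ℂ) ((M : ℂ) * (t : ℂ)) = (M : ℂ) * (t : ℂ) := by
        rw [map_mul, map_natCast, map_intCast]
      rw [h2]
      have h3 : (M : ℂ) * (t : ℂ) * (h.a * x + h.b) * ((M : ℂ) * (t : ℂ) * (starRingEnd ℂ) (h.c * x + h.e)) =
          ((((M : ℝ) * t) ^ 2 : ℝ) : ℂ) * ((h.a * x + h.b) * (starRingEnd ℂ) (h.c * x + h.e)) := by
        push_cast
        ring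
      rw [h3, Complex.im_ofReal_mul]
      rfl
    rw [hprod] at h1
    have h4 : (((q : ℂ)) * rt d + p).im = (q : ℝ) * Real.sqrt d := by
      have h5 : (((q : ℂ)) * rt d + p).im = ((((q : ℝ) : ℂ)) * rt d).im + (((p : ℝ) : ℂ)).im := by
        rw [← Complex.add_im]
        push_cast
        rfl
      rw [h5, Complex.im_ofReal_mul, Complex.ofReal_im, C3a_rt_im, add_zero]
    rw [h4] at h1
    have h6 : 0 < (q : ℝ) * Real.sqrt d := by
      rw [h1]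
      have : (0 : ℝ) < (M : ℝ) * t := mul_pos (by exact_mod_cast hM) (by exact_mod_cast htpos)
      positivity
    have h7 : (0 : ℝ) < (q : ℝ) := (mul_pos_iff_of_pos_right hsd).1 h6
    exact_mod_cast h7
  have hrpos : 0 < r := by
    rcases eq_or_ne m1 0 with h1 | h1
    · rcases eq_or_ne m2 0 with h2 | h2
      · exfalso
        rw [hq, h1, h2] at hqpos
        simp at hqpos
      · have : 0 < m2 ^ 2 := by positivity
        have hd' : (0 : ℤ) < d := by exact_mod_cast hd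
        rw [hr]
        positivity
    · have : 0 < m1 ^ 2 := by positivity
      rw [hr]
      positivity
  have hmne : ((m1 : ℂ) + m2 * rt d) ≠ 0 := by
    intro h0
    rw [h0, zero_mul] at hprod2
    have : (r : ℂ) ≠ 0 := by exact_mod_cast hrpos.ne'
    exact this hprod2.symm
  refine ⟨q.toNat, r.toNat, p, by omega, by omega, ?_, ?_⟩
  · have hqr : q * r ≤ (2 * (1 + d) * K ^ 4) * t ^ 4 :=
      C3a_qr_bound hK0 htpos (C3a_bK1 hKdef htpos hst) (C3a_bK2 hKdef htpos hst)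
        (C3a_bK3 hKdef htpos hst) (C3a_bK4 hKdef htpos hst)
    have h5 : ((q.toNat * r.toNat : ℕ) : ℤ) ≤ (((2 * (1 + d) * K ^ 4).toNat * x.den ^ 4 : ℕ) : ℤ) := by
      push_cast
      rw [Int.toNat_of_nonneg hqpos.le, Int.toNat_of_nonneg hrpos.le,
        Int.toNat_of_nonneg (by positivity)]
      exact hqr
    exact_mod_cast h5
  · have hq' : ((q.toNat : ℕ) : ℂ) = (q : ℂ) := by
      have : ((q.toNat : ℕ) : ℤ) = q := Int.toNat_of_nonneg hqpos.le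
      exact_mod_cast congrArg (fun z : ℤ => (z : ℂ)) this
    have hr' : ((r.toNat : ℕ) : ℂ) = (r : ℂ) := by
      have : ((r.toNat : ℕ) : ℤ) = r := Int.toNat_of_nonneg hrpos.le
      exact_mod_cast congrArg (fun z : ℤ => (z : ℂ)) this
    rw [hq', hr']
    unfold Mob.app
    have hrne : (r : ℂ) ≠ 0 := by exact_mod_cast hrpos.ne'
    have hcm : (starRingEnd ℂ) ((m1 : ℂ) + m2 * rt d) ≠ 0 := (map_ne_zero _).2 hmne
    have hdne : h.c * x + h.e ≠ 0 := by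
      intro h0
      rw [h0, mul_zero] at hden
      exact hmne hden.symm
    have h8 : (h.a * x + h.b) / (h.c * x + h.e) = ((n1 : ℂ) + n2 * rt d) / ((m1 : ℂ) + m2 * rt d) := by
      rw [← hnum, ← hden, mul_div_mul_left _ _ hMt]
    rw [h8, ← hprod, ← hprod2, mul_div_mul_right _ _ hcm]

end Pool.Agent.MSD
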