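import Pool.Agent.Lib.MP_f58a57_nt.A1_Basic
import Pool.Agent.Lib.MP_f58a57_nt.A2_Transform

/-! # C3b: values at CM points as members of the families (MP_f58a57_nt) -/

open Complex ModularForm EisensteinSeries Filter
open UpperHalfPlane hiding I
open scoped Topology MatrixGroups

noncomputable section

namespace Pool.Agent.MSD

theorem c3b_e4_shift (z : ℂ) (hz : 0 < z.im) (k : ℤ) : e4 (z + k) = e4 z := by
  have h := e4_transform 1 k 0 1 (by ring) z hz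
  simpa using h

theorem c3b_e6_shift (z : ℂ) (hz : 0 < z.im) (k : ℤ) : e6 (z + k) = e6 z := by
  have h := e6_transform 1 k 0 1 (by ring) z hz
  simpa using h

theorem c3b_e2_shift (z : ℂ) (hz : 0 < z.im) (k : ℤ) : e2 (z + k) = e2 z := by
  have h := e2_transform 1 k 0 1 (by ring) z hz
  simpa using h

theorem c3b_im (d : ℕ) (q r : ℕ) (p : ℤ) :
    (((q : ℂ) * rt d + p) / r).im = q * Real.sqrt d / r := by
  rw [div_natCast_im]
  simp [rt]

/-- C3b. For `z = (q√(-d) + p)/r`: reducing `p` mod `r` (periodicity) we have `e4 z = q⁻⁴ Gr 0 τ ρ`, `e6 z = q⁻⁶ Gr 1 τ ρ`,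
`e2s z = q⁻² (Gr 2 τ ρ + q r e2s τ)`, `ρ = ⟨(q, r), p mod r⟩ ∈ TT (q r)`. -/
theorem values_Gr (d : ℕ) (hd : 0 < d) (q r : ℕ) (p : ℤ) (hq : 0 < q) (hr : 0 < r) : ∃ ρ ∈ TT (q * r),
    e4 ((q * rt d + p) / r) = Gr 0 (rt d) ρ / (q : ℂ) ^ 4 ∧
    e6 ((q * rt d + p) / r) = Gr 1 (rt d) ρ / (q : ℂ) ^ 6 ∧
    e2s ((q * rt d + p) / r) = (Gr 2 (rt d) ρ + q * r * e2s (rt d)) / (q : ℂ) ^ 2 := by
  have hrz : (0 : ℤ) < r := by exact_mod_cast hr
  have hb0 : 0 ≤ p % r := Int.emod_nonneg _ hrz.ne'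
  have hb1 : p % r < r := Int.emod_lt_of_pos _ hrz
  set b : ℕ := (p % r).toNat with hb
  have hbz : (b : ℤ) = p % r := Int.toNat_of_nonneg hb0
  have hbr : b < r := by
    have : (b : ℤ) < r := by rw [hbz]; exact hb1
    exact_mod_cast this
  have hq0 : (q : ℂ) ≠ 0 := by exact_mod_cast hq.ne'
  have hr0 : (r : ℂ) ≠ 0 := by exact_mod_cast hr.ne'
  have hsq : 0 < Real.sqrt d := Real.sqrt_pos.2 (by exact_mod_cast hd)
  have hp : (p : ℂ) = b + r * ((p / r : ℤ) : ℂ) := by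
    have h1 : p = b + r * (p / r) := by rw [hbz]; exact (Int.emod_add_mul_ediv p r).symm
    have h2 := congrArg (Int.cast : ℤ → ℂ) h1
    push_cast at h2
    exact h2
  have hshift : ((q : ℂ) * rt d + p) / r = ((q : ℂ) * rt d + b) / r + ((p / r : ℤ) : ℂ) := by
    rw [hp]
    field_simp
    ring
  have him : 0 < (((q : ℂ) * rt d + b) / r).im := by
    have h := c3b_im d q r (b : ℤ)
    rw [Int.cast_natCast] at h
    rw [h]
    have : (0 : ℝ) < q := by exact_mod_cast hq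
    have : (0 : ℝ) < r := by exact_mod_cast hr
    positivity
  have himz := c3b_im d q r p
  have hrt : (rt d).im = Real.sqrt d := by simp [rt]
  refine ⟨⟨(q, r), b⟩, ?_, ?_, ?_, ?_⟩
  · unfold TT
    rw [Finset.mem_sigma]
    refine ⟨?_, Finset.mem_range.2 hbr⟩
    rw [Nat.mem_divisorsAntidiagonal]
    exact ⟨rfl, (Nat.mul_pos hq hr).ne'⟩
  · have h1 : Gr 0 (rt d) ⟨(q, r), b⟩ = (q : ℂ) ^ 4 * e4 (((q : ℂ) * rt d + b) / r) := rfl
    rw [h1, hshift, c3b_e4_shift _ him]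
    field_simp
  · have h1 : Gr 1 (rt d) ⟨(q, r), b⟩ = (q : ℂ) ^ 6 * e6 (((q : ℂ) * rt d + b) / r) := rfl
    rw [h1, hshift, c3b_e6_shift _ him]
    field_simp
  · have h1 : Gr 2 (rt d) ⟨(q, r), b⟩ =
        (q : ℂ) ^ 2 * e2 (((q : ℂ) * rt d + b) / r) - q * r * e2 (rt d) := rfl
    have h2 : e2s ((q * rt d + p) / r) =
        e2 (((q : ℂ) * rt d + b) / r) - 3 / (Real.pi * ((q * Real.sqrt d / r : ℝ) : ℂ)) := by
      unfold e2s
      rw [himz, hshift, c3b_e2_shift _ him]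
    have h3 : e2s (rt d) = e2 (rt d) - 3 / (Real.pi * (Real.sqrt d : ℂ)) := by
      unfold e2s
      rw [hrt]
    have hpi : (Real.pi : ℂ) ≠ 0 := by exact_mod_cast Real.pi_ne_zero
    have hs0 : ((Real.sqrt d : ℝ) : ℂ) ≠ 0 := by exact_mod_cast hsq.ne'
    rw [h1, h2, h3]
    push_cast
    field_simp
    ring

end Pool.Agent.MSD
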