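import Pool.Agent.Lib.MP_f58a57_nt.B7_CtrlGr
import Pool.Agent.Lib.MP_f58a57_nt.B8d_E2
import Pool.Agent.Lib.MP_f58a57_nt.C2_PC
import Pool.Agent.Lib.MP_f58a57_nt.C3a_Coords
import Pool.Agent.Lib.MP_f58a57_nt.C3b_Values

/-! # C3c: the values at rational points are PC families (MP_f58a57_nt) -/

open Complex ModularForm EisensteinSeries Filter
open UpperHalfPlane hiding I
open scoped Topology MatrixGroups

noncomputable section

namespace Pool.Agent.MSD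

/-- a family of rational numbers with polynomially bounded denominators and absolute values -/
theorem pc_ratFam {X : Type*} {B : X → ℕ} (f : X → ℚ) (C : ℕ) (h1 : ∀ x, (f x).den ≤ B x ^ C)
    (h2 : ∀ x, |(f x : ℝ)| ≤ (B x : ℝ) ^ C) : PC B (fun x => ((f x : ℚ) : ℂ)) := by
  refine ⟨C, fun x => ⟨1, (f x).den, |(f x : ℝ)|, ctrl_rat (f x), (f x).den_pos, ?_, ?_, ?_⟩⟩
  · have h3 : 1 ≤ B x ^ C := (f x).den_pos.trans_le (h1 x)
    exact_mod_cast h3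
  · have h3 : ((f x).den : ℝ) ≤ (B x : ℝ) ^ C := by exact_mod_cast h1 x
    exact h3.trans ((le_add_of_nonneg_right zero_le_one).trans (Real.add_one_le_exp _))
  · exact (h2 x).trans ((le_add_of_nonneg_right zero_le_one).trans (Real.add_one_le_exp _))

theorem c3_le_pow (n B : ℕ) (hB : 2 ≤ B) : n ≤ B ^ n :=
  (Nat.lt_two_pow_self).le.trans (Nat.pow_le_pow_left hB n)

/-- if `n ≤ C * den ^ 4` then `n ≤ (2 + den) ^ (C + 4)` -/
theorem c3_size (C n b : ℕ) (h : n ≤ C * b ^ 4) : n ≤ (2 + b) ^ (C + 4) := by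
  refine h.trans ?_
  rw [pow_add]
  exact Nat.mul_le_mul (c3_le_pow C (2 + b) (Nat.le_add_right 2 b))
    (Nat.pow_le_pow_left (Nat.le_add_left b 2) 4)

/-- the members of the families are PC -/
theorem pc_GrFam {X : Type*} {B : X → ℕ} (hB : ∀ x, 2 ≤ B x) (τ Ω : ℂ) (h : CMBase τ Ω) (κ : Fin 3)
    (N : X → ℕ) (hN : ∀ x, 0 < N x) (K : ℕ) (hK : ∀ x, N x ≤ B x ^ K)
    (ρ : X → (Σ _ : ℕ × ℕ, ℕ)) (hρ : ∀ x, ρ x ∈ TT (N x)) :
    PC B (fun x => Gr κ τ (ρ x) / Ω ^ kwt κ) := by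
  obtain ⟨C, hC⟩ := ctrl_Gr τ Ω h
  refine ⟨C + K * C + 4 * K, fun x => ⟨C * N x ^ 2, (N x ^ 2).factorial, (C : ℝ) * (N x : ℝ) ^ C,
    hC κ (N x) (hN x) (ρ x) (hρ x), Nat.factorial_pos _, ?_, ?_, ?_⟩⟩
  · have h1 : C * N x ^ 2 ≤ B x ^ (C + K * C + 4 * K) := by
      calc C * N x ^ 2 ≤ B x ^ C * (B x ^ K) ^ 2 :=
            Nat.mul_le_mul (c3_le_pow C _ (hB x)) (Nat.pow_le_pow_left (hK x) 2)
        _ = B x ^ (C + K * 2) := by rw [← pow_mul, ← pow_add]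
        _ ≤ B x ^ (C + K * C + 4 * K) := by
            apply Nat.pow_le_pow_right (by have := hB x; omega)
            nlinarith
    exact_mod_cast h1
  · have h1 : ((N x ^ 2).factorial : ℝ) ≤ ((N x ^ 2 : ℕ) : ℝ) ^ (N x ^ 2) := by
      exact_mod_cast Nat.factorial_le_pow (N x ^ 2)
    have h2 : (0 : ℝ) < ((N x ^ 2 : ℕ) : ℝ) := by
      have := hN x
      positivity
    have h3 : ((N x ^ 2 : ℕ) : ℝ) ^ (N x ^ 2) ≤ Real.exp (((N x ^ 4 : ℕ) : ℝ)) := by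
      have h4 : ((N x ^ 2 : ℕ) : ℝ) ≤ Real.exp ((N x ^ 2 : ℕ) : ℝ) :=
        (le_add_of_nonneg_right zero_le_one).trans (Real.add_one_le_exp _)
      refine (pow_le_pow_left₀ h2.le h4 _).trans (le_of_eq ?_)
      rw [← Real.exp_nat_mul]
      congr 1
      push_cast
      ring
    refine h1.trans (h3.trans (Real.exp_le_exp.2 ?_))
    have h5 : N x ^ 4 ≤ B x ^ (C + K * C + 4 * K) := by
      calc N x ^ 4 ≤ (B x ^ K) ^ 4 := Nat.pow_le_pow_left (hK x) 4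
        _ = B x ^ (K * 4) := by rw [← pow_mul]
        _ ≤ B x ^ (C + K * C + 4 * K) := by
            apply Nat.pow_le_pow_right (by have := hB x; omega)
            nlinarith
    exact_mod_cast h5
  · have h1 : C * N x ^ C ≤ B x ^ (C + K * C + 4 * K) := by
      calc C * N x ^ C ≤ B x ^ C * (B x ^ K) ^ C :=
            Nat.mul_le_mul (c3_le_pow C _ (hB x)) (Nat.pow_le_pow_left (hK x) C)
        _ = B x ^ (C + K * C) := by rw [← pow_mul, ← pow_add]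
        _ ≤ B x ^ (C + K * C + 4 * K) := by
            apply Nat.pow_le_pow_right (by have := hB x; omega)
            omega
    have h2 : (C : ℝ) * (N x : ℝ) ^ C ≤ (B x : ℝ) ^ (C + K * C + 4 * K) := by exact_mod_cast h1
    exact h2.trans ((le_add_of_nonneg_right zero_le_one).trans (Real.add_one_le_exp _))

/-- powers of reciprocals -/
theorem pc_invFam {X : Type*} {B : X → ℕ} (hB : ∀ x, 2 ≤ B x) (q : X → ℕ) (hq : ∀ x, 0 < q x) (K w : ℕ)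
    (hK : ∀ x, q x ≤ B x ^ K) : PC B (fun x => 1 / (q x : ℂ) ^ w) := by
  have h1 : ∀ x, (1 / ((q x : ℚ)) ^ w : ℚ) = ((q x ^ w : ℕ) : ℚ)⁻¹ := fun x => by
    push_cast
    rw [one_div]
  have h2 : (fun x => 1 / (q x : ℂ) ^ w) = fun x => (((1 / (q x : ℚ) ^ w : ℚ)) : ℂ) := by
    funext x
    push_cast
    rfl
  rw [h2]
  refine pc_ratFam _ (K * w) (fun x => ?_) (fun x => ?_)
  · rw [h1 x, Rat.inv_natCast_den_of_pos (pow_pos (hq x) w)]
    calc q x ^ w ≤ (B x ^ K) ^ w := Nat.pow_le_pow_left (hK x) w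
      _ = B x ^ (K * w) := by rw [← pow_mul]
  · have h3 : (1 : ℝ) ≤ (q x : ℝ) ^ w := one_le_pow₀ (by exact_mod_cast hq x)
    have h4 : (1 : ℝ) ≤ (B x : ℝ) ^ (K * w) := one_le_pow₀ (by
      have := hB x
      exact_mod_cast (by omega : 1 ≤ B x))
    push_cast
    rw [abs_of_nonneg (by positivity)]
    refine le_trans ?_ h4
    rw [div_le_one (by linarith)]
    exact h3

/-- C3c. The values at rational points are families of polynomially bounded degree and logarithmic height. -/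
theorem pc_values (d : ℕ) (hd : 0 < d) (Ω : ℂ) (hΩ : CMBase (rt d) Ω) (h : Mob) (hK : h.InK d) (R : ℝ) (κ : Fin 3) :
    PC (X := {x : ℚ // |(x : ℝ)| ≤ R ∧ 0 < h.N (x : ℂ)}) (fun x => 2 + x.1.den)
      (fun x => ![e2s (h.app (x.1 : ℂ)) / Ω ^ 2, e4 (h.app (x.1 : ℂ)) / Ω ^ 4, e6 (h.app (x.1 : ℂ)) / Ω ^ 6] κ) := by
  obtain ⟨C, hC⟩ := cm_coords d hd h hK R
  have hC' : ∀ x : {x : ℚ // |(x : ℝ)| ≤ R ∧ 0 < h.N (x : ℂ)}, ∃ (q r : ℕ) (p : ℤ), 0 < q ∧ 0 < r ∧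
      q * r ≤ C * x.1.den ^ 4 ∧ h.app (x.1 : ℂ) = (q * rt d + p) / r := fun x => hC x.1 x.2.1 x.2.2
  choose q r p hq hr hqr happ using hC'
  have hV := fun x => values_Gr d hd (q x) (r x) (p x) (hq x) (hr x)
  choose ρ hρ h4 h6 h2 using hV
  have hB : ∀ x : {x : ℚ // |(x : ℝ)| ≤ R ∧ 0 < h.N (x : ℂ)}, 2 ≤ 2 + x.1.den := fun x => Nat.le_add_right _ _
  have hN : ∀ x, q x * r x ≤ (2 + x.1.den) ^ (C + 4) := fun x => c3_size C _ _ (hqr x)
  have hq' : ∀ x, q x ≤ (2 + x.1.den) ^ (C + 4) := fun x =>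
    (Nat.le_mul_of_pos_right (q x) (hr x)).trans (hN x)
  have hG := fun κ' => pc_GrFam hB (rt d) Ω hΩ κ' (fun x => q x * r x)
    (fun x => Nat.mul_pos (hq x) (hr x)) (C + 4) hN ρ hρ
  have hI := fun w => pc_invFam hB q hq (C + 4) w hq'
  fin_cases κ
  · have hE : PC (fun x : {x : ℚ // |(x : ℝ)| ≤ R ∧ 0 < h.N (x : ℂ)} => 2 + x.1.den)
        (fun _ => e2s (rt d) / Ω ^ 2) := PC.const hB _ (cm_e2 d hd Ω hΩ)
    have hM : PC (fun x : {x : ℚ // |(x : ℝ)| ≤ R ∧ 0 < h.N (x : ℂ)} => 2 + x.1.den)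
        (fun x => (((q x * r x : ℕ) : ℚ) : ℂ)) := by
      refine pc_ratFam _ (C + 4) (fun x => ?_) (fun x => ?_)
      · rw [Rat.den_natCast]
        exact Nat.one_le_pow _ _ (by omega)
      · rw [Rat.cast_natCast, abs_of_nonneg (Nat.cast_nonneg _)]
        exact_mod_cast hN x
    have hT := PC.mul hB (PC.add hB (hG 2) (PC.mul hB hM hE)) (hI 2)
    refine (congrArg (PC _) ?_).mp hT
    funext x
    show _ = e2s (h.app (x.1 : ℂ)) / Ω ^ 2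
    rw [happ x, h2 x]
    have hΩ0 := hΩ.ne
    have hq0 : (q x : ℂ) ≠ 0 := Nat.cast_ne_zero.2 (hq x).ne'
    show (Gr 2 (rt d) (ρ x) / Ω ^ 2 + ((q x * r x : ℕ) : ℚ) * (e2s (rt d) / Ω ^ 2)) * (1 / (q x : ℂ) ^ 2) = _
    push_cast
    field_simp
  · have hT := PC.mul hB (hG 0) (hI 4)
    refine (congrArg (PC _) ?_).mp hT
    funext x
    show _ = e4 (h.app (x.1 : ℂ)) / Ω ^ 4
    rw [happ x, h4 x]
    have hΩ0 := hΩ.ne
    have hq0 : (q x : ℂ) ≠ 0 := Nat.cast_ne_zero.2 (hq x).ne'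
    show (Gr 0 (rt d) (ρ x) / Ω ^ 4) * (1 / (q x : ℂ) ^ 4) = _
    field_simp
  · have hT := PC.mul hB (hG 1) (hI 6)
    refine (congrArg (PC _) ?_).mp hT
    funext x
    show _ = e6 (h.app (x.1 : ℂ)) / Ω ^ 6
    rw [happ x, h6 x]
    have hΩ0 := hΩ.ne
    have hq0 : (q x : ℂ) ≠ 0 := Nat.cast_ne_zero.2 (hq x).ne'
    show (Gr 1 (rt d) (ρ x) / Ω ^ 6) * (1 / (q x : ℂ) ^ 6) = _
    field_simp

/-- the rational numbers themselves -/
theorem pc_rat (R : ℝ) : PC (X := {x : ℚ // |(x : ℝ)| ≤ R}) (fun x => 2 + x.1.den) (fun x => ((x.1 : ℚ) : ℂ)) := by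
  refine pc_ratFam (fun x : {x : ℚ // |(x : ℝ)| ≤ R} => x.1) (⌈R⌉₊ + 1) (fun x => ?_) (fun x => ?_)
  · calc x.1.den ≤ (2 + x.1.den) ^ 1 := by rw [pow_one]; omega
      _ ≤ (2 + x.1.den) ^ (⌈R⌉₊ + 1) := Nat.pow_le_pow_right (by omega) (by omega)
  · refine x.2.trans ((Nat.le_ceil R).trans ?_)
    have h1 : ⌈R⌉₊ ≤ (2 + x.1.den) ^ (⌈R⌉₊ + 1) :=
      (c3_le_pow ⌈R⌉₊ (2 + x.1.den) (by omega)).trans (Nat.pow_le_pow_right (by omega) (by omega))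
    exact_mod_cast h1

/-- C3d. Algebraicity at the points of `K` (special case of the previous ones). -/
theorem algebraic_e4 (d : ℕ) (hd : 0 < d) (Ω : ℂ) (hΩ : CMBase (rt d) Ω) (z : ℂ) (hz : 0 < z.im) (hK : z ∈ KK d) :
    IsAlgebraic ℚ (e4 z / Ω ^ 4) := by
  obtain ⟨u, v, rfl⟩ := hK
  have hsd : 0 < Real.sqrt d := Real.sqrt_pos.2 (by exact_mod_cast hd)
  have him : ((u : ℂ) + v * rt d).im = (v : ℝ) * Real.sqrt d := by
    have h1 : ((u : ℂ) + v * rt d) = ((u : ℝ) : ℂ) + (((v : ℝ) * Real.sqrt d : ℝ) : ℂ) * I := by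
      unfold rt
      push_cast
      ring
    rw [h1]
    simp
  have hv : 0 < v := by
    rw [him] at hz
    have h2 : (0 : ℝ) < v := by
      by_contra h3
      push Not at h3
      nlinarith
    exact_mod_cast h2
  have hvn : 0 < v.num := Rat.num_pos.2 hv
  obtain ⟨n, hn⟩ := Int.eq_ofNat_of_zero_le hvn.le
  have hn0 : 0 < n := by omega
  obtain ⟨ρ, hρ, h4, -, -⟩ := values_Gr d hd (n * u.den) (v.den * u.den) (u.num * v.den)
    (Nat.mul_pos hn0 u.den_pos) (Nat.mul_pos v.den_pos u.den_pos)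
  have hz' : ((u : ℂ) + v * rt d) = (((n * u.den : ℕ) : ℂ) * rt d + ((u.num * v.den : ℤ) : ℂ)) /
      ((v.den * u.den : ℕ) : ℂ) := by
    have hu0 : (u.den : ℂ) ≠ 0 := Nat.cast_ne_zero.2 u.den_pos.ne'
    have hv0 : (v.den : ℂ) ≠ 0 := Nat.cast_ne_zero.2 v.den_pos.ne'
    have hu1 : (u : ℂ) = (u.num : ℂ) / (u.den : ℂ) := Rat.cast_def u
    have hv1 : (v : ℂ) = (n : ℂ) / (v.den : ℂ) := by
      rw [Rat.cast_def v, hn]
      simp
    rw [hu1, hv1]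
    push_cast
    field_simp
    ring
  rw [hz', h4]
  obtain ⟨C, hC⟩ := ctrl_Gr (rt d) Ω hΩ
  have h5 := (hC 0 _ (Nat.mul_pos (Nat.mul_pos hn0 u.den_pos) (Nat.mul_pos v.den_pos u.den_pos)) ρ hρ).alg
  have h6 : Gr 0 (rt d) ρ / ((n * u.den : ℕ) : ℂ) ^ 4 / Ω ^ 4 =
      (Gr 0 (rt d) ρ / Ω ^ kwt 0) * ((((n * u.den : ℕ) : ℚ) ^ 4)⁻¹ : ℚ) := by
    show _ = (Gr 0 (rt d) ρ / Ω ^ 4) * _
    push_cast
    field_simp
  rw [h6]
  exact h5.mul (isAlgebraic_algebraMap (R := ℚ) (A := ℂ) ((((n * u.den : ℕ) : ℚ) ^ 4)⁻¹))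

end Pool.Agent.MSD
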