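import Mathlib

/-!
# MP_f58a57_nt : definitions

The modular functions are written as functions on `ℂ` (with a junk value outside the upper half plane): `e2, e4, e6`
are the normalised Eisenstein series, `dl` is the discriminant `(e4 ^ 3 - e6 ^ 2) / 1728`, `jj = e4 ^ 3 / dl` is the
`j`-function.
-/

open Complex ModularForm EisensteinSeries
open UpperHalfPlane hiding I

noncomputable section

namespace Pool.Agent.MSD

/-- the Eisenstein series of weight 2 (Mathlib's `E2`), as a function on `ℂ` -/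
def e2 (z : ℂ) : ℂ := EisensteinSeries.E2 (ofComplex z)

/-- the Eisenstein series of weight 4 (Mathlib's `E₄`), as a function on `ℂ` -/
def e4 (z : ℂ) : ℂ := E₄ (ofComplex z)

/-- the Eisenstein series of weight 6 (Mathlib's `E₆`), as a function on `ℂ` -/
def e6 (z : ℂ) : ℂ := E₆ (ofComplex z)

/-- the discriminant -/
def dl (z : ℂ) : ℂ := (e4 z ^ 3 - e6 z ^ 2) / 1728

/-- the modular `j`-function -/
def jj (z : ℂ) : ℂ := e4 z ^ 3 / dl z

/-- `w = g z` for some `g ∈ GL₂(ℚ)` -/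
def GEquiv (z w : ℂ) : Prop :=
  ∃ a b c d : ℚ, (a : ℂ) * d - b * c ≠ 0 ∧ (c : ℂ) * z + d ≠ 0 ∧ w = (a * z + b) / (c * z + d)

/-- special points: `z` satisfies a nontrivial quadratic equation with integer coefficients -/
def IsSpecial (z : ℂ) : Prop :=
  ∃ a b c : ℤ, ¬ (a = 0 ∧ b = 0 ∧ c = 0) ∧ (a : ℂ) * z ^ 2 + b * z + c = 0

/-- the point `√(-d)` -/
def rt (d : ℕ) : ℂ := (Real.sqrt d : ℂ) * I

/-- the imaginary quadratic field `ℚ(√(-d))` inside `ℂ` -/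
def KK (d : ℕ) : Set ℂ := {w | ∃ u v : ℚ, w = u + v * rt d}

/-- `z` lies in the orbit `GL₂(ℚ(√(-d))) · t` -/
def InOrbit (d : ℕ) (t : ℝ) (z : ℂ) : Prop :=
  ∃ a b c e : ℂ, a ∈ KK d ∧ b ∈ KK d ∧ c ∈ KK d ∧ e ∈ KK d ∧ a * e - b * c ≠ 0 ∧ c * t + e ≠ 0 ∧
    z = (a * t + b) / (c * t + e)

/-- the size of a tuple of rational numbers: `2 +` the sum of the denominators -/
def Bd {s : ℕ} (x : Fin s → ℚ) : ℕ := 2 + ∑ l, (x l).den

/-- Hyper-Liouville systems: for every `C` there are rational approximations `x l` of `t l` with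
`0 < |t l - x l| < exp (- B ^ C)` (`B` = 2 + sum of the denominators) and `|t l - x l| < |t l' - x l'| ^ C` for `l < l'`. -/
def HyperLiouville {s : ℕ} (t : Fin s → ℝ) : Prop :=
  ∀ C : ℕ, ∃ x : Fin s → ℚ, (∀ l, 0 < |t l - x l|) ∧ (∀ l, |t l - x l| < Real.exp (-(Bd x : ℝ) ^ C)) ∧
    ∀ l l', l < l' → |t l - x l| < |t l' - x l'| ^ C

/-! ### Modular forms of level one, elementary version -/

/-- `q = e^{2πiz}` -/
def qq (z : ℂ) : ℂ := exp (2 * Real.pi * I * z)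

/-- `f` is a modular form of weight `k` and level one -/
structure IsMF (k : ℕ) (f : ℂ → ℂ) : Prop where
  diff : DifferentiableOn ℂ f {z | 0 < z.im}
  per : ∀ z : ℂ, 0 < z.im → f (z + 1) = f z
  inv : ∀ z : ℂ, 0 < z.im → f (-1 / z) = z ^ k * f z
  bdd : ∃ C : ℝ, ∀ z : ℂ, 1 ≤ z.im → ‖f z‖ ≤ C

/-- `f` has the `q`-expansion with (integer) coefficients `c` -/
def QExp (c : ℕ → ℤ) (f : ℂ → ℂ) : Prop :=
  ∀ z : ℂ, 0 < z.im → HasSum (fun n => (c n : ℂ) * qq z ^ n) (f z)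

/-- `f` has a `q`-expansion with integer coefficients -/
def HasIntQ (f : ℂ → ℂ) : Prop := ∃ c : ℕ → ℤ, QExp c f

/-- the weights of the variables `e4, e6, dl` -/
def wts : Fin 3 → ℕ := ![4, 6, 12]

/-- the values `(e4, e6, dl)` at `z` -/
def vals (z : ℂ) : Fin 3 → ℂ := ![e4 z, e6 z, dl z]

/-! ### Hecke families -/

/-- the weights of the three kinds: 0 ↦ 4, 1 ↦ 6, 2 ↦ 2 -/
def kwt : Fin 3 → ℕ := ![4, 6, 2]

/-- the three families for upper triangular matrices `(a b; 0 δ)`: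
`a⁴ e4((az+b)/δ)`, `a⁶ e6((az+b)/δ)`, `a² e2((az+b)/δ) - aδ e2(z)`. -/
def GG (κ : Fin 3) (a b δ : ℕ) (z : ℂ) : ℂ :=
  ![(a : ℂ) ^ 4 * e4 ((a * z + b) / δ), (a : ℂ) ^ 6 * e6 ((a * z + b) / δ),
    (a : ℂ) ^ 2 * e2 ((a * z + b) / δ) - a * δ * e2 z] κ

/-- index set of the upper triangular matrices `(a b; 0 δ)` with `a δ = N`, `0 ≤ b < δ`; an element is `⟨(a, δ), b⟩` -/
def TT (N : ℕ) : Finset (Σ _ : ℕ × ℕ, ℕ) := (Nat.divisorsAntidiagonal N).sigma (fun p => Finset.range p.2)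

/-- the member of the family with index `ρ` -/
def Gr (κ : Fin 3) (z : ℂ) (ρ : Σ _ : ℕ × ℕ, ℕ) : ℂ := GG κ ρ.1.1 ρ.2 ρ.1.2 z

/-- the matrix with index `ρ` -/
def mat (ρ : Σ _ : ℕ × ℕ, ℕ) : Matrix (Fin 2) (Fin 2) ℤ := !![(ρ.1.1 : ℤ), (ρ.2 : ℤ); 0, (ρ.1.2 : ℤ)]

/-- the matrix `S` -/
def matS : Matrix (Fin 2) (Fin 2) ℤ := !![0, -1; 1, 0]

/-- power sums of the family -/
def SS (κ : Fin 3) (N k : ℕ) (z : ℂ) : ℂ := ∑ ρ ∈ TT N, Gr κ z ρ ^ k

/-- The family for an arbitrary integer matrix `M = (a b; c e)` of determinant `N`: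
`N^w (cz+e)^{-w} E_w(Mz)` for `w = 4, 6`, and `N² (cz+e)^{-2} E_2(Mz) + (6 i c N/π)/(cz+e) - N E_2(z)`. -/
def FM (κ : Fin 3) (N : ℕ) (M : Matrix (Fin 2) (Fin 2) ℤ) (z : ℂ) : ℂ :=
  ![((N : ℂ) / (M 1 0 * z + M 1 1)) ^ 4 * e4 ((M 0 0 * z + M 0 1) / (M 1 0 * z + M 1 1)),
    ((N : ℂ) / (M 1 0 * z + M 1 1)) ^ 6 * e6 ((M 0 0 * z + M 0 1) / (M 1 0 * z + M 1 1)),
    ((N : ℂ) / (M 1 0 * z + M 1 1)) ^ 2 * e2 ((M 0 0 * z + M 0 1) / (M 1 0 * z + M 1 1))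
      + 6 * I * M 1 0 * N / Real.pi / (M 1 0 * z + M 1 1) - N * e2 z] κ

/-- the nonholomorphic `E₂* = E₂ - 3/(π Im z)` -/
def e2s (z : ℂ) : ℂ := e2 z - 3 / (Real.pi * z.im)

/-- a point `τ` together with a scaling `Ω` for which the normalised values of `e4, e6, dl` are algebraic integers -/
structure CMBase (τ Ω : ℂ) : Prop where
  im : 0 < τ.im
  ne : Ω ≠ 0
  i4 : IsIntegral ℤ (e4 τ / Ω ^ 4)
  i6 : IsIntegral ℤ (e6 τ / Ω ^ 6)
  idl : IsIntegral ℤ (dl τ / Ω ^ 12)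

/-! ### Controlled algebraic numbers -/

/-- `α` is algebraic of degree at most `m`, `D α` is an algebraic integer and all conjugates have absolute value `≤ S`. -/
structure Ctrl (m D : ℕ) (S : ℝ) (α : ℂ) : Prop where
  alg : IsAlgebraic ℚ α
  int : IsIntegral ℤ ((D : ℂ) * α)
  deg : (minpoly ℚ α).natDegree ≤ m
  conj : ∀ r ∈ (minpoly ℚ α).aroots ℂ, ‖r‖ ≤ S

/-- a family of algebraic numbers with polynomially bounded degree and logarithmic height -/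
def PC {X : Type*} (B : X → ℕ) (α : X → ℂ) : Prop :=
  ∃ C : ℕ, ∀ x, ∃ (m D : ℕ) (S : ℝ), Ctrl m D S (α x) ∧ 0 < D ∧ (m : ℝ) ≤ (B x : ℝ) ^ C ∧
    (D : ℝ) ≤ Real.exp ((B x : ℝ) ^ C) ∧ S ≤ Real.exp ((B x : ℝ) ^ C)

/-! ### Möbius transformations -/

/-- a nondegenerate complex Möbius transformation -/
structure Mob where
  a : ℂ
  b : ℂ
  c : ℂ
  e : ℂ
  det : a * e - b * c ≠ 0

/-- the value of a Möbius transformation -/
def Mob.app (h : Mob) (x : ℂ) : ℂ := (h.a * x + h.b) / (h.c * x + h.e)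

/-- The hermitian form `Im((ax+b) conj(cx+e))`; it is positive exactly where `Im h(x) > 0`. -/
def Mob.N (h : Mob) (x : ℂ) : ℝ := ((h.a * x + h.b) * (starRingEnd ℂ) (h.c * x + h.e)).im

/-- the transformation with complex conjugate entries -/
def Mob.bar (h : Mob) (x : ℂ) : ℂ :=
  ((starRingEnd ℂ) h.a * x + (starRingEnd ℂ) h.b) / ((starRingEnd ℂ) h.c * x + (starRingEnd ℂ) h.e)

/-- the circles `N = 0` of `h` and `h'` are different: the forms are not proportional -/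
def Mob.Ne (h h' : Mob) : Prop := ¬ ∃ r : ℝ, ∀ x : ℂ, h.N x = r * h'.N x

/-- entries in `ℚ(√(-d))` -/
def Mob.InK (h : Mob) (d : ℕ) : Prop := h.a ∈ KK d ∧ h.b ∈ KK d ∧ h.c ∈ KK d ∧ h.e ∈ KK d

/-- the three functions `e2, e4, e6` -/
def EE (κ : Fin 3) (z : ℂ) : ℂ := ![e2 z, e4 z, e6 z] κ

/-- the functions of one parameter `x` used for the functional independence: `x` itself and `e2, e4, e6` at `h_i(x)` -/
def fam {ι : Type*} (h : ι → Mob) (x : ℂ) : Option (ι × Fin 3) → ℂ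
  | none => x
  | some (i, κ) => EE κ ((h i).app x)

/-- the functions `x`, `(e2(h(x)) - 6 i/(π (h(x) - h̄(x))))/Ω²`, `e4(h(x))/Ω⁴`, `e6(h(x))/Ω⁶`; for real `x` the first is
`e2s(h(x))/Ω²`. -/
def famS {ι : Type*} (h : ι → Mob) (Ω : ℂ) (x : ℂ) : Option (ι × Fin 3) → ℂ
  | none => x
  | some (i, κ) => ![(e2 ((h i).app x) - 6 * I / (Real.pi * ((h i).app x - (h i).bar x))) / Ω ^ 2,
      e4 ((h i).app x) / Ω ^ 4, e6 ((h i).app x) / Ω ^ 6] κ

end Pool.Agent.MSD
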