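import Pool.Agent.Lib.MP_f58a57_nt.A0_Q
import Pool.Agent.Lib.MP_f58a57_nt.A1_Basic
import Pool.Agent.Lib.MP_f58a57_nt.A2_Transform

/-! # F1: e2, e4, e6 are algebraically independent over ℂ (MP_f58a57_nt) -/

open Complex ModularForm EisensteinSeries Filter
open UpperHalfPlane hiding I
open scoped Topology MatrixGroups

noncomputable section

namespace Pool.Agent.MSD

/-- homogeneity: from the transformation law. -/
theorem F1_homog (P : MvPolynomial (Fin 2) ℂ)
    (h : ∀ z : ℂ, 0 < z.im → MvPolynomial.eval ![e4 z, e6 z] P = 0) (z : ℂ) (hz : 0 < z.im) (t : ℂ) :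
    MvPolynomial.eval ![t ^ 4 * e4 z, t ^ 6 * e6 z] P = 0 := by
  set Q : Polynomial ℂ := MvPolynomial.aeval
    ![Polynomial.X ^ 4 * Polynomial.C (e4 z), Polynomial.X ^ 6 * Polynomial.C (e6 z)] P with hQdef
  have hQ : ∀ t : ℂ, Q.eval t = MvPolynomial.eval ![t ^ 4 * e4 z, t ^ 6 * e6 z] P := by
    intro t
    rw [hQdef, ← Polynomial.coe_evalRingHom, MvPolynomial.aeval_def, MvPolynomial.hom_eval₂]
    have h1 : (Polynomial.evalRingHom t).comp (algebraMap ℂ (Polynomial ℂ)) = RingHom.id ℂ := by
      ext x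
      simp
    rw [h1]
    have h2 : (fun i => Polynomial.evalRingHom t ((![Polynomial.X ^ 4 * Polynomial.C (e4 z),
        Polynomial.X ^ 6 * Polynomial.C (e6 z)] : Fin 2 → Polynomial ℂ) i)) =
        ![t ^ 4 * e4 z, t ^ 6 * e6 z] := by
      funext i
      fin_cases i
      · simp only [Fin.zero_eta, Matrix.cons_val_zero, Polynomial.coe_evalRingHom,
          Polynomial.eval_mul, Polynomial.eval_pow, Polynomial.eval_X, Polynomial.eval_C]
      · show Polynomial.eval t (Polynomial.X ^ 6 * Polynomial.C (e6 z)) = t ^ 6 * e6 z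
        simp only [Polynomial.eval_mul, Polynomial.eval_pow, Polynomial.eval_X, Polynomial.eval_C]
    rw [h2]
    rfl
  have hroot : ∀ d : ℤ, Q.eval (z + d) = 0 := by
    intro d
    rw [hQ]
    have hne : z + d ≠ 0 := by
      intro h0
      have := congrArg Complex.im h0
      simp at this
      rw [this] at hz
      exact lt_irrefl _ hz
    have him : 0 < ((-1 : ℂ) / (z + d)).im := by
      rw [Complex.div_im]
      have : 0 < Complex.normSq (z + d) := Complex.normSq_pos.2 hne
      simp only [Complex.neg_im, Complex.one_im, Complex.neg_re, Complex.one_re, Complex.add_im,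
        Complex.intCast_im, add_zero]
      have h3 : -0 * (z + (d : ℂ)).re / Complex.normSq (z + d) - -1 * z.im / Complex.normSq (z + d)
        = z.im / Complex.normSq (z + d) := by ring
      rw [h3]
      positivity
    have h4 := e4_transform 0 (-1) 1 d (by ring) z hz
    have h6 := e6_transform 0 (-1) 1 d (by ring) z hz
    have hw : ((0 : ℤ) : ℂ) * z + ((-1 : ℤ) : ℂ) = -1 := by push_cast; ring
    have hw' : ((1 : ℤ) : ℂ) * z + (d : ℂ) = z + d := by push_cast; ring
    rw [hw, hw'] at h4 h6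
    rw [← h4, ← h6]
    exact h _ him
  have hQ0 : Q = 0 := by
    refine Polynomial.eq_zero_of_infinite_isRoot Q ?_
    refine Set.Infinite.mono (s := Set.range (fun d : ℤ => z + (d : ℂ))) ?_ ?_
    · rintro _ ⟨d, rfl⟩
      exact hroot d
    · refine Set.infinite_range_of_injective ?_
      intro a b hab
      have : (a : ℂ) = b := by simpa using hab
      exact_mod_cast this
  rw [← hQ, hQ0]
  simp

/-- F1a. `e4³/e6²` is not constant: e.g. `e6(i) = 0`, `e4(i) ≠ 0`, `e4(ρ) = 0`, `e6(ρ) ≠ 0`. Consequently a polynomial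
vanishing at all `(m⁴ e4 z, m⁶ e6 z)` is zero. (For a polynomial `P(X,Y)`, split in weighted homogeneous parts: each part vanishes on
`(e4 z, e6 z)`; a part `c X^a Y^b Π (X³ - λ_i Y²)` vanishes identically only if it is zero, since `e4³/e6²` takes infinitely many values.) -/
theorem indep_e4_e6 (P : MvPolynomial (Fin 2) ℂ) (h : ∀ z : ℂ, 0 < z.im → MvPolynomial.eval ![e4 z, e6 z] P = 0) : P = 0 := by
  obtain ⟨c4, hc4, hc40⟩ := e4_q
  obtain ⟨c6, hc6, hc60⟩ := e6_q
  have t4 : Tendsto (fun y : ℝ => e4 (I * y)) atTop (𝓝 1) := by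
    have := hc4.tendsto
    rwa [hc40, Int.cast_one] at this
  have t6 : Tendsto (fun y : ℝ => e6 (I * y)) atTop (𝓝 1) := by
    have := hc6.tendsto
    rwa [hc60, Int.cast_one] at this
  have key : ∀ X0 : ℂ, X0 ≠ 0 → ∀ Y : ℂ, MvPolynomial.eval ![X0, Y] P = 0 := by
    intro X0 hX0
    set R : Polynomial ℂ := MvPolynomial.aeval ![Polynomial.C X0, Polynomial.X] P with hRdef
    have hR : ∀ Y : ℂ, R.eval Y = MvPolynomial.eval ![X0, Y] P := by
      intro t
      rw [hRdef, ← Polynomial.coe_evalRingHom, MvPolynomial.aeval_def, MvPolynomial.hom_eval₂]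
      have h1 : (Polynomial.evalRingHom t).comp (algebraMap ℂ (Polynomial ℂ)) = RingHom.id ℂ := by
        ext x
        simp
      rw [h1]
      have h2 : (fun i => Polynomial.evalRingHom t ((![Polynomial.C X0, Polynomial.X] :
          Fin 2 → Polynomial ℂ) i)) = ![X0, t] := by
        funext i
        fin_cases i <;> simp
      rw [h2]
      rfl
    have hR0 : R = 0 := by
      by_contra hne
      set S : Finset ℂ := R.roots.toFinset.image (fun x => x ^ 2) with hS
      have hmem : ∀ y : ℝ, 0 < y → e4 (I * y) ≠ 0 →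
          X0 ^ 3 * (e6 (I * y) ^ 2 / e4 (I * y) ^ 3) ∈ S := by
        intro y hy h4
        have hz : 0 < (I * (y : ℂ)).im := by simpa using hy
        obtain ⟨t, ht⟩ := IsAlgClosed.exists_pow_nat_eq (X0 / e4 (I * y)) (n := 4) (by norm_num)
        have h5 := F1_homog P h (I * y) hz t
        have h6 : t ^ 4 * e4 (I * y) = X0 := by
          rw [ht]; field_simp
        rw [h6, ← hR] at h5
        rw [hS, Finset.mem_image]
        refine ⟨t ^ 6 * e6 (I * y), ?_, ?_⟩
        · rw [Multiset.mem_toFinset, Polynomial.mem_roots hne]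
          exact h5
        · have h7 : (t ^ 6 * e6 (I * y)) ^ 2 = (t ^ 4) ^ 3 * e6 (I * y) ^ 2 := by ring
          rw [h7, ht]
          field_simp
      have hlim : Tendsto (fun y : ℝ => X0 ^ 3 * (e6 (I * y) ^ 2 / e4 (I * y) ^ 3)) atTop
          (𝓝 (X0 ^ 3)) := by
        have : Tendsto (fun y : ℝ => X0 ^ 3 * (e6 (I * y) ^ 2 / e4 (I * y) ^ 3)) atTop
            (𝓝 (X0 ^ 3 * (1 ^ 2 / 1 ^ 3))) :=
          ((t6.pow 2).div (t4.pow 3) (by norm_num)).const_mul _
        simpa using this
      have hev : ∀ᶠ y : ℝ in atTop, X0 ^ 3 * (e6 (I * y) ^ 2 / e4 (I * y) ^ 3) ∉ S.erase (X0 ^ 3) := by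
        have hcl : IsClosed ((S.erase (X0 ^ 3) : Finset ℂ) : Set ℂ) := Finset.isClosed _
        have := hlim.eventually (hcl.isOpen_compl.mem_nhds (by simp))
        filter_upwards [this] with y hy
        exact hy
      have h4ne : ∀ᶠ y : ℝ in atTop, e4 (I * y) ≠ 0 := t4.eventually_ne one_ne_zero
      obtain ⟨y, hy1, hy2, hy3⟩ := (hev.and (h4ne.and (eventually_gt_atTop 0))).exists
      have h8 := hmem y hy3 hy2
      have h9 : X0 ^ 3 * (e6 (I * y) ^ 2 / e4 (I * y) ^ 3) = X0 ^ 3 := by
        by_contra hcon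
        exact hy1 (Finset.mem_erase.2 ⟨hcon, h8⟩)
      have hz : 0 < (I * (y : ℂ)).im := by simpa using hy3
      refine dl_ne_zero (I * y) hz ?_
      have h10 : e6 (I * y) ^ 2 / e4 (I * y) ^ 3 = 1 := by
        have hX : X0 ^ 3 ≠ 0 := pow_ne_zero _ hX0
        exact mul_left_cancel₀ hX (by rw [h9, mul_one])
      rw [div_eq_one_iff_eq (pow_ne_zero _ hy2)] at h10
      rw [dl, h10, sub_self, zero_div]
    intro Y
    rw [← hR, hR0]
    simp
  have hXP : MvPolynomial.X 0 * P = 0 := by
    apply MvPolynomial.funext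
    intro x
    rw [map_mul, MvPolynomial.eval_X, map_zero]
    by_cases hx : x 0 = 0
    · rw [hx, zero_mul]
    · have : x = ![x 0, x 1] := by
        funext i
        fin_cases i <;> rfl
      rw [mul_eq_zero]
      right
      rw [this]
      exact key _ hx _
  rcases mul_eq_zero.1 hXP with h1 | h1
  · exact absurd h1 (MvPolynomial.X_ne_zero 0)
  · exact h1

end Pool.Agent.MSD
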