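import Pool.Agent.Lib.MP_f58a57_nt.F1_IndepE

/-! # F1b: e2, e4, e6 are algebraically independent (MP_f58a57_nt) -/

open Complex ModularForm EisensteinSeries Filter
open UpperHalfPlane hiding I
open scoped Topology MatrixGroups

noncomputable section

namespace Pool.Agent.MSD

lemma F1b_im (z : ℂ) (hz : 0 < z.im) (c k : ℕ) :
    c * z + (1 + k * c) ≠ (0 : ℂ) ∧ 0 < ((1 * z + k) / (c * z + (1 + k * c))).im := by
  have hne : c * z + (1 + k * c) ≠ (0 : ℂ) := by
    intro h
    have h1 := congrArg Complex.im h
    have h2 := congrArg Complex.re h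
    simp only [add_im, mul_im, natCast_re, natCast_im, zero_mul, one_im, add_zero, zero_im,
      mul_zero, add_re, mul_re, one_re, sub_zero, zero_re] at h1 h2
    rcases mul_eq_zero.1 h1 with h3 | h3
    · rw [h3] at h2
      simp at h2
    · exact hz.ne' h3
  refine ⟨hne, ?_⟩
  have h0 : 0 < normSq (c * z + (1 + k * c)) := normSq_pos.2 hne
  have h1 : ((1 * z + k) / (c * z + (1 + k * c))).im = z.im / normSq (c * z + (1 + k * c)) := by
    rw [Complex.div_im]
    simp only [one_mul, add_im, mul_im, natCast_re, natCast_im, zero_mul, one_im, add_zero,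
      mul_zero, add_re, mul_re, one_re, sub_zero]
    rw [← sub_div]
    congr 1
    ring
  rw [h1]
  positivity

/-- F1b. PROOF. Fix `z`. For coprime `(c, d)`, `c ≥ 1`: `P(m² e2 z + κ c m, m⁴ e4 z, m⁶ e6 z) = 0` with `m = cz + d`, `κ = -6i/π`; for fixed `c` this
holds for infinitely many `m`, so for all `m ∈ ℂ`; now for fixed `m` it is a polynomial in `c` with infinitely many zeros, so
`P(m² e2 z + u, m⁴ e4 z, m⁶ e6 z) = 0` for all `u ∈ ℂ` and `m ≠ 0`. With `m = 1`: `P(Y, e4 z, e6 z) = 0` for all `Y`: every coefficient (in `Y`) vanishes by F1a. -/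
theorem indep_E (P : MvPolynomial (Fin 3) ℂ) (h : ∀ z : ℂ, 0 < z.im → MvPolynomial.eval (fun κ => EE κ z) P = 0) : P = 0 := by
  have hEE : ∀ z : ℂ, (fun κ => EE κ z) = ![e2 z, e4 z, e6 z] := fun z => rfl
  have hpi : (Real.pi : ℂ) ≠ 0 := by exact_mod_cast Real.pi_ne_zero
  have key : ∀ z : ℂ, 0 < z.im → ∀ Y : ℂ, MvPolynomial.eval ![Y, e4 z, e6 z] P = 0 := by
    intro z hz
    -- the relation for all integers `c ≥ 1` and `m` of the form `cz + d`
    have step1 : ∀ c k : ℕ, MvPolynomial.eval ![(c * z + (1 + k * c)) ^ 2 * e2 z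
        + (-6 * I / Real.pi * c) * (c * z + (1 + k * c)),
        (c * z + (1 + k * c)) ^ 4 * e4 z, (c * z + (1 + k * c)) ^ 6 * e6 z] P = 0 := by
      intro c k
      obtain ⟨hne, him⟩ := F1b_im z hz c k
      have hdet : (1 : ℤ) * (1 + k * c) - k * c = 1 := by ring
      have t2 := e2_transform 1 k c (1 + k * c) hdet z hz
      have t4 := e4_transform 1 k c (1 + k * c) hdet z hz
      have t6 := e6_transform 1 k c (1 + k * c) hdet z hz
      push_cast at t2 t4 t6
      have h1 := h _ him
      rw [hEE, t2, t4, t6] at h1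
      rw [← h1]
      congr 2
      rw [sub_eq_add_neg]
      congr 1
      ring
    -- for all `m`
    have step2 : ∀ c : ℕ, 1 ≤ c → ∀ m : ℂ, MvPolynomial.eval ![m ^ 2 * e2 z
        + (-6 * I / Real.pi * c) * m, m ^ 4 * e4 z, m ^ 6 * e6 z] P = 0 := by
      intro c hc m
      let F : Polynomial ℂ := MvPolynomial.aeval
        ![Polynomial.X ^ 2 * Polynomial.C (e2 z) + Polynomial.C (-6 * I / Real.pi * c) * Polynomial.X,
          Polynomial.X ^ 4 * Polynomial.C (e4 z), Polynomial.X ^ 6 * Polynomial.C (e6 z)] P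
      have hF : ∀ m : ℂ, F.eval m = MvPolynomial.eval ![m ^ 2 * e2 z
          + (-6 * I / Real.pi * c) * m, m ^ 4 * e4 z, m ^ 6 * e6 z] P := by
        intro m
        have h1 : F.eval m = (Polynomial.aeval m) F := (Polynomial.coe_aeval_eq_eval m ▸ rfl)
        rw [h1]
        show (Polynomial.aeval m) ((MvPolynomial.aeval _) P) = _
        rw [MvPolynomial.comp_aeval_apply, ← MvPolynomial.coe_aeval_eq_eval]
        show MvPolynomial.aeval _ P = MvPolynomial.aeval _ P
        congr 2
        funext i
        fin_cases i <;> simp <;> ring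
      have hz0 : F = 0 := by
        refine Polynomial.eq_zero_of_infinite_isRoot F ?_
        refine Set.Infinite.mono (s := Set.range fun k : ℕ => (c * z + (1 + k * c) : ℂ)) ?_ ?_
        · rintro _ ⟨k, rfl⟩
          show F.eval _ = 0
          rw [hF]
          exact step1 c k
        · refine Set.infinite_range_of_injective ?_
          intro k k' hkk
          have h2 : (k : ℂ) * c = k' * c := by
            have : (c * z + (1 + k * c) : ℂ) = c * z + (1 + k' * c) := hkk
            linear_combination this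
          have h3 : (c : ℂ) ≠ 0 := by
            have : c ≠ 0 := by omega
            exact_mod_cast this
          exact_mod_cast mul_right_cancel₀ h3 h2
      rw [← hF, hz0, Polynomial.eval_zero]
    intro Y
    let G : Polynomial ℂ := MvPolynomial.aeval
      ![Polynomial.C (e2 z) + Polynomial.C (-6 * I / Real.pi) * Polynomial.X,
        Polynomial.C (e4 z), Polynomial.C (e6 z)] P
    have hG : ∀ u : ℂ, G.eval u = MvPolynomial.eval ![e2 z + (-6 * I / Real.pi) * u, e4 z, e6 z] P := by
      intro m
      have h1 : G.eval m = (Polynomial.aeval m) G := (Polynomial.coe_aeval_eq_eval m ▸ rfl)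
      rw [h1]
      show (Polynomial.aeval m) ((MvPolynomial.aeval _) P) = _
      rw [MvPolynomial.comp_aeval_apply, ← MvPolynomial.coe_aeval_eq_eval]
      show MvPolynomial.aeval _ P = MvPolynomial.aeval _ P
      congr 2
      funext i
      fin_cases i <;> simp
    have hG0 : G = 0 := by
      refine Polynomial.eq_zero_of_infinite_isRoot G ?_
      refine Set.Infinite.mono (s := Set.range fun k : ℕ => ((k + 1 : ℕ) : ℂ)) ?_ ?_
      · rintro _ ⟨k, rfl⟩
        show G.eval _ = 0
        rw [hG]
        have := step2 (k + 1) (by omega) 1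
        simpa using this
      · refine Set.infinite_range_of_injective ?_
        intro k k' hkk
        have : ((k + 1 : ℕ) : ℂ) = ((k' + 1 : ℕ) : ℂ) := hkk
        have := Nat.cast_injective this
        omega
    have h2 := hG ((Y - e2 z) / (-6 * I / Real.pi))
    rw [hG0, Polynomial.eval_zero] at h2
    have h3 : (-6 * I / Real.pi : ℂ) ≠ 0 := by
      refine div_ne_zero (mul_ne_zero (by norm_num) I_ne_zero) hpi
    rw [h2]
    congr 2
    rw [mul_div_cancel₀ _ h3, add_sub_cancel]
  refine MvPolynomial.funext fun x => ?_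
  rw [map_zero]
  let Q : MvPolynomial (Fin 2) ℂ :=
    MvPolynomial.aeval ![MvPolynomial.C (x 0), MvPolynomial.X 0, MvPolynomial.X 1] P
  have hQ : ∀ a b : ℂ, MvPolynomial.eval ![a, b] Q = MvPolynomial.eval ![x 0, a, b] P := by
    intro a b
    have h1 : MvPolynomial.eval ![a, b] Q = (MvPolynomial.aeval ![a, b]) Q := by
      rw [← MvPolynomial.coe_aeval_eq_eval]; rfl
    rw [h1]
    show (MvPolynomial.aeval ![a, b]) ((MvPolynomial.aeval _) P) = _
    rw [MvPolynomial.comp_aeval_apply, ← MvPolynomial.coe_aeval_eq_eval]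
    show MvPolynomial.aeval _ P = MvPolynomial.aeval _ P
    congr 2
    funext i
    fin_cases i <;> simp
  have hQ0 : Q = 0 := indep_e4_e6 Q fun z hz => by rw [hQ]; exact key z hz _
  have h4 := hQ (x 1) (x 2)
  rw [hQ0, map_zero] at h4
  rw [h4]
  congr 2
  funext i
  fin_cases i <;> rfl

end Pool.Agent.MSD
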