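import Pool.Agent.Lib.MP_f58a57_nt.Defs

/-! # F2: leaving the intersection of finitely many discs (MP_f58a57_nt) -/

open Complex ModularForm EisensteinSeries Filter
open UpperHalfPlane hiding I
open scoped Topology MatrixGroups

noncomputable section

namespace Pool.Agent.MSD

/-- F2a. Elementary facts: `N` is a real quadratic `A|x|² + Im(β x) + D`; `Im h(x) = N x/|cx+e|²` if `cx + e ≠ 0`; `N` is continuous and takes
both signs. -/
theorem Mob.im_app (h : Mob) (x : ℂ) (hx : h.c * x + h.e ≠ 0) : (h.app x).im = h.N x / ‖h.c * x + h.e‖ ^ 2 := by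
  have h1 : h.app x = ((h.a * x + h.b) * (starRingEnd ℂ) (h.c * x + h.e)) * (((Complex.normSq (h.c * x + h.e))⁻¹ : ℝ) : ℂ) := by
    rw [Mob.app, div_eq_mul_inv, Complex.inv_def]
    ring
  rw [h1, Complex.im_mul_ofReal, Mob.N, Complex.normSq_eq_norm_sq, div_eq_mul_inv]

theorem Mob.den_ne (h : Mob) (x : ℂ) (hx : h.N x ≠ 0) : h.c * x + h.e ≠ 0 := by
  intro h0
  apply hx
  simp [Mob.N, h0]

theorem Mob.continuous_N (h : Mob) : Continuous h.N := by
  unfold Mob.N
  apply Complex.continuous_im.comp
  apply Continuous.mul (by fun_prop)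
  exact Complex.continuous_conj.comp (by fun_prop)

theorem f2_exists (h : Mob) (w : ℂ) (hw : h.a - w * h.c ≠ 0) : ∃ (x : ℂ) (r : ℝ), 0 < r ∧ h.N x = w.im * r := by
  refine ⟨(w * h.e - h.b) / (h.a - w * h.c), ‖h.c * ((w * h.e - h.b) / (h.a - w * h.c)) + h.e‖ ^ 2, ?_, ?_⟩
  · have : h.c * ((w * h.e - h.b) / (h.a - w * h.c)) + h.e ≠ 0 := by
      have e1 : h.c * ((w * h.e - h.b) / (h.a - w * h.c)) + h.e = (h.a * h.e - h.b * h.c) / (h.a - w * h.c) := by
        rw [eq_div_iff hw, add_mul, mul_assoc, div_mul_cancel₀ _ hw]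
        ring
      rw [e1]
      exact div_ne_zero h.det hw
    positivity
  · have e2 : h.a * ((w * h.e - h.b) / (h.a - w * h.c)) + h.b =
        w * (h.c * ((w * h.e - h.b) / (h.a - w * h.c)) + h.e) := by
      field_simp
      ring
    rw [Mob.N, e2, mul_assoc, Complex.mul_conj, Complex.im_mul_ofReal, Complex.normSq_eq_norm_sq]

theorem f2_sign (h : Mob) (w w' : ℂ) (hww : w ≠ w') (s : ℝ) (hs : 0 < w.im * s) (hs' : 0 < w'.im * s) :
    ∃ x : ℂ, 0 < h.N x * s := by
  by_cases h1 : h.a - w * h.c = 0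
  · have h2 : h.a - w' * h.c ≠ 0 := by
      intro h2
      have h3 : (w' - w) * h.c = 0 := by linear_combination h1 - h2
      have h4 : h.c = 0 := by
        rcases mul_eq_zero.mp h3 with h5 | h5
        · exact absurd (sub_eq_zero.mp h5).symm hww
        · exact h5
      apply h.det
      rw [h4] at h1
      have h6 : h.a = 0 := by simpa using h1
      rw [h4, h6]
      ring
    obtain ⟨x, r, hr, hx⟩ := f2_exists h w' h2
    refine ⟨x, ?_⟩
    rw [hx]
    have : w'.im * r * s = (w'.im * s) * r := by ring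
    rw [this]
    positivity
  · obtain ⟨x, r, hr, hx⟩ := f2_exists h w h1
    refine ⟨x, ?_⟩
    rw [hx]
    have : w.im * r * s = (w.im * s) * r := by ring
    rw [this]
    positivity

theorem Mob.exists_neg (h : Mob) : ∃ x : ℂ, h.N x < 0 := by
  obtain ⟨x, hx⟩ := f2_sign h (-I) (1 - I) (by
    intro h0
    have := congrArg Complex.re h0
    simp at this) (-1) (by simp) (by simp)
  exact ⟨x, by linarith⟩

theorem f2_exists_pos (h : Mob) : ∃ x : ℂ, 0 < h.N x := by
  obtain ⟨x, hx⟩ := f2_sign h I (1 + I) (by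
    intro h0
    have := congrArg Complex.re h0
    simp at this) 1 (by simp) (by simp)
  exact ⟨x, by linarith⟩

theorem f2_quad (a b c : ℝ) (ha : a ≠ 0) : {τ : ℝ | a * τ ^ 2 + b * τ + c = 0}.Finite := by
  have hP : (Polynomial.C a * Polynomial.X ^ 2 + Polynomial.C b * Polynomial.X + Polynomial.C c : Polynomial ℝ) ≠ 0 := by
    intro h0
    have := congrArg (fun P => Polynomial.coeff P 2) h0
    simp [Polynomial.coeff_X, Polynomial.coeff_C] at this
    exact ha this
  refine ((Polynomial.C a * Polynomial.X ^ 2 + Polynomial.C b * Polynomial.X + Polynomial.C c :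
    Polynomial ℝ).roots.toFinset.finite_toSet).subset ?_
  intro τ hτ
  have hτ' : a * τ ^ 2 + b * τ + c = 0 := hτ
  simp only [Finset.mem_coe, Multiset.mem_toFinset, Polynomial.mem_roots hP, Polynomial.IsRoot.def]
  simpa using hτ'

theorem f2_caseA (A p q D P Q E : ℝ) (hA : A ≠ 0) (hPQ : P ≠ 0 ∨ Q ≠ 0) :
    {x : ℂ | A * (x.re ^ 2 + x.im ^ 2) + p * x.re + q * x.im + D = 0 ∧ P * x.re + Q * x.im + E = 0}.Finite := by
  have hn : 0 < P ^ 2 + Q ^ 2 := by
    rcases hPQ with h | h
    · positivity
    · positivity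
  have hn' : P ^ 2 + Q ^ 2 ≠ 0 := hn.ne'
  have hfin := f2_quad (A / (P ^ 2 + Q ^ 2)) ((p * Q - q * P) / (P ^ 2 + Q ^ 2))
    (A * E ^ 2 / (P ^ 2 + Q ^ 2) - (p * P + q * Q) * E / (P ^ 2 + Q ^ 2) + D) (div_ne_zero hA hn')
  refine (hfin.image (fun τ : ℝ => (⟨(Q * τ - P * E) / (P ^ 2 + Q ^ 2), (-P * τ - Q * E) / (P ^ 2 + Q ^ 2)⟩ : ℂ))).subset ?_
  rintro ⟨u, v⟩ ⟨h1, h2⟩
  simp only at h1 h2
  have hE : E = -(P * u + Q * v) := by linarith
  have hD : D = -(A * (u ^ 2 + v ^ 2) + p * u + q * v) := by linarith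
  refine ⟨Q * u - P * v, ?_, ?_⟩
  · show A / (P ^ 2 + Q ^ 2) * (Q * u - P * v) ^ 2 + (p * Q - q * P) / (P ^ 2 + Q ^ 2) * (Q * u - P * v) +
      (A * E ^ 2 / (P ^ 2 + Q ^ 2) - (p * P + q * Q) * E / (P ^ 2 + Q ^ 2) + D) = 0
    rw [hE, hD]
    field_simp
    ring
  · simp only [Complex.mk.injEq]
    rw [hE]
    constructor
    · field_simp
      ring
    · field_simp
      ring

theorem f2_fin (A p q D A' p' q' D' : ℝ) (hns : ¬ ∃ r : ℝ, A = r * A' ∧ p = r * p' ∧ q = r * q' ∧ D = r * D')
    (h1 : A ≠ 0 ∨ p ≠ 0 ∨ q ≠ 0) (h2 : A' ≠ 0 ∨ p' ≠ 0 ∨ q' ≠ 0) :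
    {x : ℂ | A * (x.re ^ 2 + x.im ^ 2) + p * x.re + q * x.im + D = 0 ∧
      A' * (x.re ^ 2 + x.im ^ 2) + p' * x.re + q' * x.im + D' = 0}.Finite := by
  by_cases hPQ : A' * p - A * p' ≠ 0 ∨ A' * q - A * q' ≠ 0
  · -- case (a)
    by_cases hA : A = 0
    · have hA' : A' ≠ 0 := by
        intro hA'
        rw [hA, hA'] at hPQ
        simp at hPQ
      refine (f2_caseA A' p' q' D' _ _ (A' * D - A * D') hA' hPQ).subset ?_
      rintro x ⟨hx1, hx2⟩
      exact ⟨hx2, by linear_combination A' * hx1 - A * hx2⟩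
    · refine (f2_caseA A p q D _ _ (A' * D - A * D') hA hPQ).subset ?_
      rintro x ⟨hx1, hx2⟩
      exact ⟨hx1, by linear_combination A' * hx1 - A * hx2⟩
  · push Not at hPQ
    obtain ⟨hP, hQ⟩ := hPQ
    by_cases hA' : A' = 0
    · by_cases hA : A = 0
      · -- two lines
        subst hA hA'
        simp only [ne_eq, not_true_eq_false, false_or] at h1 h2
        by_cases hdet : p * q' - p' * q = 0
        · -- parallel: empty
          have hempty : {x : ℂ | 0 * (x.re ^ 2 + x.im ^ 2) + p * x.re + q * x.im + D = 0 ∧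
              0 * (x.re ^ 2 + x.im ^ 2) + p' * x.re + q' * x.im + D' = 0} = ∅ := by
            rw [Set.eq_empty_iff_forall_notMem]
            rintro x ⟨hx1, hx2⟩
            apply hns
            rcases h2 with h2 | h2
            · refine ⟨p / p', by simp, by field_simp, ?_, ?_⟩
              · field_simp
                linarith
              · have hq : q = p / p' * q' := by
                  field_simp
                  linarith
                have hp : p = p / p' * p' := by field_simp
                linear_combination hx1 - p / p' * hx2 - x.re * hp - x.im * hq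
            · refine ⟨q / q', by simp, ?_, by field_simp, ?_⟩
              · field_simp
                linarith
              · have hp : p = q / q' * p' := by
                  field_simp
                  linarith
                have hq : q = q / q' * q' := by field_simp
                linear_combination hx1 - q / q' * hx2 - x.re * hp - x.im * hq
          rw [hempty]
          exact Set.finite_empty
        · refine (Set.finite_singleton (⟨(q * D' - q' * D) / (p * q' - p' * q), (p' * D - p * D') / (p * q' - p' * q)⟩ : ℂ)).subset ?_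
          rintro ⟨u, v⟩ ⟨hx1, hx2⟩
          simp only at hx1 hx2
          have hDD : D = -(p * u + q * v) := by linarith
          have hDD' : D' = -(p' * u + q' * v) := by linarith
          simp only [Set.mem_singleton_iff, Complex.mk.injEq]
          rw [hDD, hDD']
          constructor
          · rw [eq_div_iff hdet]
            ring
          · rw [eq_div_iff hdet]
            ring
      · -- A ≠ 0, A' = 0: then p' = q' = 0
        exfalso
        subst hA'
        have hp' : p' = 0 := by
          have : A * p' = 0 := by linarith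
          rcases mul_eq_zero.mp this with h | h
          · exact absurd h hA
          · exact h
        have hq' : q' = 0 := by
          have : A * q' = 0 := by linarith
          rcases mul_eq_zero.mp this with h | h
          · exact absurd h hA
          · exact h
        rcases h2 with h | h | h
        · exact h rfl
        · exact h hp'
        · exact h hq'
    · -- A' ≠ 0
      have hempty : {x : ℂ | A * (x.re ^ 2 + x.im ^ 2) + p * x.re + q * x.im + D = 0 ∧
          A' * (x.re ^ 2 + x.im ^ 2) + p' * x.re + q' * x.im + D' = 0} = ∅ := by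
        rw [Set.eq_empty_iff_forall_notMem]
        rintro x ⟨hx1, hx2⟩
        apply hns
        have hp : p = A / A' * p' := by
          field_simp
          linarith
        have hq : q = A / A' * q' := by
          field_simp
          linarith
        have hA1 : A = A / A' * A' := by field_simp
        refine ⟨A / A', hA1, hp, hq, ?_⟩
        linear_combination hx1 - A / A' * hx2 - x.re * hp - x.im * hq - (x.re ^ 2 + x.im ^ 2) * hA1
      rw [hempty]
      exact Set.finite_empty

theorem f2_N_eq (h : Mob) (x : ℂ) : h.N x = (h.a * (starRingEnd ℂ) h.c).im * (x.re ^ 2 + x.im ^ 2) +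
    (h.a * (starRingEnd ℂ) h.e + h.b * (starRingEnd ℂ) h.c).im * x.re +
    (h.a * (starRingEnd ℂ) h.e - h.b * (starRingEnd ℂ) h.c).re * x.im + (h.b * (starRingEnd ℂ) h.e).im := by
  simp only [Mob.N, map_add, map_mul, Complex.add_im, Complex.add_re, Complex.sub_re, Complex.mul_im, Complex.mul_re,
    Complex.conj_re, Complex.conj_im]
  ring

theorem f2_nonconst (h : Mob) : (h.a * (starRingEnd ℂ) h.c).im ≠ 0 ∨
    (h.a * (starRingEnd ℂ) h.e + h.b * (starRingEnd ℂ) h.c).im ≠ 0 ∨
    (h.a * (starRingEnd ℂ) h.e - h.b * (starRingEnd ℂ) h.c).re ≠ 0 := by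
  by_contra hcon
  push Not at hcon
  obtain ⟨h1, h2, h3⟩ := hcon
  obtain ⟨x, hx⟩ := h.exists_neg
  obtain ⟨y, hy⟩ := f2_exists_pos h
  rw [f2_N_eq, h1, h2, h3] at hx hy
  linarith

/-- F2b. Different circles meet in finitely many points (at most 2). -/
theorem Mob.finite_inter (h h' : Mob) (hne : h.Ne h') : {x : ℂ | h.N x = 0 ∧ h'.N x = 0}.Finite := by
  have := f2_fin (h.a * (starRingEnd ℂ) h.c).im
    (h.a * (starRingEnd ℂ) h.e + h.b * (starRingEnd ℂ) h.c).im
    (h.a * (starRingEnd ℂ) h.e - h.b * (starRingEnd ℂ) h.c).re (h.b * (starRingEnd ℂ) h.e).im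
    (h'.a * (starRingEnd ℂ) h'.c).im
    (h'.a * (starRingEnd ℂ) h'.e + h'.b * (starRingEnd ℂ) h'.c).im
    (h'.a * (starRingEnd ℂ) h'.e - h'.b * (starRingEnd ℂ) h'.c).re (h'.b * (starRingEnd ℂ) h'.e).im ?_
    (f2_nonconst h) (f2_nonconst h')
  · refine this.subset ?_
    rintro x ⟨hx1, hx2⟩
    rw [f2_N_eq] at hx1 hx2
    exact ⟨hx1, hx2⟩
  · rintro ⟨r, hA, hp, hq, hD⟩
    apply hne
    refine ⟨r, fun x => ?_⟩
    rw [f2_N_eq, f2_N_eq]
    linear_combination (x.re ^ 2 + x.im ^ 2) * hA + x.re * hp + x.im * hq + hD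

end Pool.Agent.MSD
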