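import Pool.Agent.Lib.MP_f58a57_nt.F2_Exit

/-! # F2c: the exit point (MP_f58a57_nt) -/

open Complex ModularForm EisensteinSeries Filter
open UpperHalfPlane hiding I
open scoped Topology MatrixGroups

noncomputable section

namespace Pool.Agent.MSD

theorem f2c_avoid (t : ℂ) (F : Finset ℂ) (hF : ∀ w ∈ F, w ≠ 0) (U : Set ℂ) (hU : IsOpen U) (hne : U.Nonempty) :
    ∃ y ∈ U, ∀ w ∈ F, ((starRingEnd ℂ) w * (y - t)).im ≠ 0 := by
  classical
  induction F using Finset.induction_on with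
  | empty =>
    obtain ⟨y, hy⟩ := hne
    exact ⟨y, hy, by simp⟩
  | insert w F hw ih =>
    obtain ⟨y, hy, hyF⟩ := ih (fun w' hw' => hF w' (Finset.mem_insert_of_mem hw'))
    have hw0 : w ≠ 0 := hF w (Finset.mem_insert_self _ _)
    by_cases h0 : ((starRingEnd ℂ) w * (y - t)).im = 0
    · -- perturb
      have hcont : Continuous (fun ε : ℝ => y + ε * (I * w)) := by fun_prop
      have hev1 : ∀ᶠ ε : ℝ in 𝓝 0, y + ε * (I * w) ∈ U := by
        apply hcont.continuousAt.eventually_mem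
        apply hU.mem_nhds
        simpa using hy
      have hev2 : ∀ᶠ ε : ℝ in 𝓝 0, ∀ w' ∈ F, ((starRingEnd ℂ) w' * (y + ε * (I * w) - t)).im ≠ 0 := by
        rw [Filter.eventually_all_finset]
        intro w' hw'
        have hc : Continuous (fun ε : ℝ => ((starRingEnd ℂ) w' * (y + ε * (I * w) - t)).im) := by fun_prop
        apply hc.continuousAt.eventually_ne
        simpa using hyF w' hw'
      have hev : ∀ᶠ ε : ℝ in 𝓝[>] 0, y + ε * (I * w) ∈ U ∧
          ∀ w' ∈ F, ((starRingEnd ℂ) w' * (y + ε * (I * w) - t)).im ≠ 0 :=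
        (hev1.and hev2).filter_mono nhdsWithin_le_nhds
      obtain ⟨ε, ⟨h1, h2⟩, hε⟩ := (hev.and self_mem_nhdsWithin).exists
      have hε' : (0 : ℝ) < ε := hε
      refine ⟨y + ε * (I * w), h1, ?_⟩
      intro w' hw'
      rcases Finset.mem_insert.mp hw' with rfl | hw'
      · have e1 : (starRingEnd ℂ) w' * (y + ε * (I * w') - t) =
            (starRingEnd ℂ) w' * (y - t) + ε * ((Complex.normSq w' : ℝ) : ℂ) * I := by
          rw [Complex.normSq_eq_conj_mul_self]
          ring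
        rw [e1, Complex.add_im, h0, zero_add]
        have : ((ε : ℂ) * ((Complex.normSq w' : ℝ) : ℂ) * I).im = ε * Complex.normSq w' := by
          simp
        rw [this]
        exact mul_ne_zero hε'.ne' (by simpa [Complex.normSq_eq_zero] using hw0)
      · exact h2 w' hw'
    · refine ⟨y, hy, ?_⟩
      intro w' hw'
      rcases Finset.mem_insert.mp hw' with rfl | hw'
      · exact h0
      · exact hyF w' hw'

theorem f2c_pole (h : Mob) : {x : ℂ | h.c * x + h.e = 0}.Finite := by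
  by_cases hc : h.c = 0
  · have he : h.e ≠ 0 := by
      intro he
      apply h.det
      simp [hc, he]
    have : {x : ℂ | h.c * x + h.e = 0} = ∅ := by
      ext x
      simp [hc, he]
    rw [this]
    exact Set.finite_empty
  · apply Set.Finite.subset (Set.finite_singleton (-h.e / h.c))
    intro x hx
    have hx' : h.c * x + h.e = 0 := hx
    have : x = -h.e / h.c := by
      field_simp
      linear_combination hx'
    exact this

/-- F2c. Exit point. PROOF. Let `Bad` be the finite set of pairwise intersection points of the circles and of the poles `-e/c`. The set of `y` with `N_{i₁}(y) < 0`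
(some fixed `i₁`) is open and nonempty; choose such a `y` not on one of the finitely many lines through `t` and a point of `Bad`. Put
`x(s) = t + s (y - t)` and let `s₀` be the first `s ∈ [0,1]` with `min_i N_i(x(s)) ≤ 0`. -/
theorem exit_point {ι : Type*} [Fintype ι] [Nonempty ι] (h : ι → Mob) (t : ℂ) (hpos : ∀ i, 0 < (h i).N t)
    (hne : ∀ i j, i ≠ j → (h i).Ne (h j)) :
    ∃ (y : ℂ) (s₀ : ℝ) (i₀ : ι), 0 < s₀ ∧ (∀ s : ℝ, 0 ≤ s → s < s₀ → ∀ i, 0 < (h i).N (t + s * (y - t))) ∧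
      (h i₀).N (t + s₀ * (y - t)) = 0 ∧ (∀ i, i ≠ i₀ → 0 < (h i).N (t + s₀ * (y - t))) ∧
      (h i₀).c * (t + s₀ * (y - t)) + (h i₀).e ≠ 0 := by
  classical
  obtain ⟨i₁⟩ := (inferInstance : Nonempty ι)
  -- the bad set
  have hBfin : ({x : ℂ | ∃ i j, i ≠ j ∧ (h i).N x = 0 ∧ (h j).N x = 0} ∪
      {x : ℂ | ∃ i, (h i).c * x + (h i).e = 0}).Finite := by
    apply Set.Finite.union
    · have : {x : ℂ | ∃ i j, i ≠ j ∧ (h i).N x = 0 ∧ (h j).N x = 0} ⊆
          ⋃ i, ⋃ j, {x : ℂ | i ≠ j ∧ (h i).N x = 0 ∧ (h j).N x = 0} := by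
        rintro x ⟨i, j, hx⟩
        exact Set.mem_iUnion.mpr ⟨i, Set.mem_iUnion.mpr ⟨j, hx⟩⟩
      refine Set.Finite.subset ?_ this
      apply Set.finite_iUnion
      intro i
      apply Set.finite_iUnion
      intro j
      by_cases hij : i = j
      · convert Set.finite_empty
        ext x
        simp [hij]
      · exact ((h i).finite_inter (h j) (hne i j hij)).subset (fun x hx => hx.2)
    · have : {x : ℂ | ∃ i, (h i).c * x + (h i).e = 0} ⊆ ⋃ i, {x : ℂ | (h i).c * x + (h i).e = 0} := by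
        rintro x ⟨i, hx⟩
        exact Set.mem_iUnion.mpr ⟨i, hx⟩
      exact (Set.finite_iUnion (fun i => f2c_pole (h i))).subset this
  set Bad : Set ℂ := {x : ℂ | ∃ i j, i ≠ j ∧ (h i).N x = 0 ∧ (h j).N x = 0} ∪
      {x : ℂ | ∃ i, (h i).c * x + (h i).e = 0} with hBad
  have hBt : ∀ b ∈ Bad, b ≠ t := by
    rintro b (⟨i, j, _, hb, _⟩ | ⟨i, hb⟩) rfl
    · exact (hpos i).ne' hb
    · have : (h i).N b = 0 := by
        simp [Mob.N, hb]
      exact (hpos i).ne' this
  obtain ⟨y, hyU, hy⟩ := f2c_avoid t (hBfin.toFinset.image (fun b => b - t)) (by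
    intro w hw
    rw [Finset.mem_image] at hw
    obtain ⟨b, hb, rfl⟩ := hw
    exact sub_ne_zero.mpr (hBt b (hBfin.mem_toFinset.mp hb))) {y | (h i₁).N y < 0}
    (isOpen_lt (h i₁).continuous_N continuous_const) (h i₁).exists_neg
  have hyU' : (h i₁).N y < 0 := hyU
  have hnot : ∀ s : ℝ, t + s * (y - t) ∉ Bad := by
    intro s hs
    have h1 := hy (t + s * (y - t) - t) (Finset.mem_image.mpr ⟨_, hBfin.mem_toFinset.mpr hs, rfl⟩)
    apply h1
    have : (starRingEnd ℂ) (t + s * (y - t) - t) * (y - t) = ((s * Complex.normSq (y - t) : ℝ) : ℂ) := by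
      push_cast
      rw [Complex.normSq_eq_conj_mul_self]
      simp only [add_sub_cancel_left, map_mul, Complex.conj_ofReal]
      ring
    rw [this]
    exact Complex.ofReal_im _
  -- first exit
  have hgc : ∀ i, Continuous (fun s : ℝ => (h i).N (t + s * (y - t))) := fun i =>
    (h i).continuous_N.comp (by fun_prop)
  have hScl : IsClosed {s : ℝ | ∃ i, (h i).N (t + s * (y - t)) ≤ 0} := by
    have : {s : ℝ | ∃ i, (h i).N (t + s * (y - t)) ≤ 0} = ⋃ i, {s : ℝ | (h i).N (t + s * (y - t)) ≤ 0} := by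
      ext s
      simp
    rw [this]
    exact isClosed_iUnion_of_finite (fun i => isClosed_le (hgc i) continuous_const)
  have hScomp : IsCompact (Set.Icc (0 : ℝ) 1 ∩ {s : ℝ | ∃ i, (h i).N (t + s * (y - t)) ≤ 0}) :=
    isCompact_Icc.inter_right hScl
  have hSne : (Set.Icc (0 : ℝ) 1 ∩ {s : ℝ | ∃ i, (h i).N (t + s * (y - t)) ≤ 0}).Nonempty := by
    refine ⟨1, ⟨by norm_num, le_refl _⟩, i₁, ?_⟩
    simpa using hyU'.le
  obtain ⟨s₀, ⟨⟨hs0, hs1⟩, i₀, hi₀⟩, hleast⟩ := hScomp.exists_isLeast hSne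
  have hs0' : 0 < s₀ := by
    rcases hs0.lt_or_eq with h1 | h1
    · exact h1
    · exfalso
      rw [← h1] at hi₀
      have := hpos i₀
      simp at hi₀
      linarith
  have hbefore : ∀ s : ℝ, 0 ≤ s → s < s₀ → ∀ i, 0 < (h i).N (t + s * (y - t)) := by
    intro s hs hss i
    by_contra hcon
    have := hleast ⟨⟨hs, by linarith⟩, i, not_lt.mp hcon⟩
    linarith
  have hge : ∀ i, 0 ≤ (h i).N (t + s₀ * (y - t)) := by
    intro i
    have hcl : s₀ ∈ closure (Set.Ico (0 : ℝ) s₀) := by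
      rw [closure_Ico hs0'.ne]
      exact ⟨hs0, le_refl _⟩
    have hsub : Set.Ico (0 : ℝ) s₀ ⊆ {s : ℝ | 0 ≤ (h i).N (t + s * (y - t))} := by
      rintro s ⟨h1, h2⟩
      exact (hbefore s h1 h2 i).le
    exact closure_minimal hsub (isClosed_le continuous_const (hgc i)) hcl
  have hz : (h i₀).N (t + s₀ * (y - t)) = 0 := le_antisymm hi₀ (hge i₀)
  refine ⟨y, s₀, i₀, hs0', hbefore, hz, ?_, ?_⟩
  · intro i hi
    rcases (hge i).lt_or_eq with h1 | h1
    · exact h1
    · exfalso
      exact hnot s₀ (Or.inl ⟨i, i₀, hi, h1.symm, hz⟩)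
  · intro hcon
    exact hnot s₀ (Or.inr ⟨i₀, hcon⟩)

end Pool.Agent.MSD
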