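import Pool.Agent.Lib.MP_f58a57_nt.F1b_IndepE
import Pool.Agent.Lib.MP_f58a57_nt.F2_Exit

/-! # F3: elimination at a cusp (MP_f58a57_nt) -/

open Complex ModularForm EisensteinSeries Filter
open UpperHalfPlane hiding I
open scoped Topology MatrixGroups

noncomputable section

namespace Pool.Agent.MSD

theorem F3_tendsto (α : ℂ) (c : ℕ) (hc : 0 < c) :
    Tendsto (fun k : ℕ => (α + c * k)⁻¹) atTop (𝓝 0) := by
  have h1 : Tendsto (fun k : ℕ => ‖α + c * (k : ℂ)‖) atTop atTop := by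
    refine tendsto_atTop_mono (f := fun k : ℕ => (k : ℝ) + -‖α‖) ?_
      (tendsto_atTop_add_const_right _ _ tendsto_natCast_atTop_atTop)
    intro k
    have h2 : ‖(c * (k : ℂ))‖ ≤ ‖α + c * (k : ℂ)‖ + ‖α‖ := by
      calc ‖(c * (k : ℂ))‖ = ‖(α + c * (k : ℂ)) - α‖ := by rw [add_sub_cancel_left]
        _ ≤ _ := norm_sub_le _ _
    have h3 : ‖(c * (k : ℂ))‖ = (c : ℝ) * k := by
      rw [norm_mul, Complex.norm_natCast, Complex.norm_natCast]
    have h4 : (k : ℝ) ≤ c * k := by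
      have : (1 : ℝ) ≤ c := by exact_mod_cast hc
      nlinarith [Nat.cast_nonneg (α := ℝ) k]
    show (k : ℝ) + -‖α‖ ≤ ‖α + c * (k : ℂ)‖
    linarith
  rw [tendsto_zero_iff_norm_tendsto_zero]
  simp_rw [norm_inv]
  exact tendsto_inv_atTop_zero.comp h1

/-- values of the three Eisenstein series at `γ w`, with `ε = 1/(c w + d)` -/
theorem F3_EE (a b c d : ℤ) (hdet : a * d - b * c = 1) (w : ℂ) (hw : 0 < w.im) (κ : Fin 3) :
    EE κ ((a * w + b) / (c * w + d)) =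
      ![(e2 w - 6 * I * c / Real.pi * (c * w + d : ℂ)⁻¹) / ((c * w + d : ℂ)⁻¹) ^ 2,
        e4 w / ((c * w + d : ℂ)⁻¹) ^ 4, e6 w / ((c * w + d : ℂ)⁻¹) ^ 6] κ := by
  have hm : (c * w + d : ℂ) ≠ 0 := by
    intro h0
    have h1 := congrArg Complex.im h0
    simp only [Complex.add_im, Complex.mul_im, Complex.intCast_im, Complex.intCast_re,
      Complex.zero_im, zero_mul, add_zero, mul_eq_zero, Int.cast_eq_zero] at h1
    rcases h1 with h1 | h1
    · rw [h1] at h0 hdet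
      have h2 : (d : ℂ) = 0 := by simpa using h0
      have h3 : d = 0 := by exact_mod_cast h2
      rw [h3] at hdet
      simp at hdet
    · exact hw.ne' h1
  fin_cases κ
  · show e2 _ = _ / _
    rw [e2_transform a b c d hdet w hw]
    field_simp
  · show e4 _ = _ / _
    rw [e4_transform a b c d hdet w hw]
    field_simp
  · show e6 _ = _ / _
    rw [e6_transform a b c d hdet w hw]
    field_simp

/-- F3. The elimination step. `g : ℂ → (J → ℂ)` are the remaining functions, analytic near the boundary point `x₁`, `P` a polynomial in them and in three more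
variables. If `P(g x; e2, e4, e6 (h x)) = 0` for all `x` near `x₁` with `Im h(x) > 0`, and `h(x₁) = p/q` is rational, then all the
coefficients vanish near `x₁`: `P(g x; Y) = 0` as a polynomial in `Y` for `x` near `x₁`, `x ≠ x₁`.

PROOF. Let `γ = (a b; c d) ∈ SL₂(ℤ)` with `a/c = p/q`, `c ≠ 0`. For fixed `w` in the upper half plane put `m = c(w + k) + d`, `ε = 1/m` (`k ∈ ℕ` large): then
`γ(w+k) = a/c - ε/c`, and `e4(γ(w+k)) = ε⁻⁴ e4 w`, `e6 = ε⁻⁶ e6 w`, `e2 = ε⁻² e2 w + κ c ε⁻¹`, `κ = -6i/π`. Let `X(ε) = h⁻¹(a/c - ε/c)` (analytic near 0, `X 0 = x₁`).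
`Θ(ε) = P(g (X ε); ε⁻² e2 w + κ c ε⁻¹, ε⁻⁴ e4 w, ε⁻⁶ e6 w)` is analytic for `0 < |ε| < ρ`, meromorphic at 0 (multiply by a power of `ε`), and vanishes for
`ε = 1/(c(w+k)+d) → 0`, so it vanishes identically for `0 < |ε| < ρ` (`ρ` does not depend on `w`). For fixed `ε` this is a polynomial identity in
`(e2 w, e4 w, e6 w)` for all `w`, hence `P(g (X ε); Y) = 0` as a polynomial by `indep_E` (the substitution is invertible). -/
theorem cusp_elim {J : Type*} [Finite J] (h : Mob) (x₁ : ℂ) (hx₁ : h.c * x₁ + h.e ≠ 0) (r : ℚ) (hr : h.app x₁ = (r : ℂ))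
    (g : ℂ → J → ℂ) (hg : ∀ j, AnalyticAt ℂ (fun x => g x j) x₁) (P : MvPolynomial (Fin 3) (MvPolynomial J ℂ))
    (hP : ∀ᶠ x in 𝓝 x₁, 0 < h.N x →
      MvPolynomial.eval (fun κ => EE κ (h.app x)) (MvPolynomial.map (MvPolynomial.eval (g x)) P) = 0) :
    ∀ᶠ x in 𝓝[≠] x₁, MvPolynomial.map (MvPolynomial.eval (g x)) P = 0 := by
  classical
  -- the matrix
  obtain ⟨u, v, huv⟩ : IsCoprime r.num (r.den : ℤ) :=
    Int.isCoprime_iff_gcd_eq_one.2 (by
      rw [Int.gcd, Int.natAbs_natCast]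
      exact r.reduced)
  obtain ⟨c, hcd⟩ : ∃ c : ℕ, c = r.den := ⟨_, rfl⟩
  obtain ⟨a, had⟩ : ∃ a : ℤ, a = r.num := ⟨_, rfl⟩
  have hc : 0 < c := hcd ▸ r.den_pos
  have hcC : (c : ℂ) ≠ 0 := by exact_mod_cast hc.ne'
  rw [← hcd, ← had] at huv
  have hrac : (r : ℂ) = a / c := by
    rw [Rat.cast_def, had, hcd]
  -- the curve
  obtain ⟨uu, huu⟩ : ∃ uu : ℂ → ℂ, ∀ ε, uu ε = (r : ℂ) - ε / c := ⟨_, fun _ => rfl⟩
  obtain ⟨Dn, hDn⟩ : ∃ Dn : ℂ → ℂ, ∀ ε, Dn ε = h.a - h.c * uu ε := ⟨_, fun _ => rfl⟩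
  obtain ⟨X, hX⟩ : ∃ X : ℂ → ℂ, ∀ ε, X ε = (h.e * uu ε - h.b) / Dn ε := ⟨_, fun _ => rfl⟩
  have huuA : ∀ ε, AnalyticAt ℂ uu ε := by
    intro ε
    have : uu = fun ε => (r : ℂ) - ε / c := funext huu
    rw [this]
    exact analyticAt_const.sub (analyticAt_id.div analyticAt_const hcC)
  have hDnA : ∀ ε, AnalyticAt ℂ Dn ε := by
    intro ε
    have : Dn = fun ε => h.a - h.c * uu ε := funext hDn
    rw [this]
    exact analyticAt_const.sub (analyticAt_const.mul (huuA ε))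
  have hXA : ∀ ε, Dn ε ≠ 0 → AnalyticAt ℂ X ε := by
    intro ε hε
    have : X = fun ε => (h.e * uu ε - h.b) / Dn ε := funext hX
    rw [this]
    exact ((analyticAt_const.mul (huuA ε)).sub analyticAt_const).div (hDnA ε) hε
  have huu0 : uu 0 = r := by rw [huu, zero_div, sub_zero]
  have hr' : h.a * x₁ + h.b = r * (h.c * x₁ + h.e) := by
    rw [← hr, Mob.app, div_mul_cancel₀ _ hx₁]
  have hD0 : Dn 0 ≠ 0 := by
    rw [hDn, huu0]
    intro h0
    apply h.det
    linear_combination (h.c * x₁ + h.e) * h0 - h.c * hr'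
  have hX0 : X 0 = x₁ := by
    rw [hX, div_eq_iff hD0, hDn, huu0]
    linear_combination -hr'
  have happ : ∀ ε, Dn ε ≠ 0 → h.app (X ε) = uu ε ∧ h.c * X ε + h.e ≠ 0 := by
    intro ε hε
    have e1 : h.c * X ε + h.e = (h.a * h.e - h.b * h.c) / Dn ε := by
      rw [hX, eq_div_iff hε, add_mul, mul_assoc, div_mul_cancel₀ _ hε, hDn]
      ring
    have e2 : h.a * X ε + h.b = (h.a * h.e - h.b * h.c) * uu ε / Dn ε := by
      rw [hX, eq_div_iff hε, add_mul, mul_assoc, div_mul_cancel₀ _ hε, hDn]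
      ring
    have e3 : h.c * X ε + h.e ≠ 0 := by
      rw [e1]
      exact div_ne_zero h.det hε
    refine ⟨?_, e3⟩
    rw [Mob.app, div_eq_iff e3, e1, e2]
    ring
  -- a good ball
  have hgX : ∀ᶠ ε in 𝓝 (0 : ℂ), Dn ε ≠ 0 ∧ ∀ j, AnalyticAt ℂ (fun ε => g (X ε) j) ε := by
    have h1 : ∀ᶠ ε in 𝓝 (0 : ℂ), Dn ε ≠ 0 := (hDnA 0).continuousAt.eventually_ne hD0
    have h2 : ∀ j, ∀ᶠ ε in 𝓝 (0 : ℂ), AnalyticAt ℂ (fun ε => g (X ε) j) ε := by
      intro j
      have h3 : AnalyticAt ℂ (fun x => g x j) (X 0) := by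
        rw [hX0]
        exact hg j
      exact (h3.comp (hXA 0 hD0)).eventually_analyticAt
    exact h1.and (eventually_all.2 h2)
  obtain ⟨ρ, hρ, hball⟩ := Metric.eventually_nhds_iff_ball.1 hgX
  -- the functions
  obtain ⟨K, hK⟩ : ∃ K : ℂ, K = 6 * I * c / Real.pi := ⟨_, rfl⟩
  obtain ⟨wt, hwt⟩ : ∃ wt : (Fin 3 →₀ ℕ) → ℕ, ∀ s, wt s = 2 * s 0 + 4 * s 1 + 6 * s 2 :=
    ⟨_, fun _ => rfl⟩
  obtain ⟨M, hM⟩ : ∃ M : ℕ, M = P.support.sup wt := ⟨_, rfl⟩
  have hsum : ∀ (φ : MvPolynomial J ℂ →+* ℂ) (Y : Fin 3 → ℂ),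
      MvPolynomial.eval Y (MvPolynomial.map φ P) =
        ∑ s ∈ P.support, φ (P.coeff s) * (Y 0 ^ s 0 * Y 1 ^ s 1 * Y 2 ^ s 2) := by
    intro φ Y
    rw [MvPolynomial.eval_map, MvPolynomial.eval₂_eq']
    refine Finset.sum_congr rfl fun s _ => ?_
    rw [Fin.prod_univ_three]
  obtain ⟨f, hf⟩ : ∃ f : ℂ → ℂ → ℂ, ∀ w ε, f w ε = ∑ s ∈ P.support,
      MvPolynomial.eval (g (X ε)) (P.coeff s) *
        ((e2 w - K * ε) ^ s 0 * e4 w ^ s 1 * e6 w ^ s 2) * ε ^ (M - wt s) := ⟨_, fun _ _ => rfl⟩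
  have hf2 : ∀ w ε, ε ≠ 0 → f w ε = ε ^ M * MvPolynomial.eval
      ![(e2 w - K * ε) / ε ^ 2, e4 w / ε ^ 4, e6 w / ε ^ 6]
      (MvPolynomial.map (MvPolynomial.eval (g (X ε))) P) := by
    intro w ε hε
    rw [hf, hsum, Finset.mul_sum]
    refine Finset.sum_congr rfl fun s hs => ?_
    have h1 : wt s ≤ M := hM ▸ Finset.le_sup hs
    have h2 : ε ^ M = ε ^ (M - wt s) * ((ε ^ 2) ^ s 0 * (ε ^ 4) ^ s 1 * (ε ^ 6) ^ s 2) := by
      rw [← pow_mul, ← pow_mul, ← pow_mul, ← pow_add, ← pow_add, ← pow_add]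
      congr 1
      rw [hwt] at h1 ⊢
      omega
    show _ = ε ^ M * (_ * (((e2 w - K * ε) / ε ^ 2) ^ s 0 * (e4 w / ε ^ 4) ^ s 1 *
      (e6 w / ε ^ 6) ^ s 2))
    rw [h2, div_pow, div_pow, div_pow]
    have n1 : (ε ^ 2) ^ s 0 ≠ 0 := pow_ne_zero _ (pow_ne_zero _ hε)
    have n2 : (ε ^ 4) ^ s 1 ≠ 0 := pow_ne_zero _ (pow_ne_zero _ hε)
    have n3 : (ε ^ 6) ^ s 2 ≠ 0 := pow_ne_zero _ (pow_ne_zero _ hε)
    generalize (ε ^ 2) ^ s 0 = A1 at *
    generalize (ε ^ 4) ^ s 1 = A2 at *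
    generalize (ε ^ 6) ^ s 2 = A3 at *
    field_simp
  have hfA : ∀ w, ∀ ε ∈ Metric.ball (0 : ℂ) ρ, AnalyticAt ℂ (f w) ε := by
    intro w ε hε
    have : f w = fun ε => ∑ s ∈ P.support, MvPolynomial.eval (g (X ε)) (P.coeff s) *
        ((e2 w - K * ε) ^ s 0 * e4 w ^ s 1 * e6 w ^ s 2) * ε ^ (M - wt s) := funext (hf w)
    rw [this]
    refine Finset.analyticAt_fun_sum _ fun s _ => ?_
    have a1 : AnalyticAt ℂ (fun ε => MvPolynomial.eval (g (X ε)) (P.coeff s)) ε := by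
      have := AnalyticAt.aeval_mvPolynomial (𝕜 := ℂ) (f := fun ε => g (X ε)) (z := ε)
        (hball ε hε).2 (P.coeff s)
      simpa [MvPolynomial.aeval_eq_eval] using this
    have a2 : AnalyticAt ℂ (fun ε : ℂ => (e2 w - K * ε) ^ s 0 * e4 w ^ s 1 * e6 w ^ s 2) ε :=
      (((analyticAt_const.sub (analyticAt_const.mul analyticAt_id)).pow _).mul
        analyticAt_const).mul analyticAt_const
    exact (a1.mul a2).mul (analyticAt_id.pow _)
  -- the functions vanish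
  have hzero : ∀ w : ℂ, 0 < w.im → ∀ ε ∈ Metric.ball (0 : ℂ) ρ, f w ε = 0 := by
    intro w hw
    have hlim := F3_tendsto (c * w + u) c hc
    have hmne : ∀ k : ℕ, (c * w + u + c * k : ℂ) ≠ 0 := by
      intro k h0
      have h1 := congrArg Complex.im h0
      simp only [Complex.add_im, Complex.mul_im, Complex.natCast_im, Complex.natCast_re,
        Complex.intCast_im, Complex.zero_im, zero_mul, mul_zero, add_zero] at h1
      have h2 : (0 : ℝ) < c := by exact_mod_cast hc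
      have : 0 < (c : ℝ) * w.im := mul_pos h2 hw
      linarith
    have hlim' : Tendsto (fun k : ℕ => (c * w + u + c * k : ℂ)⁻¹) atTop (𝓝[≠] 0) := by
      rw [tendsto_nhdsWithin_iff]
      exact ⟨hlim, Eventually.of_forall fun k => inv_ne_zero (hmne k)⟩
    have hXc : Tendsto X (𝓝 0) (𝓝 x₁) := by
      have := (hXA 0 hD0).continuousAt.tendsto
      rwa [hX0] at this
    have hev : ∀ᶠ k : ℕ in atTop, f w (c * w + u + c * k : ℂ)⁻¹ = 0 := by
      have h1 := hlim.eventually (hXc.eventually hP)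
      have h2 := hlim.eventually hgX
      filter_upwards [h1, h2] with k hk1 hk2
      have hne := inv_ne_zero (hmne k)
      rw [hf2 w _ hne]
      obtain ⟨e1, e2'⟩ := happ _ hk2.1
      have hval : uu (c * w + u + c * k : ℂ)⁻¹ =
          (((a : ℤ) : ℂ) * w + ((a * k - v : ℤ) : ℂ)) /
            (((c : ℤ) : ℂ) * w + ((c * k + u : ℤ) : ℂ)) := by
        have hm' : (((c : ℤ) : ℂ) * w + ((c * k + u : ℤ) : ℂ)) = c * w + u + c * k := by
          push_cast; ring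
        rw [hm', huu, hrac, eq_div_iff (hmne k), sub_mul, div_mul_eq_mul_div,
          div_mul_eq_mul_div, inv_mul_cancel₀ (hmne k)]
        have huvC : (u : ℂ) * a + v * c = 1 := by exact_mod_cast huv
        field_simp
        push_cast
        linear_combination huvC
      have hdet : a * (c * k + u : ℤ) - (a * k - v : ℤ) * (c : ℤ) = 1 := by
        linear_combination huv
      have him : 0 < (uu (c * w + u + c * k : ℂ)⁻¹).im := by
        rw [huu]
        have e3 : ((c * w + u + c * k : ℂ)⁻¹ / c) = ((c * w + u + c * k) * c : ℂ)⁻¹ := by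
          rw [mul_inv, div_eq_mul_inv]
        rw [e3, Complex.sub_im, Complex.ratCast_im, Complex.inv_im, zero_sub, neg_div, neg_neg]
        have h2 : (0 : ℝ) < c := by exact_mod_cast hc
        refine div_pos ?_ (Complex.normSq_pos.2 (mul_ne_zero (hmne k) hcC))
        have e4' : ((c * w + u + c * k) * c : ℂ).im = c * w.im * c := by
          simp
        rw [e4']
        positivity
      have hN : 0 < h.N (X (c * w + u + c * k : ℂ)⁻¹) := by
        have h3 := Mob.im_app h _ e2'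
        rw [e1] at h3
        have h4 : 0 < ‖h.c * X (c * w + u + c * k : ℂ)⁻¹ + h.e‖ ^ 2 := by positivity
        rw [h3] at him
        by_contra hcon
        have := div_nonpos_of_nonpos_of_nonneg (not_lt.1 hcon) h4.le
        linarith
      have h5 := hk1 hN
      rw [e1] at h5
      have h6 : (fun κ => EE κ (uu (c * w + u + c * k : ℂ)⁻¹)) =
          ![(e2 w - K * (c * w + u + c * k : ℂ)⁻¹) / ((c * w + u + c * k : ℂ)⁻¹) ^ 2,
            e4 w / ((c * w + u + c * k : ℂ)⁻¹) ^ 4, e6 w / ((c * w + u + c * k : ℂ)⁻¹) ^ 6] := by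
        funext κ
        rw [hval, F3_EE a (a * k - v) c (c * k + u) hdet w hw κ]
        have hm' : (((c : ℤ) : ℂ) * w + ((c * k + u : ℤ) : ℂ)) = c * w + u + c * k := by
          push_cast; ring
        rw [hm', hK, Int.cast_natCast]
      rw [h6] at h5
      rw [h5, mul_zero]
    have hfreq : ∃ᶠ z in 𝓝[≠] (0 : ℂ), f w z = 0 := hlim'.frequently hev.frequently
    have hon : AnalyticOnNhd ℂ (f w) (Metric.ball (0 : ℂ) ρ) := fun ε hε => hfA w ε hε
    have := hon.eqOn_zero_of_preconnected_of_frequently_eq_zero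
      (convex_ball (0 : ℂ) ρ).isPreconnected (Metric.mem_ball_self hρ) hfreq
    exact fun ε hε => this hε
  -- the polynomial vanishes
  have hQ : ∀ ε ∈ Metric.ball (0 : ℂ) ρ, ε ≠ 0 →
      MvPolynomial.map (MvPolynomial.eval (g (X ε))) P = 0 := by
    intro ε hε hε0
    obtain ⟨Q, hQd⟩ : ∃ Q, Q = MvPolynomial.map (MvPolynomial.eval (g (X ε))) P := ⟨_, rfl⟩
    rw [← hQd]
    have h1 : ∀ w : ℂ, 0 < w.im → MvPolynomial.eval
        ![(e2 w - K * ε) / ε ^ 2, e4 w / ε ^ 4, e6 w / ε ^ 6] Q = 0 := by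
      intro w hw
      have h2 := hzero w hw ε hε
      rw [hf2 w ε hε0, ← hQd] at h2
      exact (mul_eq_zero.1 h2).resolve_left (pow_ne_zero _ hε0)
    have hb : ∀ (e : Fin 3 → ℂ) (L : Fin 3 → MvPolynomial (Fin 3) ℂ) (Q : MvPolynomial (Fin 3) ℂ),
        MvPolynomial.eval e (MvPolynomial.bind₁ L Q) =
          MvPolynomial.eval (fun i => MvPolynomial.eval e (L i)) Q :=
      fun e L Q => MvPolynomial.eval₂Hom_bind₁ _ _ _ _
    obtain ⟨L, hL⟩ : ∃ L : Fin 3 → MvPolynomial (Fin 3) ℂ,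
        L = ![MvPolynomial.C (ε ^ 2)⁻¹ * (MvPolynomial.X 0 - MvPolynomial.C (K * ε)),
          MvPolynomial.C (ε ^ 4)⁻¹ * MvPolynomial.X 1,
          MvPolynomial.C (ε ^ 6)⁻¹ * MvPolynomial.X 2] := ⟨_, rfl⟩
    have hLe : ∀ e : Fin 3 → ℂ, (fun i => MvPolynomial.eval e (L i)) =
        ![(e 0 - K * ε) / ε ^ 2, e 1 / ε ^ 4, e 2 / ε ^ 6] := by
      intro e
      funext i
      rw [hL]
      fin_cases i
      · show MvPolynomial.eval e (MvPolynomial.C (ε ^ 2)⁻¹ * (MvPolynomial.X 0 -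
          MvPolynomial.C (K * ε))) = (e 0 - K * ε) / ε ^ 2
        rw [map_mul, map_sub, MvPolynomial.eval_C, MvPolynomial.eval_X, MvPolynomial.eval_C,
          div_eq_inv_mul]
      · show MvPolynomial.eval e (MvPolynomial.C (ε ^ 4)⁻¹ * MvPolynomial.X 1) = e 1 / ε ^ 4
        rw [map_mul, MvPolynomial.eval_C, MvPolynomial.eval_X, div_eq_inv_mul]
      · show MvPolynomial.eval e (MvPolynomial.C (ε ^ 6)⁻¹ * MvPolynomial.X 2) = e 2 / ε ^ 6
        rw [map_mul, MvPolynomial.eval_C, MvPolynomial.eval_X, div_eq_inv_mul]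
    have h2 : MvPolynomial.bind₁ L Q = 0 := by
      refine indep_E _ fun w hw => ?_
      rw [hb, hLe]
      exact h1 w hw
    refine MvPolynomial.funext fun y => ?_
    rw [map_zero]
    have h3 := hb ![ε ^ 2 * y 0 + K * ε, ε ^ 4 * y 1, ε ^ 6 * y 2] L Q
    rw [h2, map_zero, hLe] at h3
    rw [h3]
    congr 2
    funext i
    fin_cases i
    · show y 0 = (ε ^ 2 * y 0 + K * ε - K * ε) / ε ^ 2
      rw [add_sub_cancel_right, mul_div_cancel_left₀ _ (pow_ne_zero _ hε0)]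
    · show y 1 = ε ^ 4 * y 1 / ε ^ 4
      rw [mul_div_cancel_left₀ _ (pow_ne_zero _ hε0)]
    · show y 2 = ε ^ 6 * y 2 / ε ^ 6
      rw [mul_div_cancel_left₀ _ (pow_ne_zero _ hε0)]
  -- back to `x`
  have happA : ContinuousAt (fun x => (c : ℂ) * (r - h.app x)) x₁ := by
    have : h.app = fun x => (h.a * x + h.b) / (h.c * x + h.e) := rfl
    rw [this]
    refine ContinuousAt.mul continuousAt_const (ContinuousAt.sub continuousAt_const ?_)
    exact ContinuousAt.div (by fun_prop) (by fun_prop) hx₁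
  have hcx : ∀ᶠ x in 𝓝 x₁, h.c * x + h.e ≠ 0 :=
    (show ContinuousAt (fun x => h.c * x + h.e) x₁ by fun_prop).eventually_ne hx₁
  have hsm : ∀ᶠ x in 𝓝 x₁, (c : ℂ) * (r - h.app x) ∈ Metric.ball (0 : ℂ) ρ := by
    have h1 : (c : ℂ) * (r - h.app x₁) = 0 := by rw [hr, sub_self, mul_zero]
    have h2 := happA.tendsto
    rw [h1] at h2
    exact h2 (Metric.ball_mem_nhds 0 hρ)
  rw [eventually_nhdsWithin_iff]
  filter_upwards [hcx, hsm] with x hx1 hx2 hx3
  have hu : h.app x * (h.c * x + h.e) = h.a * x + h.b := div_mul_cancel₀ _ hx1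
  have huu1 : uu ((c : ℂ) * (r - h.app x)) = h.app x := by
    rw [huu, mul_div_cancel_left₀ _ hcC, sub_sub_cancel]
  have hXx : X ((c : ℂ) * (r - h.app x)) = x := by
    have hD : Dn ((c : ℂ) * (r - h.app x)) ≠ 0 := by
      rw [hDn, huu1]
      intro h0
      apply h.det
      linear_combination (h.c * x + h.e) * h0 + h.c * hu
    rw [hX, div_eq_iff hD, hDn, huu1]
    linear_combination hu
  have h4 := hQ _ hx2 (by
    intro h0
    rw [h0, hX0] at hXx
    exact hx3 hXx.symm)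
  rwa [hXx] at h4

end Pool.Agent.MSD
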