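import Pool.Agent.Lib.MP_f58a57_nt.F3_Cusp
import Pool.Agent.Lib.MP_f58a57_nt.F2c_Exit

/-! # F4: functional independence (MP_f58a57_nt) -/

open Complex ModularForm EisensteinSeries Filter
open UpperHalfPlane hiding I
open scoped Topology MatrixGroups

noncomputable section

namespace Pool.Agent.MSD

theorem F4_EE_analytic (κ : Fin 3) (z : ℂ) (hz : 0 < z.im) : AnalyticAt ℂ (EE κ) z := by
  have hs : {z : ℂ | 0 < z.im} ∈ 𝓝 z :=
    (isOpen_lt continuous_const Complex.continuous_im).mem_nhds hz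
  fin_cases κ
  · exact e2_diff.analyticAt hs
  · exact e4_diff.analyticAt hs
  · exact e6_diff.analyticAt hs

theorem F4_app_analytic (H : Mob) (x : ℂ) (hx : H.c * x + H.e ≠ 0) : AnalyticAt ℂ H.app x := by
  have h1 : AnalyticAt ℂ (fun x : ℂ => H.a * x + H.b) x :=
    (analyticAt_const.mul analyticAt_id).add analyticAt_const
  have h2 : AnalyticAt ℂ (fun x : ℂ => H.c * x + H.e) x :=
    (analyticAt_const.mul analyticAt_id).add analyticAt_const
  exact h1.div h2 hx

theorem F4_im_pos (H : Mob) (x : ℂ) (hx : 0 < H.N x) : 0 < (H.app x).im := by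
  have hd := H.den_ne x hx.ne'
  rw [H.im_app x hd]
  exact div_pos hx (by positivity)

theorem F4_N_pos (H : Mob) (x : ℂ) (hd : H.c * x + H.e ≠ 0) (hx : 0 < (H.app x).im) :
    0 < H.N x := by
  rw [H.im_app x hd] at hx
  by_contra hc
  have : H.N x / ‖H.c * x + H.e‖ ^ 2 ≤ 0 := div_nonpos_of_nonpos_of_nonneg (not_lt.1 hc) (by positivity)
  linarith

/-- the functions are analytic -/
theorem fam_analytic {ι : Type} (h : ι → Mob) (t : ℂ) (hpos : ∀ i, 0 < (h i).N t) (ν : Option (ι × Fin 3)) :
    AnalyticAt ℂ (fun x => fam h x ν) t := by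
  rcases ν with _ | ⟨i, κ⟩
  · exact analyticAt_id
  · have h1 := F4_app_analytic (h i) t ((h i).den_ne t (hpos i).ne')
    have h2 := F4_EE_analytic κ ((h i).app t) (F4_im_pos (h i) t (hpos i))
    exact h2.comp h1

theorem F4_eval_analytic {J : Type} (F : ℂ → J → ℂ) (x : ℂ) (hF : ∀ j, AnalyticAt ℂ (fun x => F x j) x)
    (P : MvPolynomial J ℂ) : AnalyticAt ℂ (fun x => MvPolynomial.eval (F x) P) x := by
  have h1 := AnalyticAt.aeval_mvPolynomial (𝕜 := ℂ) (A := ℂ) (f := F) (z := x) hF P
  refine h1.congr (Eventually.of_forall fun y => ?_)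
  simp only [MvPolynomial.aeval_eq_eval]

/-- the inverse of a Möbius transformation -/
def F4_inv (H : Mob) (z : ℂ) : ℂ := (H.e * z - H.b) / (H.a - H.c * z)

theorem F4_inv1 (H : Mob) (x : ℂ) (hx : H.c * x + H.e ≠ 0) :
    H.a - H.c * H.app x ≠ 0 ∧ F4_inv H (H.app x) = x := by
  have h0 : H.app x * (H.c * x + H.e) = H.a * x + H.b := by
    unfold Mob.app
    exact div_mul_cancel₀ _ hx
  have h1 : (H.a - H.c * H.app x) * (H.c * x + H.e) = H.a * H.e - H.b * H.c := by
    linear_combination -H.c * h0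
  have h2 : H.a - H.c * H.app x ≠ 0 := by
    intro hc
    rw [hc, zero_mul] at h1
    exact H.det h1.symm
  refine ⟨h2, ?_⟩
  unfold F4_inv
  rw [div_eq_iff h2]
  linear_combination h0

theorem F4_inv2 (H : Mob) (z : ℂ) (hz : H.a - H.c * z ≠ 0) :
    H.c * F4_inv H z + H.e ≠ 0 ∧ H.app (F4_inv H z) = z := by
  have h0 : F4_inv H z * (H.a - H.c * z) = H.e * z - H.b := by
    unfold F4_inv
    exact div_mul_cancel₀ _ hz
  have h1 : (H.c * F4_inv H z + H.e) * (H.a - H.c * z) = H.a * H.e - H.b * H.c := by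
    linear_combination H.c * h0
  have h2 : H.c * F4_inv H z + H.e ≠ 0 := by
    intro hc
    rw [hc, zero_mul] at h1
    exact H.det h1.symm
  refine ⟨h2, ?_⟩
  unfold Mob.app
  rw [div_eq_iff h2]
  linear_combination h0

theorem F4_inv_continuousAt (H : Mob) (z : ℂ) (hz : H.a - H.c * z ≠ 0) :
    ContinuousAt (F4_inv H) z := by
  unfold F4_inv
  exact ContinuousAt.div (by fun_prop) (by fun_prop) hz

/-- the splitting of the variables -/
theorem F4_eval_sum {S₁ S₂ : Type} (a : S₁ → ℂ) (b : S₂ → ℂ) (Q : MvPolynomial (S₁ ⊕ S₂) ℂ) :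
    MvPolynomial.eval a (MvPolynomial.map (MvPolynomial.eval b) (MvPolynomial.sumAlgEquiv ℂ S₁ S₂ Q)) =
      MvPolynomial.eval (Sum.elim a b) Q := by
  induction Q using MvPolynomial.induction_on with
  | C r =>
    rw [MvPolynomial.sumAlgEquiv_C_inl, MvPolynomial.map_C, MvPolynomial.eval_C,
      MvPolynomial.eval_C, MvPolynomial.eval_C]
  | add p q hp hq => rw [map_add, map_add, map_add, map_add, hp, hq]
  | mul_X p s hp =>
    rw [map_mul, map_mul, map_mul, map_mul, hp, MvPolynomial.eval_X]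
    congr 1
    rcases s with s | s
    · rw [MvPolynomial.sumAlgEquiv_X_inl, MvPolynomial.map_X, MvPolynomial.eval_X]
      rfl
    · rw [MvPolynomial.sumAlgEquiv_X_inr, MvPolynomial.map_C, MvPolynomial.eval_C,
        MvPolynomial.eval_X]
      rfl

open Classical in
/-- the variables of `i₀` and the others -/
def F4_split {ι : Type} (i₀ : ι) (ν : Option (ι × Fin 3)) :
    Fin 3 ⊕ Option ({i : ι // i ≠ i₀} × Fin 3) :=
  match ν with
  | none => Sum.inr none
  | some (i, κ) => if hi : i = i₀ then Sum.inl κ else Sum.inr (some (⟨i, hi⟩, κ))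

theorem F4_split_inj {ι : Type} (i₀ : ι) : Function.Injective (F4_split i₀) := by
  classical
  rintro (_ | ⟨i, κ⟩) (_ | ⟨i', κ'⟩) hh
  · rfl
  · exfalso
    unfold F4_split at hh
    by_cases hi : i' = i₀
    · simp [hi] at hh
    · simp [hi] at hh
  · exfalso
    unfold F4_split at hh
    by_cases hi : i = i₀
    · simp [hi] at hh
    · simp [hi] at hh
  · unfold F4_split at hh
    by_cases hi : i = i₀
    · by_cases hi' : i' = i₀
      · simp only [dif_pos hi, dif_pos hi', Sum.inl.injEq] at hh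
        rw [hi, hi', hh]
      · simp [hi, hi'] at hh
    · by_cases hi' : i' = i₀
      · simp [hi, hi'] at hh
      · simp only [dif_neg hi, dif_neg hi', Sum.inr.injEq, Option.some.injEq, Prod.mk.injEq,
          Subtype.mk.injEq] at hh
        rw [hh.1, hh.2]

theorem F4_split_fam {ι : Type} (h : ι → Mob) (i₀ : ι) (x : ℂ) (ν : Option (ι × Fin 3)) :
    Sum.elim (fun κ => EE κ ((h i₀).app x)) (fam (fun i : {i : ι // i ≠ i₀} => h i.1) x)
      (F4_split i₀ ν) = fam h x ν := by
  classical
  rcases ν with _ | ⟨i, κ⟩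
  · rfl
  · unfold F4_split
    by_cases hi : i = i₀
    · simp only [dif_pos hi, Sum.elim_inl]
      rw [hi]
      rfl
    · simp only [dif_neg hi, Sum.elim_inr]
      rfl

/-- the segment -/
def F4_seg (t y : ℂ) (s : ℝ) : ℂ := t + s * (y - t)

theorem F4_seg_cont (t y : ℂ) : Continuous (F4_seg t y) := by
  unfold F4_seg
  fun_prop

theorem F4_aux (n : ℕ) : ∀ {ι : Type} [Finite ι] (_ : Nat.card ι = n) (h : ι → Mob) (t : ℂ)
    (_ : ∀ i, 0 < (h i).N t) (_ : ∀ i j, i ≠ j → (h i).Ne (h j))
    (P : MvPolynomial (Option (ι × Fin 3)) ℂ)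
    (_ : ∀ᶠ x in 𝓝 t, MvPolynomial.eval (fam h x) P = 0), P = 0 := by
  induction n with
  | zero =>
    intro ι _ hn h t _ _ P hP
    have hι : IsEmpty ι := by
      rcases Nat.card_eq_zero.1 hn with h1 | h1
      · exact h1
      · exact absurd h1 (not_infinite_iff_finite.2 inferInstance)
    have h1 : ∀ ν : Option (ι × Fin 3), ν = none := by
      rintro (_ | ⟨i, _⟩)
      · rfl
      · exact (hι.false i).elim
    have h2 : ({x : ℂ | MvPolynomial.eval (fam h x) P = 0}).Infinite :=
      infinite_of_mem_nhds t hP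
    refine MvPolynomial.funext_set
      (fun _ : Option (ι × Fin 3) => {x : ℂ | MvPolynomial.eval (fam h x) P = 0})
      (fun _ => h2) ?_
    intro x hx
    have h3 : x = fam h (x none) := by
      funext ν
      rw [h1 ν]
      rfl
    have h4 : MvPolynomial.eval (fam h (x none)) P = 0 := hx none (Set.mem_univ _)
    rw [map_zero, h3]
    exact h4
  | succ n ih =>
    intro ι _ hn h t hpos hne P hP
    have := Fintype.ofFinite ι
    have hne' : Nonempty ι := (Nat.card_pos_iff.1 (by omega)).1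
    obtain ⟨y, s₀, i₀, hs₀, hseg, hN0, hNi, hden⟩ := exit_point h t hpos hne
    -- the other transformations
    have hcard : Nat.card {i : ι // i ≠ i₀} = n := by
      classical
      have h1 : Nat.card ι = Nat.card {i : ι // i = i₀} + Nat.card {i : ι // ¬ i = i₀} := by
        rw [← Nat.card_sum]
        exact Nat.card_congr (Equiv.sumCompl (fun i => i = i₀)).symm
      have h2 : Nat.card {i : ι // i = i₀} = 1 := by
        rw [Nat.card_eq_fintype_card]
        exact Fintype.card_subtype_eq i₀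
      have h3 : Nat.card {i : ι // i ≠ i₀} = Nat.card {i : ι // ¬ i = i₀} := rfl
      omega
    set h' : {i : ι // i ≠ i₀} → Mob := fun i => h i.1 with hh'
    set H := h i₀ with hH
    let P' : MvPolynomial (Fin 3) (MvPolynomial (Option ({i : ι // i ≠ i₀} × Fin 3)) ℂ) :=
      MvPolynomial.sumAlgEquiv ℂ _ _ (MvPolynomial.rename (F4_split i₀) P)
    have hP' : ∀ x, MvPolynomial.eval (fun κ => EE κ (H.app x))
        (MvPolynomial.map (MvPolynomial.eval (fam h' x)) P') = MvPolynomial.eval (fam h x) P := by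
      intro x
      rw [F4_eval_sum, MvPolynomial.eval_rename]
      congr 2
      funext ν
      exact F4_split_fam h i₀ x ν
    -- it suffices that `P' = 0`
    suffices hmain : P' = 0 by
      have h1 : MvPolynomial.rename (F4_split i₀) P = 0 := by
        apply (MvPolynomial.sumAlgEquiv ℂ (Fin 3) (Option ({i : ι // i ≠ i₀} × Fin 3))).injective
        rw [map_zero]
        exact hmain
      exact MvPolynomial.rename_injective _ (F4_split_inj i₀) (by rw [h1, map_zero])
    -- the disc `V`
    set xs : ℂ := F4_seg t y s₀ with hxs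
    have hden' : H.c * xs + H.e ≠ 0 := hden
    have hN0' : H.N xs = 0 := hN0
    have hNi' : ∀ i, i ≠ i₀ → 0 < (h i).N xs := hNi
    obtain ⟨hz1, hz2⟩ := F4_inv1 H xs hden'
    have him : (H.app xs).im = 0 := by
      rw [H.im_app xs hden', hN0', zero_div]
    have hev : ∀ᶠ z in 𝓝 (H.app xs), H.a - H.c * z ≠ 0 ∧
        ∀ i : {i : ι // i ≠ i₀}, 0 < (h' i).N (F4_inv H z) := by
      refine Filter.Eventually.and ?_ (Filter.eventually_all.2 fun i => ?_)
      · have hc : ContinuousAt (fun z => H.a - H.c * z) (H.app xs) := by fun_prop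
        exact hc.eventually_ne hz1
      · have hN : Continuous (h' i).N := (h' i).continuous_N
        have hc : ContinuousAt ((h' i).N ∘ F4_inv H) (H.app xs) :=
          (hN.continuousAt).comp (F4_inv_continuousAt H _ hz1)
        have h5 : 0 < ((h' i).N ∘ F4_inv H) (H.app xs) := by
          show 0 < (h' i).N (F4_inv H (H.app xs))
          rw [hz2]
          exact hNi' i.1 i.2
        exact hc.eventually (lt_mem_nhds h5)
    obtain ⟨ρ, hρ, hV⟩ := Metric.eventually_nhds_iff_ball.1 hev
    set V : Set ℂ := Metric.ball (H.app xs) ρ with hVdef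
    have hψc : ContinuousOn (F4_inv H) V := fun z hz =>
      (F4_inv_continuousAt H z (hV z hz).1).continuousWithinAt
    -- a rational point in `V`
    obtain ⟨r, hr⟩ : ∃ r : ℚ, (r : ℂ) ∈ V := by
      obtain ⟨r, hr1, hr2⟩ := exists_rat_btwn (show (H.app xs).re - ρ < (H.app xs).re by linarith)
      refine ⟨r, ?_⟩
      rw [hVdef, Metric.mem_ball, dist_eq_norm]
      have h1 : ((r : ℂ) - H.app xs) = (((r : ℝ) - (H.app xs).re : ℝ) : ℂ) := by
        apply Complex.ext
        · simp
        · simp [him]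
      rw [h1, Complex.norm_real, Real.norm_eq_abs, abs_lt]
      constructor <;> linarith
    set x₁ : ℂ := F4_inv H (r : ℂ) with hx₁
    obtain ⟨hx1, hx2⟩ := F4_inv2 H (r : ℂ) (hV _ hr).1
    -- the function vanishes on the first region
    have hzero : ∀ x ∈ F4_seg t y '' Set.Ico 0 s₀ ∪ F4_inv H '' (V ∩ {z : ℂ | 0 < z.im}),
        MvPolynomial.eval (fam h x) P = 0 := by
      have hsub : ∀ x ∈ F4_seg t y '' Set.Ico 0 s₀ ∪ F4_inv H '' (V ∩ {z : ℂ | 0 < z.im}),
          ∀ i, 0 < (h i).N x := by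
        rintro x (⟨s, hs, rfl⟩ | ⟨z, hz, rfl⟩) i
        · exact hseg s hs.1 hs.2 i
        · by_cases hi : i = i₀
          · rw [hi]
            obtain ⟨h1, h2⟩ := F4_inv2 H z (hV z hz.1).1
            exact F4_N_pos H _ h1 (by rw [h2]; exact hz.2)
          · exact (hV z hz.1).2 ⟨i, hi⟩
      have hpre : IsPreconnected
          (F4_seg t y '' Set.Ico 0 s₀ ∪ F4_inv H '' (V ∩ {z : ℂ | 0 < z.im})) := by
        -- a common point
        have h1 : ContinuousAt (fun s : ℝ => H.app (F4_seg t y s)) s₀ :=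
          ContinuousAt.comp (f := F4_seg t y) (g := H.app)
            (F4_app_analytic H xs hden').continuousAt (F4_seg_cont t y).continuousAt
        have h2 : ∀ᶠ s in 𝓝[<] s₀, H.app (F4_seg t y s) ∈ V :=
          (h1.eventually (Metric.ball_mem_nhds _ hρ)).filter_mono nhdsWithin_le_nhds
        obtain ⟨s, hs1, hs2⟩ := (h2.and (Ico_mem_nhdsLT hs₀)).exists
        have h3 : 0 < H.N (F4_seg t y s) := hseg s hs2.1 hs2.2 i₀
        have h4 := F4_inv1 H _ (H.den_ne _ h3.ne')
        refine IsPreconnected.union (F4_seg t y s) ⟨s, hs2, rfl⟩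
          ⟨H.app (F4_seg t y s), ⟨hs1, F4_im_pos H _ h3⟩, h4.2⟩
          (isPreconnected_Ico.image _ (F4_seg_cont t y).continuousOn)
          (((convex_ball _ _).inter (convex_halfSpace_im_gt 0)).isPreconnected.image _
            (hψc.mono Set.inter_subset_left))
      have han : AnalyticOnNhd ℂ (fun x => MvPolynomial.eval (fam h x) P)
          (F4_seg t y '' Set.Ico 0 s₀ ∪ F4_inv H '' (V ∩ {z : ℂ | 0 < z.im})) := fun x hx =>
        F4_eval_analytic _ x (fun ν => fam_analytic h x (hsub x hx) ν) P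
      have ht : t ∈ F4_seg t y '' Set.Ico 0 s₀ ∪ F4_inv H '' (V ∩ {z : ℂ | 0 < z.im}) := by
        left
        refine ⟨0, ⟨le_rfl, hs₀⟩, ?_⟩
        unfold F4_seg
        simp
      exact fun x hx => han.eqOn_zero_of_preconnected_of_eventuallyEq_zero hpre ht hP hx
    -- elimination at the cusp
    have hcusp : ∀ᶠ x in 𝓝[≠] x₁, MvPolynomial.map (MvPolynomial.eval (fam h' x)) P' = 0 := by
      refine cusp_elim H x₁ hx1 r hx2 (fun x => fam h' x) ?_ P' ?_
      · exact fun ν => fam_analytic h' x₁ (fun i => (hV _ hr).2 i) ν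
      · have h1 : ContinuousAt H.app x₁ := (F4_app_analytic H x₁ hx1).continuousAt
        have h2 : ∀ᶠ x in 𝓝 x₁, H.app x ∈ V := by
          apply h1.eventually
          rw [hx2]
          exact Metric.isOpen_ball.mem_nhds hr
        filter_upwards [h2] with x hx hNx
        rw [hP']
        apply hzero
        right
        exact ⟨H.app x, ⟨hx, F4_im_pos H x hNx⟩, (F4_inv1 H x (H.den_ne x hNx.ne')).2⟩
    -- the coefficients vanish near `t`
    apply MvPolynomial.ext
    intro m
    rw [MvPolynomial.coeff_zero]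
    apply ih hcard h' t (fun i => hpos i.1)
      (fun i j hij => hne i.1 j.1 fun hc => hij (Subtype.ext hc))
    -- a ball around `t`
    have hevt : ∀ᶠ x in 𝓝 t, ∀ i : {i : ι // i ≠ i₀}, 0 < (h' i).N x :=
      Filter.eventually_all.2 fun i =>
        (h' i).continuous_N.continuousAt.eventually (lt_mem_nhds (hpos i.1))
    obtain ⟨δ, hδ, hB⟩ := Metric.eventually_nhds_iff_ball.1 hevt
    set U : Set ℂ := Metric.ball t δ ∪ (F4_seg t y '' Set.Icc 0 s₀ ∪ F4_inv H '' V) with hU
    have hsub : ∀ x ∈ U, ∀ i : {i : ι // i ≠ i₀}, 0 < (h' i).N x := by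
      rintro x (hx | ⟨s, hs, rfl⟩ | ⟨z, hz, rfl⟩) i
      · exact hB x hx i
      · rcases hs.2.lt_or_eq with h1 | h1
        · exact hseg s hs.1 h1 i.1
        · rw [h1]
          exact hNi' i.1 i.2
      · exact (hV z hz).2 i
    have hpre : IsPreconnected U := by
      refine IsPreconnected.union t (Metric.mem_ball_self hδ) (Or.inl ⟨0, ⟨le_rfl, hs₀.le⟩, ?_⟩)
        (convex_ball _ _).isPreconnected ?_
      · unfold F4_seg
        simp
      · refine IsPreconnected.union xs ⟨s₀, ⟨hs₀.le, le_rfl⟩, rfl⟩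
          ⟨H.app xs, Metric.mem_ball_self hρ, hz2⟩
          (isPreconnected_Icc.image _ (F4_seg_cont t y).continuousOn)
          ((convex_ball _ _).isPreconnected.image _ hψc)
    have han : AnalyticOnNhd ℂ (fun x => MvPolynomial.eval (fam h' x) (MvPolynomial.coeff m P')) U :=
      fun x hx => F4_eval_analytic _ x (fun ν => fam_analytic h' x (hsub x hx) ν) _
    have hfr : ∃ᶠ x in 𝓝[≠] x₁,
        MvPolynomial.eval (fam h' x) (MvPolynomial.coeff m P') = 0 := by
      apply Filter.Eventually.frequently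
      filter_upwards [hcusp] with x hx
      rw [← MvPolynomial.coeff_map, hx, MvPolynomial.coeff_zero]
    have hmem : x₁ ∈ U := Or.inr (Or.inr ⟨(r : ℂ), hr, rfl⟩)
    have hfin := han.eqOn_zero_of_preconnected_of_frequently_eq_zero hpre hmem hfr
    filter_upwards [Metric.ball_mem_nhds t hδ] with x hx
    exact hfin (Or.inl hx)

/-- F4. Induction on the number of Möbius transformations. -/
theorem func_indep {ι : Type} [Finite ι] (h : ι → Mob) (t : ℂ) (hpos : ∀ i, 0 < (h i).N t)
    (hne : ∀ i j, i ≠ j → (h i).Ne (h j)) (P : MvPolynomial (Option (ι × Fin 3)) ℂ)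
    (hP : ∀ᶠ x in 𝓝 t, MvPolynomial.eval (fam h x) P = 0) : P = 0 :=
  F4_aux _ rfl h t hpos hne P hP

end Pool.Agent.MSD
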