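import Pool.Agent.Lib.MP_f58a57_nt.F5_Shift
import Pool.Agent.Lib.MP_f58a57_nt.F4_Indep

/-! # F5b: the family famS (MP_f58a57_nt) -/

open Complex ModularForm EisensteinSeries Filter
open UpperHalfPlane hiding I
open scoped Topology MatrixGroups

noncomputable section

namespace Pool.Agent.MSD

namespace F5b

theorem den_ne (h : Mob) (x : ℂ) (hN : 0 < h.N x) : h.c * x + h.e ≠ 0 := by
  intro h0
  unfold Mob.N at hN
  rw [h0] at hN
  simp at hN

theorem denbar_ne (h : Mob) (t : ℝ) (hN : 0 < h.N (t : ℂ)) :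
    (starRingEnd ℂ) h.c * (t : ℂ) + (starRingEnd ℂ) h.e ≠ 0 := by
  intro h0
  apply den_ne h t hN
  have h1 : (starRingEnd ℂ) ((starRingEnd ℂ) h.c * (t : ℂ) + (starRingEnd ℂ) h.e) = 0 := by
    rw [h0, map_zero]
  simpa [map_add, map_mul, Complex.conj_conj, Complex.conj_ofReal] using h1

/-- the polynomial `V` -/
def VV (h : Mob) : Polynomial ℂ :=
  (Polynomial.C h.a * Polynomial.X + Polynomial.C h.b) *
      (Polynomial.C ((starRingEnd ℂ) h.c) * Polynomial.X + Polynomial.C ((starRingEnd ℂ) h.e)) -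
    (Polynomial.C ((starRingEnd ℂ) h.a) * Polynomial.X + Polynomial.C ((starRingEnd ℂ) h.b)) *
      (Polynomial.C h.c * Polynomial.X + Polynomial.C h.e)

/-- the polynomial `U` up to a constant -/
def UU (h : Mob) : Polynomial ℂ :=
  (Polynomial.C h.c * Polynomial.X + Polynomial.C h.e) *
      (Polynomial.C ((starRingEnd ℂ) h.c) * Polynomial.X + Polynomial.C ((starRingEnd ℂ) h.e))

theorem VV_eval (h : Mob) (x : ℂ) : (VV h).eval x =
    (h.a * x + h.b) * ((starRingEnd ℂ) h.c * x + (starRingEnd ℂ) h.e) -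
      ((starRingEnd ℂ) h.a * x + (starRingEnd ℂ) h.b) * (h.c * x + h.e) := by
  simp [VV]

theorem UU_eval (h : Mob) (x : ℂ) : (UU h).eval x =
    (h.c * x + h.e) * ((starRingEnd ℂ) h.c * x + (starRingEnd ℂ) h.e) := by
  simp [UU]

theorem VV_real (h : Mob) (t : ℝ) : (VV h).eval (t : ℂ) = 2 * I * (h.N (t : ℂ) : ℂ) := by
  rw [VV_eval]
  unfold Mob.N
  have h1 : (starRingEnd ℂ) (h.c * (t : ℂ) + h.e) = (starRingEnd ℂ) h.c * (t : ℂ) + (starRingEnd ℂ) h.e := by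
    simp [map_add, map_mul]
  have h2 : ((starRingEnd ℂ) h.a * (t : ℂ) + (starRingEnd ℂ) h.b) * (h.c * (t : ℂ) + h.e) =
      (starRingEnd ℂ) ((h.a * (t : ℂ) + h.b) * ((starRingEnd ℂ) (h.c * (t : ℂ) + h.e))) := by
    simp [map_add, map_mul]
  rw [h2, ← h1, Complex.sub_conj]
  push_cast
  ring

theorem VV_ne (h : Mob) (t : ℝ) (hN : 0 < h.N (t : ℂ)) : (VV h).eval (t : ℂ) ≠ 0 := by
  rw [VV_real]
  have : (h.N (t : ℂ) : ℂ) ≠ 0 := by exact_mod_cast hN.ne'
  exact mul_ne_zero (mul_ne_zero two_ne_zero I_ne_zero) this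

theorem diff_eq (h : Mob) (x : ℂ) (h1 : h.c * x + h.e ≠ 0)
    (h2 : (starRingEnd ℂ) h.c * x + (starRingEnd ℂ) h.e ≠ 0) :
    h.app x - h.bar x = (VV h).eval x / (UU h).eval x := by
  rw [VV_eval, UU_eval]
  unfold Mob.app Mob.bar
  rw [div_sub_div _ _ h1 h2]
  congr 1
  ring

theorem ev_ne (h : Mob) (t : ℝ) (hN : 0 < h.N (t : ℂ)) :
    ∀ᶠ x in 𝓝 (t : ℂ), h.c * x + h.e ≠ 0 ∧ (starRingEnd ℂ) h.c * x + (starRingEnd ℂ) h.e ≠ 0 := by
  have c1 : Continuous fun x : ℂ => h.c * x + h.e := by fun_prop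
  have c2 : Continuous fun x : ℂ => (starRingEnd ℂ) h.c * x + (starRingEnd ℂ) h.e := by fun_prop
  exact (c1.continuousAt.eventually_ne (den_ne h t hN)).and (c2.continuousAt.eventually_ne (denbar_ne h t hN))

end F5b

open F5b in
/-- F5b. Independence and analyticity of `famS` at a real point. (`h(x) - h̄(x) = 2i Im h(t) ≠ 0` at `x = t` real.) -/
theorem famS_indep {ι : Type} [Finite ι] (h : ι → Mob) (Ω : ℂ) (hΩ : Ω ≠ 0) (t : ℝ) (hpos : ∀ i, 0 < (h i).N t)
    (hne : ∀ i j, i ≠ j → (h i).Ne (h j)) (P : MvPolynomial (Option (ι × Fin 3)) ℂ)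
    (hP : ∀ᶠ x in 𝓝 (t : ℂ), MvPolynomial.eval (famS h Ω x) P = 0) : P = 0 := by
  refine indep_shift (J := ι × Fin 3) (fam h) (famS h Ω) (t : ℂ) (fun x => rfl) (fun x => rfl)
    (fun ν => ![1 / Ω ^ 2, 1 / Ω ^ 4, 1 / Ω ^ 6] ν.2) ?_
    (fun ν => ![Polynomial.C (-(6 * I / (Real.pi * Ω ^ 2))) * UU (h ν.1), 0, 0] ν.2)
    (fun ν => ![VV (h ν.1), 1, 1] ν.2) ?_ ?_ ?_ P hP
  · rintro ⟨i, κ⟩
    fin_cases κ <;> simp [hΩ]
  · rintro ⟨i, κ⟩
    have := VV_ne (h i) t (hpos i)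
    fin_cases κ <;> simp [this]
  · have hev : ∀ i, ∀ᶠ x in 𝓝 (t : ℂ), (h i).c * x + (h i).e ≠ 0 ∧
        (starRingEnd ℂ) (h i).c * x + (starRingEnd ℂ) (h i).e ≠ 0 := fun i => ev_ne (h i) t (hpos i)
    have hev2 : ∀ i, ∀ᶠ x in 𝓝 (t : ℂ), (VV (h i)).eval x ≠ 0 := fun i =>
      ((VV (h i)).continuous.continuousAt.eventually_ne (VV_ne (h i) t (hpos i)))
    filter_upwards [eventually_all.2 hev, eventually_all.2 hev2] with x hx hx2
    rintro ⟨i, κ⟩
    fin_cases κ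
    · have e1 := diff_eq (h i) x (hx i).1 (hx i).2
      have hU : (UU (h i)).eval x ≠ 0 := by
        rw [UU_eval]; exact mul_ne_zero (hx i).1 (hx i).2
      have hV := hx2 i
      have hpi : (Real.pi : ℂ) ≠ 0 := by exact_mod_cast Real.pi_ne_zero
      show (e2 ((h i).app x) - 6 * I / (Real.pi * ((h i).app x - (h i).bar x))) / Ω ^ 2 =
        1 / Ω ^ 2 * e2 ((h i).app x) + (Polynomial.C (-(6 * I / (Real.pi * Ω ^ 2))) * UU (h i)).eval x /
          (VV (h i)).eval x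
      rw [e1, Polynomial.eval_mul, Polynomial.eval_C]
      field_simp
      ring
    · show e4 ((h i).app x) / Ω ^ 4 = 1 / Ω ^ 4 * e4 ((h i).app x) + (0 : Polynomial ℂ).eval x /
          (1 : Polynomial ℂ).eval x
      simp
      ring
    · show e6 ((h i).app x) / Ω ^ 6 = 1 / Ω ^ 6 * e6 ((h i).app x) + (0 : Polynomial ℂ).eval x /
          (1 : Polynomial ℂ).eval x
      simp
      ring
  · intro Q hQ
    exact func_indep h t hpos hne Q hQ

open F5b in
theorem famS_analytic {ι : Type} (h : ι → Mob) (Ω : ℂ) (t : ℝ) (hpos : ∀ i, 0 < (h i).N t)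
    (ν : Option (ι × Fin 3)) : AnalyticAt ℂ (fun x => famS h Ω x ν) (t : ℂ) := by
  match ν with
  | none => exact analyticAt_id
  | some (i, κ) =>
    have hf := fam_analytic h (t : ℂ) hpos (some (i, κ))
    have hdiv : ∀ (n : ℕ) (f : ℂ → ℂ), AnalyticAt ℂ f (t : ℂ) → AnalyticAt ℂ (fun x => f x / Ω ^ n) (t : ℂ) := by
      intro n f hf
      simp only [div_eq_mul_inv]
      exact hf.mul analyticAt_const
    fin_cases κ
    · have h1 := den_ne (h i) t (hpos i)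
      have h2 := denbar_ne (h i) t (hpos i)
      have ha : AnalyticAt ℂ (fun x : ℂ => (h i).app x - (h i).bar x) (t : ℂ) := by
        unfold Mob.app Mob.bar
        refine AnalyticAt.sub (AnalyticAt.div ?_ ?_ h1) (AnalyticAt.div ?_ ?_ h2) <;> fun_prop
      have hne : (h i).app (t : ℂ) - (h i).bar (t : ℂ) ≠ 0 := by
        rw [diff_eq (h i) t h1 h2]
        refine div_ne_zero (VV_ne (h i) t (hpos i)) ?_
        rw [UU_eval]
        exact mul_ne_zero h1 h2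
      have hpi : (Real.pi : ℂ) ≠ 0 := by exact_mod_cast Real.pi_ne_zero
      have hg : AnalyticAt ℂ (fun x : ℂ => e2 ((h i).app x) - 6 * I / (Real.pi * ((h i).app x - (h i).bar x)))
          (t : ℂ) := by
        refine AnalyticAt.sub hf (AnalyticAt.div analyticAt_const (analyticAt_const.mul ha) (mul_ne_zero hpi hne))
      exact hdiv 2 _ hg
    · exact hdiv 4 _ hf
    · exact hdiv 6 _ hf

/-- F5c. At real points `famS` has the values `e2s/Ω², e4/Ω⁴, e6/Ω⁶`. -/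
theorem famS_real {ι : Type} (h : ι → Mob) (Ω : ℂ) (x : ℝ) (i : ι) (κ : Fin 3) (hpos : 0 < (h i).N (x : ℂ)) :
    famS h Ω (x : ℂ) (some (i, κ)) =
      ![e2s ((h i).app (x : ℂ)) / Ω ^ 2, e4 ((h i).app (x : ℂ)) / Ω ^ 4, e6 ((h i).app (x : ℂ)) / Ω ^ 6] κ := by
  fin_cases κ
  · show (e2 ((h i).app x) - 6 * I / (Real.pi * ((h i).app x - (h i).bar x))) / Ω ^ 2 =
      e2s ((h i).app (x : ℂ)) / Ω ^ 2
    have hb : (h i).bar (x : ℂ) = (starRingEnd ℂ) ((h i).app (x : ℂ)) := by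
      unfold Mob.bar Mob.app
      simp [map_div₀, map_add, map_mul]
    rw [hb, Complex.sub_conj]
    unfold e2s
    congr 1
    congr 1
    set y := ((h i).app (x : ℂ)).im with hy
    by_cases hy0 : y = 0
    · simp [hy0]
    · have hpi : (Real.pi : ℂ) ≠ 0 := by exact_mod_cast Real.pi_ne_zero
      have hyc : (y : ℂ) ≠ 0 := by exact_mod_cast hy0
      push_cast
      field_simp
      ring
  · rfl
  · rfl

end Pool.Agent.MSD
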