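import Pool.Agent.Lib.MP_f58a57_nt.Defs

/-! # F6: nonvanishing along flags (MP_f58a57_nt) -/

open Complex ModularForm EisensteinSeries Filter
open UpperHalfPlane hiding I
open scoped Topology MatrixGroups

noncomputable section

namespace Pool.Agent.MSD

/-- finite Taylor expansion with analytic remainder -/
theorem F6_taylor (n : ℕ) : ∀ (f : ℂ → ℂ) (p : FormalMultilinearSeries ℂ ℂ ℂ) (t : ℂ),
    HasFPowerSeriesAt f p t → ∃ r : ℂ → ℂ, AnalyticAt ℂ r t ∧
      ∀ x, f x = ∑ i ∈ Finset.range n, p.coeff i * (x - t) ^ i + (x - t) ^ n * r x := by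
  induction n with
  | zero =>
    intro f p t hf
    exact ⟨f, hf.analyticAt, fun x => by simp⟩
  | succ n ih =>
    intro f p t hf
    obtain ⟨r, hr, h⟩ := ih _ _ t hf.has_fpower_series_dslope_fslope
    refine ⟨r, hr, fun x => ?_⟩
    have h0 : p.coeff 0 = f t := hf.coeff_zero 1
    have h1 : f x = f t + (x - t) * dslope f t x := by
      have := sub_smul_dslope f t x
      rw [smul_eq_mul] at this
      rw [this]
      ring
    rw [h1, h x, Finset.sum_range_succ', h0]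
    simp only [FormalMultilinearSeries.coeff_fslope]
    rw [mul_add, Finset.mul_sum]
    have h2 : ∑ i ∈ Finset.range n, (x - t) * (p.coeff (i + 1) * (x - t) ^ i) =
        ∑ i ∈ Finset.range n, p.coeff (i + 1) * (x - t) ^ (i + 1) :=
      Finset.sum_congr rfl (fun i _ => by ring)
    rw [h2]
    ring

/-- a polynomial in the first group of functions with polynomial coefficients -/
theorem F6_core {σ τ : Type} (Q : MvPolynomial σ (MvPolynomial τ ℂ)) (hQ : Q ≠ 0)
    (φ : ℂ → σ → ℂ) (t : ℂ) (hφ : ∀ ν, AnalyticAt ℂ (fun x => φ x ν) t)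
    (hind : ∀ P : MvPolynomial σ ℂ, (∀ᶠ x in 𝓝 t, MvPolynomial.eval (φ x) P = 0) → P = 0) :
    ∃ (j : ℕ) (lam : MvPolynomial τ ℂ) (r : (σ →₀ ℕ) → ℂ → ℂ), lam ≠ 0 ∧
      (∀ m, AnalyticAt ℂ (r m) t) ∧ ∀ (x : ℂ) (ψ : τ → ℂ),
        MvPolynomial.eval₂ (MvPolynomial.eval ψ) (φ x) Q =
          (x - t) ^ j * (MvPolynomial.eval ψ lam +
            (x - t) * ∑ m ∈ Q.support, MvPolynomial.eval ψ (Q.coeff m) * r m x) := by
  classical
  -- the monomials
  set f : (σ →₀ ℕ) → ℂ → ℂ := fun m x => ∏ ν ∈ m.support, φ x ν ^ m ν with hf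
  have hfa : ∀ m, AnalyticAt ℂ (f m) t := by
    intro m
    exact Finset.analyticAt_fun_prod _ (fun ν _ => (hφ ν).pow _)
  choose p hp using hfa
  have hev : ∀ (x : ℂ) (ψ : τ → ℂ), MvPolynomial.eval₂ (MvPolynomial.eval ψ) (φ x) Q =
      ∑ m ∈ Q.support, MvPolynomial.eval ψ (Q.coeff m) * f m x := by
    intro x ψ
    rw [MvPolynomial.eval₂_eq]
  -- coefficients
  set lm : ℕ → MvPolynomial τ ℂ := fun i => ∑ m ∈ Q.support, MvPolynomial.C ((p m).coeff i) * Q.coeff m
    with hlm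
  have hex : ∃ i, lm i ≠ 0 := by
    by_contra hcon
    push Not at hcon
    apply hQ
    ext m b
    rw [MvPolynomial.coeff_zero, MvPolynomial.coeff_zero]
    by_cases hm : m ∈ Q.support
    swap
    · rw [MvPolynomial.notMem_support_iff.1 hm, MvPolynomial.coeff_zero]
    -- the polynomial with the coefficients at `b`
    set R : MvPolynomial σ ℂ := ∑ m ∈ Q.support, MvPolynomial.monomial m ((Q.coeff m).coeff b)
      with hR
    have hRe : ∀ x, MvPolynomial.eval (φ x) R = ∑ m ∈ Q.support, (Q.coeff m).coeff b * f m x := by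
      intro x
      rw [hR, map_sum]
      refine Finset.sum_congr rfl fun m _ => ?_
      rw [MvPolynomial.eval_monomial]
      rfl
    have hRa : AnalyticAt ℂ (fun x => MvPolynomial.eval (φ x) R) t := by
      have : (fun x => MvPolynomial.eval (φ x) R) =
          fun x => ∑ m ∈ Q.support, (Q.coeff m).coeff b * f m x := funext hRe
      rw [this]
      exact Finset.analyticAt_fun_sum _ (fun m _ => analyticAt_const.mul (hp m).analyticAt)
    have hR0 : R = 0 := by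
      apply hind
      rw [← analyticOrderAt_eq_top]
      by_contra hne
      obtain ⟨n, hn⟩ := ENat.ne_top_iff_exists.1 hne
      have hle : ((n + 1 : ℕ) : ℕ∞) ≤ analyticOrderAt (fun x => MvPolynomial.eval (φ x) R) t := by
        rw [natCast_le_analyticOrderAt hRa]
        choose r hr hr' using fun m => F6_taylor (n + 1) _ _ t (hp m)
        refine ⟨fun x => ∑ m ∈ Q.support, (Q.coeff m).coeff b * r m x,
          Finset.analyticAt_fun_sum _ (fun m _ => analyticAt_const.mul (hr m)),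
          Eventually.of_forall fun x => ?_⟩
        have h1 : MvPolynomial.eval (φ x) R = ∑ m ∈ Q.support, (Q.coeff m).coeff b *
            (∑ i ∈ Finset.range (n + 1), (p m).coeff i * (x - t) ^ i + (x - t) ^ (n + 1) * r m x) := by
          rw [hRe]
          exact Finset.sum_congr rfl fun m _ => by rw [hr' m x]
        have h2 : ∑ m ∈ Q.support, (Q.coeff m).coeff b *
            ∑ i ∈ Finset.range (n + 1), (p m).coeff i * (x - t) ^ i = 0 := by
          simp only [Finset.mul_sum]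
          rw [Finset.sum_comm]
          refine Finset.sum_eq_zero fun i _ => ?_
          have h3 := congrArg (MvPolynomial.coeff b) (hcon i)
          rw [hlm] at h3
          simp only [MvPolynomial.coeff_sum, MvPolynomial.coeff_C_mul, MvPolynomial.coeff_zero] at h3
          have h4 : ∑ m ∈ Q.support, (Q.coeff m).coeff b * ((p m).coeff i * (x - t) ^ i) =
              (∑ m ∈ Q.support, (p m).coeff i * (Q.coeff m).coeff b) * (x - t) ^ i := by
            rw [Finset.sum_mul]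
            exact Finset.sum_congr rfl fun m _ => by ring
          rw [h4, h3, zero_mul]
        show MvPolynomial.eval (φ x) R = (x - t) ^ (n + 1) •
          ∑ m ∈ Q.support, (Q.coeff m).coeff b * r m x
        rw [h1]
        simp only [mul_add, Finset.sum_add_distrib]
        rw [h2, zero_add, smul_eq_mul, Finset.mul_sum]
        exact Finset.sum_congr rfl fun m _ => by ring
      rw [← hn] at hle
      have : n + 1 ≤ n := by exact_mod_cast hle
      omega
    have h5 := congrArg (MvPolynomial.coeff m) hR0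
    rw [hR, MvPolynomial.coeff_sum, MvPolynomial.coeff_zero] at h5
    simp only [MvPolynomial.coeff_monomial] at h5
    rw [Finset.sum_ite_eq' Q.support m, if_pos hm] at h5
    exact h5
  -- the first nonzero coefficient
  set j := Nat.find hex with hj
  have hj1 : lm j ≠ 0 := Nat.find_spec hex
  have hj2 : ∀ i < j, lm i = 0 := fun i hi => by
    by_contra h
    exact Nat.find_min hex hi h
  choose r hr hr' using fun m => F6_taylor (j + 1) _ _ t (hp m)
  refine ⟨j, lm j, r, hj1, hr, fun x ψ => ?_⟩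
  rw [hev]
  have h1 : ∑ m ∈ Q.support, MvPolynomial.eval ψ (Q.coeff m) * f m x =
      ∑ m ∈ Q.support, MvPolynomial.eval ψ (Q.coeff m) *
        (∑ i ∈ Finset.range (j + 1), (p m).coeff i * (x - t) ^ i + (x - t) ^ (j + 1) * r m x) :=
    Finset.sum_congr rfl fun m _ => by rw [hr' m x]
  rw [h1]
  simp only [mul_add, Finset.sum_add_distrib]
  have h2 : ∑ m ∈ Q.support, MvPolynomial.eval ψ (Q.coeff m) *
      ∑ i ∈ Finset.range (j + 1), (p m).coeff i * (x - t) ^ i =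
        (x - t) ^ j * MvPolynomial.eval ψ (lm j) := by
    simp only [Finset.mul_sum]
    rw [Finset.sum_comm]
    have h3 : ∀ i, ∑ m ∈ Q.support, MvPolynomial.eval ψ (Q.coeff m) *
        ((p m).coeff i * (x - t) ^ i) = (x - t) ^ i * MvPolynomial.eval ψ (lm i) := by
      intro i
      rw [hlm]
      simp only [map_sum, map_mul, MvPolynomial.eval_C]
      rw [Finset.mul_sum]
      exact Finset.sum_congr rfl fun m _ => by ring
    simp only [h3]
    rw [Finset.sum_range_succ, Finset.sum_eq_zero, zero_add]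
    intro i hi
    rw [hj2 i (Finset.mem_range.1 hi), map_zero, mul_zero]
  rw [h2]
  congr 1
  rw [Finset.mul_sum, Finset.mul_sum]
  exact Finset.sum_congr rfl fun m _ => by ring

/-- splitting off the first group of variables -/
theorem F6_split {s : ℕ} {N : Fin (s + 1) → Type} (P : MvPolynomial (Σ l, N l) ℂ) (hP : P ≠ 0) :
    ∃ Q : MvPolynomial (N 0) (MvPolynomial (Σ l : Fin s, N l.succ) ℂ), Q ≠ 0 ∧
      ∀ v : (Σ l, N l) → ℂ, MvPolynomial.eval v P =
        MvPolynomial.eval₂ (MvPolynomial.eval fun p : (Σ l : Fin s, N l.succ) => v ⟨p.1.succ, p.2⟩)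
          (fun ν => v ⟨0, ν⟩) Q := by
  classical
  let g : (Σ l, N l) → MvPolynomial (N 0) (MvPolynomial (Σ l : Fin s, N l.succ) ℂ) := fun p =>
    Fin.cases (motive := fun l => N l → MvPolynomial (N 0) (MvPolynomial (Σ l : Fin s, N l.succ) ℂ))
      (fun ν => MvPolynomial.X ν) (fun l ν => MvPolynomial.C (MvPolynomial.X ⟨l, ν⟩)) p.1 p.2
  let Ψ : MvPolynomial (Σ l, N l) ℂ →+*
      MvPolynomial (N 0) (MvPolynomial (Σ l : Fin s, N l.succ) ℂ) :=
    MvPolynomial.eval₂Hom (MvPolynomial.C.comp MvPolynomial.C) g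
  let Φ : MvPolynomial (N 0) (MvPolynomial (Σ l : Fin s, N l.succ) ℂ) →+*
      MvPolynomial (Σ l, N l) ℂ :=
    MvPolynomial.eval₂Hom (MvPolynomial.rename (fun p : (Σ l : Fin s, N l.succ) =>
      (⟨p.1.succ, p.2⟩ : Σ l, N l))).toRingHom (fun ν => MvPolynomial.X ⟨0, ν⟩)
  have hΦΨ : Φ.comp Ψ = RingHom.id _ := by
    apply MvPolynomial.ringHom_ext
    · intro c
      simp [Φ, Ψ]
    · rintro ⟨l, ν⟩
      induction l using Fin.cases with
      | zero => simp [Φ, Ψ, g]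
      | succ l => simp [Φ, Ψ, g]
  refine ⟨Ψ P, fun h => hP ?_, fun v => ?_⟩
  · have := congrArg (fun F : MvPolynomial (Σ l, N l) ℂ →+* MvPolynomial (Σ l, N l) ℂ => F P) hΦΨ
    simp only [RingHom.comp_apply, h, map_zero, RingHom.id_apply] at this
    exact this.symm
  · have h1 : MvPolynomial.eval v = (MvPolynomial.eval₂Hom
        (MvPolynomial.eval fun p : (Σ l : Fin s, N l.succ) => v ⟨p.1.succ, p.2⟩)
        (fun ν => v ⟨0, ν⟩)).comp Ψ := by
      apply MvPolynomial.ringHom_ext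
      · intro c
        simp [Ψ]
      · rintro ⟨l, ν⟩
        induction l using Fin.cases with
        | zero => simp [Ψ, g]
        | succ l => simp [Ψ, g]
    rw [h1]
    rfl

/-- the step: a lower bound for all super-small sequences in the other groups gives the bound -/
theorem F6_step {s : ℕ} {N : Fin (s + 1) → Type} {φ : ∀ l, ℂ → N l → ℂ} {t : Fin (s + 1) → ℂ}
    (hφ : ∀ l ν, AnalyticAt ℂ (fun x => φ l x ν) (t l))
    (hind : ∀ P : MvPolynomial (N 0) ℂ, (∀ᶠ x in 𝓝 (t 0), MvPolynomial.eval (φ 0 x) P = 0) → P = 0)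
    {x : ℕ → Fin (s + 1) → ℂ} (hx : ∀ l, Tendsto (fun k => x k l) atTop (𝓝 (t l)))
    (hflag : ∀ C : ℕ, ∀ᶠ k in atTop, ∀ l : Fin s, ‖x k 0 - t 0‖ ≤ ‖x k l.succ - t l.succ‖ ^ C)
    (ih : ∀ lam : MvPolynomial (Σ l : Fin s, N l.succ) ℂ, lam ≠ 0 → ∀ u : ℕ → ℝ,
      Tendsto u atTop (𝓝 0) →
      (∀ C : ℕ, ∀ᶠ k in atTop, ∀ l : Fin s, u k ≤ ‖x k l.succ - t l.succ‖ ^ C) →
      ∀ᶠ k in atTop, u k ≤ ‖MvPolynomial.eval (fun p : (Σ l : Fin s, N l.succ) =>
        φ p.1.succ (x k p.1.succ) p.2) lam‖)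
    (P : MvPolynomial (Σ l, N l) ℂ) (hP : P ≠ 0) :
    ∃ M : ℕ, ∀ᶠ k in atTop, ‖x k 0 - t 0‖ ^ M ≤
      ‖MvPolynomial.eval (fun p : (Σ l, N l) => φ p.1 (x k p.1) p.2) P‖ := by
  classical
  obtain ⟨Q, hQ, hev⟩ := F6_split P hP
  obtain ⟨j, lam, r, hlam, hr, hcore⟩ := F6_core Q hQ (φ 0) (t 0) (hφ 0) hind
  refine ⟨j + 1, ?_⟩
  set ψ : ℕ → (Σ l : Fin s, N l.succ) → ℂ := fun k p => φ p.1.succ (x k p.1.succ) p.2 with hψ
  set ψ0 : (Σ l : Fin s, N l.succ) → ℂ := fun p => φ p.1.succ (t p.1.succ) p.2 with hψ0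
  have hψt : Tendsto ψ atTop (𝓝 ψ0) := by
    rw [tendsto_pi_nhds]
    intro p
    exact (hφ p.1.succ p.2).continuousAt.tendsto.comp (hx p.1.succ)
  set R : ℕ → ℂ := fun k => ∑ m ∈ Q.support, MvPolynomial.eval (ψ k) (Q.coeff m) * r m (x k 0)
    with hR
  have hRt : Tendsto R atTop (𝓝 (∑ m ∈ Q.support, MvPolynomial.eval ψ0 (Q.coeff m) * r m (t 0))) := by
    apply tendsto_finsetSum
    intro m _
    apply Tendsto.mul
    · exact ((MvPolynomial.continuous_eval (Q.coeff m)).tendsto ψ0).comp hψt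
    · exact (hr m).continuousAt.tendsto.comp (hx 0)
  obtain ⟨K, hK1, hK⟩ : ∃ K : ℝ, 1 ≤ K ∧ ∀ᶠ k in atTop, ‖R k‖ ≤ K := by
    set L := ∑ m ∈ Q.support, MvPolynomial.eval ψ0 (Q.coeff m) * r m (t 0)
    refine ⟨‖L‖ + 1, by linarith [norm_nonneg L], ?_⟩
    filter_upwards [hRt.norm.eventually (gt_mem_nhds (show ‖L‖ < ‖L‖ + 1 by linarith))] with k hk
    exact hk.le
  have ha0 : Tendsto (fun k => ‖x k 0 - t 0‖) atTop (𝓝 0) := by
    have := ((hx 0).sub_const (t 0)).norm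
    simpa using this
  have hlow := ih lam hlam (fun k => 2 * K * ‖x k 0 - t 0‖) (by
    have := ha0.const_mul (2 * K)
    simpa using this) (by
    intro C
    have hsm : ∀ᶠ k in atTop, ∀ l : Fin s, 2 * K * ‖x k l.succ - t l.succ‖ ≤ 1 := by
      rw [eventually_all]
      intro l
      have h1 : Tendsto (fun k => 2 * K * ‖x k l.succ - t l.succ‖) atTop (𝓝 0) := by
        have := (((hx l.succ).sub_const (t l.succ)).norm).const_mul (2 * K)
        simpa using this
      filter_upwards [h1.eventually (gt_mem_nhds one_pos)] with k hk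
      exact hk.le
    filter_upwards [hsm, hflag (C + 1)] with k h1 h2 l
    calc 2 * K * ‖x k 0 - t 0‖ ≤ 2 * K * ‖x k l.succ - t l.succ‖ ^ (C + 1) :=
          mul_le_mul_of_nonneg_left (h2 l) (by linarith)
      _ = (2 * K * ‖x k l.succ - t l.succ‖) * ‖x k l.succ - t l.succ‖ ^ C := by ring
      _ ≤ 1 * ‖x k l.succ - t l.succ‖ ^ C :=
          mul_le_mul_of_nonneg_right (h1 l) (by positivity)
      _ = ‖x k l.succ - t l.succ‖ ^ C := one_mul _)
  filter_upwards [hlow, hK] with k h1 h2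
  rw [hev]
  have h3 := hcore (x k 0) (ψ k)
  have h4 : MvPolynomial.eval₂ (MvPolynomial.eval fun p : (Σ l : Fin s, N l.succ) =>
      (fun p : (Σ l, N l) => φ p.1 (x k p.1) p.2) ⟨p.1.succ, p.2⟩)
      (fun ν => (fun p : (Σ l, N l) => φ p.1 (x k p.1) p.2) ⟨0, ν⟩) Q =
      (x k 0 - t 0) ^ j * (MvPolynomial.eval (ψ k) lam + (x k 0 - t 0) * R k) := h3
  rw [h4, norm_mul, norm_pow, pow_succ]
  apply mul_le_mul_of_nonneg_left _ (by positivity)
  have h5 : ‖(x k 0 - t 0) * R k‖ ≤ K * ‖x k 0 - t 0‖ := by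
    rw [norm_mul, mul_comm]
    exact mul_le_mul_of_nonneg_right h2 (norm_nonneg _)
  have h6 : ‖MvPolynomial.eval (ψ k) lam‖ ≤
      ‖MvPolynomial.eval (ψ k) lam + (x k 0 - t 0) * R k‖ + ‖(x k 0 - t 0) * R k‖ := by
    have := norm_sub_le (MvPolynomial.eval (ψ k) lam + (x k 0 - t 0) * R k)
      ((x k 0 - t 0) * R k)
    rwa [add_sub_cancel_right] at this
  have h7 : 2 * K * ‖x k 0 - t 0‖ ≤ ‖MvPolynomial.eval (ψ k) lam‖ := h1
  nlinarith [norm_nonneg (x k 0 - t 0)]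

/-- lower bound by super-small sequences -/
theorem F6_low (s : ℕ) : ∀ (N : Fin s → Type) (φ : ∀ l, ℂ → N l → ℂ) (t : Fin s → ℂ)
    (_ : ∀ l ν, AnalyticAt ℂ (fun x => φ l x ν) (t l))
    (_ : ∀ l, ∀ P : MvPolynomial (N l) ℂ, (∀ᶠ x in 𝓝 (t l), MvPolynomial.eval (φ l x) P = 0) → P = 0)
    (x : ℕ → Fin s → ℂ) (_ : ∀ l, Tendsto (fun k => x k l) atTop (𝓝 (t l)))
    (_ : ∀ C : ℕ, ∀ᶠ k in atTop, ∀ l l', l < l' → ‖x k l - t l‖ ≤ ‖x k l' - t l'‖ ^ C)
    (P : MvPolynomial (Σ l, N l) ℂ), P ≠ 0 → ∀ u : ℕ → ℝ, Tendsto u atTop (𝓝 0) →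
      (∀ C : ℕ, ∀ᶠ k in atTop, ∀ l : Fin s, u k ≤ ‖x k l - t l‖ ^ C) →
      ∀ᶠ k in atTop, u k ≤ ‖MvPolynomial.eval (fun p : (Σ l, N l) => φ p.1 (x k p.1) p.2) P‖ := by
  induction s with
  | zero =>
    intro N φ t hφ hind x hx hflag P hP u hu hu'
    obtain ⟨c, rfl⟩ := MvPolynomial.C_surjective (Σ l : Fin 0, N l) P
    have hc : c ≠ 0 := fun h => hP (by rw [h, map_zero])
    filter_upwards [hu.eventually (gt_mem_nhds (norm_pos_iff.2 hc))] with k hk
    rw [MvPolynomial.eval_C]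
    exact hk.le
  | succ s ih =>
    intro N φ t hφ hind x hx hflag P hP u hu hu'
    obtain ⟨M, hM⟩ := F6_step hφ (hind 0) hx
      (fun C => (hflag C).mono fun k hk l => hk 0 l.succ (Fin.succ_pos l))
      (ih (fun l => N l.succ) (fun l => φ l.succ) (fun l => t l.succ) (fun l => hφ l.succ)
        (fun l => hind l.succ) (fun k l => x k l.succ) (fun l => hx l.succ)
        (fun C => (hflag C).mono fun k hk l l' hll => hk l.succ l'.succ (Fin.succ_lt_succ_iff.2 hll)))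
      P hP
    filter_upwards [hM, hu' M] with k h1 h2
    exact (h2 0).trans h1

theorem flag_lower (s : ℕ) (N : Fin (s + 1) → Type) [∀ l, Finite (N l)] (φ : ∀ l, ℂ → N l → ℂ) (t : Fin (s + 1) → ℂ)
    (hφ : ∀ l ν, AnalyticAt ℂ (fun x => φ l x ν) (t l))
    (hind : ∀ l, ∀ P : MvPolynomial (N l) ℂ, (∀ᶠ x in 𝓝 (t l), MvPolynomial.eval (φ l x) P = 0) → P = 0)
    (x : ℕ → Fin (s + 1) → ℂ) (hx : ∀ l, Tendsto (fun k => x k l) atTop (𝓝 (t l))) (hne : ∀ l k, x k l ≠ t l)
    (hflag : ∀ C : ℕ, ∀ᶠ k in atTop, ∀ l l', l < l' → ‖x k l - t l‖ ≤ ‖x k l' - t l'‖ ^ C)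
    (P : MvPolynomial (Σ l, N l) ℂ) (hP : P ≠ 0) :
    ∃ M : ℕ, ∀ᶠ k in atTop, ‖x k 0 - t 0‖ ^ M ≤ ‖MvPolynomial.eval (fun p : (Σ l, N l) => φ p.1 (x k p.1) p.2) P‖ := by
  exact F6_step hφ (hind 0) hx
    (fun C => (hflag C).mono fun k hk l => hk 0 l.succ (Fin.succ_pos l))
    (F6_low s (fun l => N l.succ) (fun l => φ l.succ) (fun l => t l.succ) (fun l => hφ l.succ)
      (fun l => hind l.succ) (fun k l => x k l.succ) (fun l => hx l.succ)
      (fun C => (hflag C).mono fun k hk l l' hll => hk l.succ l'.succ (Fin.succ_lt_succ_iff.2 hll)))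
    P hP

theorem flag_nonvanish (s : ℕ) (N : Fin s → Type) [∀ l, Finite (N l)] (φ : ∀ l, ℂ → N l → ℂ) (t : Fin s → ℂ)
    (hφ : ∀ l ν, AnalyticAt ℂ (fun x => φ l x ν) (t l))
    (hind : ∀ l, ∀ P : MvPolynomial (N l) ℂ, (∀ᶠ x in 𝓝 (t l), MvPolynomial.eval (φ l x) P = 0) → P = 0)
    (x : ℕ → Fin s → ℂ) (hx : ∀ l, Tendsto (fun k => x k l) atTop (𝓝 (t l))) (hne : ∀ l k, x k l ≠ t l)
    (hflag : ∀ C : ℕ, ∀ᶠ k in atTop, ∀ l l', l < l' → ‖x k l - t l‖ ≤ ‖x k l' - t l'‖ ^ C)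
    (P : MvPolynomial (Σ l, N l) ℂ) (hP : P ≠ 0) :
    ∀ᶠ k in atTop, MvPolynomial.eval (fun p : (Σ l, N l) => φ p.1 (x k p.1) p.2) P ≠ 0 := by
  cases s with
  | zero =>
    obtain ⟨c, rfl⟩ := MvPolynomial.C_surjective (Σ l : Fin 0, N l) P
    refine Eventually.of_forall fun k => ?_
    rw [MvPolynomial.eval_C]
    intro h
    exact hP (by rw [h, map_zero])
  | succ s =>
    obtain ⟨M, hM⟩ := flag_lower s N φ t hφ hind x hx hne hflag P hP
    filter_upwards [hM] with k hk h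
    rw [h, norm_zero] at hk
    have h1 : 0 < ‖x k 0 - t 0‖ ^ M := pow_pos (norm_pos_iff.2 (sub_ne_zero.2 (hne 0 k))) M
    linarith

end Pool.Agent.MSD
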