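import Mathlib
import Pool.Agent.Lib.MP_f58a57_nt.Defs
import Pool.Agent.Lib.MP_f58a57_nt.FK.K048
import Pool.Agent.Lib.MP_f58a57_nt.FK.K049

/-! # M00: definitions for several variables (MP_f58a57_nt) -/

open Complex ModularForm EisensteinSeries Filter
open UpperHalfPlane hiding I
open scoped Topology MatrixGroups Polynomial

noncomputable section

namespace Pool.Agent.MSD

/-- polynomial with conjugated coefficients -/
def cjP {s d : ℕ} (U : MvPolynomial (Fin s) (KF d)) : MvPolynomial (Fin s) (KF d) := MvPolynomial.map (conjK d) U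

/-- restriction of a polynomial to the curve `x_l = p_l + X^(N^(l+1))` -/
def kr {s d : ℕ} (p : Fin s → ℚ) (N : ℕ) : MvPolynomial (Fin s) (KF d) →ₐ[KF d] Polynomial (KF d) :=
  MvPolynomial.aeval (fun l => Polynomial.C (algebraMap ℚ (KF d) (p l)) + Polynomial.X ^ (N ^ (l.val + 1)))

/-- restriction of the rational function `U/V` to this curve -/
def rho {s d : ℕ} (U V : MvPolynomial (Fin s) (KF d)) (p : Fin s → ℚ) (N : ℕ) : RatFunc (KF d) :=
  algebraMap (Polynomial (KF d)) (RatFunc (KF d)) (kr p N U) / algebraMap (Polynomial (KF d)) (RatFunc (KF d)) (kr p N V)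

/-- `U'/V' = (a U/V + b)/(c U/V + e)` with rational `a, b, c, e`, `a e - b c ≠ 0` -/
def PRel {s d : ℕ} (U V U' V' : MvPolynomial (Fin s) (KF d)) : Prop :=
  ∃ a b c e : ℚ, a * e - b * c ≠ 0 ∧
    U' * (MvPolynomial.C (c : KF d) * U + MvPolynomial.C (e : KF d) * V) =
      V' * (MvPolynomial.C (a : KF d) * U + MvPolynomial.C (b : KF d) * V)

/-- the functions `x l`, `(e2(z) - 6 i/(π (z - z̄)))/Ω²`, `e4(z)/Ω⁴`, `e6(z)/Ω⁶` with `z = U(x)/V(x)`, `z̄ = Ū(x)/V̄(x)`. -/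
def famMS {s r : ℕ} (d : Fin r → ℕ) {ι : Fin r → Type} (Ω : Fin r → ℂ) (U V : ∀ b, ι b → MvPolynomial (Fin s) (KF (d b)))
    (x : Fin s → ℂ) : Fin s ⊕ (Σ b, ι b × Fin 3) → ℂ
  | Sum.inl l => x l
  | Sum.inr p => ![(e2 (MvPolynomial.aeval x (U p.1 p.2.1) / MvPolynomial.aeval x (V p.1 p.2.1)) - 6 * I / (Real.pi *
        (MvPolynomial.aeval x (U p.1 p.2.1) / MvPolynomial.aeval x (V p.1 p.2.1) -
          MvPolynomial.aeval x (cjP (U p.1 p.2.1)) / MvPolynomial.aeval x (cjP (V p.1 p.2.1))))) / Ω p.1 ^ 2,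
      e4 (MvPolynomial.aeval x (U p.1 p.2.1) / MvPolynomial.aeval x (V p.1 p.2.1)) / Ω p.1 ^ 4,
      e6 (MvPolynomial.aeval x (U p.1 p.2.1) / MvPolynomial.aeval x (V p.1 p.2.1)) / Ω p.1 ^ 6] p.2.2

/-- the field `ℚ(√(-d_b))(t_l : bl l = b)` -/
def FB {s r : ℕ} (bl : Fin s → Fin r) (d : Fin r → ℕ) (t : Fin s → ℝ) (b : Fin r) : IntermediateField ℚ ℂ :=
  IntermediateField.adjoin ℚ ({rt (d b)} ∪ {x | ∃ l, bl l = b ∧ x = (t l : ℂ)})

/-- The hypotheses on the functions `U b i / V b i`: the block `b` uses only the variables `l` with `bl l = b`; not constant; not related; values at `t` in the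
upper half plane. -/
structure Sys {s r : ℕ} (bl : Fin s → Fin r) (d : Fin r → ℕ) (t : Fin s → ℝ) (ι : Fin r → Type)
    (U V : ∀ b, ι b → MvPolynomial (Fin s) (KF (d b))) : Prop where
  hd : ∀ b, 0 < d b
  vU : ∀ b i, ∀ l ∈ (U b i).vars, bl l = b
  vV : ∀ b i, ∀ l ∈ (V b i).vars, bl l = b
  nc : ∀ b i, ¬ ∃ c, U b i = MvPolynomial.C c * V b i
  rel : ∀ b i j, i ≠ j → ¬ PRel (U b i) (V b i) (U b j) (V b j)
  ne : ∀ b i, MvPolynomial.aeval (fun l => (t l : ℂ)) (V b i) ≠ 0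
  pos : ∀ b i, 0 < (MvPolynomial.aeval (fun l => (t l : ℂ)) (U b i) / MvPolynomial.aeval (fun l => (t l : ℂ)) (V b i) : ℂ).im

end Pool.Agent.MSD
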