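import Pool.Agent.Lib.MP_f58a57_nt.M00_Defs

/-! # Q00: definitions for the third version (a transcendental quadratic field generator) (MP_f58a57_nt) -/

open Complex ModularForm EisensteinSeries Filter
open UpperHalfPlane hiding I
open scoped Topology MatrixGroups Polynomial

noncomputable section

namespace Pool.Agent.MSD

/-- the tuple `y` with the coordinate `b` replaced by `c √(y b)` (principal branch) -/
def tw {m : ℕ} (c : ℂ) (b : Fin m) (y : Fin m → ℂ) : Fin m → ℂ := Function.update y b (c * y b ^ (1 / 2 : ℂ))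

/-- the value of the rational function `U/W` (over `ℚ`) at `tw c b y` -/
def zq {m : ℕ} (c : ℂ) (b : Fin m) (U W : MvPolynomial (Fin m) ℚ) (y : Fin m → ℂ) : ℂ :=
  MvPolynomial.aeval (tw c b y) U / MvPolynomial.aeval (tw c b y) W

/-- the functions `y_l`, `e2(z) - 6 i/(π (z - z̄))`, `e4(z)`, `e6(z)`, where `z = U/W` at `(y_l, i√(y_b))`, `z̄ = U/W` at `(y_l, -i√(y_b))`. -/
def famQ {m : ℕ} {ι : Type} (b : ι → Fin m) (U W : ι → MvPolynomial (Fin m) ℚ) (y : Fin m → ℂ) : Fin m ⊕ (ι × Fin 3) → ℂ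
  | Sum.inl l => y l
  | Sum.inr p => ![e2 (zq I (b p.1) (U p.1) (W p.1) y) - 6 * I / (Real.pi *
        (zq I (b p.1) (U p.1) (W p.1) y - zq (-I) (b p.1) (U p.1) (W p.1) y)),
      e4 (zq I (b p.1) (U p.1) (W p.1) y), e6 (zq I (b p.1) (U p.1) (W p.1) y)] p.2

/-- Normalisation of a family of weights `2, 4, 6` by the element of weight 2 `g(k i, 2)/g(k i, 1)` (`e6/e4` at the base point). -/
def nrm {A ι : Type} (k : ι → ι) (g : A ⊕ (ι × Fin 3) → ℂ) : A ⊕ (ι × Fin 3) → ℂ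
  | Sum.inl l => g (Sum.inl l)
  | Sum.inr p => g (Sum.inr p) / (g (Sum.inr (k p.1, 2)) / g (Sum.inr (k p.1, 1))) ^ ((![1, 2, 3] : Fin 3 → ℕ) p.2)

/-- The index set of the normalised family: without the pairs `(i, 2)`, `k i = i` (for them `e6/θ³ = e4/θ²`). -/
def JN {A ι : Type} (k : ι → ι) : Type := {p : A ⊕ (ι × Fin 3) // ∀ i, p = Sum.inr (i, 2) → k i ≠ i}

/-- The hypotheses on the functions: `z_i` is a rational function of the coordinates and of `i√(x_(b i))`, `b i ∈ V`. -/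
structure SysQ {m : ℕ} (V : Finset (Fin m)) (x : Fin m → ℝ) {ι : Type} (b : ι → Fin m) (U W : ι → MvPolynomial (Fin m) ℚ) : Prop where
  pos : ∀ l ∈ V, 0 < x l
  bV : ∀ i, b i ∈ V
  ne : ∀ i, MvPolynomial.aeval (tw I (b i) (fun l => (x l : ℂ))) (W i) ≠ 0
  im : ∀ i, 0 < (zq I (b i) (U i) (W i) (fun l => (x l : ℂ))).im
  ineq : ∀ i j, i ≠ j → ¬ GEquiv (zq I (b i) (U i) (W i) (fun l => (x l : ℂ))) (zq I (b j) (U j) (W j) (fun l => (x l : ℂ)))

/-- the field `ℚ(x_l (l ∉ V), √(-x_b))` -/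
def FV {m : ℕ} (V : Finset (Fin m)) (x : Fin m → ℝ) (b : Fin m) : IntermediateField ℚ ℂ :=
  IntermediateField.adjoin ℚ ({((Real.sqrt (x b) : ℝ) : ℂ) * I} ∪ {y | ∃ l, l ∉ V ∧ y = (x l : ℂ)})

/-- numerator times denominator of a positive rational number: `√(-q) = rt (Dn q)/q.den` -/
def Dn (q : ℚ) : ℕ := q.num.toNat * q.den

/-- Uniform control of the values at the points of discriminant `D`: `Om D` is a normaliser at `√(-D)`, all the members of the Hecke families at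
`√(-D)` have degree and logarithmic height at most `(D + N)^C`. -/
structure UCtrl (Om : ℕ → ℂ) (C : ℕ) : Prop where
  base : ∀ D : ℕ, 0 < D → CMBase (rt D) (Om D)
  ctrl : ∀ D : ℕ, 0 < D → ∀ (κ : Fin 3) (N : ℕ), 0 < N → ∀ ρ ∈ TT N, ∃ (n : ℕ) (S : ℝ),
    Ctrl n ((N ^ 2).factorial) S (Gr κ (rt D) ρ / Om D ^ kwt κ) ∧ (n : ℝ) ≤ ((D + N + 1 : ℕ) : ℝ) ^ C ∧
      S ≤ Real.exp (((D + N + 1 : ℕ) : ℝ) ^ C)

end Pool.Agent.MSD
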