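import Pool.Agent.Lib.MP_f58a57_nt.Defs

/-! # M20: explicit hyper-Liouville systems (MP_f58a57_nt) -/

open Filter
open scoped Topology

noncomputable section

namespace Pool.Agent.MSD

/-- the tower `1, 2, 4, 16, 65536, ...` -/
def tow : ℕ → ℕ
  | 0 => 1
  | n + 1 => 2 ^ tow n

/-- the explicit system `t_l = ∑_k 1 / tow (2 (s (k + 1) - l))`, `l < s` -/
def towSys (s : ℕ) (l : Fin s) : ℝ := ∑' k : ℕ, 1 / (tow (2 * (s * (k + 1) - l)) : ℝ)

theorem tow_succ (n : ℕ) : tow (n + 1) = 2 ^ tow n := rfl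

theorem tow_pos (n : ℕ) : 0 < tow n := by
  cases n with
  | zero => simp [tow]
  | succ n => rw [tow_succ]; positivity

theorem tow_two_mul (n : ℕ) : 2 * tow n ≤ tow (n + 1) := by
  rw [tow_succ]
  have h : ∀ x : ℕ, 0 < x → 2 * x ≤ 2 ^ x := by
    intro x hx
    obtain ⟨y, rfl⟩ : ∃ y, x = y + 1 := ⟨x - 1, by omega⟩
    rw [pow_succ]
    have : y < 2 ^ y := Nat.lt_two_pow_self
    omega
  exact h _ (tow_pos n)

theorem tow_mono {m n : ℕ} (h : m ≤ n) : tow m ≤ tow n := by
  induction n, h using Nat.le_induction with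
  | base => exact le_rfl
  | succ n _ ih => exact ih.trans (by have := tow_two_mul n; omega)

theorem tow_dvd {m n : ℕ} (h : m ≤ n) : tow m ∣ tow n := by
  cases m with
  | zero => simp [tow]
  | succ m =>
    obtain ⟨k, rfl⟩ : ∃ k, n = k + 1 := ⟨n - 1, by omega⟩
    rw [tow_succ, tow_succ]
    exact pow_dvd_pow 2 (tow_mono (by omega))

theorem tow_add (n j : ℕ) : 2 ^ j * tow n ≤ tow (n + j) := by
  induction j with
  | zero => simp
  | succ j ih =>
    have := tow_two_mul (n + j)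
    rw [pow_succ]
    calc 2 ^ j * 2 * tow n = 2 * (2 ^ j * tow n) := by ring
      _ ≤ 2 * tow (n + j) := by omega
      _ ≤ _ := this

theorem lt_tow (n : ℕ) : n < tow n := by
  induction n with
  | zero => simp [tow]
  | succ n ih => have := tow_two_mul n; omega

/-- the index -/
def nix (s l k : ℕ) : ℕ := 2 * (s * (k + 1) - l)

theorem nix_ge {s l : ℕ} (hl : l < s) (K j : ℕ) : nix s l K + j ≤ nix s l (K + j) := by
  unfold nix
  have h1 : s * (K + j + 1) = s * (K + 1) + s * j := by ring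
  have h2 : j ≤ s * j := Nat.le_mul_of_pos_left j (by omega)
  have h3 : l ≤ s * (K + 1) := by nlinarith
  omega

theorem tow_nix_ge {s l : ℕ} (hl : l < s) (K j : ℕ) :
    1 / (tow (nix s l (K + j)) : ℝ) ≤ 1 / (tow (nix s l K) : ℝ) * (1 / 2) ^ j := by
  have h1 : 2 ^ j * tow (nix s l K) ≤ tow (nix s l (K + j)) :=
    (tow_add _ _).trans (tow_mono (nix_ge hl K j))
  have h1' : (2 : ℝ) ^ j * tow (nix s l K) ≤ tow (nix s l (K + j)) := by exact_mod_cast h1
  have h2 : (0 : ℝ) < tow (nix s l K) := by exact_mod_cast tow_pos _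
  have h3 : 1 / (tow (nix s l K) : ℝ) * (1 / 2) ^ j = 1 / ((2 : ℝ) ^ j * tow (nix s l K)) := by
    rw [one_div_pow]; field_simp
  rw [h3]
  exact one_div_le_one_div_of_le (by positivity) h1'

theorem summable_nix {s l : ℕ} (hl : l < s) : Summable fun k => 1 / (tow (nix s l k) : ℝ) := by
  refine Summable.of_nonneg_of_le (fun k => by positivity) (fun k => ?_)
    ((summable_geometric_of_lt_one (by norm_num : (0 : ℝ) ≤ 1 / 2) (by norm_num)).mul_left
      (1 / (tow (nix s l 0) : ℝ)))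
  have := tow_nix_ge hl 0 k
  rwa [zero_add] at this

/-- the tail -/
theorem tail_nix {s l : ℕ} (hl : l < s) (K : ℕ) :
    1 / (tow (nix s l K) : ℝ) ≤ (∑' k, 1 / (tow (nix s l k) : ℝ)) - ∑ k ∈ Finset.range K, 1 / (tow (nix s l k) : ℝ) ∧
    (∑' k, 1 / (tow (nix s l k) : ℝ)) - ∑ k ∈ Finset.range K, 1 / (tow (nix s l k) : ℝ) ≤ 2 / (tow (nix s l K) : ℝ) := by
  have hs := summable_nix hl
  have h1 := hs.sum_add_tsum_nat_add K
  have h2 : (∑' k, 1 / (tow (nix s l k) : ℝ)) - ∑ k ∈ Finset.range K, 1 / (tow (nix s l k) : ℝ) =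
      ∑' k, 1 / (tow (nix s l (k + K)) : ℝ) := by linarith
  have hs' : Summable fun k => 1 / (tow (nix s l (k + K)) : ℝ) := (summable_nat_add_iff K).2 hs
  rw [h2]
  constructor
  · have := hs'.le_tsum 0 (fun j _ => by positivity)
    simpa using this
  · have hg : Summable fun j : ℕ => 1 / (tow (nix s l K) : ℝ) * (1 / 2) ^ j :=
      (summable_geometric_of_lt_one (by norm_num : (0 : ℝ) ≤ 1 / 2) (by norm_num)).mul_left _
    have h3 := hs'.tsum_le_tsum (fun j => by
      have := tow_nix_ge hl K j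
      rwa [add_comm K j] at this) hg
    refine h3.trans (le_of_eq ?_)
    rw [tsum_mul_left, tsum_geometric_of_lt_one (by norm_num) (by norm_num)]
    ring

/-- tow_growth -/
theorem tow_growth (s C : ℕ) : ∀ᶠ X : ℕ in atTop,
    2 * Real.exp ((2 + s * X : ℝ) ^ C) < 2 ^ (2 ^ X : ℕ) := by
  have h1 : Tendsto (fun X : ℕ => (X : ℝ) ^ C / 2 ^ X) atTop (𝓝 0) :=
    tendsto_pow_const_div_const_pow_of_one_lt C (by norm_num)
  have h0 : Tendsto (fun X : ℕ => (1 : ℝ) / 2 ^ X) atTop (𝓝 0) := by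
    have := tendsto_pow_const_div_const_pow_of_one_lt 0 (by norm_num : (1 : ℝ) < 2)
    simpa using this
  have h2 : Tendsto (fun X : ℕ => (2 + s : ℝ) ^ C * ((X : ℝ) ^ C / 2 ^ X) + 1 / 2 ^ X) atTop (𝓝 0) := by
    have := (h1.const_mul ((2 + s : ℝ) ^ C)).add h0
    simpa using this
  filter_upwards [h2.eventually_lt_const (by norm_num : (0 : ℝ) < 1 / 2), eventually_ge_atTop 1] with X hX hX1
  have hp : (0 : ℝ) < 2 ^ X := by positivity
  have hX1' : (1 : ℝ) ≤ X := by exact_mod_cast hX1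
  have h3 : (2 + s : ℝ) ^ C * (X : ℝ) ^ C + 1 < 2 ^ X / 2 := by
    have h4 : ((2 + s : ℝ) ^ C * ((X : ℝ) ^ C / 2 ^ X) + 1 / 2 ^ X) * 2 ^ X =
        (2 + s : ℝ) ^ C * (X : ℝ) ^ C + 1 := by field_simp
    rw [← h4]
    nlinarith
  have h5 : (2 + s * X : ℝ) ^ C ≤ (2 + s : ℝ) ^ C * (X : ℝ) ^ C := by
    rw [← mul_pow]
    refine pow_le_pow_left₀ (by positivity) ?_ C
    nlinarith
  have h6 : Real.exp ((2 + s * X : ℝ) ^ C + 1) < Real.exp ((2 ^ X : ℕ) * Real.log 2) := by
    apply Real.exp_lt_exp.2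
    have h7 : (1 : ℝ) / 2 ≤ Real.log 2 := by
      have := Real.log_two_gt_d9
      linarith
    have h8 : ((2 ^ X : ℕ) : ℝ) = 2 ^ X := by push_cast; rfl
    rw [h8]
    nlinarith
  rw [Real.exp_add, Real.exp_nat_mul, Real.exp_log (by norm_num)] at h6
  have h9 : (2 : ℝ) ≤ Real.exp 1 := by
    have := Real.add_one_le_exp (1 : ℝ)
    linarith
  have h10 := Real.exp_pos ((2 + s * X : ℝ) ^ C)
  nlinarith

/-- M20. The explicit system is hyper-Liouville. -/
theorem towSys_hyperLiouville (s : ℕ) : HyperLiouville (towSys s) := by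
  intro C
  obtain ⟨X₀, hX₀⟩ := eventually_atTop.1 (tow_growth s C)
  set K := X₀ + 1 with hK
  have hsys : ∀ l : Fin s, towSys s l = ∑' k, 1 / (tow (nix s l k) : ℝ) := fun l => rfl
  let x : Fin s → ℚ := fun l => ∑ k ∈ Finset.range K, 1 / (tow (nix s l k) : ℚ)
  have hx : ∀ l, ((x l : ℚ) : ℝ) = ∑ k ∈ Finset.range K, 1 / (tow (nix s l k) : ℝ) := by
    intro l
    simp [x]
  have hd : ∀ l : Fin s, towSys s l - x l = (∑' k, 1 / (tow (nix s l k) : ℝ)) -
      ∑ k ∈ Finset.range K, 1 / (tow (nix s l k) : ℝ) := by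
    intro l
    rw [hsys, hx]
  have hlo : ∀ l : Fin s, 1 / (tow (nix s l K) : ℝ) ≤ towSys s l - x l := fun l => by
    rw [hd]; exact (tail_nix l.2 K).1
  have hup : ∀ l : Fin s, towSys s l - x l ≤ 2 / (tow (nix s l K) : ℝ) := fun l => by
    rw [hd]; exact (tail_nix l.2 K).2
  have hpos : ∀ l : Fin s, 0 < towSys s l - x l := fun l =>
    lt_of_lt_of_le (by have := tow_pos (nix s l K); positivity) (hlo l)
  have habs : ∀ l : Fin s, |towSys s l - x l| = towSys s l - x l := fun l => abs_of_pos (hpos l)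
  have hden : ∀ l : Fin s, (x l).den ≤ tow (2 * (s * K)) := by
    intro l
    have h1 : ∃ z : ℤ, x l * (tow (2 * (s * K)) : ℚ) = z := by
      simp only [x, Finset.sum_mul]
      have : ∀ k ∈ Finset.range K, ∃ z : ℤ, 1 / (tow (nix s l k) : ℚ) * (tow (2 * (s * K)) : ℚ) = z := by
        intro k hk
        have hk' := Finset.mem_range.1 hk
        have hle : nix s l k ≤ 2 * (s * K) := by
          unfold nix
          have : s * (k + 1) ≤ s * K := Nat.mul_le_mul_left s (by omega)
          omega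
        obtain ⟨c, hc⟩ := tow_dvd hle
        refine ⟨c, ?_⟩
        rw [hc]
        have := tow_pos (nix s l k)
        have h0 : (tow (nix s l k) : ℚ) ≠ 0 := by positivity
        push_cast
        field_simp
      choose! z hz using this
      refine ⟨∑ k ∈ Finset.range K, z k, ?_⟩
      rw [Finset.sum_congr rfl hz]
      push_cast
      rfl
    obtain ⟨z, hz⟩ := h1
    have h2 : (x l).den ∣ tow (2 * (s * K)) := by
      have h3 : x l = Rat.divInt z (tow (2 * (s * K)) : ℤ) := by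
        rw [Rat.divInt_eq_div, eq_div_iff (by have := tow_pos (2 * (s * K)); positivity)]
        exact_mod_cast hz
      have h4 := Rat.den_dvd z (tow (2 * (s * K)) : ℤ)
      rw [← h3] at h4
      exact_mod_cast h4
    exact Nat.le_of_dvd (tow_pos _) h2
  have hBd : (Bd x : ℝ) ≤ 2 + s * (tow (2 * (s * K)) : ℝ) := by
    have : Bd x ≤ 2 + s * tow (2 * (s * K)) := by
      unfold Bd
      have := Finset.sum_le_card_nsmul (Finset.univ : Finset (Fin s)) (fun l => (x l).den) _
        (fun l _ => hden l)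
      simp at this
      omega
    exact_mod_cast this
  refine ⟨x, fun l => by rw [habs]; exact hpos l, fun l => ?_, fun l l' hll => ?_⟩
  · rw [habs]
    have hs : 0 < s := l.pos
    set X := tow (2 * (s * K)) with hXd
    have hX : X₀ ≤ X := by
      have h1 := lt_tow (2 * (s * K))
      have h2 : K ≤ s * K := Nat.le_mul_of_pos_left K hs
      omega
    have hg := hX₀ X hX
    have hn : 2 * (s * K) + 2 ≤ nix s l K := by
      unfold nix
      have h1 : s * (K + 1) = s * K + s := by ring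
      have := l.2
      omega
    have h1 : (2 : ℝ) ^ (2 ^ X : ℕ) ≤ tow (nix s l K) := by
      have h2 : tow (2 * (s * K) + 2) ≤ tow (nix s l K) := tow_mono hn
      have h3 : tow (2 * (s * K) + 2) = 2 ^ (2 ^ X) := rfl
      rw [h3] at h2
      exact_mod_cast h2
    have h4 : towSys s l - x l ≤ 2 / (2 : ℝ) ^ (2 ^ X : ℕ) :=
      (hup l).trans (div_le_div_of_nonneg_left (by norm_num) (by positivity) h1)
    refine lt_of_le_of_lt h4 ?_
    have h5 : Real.exp ((Bd x : ℝ) ^ C) ≤ Real.exp ((2 + s * X : ℝ) ^ C) :=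
      Real.exp_le_exp.2 (pow_le_pow_left₀ (by positivity) hBd C)
    rw [Real.exp_neg, div_lt_iff₀ (by positivity)]
    have h6 := Real.exp_pos ((Bd x : ℝ) ^ C)
    rw [inv_mul_eq_div, lt_div_iff₀ h6]
    linarith
  · rw [habs, habs]
    set Y := tow (nix s l' K) with hYd
    have hs : 0 < s := l.pos
    have hn : nix s l' K + 2 ≤ nix s l K := by
      unfold nix
      have h1 : s * (K + 1) = s * K + s := by ring
      have h2 := l.2
      have h3 := l'.2
      have h4 : (l : ℕ) < l' := hll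
      omega
    have hY : X₀ ≤ Y := by
      have h1 := lt_tow (nix s l' K)
      have h2 : K ≤ nix s l' K := by
        unfold nix
        have h1 : s * (K + 1) = s * K + s := by ring
        have h2 : K ≤ s * K := Nat.le_mul_of_pos_left K hs
        have h3 := l'.2
        omega
      omega
    have hg := hX₀ Y hY
    have h1 : (2 : ℝ) ^ (2 ^ Y : ℕ) ≤ tow (nix s l K) := by
      have h2 : tow (nix s l' K + 2) ≤ tow (nix s l K) := tow_mono hn
      have h3 : tow (nix s l' K + 2) = 2 ^ (2 ^ Y) := rfl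
      rw [h3] at h2
      exact_mod_cast h2
    have h4 : towSys s l - x l ≤ 2 / (2 : ℝ) ^ (2 ^ Y : ℕ) :=
      (hup l).trans (div_le_div_of_nonneg_left (by norm_num) (by positivity) h1)
    have hY0 : (0 : ℝ) < Y := by exact_mod_cast tow_pos (nix s l' K)
    have h5 : (1 / (Y : ℝ)) ^ C ≤ (towSys s l' - x l') ^ C :=
      pow_le_pow_left₀ (by positivity) (hlo l') C
    refine lt_of_lt_of_le (lt_of_le_of_lt h4 ?_) h5
    rw [div_lt_iff₀ (by positivity), one_div_pow, one_div, inv_mul_eq_div, lt_div_iff₀ (by positivity)]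
    have hs1 : (1 : ℝ) ≤ s := by exact_mod_cast hs
    have h6 : (Y : ℝ) ^ C ≤ Real.exp ((2 + s * Y : ℝ) ^ C) := by
      have h7 : (Y : ℝ) ^ C ≤ (2 + s * Y : ℝ) ^ C := pow_le_pow_left₀ hY0.le (by nlinarith) C
      have h8 := Real.add_one_le_exp ((2 + s * Y : ℝ) ^ C)
      linarith
    linarith

end Pool.Agent.MSD
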