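import Pool.Agent.Lib.MP_f58a57_nt.C3_PcValues
import Pool.Agent.Lib.MP_f58a57_nt.F5b_FamS
import Pool.Agent.Lib.MP_f58a57_nt.F6_Flag

/-! # G1: algebraic independence (MP_f58a57_nt) -/

open Complex ModularForm EisensteinSeries Filter
open UpperHalfPlane hiding I
open scoped Topology MatrixGroups

noncomputable section

namespace Pool.Agent.MSD

theorem g1_two_le_Bd {s : ℕ} (x : Fin s → ℚ) : 2 ≤ Bd x := by
  unfold Bd; omega

theorem g1_den_le_Bd {s : ℕ} (x : Fin s → ℚ) (l : Fin s) : 2 + (x l).den ≤ Bd x := by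
  unfold Bd
  have : (x l).den ≤ ∑ l, (x l).den := Finset.single_le_sum (f := fun l => (x l).den) (fun _ _ => Nat.zero_le _) (Finset.mem_univ l)
  omega

theorem g1_N_continuous (h : Mob) : Continuous h.N := by
  unfold Mob.N
  fun_prop

theorem g1_famS_none {ι : Type*} (h : ι → Mob) (Ω : ℂ) (x : ℂ) : famS h Ω x none = x := rfl

/-- differentiability of the evaluation -/
theorem g1_diff {s : ℕ} {N : Fin s → Type} (φ : ∀ l, ℂ → N l → ℂ) (t : Fin s → ℂ)
    (hφ : ∀ l ν, AnalyticAt ℂ (fun x => φ l x ν) (t l)) (P : MvPolynomial (Σ l, N l) ℚ) :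
    DifferentiableAt ℂ (fun y : Fin s → ℂ => MvPolynomial.aeval (fun p : (Σ l, N l) => φ p.1 (y p.1) p.2) P) t := by
  induction P using MvPolynomial.induction_on with
  | C a => simp
  | add p q hp hq =>
    simp only [map_add]
    exact hp.add hq
  | mul_X p n hp =>
    simp only [map_mul, MvPolynomial.aeval_X]
    refine hp.mul ?_
    have h1 : DifferentiableAt ℂ (fun x => φ n.1 x n.2) (t n.1) := (hφ n.1 n.2).differentiableAt
    have h2 : DifferentiableAt ℂ (fun y : Fin s → ℂ => y n.1) t := differentiableAt_apply n.1 t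
    exact DifferentiableAt.comp (g := fun x => φ n.1 x n.2) t h1 h2

/-- the real inequality -/
theorem g1_exp (C : ℕ) (K : ℝ) : ∀ᶠ k : ℕ in atTop, ∀ B : ℕ, 2 ≤ B →
    K * Real.exp (-(B : ℝ) ^ k) < Real.exp (-(B : ℝ) ^ C) := by
  have h1 : Tendsto (fun n : ℕ => (2 : ℝ) ^ n) atTop atTop := tendsto_pow_atTop_atTop_of_one_lt (by norm_num)
  have h2 : ∀ᶠ n : ℕ in atTop, Real.log (|K| + 1) < (2 : ℝ) ^ n := h1.eventually_gt_atTop _
  have h3 : ∀ᶠ k : ℕ in atTop, Real.log (|K| + 1) < (2 : ℝ) ^ (k - 1) :=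
    (tendsto_sub_atTop_nat 1).eventually h2
  filter_upwards [h3, eventually_ge_atTop (C + 1)] with k hk hkC B hB
  have hB' : (2 : ℝ) ≤ B := by exact_mod_cast hB
  have hB1 : (1 : ℝ) ≤ B := by linarith
  obtain ⟨m, rfl⟩ : ∃ m, k = m + 1 := ⟨k - 1, by omega⟩
  have hm : m + 1 - 1 = m := by omega
  rw [hm] at hk
  have h4 : (B : ℝ) ^ C ≤ (B : ℝ) ^ m := pow_le_pow_right₀ hB1 (by omega)
  have h5 : (2 : ℝ) ^ m ≤ (B : ℝ) ^ m := pow_le_pow_left₀ (by norm_num) hB' m
  have h6 : (B : ℝ) ^ (m + 1) ≥ (B : ℝ) ^ C + (2 : ℝ) ^ m := by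
    rw [pow_succ]
    nlinarith [pow_nonneg (by linarith : (0 : ℝ) ≤ B) m]
  have h7 : K < Real.exp ((2 : ℝ) ^ m) := by
    calc K ≤ |K| := le_abs_self K
      _ < |K| + 1 := by linarith
      _ = Real.exp (Real.log (|K| + 1)) := (Real.exp_log (by positivity)).symm
      _ < _ := Real.exp_lt_exp.mpr hk
  calc K * Real.exp (-(B : ℝ) ^ (m + 1)) < Real.exp ((2 : ℝ) ^ m) * Real.exp (-(B : ℝ) ^ (m + 1)) := by
        apply mul_lt_mul_of_pos_right h7 (Real.exp_pos _)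
    _ = Real.exp ((2 : ℝ) ^ m + -(B : ℝ) ^ (m + 1)) := by rw [Real.exp_add]
    _ ≤ _ := Real.exp_le_exp.mpr (by linarith)

/-- G1. PROOF. Let `P ∈ ℚ[...]`, `P(values at t) = 0`, `P ≠ 0`. Let `x k` be the approximations given by `HyperLiouville` for `C = k`; `x k → t`
(`Bd ≥ 2`). By `famS_analytic` (Lipschitz near `t`), `|P(values at x k)| ≤ K exp(-B^k)`. By `PC.aeval`, `pc_values`, `pc_rat`, `famS_real` the numbers
`P(values at x k)` form a PC family with `B = Bd (x k)`, so by `PC.lower` they are `0` or at least `exp(-B^C)`: they are `0` for large `k`; this contradicts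
`flag_nonvanish` (with `famS_indep`). -/
theorem alg_indep {s : ℕ} (D : Fin s → ℕ) (hD : ∀ l, 0 < D l) (t : Fin s → ℝ) (ht : HyperLiouville t) (Ω : Fin s → ℂ)
    (hΩ : ∀ l, CMBase (rt (D l)) (Ω l)) (ι : Fin s → Type) [∀ l, Finite (ι l)] (h : ∀ l, ι l → Mob)
    (hK : ∀ l i, (h l i).InK (D l)) (hpos : ∀ l i, 0 < (h l i).N (t l : ℂ))
    (hne : ∀ l i j, i ≠ j → (h l i).Ne (h l j)) :
    AlgebraicIndependent ℚ (fun p : (Σ l, Option (ι l × Fin 3)) => famS (h p.1) (Ω p.1) (t p.1 : ℂ) p.2) := by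
  rw [algebraicIndependent_iff]
  intro P hP
  by_contra hP0
  -- the approximations
  choose x hx0 hx1 hx2 using ht
  -- convergence
  have hBd : ∀ k, (2 : ℝ) ≤ Bd (x k) := fun k => by exact_mod_cast g1_two_le_Bd (x k)
  have hexp0 : Tendsto (fun k : ℕ => Real.exp (-(2 : ℝ) ^ k)) atTop (𝓝 0) := by
    apply Real.tendsto_exp_neg_atTop_nhds_zero.comp
    exact tendsto_pow_atTop_atTop_of_one_lt (by norm_num)
  have hx1' : ∀ k l, |t l - x k l| < Real.exp (-(2 : ℝ) ^ k) := by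
    intro k l
    refine lt_of_lt_of_le (hx1 k l) (Real.exp_le_exp.mpr ?_)
    have := pow_le_pow_left₀ (by norm_num : (0 : ℝ) ≤ 2) (hBd k) k
    linarith
  have hxt : ∀ l, Tendsto (fun k => ((x k l : ℚ) : ℝ)) atTop (𝓝 (t l)) := by
    intro l
    rw [tendsto_iff_dist_tendsto_zero]
    refine squeeze_zero (fun _ => dist_nonneg) (fun k => ?_) hexp0
    rw [dist_comm, Real.dist_eq]
    exact (hx1' k l).le
  have hxtC : ∀ l, Tendsto (fun k => ((x k l : ℚ) : ℂ)) atTop (𝓝 (t l : ℂ)) := by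
    intro l
    have := (Complex.continuous_ofReal.tendsto (t l)).comp (hxt l)
    refine this.congr (fun k => ?_)
    simp
  have hnorm : ∀ k l, ‖((x k l : ℚ) : ℂ) - (t l : ℂ)‖ = |t l - x k l| := by
    intro k l
    have h1 : ((x k l : ℚ) : ℂ) - (t l : ℂ) = ((((x k l : ℚ) : ℝ) - t l : ℝ) : ℂ) := by push_cast; rfl
    rw [h1, Complex.norm_real, Real.norm_eq_abs, abs_sub_comm]
  -- radius
  obtain ⟨R, hR⟩ : ∃ R : ℝ, ∀ l, |t l| + 1 ≤ R := by
    obtain ⟨R, hR⟩ := (Set.finite_range (fun l => |t l| + 1)).bddAbove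
    exact ⟨R, fun l => hR ⟨l, rfl⟩⟩
  have hgood1 : ∀ᶠ k in atTop, ∀ l, |((x k l : ℚ) : ℝ)| ≤ R := by
    rw [eventually_all]
    intro l
    have h1 : Tendsto (fun k => |((x k l : ℚ) : ℝ)|) atTop (𝓝 |t l|) := (hxt l).abs
    have h2 : |t l| < R := by linarith [hR l]
    filter_upwards [h1.eventually_lt_const h2] with k hk using hk.le
  have hgood2 : ∀ᶠ k in atTop, ∀ l, ∀ i, 0 < (h l i).N ((x k l : ℚ) : ℂ) := by
    rw [eventually_all]
    intro l
    rw [eventually_all]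
    intro i
    have h1 : Tendsto (fun k => (h l i).N ((x k l : ℚ) : ℂ)) atTop (𝓝 ((h l i).N (t l : ℂ))) :=
      ((g1_N_continuous (h l i)).tendsto _).comp (hxtC l)
    exact h1.eventually_const_lt (hpos l i)
  -- the values
  set F : (Fin s → ℂ) → ℂ := fun y =>
    MvPolynomial.aeval (fun p : (Σ l, Option (ι l × Fin 3)) => famS (h p.1) (Ω p.1) (y p.1) p.2) P with hF
  have hFt : F (fun l => (t l : ℂ)) = 0 := hP
  have hFd : DifferentiableAt ℂ F (fun l => (t l : ℂ)) :=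
    g1_diff (fun l x ν => famS (h l) (Ω l) x ν) (fun l => (t l : ℂ))
      (fun l ν => famS_analytic (h l) (Ω l) (t l) (hpos l) ν) P
  -- PC family
  let X := {y : Fin s → ℚ // ∀ l, |((y l : ℚ) : ℝ)| ≤ R ∧ ∀ i, 0 < (h l i).N ((y l : ℚ) : ℂ)}
  have hPC : PC (X := X) (fun y => Bd y.1) (fun y => F (fun l => ((y.1 l : ℚ) : ℂ))) := by
    refine PC.aeval (X := X) (B := fun y => Bd y.1) (fun y => g1_two_le_Bd y.1) P
      (fun (p : (Σ l, Option (ι l × Fin 3))) y => famS (h p.1) (Ω p.1) ((y.1 p.1 : ℚ) : ℂ) p.2) ?_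
    rintro ⟨l, ν⟩
    rcases ν with _ | ⟨i, κ⟩
    · refine PC.comp (X := {x : ℚ // |(x : ℝ)| ≤ R}) (B := fun x => 2 + x.1.den)
        (f := fun y : X => ⟨y.1 l, (y.2 l).1⟩) (fun y => g1_two_le_Bd y.1) (fun y => g1_den_le_Bd y.1 l) (pc_rat R)
    · have h1 := PC.comp (X := {x : ℚ // |(x : ℝ)| ≤ R ∧ 0 < (h l i).N (x : ℂ)}) (B := fun x => 2 + x.1.den)
        (B' := fun y : X => Bd y.1)
        (f := fun y : X => ⟨y.1 l, (y.2 l).1, (y.2 l).2 i⟩) (fun y => g1_two_le_Bd y.1) (fun y => g1_den_le_Bd y.1 l)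
        (pc_values (D l) (hD l) (Ω l) (hΩ l) (h l i) (hK l i) R κ)
      convert h1 using 1
      funext y
      have h2 := famS_real (h l) (Ω l) ((y.1 l : ℚ) : ℝ) i κ (by
        have := (y.2 l).2 i
        simpa using this)
      simpa using h2
  obtain ⟨C, hC⟩ := PC.lower (X := X) (B := fun y => Bd y.1) (fun y => g1_two_le_Bd y.1) hPC
  -- upper bound
  have hO := hFd.isBigO_sub
  obtain ⟨K, hKpos, hKb⟩ := hO.exists_pos
  have hxtv : Tendsto (fun k => (fun l => ((x k l : ℚ) : ℂ))) atTop (𝓝 (fun l => (t l : ℂ))) :=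
    tendsto_pi_nhds.mpr hxtC
  have hup := hxtv.eventually hKb.bound
  have hzero : ∀ᶠ k in atTop, F (fun l => ((x k l : ℚ) : ℂ)) = 0 := by
    filter_upwards [hup, hgood1, hgood2, g1_exp C K] with k hk hk1 hk2 hk3
    rw [hFt, sub_zero] at hk
    have h1 : ‖(fun l => ((x k l : ℚ) : ℂ)) - (fun l => (t l : ℂ))‖ ≤ Real.exp (-(Bd (x k) : ℝ) ^ k) := by
      rw [pi_norm_le_iff_of_nonneg (Real.exp_pos _).le]
      intro l
      rw [Pi.sub_apply, hnorm k l]
      exact (hx1 k l).le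
    have h2 : ‖F (fun l => ((x k l : ℚ) : ℂ))‖ < Real.exp (-(Bd (x k) : ℝ) ^ C) :=
      lt_of_le_of_lt (hk.trans (mul_le_mul_of_nonneg_left h1 hKpos.le)) (hk3 (Bd (x k)) (g1_two_le_Bd _))
    rcases hC ⟨x k, fun l => ⟨hk1 l, hk2 l⟩⟩ with h3 | h3
    · exact h3
    · exact absurd h2 (not_lt.mpr h3)
  -- nonvanishing
  have hPne : MvPolynomial.map (algebraMap ℚ ℂ) P ≠ 0 := by
    intro h0
    apply hP0
    exact MvPolynomial.map_injective _ (algebraMap ℚ ℂ).injective (by rw [h0, map_zero])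
  have hnv := flag_nonvanish s (fun l => Option (ι l × Fin 3)) (fun l x ν => famS (h l) (Ω l) x ν) (fun l => (t l : ℂ))
    (fun l ν => famS_analytic (h l) (Ω l) (t l) (hpos l) ν)
    (fun l Q hQ => famS_indep (h l) (Ω l) (hΩ l).ne (t l) (hpos l) (hne l) Q hQ)
    (fun k l => ((x k l : ℚ) : ℂ)) hxtC (by
      intro l k he
      have := hx0 k l
      rw [← hnorm k l, he, sub_self, norm_zero] at this
      exact lt_irrefl _ this) (by
      intro C'
      have hle : ∀ᶠ k in atTop, ∀ l, |t l - x k l| ≤ 1 := by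
        refine Eventually.of_forall (fun k l => ?_)
        refine (hx1' k l).le.trans ?_
        rw [Real.exp_le_one_iff]
        have : (0 : ℝ) < 2 ^ k := by positivity
        linarith
      filter_upwards [hle, eventually_ge_atTop C'] with k hk1 hk2 l l' hll
      simp only [hnorm]
      refine (hx2 k l l' hll).le.trans ?_
      exact pow_le_pow_of_le_one (abs_nonneg _) (hk1 l') hk2)
    (MvPolynomial.map (algebraMap ℚ ℂ) P) hPne
  obtain ⟨k, hk1, hk2⟩ := (hzero.and hnv).exists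
  apply hk2
  rw [MvPolynomial.eval_map]
  exact hk1

end Pool.Agent.MSD
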