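import Pool.Agent.Lib.MP_f58a57_nt.A7_J

/-! # G2: the invariants in terms of j, j-prime, j-double-prime (MP_f58a57_nt) -/

open Complex ModularForm EisensteinSeries Filter
open UpperHalfPlane hiding I
open scoped Topology MatrixGroups

noncomputable section

namespace Pool.Agent.MSD

/-- auxiliary: everything nonzero if `jj' z ≠ 0`. -/
theorem G2_ne (z : ℂ) (hz : 0 < z.im) (hj : deriv jj z ≠ 0) :
    e4 z ≠ 0 ∧ e6 z ≠ 0 ∧ dl z ≠ 0 := by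
  have h := (deriv_jj z hz).deriv
  rw [h] at hj
  refine ⟨?_, ?_, ?_⟩
  · intro h0
    apply hj
    rw [h0]
    simp
  · intro h0
    apply hj
    rw [h0]
    simp
  · intro h0
    apply hj
    rw [h0]
    simp

theorem G2_sub (z : ℂ) (h0 : dl z ≠ 0) : jj z - 1728 = e6 z ^ 2 / dl z := by
  unfold jj
  rw [eq_div_iff h0, sub_mul, div_mul_cancel₀ _ h0]
  unfold dl
  ring

/-- G2a. `jj z ≠ 0`, `jj z ≠ 1728` if `jj' z ≠ 0` (A7: `jj' = -2πi e4² e6/dl`, `jj = e4³/dl`, `jj - 1728 = e6²/dl`). -/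
theorem jj_ne (z : ℂ) (hz : 0 < z.im) (hj : deriv jj z ≠ 0) : jj z ≠ 0 ∧ jj z ≠ 1728 ∧ e4 z ≠ 0 ∧ e6 z ≠ 0 := by
  obtain ⟨h4, h6, hd⟩ := G2_ne z hz hj
  refine ⟨?_, ?_, h4, h6⟩
  · unfold jj
    exact div_ne_zero (pow_ne_zero 3 h4) hd
  · intro h
    have h1 := G2_sub z hd
    rw [h, sub_self] at h1
    exact (div_ne_zero (pow_ne_zero 2 h6) hd) h1.symm

/-- G2b. With `θ = π Ω²`, `y = Im z`: `e4/Ω⁴ = - j'²/(4 θ² j (j - 1728))`, `e6/Ω⁶ = (e4/Ω⁴) · (- j'/(2 i j θ))`,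
`e2s/Ω² = 6 [ (j''/j' - i/y)/(2 i θ) + (2/3) B/A + A²/(2B) ]`, `A = e4/Ω⁴`, `B = e6/Ω⁶`. -/
theorem link4 (z Ω : ℂ) (hz : 0 < z.im) (hΩ : Ω ≠ 0) (hj : deriv jj z ≠ 0) :
    e4 z / Ω ^ 4 = -(deriv jj z) ^ 2 / (4 * (Real.pi * Ω ^ 2) ^ 2 * jj z * (jj z - 1728)) := by
  obtain ⟨h4, h6, hd⟩ := G2_ne z hz hj
  have hpi : (Real.pi : ℂ) ≠ 0 := by exact_mod_cast Real.pi_ne_zero
  rw [G2_sub z hd, (deriv_jj z hz).deriv]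
  unfold jj
  field_simp
  rw [I_sq]
  ring

theorem link6 (z Ω : ℂ) (hz : 0 < z.im) (hΩ : Ω ≠ 0) (hj : deriv jj z ≠ 0) :
    e6 z / Ω ^ 6 = e4 z / Ω ^ 4 * (-(deriv jj z) / (2 * I * jj z * (Real.pi * Ω ^ 2))) := by
  obtain ⟨h4, h6, hd⟩ := G2_ne z hz hj
  have hpi : (Real.pi : ℂ) ≠ 0 := by exact_mod_cast Real.pi_ne_zero
  rw [(deriv_jj z hz).deriv]
  unfold jj
  field_simp

theorem link2 (z Ω : ℂ) (hz : 0 < z.im) (hΩ : Ω ≠ 0) (hj : deriv jj z ≠ 0) :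
    e2s z / Ω ^ 2 = 6 * ((deriv (deriv jj) z / deriv jj z - I / z.im) / (2 * I * (Real.pi * Ω ^ 2))
      + 2 / 3 * ((e6 z / Ω ^ 6) / (e4 z / Ω ^ 4)) + (e4 z / Ω ^ 4) ^ 2 / (2 * (e6 z / Ω ^ 6))) := by
  obtain ⟨h4, h6, hd⟩ := G2_ne z hz hj
  have hpi : (Real.pi : ℂ) ≠ 0 := by exact_mod_cast Real.pi_ne_zero
  have hy : (z.im : ℂ) ≠ 0 := by exact_mod_cast hz.ne'
  rw [deriv_deriv_jj z hz, (deriv_jj z hz).deriv]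
  unfold e2s
  field_simp
  ring

/-- G2c. Consequence: the three numbers lie in a field `F` containing `I`, `jj z, jj' z, jj'' z, Im z` and `π Ω²`. -/
theorem link_mem (F : Subfield ℂ) (z Ω : ℂ) (hz : 0 < z.im) (hΩ : Ω ≠ 0) (hj : deriv jj z ≠ 0) (h0 : jj z ∈ F) (h1 : deriv jj z ∈ F)
    (h2 : deriv (deriv jj) z ∈ F) (hI : I ∈ F) (hy : (z.im : ℂ) ∈ F) (hθ : Real.pi * Ω ^ 2 ∈ F) :
    e4 z / Ω ^ 4 ∈ F ∧ e6 z / Ω ^ 6 ∈ F ∧ e2s z / Ω ^ 2 ∈ F := by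
  have n2 : (2 : ℂ) ∈ F := by simp
  have n3 : (3 : ℂ) ∈ F := by simp
  have n4 : (4 : ℂ) ∈ F := by simp
  have n6 : (6 : ℂ) ∈ F := by simp
  have n1728 : (1728 : ℂ) ∈ F := by simp
  have a4 : e4 z / Ω ^ 4 ∈ F := by
    rw [link4 z Ω hz hΩ hj]
    exact F.div_mem (F.neg_mem (F.pow_mem h1 2))
      (F.mul_mem (F.mul_mem (F.mul_mem n4 (F.pow_mem hθ 2)) h0) (F.sub_mem h0 n1728))
  have a6 : e6 z / Ω ^ 6 ∈ F := by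
    rw [link6 z Ω hz hΩ hj]
    exact F.mul_mem a4 (F.div_mem (F.neg_mem h1) (F.mul_mem (F.mul_mem (F.mul_mem n2 hI) h0) hθ))
  refine ⟨a4, a6, ?_⟩
  rw [link2 z Ω hz hΩ hj]
  refine F.mul_mem n6 (F.add_mem (F.add_mem ?_ ?_) ?_)
  · exact F.div_mem (F.sub_mem (F.div_mem h2 h1) (F.div_mem hI hy)) (F.mul_mem (F.mul_mem n2 hI) hθ)
  · exact F.mul_mem (F.div_mem n2 n3) (F.div_mem a6 a4)
  · exact F.div_mem (F.pow_mem a4 2) (F.mul_mem n2 a6)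

end Pool.Agent.MSD
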