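import Pool.Agent.Lib.MP_f58a57_nt.Defs

/-! # G3: orbits, special points, equivalence (MP_f58a57_nt) -/

open Complex ModularForm EisensteinSeries Filter
open UpperHalfPlane hiding I
open scoped Topology MatrixGroups

noncomputable section

namespace Pool.Agent.MSD

theorem rt_sq_g3 (d : ℕ) : rt d ^ 2 = -(d : ℂ) := by
  unfold rt
  rw [mul_pow, I_sq, ← Complex.ofReal_pow, Real.sq_sqrt (Nat.cast_nonneg d)]
  push_cast
  ring

theorem rt_algebraic_g3 (d : ℕ) : IsAlgebraic ℚ (rt d) := by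
  refine ⟨Polynomial.X ^ 2 + Polynomial.C (d : ℚ), ?_, ?_⟩
  · exact (Polynomial.monic_X_pow_add_C (d : ℚ) (by norm_num)).ne_zero
  · simp [rt_sq_g3]

/-- G3a. elements of `K` are algebraic, `K` is a field closed under conjugation. -/
theorem KK_algebraic (d : ℕ) (w : ℂ) (h : w ∈ KK d) : IsAlgebraic ℚ w := by
  obtain ⟨u, v, rfl⟩ := h
  have hu : IsAlgebraic ℚ (u : ℂ) := by
    have := isAlgebraic_algebraMap (R := ℚ) (A := ℂ) u
    simpa using this
  have hv : IsAlgebraic ℚ (v : ℂ) := by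
    have := isAlgebraic_algebraMap (R := ℚ) (A := ℂ) v
    simpa using this
  exact hu.add (hv.mul (rt_algebraic_g3 d))

theorem KK_conj_g3 (d : ℕ) (w : ℂ) (h : w ∈ KK d) : (starRingEnd ℂ) w ∈ KK d := by
  obtain ⟨u, v, rfl⟩ := h
  refine ⟨u, -v, ?_⟩
  unfold rt
  simp

/-- G3b. A point of the orbit is the value of a Möbius transformation with entries in `K`; `N > 0` at `t`. -/
theorem orbit_mob (d : ℕ) (t : ℝ) (z : ℂ) (hz : 0 < z.im) (h : InOrbit d t z) :
    ∃ m : Mob, m.InK d ∧ m.app (t : ℂ) = z ∧ 0 < m.N (t : ℂ) := by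
  obtain ⟨a, b, c, e, ha, hb, hc, he, hdet, hne, hzz⟩ := h
  refine ⟨⟨a, b, c, e, hdet⟩, ⟨ha, hb, hc, he⟩, hzz.symm, ?_⟩
  show 0 < ((a * (t : ℂ) + b) * (starRingEnd ℂ) (c * (t : ℂ) + e)).im
  have h1 : a * (t : ℂ) + b = z * (c * t + e) := by
    rw [hzz, div_mul_cancel₀ _ hne]
  rw [h1, mul_assoc, Complex.mul_conj, Complex.im_mul_ofReal]
  exact mul_pos hz (Complex.normSq_pos.mpr hne)

/-- G3c. `t` and `Im z` are algebraic over `ℚ(z)`: `t = (e z - b)/(a - c z)`, `Im z = (z - z̄)/(2i)`, `z̄ = (ā t + b̄)/(c̄ t + ē)`. -/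
theorem t_algebraic (d : ℕ) (t : ℝ) (z : ℂ) (hz : 0 < z.im) (h : InOrbit d t z) (F : IntermediateField ℚ ℂ) (hF : z ∈ F) :
    IsAlgebraic F (t : ℂ) ∧ IsAlgebraic F (z.im : ℂ) := by
  obtain ⟨a, b, c, e, ha, hb, hc, he, hdet, hne, hzz⟩ := h
  have hK : ∀ w ∈ KK d, IsAlgebraic F w := fun w hw => (KK_algebraic d w hw).extendScalars
    (FaithfulSMul.algebraMap_injective ℚ F)
  have hzF : IsAlgebraic F z := by
    have := isAlgebraic_algebraMap (R := F) (A := ℂ) ⟨z, hF⟩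
    simpa using this
  have h1 : a * (t : ℂ) + b = z * (c * t + e) := by
    rw [hzz, div_mul_cancel₀ _ hne]
  have h2 : a - c * z ≠ 0 := by
    intro h0
    apply hdet
    have : (a - c * z) * (c * t + e) = a * e - b * c := by linear_combination c * h1
    rw [← this, h0, zero_mul]
  have h3 : (t : ℂ) = (e * z - b) / (a - c * z) := by
    rw [eq_div_iff h2]
    linear_combination h1
  have ht : IsAlgebraic F (t : ℂ) := by
    rw [h3]
    exact (((hK e he).mul hzF).sub (hK b hb)).mul ((hK a ha).sub ((hK c hc).mul hzF)).inv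
  refine ⟨ht, ?_⟩
  have h4 : (starRingEnd ℂ) z = ((starRingEnd ℂ) a * t + (starRingEnd ℂ) b) / ((starRingEnd ℂ) c * t + (starRingEnd ℂ) e) := by
    rw [hzz]
    simp
  have h5 : IsAlgebraic F ((starRingEnd ℂ) z) := by
    rw [h4]
    exact (((hK _ (KK_conj_g3 d a ha)).mul ht).add (hK _ (KK_conj_g3 d b hb))).mul
      (((hK _ (KK_conj_g3 d c hc)).mul ht).add (hK _ (KK_conj_g3 d e he))).inv
  have h6 : (z.im : ℂ) = (z - (starRingEnd ℂ) z) * (2 * I)⁻¹ := by
    rw [Complex.sub_conj]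
    field_simp
    push_cast
    ring
  rw [h6]
  have h7 : IsAlgebraic F (2 * I) := by
    have hI : IsAlgebraic F I := by
      refine ⟨Polynomial.X ^ 2 + Polynomial.C 1, ?_, ?_⟩
      · exact (Polynomial.monic_X_pow_add_C (1 : F) (by norm_num)).ne_zero
      · simp
    have h8 : IsAlgebraic F (2 : ℂ) := by
      have h9 : (2 : ℂ) = 1 + 1 := by norm_num
      rw [h9]
      exact isAlgebraic_one.add isAlgebraic_one
    exact h8.mul hI
  exact (hzF.sub h5).mul h7.inv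

end Pool.Agent.MSD
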