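import Pool.Agent.Lib.MP_f58a57_nt.G3_Orbit

/-! # G3ef: points of K (MP_f58a57_nt) -/

open Complex ModularForm EisensteinSeries Filter
open UpperHalfPlane hiding I
open scoped Topology MatrixGroups

noncomputable section

namespace Pool.Agent.MSD

theorem g3e_rt_sq (d : ℕ) : rt d ^ 2 = -(d : ℂ) := by
  rw [rt, mul_pow, I_sq]
  have : ((Real.sqrt d : ℂ)) ^ 2 = ((Real.sqrt d ^ 2 : ℝ) : ℂ) := by push_cast; rfl
  rw [this, Real.sq_sqrt (Nat.cast_nonneg d)]
  push_cast
  ring

theorem g3e_im (d : ℕ) (u v : ℚ) : ((u : ℂ) + v * rt d).im = v * Real.sqrt d := by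
  simp [rt]

/-- G3e. Two points of `K` in the upper half plane are in one `GL₂(ℚ)`-orbit; points of `K ∖ ℝ` are special. -/
theorem equiv_of_KK (d : ℕ) (z w : ℂ) (hz : 0 < z.im) (hw : 0 < w.im) (h : z ∈ KK d) (h' : w ∈ KK d) : GEquiv z w := by
  obtain ⟨u, v, rfl⟩ := h
  obtain ⟨u', v', rfl⟩ := h'
  rw [g3e_im] at hz hw
  have hv : v ≠ 0 := by
    rintro rfl
    simp at hz
  have hv' : v' ≠ 0 := by
    rintro rfl
    simp at hw
  have hvC : (v : ℂ) ≠ 0 := by exact_mod_cast hv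
  have hvC' : (v' : ℂ) ≠ 0 := by exact_mod_cast hv'
  refine ⟨v' / v, u' - v' * u / v, 0, 1, ?_, ?_, ?_⟩
  · push_cast
    simp only [mul_one, mul_zero, sub_zero]
    exact div_ne_zero hvC' hvC
  · push_cast
    simp
  · push_cast
    field_simp
    ring

theorem special_of_KK (d : ℕ) (z : ℂ) (h : z ∈ KK d) : IsSpecial z := by
  obtain ⟨u, v, rfl⟩ := h
  have hu : (u : ℂ) * (u.den : ℂ) = (u.num : ℂ) := by
    have := Rat.mul_den_eq_num u
    exact_mod_cast this
  have hv : (v : ℂ) * (v.den : ℂ) = (v.num : ℂ) := by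
    have := Rat.mul_den_eq_num v
    exact_mod_cast this
  refine ⟨((u.den : ℤ) * v.den) ^ 2, -2 * u.num * u.den * (v.den : ℤ) ^ 2,
    u.num ^ 2 * (v.den : ℤ) ^ 2 + v.num ^ 2 * (u.den : ℤ) ^ 2 * d, ?_, ?_⟩
  · rintro ⟨h1, -, -⟩
    have h1' : ((u.den : ℤ) * v.den) ^ 2 ≠ 0 := by
      refine pow_ne_zero _ (mul_ne_zero ?_ ?_)
      · exact_mod_cast u.den_ne_zero
      · exact_mod_cast v.den_ne_zero
    exact h1' h1
  · push_cast
    rw [← hu, ← hv]
    have hr := g3e_rt_sq d
    linear_combination ((v : ℂ) ^ 2 * (u.den : ℂ) ^ 2 * (v.den : ℂ) ^ 2) * hr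

/-- G3f. If `t` is transcendental, the points of the orbit are not special (`t` is algebraic over `ℚ(z)`). -/
theorem not_special (d : ℕ) (t : ℝ) (ht : Transcendental ℚ (t : ℂ)) (z : ℂ) (hz : 0 < z.im) (h : InOrbit d t z) : ¬ IsSpecial z := by
  rintro ⟨A, B, C, hne, hq⟩
  obtain ⟨a, b, c, e, ha, hb, hc, he, hdet, hct, hzz⟩ := h
  have halg : IsAlgebraic ℚ z := by
    refine ⟨Polynomial.C (A : ℚ) * Polynomial.X ^ 2 + Polynomial.C (B : ℚ) * Polynomial.X +
      Polynomial.C (C : ℚ), ?_, ?_⟩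
    · intro h0
      apply hne
      have h2 := congrArg (fun p => Polynomial.coeff p 2) h0
      have h1 := congrArg (fun p => Polynomial.coeff p 1) h0
      have h3 := congrArg (fun p => Polynomial.coeff p 0) h0
      simp [Polynomial.coeff_X, Polynomial.coeff_C, -eq_intCast, -map_intCast] at h1 h2 h3
      exact ⟨h2, h1, h3⟩
    · simp only [map_add, map_mul, map_pow, Polynomial.aeval_C, Polynomial.aeval_X]
      simpa using hq
  have ha' := KK_algebraic d a ha
  have hb' := KK_algebraic d b hb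
  have hc' := KK_algebraic d c hc
  have he' := KK_algebraic d e he
  have hzm : z * (c * t + e) = a * t + b := by
    rw [hzz]
    exact div_mul_cancel₀ _ hct
  have hacz : a - c * z ≠ 0 := by
    intro h0
    have h1 : z * e = b := by
      linear_combination hzm + (t : ℂ) * h0
    apply hdet
    linear_combination e * h0 + c * h1
  have hteq : (t : ℂ) = (e * z - b) * (a - c * z)⁻¹ := by
    rw [eq_mul_inv_iff_mul_eq₀ hacz]
    linear_combination -hzm
  apply ht
  rw [hteq]
  exact ((he'.mul halg).sub hb').mul ((ha'.sub (hc'.mul halg)).inv)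

end Pool.Agent.MSD
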