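import Pool.Agent.Lib.MP_f58a57_nt.Defs

/-! # G4: a transcendence degree lemma (MP_f58a57_nt) -/

open Complex ModularForm EisensteinSeries Filter
open UpperHalfPlane hiding I
open scoped Topology MatrixGroups

noncomputable section

namespace Pool.Agent.MSD

/-- G4. PROOF. Let `E = ℚ(S)`, `E' = ℚ(S ∪ T)`; all members of the algebraically independent family are algebraic over `E'`, so
`N ≤ trdeg E' ≤ trdeg E + card T`. -/
theorem trdeg_lower (J : Type) [Fintype J] (a : J → ℂ) (ha : AlgebraicIndependent ℚ a) (S : Set ℂ) (T : Finset ℂ)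
    (h : ∀ j, IsAlgebraic (IntermediateField.adjoin ℚ (S ∪ (T : Set ℂ))) (a j)) :
    (Fintype.card J : Cardinal) ≤ Algebra.trdeg ℚ (IntermediateField.adjoin ℚ S) + T.card := by
  classical
  let M := AlgebraicIndependent.matroid ℚ ℂ
  have hind : M.Indep (Set.range a) := ha.to_subtype_range
  have hsub : Set.range a ⊆ M.closure (S ∪ (T : Set ℂ)) := by
    rintro _ ⟨j, rfl⟩
    have h1 := IntermediateField.isAlgebraic_adjoin_iff.1 (h j)
    have h2 : M.closure (S ∪ (T : Set ℂ)) =
        Subalgebra.algebraicClosure (Algebra.adjoin ℚ (S ∪ (T : Set ℂ))) ℂ :=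
      AlgebraicIndependent.matroid_closure_eq
    rw [h2]
    exact h1
  have hrk : (Set.range a).encard ≤ M.eRk S + (T.card : ℕ∞) := by
    calc (Set.range a).encard = M.eRk (Set.range a) := hind.eRk_eq_encard.symm
      _ ≤ M.eRk (M.closure (S ∪ (T : Set ℂ))) := M.eRk_mono hsub
      _ = M.eRk (S ∪ (T : Set ℂ)) := M.eRk_closure_eq _
      _ ≤ M.eRk S + (T : Set ℂ).encard := M.eRk_union_le_eRk_add_encard _ _
      _ = M.eRk S + (T.card : ℕ∞) := by rw [Set.encard_coe_eq_coe_finsetCard]
  have hcard : (Set.range a).encard = (Fintype.card J : ℕ∞) := by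
    rw [← Set.image_univ, ha.injective.encard_image, Set.encard_univ, ENat.card_eq_coe_fintype_card]
  obtain ⟨B, hB⟩ := M.exists_isBasis S
  have hBind : AlgebraicIndependent ℚ ((↑) : B → ℂ) := hB.indep
  have hBS : B ⊆ S := hB.subset
  let E := IntermediateField.adjoin ℚ S
  let x : B → E := fun b => ⟨b, IntermediateField.subset_adjoin ℚ S (hBS b.2)⟩
  have hx : AlgebraicIndependent ℚ x := by
    apply AlgebraicIndependent.of_comp (E.val)
    exact hBind
  have hle : Cardinal.mk B ≤ Algebra.trdeg ℚ E := hx.cardinalMk_le_trdeg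
  rw [hcard, ← hB.encard_eq_eRk] at hrk
  by_cases hfin : B.Finite
  · have h1 : B.encard = (hfin.toFinset.card : ℕ∞) := hfin.encard_eq_coe_toFinset_card
    rw [h1] at hrk
    have h2 : Fintype.card J ≤ hfin.toFinset.card + T.card := by exact_mod_cast hrk
    have h3 : Cardinal.mk B = (hfin.toFinset.card : Cardinal) := by
      rw [← Cardinal.mk_coe_finset]
      exact (Cardinal.mk_congr (Equiv.setCongr hfin.coe_toFinset)).symm
    calc (Fintype.card J : Cardinal) ≤ ((hfin.toFinset.card + T.card : ℕ) : Cardinal) := by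
          exact_mod_cast h2
      _ = Cardinal.mk B + (T.card : Cardinal) := by rw [h3]; push_cast; rfl
      _ ≤ Algebra.trdeg ℚ E + (T.card : Cardinal) := by gcongr
  · have h1 : Cardinal.aleph0 ≤ Cardinal.mk B := by
      rw [← Cardinal.infinite_iff]
      exact (Set.infinite_coe_iff).2 hfin
    calc (Fintype.card J : Cardinal) ≤ Cardinal.aleph0 := Cardinal.natCast_lt_aleph0.le
      _ ≤ Algebra.trdeg ℚ E := h1.trans hle
      _ ≤ Algebra.trdeg ℚ E + (T.card : Cardinal) := le_self_add

end Pool.Agent.MSD
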