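import Pool.Agent.Lib.MP_f58a57_nt.B8_Base
import Pool.Agent.Lib.MP_f58a57_nt.G1_AlgIndep
import Pool.Agent.Lib.MP_f58a57_nt.G2_Link
import Pool.Agent.Lib.MP_f58a57_nt.G3_Orbit
import Pool.Agent.Lib.MP_f58a57_nt.G3d_Circle
import Pool.Agent.Lib.MP_f58a57_nt.G3e_KK
import Pool.Agent.Lib.MP_f58a57_nt.G4_Trdeg

/-! # G5: the final theorem (MP_f58a57_nt) -/

open Complex ModularForm EisensteinSeries Filter
open UpperHalfPlane hiding I
open scoped Topology MatrixGroups

noncomputable section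

namespace Pool.Agent.MSD

/-- arithmetic of the transcendence degree bound -/
theorem card_arith (c : Cardinal) (u p q r : ℕ) (h : ((u + 3 * p : ℕ) : Cardinal) ≤ c + (r : Cardinal))
    (h2 : r + q ≤ u) : ((3 * p + q : ℕ) : Cardinal) ≤ c := by
  rcases lt_or_ge c Cardinal.aleph0 with hc | hc
  · obtain ⟨k, rfl⟩ := Cardinal.lt_aleph0.1 hc
    have : u + 3 * p ≤ k + r := by exact_mod_cast h
    have : 3 * p + q ≤ k := by omega
    exact_mod_cast this
  · exact (Cardinal.natCast_lt_aleph0 (n := 3 * p + q)).le.trans hc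

/-- G5. Modular Schanuel (with derivatives and special points) for hyper-Liouville orbits. -/
theorem main {s n : ℕ} (d : Fin s → ℕ) (hd : ∀ l, 0 < d l) (t : Fin s → ℝ) (ht : HyperLiouville t)
    (z : Fin n → ℂ) (hz : ∀ i, 0 < (z i).im) (hind : ∀ i j, i ≠ j → ¬ GEquiv (z i) (z j))
    (hj : ∀ i, deriv jj (z i) ≠ 0)
    (hor : ∀ i, (∃ l, InOrbit (d l) (t l) (z i)) ∨ ∃ l, z i ∈ KK (d l) ∧ ∃ i', InOrbit (d l) (t l) (z i')) :
    ((3 * Nat.card {i // ¬ IsSpecial (z i)} + Nat.card {i // IsSpecial (z i)} : ℕ) : Cardinal) ≤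
      Algebra.trdeg ℚ (IntermediateField.adjoin ℚ
        (⋃ i, {z i, jj (z i), deriv jj (z i), deriv (deriv jj) (z i)} : Set ℂ)) := by
  classical
  choose Ω hΩ using fun l => cm_base (d l) (hd l)
  -- the `t l` are transcendental
  have htr : ∀ l, Transcendental ℚ (t l : ℂ) := by
    intro l
    have h := alg_indep d hd t ht Ω hΩ (fun _ => Empty) (fun _ e => e.elim)
      (fun _ e => e.elim) (fun _ e => e.elim) (fun _ e => e.elim)
    exact h.transcendental ⟨l, none⟩
  have hns : ∀ i, ¬ IsSpecial (z i) → ∃ l, InOrbit (d l) (t l) (z i) := by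
    intro i hi
    rcases hor i with h | ⟨l, h, _⟩
    · exact h
    · exact absurd (special_of_KK _ _ h) hi
  have hsp : ∀ i, IsSpecial (z i) → ∃ l, z i ∈ KK (d l) ∧ ∃ i', InOrbit (d l) (t l) (z i') := by
    intro i hi
    rcases hor i with ⟨l, h⟩ | h
    · exact absurd hi (not_special _ _ (htr l) _ (hz i) h)
    · exact h
  choose f hf using fun i : {i // ¬ IsSpecial (z i)} => hns i.1 i.2
  choose g hg hg' using fun i : {i // IsSpecial (z i)} => hsp i.1 i.2
  choose m hmK hmz hmN using fun i : {i // ¬ IsSpecial (z i)} => orbit_mob _ _ _ (hz i.1) (hf i)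
  have hginj : Function.Injective g := by
    intro i j hij
    by_contra hne
    have hne' : i.1 ≠ j.1 := fun h => hne (Subtype.ext h)
    have h1 := hg i
    rw [hij] at h1
    exact hind _ _ hne' (equiv_of_KK _ _ _ (hz i.1) (hz j.1) h1 (hg j))
  let ι : Fin s → Type := fun l => {i : {i // ¬ IsSpecial (z i)} // f i = l}
  let h : ∀ l, ι l → Mob := fun l i => m i.1
  have hAI := alg_indep d hd t ht Ω hΩ ι h
    (fun l i => by obtain ⟨i, rfl⟩ := i; exact hmK i)
    (fun l i => by obtain ⟨i, rfl⟩ := i; exact hmN i)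
    (fun l i j hij => by
      obtain ⟨i, rfl⟩ := i
      obtain ⟨j, hjl⟩ := j
      by_contra hne
      have hne' : i.1 ≠ j.1 := by
        intro he
        apply hij
        have : i = j := Subtype.ext he
        subst this
        rfl
      have h1 := equiv_of_same_circle (d (f i)) (t (f i)) (m i) (m j) (hmK i) (hjl ▸ hmK j)
        (hmN i) (hjl ▸ hmN j) hne
      rw [hmz i, ← hjl, hmz j] at h1
      exact hind _ _ hne' h1)
  set U : Finset (Fin s) := Finset.univ.filter (fun l => ∃ i, InOrbit (d l) (t l) (z i)) with hU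
  -- the finite family
  let J : Type := {l // l ∈ U} ⊕ ({i // ¬ IsSpecial (z i)} × Fin 3)
  let φ : J → (Σ l, Option (ι l × Fin 3)) :=
    Sum.elim (fun l => ⟨l.1, none⟩) (fun q => ⟨f q.1, some (⟨q.1, rfl⟩, q.2)⟩)
  have hφ : Function.Injective φ := by
    rintro (a | ⟨i, κ⟩) (b | ⟨j, κ'⟩) hab
    · have := congrArg Sigma.fst hab
      simp only [φ, Sum.elim_inl] at this
      exact congrArg Sum.inl (Subtype.ext this)
    · exfalso
      have := congrArg (fun p : (Σ l, Option (ι l × Fin 3)) =>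
        p.2.map (fun q => ((q.1.1 : {i // ¬ IsSpecial (z i)}), q.2))) hab
      simp [φ] at this
    · exfalso
      have := congrArg (fun p : (Σ l, Option (ι l × Fin 3)) =>
        p.2.map (fun q => ((q.1.1 : {i // ¬ IsSpecial (z i)}), q.2))) hab
      simp [φ] at this
    · have := congrArg (fun p : (Σ l, Option (ι l × Fin 3)) =>
        p.2.map (fun q => ((q.1.1 : {i // ¬ IsSpecial (z i)}), q.2))) hab
      simp only [φ, Sum.elim_inr, Option.map_some, Option.some.injEq] at this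
      rw [this]
  have hAI' := hAI.comp φ hφ
  set S : Set ℂ := ⋃ i, {z i, jj (z i), deriv jj (z i), deriv (deriv jj) (z i)} with hS
  set G : Finset (Fin s) := Finset.univ.image g with hG
  set T : Finset ℂ := (U \ G).image (fun l => (Real.pi : ℂ) * Ω l ^ 2) with hT
  set L := IntermediateField.adjoin ℚ (S ∪ (T : Set ℂ)) with hL
  have hSL : ∀ x ∈ S, x ∈ L := fun x hx => IntermediateField.subset_adjoin _ _ (Or.inl hx)
  have hTL : ∀ x ∈ T, x ∈ L := fun x hx => IntermediateField.subset_adjoin _ _ (Or.inr hx)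
  have hzS : ∀ i, z i ∈ S := fun i => Set.mem_iUnion.2 ⟨i, by simp⟩
  have hjS : ∀ i, jj (z i) ∈ S := fun i => Set.mem_iUnion.2 ⟨i, by simp⟩
  have hj1S : ∀ i, deriv jj (z i) ∈ S := fun i => Set.mem_iUnion.2 ⟨i, by simp⟩
  have hj2S : ∀ i, deriv (deriv jj) (z i) ∈ S := fun i => Set.mem_iUnion.2 ⟨i, by simp⟩
  -- the relative algebraic closure
  set F : Subfield ℂ := (algebraicClosure L ℂ).toSubfield with hF
  have hFmem : ∀ x : ℂ, x ∈ F ↔ IsAlgebraic L x := by
    intro x
    rw [hF]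
    exact mem_algebraicClosure_iff
  have hLF : ∀ x ∈ L, x ∈ F := fun x hx => (hFmem x).2 (isAlgebraic_algebraMap (⟨x, hx⟩ : L))
  have hQF : ∀ x : ℂ, IsAlgebraic ℚ x → x ∈ F := fun x hx => (hFmem x).2 (hx.tower_top L)
  have hIF : I ∈ F := hQF _ isIntegral_rat_I.isAlgebraic
  have htF : ∀ l ∈ U, (t l : ℂ) ∈ F := by
    intro l hl
    obtain ⟨i, hi⟩ := (Finset.mem_filter.1 hl).2
    exact (hFmem _).2 (t_algebraic (d l) (t l) (z i) (hz i) hi L (hSL _ (hzS i))).1
  have hθ : ∀ l ∈ U, (Real.pi : ℂ) * Ω l ^ 2 ∈ F := by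
    intro l hl
    by_cases hlG : l ∈ G
    · obtain ⟨i, -, rfl⟩ := Finset.mem_image.1 hlG
      have hA : e4 (z i) / Ω (g i) ^ 4 ∈ F :=
        hQF _ (algebraic_e4 (d (g i)) (hd _) (Ω (g i)) (hΩ _) (z i) (hz i) (hg i))
      obtain ⟨h1, h2, h3, h4⟩ := jj_ne (z i) (hz i) (hj i)
      have hlink := link4 (z i) (Ω (g i)) (hz i) (hΩ _).ne (hj i)
      have hΩ0 := (hΩ (g i)).ne
      have hpi : (Real.pi : ℂ) ≠ 0 := by exact_mod_cast Real.pi_ne_zero
      have hA0 : e4 (z i) / Ω (g i) ^ 4 ≠ 0 := div_ne_zero h3 (pow_ne_zero _ hΩ0)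
      have h1728 : jj (z i) - 1728 ≠ 0 := sub_ne_zero.2 h2
      have hsq : ((Real.pi : ℂ) * Ω (g i) ^ 2) ^ 2 =
          -(deriv jj (z i)) ^ 2 / (4 * (e4 (z i) / Ω (g i) ^ 4) * jj (z i) * (jj (z i) - 1728)) := by
        rw [hlink]
        have := hj i
        field_simp
      have hmem : ((Real.pi : ℂ) * Ω (g i) ^ 2) ^ 2 ∈ F := by
        rw [hsq]
        have hj0F := hLF _ (hSL _ (hjS i))
        have hj1F := hLF _ (hSL _ (hj1S i))
        have h1728F : (1728 : ℂ) ∈ F := by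
          have := natCast_mem F 1728
          exact_mod_cast this
        have h4F : (4 : ℂ) ∈ F := by
          have := natCast_mem F 4
          exact_mod_cast this
        exact F.div_mem (F.neg_mem (F.pow_mem hj1F 2))
          (F.mul_mem (F.mul_mem (F.mul_mem h4F hA) hj0F) (F.sub_mem hj0F h1728F))
      exact (hFmem _).2 (IsAlgebraic.of_pow two_pos ((hFmem _).1 hmem))
    · exact hLF _ (hTL _ (Finset.mem_image.2 ⟨l, Finset.mem_sdiff.2 ⟨hl, hlG⟩, rfl⟩))
  have hfU : ∀ i, f i ∈ U := fun i => Finset.mem_filter.2 ⟨Finset.mem_univ _, _, hf i⟩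
  have hgU : ∀ i, g i ∈ U := fun i => Finset.mem_filter.2 ⟨Finset.mem_univ _, hg' i⟩
  have halg : ∀ j : J, IsAlgebraic L (famS (h (φ j).1) (Ω (φ j).1) (t (φ j).1 : ℂ) (φ j).2) := by
    rintro (l | ⟨i, κ⟩)
    · exact (hFmem _).1 (htF l.1 l.2)
    · rw [← hFmem]
      have hreal := famS_real (h (f i)) (Ω (f i)) (t (f i)) (⟨i, rfl⟩ : ι (f i)) κ (hmN i)
      change famS (h (f i)) (Ω (f i)) (t (f i) : ℂ) (some ((⟨i, rfl⟩ : ι (f i)), κ)) ∈ F
      rw [hreal]
      have hap : (h (f i) (⟨i, rfl⟩ : ι (f i))).app (t (f i) : ℂ) = z i := hmz i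
      rw [hap]
      have hy : ((z i).im : ℂ) ∈ F :=
        (hFmem _).2 (t_algebraic (d (f i)) (t (f i)) (z i) (hz i) (hf i) L (hSL _ (hzS i))).2
      obtain ⟨ha, hb, hc⟩ := link_mem F (z i) (Ω (f i)) (hz i) (hΩ _).ne (hj i)
        (hLF _ (hSL _ (hjS i))) (hLF _ (hSL _ (hj1S i))) (hLF _ (hSL _ (hj2S i))) hIF hy
        (hθ _ (hfU i))
      fin_cases κ
      · exact hc
      · exact ha
      · exact hb
  have hmain := trdeg_lower J _ hAI' S T halg
  have hcardJ : Fintype.card J = U.card + 3 * Nat.card {i // ¬ IsSpecial (z i)} := by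
    simp only [J, Fintype.card_sum, Fintype.card_prod, Fintype.card_fin, Fintype.card_coe,
      Nat.card_eq_fintype_card]
    ring
  rw [hcardJ] at hmain
  refine card_arith _ U.card _ _ T.card hmain ?_
  have hGU : G ⊆ U := by
    intro l hl
    obtain ⟨i, -, rfl⟩ := Finset.mem_image.1 hl
    exact hgU i
  have hGcard : G.card = Nat.card {i // IsSpecial (z i)} := by
    rw [hG, Finset.card_image_of_injective _ hginj, Nat.card_eq_fintype_card]
    rfl
  have hTcard : T.card ≤ (U \ G).card := Finset.card_image_le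
  rw [Finset.card_sdiff_of_subset hGU] at hTcard
  have := Finset.card_le_card hGU
  omega

end Pool.Agent.MSD
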