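import Pool.Agent.Lib.MP_f58a57_nt.Defs

/-! # G6: hyper-Liouville systems form a dense G-delta set (MP_f58a57_nt) -/

open Complex ModularForm EisensteinSeries Filter
open UpperHalfPlane hiding I
open scoped Topology MatrixGroups

noncomputable section

namespace Pool.Agent.MSD

/-- the open set for given `C` and `x` -/
def G6U {s : ℕ} (C : ℕ) (x : Fin s → ℚ) : Set (Fin s → ℝ) :=
  (⋂ l, {t | 0 < |t l - x l|}) ∩ ((⋂ l, {t | |t l - x l| < Real.exp (-(Bd x : ℝ) ^ C)}) ∩
    ⋂ l, ⋂ l', ⋂ (_ : l < l'), {t | |t l - x l| < |t l' - x l'| ^ C})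

theorem G6U_open {s : ℕ} (C : ℕ) (x : Fin s → ℚ) : IsOpen (G6U C x) := by
  unfold G6U
  refine IsOpen.inter ?_ (IsOpen.inter ?_ ?_)
  · refine isOpen_iInter_of_finite fun l => ?_
    exact isOpen_lt continuous_const (by fun_prop)
  · refine isOpen_iInter_of_finite fun l => ?_
    exact isOpen_lt (by fun_prop) continuous_const
  · refine isOpen_iInter_of_finite fun l => isOpen_iInter_of_finite fun l' =>
      isOpen_iInter_of_finite fun _ => ?_
    exact isOpen_lt (by fun_prop) (by fun_prop)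

theorem G6_eq (s : ℕ) : {t : Fin s → ℝ | HyperLiouville t} = ⋂ C : ℕ, ⋃ x : Fin s → ℚ, G6U C x := by
  ext t
  simp only [Set.mem_ofPred_eq, HyperLiouville, Set.mem_iInter, Set.mem_iUnion, G6U, Set.mem_inter_iff]

theorem G6_dense (s C : ℕ) : Dense (⋃ x : Fin s → ℚ, G6U C x) := by
  rw [Metric.dense_iff]
  intro t0 r hr
  have hex : ∀ l, ∃ q : ℚ, t0 l < q ∧ (q : ℝ) < t0 l + r / 2 := fun l =>
    exists_rat_btwn (by linarith)
  choose x hx1 hx2 using hex
  set E : ℝ := Real.exp (-(Bd x : ℝ) ^ C) with hE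
  have hEpos : 0 < E := Real.exp_pos _
  set ee : ℝ := min (r / 4) (min (1 / 2) (E / 2)) with hee
  have hee0 : 0 < ee := lt_min (by linarith) (lt_min (by norm_num) (by linarith))
  have hee1 : ee ≤ r / 4 := min_le_left _ _
  have hee2 : ee ≤ 1 / 2 := (min_le_right _ _).trans (min_le_left _ _)
  have hee3 : ee ≤ E / 2 := (min_le_right _ _).trans (min_le_right _ _)
  set K : Fin s → ℕ := fun l => (C + 1) ^ (s - (l : ℕ)) with hK
  have hK1 : ∀ l, 1 ≤ K l := fun l => Nat.one_le_pow _ _ (Nat.succ_pos _)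
  have hKee : ∀ l, ee ^ K l ≤ ee := by
    intro l
    calc ee ^ K l ≤ ee ^ 1 := pow_le_pow_of_le_one hee0.le (by linarith) (hK1 l)
      _ = ee := pow_one _
  have hKpos : ∀ l, 0 < ee ^ K l := fun l => pow_pos hee0 _
  refine ⟨fun l => x l + ee ^ K l, ?_, ?_⟩
  · rw [Metric.mem_ball, dist_pi_lt_iff hr]
    intro l
    rw [Real.dist_eq, abs_lt]
    have h1 := hx1 l
    have h2 := hx2 l
    have h3 := hKee l
    have h4 := hKpos l
    constructor <;> linarith
  · rw [Set.mem_iUnion]
    refine ⟨x, ?_, ?_, ?_⟩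
    · rw [Set.mem_iInter]
      intro l
      show 0 < |(x l : ℝ) + ee ^ K l - x l|
      rw [add_sub_cancel_left, abs_of_pos (hKpos l)]
      exact hKpos l
    · rw [Set.mem_iInter]
      intro l
      show |(x l : ℝ) + ee ^ K l - x l| < E
      rw [add_sub_cancel_left, abs_of_pos (hKpos l)]
      have := hKee l
      linarith
    · simp only [Set.mem_iInter]
      intro l l' hl
      show |(x l : ℝ) + ee ^ K l - x l| < |(x l' : ℝ) + ee ^ K l' - x l'| ^ C
      rw [add_sub_cancel_left, add_sub_cancel_left, abs_of_pos (hKpos l), abs_of_pos (hKpos l'),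
        ← pow_mul]
      refine pow_lt_pow_right_of_lt_one₀ hee0 (by linarith) ?_
      have h5 : (l : ℕ) < (l' : ℕ) := hl
      have h6 : s - (l' : ℕ) + 1 ≤ s - (l : ℕ) := by omega
      calc K l' * C < K l' * (C + 1) := Nat.mul_lt_mul_of_pos_left (Nat.lt_succ_self _) (hK1 l')
        _ = (C + 1) ^ (s - (l' : ℕ) + 1) := by rw [pow_succ]
        _ ≤ (C + 1) ^ (s - (l : ℕ)) := Nat.pow_le_pow_right (Nat.succ_pos _) h6

/-- G6. PROOF. For fixed `C` the set of `t` for which some `x : Fin s → ℚ` satisfies the three (strict, open) conditions is open; it is dense: in every box choose rational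
`x l`, and `t l = x l + u l` with `0 < u (s-1)` very small and `u l = u (l+1) ^ K` with `K` large... (for `l < l'`: `u l < u l' ^ C`). The intersection over `C` is a dense
`G_δ` by Baire. -/
theorem dense_hyperLiouville (s : ℕ) : IsGδ {t : Fin s → ℝ | HyperLiouville t} ∧ Dense {t : Fin s → ℝ | HyperLiouville t} := by
  rw [G6_eq]
  have ho : ∀ C : ℕ, IsOpen (⋃ x : Fin s → ℚ, G6U C x) := fun C =>
    isOpen_iUnion fun x => G6U_open C x
  exact ⟨IsGδ.iInter_of_isOpen ho, dense_iInter_of_isOpen_nat ho (G6_dense s)⟩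

end Pool.Agent.MSD
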