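import Pool.Agent.Lib.MP_f58a57_nt.Defs

/-! # H00: definitions for the second version (fields of rational functions) (MP_f58a57_nt) -/

open Complex ModularForm EisensteinSeries Filter
open UpperHalfPlane hiding I
open scoped Topology MatrixGroups Polynomial

noncomputable section

namespace Pool.Agent.MSD

/-- the field `ℚ(√(-d))` as a subfield of `ℂ` -/
def KF (d : ℕ) : IntermediateField ℚ ℂ := IntermediateField.adjoin ℚ {rt d}

/-- value of a rational function over `ℚ(√(-d))` at a complex number (junk value `0` at the poles) -/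
def evr {d : ℕ} (R : RatFunc (KF d)) (x : ℂ) : ℂ := R.eval (algebraMap (KF d) ℂ) x

/-- value of the denominator of a rational function over `ℚ(√(-d))` -/
def dn {d : ℕ} (R : RatFunc (KF d)) (x : ℂ) : ℂ := R.denom.eval₂ (algebraMap (KF d) ℂ) x

/-- `R' = (a R + b)/(c R + e)` with rational `a b c e`, `a e - b c ≠ 0` -/
def GRel {d : ℕ} (R R' : RatFunc (KF d)) : Prop :=
  ∃ a b c e : ℚ, a * e - b * c ≠ 0 ∧
    R' * (RatFunc.C (c : KF d) * R + RatFunc.C (e : KF d)) = RatFunc.C (a : KF d) * R + RatFunc.C (b : KF d)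

/-- Value of a polynomial `P` whose coefficients are functions of `x`: the coefficients are evaluated at `x`, the variables at `y`. -/
def pev {σ : Type} (P : MvPolynomial σ (ℂ → ℂ)) (x : ℂ) (y : σ → ℂ) : ℂ :=
  MvPolynomial.eval y (MvPolynomial.map (Pi.evalRingHom (fun _ : ℂ => ℂ) x) P)

/-- the point with the multiplicative coordinate `V = (v - ρ)/(v - ρ')` -/
def hv (ρ ρ' : ℝ) (V : ℂ) : ℂ := (ρ - ρ' * V) / (1 - V)

/-- the factor `a = ((1 - δ V)/(1 - V))²` -/
def ha (V δ : ℂ) : ℂ := ((1 - δ * V) / (1 - V)) ^ 2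

/-- the quasi-modular term -/
def hb (ρ ρ' : ℝ) (V δ : ℂ) : ℂ := -6 * I / Real.pi * (1 - δ) * (1 - δ * V) / ((ρ - ρ') * (1 - V))

/-- The values of `e2, e4, e6` at the point with coordinate `δ V`, expressed through the values at the point with coordinate `V`
(valid for `δ = μ⁻²`, `μ` the eigenvalue of an automorph of `ρ, ρ'`). -/
def hE (ρ ρ' : ℝ) (κ : Fin 3) (V δ : ℂ) : ℂ :=
  ![δ⁻¹ * (ha V δ * e2 (hv ρ ρ' V) + hb ρ ρ' V δ), δ⁻¹ ^ 2 * ha V δ ^ 2 * e4 (hv ρ ρ' V),
    δ⁻¹ ^ 3 * ha V δ ^ 3 * e6 (hv ρ ρ' V)] κ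

/-- `x` is a limit of the arc: property `near x, (f y).im = 0 → (g y).im = 0` -/
def SameArc (f g : ℂ → ℂ) (x : ℂ) : Prop := ∀ᶠ y in 𝓝 x, (f y).im = 0 → (g y).im = 0

/-- the functions for several variables in blocks: the coordinates `x l` and `e2, e4, e6` at `U(x)/V(x)` -/
def famM {s r : ℕ} (d : Fin r → ℕ) {ι : Fin r → Type} (U V : ∀ b, ι b → MvPolynomial (Fin s) (KF (d b)))
    (x : Fin s → ℂ) : Fin s ⊕ (Σ b, ι b × Fin 3) → ℂ
  | Sum.inl l => x l
  | Sum.inr p => EE p.2.2 (MvPolynomial.aeval x (U p.1 p.2.1) / MvPolynomial.aeval x (V p.1 p.2.1))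

end Pool.Agent.MSD
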