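import Pool.Agent.Lib.MP_f58a57_nt.H00_Defs
import Pool.Agent.Lib.MP_f58a57_nt.G3_Orbit

/-! # H01: the field KF d (MP_f58a57_nt) -/

open Complex ModularForm EisensteinSeries Filter
open UpperHalfPlane hiding I
open scoped Topology MatrixGroups Polynomial

noncomputable section

namespace Pool.Agent.MSD

theorem h01_sq (d : ℕ) : rt d * rt d = -(d : ℂ) := by
  have h1 : ((Real.sqrt d : ℝ) : ℂ) * ((Real.sqrt d : ℝ) : ℂ) = (d : ℂ) := by
    rw [← Complex.ofReal_mul, Real.mul_self_sqrt (Nat.cast_nonneg d), Complex.ofReal_natCast]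
  unfold rt
  linear_combination (Complex.I * Complex.I) * h1 + (d : ℂ) * Complex.I_mul_I

theorem h01_re (d : ℕ) : (rt d).re = 0 := by
  unfold rt
  simp

theorem h01_im (d : ℕ) : (rt d).im = Real.sqrt d := by
  unfold rt
  simp

/-- `KK d` as an intermediate field -/
def h01F (d : ℕ) : IntermediateField ℚ ℂ where
  carrier := KK d
  mul_mem' := by
    rintro a b ⟨u, v, rfl⟩ ⟨u', v', rfl⟩
    refine ⟨u * u' - v * v' * d, u * v' + u' * v, ?_⟩
    push_cast
    linear_combination ((v : ℂ) * v') * h01_sq d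
  add_mem' := by
    rintro a b ⟨u, v, rfl⟩ ⟨u', v', rfl⟩
    refine ⟨u + u', v + v', ?_⟩
    push_cast
    ring
  algebraMap_mem' := by
    intro r
    refine ⟨r, 0, ?_⟩
    simp
  inv_mem' := by
    rintro a ⟨u, v, rfl⟩
    by_cases h : (u : ℂ) + v * rt d = 0
    · rw [h, inv_zero]
      exact ⟨0, 0, by simp⟩
    · have hN : (u ^ 2 + v ^ 2 * d : ℚ) ≠ 0 := by
        intro h0
        have h1 : u = 0 := by
          by_contra hu
          have : 0 < u ^ 2 := by positivity
          have : 0 ≤ v ^ 2 * (d : ℚ) := by positivity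
          linarith
        subst h1
        have h2 : v ^ 2 * (d : ℚ) = 0 := by linarith
        rcases mul_eq_zero.1 h2 with h3 | h3
        · have h4 : v = 0 := by simpa using h3
          subst h4
          exact h (by simp)
        · have h4 : d = 0 := by exact_mod_cast h3
          subst h4
          exact h (by simp [rt])
      have hN' : ((u : ℂ) ^ 2 + v ^ 2 * d) ≠ 0 := by exact_mod_cast hN
      refine ⟨u / (u ^ 2 + v ^ 2 * d), -v / (u ^ 2 + v ^ 2 * d), ?_⟩
      push_cast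
      rw [← one_div, div_eq_iff h]
      field_simp
      linear_combination ((v : ℂ) ^ 2) * h01_sq d

/-- H01a. Elements of `KF d` are `u + v √(-d)`. (`KK d` is a subfield: closed under `+, *`, inverses; it contains `rt d`; see `G3_Orbit`.) -/
theorem mem_KF (d : ℕ) (x : ℂ) : x ∈ KF d ↔ x ∈ KK d := by
  constructor
  · intro h
    have h1 : KF d ≤ h01F d := by
      unfold KF
      rw [IntermediateField.adjoin_le_iff]
      intro y hy
      rw [Set.mem_singleton_iff] at hy
      subst hy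
      exact ⟨0, 1, by simp⟩
    exact h1 h
  · rintro ⟨u, v, rfl⟩
    have h1 : rt d ∈ KF d := IntermediateField.mem_adjoin_simple_self ℚ (rt d)
    have h2 : ∀ q : ℚ, (q : ℂ) ∈ KF d := fun q => by
      exact (KF d).algebraMap_mem q
    exact (KF d).add_mem (h2 u) ((KF d).mul_mem (h2 v) h1)

theorem rt_mem_KF (d : ℕ) : rt d ∈ KF d := IntermediateField.mem_adjoin_simple_self ℚ (rt d)

/-- H01b. `KF d` is stable under complex conjugation. -/
theorem conj_mem_KF (d : ℕ) (x : ℂ) (hx : x ∈ KF d) : (starRingEnd ℂ) x ∈ KF d := by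
  rw [mem_KF] at hx ⊢
  exact KK_conj_g3 d x hx

/-- complex conjugation on `KF d` -/
def conjK (d : ℕ) : KF d →+* KF d :=
  ((starRingEnd ℂ).comp (algebraMap (KF d) ℂ)).codRestrict (KF d) (fun x => conj_mem_KF d _ x.2)

theorem conjK_coe (d : ℕ) (x : KF d) : ((conjK d x : KF d) : ℂ) = (starRingEnd ℂ) (x : ℂ) := rfl

/-- H01c. Real elements of `KF d` are rational (`d > 0`). -/
theorem KF_real (d : ℕ) (hd : 0 < d) (x : ℂ) (hx : x ∈ KF d) (him : x.im = 0) : ∃ q : ℚ, x = (q : ℂ) := by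
  rw [mem_KF] at hx
  obtain ⟨u, v, rfl⟩ := hx
  have h1 : ((u : ℂ) + v * rt d).im = v * Real.sqrt d := by
    rw [Complex.add_im, Complex.mul_im, h01_im, h01_re]
    simp
  rw [h1] at him
  have h2 : 0 < Real.sqrt d := Real.sqrt_pos.2 (by exact_mod_cast hd)
  have h3 : (v : ℝ) = 0 := (mul_eq_zero.1 him).resolve_right h2.ne'
  have h4 : v = 0 := by exact_mod_cast h3
  subst h4
  exact ⟨u, by simp⟩

/-- H01d. `KF d` is dense in `ℂ` (`d > 0`). -/
theorem KF_dense (d : ℕ) (hd : 0 < d) (z : ℂ) (ε : ℝ) (hε : 0 < ε) : ∃ x ∈ KF d, ‖x - z‖ < ε := by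
  have h2 : 0 < Real.sqrt d := Real.sqrt_pos.2 (by exact_mod_cast hd)
  obtain ⟨u, hu1, hu2⟩ := exists_rat_btwn (show z.re < z.re + ε / 2 by linarith)
  obtain ⟨v, hv1, hv2⟩ := exists_rat_btwn
    (show z.im / Real.sqrt d < z.im / Real.sqrt d + ε / 2 / Real.sqrt d by
      have : 0 < ε / 2 / Real.sqrt d := by positivity
      linarith)
  refine ⟨(u : ℂ) + v * rt d, (mem_KF d _).2 ⟨u, v, rfl⟩, ?_⟩
  rw [div_lt_iff₀ h2] at hv1
  rw [← add_div, lt_div_iff₀ h2] at hv2
  have e1 : ((u : ℂ) + v * rt d - z).re = u - z.re := by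
    rw [Complex.sub_re, Complex.add_re, Complex.mul_re, h01_im, h01_re]
    simp
  have e2 : ((u : ℂ) + v * rt d - z).im = v * Real.sqrt d - z.im := by
    rw [Complex.sub_im, Complex.add_im, Complex.mul_im, h01_im, h01_re]
    simp
  refine (Complex.norm_le_abs_re_add_abs_im _).trans_lt ?_
  rw [e1, e2, abs_of_pos (by linarith), abs_of_pos (by linarith)]
  linarith

/-- H01e. Algebraicity. -/
theorem KF_algebraic (d : ℕ) (x : ℂ) (hx : x ∈ KF d) : IsAlgebraic ℚ x := by
  rw [mem_KF] at hx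
  exact KK_algebraic d x hx

end Pool.Agent.MSD
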