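import Pool.Agent.Lib.MP_f58a57_nt.H01_KF

/-! # H02: evaluation of rational functions (MP_f58a57_nt) -/

open Complex ModularForm EisensteinSeries Filter
open UpperHalfPlane hiding I
open scoped Topology MatrixGroups Polynomial

noncomputable section

namespace Pool.Agent.MSD

theorem h02_inj (d : ℕ) : Function.Injective (algebraMap (KF d) ℂ) := (algebraMap (KF d) ℂ).injective

theorem h02_poly_finite {d : ℕ} (P : Polynomial (KF d)) (hP : P ≠ 0) :
    {x : ℂ | P.eval₂ (algebraMap (KF d) ℂ) x = 0}.Finite := by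
  have h : (P.map (algebraMap (KF d) ℂ)) ≠ 0 := by
    rwa [Ne, Polynomial.map_eq_zero]
  refine (Polynomial.finite_setOfPred_isRoot h).subset ?_
  intro x hx
  simp only [Set.mem_ofPred_eq] at hx ⊢
  rw [Polynomial.IsRoot.def, Polynomial.eval_map]
  exact hx

theorem h02_poly_diff {d : ℕ} (P : Polynomial (KF d)) :
    Differentiable ℂ (fun x : ℂ => P.eval₂ (algebraMap (KF d) ℂ) x) := by
  have h : (fun x : ℂ => P.eval₂ (algebraMap (KF d) ℂ) x)
      = fun x : ℂ => (P.map (algebraMap (KF d) ℂ)).eval x := by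
    funext x
    rw [Polynomial.eval_map]
  rw [h]
  exact Polynomial.differentiable _

theorem h02_evr_def {d : ℕ} (R : RatFunc (KF d)) (x : ℂ) :
    evr R x = R.num.eval₂ (algebraMap (KF d) ℂ) x / dn R x := rfl

theorem h02_dn_def {d : ℕ} (R : RatFunc (KF d)) (x : ℂ) :
    dn R x = R.denom.eval₂ (algebraMap (KF d) ℂ) x := rfl

/-- H02a. finitely many poles -/
theorem dn_finite {d : ℕ} (R : RatFunc (KF d)) : {x : ℂ | dn R x = 0}.Finite :=
  h02_poly_finite R.denom R.denom_ne_zero

/-- H02b. `evr R` is analytic off the poles, and the set of non-poles is open (as the complement of a finite set). -/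
theorem evr_analytic {d : ℕ} (R : RatFunc (KF d)) (x : ℂ) (hx : dn R x ≠ 0) : AnalyticAt ℂ (evr R) x := by
  have h : evr R = fun x : ℂ => R.num.eval₂ (algebraMap (KF d) ℂ) x /
      R.denom.eval₂ (algebraMap (KF d) ℂ) x := rfl
  rw [h]
  exact ((h02_poly_diff R.num).analyticAt x).div ((h02_poly_diff R.denom).analyticAt x) hx

theorem dn_eventually {d : ℕ} (R : RatFunc (KF d)) (x : ℂ) (hx : dn R x ≠ 0) : ∀ᶠ y in 𝓝 x, dn R y ≠ 0 :=
  (h02_poly_diff R.denom).continuous.continuousAt.eventually_ne hx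

/-- H02c. Two rational functions with equal values at infinitely many points are equal. (`evr R x = num/denom`; cross-multiply off the poles.) -/
theorem evr_inj {d : ℕ} (R R' : RatFunc (KF d)) (h : {x : ℂ | evr R x = evr R' x}.Infinite) : R = R' := by
  by_contra hne
  have hP : R.num * R'.denom - R'.num * R.denom ≠ 0 := by
    intro h0
    apply hne
    rw [← RatFunc.num_div_denom R, ← RatFunc.num_div_denom R']
    have h1 : algebraMap (Polynomial (KF d)) (RatFunc (KF d)) R.denom ≠ 0 :=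
      RatFunc.algebraMap_ne_zero R.denom_ne_zero
    have h2 : algebraMap (Polynomial (KF d)) (RatFunc (KF d)) R'.denom ≠ 0 :=
      RatFunc.algebraMap_ne_zero R'.denom_ne_zero
    rw [div_eq_div_iff h1 h2, ← map_mul, ← map_mul]
    congr 1
    linear_combination h0
  refine h (((h02_poly_finite _ hP).union ((dn_finite R).union (dn_finite R'))).subset ?_)
  intro x hx
  by_cases h1 : dn R x = 0
  · exact Or.inr (Or.inl h1)
  by_cases h2 : dn R' x = 0
  · exact Or.inr (Or.inr h2)
  left
  simp only [Set.mem_ofPred_eq] at hx ⊢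
  rw [h02_evr_def, h02_evr_def, div_eq_div_iff h1 h2] at hx
  rw [Polynomial.eval₂_sub, Polynomial.eval₂_mul, Polynomial.eval₂_mul, ← h02_dn_def,
    ← h02_dn_def, hx, sub_self]

/-- H02d. A nonconstant rational function takes every complex value finitely often. (For `w ∉ KF d` use the polynomial `num - w denom` over `ℂ`,
which is nonzero because `num`, `denom` are not proportional.) Also: `R` is constant if `evr R` is constant on an infinite set. -/
theorem evr_fiber_finite {d : ℕ} (R : RatFunc (KF d)) (hR : ¬ ∃ c, R = RatFunc.C c) (w : ℂ) : {x : ℂ | dn R x ≠ 0 ∧ evr R x = w}.Finite := by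
  set φ := algebraMap (KF d) ℂ with hφ
  have hQ : R.num.map φ - Polynomial.C w * R.denom.map φ ≠ 0 := by
    intro h0
    apply hR
    have h1 : R.num.map φ = Polynomial.C w * R.denom.map φ := sub_eq_zero.mp h0
    have hw : w = φ (R.num.coeff R.denom.natDegree) := by
      have h2 := congrArg (fun P : Polynomial ℂ => P.coeff R.denom.natDegree) h1
      simp only [Polynomial.coeff_map, Polynomial.coeff_C_mul] at h2
      have h3 : R.denom.coeff R.denom.natDegree = 1 := (RatFunc.monic_denom R).coeff_natDegree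
      rw [h3, map_one, mul_one] at h2
      exact h2.symm
    refine ⟨R.num.coeff R.denom.natDegree, ?_⟩
    have h4 : R.num = Polynomial.C (R.num.coeff R.denom.natDegree) * R.denom := by
      apply Polynomial.map_injective φ (h02_inj d)
      rw [Polynomial.map_mul, Polynomial.map_C, ← hw]
      exact h1
    have hd : algebraMap (Polynomial (KF d)) (RatFunc (KF d)) R.denom ≠ 0 :=
      RatFunc.algebraMap_ne_zero R.denom_ne_zero
    have h5 : R = algebraMap (Polynomial (KF d)) (RatFunc (KF d)) R.num /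
        algebraMap (Polynomial (KF d)) (RatFunc (KF d)) R.denom := (RatFunc.num_div_denom R).symm
    have h6 : algebraMap (Polynomial (KF d)) (RatFunc (KF d)) R.num
        = RatFunc.C (R.num.coeff R.denom.natDegree) *
          algebraMap (Polynomial (KF d)) (RatFunc (KF d)) R.denom := by
      conv_lhs => rw [h4]
      rw [map_mul, RatFunc.algebraMap_C]
    rw [eq_div_iff hd] at h5
    rw [← h5] at h6
    exact mul_right_cancel₀ hd h6
  refine (Polynomial.finite_setOfPred_isRoot hQ).subset ?_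
  rintro x ⟨hx, hxw⟩
  simp only [Set.mem_ofPred_eq]
  rw [h02_evr_def, div_eq_iff hx] at hxw
  rw [Polynomial.IsRoot.def, Polynomial.eval_sub, Polynomial.eval_mul, Polynomial.eval_C,
    Polynomial.eval_map, Polynomial.eval_map, hφ, hxw, ← h02_dn_def, sub_self]

theorem h02_dn_of_dvd {d : ℕ} {P Q : Polynomial (KF d)} {x : ℂ} (h : P ∣ Q)
    (hQ : Q.eval₂ (algebraMap (KF d) ℂ) x ≠ 0) : P.eval₂ (algebraMap (KF d) ℂ) x ≠ 0 := by
  intro h0
  exact hQ (Polynomial.eval₂_eq_zero_of_dvd_of_eval₂_eq_zero _ _ h h0)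

/-- H02h. Sums and products. -/
theorem evr_add {d : ℕ} (R R' : RatFunc (KF d)) (x : ℂ) (hx : dn R x ≠ 0) (hx' : dn R' x ≠ 0) :
    dn (R + R') x ≠ 0 ∧ evr (R + R') x = evr R x + evr R' x := by
  refine ⟨h02_dn_of_dvd (RatFunc.denom_add_dvd R R') ?_, RatFunc.eval_add _ _ hx hx'⟩
  rw [Polynomial.eval₂_mul]
  exact mul_ne_zero hx hx'

theorem evr_mul {d : ℕ} (R R' : RatFunc (KF d)) (x : ℂ) (hx : dn R x ≠ 0) (hx' : dn R' x ≠ 0) :
    dn (R * R') x ≠ 0 ∧ evr (R * R') x = evr R x * evr R' x := by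
  refine ⟨h02_dn_of_dvd (RatFunc.denom_mul_dvd R R') ?_, RatFunc.eval_mul _ _ hx hx'⟩
  rw [Polynomial.eval₂_mul]
  exact mul_ne_zero hx hx'

theorem h02_C {d : ℕ} (a : KF d) (x : ℂ) :
    dn (RatFunc.C a) x ≠ 0 ∧ evr (RatFunc.C a) x = algebraMap (KF d) ℂ a := by
  refine ⟨?_, RatFunc.eval_C _ _⟩
  unfold dn
  rw [RatFunc.denom_C, Polynomial.eval₂_one]
  exact one_ne_zero

/-- H02e. Evaluation of `aeval g p`, one variable. (Induction on `p`, `RatFunc.eval_add`, `RatFunc.eval_mul`, `RatFunc.denom_add_dvd`,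
`RatFunc.denom_mul_dvd` for the denominators.) -/
theorem evr_aeval {d : ℕ} (g : RatFunc (KF d)) (p : Polynomial (KF d)) (x : ℂ) (hx : dn g x ≠ 0) :
    dn (Polynomial.aeval g p) x ≠ 0 ∧ evr (Polynomial.aeval g p) x = Polynomial.aeval (evr g x) p := by
  induction p using Polynomial.induction_on with
  | C a =>
    rw [Polynomial.aeval_C, Polynomial.aeval_C, RatFunc.algebraMap_eq_C]
    exact h02_C a x
  | add p q hp hq =>
    rw [map_add, map_add]
    obtain ⟨h1, h2⟩ := evr_add _ _ x hp.1 hq.1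
    exact ⟨h1, by rw [h2, hp.2, hq.2]⟩
  | monomial n a ih =>
    have h : (Polynomial.C a * Polynomial.X ^ (n + 1) : Polynomial (KF d))
        = Polynomial.C a * Polynomial.X ^ n * Polynomial.X := by rw [pow_succ, mul_assoc]
    have e1 : Polynomial.aeval g (Polynomial.C a * Polynomial.X ^ n * Polynomial.X)
        = Polynomial.aeval g (Polynomial.C a * Polynomial.X ^ n) * g := by
      rw [map_mul (Polynomial.aeval g) (Polynomial.C a * Polynomial.X ^ n), Polynomial.aeval_X]
    have e2 : Polynomial.aeval (evr g x) (Polynomial.C a * Polynomial.X ^ n * Polynomial.X)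
        = Polynomial.aeval (evr g x) (Polynomial.C a * Polynomial.X ^ n) * evr g x := by
      rw [map_mul (Polynomial.aeval (evr g x)) (Polynomial.C a * Polynomial.X ^ n),
        Polynomial.aeval_X]
    rw [h, e1, e2]
    obtain ⟨h1, h2⟩ := evr_mul _ _ x ih.1 hx
    exact ⟨h1, by rw [h2, ih.2]⟩

/-- H02f. Evaluation of `aeval R p`, several variables. -/
theorem evr_mvaeval {d : ℕ} {S : Type} (R : S → RatFunc (KF d)) (p : MvPolynomial S (KF d)) (x : ℂ) (hx : ∀ i, dn (R i) x ≠ 0) :
    dn (MvPolynomial.aeval R p) x ≠ 0 ∧ evr (MvPolynomial.aeval R p) x = MvPolynomial.aeval (fun i => evr (R i) x) p := by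
  induction p using MvPolynomial.induction_on with
  | C a =>
    rw [MvPolynomial.aeval_C, MvPolynomial.aeval_C, RatFunc.algebraMap_eq_C]
    exact h02_C a x
  | add p q hp hq =>
    rw [map_add, map_add]
    obtain ⟨h1, h2⟩ := evr_add _ _ x hp.1 hq.1
    exact ⟨h1, by rw [h2, hp.2, hq.2]⟩
  | mul_X p i ih =>
    rw [map_mul, map_mul, MvPolynomial.aeval_X, MvPolynomial.aeval_X]
    obtain ⟨h1, h2⟩ := evr_mul _ _ x ih.1 (hx i)
    exact ⟨h1, by rw [h2, ih.2]⟩

/-- H02g. Quotients. -/
theorem evr_div {d : ℕ} (R R' : RatFunc (KF d)) (x : ℂ) (hx : dn R x ≠ 0) (hx' : dn R' x ≠ 0) (h0 : evr R' x ≠ 0) :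
    dn (R / R') x ≠ 0 ∧ evr (R / R') x = evr R x / evr R' x := by
  have hne : R' ≠ 0 := by
    rintro rfl
    apply h0
    exact RatFunc.eval_zero _ _
  have hnum : R'.num.eval₂ (algebraMap (KF d) ℂ) x ≠ 0 := by
    intro h
    apply h0
    rw [h02_evr_def, h, zero_div]
  have hinv : dn R'⁻¹ x ≠ 0 := h02_dn_of_dvd (RatFunc.denom_inv_dvd hne) hnum
  have hinv2 : evr R'⁻¹ x = (evr R' x)⁻¹ := by
    have h1 := (evr_mul R' R'⁻¹ x hx' hinv).2
    rw [mul_inv_cancel₀ hne] at h1
    have h2 : evr (1 : RatFunc (KF d)) x = 1 := RatFunc.eval_one _ _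
    rw [h2] at h1
    exact eq_inv_of_mul_eq_one_right h1.symm
  have h := evr_mul R R'⁻¹ x hx hinv
  rw [div_eq_mul_inv, div_eq_mul_inv, ← hinv2]
  exact h

end Pool.Agent.MSD
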