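import Pool.Agent.Lib.MP_f58a57_nt.H02_Eval

/-! # H03: a point with negative imaginary part (MP_f58a57_nt) -/

open Complex ModularForm EisensteinSeries Filter
open UpperHalfPlane hiding I
open scoped Topology MatrixGroups Polynomial

noncomputable section

namespace Pool.Agent.MSD

/-- H03. A nonconstant rational function takes values with negative imaginary part off any finite set. PROOF. Let `R = u/v` (`u, v` coprime). For
all complex `w` except at most one, the polynomial `u - w v` is nonconstant and has a complex root `y`; `v y ≠ 0` (otherwise `u y = 0` too,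
impossible for coprime `u, v`), so `R y = w`. Different `w` give different `y`; among infinitely many `w` with `w.im < 0` one has `y ∉ F`. -/
theorem evr_neg {d : ℕ} (R : RatFunc (KF d)) (hR : ¬ ∃ c, R = RatFunc.C c) (F : Set ℂ) (hF : F.Finite) :
    ∃ y : ℂ, y ∉ F ∧ dn R y ≠ 0 ∧ (evr R y).im < 0 := by
  set φ : KF d →+* ℂ := algebraMap (KF d) ℂ with hφ
  have hφi : Function.Injective φ := φ.injective
  set u : Polynomial ℂ := R.num.map φ with hu
  set v : Polynomial ℂ := R.denom.map φ with hv
  have hdn : ∀ y, dn R y = v.eval y := fun y => (Polynomial.eval_map φ y).symm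
  have hev : ∀ y, evr R y = u.eval y / v.eval y := by
    intro y
    rw [hu, hv, Polynomial.eval_map, Polynomial.eval_map]
    rfl
  -- the bad set
  set Bad : Set ℂ := {w | (u - Polynomial.C w * v).natDegree = 0} with hBad
  have hsub : Bad.Subsingleton := by
    intro w hw w' hw'
    by_contra hne
    obtain ⟨c, hc⟩ := Polynomial.natDegree_eq_zero.1 hw
    obtain ⟨c', hc'⟩ := Polynomial.natDegree_eq_zero.1 hw'
    have hne' : w' - w ≠ 0 := sub_ne_zero.2 (Ne.symm hne)
    have e1 : Polynomial.C (w' - w) * v = Polynomial.C (c - c') := by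
      rw [Polynomial.C_sub, Polynomial.C_sub, hc, hc']
      ring
    have e2 : v = Polynomial.C ((c - c') / (w' - w)) := by
      have : Polynomial.C (w' - w)⁻¹ * (Polynomial.C (w' - w) * v) = Polynomial.C (w' - w)⁻¹ * Polynomial.C (c - c') := by
        rw [e1]
      rw [← mul_assoc, ← Polynomial.C_mul, ← Polynomial.C_mul, inv_mul_cancel₀ hne', Polynomial.C_1, one_mul] at this
      rw [this, div_eq_inv_mul]
    have hvd : v.natDegree = 0 := by rw [e2]; exact Polynomial.natDegree_C _
    have hud : u.natDegree = 0 := by
      have : u = Polynomial.C (c + w * ((c - c') / (w' - w))) := by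
        rw [Polynomial.C_add, Polynomial.C_mul, ← e2, hc]
        ring
      rw [this]; exact Polynomial.natDegree_C _
    rw [hv, Polynomial.natDegree_map_eq_of_injective hφi] at hvd
    rw [hu, Polynomial.natDegree_map_eq_of_injective hφi] at hud
    have hden : R.denom = 1 := Polynomial.eq_one_of_monic_natDegree_zero (RatFunc.monic_denom R) hvd
    obtain ⟨a, ha⟩ := Polynomial.natDegree_eq_zero.1 hud
    apply hR
    refine ⟨a, ?_⟩
    rw [← RatFunc.num_div_denom R, hden, map_one, div_one, ← ha]
    exact RatFunc.algebraMap_C a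
  have hinf : (Set.range fun n : ℕ => -((n : ℂ) + 1) * I).Infinite := by
    apply Set.infinite_range_of_injective
    intro m n hmn
    have h1 := congrArg Complex.im hmn
    simp at h1
    exact_mod_cast h1
  have hfin : ((evr R '' F) ∪ Bad).Finite := (hF.image _).union hsub.finite
  obtain ⟨w, hw, hw'⟩ := (hinf.sdiff hfin).nonempty
  rw [Set.mem_union, not_or] at hw'
  obtain ⟨hw1, hw2⟩ := hw'
  have hwim : w.im < 0 := by
    obtain ⟨n, rfl⟩ := hw
    have e : (-((n : ℂ) + 1) * I).im = -((n : ℝ) + 1) := by simp
    rw [e]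
    have : (0 : ℝ) ≤ n := Nat.cast_nonneg n
    linarith
  have hdeg : (u - Polynomial.C w * v).degree ≠ 0 := by
    intro h
    exact hw2 (Polynomial.natDegree_eq_of_degree_eq_some h)
  obtain ⟨y, hy⟩ := IsAlgClosed.exists_root _ hdeg
  have hy' : u.eval y = w * v.eval y := by
    have : (u - Polynomial.C w * v).eval y = 0 := hy
    rw [Polynomial.eval_sub, Polynomial.eval_mul, Polynomial.eval_C] at this
    exact sub_eq_zero.1 this
  have hvy : v.eval y ≠ 0 := by
    intro h0
    rw [h0, mul_zero] at hy'
    have hcop : IsCoprime u v := (RatFunc.isCoprime_num_denom R).map (Polynomial.mapRingHom φ)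
    obtain ⟨a, b, hab⟩ := hcop
    have := congrArg (Polynomial.eval y) hab
    rw [Polynomial.eval_add, Polynomial.eval_mul, Polynomial.eval_mul, hy', h0, mul_zero, mul_zero, add_zero,
      Polynomial.eval_one] at this
    exact zero_ne_one this
  have hval : evr R y = w := by
    rw [hev, hy']
    field_simp
  refine ⟨y, ?_, ?_, ?_⟩
  · intro hyF
    exact hw1 ⟨y, hyF, hval⟩
  · rw [hdn]; exact hvy
  · rw [hval]; exact hwim

end Pool.Agent.MSD
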