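import Pool.Agent.Lib.MP_f58a57_nt.H02_Eval

/-! # H10: Lueroth for the field generated by finitely many functions (MP_f58a57_nt) -/

open Complex ModularForm EisensteinSeries Filter
open UpperHalfPlane hiding I
open scoped Topology MatrixGroups Polynomial

noncomputable section

namespace Pool.Agent.MSD

/-- H10. PROOF. Let `M = IntermediateField.adjoin (KF d) (Set.range R)` in `RatFunc (KF d)`; `M ≠ ⊥` since `R i` is not a constant. By
`RatFunc.Luroth.eq_adjoin_generator`, `M = K⟮g⟯`; use `IntermediateField.mem_adjoin_simple_iff` for `R i ∈ K⟮g⟯` and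
`IntermediateField.mem_adjoin_range_iff` for `g ∈ M` (if the denominator vanishes the element is `0 = 0/1`; replace it). -/
theorem luroth_gen {d : ℕ} {S : Type} [Finite S] [Nonempty S] (R : S → RatFunc (KF d)) (hR : ∀ i, ¬ ∃ c, R i = RatFunc.C c) :
    ∃ g : RatFunc (KF d), (¬ ∃ c, g = RatFunc.C c) ∧
      (∀ i, ∃ p q : Polynomial (KF d), Polynomial.aeval g q ≠ 0 ∧ R i = Polynomial.aeval g p / Polynomial.aeval g q) ∧
      ∃ p q : MvPolynomial S (KF d), MvPolynomial.aeval R q ≠ 0 ∧ g = MvPolynomial.aeval R p / MvPolynomial.aeval R q := by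
  set M : IntermediateField (KF d) (RatFunc (KF d)) :=
    IntermediateField.adjoin (KF d) (Set.range R) with hM
  have hRM : ∀ i, R i ∈ M := fun i => IntermediateField.subset_adjoin _ _ (Set.mem_range_self i)
  have hbot : M ≠ ⊥ := by
    intro h
    obtain ⟨i⟩ := (inferInstance : Nonempty S)
    have h1 := hRM i
    rw [h, IntermediateField.mem_bot] at h1
    obtain ⟨c, hc⟩ := h1
    refine hR i ⟨c, ?_⟩
    rw [← hc, RatFunc.algebraMap_eq_C]
  refine ⟨RatFunc.Luroth.generator M, RatFunc.Luroth.generator_ne_C hbot, ?_, ?_⟩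
  · intro i
    have h1 := hRM i
    rw [RatFunc.Luroth.eq_adjoin_generator (E := M)] at h1
    obtain ⟨p, q, hpq⟩ := (IntermediateField.mem_adjoin_simple_iff _ _).1 h1
    by_cases hq : Polynomial.aeval (RatFunc.Luroth.generator M) q = 0
    · refine ⟨0, 1, by simp, ?_⟩
      rw [hpq, hq, div_zero]
      simp
    · exact ⟨p, q, hq, hpq⟩
  · have h1 : RatFunc.Luroth.generator M ∈ M := RatFunc.Luroth.generator_mem
    obtain ⟨p, q, hpq⟩ := (IntermediateField.mem_adjoin_range_iff _ _ _).1 h1
    by_cases hq : MvPolynomial.aeval R q = 0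
    · refine ⟨0, 1, by simp, ?_⟩
      rw [hpq, hq, div_zero]
      simp
    · exact ⟨p, q, hq, hpq⟩

end Pool.Agent.MSD
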