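import Pool.Agent.Lib.MP_f58a57_nt.H02_Eval

/-! # H11: the conjugate of the generator on a real arc (MP_f58a57_nt) -/

open Complex ModularForm EisensteinSeries Filter
open UpperHalfPlane hiding I
open scoped Topology MatrixGroups Polynomial

noncomputable section

namespace Pool.Agent.MSD

theorem h11_zero {d : ℕ} (R : RatFunc (KF d)) (hR : R ≠ 0) : {x : ℂ | evr R x = 0}.Finite := by
  by_contra h
  apply hR
  apply evr_inj
  refine Set.Infinite.mono ?_ h
  intro x hx
  have h0 : evr (0 : RatFunc (KF d)) x = 0 := RatFunc.eval_zero _ _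
  show evr R x = evr 0 x
  rw [h0]
  exact hx

theorem h11_conj {d : ℕ} {S : Type} (p : MvPolynomial S (KF d)) (y : S → ℂ)
    (hy : ∀ i, (starRingEnd ℂ) (y i) = y i) :
    (starRingEnd ℂ) (MvPolynomial.aeval y p) = MvPolynomial.aeval y (MvPolynomial.map (conjK d) p) := by
  rw [MvPolynomial.aeval_def, MvPolynomial.aeval_def, MvPolynomial.eval₂_map,
    MvPolynomial.eval₂_comp_left]
  congr 1
  funext i
  exact hy i

theorem h11_coprime {d : ℕ} (g G : RatFunc (KF d))
    (hG : G ∈ IntermediateField.adjoin (KF d) ({g} : Set (RatFunc (KF d)))) :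
    ∃ n m : Polynomial (KF d), IsCoprime n m ∧ Polynomial.aeval g m ≠ 0 ∧
      G * Polynomial.aeval g m = Polynomial.aeval g n := by
  obtain ⟨n0, m0, hm0, hG0⟩ : ∃ n0 m0 : Polynomial (KF d), Polynomial.aeval g m0 ≠ 0 ∧
      G = Polynomial.aeval g n0 / Polynomial.aeval g m0 := by
    obtain ⟨r, s, hrs⟩ := (IntermediateField.mem_adjoin_simple_iff (KF d) G).1 hG
    by_cases hs : Polynomial.aeval g s = 0
    · refine ⟨0, 1, by simp, ?_⟩
      rw [hrs, hs, div_zero]
      simp
    · exact ⟨r, s, hs, hrs⟩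
  have hm00 : m0 ≠ 0 := by
    rintro rfl
    exact hm0 (map_zero _)
  set t : RatFunc (KF d) := algebraMap _ (RatFunc (KF d)) n0 / algebraMap _ (RatFunc (KF d)) m0 with ht
  have hrel : t.num * m0 = n0 * t.denom := by
    rw [RatFunc.num_mul_eq_mul_denom_iff hm00]
  have hcop := RatFunc.isCoprime_num_denom t
  have hrel' : Polynomial.aeval g t.num * Polynomial.aeval g m0 =
      Polynomial.aeval g n0 * Polynomial.aeval g t.denom := by
    rw [← map_mul, ← map_mul, hrel]
  have hden : Polynomial.aeval g t.denom ≠ 0 := by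
    intro h
    rw [h, mul_zero] at hrel'
    have h2 : Polynomial.aeval g t.num = 0 := (mul_eq_zero.1 hrel').resolve_right hm0
    obtain ⟨u, v, huv⟩ := hcop
    have h3 := congrArg (Polynomial.aeval g) huv
    rw [map_add, map_mul, map_mul, h, h2, mul_zero, mul_zero, add_zero, map_one] at h3
    exact zero_ne_one h3
  refine ⟨t.num, t.denom, hcop, hden, ?_⟩
  rw [hG0, div_mul_eq_mul_div, div_eq_iff hm0]
  exact hrel'.symm

/-- H11. PROOF. Write `g = p(R)/q(R)` (`p, q ∈ K[X_S]`), `R i = a_i(g)/b_i(g)`. Let `p̄, q̄` be the polynomials with conjugated coefficients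
(`MvPolynomial.map (conjK d)`). For `x ∈ A` outside the finite set of poles of the `R i`, of `g` and of the zeros of `q(R)`: all `R i (x)` are real, so
`q̄(R(x)) = conj (q(R(x))) ≠ 0` (hence `q̄(R) ≠ 0` in `RatFunc`) and `conj (g x) = p̄(R(x))/q̄(R(x))`. The rational function `g* = p̄(R)/q̄(R)` lies in
`K(g)` because the `R i` do; write `g* = n(g)/m(g)` with coprime `n, m` (divide by the gcd). Off a finite set `conj (g x) = g* x = n(g x)/m(g x)`. -/
theorem conj_rel {d : ℕ} {S : Type} [Finite S] (R : S → RatFunc (KF d)) (g : RatFunc (KF d)) (hg : ¬ ∃ c, g = RatFunc.C c)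
    (hRg : ∀ i, ∃ p q : Polynomial (KF d), Polynomial.aeval g q ≠ 0 ∧ R i = Polynomial.aeval g p / Polynomial.aeval g q)
    (hgR : ∃ p q : MvPolynomial S (KF d), MvPolynomial.aeval R q ≠ 0 ∧ g = MvPolynomial.aeval R p / MvPolynomial.aeval R q)
    (A : Set ℂ) (hA : A.Infinite) (hreal : ∀ x ∈ A, ∀ i, (evr (R i) x).im = 0) :
    ∃ n m : Polynomial (KF d), IsCoprime n m ∧ {x ∈ A | ¬ (Polynomial.aeval (evr g x) m ≠ 0 ∧
      (starRingEnd ℂ) (evr g x) = Polynomial.aeval (evr g x) n / Polynomial.aeval (evr g x) m)}.Finite := by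
  obtain ⟨p, q, hq0, hgpq⟩ := hgR
  -- bad points
  have hB1 : {x : ℂ | ∃ i, dn (R i) x = 0}.Finite := by
    have h : {x : ℂ | ∃ i, dn (R i) x = 0} = ⋃ i, {x : ℂ | dn (R i) x = 0} := by
      ext x
      simp
    rw [h]
    exact Set.finite_iUnion fun i => dn_finite (R i)
  have hB2 : {x : ℂ | dn g x = 0}.Finite := dn_finite g
  have hB3 := h11_zero _ hq0
  have hval : ∀ (u : MvPolynomial S (KF d)) (x : ℂ), (¬ ∃ i, dn (R i) x = 0) →
      dn (MvPolynomial.aeval R u) x ≠ 0 ∧
        evr (MvPolynomial.aeval R u) x = MvPolynomial.aeval (fun i => evr (R i) x) u := by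
    intro u x hx
    push Not at hx
    exact evr_mvaeval R u x hx
  have hreal' : ∀ x ∈ A, ∀ i, (starRingEnd ℂ) (evr (R i) x) = evr (R i) x := fun x hx i =>
    Complex.conj_eq_iff_im.2 (hreal x hx i)
  -- the conjugated denominator is not zero
  have hqbar : MvPolynomial.aeval R (MvPolynomial.map (conjK d) q) ≠ 0 := by
    intro h0
    have hinf : (A \ ({x : ℂ | ∃ i, dn (R i) x = 0} ∪ {x | evr (MvPolynomial.aeval R q) x = 0})).Infinite :=
      hA.sdiff (hB1.union hB3)
    obtain ⟨x, hxA, hx⟩ := hinf.nonempty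
    rw [Set.mem_union, not_or] at hx
    have h1 := (hval q x hx.1).2
    have h2 := (hval (MvPolynomial.map (conjK d) q) x hx.1).2
    rw [← h11_conj q _ (hreal' x hxA), ← h1, h0] at h2
    have h3 : evr (0 : RatFunc (KF d)) x = 0 := RatFunc.eval_zero _ _
    rw [h3] at h2
    exact hx.2 ((map_eq_zero (starRingEnd ℂ)).1 h2.symm)
  -- the function g*
  have hRmem : ∀ i, R i ∈ IntermediateField.adjoin (KF d) ({g} : Set (RatFunc (KF d))) := by
    intro i
    obtain ⟨a, b, _, hab⟩ := hRg i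
    exact (IntermediateField.mem_adjoin_simple_iff (KF d) (R i)).2 ⟨a, b, hab⟩
  have hmem : ∀ u : MvPolynomial S (KF d),
      MvPolynomial.aeval R u ∈ IntermediateField.adjoin (KF d) ({g} : Set (RatFunc (KF d))) := by
    intro u
    induction u using MvPolynomial.induction_on with
    | C a =>
      rw [MvPolynomial.aeval_C]
      exact IntermediateField.algebraMap_mem _ a
    | add p q hp hq =>
      rw [map_add]
      exact add_mem hp hq
    | mul_X p i hp =>
      rw [map_mul, MvPolynomial.aeval_X]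
      exact mul_mem hp (hRmem i)
  obtain ⟨n, m, hnm, hm0, hrel⟩ := h11_coprime g
    (MvPolynomial.aeval R (MvPolynomial.map (conjK d) p) / MvPolynomial.aeval R (MvPolynomial.map (conjK d) q))
    (div_mem (hmem _) (hmem _))
  rw [div_mul_eq_mul_div, div_eq_iff hqbar] at hrel
  refine ⟨n, m, hnm, ?_⟩
  refine (((hB1.union hB2).union hB3).union (h11_zero _ hm0)).subset ?_
  rintro x ⟨hxA, hx⟩
  by_contra hcon
  simp only [Set.mem_union, not_or] at hcon
  obtain ⟨⟨⟨hx1, hx2⟩, hx3⟩, hx4⟩ := hcon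
  apply hx
  have hn' := evr_aeval g n x hx2
  have hm' := evr_aeval g m x hx2
  have hmx : Polynomial.aeval (evr g x) m ≠ 0 := by
    rw [← hm'.2]
    exact hx4
  refine ⟨hmx, ?_⟩
  have hp' := hval (MvPolynomial.map (conjK d) p) x hx1
  have hq' := hval (MvPolynomial.map (conjK d) q) x hx1
  have hpx := hval p x hx1
  have hqx := hval q x hx1
  have hqx0 : MvPolynomial.aeval (fun i => evr (R i) x) q ≠ 0 := by
    rw [← hqx.2]
    exact hx3
  have hev := congrArg (fun G => evr G x) hrel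
  beta_reduce at hev
  rw [(evr_mul _ _ x hp'.1 hm'.1).2, (evr_mul _ _ x hn'.1 hq'.1).2, hp'.2, hq'.2, hn'.2, hm'.2] at hev
  have hg1 : evr g x = MvPolynomial.aeval (fun i => evr (R i) x) p / MvPolynomial.aeval (fun i => evr (R i) x) q := by
    have h1 : g * MvPolynomial.aeval R q = MvPolynomial.aeval R p := by
      rw [hgpq, div_mul_cancel₀ _ hq0]
    have h2 := congrArg (fun G => evr G x) h1
    beta_reduce at h2
    rw [(evr_mul _ _ x hx2 hqx.1).2, hqx.2, hpx.2] at h2
    rw [eq_div_iff hqx0]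
    exact h2
  have hconj : (starRingEnd ℂ) (evr g x) =
      MvPolynomial.aeval (fun i => evr (R i) x) (MvPolynomial.map (conjK d) p) /
        MvPolynomial.aeval (fun i => evr (R i) x) (MvPolynomial.map (conjK d) q) := by
    rw [hg1, map_div₀, h11_conj p _ (hreal' x hxA), h11_conj q _ (hreal' x hxA)]
  have hqb0 : MvPolynomial.aeval (fun i => evr (R i) x) (MvPolynomial.map (conjK d) q) ≠ 0 := by
    rw [← h11_conj q _ (hreal' x hxA)]
    exact (map_ne_zero (starRingEnd ℂ)).2 hqx0
  rw [hconj, div_eq_div_iff hqb0 hmx]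
  exact hev

end Pool.Agent.MSD
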