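import Pool.Agent.Lib.MP_f58a57_nt.H01_KF

/-! # H12: the conjugation relation has degree one (MP_f58a57_nt) -/

open Complex ModularForm EisensteinSeries Filter
open UpperHalfPlane hiding I
open scoped Topology MatrixGroups Polynomial

noncomputable section

namespace Pool.Agent.MSD

/-- the Wronskian of two coprime polynomials, not both constant, is not zero -/
theorem h12_wronskian (n m : Polynomial ℂ) (hcop : IsCoprime n m) (h2 : 2 ≤ max n.natDegree m.natDegree) :
    n.derivative * m - n * m.derivative ≠ 0 := by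
  intro h0
  have h1 : n.derivative * m = n * m.derivative := sub_eq_zero.1 h0
  have key : ∀ f : Polynomial ℂ, f ∣ f.derivative → f.natDegree = 0 := by
    intro f hf
    by_contra hd
    have h3 : f.derivative ≠ 0 := fun h => hd (Polynomial.derivative_eq_zero.1 h)
    have h4 := Polynomial.natDegree_le_of_dvd hf h3
    have h5 := Polynomial.natDegree_derivative_lt hd
    omega
  have hn : n.natDegree = 0 := by
    refine key n (hcop.dvd_of_dvd_mul_right ?_)
    exact ⟨m.derivative, h1⟩
  have hm : m.natDegree = 0 := by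
    refine key m (hcop.symm.dvd_of_dvd_mul_left ?_)
    exact ⟨n.derivative, by rw [← h1, mul_comm]⟩
  rw [hn, hm] at h2
  simp at h2

/-- homogenised composition -/
def h12_hom (k : ℕ) (P A B : Polynomial ℂ) : Polynomial ℂ :=
  ∑ i ∈ Finset.range (k + 1), Polynomial.C (P.coeff i) * A ^ i * B ^ (k - i)

theorem h12_hom_eval (k : ℕ) (P A B : Polynomial ℂ) (hP : P.natDegree ≤ k) (s : ℂ)
    (hs : B.eval s ≠ 0) :
    (h12_hom k P A B).eval s = B.eval s ^ k * P.eval (A.eval s / B.eval s) := by
  rw [h12_hom, Polynomial.eval_finsetSum, Polynomial.eval_eq_sum_range' (Nat.lt_succ_of_le hP),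
    Finset.mul_sum]
  refine Finset.sum_congr rfl fun i hi => ?_
  have hik : i ≤ k := Nat.lt_succ_iff.1 (Finset.mem_range.1 hi)
  rw [Polynomial.eval_mul, Polynomial.eval_mul, Polynomial.eval_pow, Polynomial.eval_pow,
    Polynomial.eval_C, div_pow]
  have h1 : B.eval s ^ k = B.eval s ^ (k - i) * B.eval s ^ i := by
    rw [← pow_add, Nat.sub_add_cancel hik]
  rw [h1]
  field_simp

/-- H12a. A rational function `μ = n/m` of degree `≥ 2` is not injective off a finite set: for all but finitely many `y` the equation `n - y m = 0` has two different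
roots. PROOF. `W = n' m - n m'` is not the zero polynomial (otherwise `n/m` is constant, impossible for coprime `n, m` unless both are constants). A double root `s` of
`n - y m` has `W(s) = 0`, so `y` is one of finitely many values `n(s)/m(s)`; and `deg (n - y m) = max (deg n, deg m) ≥ 2` except for one `y`.
Work over `ℂ` (map the polynomials), roots of a separable polynomial of degree `≥ 2` over `ℂ`. -/
theorem not_injective (n m : Polynomial ℂ) (hcop : IsCoprime n m) (h2 : 2 ≤ max n.natDegree m.natDegree) (F : Set ℂ) (hF : F.Finite) :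
    ∃ y ∉ F, ∃ s s' : ℂ, s ≠ s' ∧ m.eval s ≠ 0 ∧ m.eval s' ≠ 0 ∧ n.eval s = y * m.eval s ∧ n.eval s' = y * m.eval s' := by
  obtain ⟨k, hk⟩ : ∃ k, k = max n.natDegree m.natDegree := ⟨_, rfl⟩
  rw [← hk] at h2
  have hW := h12_wronskian n m hcop (by rw [← hk]; exact h2)
  -- the bad values
  have hfin1 : ((fun s => n.eval s / m.eval s) '' {s | (n.derivative * m - n * m.derivative).IsRoot s}).Finite :=
    Set.Finite.image _ ((Polynomial.finite_setOfPred_isRoot hW))
  have hfin2 : {y : ℂ | n.coeff k = y * m.coeff k}.Finite := by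
    by_cases h0 : m.coeff k = 0
    · have h1 : n.coeff k ≠ 0 := by
        rcases max_choice n.natDegree m.natDegree with h | h
        · rw [hk, h]
          refine Polynomial.leadingCoeff_ne_zero.2 ?_
          rintro rfl
          rw [hk, h] at h2
          simp at h2
        · exfalso
          rw [hk, h] at h0
          have : m = 0 := Polynomial.leadingCoeff_eq_zero.1 h0
          rw [hk, h, this] at h2
          simp at h2
      refine Set.Finite.subset Set.finite_empty fun y hy => ?_
      rw [Set.mem_ofPred_eq, h0, mul_zero] at hy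
      exact h1 hy
    · refine Set.Finite.subset (Set.finite_singleton (n.coeff k / m.coeff k)) fun y hy => ?_
      rw [Set.mem_singleton_iff, eq_div_iff h0]
      exact hy.symm
  obtain ⟨y, hy⟩ := ((hF.union (hfin1.union hfin2)).infinite_compl).nonempty
  rw [Set.mem_compl_iff, Set.mem_union, Set.mem_union, not_or, not_or] at hy
  obtain ⟨hy1, hy2, hy3⟩ := hy
  obtain ⟨P, hP⟩ : ∃ P, P = n - Polynomial.C y * m := ⟨_, rfl⟩
  have hPk : P.coeff k ≠ 0 := by
    rw [hP, Polynomial.coeff_sub, Polynomial.coeff_C_mul]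
    exact sub_ne_zero.2 hy3
  have hP0 : P ≠ 0 := by
    rintro rfl
    exact hPk (Polynomial.coeff_zero k)
  have hPd : 2 ≤ P.natDegree := h2.trans (Polynomial.le_natDegree_of_ne_zero hPk)
  have hroot : ∀ s, P.IsRoot s → n.eval s = y * m.eval s := by
    intro s hs
    rw [hP, Polynomial.IsRoot.def, Polynomial.eval_sub, Polynomial.eval_mul, Polynomial.eval_C] at hs
    exact sub_eq_zero.1 hs
  have hms : ∀ s, P.IsRoot s → m.eval s ≠ 0 := by
    intro s hs hm0
    have hn0 : n.eval s = 0 := by rw [hroot s hs, hm0, mul_zero]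
    obtain ⟨a, b, hab⟩ := hcop
    have := congrArg (Polynomial.eval s) hab
    rw [Polynomial.eval_add, Polynomial.eval_mul, Polynomial.eval_mul, hm0, hn0, mul_zero, mul_zero,
      add_zero, Polynomial.eval_one] at this
    exact zero_ne_one this
  have hnodup : P.roots.Nodup := by
    rw [Multiset.nodup_iff_count_le_one]
    intro s
    rw [Polynomial.count_roots]
    by_contra hcon
    have h3 := (Polynomial.one_lt_rootMultiplicity_iff_isRoot hP0).1 (not_le.1 hcon)
    obtain ⟨h4, h5⟩ := h3
    rw [hP, Polynomial.IsRoot.def, Polynomial.derivative_sub, Polynomial.derivative_C_mul,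
      Polynomial.eval_sub, Polynomial.eval_mul, Polynomial.eval_C] at h5
    refine hy2 ⟨s, ?_, ?_⟩
    · rw [Set.mem_ofPred_eq, Polynomial.IsRoot.def, Polynomial.eval_sub, Polynomial.eval_mul,
        Polynomial.eval_mul, hroot s h4]
      have h6 : n.derivative.eval s = y * m.derivative.eval s := sub_eq_zero.1 h5
      rw [h6]
      ring
    · show n.eval s / m.eval s = y
      rw [hroot s h4, mul_div_assoc, div_self (hms s h4), mul_one]
  have hcard : Multiset.card P.roots = P.natDegree :=
    Polynomial.splits_iff_card_roots.1 (IsAlgClosed.splits P)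
  have hcard2 : 1 < P.roots.toFinset.card := by
    rw [Multiset.toFinset_card_of_nodup hnodup, hcard]
    omega
  obtain ⟨s, hs, s', hs', hne⟩ := Finset.one_lt_card.1 hcard2
  rw [Multiset.mem_toFinset, Polynomial.mem_roots hP0] at hs hs'
  exact ⟨y, hy1, s, s', hne, hms s hs, hms s' hs', hroot s hs, hroot s' hs'⟩

/-- H12b. PROOF. For `s ∈ T`: `conj s = μ(s)`, `μ = n/m`; conjugating, `s = μ̄(conj s) = μ̄(μ(s))`, `μ̄ = n̄/m̄` (conjugated coefficients). With the homogenisations of `n̄, m̄`
of degree `k = max (deg n, deg m)` this is the polynomial identity `s · m̄ʰ(n(s), m(s)) = n̄ʰ(n(s), m(s))` on the infinite set `T`, hence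
identically. If `k ≥ 2` take `y`, `s ≠ s'` from H12a with `m̄(y) ≠ 0`: then `s = n̄(y)/m̄(y) = s'`, contradiction. -/
theorem conj_degree {d : ℕ} (n m : Polynomial (KF d)) (hcop : IsCoprime n m) (T : Set ℂ) (hinf : T.Infinite)
    (h : ∀ s ∈ T, Polynomial.aeval s m ≠ 0 ∧ (starRingEnd ℂ) s = Polynomial.aeval s n / Polynomial.aeval s m) :
    n.natDegree ≤ 1 ∧ m.natDegree ≤ 1 := by
  obtain ⟨N, hN⟩ : ∃ N, N = n.map (algebraMap (KF d) ℂ) := ⟨_, rfl⟩
  obtain ⟨M, hM⟩ : ∃ M, M = m.map (algebraMap (KF d) ℂ) := ⟨_, rfl⟩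
  have hNd : N.natDegree = n.natDegree := by rw [hN, Polynomial.natDegree_map]
  have hMd : M.natDegree = m.natDegree := by rw [hM, Polynomial.natDegree_map]
  have hcop' : IsCoprime N M := by
    rw [hN, hM]
    exact hcop.map (Polynomial.mapRingHom (algebraMap (KF d) ℂ))
  have hNe : ∀ s, Polynomial.aeval s n = N.eval s := by
    intro s
    rw [hN, Polynomial.eval_map, Polynomial.aeval_def]
  have hMe : ∀ s, Polynomial.aeval s m = M.eval s := by
    intro s
    rw [hM, Polynomial.eval_map, Polynomial.aeval_def]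
  by_contra hcon
  have h2 : 2 ≤ max N.natDegree M.natDegree := by
    rw [hNd, hMd]
    rcases not_and_or.1 hcon with h3 | h3
    · exact le_max_of_le_left (by omega)
    · exact le_max_of_le_right (by omega)
  obtain ⟨k, hk⟩ : ∃ k, k = max N.natDegree M.natDegree := ⟨_, rfl⟩
  obtain ⟨N', hN'⟩ : ∃ N', N' = N.map (starRingEnd ℂ) := ⟨_, rfl⟩
  obtain ⟨M', hM'⟩ : ∃ M', M' = M.map (starRingEnd ℂ) := ⟨_, rfl⟩
  have hN'd : N'.natDegree ≤ k := by
    rw [hN', Polynomial.natDegree_map, hk]
    exact le_max_left _ _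
  have hM'd : M'.natDegree ≤ k := by
    rw [hM', Polynomial.natDegree_map, hk]
    exact le_max_right _ _
  have hN'e : ∀ s, N'.eval ((starRingEnd ℂ) s) = (starRingEnd ℂ) (N.eval s) := by
    intro s
    rw [hN', Polynomial.eval_map, Polynomial.eval₂_at_apply]
  have hM'e : ∀ s, M'.eval ((starRingEnd ℂ) s) = (starRingEnd ℂ) (M.eval s) := by
    intro s
    rw [hM', Polynomial.eval_map, Polynomial.eval₂_at_apply]
  have hM0 : M ≠ 0 := by
    rintro rfl
    obtain ⟨s, hs⟩ := hinf.nonempty
    obtain ⟨h3, -⟩ := h s hs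
    rw [hMe, Polynomial.eval_zero] at h3
    exact h3 rfl
  have hM'0 : M' ≠ 0 := by
    rw [hM']
    exact (Polynomial.map_ne_zero_iff (starRingEnd ℂ).injective).2 hM0
  -- the identity
  have hid : Polynomial.X * h12_hom k M' N M = h12_hom k N' N M := by
    refine Polynomial.eq_of_infinite_eval_eq _ _ (hinf.mono fun s hs => ?_)
    obtain ⟨h3, h4⟩ := h s hs
    rw [hMe] at h3
    rw [hNe, hMe] at h4
    rw [Set.mem_ofPred_eq, Polynomial.eval_mul, Polynomial.eval_X, h12_hom_eval k M' N M hM'd s h3,
      h12_hom_eval k N' N M hN'd s h3, ← h4, hM'e, hN'e]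
    have h5 : s * (starRingEnd ℂ) (M.eval s) = (starRingEnd ℂ) (N.eval s) := by
      have h6 : (starRingEnd ℂ) s * M.eval s = N.eval s := by
        rw [h4, div_mul_cancel₀ _ h3]
      rw [← h6, map_mul, Complex.conj_conj]
    rw [← h5]
    ring
  have hid' : ∀ s, M.eval s ≠ 0 → s * M'.eval (N.eval s / M.eval s) = N'.eval (N.eval s / M.eval s) := by
    intro s hs
    have h3 := congrArg (Polynomial.eval s) hid
    rw [Polynomial.eval_mul, Polynomial.eval_X, h12_hom_eval k M' N M hM'd s hs,
      h12_hom_eval k N' N M hN'd s hs] at h3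
    have h4 : M.eval s ^ k ≠ 0 := pow_ne_zero _ hs
    refine mul_left_cancel₀ h4 ?_
    rw [← h3]
    ring
  obtain ⟨y, hy, s, s', hne, hs, hs', e1, e2⟩ := not_injective N M hcop' h2 {z | M'.IsRoot z}
    (Polynomial.finite_setOfPred_isRoot hM'0)
  have hy' : M'.eval y ≠ 0 := hy
  have i1 := hid' s hs
  have i2 := hid' s' hs'
  rw [e1, mul_div_assoc, div_self hs, mul_one] at i1
  rw [e2, mul_div_assoc, div_self hs', mul_one] at i2
  exact hne (mul_right_cancel₀ hy' (i1.trans i2.symm))

end Pool.Agent.MSD
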