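import Pool.Agent.Lib.MP_f58a57_nt.H01_KF

/-! # H13: circle or line (MP_f58a57_nt) -/

open Complex ModularForm EisensteinSeries Filter
open UpperHalfPlane hiding I
open scoped Topology MatrixGroups Polynomial

noncomputable section

namespace Pool.Agent.MSD

theorem h13_quad_finite {A B C : ℂ} (hA : A ≠ 0) : {s : ℂ | A * s ^ 2 + B * s + C = 0}.Finite := by
  set p : ℂ[X] := Polynomial.C A * Polynomial.X ^ 2 + Polynomial.C B * Polynomial.X + Polynomial.C C with hp
  have hcoef : p.coeff 2 = A := by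
    rw [hp]
    simp
  have hp0 : p ≠ 0 := by
    intro h
    rw [h] at hcoef
    simp at hcoef
    exact hA hcoef.symm
  refine (Polynomial.finite_setOfPred_isRoot hp0).subset ?_
  intro s hs
  have hs' : A * s ^ 2 + B * s + C = 0 := hs
  change p.IsRoot s
  rw [Polynomial.IsRoot.def, hp]
  simp only [Polynomial.eval_add, Polynomial.eval_mul, Polynomial.eval_C, Polynomial.eval_pow,
    Polynomial.eval_X]
  exact hs'

theorem h13_circle {d : ℕ} (hd : 0 < d) (a b e : ℂ) (ha : a ∈ KF d) (hb : b ∈ KF d)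
    (T : Set ℂ) (hinf : T.Infinite) (h : ∀ s ∈ T, (starRingEnd ℂ) s * (s + e) = a * s + b) :
    ∃ sc ∈ KF d, ∃ ρ : ℚ, 0 < ρ ∧ ∀ s ∈ T, ‖s - sc‖ ^ 2 = ρ := by
  have hconj : ∀ s ∈ T, s * ((starRingEnd ℂ) s + (starRingEnd ℂ) e) =
      (starRingEnd ℂ) a * (starRingEnd ℂ) s + (starRingEnd ℂ) b := by
    intro s hs
    have := congrArg (starRingEnd ℂ) (h s hs)
    simpa only [map_mul, map_add, Complex.conj_conj] using this
  have hsub : ∀ s ∈ T, (e + (starRingEnd ℂ) a) * (starRingEnd ℂ) s =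
      ((starRingEnd ℂ) e + a) * s + (b - (starRingEnd ℂ) b) := by
    intro s hs
    linear_combination h s hs - hconj s hs
  have hη : e + (starRingEnd ℂ) a = 0 := by
    by_contra hne
    have hη' : (starRingEnd ℂ) e + a ≠ 0 := by
      intro h0
      apply hne
      have := congrArg (starRingEnd ℂ) h0
      simpa only [map_add, Complex.conj_conj, map_zero] using this
    apply hinf
    refine (h13_quad_finite (A := (starRingEnd ℂ) e + a)
      (B := (b - (starRingEnd ℂ) b) + e * ((starRingEnd ℂ) e + a) - (e + (starRingEnd ℂ) a) * a)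
      (C := e * (b - (starRingEnd ℂ) b) - (e + (starRingEnd ℂ) a) * b) hη').subset ?_
    intro s hs
    change _ = _
    linear_combination (e + (starRingEnd ℂ) a) * h s hs - (s + e) * hsub s hs
  obtain ⟨s0, hs0⟩ := hinf.nonempty
  have hη' : (starRingEnd ℂ) e + a = 0 := by
    have := congrArg (starRingEnd ℂ) hη
    simpa only [map_add, Complex.conj_conj, map_zero] using this
  have hbr : b - (starRingEnd ℂ) b = 0 := by
    have := hsub s0 hs0
    rw [hη, hη'] at this
    linear_combination -this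
  have hbim : b.im = 0 := by
    have := congrArg Complex.im hbr
    simp at this
    linarith
  have hρK : b + a * (starRingEnd ℂ) a ∈ KF d :=
    add_mem hb (mul_mem ha (conj_mem_KF d a ha))
  have hρim : (b + a * (starRingEnd ℂ) a).im = 0 := by
    rw [Complex.mul_conj, Complex.add_im, Complex.ofReal_im, hbim, add_zero]
  obtain ⟨q, hq⟩ := KF_real d hd _ hρK hρim
  have hnorm : ∀ s ∈ T, ‖s - (starRingEnd ℂ) a‖ ^ 2 = (q : ℝ) := by
    intro s hs
    have h1 : (s - (starRingEnd ℂ) a) * (starRingEnd ℂ) (s - (starRingEnd ℂ) a) = (q : ℂ) := by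
      rw [← hq, map_sub, Complex.conj_conj]
      have he : e = -(starRingEnd ℂ) a := by linear_combination hη
      have h2 := h s hs
      rw [he] at h2
      linear_combination h2
    rw [Complex.mul_conj, Complex.normSq_eq_norm_sq] at h1
    exact_mod_cast h1
  refine ⟨(starRingEnd ℂ) a, conj_mem_KF d a ha, q, ?_, hnorm⟩
  obtain ⟨s1, hs1, hne⟩ : ∃ s ∈ T, s ≠ (starRingEnd ℂ) a := by
    by_contra hcon
    push Not at hcon
    apply hinf
    exact (Set.finite_singleton ((starRingEnd ℂ) a)).subset (fun s hs => hcon s hs)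
  have h3 : 0 < ‖s1 - (starRingEnd ℂ) a‖ ^ 2 := by
    have : 0 < ‖s1 - (starRingEnd ℂ) a‖ := norm_pos_iff.mpr (sub_ne_zero.mpr hne)
    positivity
  rw [hnorm s1 hs1] at h3
  exact_mod_cast h3

theorem h13_line {d : ℕ} (hd : 0 < d) (a b e : ℂ) (ha : a ∈ KF d) (hb : b ∈ KF d) (he : e ∈ KF d)
    (he0 : e ≠ 0) (T : Set ℂ) (hinf : T.Infinite) (h : ∀ s ∈ T, (starRingEnd ℂ) s * e = a * s + b) :
    ∃ sc ∈ KF d, ∃ τ ∈ KF d, τ ≠ 0 ∧ ∀ s ∈ T, ∃ r : ℝ, s = sc + r * τ := by
  have ha0 : a ≠ 0 := by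
    intro ha0
    apply hinf
    refine (Set.finite_singleton ((starRingEnd ℂ) (b / e))).subset ?_
    intro s hs
    have h1 := h s hs
    rw [ha0, zero_mul, zero_add] at h1
    have h2 : (starRingEnd ℂ) s = b / e := by
      rw [eq_div_iff he0]
      exact h1
    have h3 := congrArg (starRingEnd ℂ) h2
    rw [Complex.conj_conj] at h3
    exact h3
  have hac : (starRingEnd ℂ) a ≠ 0 := by simpa using ha0
  obtain ⟨s1, hs1, s2, hs2, hne⟩ := hinf.nontrivial
  have hd1 : (starRingEnd ℂ) (s1 - s2) * e = a * (s1 - s2) := by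
    rw [map_sub]
    linear_combination h s1 hs1 - h s2 hs2
  have hnorm : ‖e‖ = ‖a‖ := by
    have h1 := congrArg norm hd1
    rw [norm_mul, norm_mul, Complex.norm_conj] at h1
    have h2 : ‖s1 - s2‖ ≠ 0 := norm_ne_zero_iff.mpr (sub_ne_zero.mpr hne)
    have h3 : ‖s1 - s2‖ * ‖e‖ = ‖s1 - s2‖ * ‖a‖ := by linarith
    exact mul_left_cancel₀ h2 h3
  have hee : e * (starRingEnd ℂ) e = a * (starRingEnd ℂ) a := by
    rw [Complex.mul_conj, Complex.mul_conj, Complex.normSq_eq_norm_sq, Complex.normSq_eq_norm_sq, hnorm]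
  have hconj1 : (starRingEnd ℂ) e * s1 = (starRingEnd ℂ) a * (starRingEnd ℂ) s1 + (starRingEnd ℂ) b := by
    have := congrArg (starRingEnd ℂ) (h s1 hs1)
    rw [map_mul, map_add, map_mul, Complex.conj_conj] at this
    linear_combination this
  have hrel : a * (starRingEnd ℂ) b + (starRingEnd ℂ) e * b = 0 := by
    linear_combination (-(starRingEnd ℂ) e) * h s1 hs1 - a * hconj1 + (starRingEnd ℂ) s1 * hee
  have hrel' : (starRingEnd ℂ) a * b + e * (starRingEnd ℂ) b = 0 := by
    have := congrArg (starRingEnd ℂ) hrel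
    simp only [map_add, map_mul, Complex.conj_conj, map_zero] at this
    exact this
  set sc : ℂ := -b / (2 * a) with hsc
  have hscK : sc ∈ KF d := div_mem (neg_mem hb) (mul_mem (by exact_mod_cast (KF d).algebraMap_mem 2) ha)
  have hsce : (starRingEnd ℂ) sc * e = a * sc + b := by
    rw [hsc, map_div₀, map_neg, map_mul]
    have h2 : (starRingEnd ℂ) (2 : ℂ) = 2 := Complex.conj_ofNat 2
    rw [h2]
    field_simp
    linear_combination -hrel'
  have hτ : ∃ τ ∈ KF d, τ ≠ 0 ∧ (starRingEnd ℂ) τ * e = a * τ := by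
    have hgen : ∀ w : ℂ, w ∈ KF d → (w + e / a * (starRingEnd ℂ) w) ∈ KF d ∧
        (starRingEnd ℂ) (w + e / a * (starRingEnd ℂ) w) * e = a * (w + e / a * (starRingEnd ℂ) w) := by
      intro w hw
      refine ⟨add_mem hw (mul_mem (div_mem he ha) (conj_mem_KF d w hw)), ?_⟩
      rw [map_add, map_mul, map_div₀, Complex.conj_conj]
      field_simp
      linear_combination w * hee
    by_cases h1 : (1 : ℂ) + e / a = 0
    · have hea : e / a = -1 := by linear_combination h1
      obtain ⟨g1, g2⟩ := hgen (rt d) (rt_mem_KF d)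
      refine ⟨_, g1, ?_, g2⟩
      rw [hea]
      have hrt : (starRingEnd ℂ) (rt d) = -rt d := by
        unfold rt
        rw [map_mul, Complex.conj_ofReal, Complex.conj_I]
        ring
      rw [hrt]
      have hrt0 : rt d ≠ 0 := by
        unfold rt
        apply mul_ne_zero _ Complex.I_ne_zero
        have : (0 : ℝ) < Real.sqrt d := Real.sqrt_pos.mpr (by exact_mod_cast hd)
        exact_mod_cast this.ne'
      intro h0
      apply hrt0
      linear_combination (1 / 2 : ℂ) * h0
    · obtain ⟨g1, g2⟩ := hgen 1 (one_mem _)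
      refine ⟨_, g1, ?_, g2⟩
      rw [map_one, mul_one]
      exact h1
  obtain ⟨τ, hτK, hτ0, hτe⟩ := hτ
  refine ⟨sc, hscK, τ, hτK, hτ0, ?_⟩
  intro s hs
  have hdiff : (starRingEnd ℂ) (s - sc) * e = a * (s - sc) := by
    rw [map_sub]
    linear_combination h s hs - hsce
  have hτc : (starRingEnd ℂ) τ ≠ 0 := by simpa using hτ0
  have hreal : (starRingEnd ℂ) ((s - sc) / τ) = (s - sc) / τ := by
    rw [map_div₀, div_eq_div_iff hτc hτ0]
    apply mul_right_cancel₀ (mul_ne_zero ha0 he0)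
    linear_combination (a * τ) * hdiff - (a * (s - sc)) * hτe
  obtain ⟨r, hr⟩ := Complex.conj_eq_iff_real.mp hreal
  refine ⟨r, ?_⟩
  rw [← hr]
  field_simp
  ring

/-- H13. PROOF. Case `c ≠ 0`: divide by `c`, so `s s̄ + e s̄ - a s - b = 0` on `T`. Subtract the conjugate equation: `η s̄ - η̄ s - (b - b̄) = 0`, `η = e + ā`. If `η ≠ 0`, insert
`s̄ = (η̄ s + b - b̄)/η` in the first equation: a quadratic equation for `s` with leading coefficient `η̄/η ≠ 0`, so `T` has at most two elements. Hence `η = 0`,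
`b` real, `|s - ā|² = b + |a|² =: ρ`, a real element of `KF d`, so rational; `ρ > 0` because `T` has more than one element.
Case `c = 0`: `e s̄ - a s = b` on `T`; `e, a ≠ 0` (otherwise `s` is constant on `T`). Take two points of `T`: with the difference `τ₀`, `e τ̄₀ = a τ₀`, so `|a| = |e|` and every `s ∈ T` has
`e conj(s - s₁) = a (s - s₁)`; also `ē s - ā s̄ = b̄`, multiply: `ē e s̄ - ē a s = ē b`, `a ē s - a ā s̄ = a b̄`, add: `(|e|² - |a|²) s̄ = 0 = ē b + a b̄`. Then `s_c = -b/(2a)` satisfies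
`e s̄_c - a s_c = -e b̄/(2 ā) + b/2 = b` (because `e b̄/ā = -b`: from `ē b = - a b̄`, conjugated `e b̄ = - ā b`). Direction: `τ = w + (e/a) w̄` with `w = 1` or `w = √(-d)`, not both zero; `e τ̄ = a τ`
(use `e ē = a ā`). For `s ∈ T`, `(s - s_c)/τ` is real: `e conj(s - s_c) = a (s - s_c)` and `e τ̄ = a τ` give that the quotient equals its conjugate. -/
theorem circle_or_line {d : ℕ} (hd : 0 < d) (a b c e : ℂ) (ha : a ∈ KF d) (hb : b ∈ KF d) (hc : c ∈ KF d) (he : e ∈ KF d)
    (T : Set ℂ) (hinf : T.Infinite) (h : ∀ s ∈ T, c * s + e ≠ 0 ∧ (starRingEnd ℂ) s * (c * s + e) = a * s + b) :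
    (∃ sc ∈ KF d, ∃ ρ : ℚ, 0 < ρ ∧ ∀ s ∈ T, ‖s - sc‖ ^ 2 = ρ) ∨
      ∃ sc ∈ KF d, ∃ τ ∈ KF d, τ ≠ 0 ∧ ∀ s ∈ T, ∃ r : ℝ, s = sc + r * τ := by
  by_cases hc0 : c = 0
  · right
    obtain ⟨s0, hs0⟩ := hinf.nonempty
    have he0 : e ≠ 0 := by
      have := (h s0 hs0).1
      rw [hc0, zero_mul, zero_add] at this
      exact this
    apply h13_line hd a b e ha hb he he0 T hinf
    intro s hs
    have := (h s hs).2
    rw [hc0, zero_mul, zero_add] at this
    exact this
  · left
    apply h13_circle hd (a / c) (b / c) (e / c) (div_mem ha hc) (div_mem hb hc) T hinf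
    intro s hs
    have := (h s hs).2
    field_simp
    linear_combination this

end Pool.Agent.MSD
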