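import Pool.Agent.Lib.MP_f58a57_nt.H01_KF

/-! # H14: quadratic points on circles and lines (MP_f58a57_nt) -/

open Complex ModularForm EisensteinSeries Filter
open UpperHalfPlane hiding I
open scoped Topology MatrixGroups Polynomial

noncomputable section

namespace Pool.Agent.MSD

theorem h14_rat {d : ℕ} (q : ℚ) : (q : ℂ) ∈ KF d := (KF d).algebraMap_mem q

theorem h14_nat {d : ℕ} (q : ℕ) : (q : ℂ) ∈ KF d := by
  have := h14_rat (d := d) (q : ℚ)
  rwa [Rat.cast_natCast] at this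

/-- every unit complex number is `w / conj w`, continuously -/
theorem h14_unit (e : ℂ) (he : ‖e‖ = 1) (ε : ℝ) (hε : 0 < ε) :
    ∃ w : ℂ, ∃ t0 > 0, ∀ x : ℂ, ‖x - w‖ < t0 → x ≠ 0 ∧ ‖x / (starRingEnd ℂ) x - e‖ < ε := by
  obtain ⟨w, hw⟩ := IsAlgClosed.exists_pow_nat_eq e (show 0 < 2 by norm_num)
  have hw1 : ‖w‖ = 1 := by
    have h1 : ‖w‖ ^ 2 = 1 := by rw [← norm_pow, hw, he]
    have h2 := norm_nonneg w
    nlinarith
  have hw0 : w ≠ 0 := by
    intro h
    rw [h, norm_zero] at hw1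
    norm_num at hw1
  have hcw : (starRingEnd ℂ) w ≠ 0 := (map_ne_zero _).2 hw0
  have hval : w / (starRingEnd ℂ) w = e := by
    rw [div_eq_iff hcw, ← hw, sq, mul_assoc, Complex.mul_conj, Complex.normSq_eq_norm_sq, hw1]
    simp
  have hcont : ContinuousAt (fun x : ℂ => x / (starRingEnd ℂ) x) w :=
    continuousAt_id.div Complex.continuous_conj.continuousAt hcw
  have h1 : ∀ᶠ x in 𝓝 w, x ≠ 0 := isOpen_ne.mem_nhds hw0
  have h2 : ∀ᶠ x in 𝓝 w, ‖x / (starRingEnd ℂ) x - e‖ < ε := by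
    have h3 := hcont.eventually (Metric.ball_mem_nhds _ hε)
    filter_upwards [h3] with x hx
    have h4 : x / (starRingEnd ℂ) x ∈ Metric.ball (w / (starRingEnd ℂ) w) ε := hx
    rw [Metric.mem_ball, dist_eq_norm, hval] at h4
    exact h4
  obtain ⟨t0, ht0, h⟩ := Metric.eventually_nhds_iff.1 (h1.and h2)
  refine ⟨w, t0, ht0, fun x hx => ?_⟩
  exact h (by rwa [dist_eq_norm])

/-- the points over `K(√D)` on the unit circle -/
theorem h14_key {d : ℕ} (hd : 0 < d) (D : ℕ) (hD : 0 < D) (e e' : ℂ) (he : ‖e‖ = 1)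
    (he' : ‖e'‖ = 1) (ε : ℝ) (hε : 0 < ε) :
    ∃ A ∈ KF d, ∃ B ∈ KF d, ‖A + B * Real.sqrt D‖ = 1 ∧ ‖A + B * Real.sqrt D - e‖ < ε ∧
      ‖A - B * Real.sqrt D - e'‖ < ε := by
  obtain ⟨w, t0, ht0, hw⟩ := h14_unit e he ε hε
  obtain ⟨w', t1, ht1, hw'⟩ := h14_unit e' he' ε hε
  set r : ℝ := Real.sqrt D with hr
  have hr0 : 0 < r := Real.sqrt_pos.2 (by exact_mod_cast hD)
  have hrr : r * r = D := Real.mul_self_sqrt (Nat.cast_nonneg D)
  have hrc : (r : ℂ) ≠ 0 := by exact_mod_cast hr0.ne'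
  have hrrc : (r : ℂ) * r = D := by exact_mod_cast hrr
  set ζ : ℝ := min t0 t1 with hζ
  have hζ0 : 0 < ζ := lt_min ht0 ht1
  obtain ⟨a, ha, hae⟩ := KF_dense d hd ((w + w') / 2) (ζ / 2) (by linarith)
  obtain ⟨b, hb, hbe⟩ := KF_dense d hd ((w - w') / (2 * r)) (ζ / (2 * r)) (by positivity)
  have hbr : ‖b * r - (w - w') / 2‖ < ζ / 2 := by
    have e1 : b * r - (w - w') / 2 = (b - (w - w') / (2 * r)) * r := by
      field_simp
    rw [e1, norm_mul, Complex.norm_real, Real.norm_eq_abs, abs_of_pos hr0]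
    calc ‖b - (w - w') / (2 * r)‖ * r < ζ / (2 * r) * r := mul_lt_mul_of_pos_right hbe hr0
      _ = ζ / 2 := by field_simp
  have h1 : ‖(a + b * r) - w‖ < ζ := by
    have e1 : (a + b * r) - w = (a - (w + w') / 2) + (b * r - (w - w') / 2) := by ring
    rw [e1]
    exact (norm_add_le _ _).trans_lt (by linarith)
  have h2 : ‖(a - b * r) - w'‖ < ζ := by
    have e1 : (a - b * r) - w' = (a - (w + w') / 2) - (b * r - (w - w') / 2) := by ring
    rw [e1]
    exact (norm_sub_le _ _).trans_lt (by linarith)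
  obtain ⟨hx0, hx⟩ := hw (a + b * r) (h1.trans_le (min_le_left _ _))
  obtain ⟨hy0, hy⟩ := hw' (a - b * r) (h2.trans_le (min_le_right _ _))
  have hca : (starRingEnd ℂ) a ∈ KF d := conj_mem_KF d a ha
  have hcb : (starRingEnd ℂ) b ∈ KF d := conj_mem_KF d b hb
  set a' := (starRingEnd ℂ) a with ha'
  set b' := (starRingEnd ℂ) b with hb'
  have hcx : (starRingEnd ℂ) (a + b * r) = a' + b' * r := by
    rw [map_add, map_mul, Complex.conj_ofReal]
  have hcy : (starRingEnd ℂ) (a - b * r) = a' - b' * r := by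
    rw [map_sub, map_mul, Complex.conj_ofReal]
  have hcx0 : a' + b' * r ≠ 0 := by
    rw [← hcx]
    exact (map_ne_zero _).2 hx0
  have hcy0 : a' - b' * r ≠ 0 := by
    rw [← hcy]
    exact (map_ne_zero _).2 hy0
  set N : ℂ := a' * a' - b' * b' * D with hN
  have hNe : N = (a' + b' * r) * (a' - b' * r) := by
    rw [hN, ← hrrc]
    ring
  have hN0 : N ≠ 0 := by
    rw [hNe]
    exact mul_ne_zero hcx0 hcy0
  have hNm : N ∈ KF d := sub_mem (mul_mem hca hca) (mul_mem (mul_mem hcb hcb) (h14_nat D))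
  have q1 : (a * a' - b * b' * D) / N + (b * a' - a * b') / N * r =
      (a + b * r) / (starRingEnd ℂ) (a + b * r) := by
    rw [hcx, div_mul_eq_mul_div, ← add_div, div_eq_div_iff hN0 hcx0, hNe, ← hrrc]
    ring
  have q2 : (a * a' - b * b' * D) / N - (b * a' - a * b') / N * r =
      (a - b * r) / (starRingEnd ℂ) (a - b * r) := by
    rw [hcy, div_mul_eq_mul_div, ← sub_div, div_eq_div_iff hN0 hcy0, hNe, ← hrrc]
    ring
  refine ⟨(a * a' - b * b' * D) / N, div_mem (sub_mem (mul_mem ha hca)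
    (mul_mem (mul_mem hb hcb) (h14_nat D))) hNm, (b * a' - a * b') / N,
    div_mem (sub_mem (mul_mem hb hca) (mul_mem ha hcb)) hNm, ?_, ?_, ?_⟩
  · rw [q1, norm_div, RCLike.norm_conj, div_self (norm_ne_zero_iff.2 hx0)]
  · rw [q1]
    exact hx
  · rw [q2]
    exact hy

/-- H14a. Points over `K(√D)` on a circle with centre in `K` and rational squared radius. PROOF. Write `ρ = P/Q` and let `D = P Q` if this is not a square, and `D = 2` otherwise; so
`√ρ = v₀ √D` or `√ρ = v₀` with rational `v₀`. For `ω = α₁ + β₁ √D` (`α₁, β₁ ∈ K`), `ω' = α₁ - β₁ √D`: the point `s = sc + √ρ ω/ω̄` lies on the circle, it is of the form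
`α + β √D` (`1/ω̄ = ω̄'/(ω̄ ω̄')` with `ω ω' ∈ K`), and `α - β √D = sc ± √ρ ω'/ω̄'` with the sign `-` if `√ρ = v₀ √D`. The pairs `(ω, ω')` are dense in
`ℂ²` (choose `α₁, β₁` near `(ω + ω')/2`, `(ω - ω')/(2√D)`, `KF_dense`), and every point of the unit circle is `ω/ω̄` with `|ω| = 1`. So `s` and `α - β √D` can be made
close to `s₁` and `s₁'`. -/
theorem circle_pts {d : ℕ} (hd : 0 < d) (sc : ℂ) (hsc : sc ∈ KF d) (ρ : ℚ) (hρ : 0 < ρ) (s₁ s₁' : ℂ) (h₁ : ‖s₁ - sc‖ ^ 2 = ρ)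
    (h₁' : ‖s₁' - sc‖ ^ 2 = ρ) (ε : ℝ) (hε : 0 < ε) :
    ∃ D : ℕ, ¬ IsSquare D ∧ ∃ α ∈ KF d, ∃ β ∈ KF d, ‖α + β * Real.sqrt D - sc‖ ^ 2 = ρ ∧ ‖α + β * Real.sqrt D - s₁‖ < ε ∧
      ‖α - β * Real.sqrt D - s₁'‖ < ε := by
  set n : ℕ := ρ.num.toNat * ρ.den with hn
  have hnum : 0 < ρ.num := Rat.num_pos.2 hρ
  have hden : (0 : ℝ) < ρ.den := by exact_mod_cast ρ.den_pos
  have hn0 : 0 < n := Nat.mul_pos (by omega) ρ.den_pos
  have hρn : (ρ : ℝ) = n / (ρ.den : ℝ) ^ 2 := by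
    have h1 : (ρ : ℝ) = (ρ.num : ℝ) / (ρ.den : ℝ) := by exact_mod_cast (Rat.num_div_den ρ).symm
    have h2 : ((ρ.num.toNat : ℕ) : ℝ) = (ρ.num : ℝ) := by
      have : ((ρ.num.toNat : ℤ)) = ρ.num := Int.toNat_of_nonneg hnum.le
      exact_mod_cast this
    rw [hn, h1]
    push_cast
    rw [h2]
    field_simp
  have hρ0 : (0 : ℝ) < ρ := by exact_mod_cast hρ
  set R : ℝ := Real.sqrt ρ with hR
  have hR0 : 0 < R := Real.sqrt_pos.2 hρ0
  have hRR : R ^ 2 = ρ := Real.sq_sqrt hρ0.le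
  have hRc : (R : ℂ) ≠ 0 := by exact_mod_cast hR0.ne'
  have hnorm : ∀ s : ℂ, ‖s - sc‖ ^ 2 = ρ → ‖(s - sc) / R‖ = 1 := by
    intro s hs
    rw [norm_div, Complex.norm_real, Real.norm_eq_abs, abs_of_pos hR0, div_eq_one_iff_eq hR0.ne']
    rw [← hRR] at hs
    exact (sq_eq_sq₀ (norm_nonneg _) hR0.le).1 hs
  have hεR : 0 < ε / R := by positivity
  by_cases hsq : IsSquare n
  · obtain ⟨k, hk⟩ := hsq
    have hRk : R = (((k : ℚ) / ρ.den : ℚ) : ℝ) := by
      push_cast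
      rw [hR, hρn, hk]
      push_cast
      rw [show ((k : ℝ) * k) / (ρ.den : ℝ) ^ 2 = ((k : ℝ) / ρ.den) ^ 2 by ring]
      exact Real.sqrt_sq (by positivity)
    have hRkc : (R : ℂ) ∈ KF d := by
      rw [hRk]
      exact_mod_cast h14_rat (d := d) ((k : ℚ) / ρ.den)
    obtain ⟨A, hA, B, hB, hAB, hAB1, hAB2⟩ := h14_key hd 2 (by norm_num) _ _ (hnorm s₁ h₁)
      (hnorm s₁' h₁') (ε / R) hεR
    refine ⟨2, ?_, sc + R * A, add_mem hsc (mul_mem hRkc hA), R * B, mul_mem hRkc hB, ?_, ?_, ?_⟩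
    · intro h
      obtain ⟨m, hm⟩ := h
      have h3 : m < 2 := by nlinarith
      interval_cases m <;> omega
    · have e1 : sc + R * A + R * B * Real.sqrt (2 : ℕ) - sc = R * (A + B * Real.sqrt (2 : ℕ)) := by
        ring
      rw [e1, norm_mul, hAB, mul_one, Complex.norm_real, Real.norm_eq_abs, sq_abs, hRR]
    · have e1 : sc + R * A + R * B * Real.sqrt (2 : ℕ) - s₁ =
          R * (A + B * Real.sqrt (2 : ℕ) - (s₁ - sc) / R) := by
        field_simp
        ring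
      rw [e1, norm_mul, Complex.norm_real, Real.norm_eq_abs, abs_of_pos hR0]
      calc R * _ < R * (ε / R) := mul_lt_mul_of_pos_left hAB1 hR0
        _ = ε := by field_simp
    · have e1 : sc + R * A - R * B * Real.sqrt (2 : ℕ) - s₁' =
          R * (A - B * Real.sqrt (2 : ℕ) - (s₁' - sc) / R) := by
        field_simp
        ring
      rw [e1, norm_mul, Complex.norm_real, Real.norm_eq_abs, abs_of_pos hR0]
      calc R * _ < R * (ε / R) := mul_lt_mul_of_pos_left hAB2 hR0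
        _ = ε := by field_simp
  · -- `√ρ = v₀ √n`
    set r : ℝ := Real.sqrt n with hr
    have hr0 : 0 < r := Real.sqrt_pos.2 (by exact_mod_cast hn0)
    have hrr : r * r = n := Real.mul_self_sqrt (Nat.cast_nonneg n)
    have hrrc : (r : ℂ) * r = n := by exact_mod_cast hrr
    have hRv : R = r / ρ.den := by
      rw [hR, hρn, Real.sqrt_div (Nat.cast_nonneg n), Real.sqrt_sq hden.le]
    set v : ℂ := ((1 / ρ.den : ℚ) : ℂ) with hv
    have hvm : v ∈ KF d := h14_rat _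
    have hRvc : (R : ℂ) = v * r := by
      rw [hRv, hv]
      push_cast
      ring
    obtain ⟨A, hA, B, hB, hAB, hAB1, hAB2⟩ := h14_key hd n hn0 ((s₁ - sc) / R)
      (-((s₁' - sc) / R)) (hnorm s₁ h₁) (by rw [norm_neg]; exact hnorm s₁' h₁') (ε / R) hεR
    refine ⟨n, hsq, sc + v * n * B, add_mem hsc (mul_mem (mul_mem hvm (h14_nat n)) hB), v * A,
      mul_mem hvm hA, ?_, ?_, ?_⟩
    · have e1 : sc + v * n * B + v * A * r - sc = R * (A + B * r) := by
        rw [hRvc, ← hrrc]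
        ring
      rw [e1, norm_mul, hAB, mul_one, Complex.norm_real, Real.norm_eq_abs, sq_abs, hRR]
    · have e1 : sc + v * n * B + v * A * r - s₁ = R * (A + B * r - (s₁ - sc) / R) := by
        have e2 : (R : ℂ) * (A + B * r - (s₁ - sc) / R) = R * (A + B * r) - (s₁ - sc) := by
          field_simp
        rw [e2, hRvc, ← hrrc]
        ring
      rw [e1, norm_mul, Complex.norm_real, Real.norm_eq_abs, abs_of_pos hR0]
      calc R * _ < R * (ε / R) := mul_lt_mul_of_pos_left hAB1 hR0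
        _ = ε := by field_simp
    · have e1 : sc + v * n * B - v * A * r - s₁' = -(R * (A - B * r - -((s₁' - sc) / R))) := by
        have e2 : (R : ℂ) * (A - B * r - -((s₁' - sc) / R)) = R * (A - B * r) + (s₁' - sc) := by
          field_simp
          ring
        rw [e2, hRvc, ← hrrc]
        ring
      rw [e1, norm_neg, norm_mul, Complex.norm_real, Real.norm_eq_abs, abs_of_pos hR0]
      calc R * _ < R * (ε / R) := mul_lt_mul_of_pos_left hAB2 hR0
        _ = ε := by field_simp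

/-- H14b. The same on a line. (`D = 2`, `r = u + v √2` with rational `u, v`, `r` near `r₁`, `u - v √2` near `r₁'`.) -/
theorem line_pts {d : ℕ} (hd : 0 < d) (sc τ : ℂ) (hsc : sc ∈ KF d) (hτ : τ ∈ KF d) (r₁ r₁' : ℝ) (ε : ℝ) (hε : 0 < ε) :
    ∃ D : ℕ, ¬ IsSquare D ∧ ∃ α ∈ KF d, ∃ β ∈ KF d, ∃ r : ℝ, |r - r₁| < ε ∧ α + β * Real.sqrt D = sc + r * τ ∧
      ‖α - β * Real.sqrt D - (sc + r₁' * τ)‖ < ε := by
  set q : ℝ := Real.sqrt ((2 : ℕ) : ℝ) with hq
  have hq0 : 0 < q := Real.sqrt_pos.2 (by norm_num)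
  set ζ : ℝ := ε / (‖τ‖ + 1) with hζ
  have hζ0 : 0 < ζ := by positivity
  have hζε : ζ ≤ ε := by
    rw [hζ, div_le_iff₀ (by positivity)]
    nlinarith [norm_nonneg τ]
  obtain ⟨u, hu1, hu2⟩ := exists_rat_btwn (show (r₁ + r₁') / 2 < (r₁ + r₁') / 2 + ζ / 2 by linarith)
  obtain ⟨v, hv1, hv2⟩ := exists_rat_btwn (show (r₁ - r₁') / (2 * q) <
    (r₁ - r₁') / (2 * q) + ζ / (2 * q) by
      have : 0 < ζ / (2 * q) := by positivity
      linarith)
  have hv1' : (r₁ - r₁') / 2 < v * q := by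
    have := mul_lt_mul_of_pos_right hv1 hq0
    have e1 : (r₁ - r₁') / (2 * q) * q = (r₁ - r₁') / 2 := by field_simp
    rwa [e1] at this
  have hv2' : v * q < (r₁ - r₁') / 2 + ζ / 2 := by
    have := mul_lt_mul_of_pos_right hv2 hq0
    have e1 : ((r₁ - r₁') / (2 * q) + ζ / (2 * q)) * q = (r₁ - r₁') / 2 + ζ / 2 := by field_simp
    rwa [e1] at this
  refine ⟨2, ?_, sc + u * τ, add_mem hsc (mul_mem (h14_rat u) hτ), v * τ,
    mul_mem (h14_rat v) hτ, u + v * q, ?_, ?_, ?_⟩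
  · intro h
    obtain ⟨m, hm⟩ := h
    have h3 : m < 2 := by nlinarith
    interval_cases m <;> omega
  · rw [abs_lt]
    constructor <;> linarith
  · rw [← hq, Complex.ofReal_add, Complex.ofReal_mul, Complex.ofReal_ratCast,
      Complex.ofReal_ratCast]
    ring
  · rw [← hq]
    have e1 : sc + (u : ℂ) * τ - v * τ * q - (sc + r₁' * τ) = (((u : ℝ) - v * q - r₁' : ℝ) : ℂ) * τ := by
      rw [Complex.ofReal_sub, Complex.ofReal_sub, Complex.ofReal_mul, Complex.ofReal_ratCast,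
        Complex.ofReal_ratCast]
      ring
    rw [e1, norm_mul, Complex.norm_real, Real.norm_eq_abs]
    have h4 : |(u : ℝ) - v * q - r₁'| < ζ := by
      rw [abs_lt]
      constructor <;> linarith
    calc |(u : ℝ) - v * q - r₁'| * ‖τ‖ ≤ |(u : ℝ) - v * q - r₁'| * (‖τ‖ + 1) :=
          mul_le_mul_of_nonneg_left (by linarith) (abs_nonneg _)
      _ < ζ * (‖τ‖ + 1) := mul_lt_mul_of_pos_right h4 (by positivity)
      _ = ε := by
          rw [hζ]
          field_simp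

end Pool.Agent.MSD
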