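import Pool.Agent.Lib.MP_f58a57_nt.H12_ConjDegree
import Pool.Agent.Lib.MP_f58a57_nt.H13_Circle
import Pool.Agent.Lib.MP_f58a57_nt.H14_CirclePts

/-! # H16: the real analytic curve (MP_f58a57_nt) -/

open Complex ModularForm EisensteinSeries Filter
open UpperHalfPlane hiding I
open scoped Topology MatrixGroups Polynomial

noncomputable section

namespace Pool.Agent.MSD

/-- the local structure of a circle -/
theorem h16_loc {ρ : ℝ} (hρ : 0 < ρ) (sc : ℂ) (r₁ : ℝ) (ε : ℝ) (hε : 0 < ε) :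
    ∃ δ > 0, ∀ r : ℝ, ‖(sc + ρ * Complex.exp (r * I)) - (sc + ρ * Complex.exp (r₁ * I))‖ < δ →
      ∃ r' : ℝ, |r' - r₁| < ε ∧ sc + ρ * Complex.exp (r' * I) = sc + ρ * Complex.exp (r * I) := by
  have hcont : ContinuousAt Complex.arg 1 := Complex.continuousAt_arg (by simp)
  rw [Metric.continuousAt_iff] at hcont
  obtain ⟨δ', hδ', h⟩ := hcont ε hε
  refine ⟨ρ * δ', by positivity, fun r hr => ?_⟩
  set w : ℂ := Complex.exp (((r - r₁ : ℝ) : ℂ) * I) with hw
  have hw1 : ‖w‖ = 1 := Complex.norm_exp_ofReal_mul_I _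
  have hew : Complex.exp ((w.arg : ℝ) * I) = w := by
    have := Complex.norm_mul_exp_arg_mul_I w
    rw [hw1] at this
    simpa using this
  have hmul : Complex.exp (r * I) = Complex.exp (r₁ * I) * w := by
    rw [hw, ← Complex.exp_add]
    congr 1
    push_cast
    ring
  have hnorm : ‖(sc + ρ * Complex.exp (r * I)) - (sc + ρ * Complex.exp (r₁ * I))‖ = ρ * ‖w - 1‖ := by
    have e : (sc + ρ * Complex.exp (r * I)) - (sc + ρ * Complex.exp (r₁ * I)) =
        (ρ : ℂ) * (Complex.exp (r₁ * I) * (w - 1)) := by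
      rw [hmul]
      ring
    rw [e, norm_mul, norm_mul, Complex.norm_exp_ofReal_mul_I, one_mul, Complex.norm_real,
      Real.norm_eq_abs, abs_of_pos hρ]
  rw [hnorm] at hr
  have h2 : ‖w - 1‖ < δ' := lt_of_mul_lt_mul_left hr hρ.le
  have h3 := h (x := w) (by rw [dist_eq_norm]; exact h2)
  rw [Complex.arg_one, Real.dist_eq, sub_zero] at h3
  refine ⟨r₁ + w.arg, by simpa using h3, ?_⟩
  rw [hmul]
  have e2 : Complex.exp (((r₁ + w.arg : ℝ) : ℂ) * I) = Complex.exp (r₁ * I) * w := by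
    push_cast
    rw [add_mul, Complex.exp_add, hew]
  rw [e2]

/-- every point of the circle is a value -/
theorem h16_surj {ρ : ℝ} (hρ : 0 < ρ) (sc s : ℂ) (h : ‖s - sc‖ ^ 2 = ρ ^ 2) :
    ∃ r : ℝ, sc + ρ * Complex.exp (r * I) = s := by
  have h1 : ‖s - sc‖ = ρ := by
    have := (pow_left_inj₀ (norm_nonneg (s - sc)) hρ.le two_ne_zero).1 h
    exact this
  refine ⟨(s - sc).arg, ?_⟩
  have := Complex.norm_mul_exp_arg_mul_I (s - sc)
  rw [h1] at this
  rw [this]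
  ring

/-- H16. From the conjugation relation on an infinite set `T` we get an analytic curve `Γ : ℝ → ℂ` (a circle or a line, `Γ` entire) with: all points of `T` are on it; it is regular;
`Γ` is locally a homeomorphism onto its image with the metric of the image (`loc`); and quadratic points over `K` on the curve can be prescribed together with their conjugates (`pts`).
PROOF. By H12 `n = a X + b`, `m = c X + e`; H13 gives a circle `Γ(r) = sc + √ρ exp(i r)` or a line `Γ(r) = sc + r τ`; `pts` is H14; for the circle, `r ↦ √ρ e^{ir}` is a covering: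
if `Γ r` is near `Γ r₁` then `Γ r = Γ r'` with `r'` near `r₁` (use `Complex.arg` of `(Γ r - sc)/(Γ r₁ - sc)`). -/
theorem curve_of_conj {d : ℕ} (hd : 0 < d) (n m : Polynomial (KF d)) (hcop : IsCoprime n m) (T : Set ℂ) (hinf : T.Infinite)
    (h : ∀ s ∈ T, Polynomial.aeval s m ≠ 0 ∧ (starRingEnd ℂ) s = Polynomial.aeval s n / Polynomial.aeval s m) :
    ∃ Γ : ℂ → ℂ, Differentiable ℂ Γ ∧ (∀ r : ℝ, deriv Γ r ≠ 0) ∧ (∀ s ∈ T, ∃ r : ℝ, Γ r = s) ∧
      (∀ r₁ : ℝ, ∀ ε > 0, ∃ δ > 0, ∀ r : ℝ, ‖Γ r - Γ r₁‖ < δ → ∃ r' : ℝ, |r' - r₁| < ε ∧ Γ r' = Γ r) ∧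
      (∀ r₁ r₁' : ℝ, ∀ ε > 0, ∃ D : ℕ, ¬ IsSquare D ∧ ∃ α ∈ KF d, ∃ β ∈ KF d, ∃ r : ℝ, |r - r₁| < ε ∧
        α + β * Real.sqrt D = Γ r ∧ ‖α - β * Real.sqrt D - Γ r₁'‖ < ε) := by
  obtain ⟨hn, hm⟩ := conj_degree n m hcop T hinf h
  have hev : ∀ (p : Polynomial (KF d)) (s : ℂ), p.natDegree ≤ 1 →
      Polynomial.aeval s p = (p.coeff 1 : ℂ) * s + (p.coeff 0 : ℂ) := by
    intro p s hp
    conv_lhs => rw [Polynomial.eq_X_add_C_of_natDegree_le_one hp]
    rw [map_add, map_mul, Polynomial.aeval_C, Polynomial.aeval_X, Polynomial.aeval_C]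
    rfl
  have hT : ∀ s ∈ T, (m.coeff 1 : ℂ) * s + (m.coeff 0 : ℂ) ≠ 0 ∧
      (starRingEnd ℂ) s * ((m.coeff 1 : ℂ) * s + (m.coeff 0 : ℂ)) =
        (n.coeff 1 : ℂ) * s + (n.coeff 0 : ℂ) := by
    intro s hs
    obtain ⟨h1, h2⟩ := h s hs
    rw [hev m s hm] at h1 h2
    rw [hev n s hn] at h2
    refine ⟨h1, ?_⟩
    rw [h2, div_mul_cancel₀ _ h1]
  rcases circle_or_line hd _ _ _ _ (n.coeff 1).2 (n.coeff 0).2 (m.coeff 1).2 (m.coeff 0).2 T hinf hT with
    ⟨sc, hsc, ρ, hρ, hon⟩ | ⟨sc, hsc, τ, hτ, hτ0, hon⟩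
  · have hρ' : (0 : ℝ) < ρ := by exact_mod_cast hρ
    set R : ℝ := Real.sqrt ρ with hR
    have hR0 : 0 < R := Real.sqrt_pos.2 hρ'
    have hR2 : R ^ 2 = (ρ : ℝ) := Real.sq_sqrt hρ'.le
    have hcirc : ∀ r : ℝ, ‖(sc + R * Complex.exp (r * I)) - sc‖ ^ 2 = (ρ : ℝ) := by
      intro r
      rw [add_sub_cancel_left, norm_mul, Complex.norm_exp_ofReal_mul_I, mul_one, Complex.norm_real,
        Real.norm_eq_abs, abs_of_pos hR0, hR2]
    refine ⟨fun z => sc + R * Complex.exp (z * I), ?_, ?_, ?_, ?_, ?_⟩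
    · exact (differentiable_const _).add
        ((differentiable_const _).mul ((differentiable_id.mul_const I).cexp))
    · intro r
      have hder : HasDerivAt (fun z : ℂ => sc + R * Complex.exp (z * I))
          (R * (Complex.exp (r * I) * (1 * I))) (r : ℂ) := by
        exact (((hasDerivAt_id (r : ℂ)).mul_const I).cexp.const_mul (R : ℂ)).const_add sc
      rw [hder.deriv]
      refine mul_ne_zero ?_ (mul_ne_zero (Complex.exp_ne_zero _) (by simp))
      exact_mod_cast hR0.ne'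
    · intro s hs
      exact h16_surj hR0 sc s (by rw [hon s hs, hR2])
    · intro r₁ ε hε
      exact h16_loc hR0 sc r₁ ε hε
    · intro r₁ r₁' ε hε
      obtain ⟨δ, hδ, hloc⟩ := h16_loc hR0 sc r₁ ε hε
      obtain ⟨D, hD, α, hα, β, hβ, h1, h2, h3⟩ := circle_pts hd sc hsc ρ hρ
        (sc + R * Complex.exp (r₁ * I)) (sc + R * Complex.exp (r₁' * I)) (hcirc r₁) (hcirc r₁')
        (min ε δ) (lt_min hε hδ)
      obtain ⟨r, hr⟩ := h16_surj hR0 sc (α + β * Real.sqrt D) (by rw [h1, hR2])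
      obtain ⟨r', hr', hr'2⟩ := hloc r (by rw [hr]; exact h2.trans_le (min_le_right _ _))
      exact ⟨D, hD, α, hα, β, hβ, r', hr', hr.symm.trans hr'2.symm, h3.trans_le (min_le_left _ _)⟩
  · refine ⟨fun z => sc + z * τ, ?_, ?_, ?_, ?_, ?_⟩
    · exact (differentiable_const _).add (differentiable_id.mul_const τ)
    · intro r
      have hder : HasDerivAt (fun z : ℂ => sc + z * τ) (1 * τ) (r : ℂ) :=
        ((hasDerivAt_id (r : ℂ)).mul_const τ).const_add sc
      rw [hder.deriv, one_mul]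
      exact hτ0
    · intro s hs
      obtain ⟨r, hr⟩ := hon s hs
      exact ⟨r, hr.symm⟩
    · intro r₁ ε hε
      have hτn : 0 < ‖τ‖ := norm_pos_iff.2 hτ0
      refine ⟨ε * ‖τ‖, by positivity, fun r hr => ⟨r, ?_, rfl⟩⟩
      have e : (sc + (r : ℂ) * τ) - (sc + (r₁ : ℂ) * τ) = ((r - r₁ : ℝ) : ℂ) * τ := by
        push_cast
        ring
      simp only [e] at hr
      rw [norm_mul, Complex.norm_real, Real.norm_eq_abs] at hr
      exact lt_of_mul_lt_mul_right hr hτn.le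
    · intro r₁ r₁' ε hε
      obtain ⟨D, hD, α, hα, β, hβ, r, h1, h2, h3⟩ := line_pts hd sc τ hsc hτ r₁ r₁' ε hε
      exact ⟨D, hD, α, hα, β, hβ, r, h1, h2, h3⟩

end Pool.Agent.MSD
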