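import Pool.Agent.Lib.MP_f58a57_nt.H00_Defs

/-! # H17: real values on an analytic curve (MP_f58a57_nt) -/

open Complex ModularForm EisensteinSeries Filter
open UpperHalfPlane hiding I
open scoped Topology MatrixGroups Polynomial

noncomputable section

namespace Pool.Agent.MSD

/-- H17. PROOF. `F(z) = f(Γ z)` is analytic at `r₁`, and so is `F*(z) = conj (F (conj z))`. `F - F*` vanishes at the real points `r` near `r₁` with `f(Γ r)` real, which accumulate
at `r₁`; so it vanishes near `r₁` (identity theorem), in particular `F(r)` is real for all real `r` near `r₁`. -/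
theorem real_on_curve (f Γ : ℂ → ℂ) (r₁ : ℝ) (hΓ : AnalyticAt ℂ Γ r₁) (hf : AnalyticAt ℂ f (Γ r₁))
    (h : ∃ᶠ r : ℝ in 𝓝[≠] r₁, (f (Γ r)).im = 0) : ∀ᶠ r : ℝ in 𝓝 r₁, (f (Γ r)).im = 0 := by
  set F : ℂ → ℂ := fun z => f (Γ z) with hFdef
  have hF : AnalyticAt ℂ F r₁ := hf.comp hΓ
  have hF' : AnalyticAt ℂ (fun z => (starRingEnd ℂ) (F ((starRingEnd ℂ) z))) (r₁ : ℂ) := by
    rw [Complex.analyticAt_iff_eventually_differentiableAt] at hF ⊢
    have h1 : Tendsto (fun z : ℂ => (starRingEnd ℂ) z) (𝓝 (r₁ : ℂ)) (𝓝 (r₁ : ℂ)) := by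
      have h2 : Continuous (fun z : ℂ => (starRingEnd ℂ) z) := Complex.continuous_conj
      have h3 := h2.tendsto (r₁ : ℂ)
      simpa using h3
    filter_upwards [h1.eventually hF] with z hz
    have h4 := hz.conj_conj
    rw [Complex.conj_conj] at h4
    exact h4
  have hreal : ∀ r : ℝ, F r = (starRingEnd ℂ) (F ((starRingEnd ℂ) (r : ℂ))) ↔ (F r).im = 0 := by
    intro r
    rw [Complex.conj_ofReal, eq_comm, Complex.conj_eq_iff_im]
  have hcast : Tendsto (fun r : ℝ => (r : ℂ)) (𝓝[≠] r₁) (𝓝[≠] (r₁ : ℂ)) := by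
    apply tendsto_nhdsWithin_of_tendsto_nhds_of_eventually_within
    · exact (Complex.continuous_ofReal.tendsto r₁).mono_left nhdsWithin_le_nhds
    · filter_upwards [self_mem_nhdsWithin] with r hr
      intro h
      exact hr (by simpa using h)
  have hfreq : ∃ᶠ z in 𝓝[≠] (r₁ : ℂ), F z = (starRingEnd ℂ) (F ((starRingEnd ℂ) z)) := by
    apply hcast.frequently
    exact h.mono (fun r hr => (hreal r).mpr hr)
  have hev := (hF.frequently_eq_iff_eventually_eq hF').mp hfreq
  have h5 : Tendsto (fun r : ℝ => (r : ℂ)) (𝓝 r₁) (𝓝 (r₁ : ℂ)) := Complex.continuous_ofReal.tendsto r₁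
  filter_upwards [h5.eventually hev] with r hr
  exact (hreal r).mp hr

end Pool.Agent.MSD
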