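import Pool.Agent.Lib.MP_f58a57_nt.H10_Luroth
import Pool.Agent.Lib.MP_f58a57_nt.H11_ConjRel
import Pool.Agent.Lib.MP_f58a57_nt.H16_Curve
import Pool.Agent.Lib.MP_f58a57_nt.H17_Real

/-! # H18: common quadratic points on an arc (MP_f58a57_nt) -/

open Complex ModularForm EisensteinSeries Filter
open UpperHalfPlane hiding I
open scoped Topology MatrixGroups Polynomial

noncomputable section

namespace Pool.Agent.MSD

/-- `s = X + Y √D`, `s' = X - Y √D` with `X, Y ∈ KF d` -/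
def h18_QP (d D : ℕ) (s s' : ℂ) : Prop :=
  ∃ X ∈ KF d, ∃ Y ∈ KF d, s = X + Y * Real.sqrt D ∧ s' = X - Y * Real.sqrt D

theorem h18_sq (D : ℕ) : ((Real.sqrt D : ℝ) : ℂ) * ((Real.sqrt D : ℝ) : ℂ) = (D : ℂ) := by
  rw [← Complex.ofReal_mul, Real.mul_self_sqrt (by positivity)]
  simp

theorem h18_QP_add {d D : ℕ} {s s' t t' : ℂ} (h : h18_QP d D s s') (h' : h18_QP d D t t') :
    h18_QP d D (s + t) (s' + t') := by
  obtain ⟨X, hX, Y, hY, h1, h2⟩ := h
  obtain ⟨Z, hZ, W, hW, h3, h4⟩ := h'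
  refine ⟨X + Z, add_mem hX hZ, Y + W, add_mem hY hW, ?_, ?_⟩
  · rw [h1, h3]; ring
  · rw [h2, h4]; ring

theorem h18_QP_mul {d D : ℕ} {s s' t t' : ℂ} (h : h18_QP d D s s') (h' : h18_QP d D t t') :
    h18_QP d D (s * t) (s' * t') := by
  obtain ⟨X, hX, Y, hY, h1, h2⟩ := h
  obtain ⟨Z, hZ, W, hW, h3, h4⟩ := h'
  have hD : ((D : ℕ) : ℂ) ∈ KF d := natCast_mem _ D
  refine ⟨X * Z + Y * W * D, add_mem (mul_mem hX hZ) (mul_mem (mul_mem hY hW) hD),
    X * W + Y * Z, add_mem (mul_mem hX hW) (mul_mem hY hZ), ?_, ?_⟩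
  · rw [h1, h3]; linear_combination (Y * W) * h18_sq D
  · rw [h2, h4]; linear_combination (Y * W) * h18_sq D

theorem h18_QP_const {d D : ℕ} (c : KF d) : h18_QP d D (c : ℂ) (c : ℂ) :=
  ⟨c, c.2, 0, zero_mem _, by simp, by simp⟩

theorem h18_QP_inv {d D : ℕ} {s s' : ℂ} (h : h18_QP d D s s') (hs : s ≠ 0) (hs' : s' ≠ 0) :
    h18_QP d D s⁻¹ s'⁻¹ := by
  obtain ⟨X, hX, Y, hY, h1, h2⟩ := h
  have hD : ((D : ℕ) : ℂ) ∈ KF d := natCast_mem _ D
  have h3 : s * s' = X * X - Y * Y * D := by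
    rw [h1, h2]; linear_combination (-Y * Y) * h18_sq D
  have h4 : s * s' ≠ 0 := mul_ne_zero hs hs'
  have hN : (s * s') ∈ KF d := by
    rw [h3]
    exact sub_mem (mul_mem hX hX) (mul_mem (mul_mem hY hY) hD)
  refine ⟨X * (s * s')⁻¹, mul_mem hX (inv_mem hN), -Y * (s * s')⁻¹,
    mul_mem (neg_mem hY) (inv_mem hN), ?_, ?_⟩
  · have h5 : s⁻¹ = s' * (s * s')⁻¹ := by field_simp
    calc s⁻¹ = s' * (s * s')⁻¹ := h5
      _ = (X - Y * Real.sqrt D) * (s * s')⁻¹ := by rw [← h2]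
      _ = _ := by ring
  · have h5 : s'⁻¹ = s * (s * s')⁻¹ := by field_simp
    calc s'⁻¹ = s * (s * s')⁻¹ := h5
      _ = (X + Y * Real.sqrt D) * (s * s')⁻¹ := by rw [← h1]
      _ = _ := by ring

theorem h18_QP_aeval {d D : ℕ} {s s' : ℂ} (h : h18_QP d D s s') (p : Polynomial (KF d)) :
    h18_QP d D (Polynomial.aeval s p) (Polynomial.aeval s' p) := by
  induction p using Polynomial.induction_on' with
  | add p q hp hq => rw [map_add, map_add]; exact h18_QP_add hp hq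
  | monomial n a =>
    rw [Polynomial.aeval_monomial, Polynomial.aeval_monomial]
    refine h18_QP_mul (h18_QP_const a) ?_
    induction n with
    | zero =>
      rw [pow_zero, pow_zero]
      exact ⟨1, one_mem _, 0, zero_mem _, by simp, by simp⟩
    | succ n ih => rw [pow_succ, pow_succ]; exact h18_QP_mul ih h

/-- real elements `X + Y √D`, `X, Y ∈ KF d` -/
theorem h18_QP_real {d D : ℕ} (hd : 0 < d) (hD : ¬ IsSquare D) {s s' : ℂ} (h : h18_QP d D s s')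
    (hs : s.im = 0) (hne : s ≠ s') :
    ∃ a b : ℚ, b ≠ 0 ∧ s = ((a + b * Real.sqrt D : ℝ) : ℂ) := by
  obtain ⟨X, hX, Y, hY, h1, h2⟩ := h
  obtain ⟨u, v, hX'⟩ := (mem_KF d X).mp hX
  obtain ⟨u', v', hY'⟩ := (mem_KF d Y).mp hY
  have hirr : Irrational (Real.sqrt D) := by
    rw [irrational_sqrt_natCast_iff]
    exact hD
  have h3 : s.im = (v + v' * Real.sqrt D) * Real.sqrt d := by
    rw [h1, hX', hY']
    simp [rt]
    ring
  have hd' : Real.sqrt d ≠ 0 := by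
    have : (0 : ℝ) < d := by exact_mod_cast hd
    positivity
  have h4 : (v : ℝ) + v' * Real.sqrt D = 0 := by
    rw [h3] at hs
    rcases mul_eq_zero.mp hs with h | h
    · exact h
    · exact absurd h hd'
  have hv' : v' = 0 := by
    by_contra hne'
    apply hirr
    refine ⟨-v / v', ?_⟩
    have : (v' : ℝ) ≠ 0 := by exact_mod_cast hne'
    push_cast
    field_simp
    linarith
  have hv : v = 0 := by
    rw [hv'] at h4
    simpa using h4
  rw [hv] at hX'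
  rw [hv'] at hY'
  refine ⟨u, u', ?_, ?_⟩
  · intro h5
    apply hne
    rw [h1, h2, hY', h5]
    simp
  · rw [h1, hX', hY']
    push_cast
    ring

/-- perfectness of the arc -/
theorem h18_perfect (f : ℂ → ℂ) (x : ℂ) (hf : AnalyticAt ℂ f x) (hd : deriv f x ≠ 0) (hx : (f x).im = 0)
    (W : Set ℂ) (hW : W ∈ 𝓝 x) : ∃ y ∈ W, y ≠ x ∧ (f y).im = 0 := by
  have h1 : map f (𝓝 x) = 𝓝 (f x) := hf.hasStrictDerivAt.map_nhds_eq hd
  have h2 : f '' W ∈ 𝓝 (f x) := by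
    rw [← h1]
    exact image_mem_map hW
  obtain ⟨ε, hε, hb⟩ := Metric.mem_nhds_iff.mp h2
  have h3 : f x + ((ε / 2 : ℝ) : ℂ) ∈ Metric.ball (f x) ε := by
    rw [Metric.mem_ball, dist_eq_norm, add_sub_cancel_left, Complex.norm_real, Real.norm_eq_abs,
      abs_of_pos (by positivity)]
    linarith
  obtain ⟨y, hy, hy'⟩ := hb h3
  refine ⟨y, hy, ?_, ?_⟩
  · rintro rfl
    have : ((ε / 2 : ℝ) : ℂ) = 0 := by
      have h4 := hy'
      nth_rewrite 1 [← add_zero (f y)] at h4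
      exact (add_left_cancel h4).symm
    have h5 : ε / 2 = 0 := by exact_mod_cast this
    linarith
  · rw [hy', Complex.add_im, hx, Complex.ofReal_im, add_zero]

theorem h18_infinite (A : Set ℂ) (x : ℂ) (h : ∀ W ∈ 𝓝 x, ∃ y ∈ W, y ≠ x ∧ y ∈ A) : A.Infinite := by
  intro hA
  have h1 : (A \ {x})ᶜ ∈ 𝓝 x := by
    refine (hA.subset Set.sdiff_subset).isClosed.isOpen_compl.mem_nhds ?_
    simp
  obtain ⟨y, hy, hne, hyA⟩ := h _ h1
  exact hy ⟨hyA, hne⟩

/-- values of `R = p(g)/q(g)` -/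
theorem h18_val {d : ℕ} (R g : RatFunc (KF d)) (p q : Polynomial (KF d))
    (h : R = Polynomial.aeval g p / Polynomial.aeval g q) (x : ℂ) (hx : dn g x ≠ 0)
    (hq : Polynomial.aeval (evr g x) q ≠ 0) :
    evr R x = Polynomial.aeval (evr g x) p / Polynomial.aeval (evr g x) q := by
  have h1 := evr_aeval g p x hx
  have h2 := evr_aeval g q x hx
  rw [h, (evr_div _ _ x h1.1 h2.1 (by rw [h2.2]; exact hq)).2, h1.2, h2.2]

theorem h18_zero_finite {d : ℕ} (g : RatFunc (KF d)) (q : Polynomial (KF d))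
    (hq : Polynomial.aeval g q ≠ 0) :
    {x : ℂ | dn g x ≠ 0 ∧ Polynomial.aeval (evr g x) q = 0}.Finite := by
  by_contra hinf
  apply hq
  refine evr_inj _ _ (Set.Infinite.mono ?_ hinf)
  intro x hx
  have h1 := evr_aeval g q x hx.1
  show evr (Polynomial.aeval g q) x = evr 0 x
  rw [h1.2, hx.2]
  simp [evr]

theorem h18_analytic {d : ℕ} (p : Polynomial (KF d)) (s : ℂ) :
    AnalyticAt ℂ (fun s : ℂ => Polynomial.aeval s p) s := by
  have h1 : (fun s : ℂ => Polynomial.aeval s p) = fun s : ℂ => (p.map (algebraMap (KF d) ℂ)).eval s := by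
    funext s
    rw [Polynomial.eval_map, Polynomial.aeval_def]
  rw [h1]
  exact (Polynomial.differentiable _).analyticAt s

theorem h18_const {d : ℕ} (R : RatFunc (KF d)) (x : ℂ) (h : deriv (evr R) x ≠ 0) :
    ¬ ∃ c, R = RatFunc.C c := by
  rintro ⟨c, rfl⟩
  apply h
  have h1 : evr (RatFunc.C c : RatFunc (KF d)) = fun _ => algebraMap (KF d) ℂ c := by
    funext y
    simp [evr]
  rw [h1]
  simp

/-- H18. The rational functions `R i` over `K = ℚ(√(-d))` are real on a common arc through `x₁`. Near `x₁` there is a point `y` of the arc where all `R i (y)` are irrational elements of one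
real quadratic field. PROOF. Let `A` be the set of points `x` near `x₁` (in a small disc where all `evr (R i)` are analytic and the arcs coincide) with `R i (x)` real; `A` is infinite and
has no isolated points (`evr (R i₀)` is a local homeomorphism at `x₁`, `deriv ≠ 0`). Take `g, p_i, q_i` from H10, `n, m` from H11. Let `Σ = g(A ∖ finite)`, infinite by `evr_fiber_finite`; H16 gives
`Γ`. Choose `x₁' ∈ A ∩ U` off the finite set where `g` has a pole or `deriv (evr g) = 0` or `q_i(g(x)) = 0` or the relation fails. `s₁ = g(x₁') = Γ(r₁)`. `β_i(s) = p_i(s)/q_i(s)` is analytic near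
`s₁` and `R i (x) = β_i(g x)` near `x₁'`. The points `g(x)`, `x ∈ A` near `x₁'`, are `Γ(r)` with `r` near `r₁` (`loc`), different from `s₁`; there `β_i` is real; by H17 `β_i(Γ r)` is real
for all real `r` near `r₁`. Choose `r₁'` with `q_i(Γ r₁') ≠ 0` and `β_i(Γ r₁') ≠ β_i(s₁)` for all `i` (finitely many exceptions for `Γ r₁'`: `β_i` is not constant because `R i` is not; and `Γ` takes infinitely
many values). `pts` gives `D, α, β` with `α + β√D = Γ r` near `s₁` and `α - β√D` near `Γ r₁'`; by continuity `q_i ≠ 0` at both points and `β_i(α + β√D) ≠ β_i(α - β√D)`. Now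
`β_i(α + β√D) = x + y√D`, `β_i(α - β√D) = x - y√D` with `x, y ∈ K` (arithmetic in `K(√D)`, rational functions with coefficients in `K`); the first is real, so `x, y` are rational
(`Im x + √D Im y = 0` with `Im x, Im y ∈ ℚ √d`, and `√D` is irrational, so both vanish, `KF_real`), and `y ≠ 0`. Finally `Γ r` is near `s₁`, so `Γ r = g(y₀)` with `y₀` near `x₁'`
(`g` is a local homeomorphism at `x₁'`), and `R i (y₀) = β_i(Γ r)`. -/
theorem quad_points {d : ℕ} (hd : 0 < d) {S : Type} [Finite S] [Nonempty S] (R : S → RatFunc (KF d)) (x₁ : ℂ)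
    (hdn : ∀ i, dn (R i) x₁ ≠ 0) (hreal : ∀ i, (evr (R i) x₁).im = 0) (hder : ∀ i, deriv (evr (R i)) x₁ ≠ 0)
    (harc : ∀ i j, SameArc (evr (R i)) (evr (R j)) x₁) (U : Set ℂ) (hU : U ∈ 𝓝 x₁) :
    ∃ y ∈ U, ∃ D : ℕ, ¬ IsSquare D ∧ ∀ i, ∃ a b : ℚ, b ≠ 0 ∧ evr (R i) y = ((a + b * Real.sqrt D : ℝ) : ℂ) := by
  classical
  obtain ⟨i₀⟩ := ‹Nonempty S›
  have : Nonempty S := ⟨i₀⟩
  have hcon : ∀ i, ¬ ∃ c, R i = RatFunc.C c := fun i => h18_const (R i) x₁ (hder i)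
  -- the neighbourhood
  have hev : ∀ᶠ y in 𝓝 x₁, y ∈ U ∧ (∀ i, dn (R i) y ≠ 0) ∧
      (∀ i, (evr (R i₀) y).im = 0 → (evr (R i) y).im = 0) ∧ deriv (evr (R i₀)) y ≠ 0 := by
    refine (show ∀ᶠ y in 𝓝 x₁, y ∈ U from hU).and ((eventually_all.mpr fun i => dn_eventually (R i) x₁ (hdn i)).and
      ((eventually_all.mpr fun i => harc i₀ i).and ?_))
    exact (evr_analytic (R i₀) x₁ (hdn i₀)).deriv.continuousAt.eventually_ne (hder i₀)
  obtain ⟨V, hV, hVo, hxV⟩ := eventually_nhds_iff.mp hev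
  set A : Set ℂ := {x | x ∈ V ∧ (evr (R i₀) x).im = 0} with hA
  have hAreal : ∀ x ∈ A, ∀ i, (evr (R i) x).im = 0 := fun x hx i => (hV x hx.1).2.2.1 i hx.2
  have hperf : ∀ x ∈ A, ∀ W ∈ 𝓝 x, ∃ y ∈ W, y ≠ x ∧ y ∈ A := by
    intro x hx W hW
    obtain ⟨y, hy, hne, him⟩ := h18_perfect (evr (R i₀)) x
      (evr_analytic (R i₀) x ((hV x hx.1).2.1 i₀)) (hV x hx.1).2.2.2 hx.2 (W ∩ V)
      (inter_mem hW (hVo.mem_nhds hx.1))
    exact ⟨y, hy.1, hne, hy.2, him⟩
  have hAinf : A.Infinite := h18_infinite A x₁ (hperf x₁ ⟨hxV, hreal i₀⟩)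
  obtain ⟨g, hg, hRg, hgR⟩ := luroth_gen R hcon
  obtain ⟨n, m, hcop, hbad⟩ := conj_rel R g hg hRg hgR A hAinf hAreal
  choose p q hq0 hpq using hRg
  -- the exceptional set
  set E : Set ℂ := {x ∈ A | ¬ (Polynomial.aeval (evr g x) m ≠ 0 ∧
      (starRingEnd ℂ) (evr g x) = Polynomial.aeval (evr g x) n / Polynomial.aeval (evr g x) m)} ∪
      ({x | dn g x = 0} ∪ ⋃ i, {x : ℂ | dn g x ≠ 0 ∧ Polynomial.aeval (evr g x) (q i) = 0}) with hE
  have hEfin : E.Finite := by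
    refine hbad.union ((dn_finite g).union ?_)
    exact Set.finite_iUnion fun i => h18_zero_finite g (q i) (hq0 i)
  have hE1 : ∀ x ∈ A, x ∉ E → Polynomial.aeval (evr g x) m ≠ 0 ∧
      (starRingEnd ℂ) (evr g x) = Polynomial.aeval (evr g x) n / Polynomial.aeval (evr g x) m := by
    intro x hx hxE
    by_contra hcon'
    exact hxE (Or.inl ⟨hx, hcon'⟩)
  have hE2 : ∀ x, x ∉ E → dn g x ≠ 0 := fun x hxE h => hxE (Or.inr (Or.inl h))
  have hE3 : ∀ x, x ∉ E → ∀ i, Polynomial.aeval (evr g x) (q i) ≠ 0 := by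
    intro x hxE i h
    exact hxE (Or.inr (Or.inr (Set.mem_iUnion.mpr ⟨i, hE2 x hxE, h⟩)))
  have hval : ∀ x, x ∉ E → ∀ i, evr (R i) x =
      Polynomial.aeval (evr g x) (p i) / Polynomial.aeval (evr g x) (q i) :=
    fun x hxE i => h18_val (R i) g (p i) (q i) (hpq i) x (hE2 x hxE) (hE3 x hxE i)
  have hAE : (A \ E).Infinite := hAinf.sdiff hEfin
  -- the set T
  set T : Set ℂ := evr g '' (A \ E) with hT
  have hTinf : T.Infinite := by
    intro hTf
    apply hAE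
    have h1 : A \ E ⊆ ⋃ w ∈ T, {x : ℂ | dn g x ≠ 0 ∧ evr g x = w} := by
      intro x hx
      rw [Set.mem_iUnion₂]
      exact ⟨evr g x, ⟨x, hx, rfl⟩, hE2 x hx.2, rfl⟩
    exact (Set.Finite.biUnion hTf fun w _ => evr_fiber_finite g hg w).subset h1
  have hTrel : ∀ s ∈ T, Polynomial.aeval s m ≠ 0 ∧
      (starRingEnd ℂ) s = Polynomial.aeval s n / Polynomial.aeval s m := by
    rintro s ⟨x, hx, rfl⟩
    exact hE1 x hx.1 hx.2
  obtain ⟨Γ, hΓd, hΓ', hΓT, hloc, hpts⟩ := curve_of_conj hd n m hcop T hTinf hTrel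
  -- the points x₁' and x₂
  obtain ⟨x', hx'⟩ := hAE.nonempty
  obtain ⟨x₂, hx₂, hx₂ne⟩ : ∃ x₂ ∈ A \ E, ∀ i, evr (R i) x₂ ≠ evr (R i) x' := by
    have h1 : (⋃ i, {x : ℂ | dn (R i) x ≠ 0 ∧ evr (R i) x = evr (R i) x'}).Finite :=
      Set.finite_iUnion fun i => evr_fiber_finite (R i) (hcon i) _
    obtain ⟨x₂, h2, h3⟩ := (hAE.sdiff h1).nonempty
    refine ⟨x₂, h2, fun i h4 => h3 ?_⟩
    exact Set.mem_iUnion.mpr ⟨i, (hV x₂ h2.1.1).2.1 i, h4⟩
  obtain ⟨r₁, hr₁⟩ := hΓT (evr g x') ⟨x', hx', rfl⟩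
  obtain ⟨r₂, hr₂⟩ := hΓT (evr g x₂) ⟨x₂, hx₂, rfl⟩
  -- the functions β
  set β : S → ℂ → ℂ := fun i s => Polynomial.aeval s (p i) / Polynomial.aeval s (q i) with hβ
  have hβan : ∀ i s, Polynomial.aeval s (q i) ≠ 0 → AnalyticAt ℂ (β i) s := fun i s hs =>
    (h18_analytic (p i) s).div (h18_analytic (q i) s) hs
  have hq1 : ∀ i, Polynomial.aeval (evr g x') (q i) ≠ 0 := hE3 x' hx'.2
  have hq2 : ∀ i, Polynomial.aeval (evr g x₂) (q i) ≠ 0 := hE3 x₂ hx₂.2
  have hgan : AnalyticAt ℂ (evr g) x' := evr_analytic g x' (hE2 x' hx'.2)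
  -- near x' we are off E
  have hEnear : ∀ᶠ x in 𝓝 x', x ∉ E := hEfin.isClosed.isOpen_compl.mem_nhds hx'.2
  -- g has nonzero derivative at x'
  have hgder : deriv (evr g) x' ≠ 0 := by
    intro h0
    have h1 : evr (R i₀) =ᶠ[𝓝 x'] fun x => β i₀ (evr g x) := by
      filter_upwards [hEnear] with x hx
      exact hval x hx i₀
    have h2 : HasDerivAt (fun x => β i₀ (evr g x)) (deriv (β i₀) (evr g x') * deriv (evr g) x') x' :=
      (hβan i₀ _ (hq1 i₀)).differentiableAt.hasDerivAt.comp x' hgan.differentiableAt.hasDerivAt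
    have h3 := h1.deriv_eq
    rw [h2.deriv, h0, mul_zero] at h3
    exact (hV x' hx'.1.1).2.2.2 h3
  have hgmap : map (evr g) (𝓝 x') = 𝓝 (evr g x') := hgan.hasStrictDerivAt.map_nhds_eq hgder
  -- reality of β i (Γ r) near r₁
  have hfreq : ∀ i, ∀ᶠ r : ℝ in 𝓝 r₁, (β i (Γ r)).im = 0 := by
    intro i
    refine real_on_curve (β i) Γ r₁ (hΓd.analyticAt _) ?_ ?_
    · rw [hr₁]; exact hβan i _ (hq1 i)
    · rw [Filter.frequently_iff]
      intro W hW
      obtain ⟨ε, hε, hball⟩ := Metric.mem_nhdsWithin_iff.mp hW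
      obtain ⟨δ, hδ, hδ'⟩ := hloc r₁ ε hε
      have h1 : ∀ᶠ x in 𝓝 x', ‖evr g x - evr g x'‖ < δ := by
        have h2 : ∀ᶠ w in 𝓝 (evr g x'), ‖w - evr g x'‖ < δ := by
          have := Metric.ball_mem_nhds (evr g x') hδ
          filter_upwards [this] with w hw
          rwa [Metric.mem_ball, dist_eq_norm] at hw
        exact hgan.continuousAt.eventually h2
      have h3 : ∀ᶠ x in 𝓝 x', x ∉ ({x : ℂ | dn g x ≠ 0 ∧ evr g x = evr g x'} \ {x'}) := by
        refine ((evr_fiber_finite g hg (evr g x')).subset Set.sdiff_subset).isClosed.isOpen_compl.mem_nhds ?_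
        simp
      obtain ⟨y, hy, hyne, hyA⟩ := hperf x' hx'.1 _ ((hEnear.and (h1.and h3)))
      obtain ⟨hyE, hyd, hyf⟩ := hy
      have hgne : evr g y ≠ evr g x' := fun h4 => hyf ⟨⟨hE2 y hyE, h4⟩, hyne⟩
      obtain ⟨r, hr⟩ := hΓT (evr g y) ⟨y, ⟨hyA, hyE⟩, rfl⟩
      obtain ⟨r', hr', hr''⟩ := hδ' r (by rw [hr, hr₁]; exact hyd)
      refine ⟨r', hball ⟨?_, ?_⟩, ?_⟩
      · rw [Metric.mem_ball, Real.dist_eq]; exact hr'
      · intro h5
        rw [Set.mem_singleton_iff] at h5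
        apply hgne
        rw [← hr, ← hr'', h5, hr₁]
      · rw [hr'', hr]
        have := hval y hyE i
        rw [hβ]
        beta_reduce
        rw [← this]
        exact hAreal y hyA i
  -- separation
  have hβne : ∀ i, β i (evr g x') ≠ β i (evr g x₂) := by
    intro i h
    apply hx₂ne i
    rw [hval x₂ hx₂.2 i, hval x' hx'.2 i]
    exact h.symm
  have hsep : ∀ᶠ w : ℂ × ℂ in 𝓝 (evr g x', evr g x₂), ∀ i, Polynomial.aeval w.1 (q i) ≠ 0 ∧
      Polynomial.aeval w.2 (q i) ≠ 0 ∧ β i w.1 ≠ β i w.2 := by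
    refine eventually_all.mpr fun i => ?_
    have c1 : ContinuousAt (fun w : ℂ × ℂ => Polynomial.aeval w.1 (q i)) (evr g x', evr g x₂) :=
      ContinuousAt.comp (f := Prod.fst) (g := fun s : ℂ => Polynomial.aeval s (q i))
        (h18_analytic (q i) _).continuousAt continuousAt_fst
    have c2 : ContinuousAt (fun w : ℂ × ℂ => Polynomial.aeval w.2 (q i)) (evr g x', evr g x₂) :=
      ContinuousAt.comp (f := Prod.snd) (g := fun s : ℂ => Polynomial.aeval s (q i))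
        (h18_analytic (q i) _).continuousAt continuousAt_snd
    have c3 : ContinuousAt (fun w : ℂ × ℂ => β i w.1) (evr g x', evr g x₂) :=
      ContinuousAt.comp (f := Prod.fst) (g := β i)
        (hβan i _ (hq1 i)).continuousAt continuousAt_fst
    have c4 : ContinuousAt (fun w : ℂ × ℂ => β i w.2) (evr g x', evr g x₂) :=
      ContinuousAt.comp (f := Prod.snd) (g := β i)
        (hβan i _ (hq2 i)).continuousAt continuousAt_snd
    refine (c1.eventually_ne (hq1 i)).and ((c2.eventually_ne (hq2 i)).and ?_)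
    have c5 : ContinuousAt (fun w : ℂ × ℂ => β i w.1 - β i w.2) (evr g x', evr g x₂) := c3.sub c4
    filter_upwards [c5.eventually_ne (sub_ne_zero.mpr (hβne i))] with w hw h
    exact hw (sub_eq_zero.mpr h)
  obtain ⟨ε₁, hε₁, hball₁⟩ := Metric.eventually_nhds_iff_ball.mp hsep
  -- surjectivity of g near x'
  have hsurj : ∀ᶠ w in 𝓝 (evr g x'), ∃ y, y ∈ V ∧ y ∉ E ∧ evr g y = w := by
    have h1 : evr g '' {y | y ∈ V ∧ y ∉ E} ∈ 𝓝 (evr g x') := by
      rw [← hgmap]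
      exact image_mem_map ((show ∀ᶠ y in 𝓝 x', y ∈ V from hVo.mem_nhds hx'.1.1).and hEnear)
    filter_upwards [h1] with w hw
    obtain ⟨y, hy, hy'⟩ := hw
    exact ⟨y, hy.1, hy.2, hy'⟩
  have hΓc : ContinuousAt (fun r : ℝ => Γ r) r₁ :=
    (hΓd.continuous.comp Complex.continuous_ofReal).continuousAt
  have hclose : ∀ᶠ r : ℝ in 𝓝 r₁, (∀ i, (β i (Γ r)).im = 0) ∧
      (∃ y, y ∈ V ∧ y ∉ E ∧ evr g y = Γ r) ∧ dist (Γ r) (evr g x') < ε₁ := by
    refine (eventually_all.mpr hfreq).and (Filter.Eventually.and ?_ ?_)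
    · have : ∀ᶠ w in 𝓝 (Γ r₁), ∃ y, y ∈ V ∧ y ∉ E ∧ evr g y = w := by rw [hr₁]; exact hsurj
      exact hΓc.eventually this
    · have : ∀ᶠ w in 𝓝 (Γ r₁), dist w (evr g x') < ε₁ := by
        rw [hr₁]; exact Metric.ball_mem_nhds _ hε₁
      exact hΓc.eventually this
  obtain ⟨ε₂, hε₂, hball₂⟩ := Metric.eventually_nhds_iff_ball.mp hclose
  obtain ⟨D, hD, α, hα, b, hb, r, hr, hΓr, hnear⟩ := hpts r₁ r₂ (min ε₁ ε₂) (lt_min hε₁ hε₂)
  obtain ⟨hre, ⟨y, hyV, hyE, hgy⟩, hdist⟩ := hball₂ r (by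
    rw [Metric.mem_ball, Real.dist_eq]; exact lt_of_lt_of_le hr (min_le_right _ _))
  have hQP : h18_QP d D (Γ r) (α - b * Real.sqrt D) := ⟨α, hα, b, hb, hΓr.symm, rfl⟩
  have hpair := hball₁ (Γ r, α - b * Real.sqrt D) (by
    rw [Metric.mem_ball, Prod.dist_eq, max_lt_iff]
    refine ⟨hdist, ?_⟩
    show dist (α - b * Real.sqrt D) (evr g x₂) < ε₁
    rw [dist_eq_norm, ← hr₂]
    exact lt_of_lt_of_le hnear (min_le_left _ _))
  refine ⟨y, (hV y hyV).1, D, hD, fun i => ?_⟩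
  obtain ⟨hqa, hqb, hne⟩ := hpair i
  have hQ : h18_QP d D (β i (Γ r)) (β i (α - b * Real.sqrt D)) := by
    rw [hβ]
    beta_reduce
    rw [div_eq_mul_inv, div_eq_mul_inv]
    exact h18_QP_mul (h18_QP_aeval hQP (p i)) (h18_QP_inv (h18_QP_aeval hQP (q i)) hqa hqb)
  obtain ⟨u, v, hv, huv⟩ := h18_QP_real hd hD hQ (hre i) hne
  refine ⟨u, v, hv, ?_⟩
  rw [← huv, hval y hyE i, hgy]

end Pool.Agent.MSD
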