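import Pool.Agent.Lib.MP_f58a57_nt.H00_Defs

/-! # H20: automorphs of real quadratic irrationals (MP_f58a57_nt) -/

open Complex ModularForm EisensteinSeries Filter
open UpperHalfPlane hiding I
open scoped Topology MatrixGroups Polynomial

noncomputable section

namespace Pool.Agent.MSD

/-- powers of a solution of Pell's equation -/
theorem h20_pow {D : ℕ} {u w : ℤ} {N : ℤ} (h : u ^ 2 - D * w ^ 2 = 1) (hN : N ∣ w) (k : ℕ) :
    ∃ uk wk : ℤ, ((u : ℝ) + w * Real.sqrt D) ^ k = uk + wk * Real.sqrt D ∧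
      uk ^ 2 - D * wk ^ 2 = 1 ∧ N ∣ wk := by
  have hs : Real.sqrt D ^ 2 = (D : ℝ) := Real.sq_sqrt (Nat.cast_nonneg _)
  induction k with
  | zero => exact ⟨1, 0, by simp, by simp, dvd_zero _⟩
  | succ k ih =>
    obtain ⟨uk, wk, h1, h2, h3⟩ := ih
    refine ⟨u * uk + D * w * wk, u * wk + w * uk, ?_, ?_, ?_⟩
    · rw [pow_succ, h1]
      push_cast
      linear_combination ((wk : ℝ) * w) * hs
    · linear_combination (uk ^ 2 - D * wk ^ 2) * h + h2
    · exact dvd_add (h3.mul_left _) (hN.mul_right _)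

/-- a solution of Pell's equation with `w` divisible by `N` -/
theorem h20_pell (D : ℕ) (hD : ¬ IsSquare D) {N : ℤ} (hN : N ≠ 0) :
    ∃ u w : ℤ, u ^ 2 - D * w ^ 2 = 1 ∧ N ∣ w ∧ 1 ≤ u ∧ 0 < w := by
  have hD0 : 0 < D := by
    rcases Nat.eq_zero_or_pos D with h | h
    · exact absurd (h ▸ IsSquare.zero) hD
    · exact h
  have hd : 0 < (D : ℤ) * N ^ 2 := by positivity
  have hsq : ¬ IsSquare ((D : ℤ) * N ^ 2) := by
    rintro ⟨z, hz⟩
    have h1 : N ^ 2 ∣ z ^ 2 := ⟨D, by rw [pow_two z, ← hz]; ring⟩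
    rw [Int.pow_dvd_pow_iff two_ne_zero] at h1
    obtain ⟨c, rfl⟩ := h1
    have h2 : (D : ℤ) = c * c := by
      have h3 : N ^ 2 * (D : ℤ) = N ^ 2 * (c * c) := by linarith
      exact mul_left_cancel₀ (pow_ne_zero 2 hN) h3
    apply hD
    refine ⟨c.natAbs, ?_⟩
    have h4 : ((c.natAbs * c.natAbs : ℕ) : ℤ) = c * c := by
      rw [Int.natAbs_mul_self]
    exact_mod_cast h2.trans h4.symm
  obtain ⟨x, y, hxy, hy⟩ := Pell.exists_of_not_isSquare hd hsq
  refine ⟨|x|, |N * y|, ?_, ?_, ?_, ?_⟩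
  · rw [sq_abs, sq_abs, ← hxy]
    ring
  · rw [dvd_abs]
    exact dvd_mul_right _ _
  · have : x ≠ 0 := by
      rintro rfl
      have h1 : 0 ≤ (D : ℤ) * N ^ 2 * y ^ 2 := by positivity
      linarith
    exact Int.one_le_abs this
  · exact abs_pos.2 (mul_ne_zero hN hy)

/-- H20. Common unit for finitely many elements of `ℚ(√D)`. PROOF. Write `a i = p/q`, `b i = r/q` with integers `q, r ≠ 0` (`q, r, p` depend on `i`), `N = Π_i (q_i r_i)`. Pell's equation
`x² - (D N²) y² = 1` has a solution with `x > 1`, `y > 0` (`Pell.exists_of_not_isSquare` or `Pell.IsFundamental`; `D N²` is not a square, `N ≠ 0`). Put `u = x`, `w = N y`, `Λ = u + w √D > 1`. `Λ^k = u_k + w_k √D`, `N ∣ w_k`,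
`u_k² - D w_k² = 1`, `(Λ^k)⁻¹ = u_k - w_k √D`. Take `C = w_k q/r`, `E = u_k - w_k p/r`, `A = u_k + w_k p/r`, `B = - w_k (p² - r² D)/(q r)`: integers, `A E - B C = 1`, and
`C ρ + E = Λ^k`, `A ρ + B = Λ^k ρ` for `ρ = (p + r√D)/q`, and the conjugate relations. -/
theorem automorph {S : Type} [Finite S] (D : ℕ) (hD : ¬ IsSquare D) (a b : S → ℚ) (hb : ∀ i, b i ≠ 0) :
    ∃ Λ : ℝ, 1 < Λ ∧ ∀ (k : ℕ) (i : S), ∃ A B C E : ℤ, A * E - B * C = 1 ∧
      (C : ℝ) * (a i + b i * Real.sqrt D) + E = Λ ^ k ∧ (C : ℝ) * (a i - b i * Real.sqrt D) + E = (Λ ^ k)⁻¹ ∧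
      (A : ℝ) * (a i + b i * Real.sqrt D) + B = Λ ^ k * (a i + b i * Real.sqrt D) ∧
      (A : ℝ) * (a i - b i * Real.sqrt D) + B = (Λ ^ k)⁻¹ * (a i - b i * Real.sqrt D) := by
  classical
  have := Fintype.ofFinite S
  have hs : Real.sqrt D ^ 2 = (D : ℝ) := Real.sq_sqrt (Nat.cast_nonneg _)
  let q : S → ℤ := fun i => (a i).den * (b i).den
  let p : S → ℤ := fun i => (a i).num * (b i).den
  let r : S → ℤ := fun i => (b i).num * (a i).den
  have hq0 : ∀ i, q i ≠ 0 := fun i => by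
    have h1 := (a i).den_ne_zero
    have h2 := (b i).den_ne_zero
    exact mul_ne_zero (by exact_mod_cast h1) (by exact_mod_cast h2)
  have hr0 : ∀ i, r i ≠ 0 := fun i =>
    mul_ne_zero (Rat.num_ne_zero.2 (hb i)) (by exact_mod_cast (a i).den_ne_zero)
  have hqa : ∀ i, (q i : ℝ) * (a i : ℝ) = p i := by
    intro i
    have h1 : ((a i).den : ℚ) * a i = (a i).num := by
      rw [mul_comm]
      exact Rat.mul_den_eq_num _
    have h2 : (((a i).den : ℚ) : ℝ) * (a i : ℝ) = (((a i).num : ℚ) : ℝ) := by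
      rw [← Rat.cast_mul, h1]
    simp only [q, p]
    push_cast at h2 ⊢
    linear_combination ((b i).den : ℝ) * h2
  have hqb : ∀ i, (q i : ℝ) * (b i : ℝ) = r i := by
    intro i
    have h1 : ((b i).den : ℚ) * b i = (b i).num := by
      rw [mul_comm]
      exact Rat.mul_den_eq_num _
    have h2 : (((b i).den : ℚ) : ℝ) * (b i : ℝ) = (((b i).num : ℚ) : ℝ) := by
      rw [← Rat.cast_mul, h1]
    simp only [q, r]
    push_cast at h2 ⊢
    linear_combination ((a i).den : ℝ) * h2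
  obtain ⟨u, w, huw, hNw, hu, hw⟩ := h20_pell D hD (N := ∏ i, (q i * r i))
    (Finset.prod_ne_zero_iff.2 fun i _ => mul_ne_zero (hq0 i) (hr0 i))
  have hD0 : 0 < D := by
    rcases Nat.eq_zero_or_pos D with h | h
    · exact absurd (h ▸ IsSquare.zero) hD
    · exact h
  have hsp : 0 < Real.sqrt D := Real.sqrt_pos.2 (by exact_mod_cast hD0)
  refine ⟨(u : ℝ) + w * Real.sqrt D, ?_, ?_⟩
  · have h1 : (1 : ℝ) ≤ u := by exact_mod_cast hu
    have h2 : (0 : ℝ) < w := by exact_mod_cast hw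
    have h3 : 0 < (w : ℝ) * Real.sqrt D := mul_pos h2 hsp
    linarith
  · intro k i
    obtain ⟨uk, wk, h1, h2, h3⟩ := h20_pow huw hNw k
    have h4 : q i * r i ∣ wk :=
      (Finset.dvd_prod_of_mem (fun i => q i * r i) (Finset.mem_univ i)).trans h3
    obtain ⟨t, ht⟩ := h4
    have hinv : (((u : ℝ) + w * Real.sqrt D) ^ k)⁻¹ = uk - wk * Real.sqrt D := by
      rw [h1]
      refine inv_eq_of_mul_eq_one_right ?_
      have h5 : (uk : ℝ) ^ 2 - D * (wk : ℝ) ^ 2 = 1 := by exact_mod_cast h2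
      linear_combination h5 - (wk : ℝ) ^ 2 * hs
    have hwk : (wk : ℝ) = q i * r i * t := by
      rw [ht]
      push_cast
      ring
    have ha := hqa i
    have hb' := hqb i
    refine ⟨uk + q i * p i * t, -t * ((p i) ^ 2 - (r i) ^ 2 * D), (q i) ^ 2 * t,
      uk - q i * p i * t, ?_, ?_, ?_, ?_, ?_⟩
    · have h5 : uk ^ 2 - D * wk ^ 2 = 1 := h2
      rw [ht] at h5
      linear_combination h5
    · rw [h1, hwk]
      push_cast
      linear_combination ((q i : ℝ) * t) * ha + ((q i : ℝ) * t * Real.sqrt D) * hb'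
    · rw [hinv, hwk]
      push_cast
      linear_combination ((q i : ℝ) * t) * ha - ((q i : ℝ) * t * Real.sqrt D) * hb'
    · rw [h1, hwk]
      push_cast
      linear_combination ((p i : ℝ) * t - r i * t * Real.sqrt D) * ha +
        ((p i : ℝ) * t * Real.sqrt D - r i * t * D) * hb' - ((r i : ℝ) * t * q i * b i) * hs
    · rw [hinv, hwk]
      push_cast
      linear_combination ((p i : ℝ) * t + r i * t * Real.sqrt D) * ha +
        (-(p i : ℝ) * t * Real.sqrt D - r i * t * D) * hb' - ((r i : ℝ) * t * q i * b i) * hs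

end Pool.Agent.MSD
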