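import Pool.Agent.Lib.MP_f58a57_nt.H00_Defs
import Pool.Agent.Lib.MP_f58a57_nt.A2_Transform

/-! # H21: the transformation near a hyperbolic fixed point (MP_f58a57_nt) -/

open Complex ModularForm EisensteinSeries Filter
open UpperHalfPlane hiding I
open scoped Topology MatrixGroups Polynomial

noncomputable section

namespace Pool.Agent.MSD

/-- H21a. The point with coordinate `V`. `Im (hv ρ ρ' V) = (ρ - ρ') Im V / |1 - V|²`; the coordinate of `hv ρ ρ' V` is `V`. -/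
theorem hv_im (ρ ρ' : ℝ) (V : ℂ) (hV : V ≠ 1) : (hv ρ ρ' V).im = (ρ - ρ') * V.im / ‖1 - V‖ ^ 2 := by
  have h1 : (1 : ℂ) - V ≠ 0 := sub_ne_zero.mpr (Ne.symm hV)
  have h2 : Complex.normSq (1 - V) ≠ 0 := by
    rw [Ne, Complex.normSq_eq_zero]; exact h1
  have h3 : ‖1 - V‖ ^ 2 = Complex.normSq (1 - V) := (Complex.normSq_eq_norm_sq _).symm
  rw [h3, hv, Complex.div_im]
  simp only [Complex.sub_im, Complex.sub_re, Complex.mul_im, Complex.mul_re, Complex.ofReal_re, Complex.ofReal_im,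
    Complex.one_re, Complex.one_im]
  field_simp
  ring

theorem hv_coord (ρ ρ' : ℝ) (hne : ρ ≠ ρ') (V : ℂ) (hV : V ≠ 1) : hv ρ ρ' V ≠ ρ' ∧ (hv ρ ρ' V - ρ) / (hv ρ ρ' V - ρ') = V := by
  have h1 : (1 : ℂ) - V ≠ 0 := sub_ne_zero.mpr (Ne.symm hV)
  have h2 : (ρ : ℂ) - ρ' ≠ 0 := by
    rw [sub_ne_zero]; exact_mod_cast hne
  have h3 : hv ρ ρ' V - ρ' = (ρ - ρ') / (1 - V) := by
    rw [hv]; field_simp; ring
  have h4 : hv ρ ρ' V - ρ = (ρ - ρ') / (1 - V) * V := by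
    rw [hv]; field_simp; ring
  have h5 : ((ρ : ℂ) - ρ') / (1 - V) ≠ 0 := div_ne_zero h2 h1
  refine ⟨?_, ?_⟩
  · rw [← sub_ne_zero, h3]; exact h5
  · rw [h3, h4]; field_simp

/-- H21b. PROOF. Put `v = hv ρ ρ' V`, `γ = (A B; C E)`. By the relations `γ v` has the coordinate `((Λρ)-...)`: precisely `A v + B - ρ (C v + E) = μ⁻¹ (v - ρ)` and
`A v + B - ρ' (C v + E) = μ (v - ρ')` (both sides are affine in `v`; compare at `v = ρ, ρ'`), so the coordinate of `γ v` is `μ⁻² V = δ V`; hence `γ v = w`.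
`C v + E = μ (1 - δ V)/(1 - V)` (affine in `v`, values `μ, μ⁻¹` at `ρ, ρ'`) and `C = (μ - μ⁻¹)/(ρ - ρ') = μ (1 - δ)/(ρ - ρ')`. Insert in `e2_transform, e4_transform, e6_transform`. -/
theorem hyp_transform (ρ ρ' μ : ℝ) (hne : ρ ≠ ρ') (hμ : μ ≠ 0) (A B C E : ℤ) (hdet : A * E - B * C = 1)
    (h1 : (C : ℝ) * ρ + E = μ) (h2 : (C : ℝ) * ρ' + E = μ⁻¹) (h3 : (A : ℝ) * ρ + B = μ * ρ) (h4 : (A : ℝ) * ρ' + B = μ⁻¹ * ρ')
    (V w : ℂ) (hV : V ≠ 1) (hv0 : 0 < (hv ρ ρ' V).im) (hw : 0 < w.im) (hc : (w - ρ) / (w - ρ') = ((μ ^ 2)⁻¹ : ℝ) * V) (κ : Fin 3) :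
    EE κ w = hE ρ ρ' κ V ((μ ^ 2)⁻¹ : ℝ) := by
  have h1V : (1 : ℂ) - V ≠ 0 := sub_ne_zero.mpr (Ne.symm hV)
  have hρ : (ρ : ℂ) - ρ' ≠ 0 := by
    rw [sub_ne_zero]; exact_mod_cast hne
  have hμ' : (μ : ℂ) ≠ 0 := by exact_mod_cast hμ
  have hpi : (Real.pi : ℂ) ≠ 0 := by exact_mod_cast Real.pi_ne_zero
  have g1 : (C : ℂ) * ρ + E = μ := by exact_mod_cast congrArg (fun t : ℝ => (t : ℂ)) h1
  have g2 : (C : ℂ) * ρ' + E = (μ : ℂ)⁻¹ := by
    have := congrArg (fun t : ℝ => (t : ℂ)) h2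
    push_cast at this
    exact this
  have g3 : (A : ℂ) * ρ + B = μ * ρ := by exact_mod_cast congrArg (fun t : ℝ => (t : ℂ)) h3
  have g4 : (A : ℂ) * ρ' + B = (μ : ℂ)⁻¹ * ρ' := by
    have := congrArg (fun t : ℝ => (t : ℂ)) h4
    push_cast at this
    exact this
  have hδ : (((μ ^ 2)⁻¹ : ℝ) : ℂ) = ((μ : ℂ) ^ 2)⁻¹ := by push_cast; ring
  rw [hδ] at hc ⊢
  set v : ℂ := hv ρ ρ' V with hv_def
  have hv1 : v * (1 - V) = ρ - ρ' * V := by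
    rw [hv_def, hv]; field_simp
  have k1 : ((C : ℂ) * v + E) * (1 - V) = μ - (μ : ℂ)⁻¹ * V := by
    linear_combination (C : ℂ) * hv1 + g1 - V * g2
  have k2 : ((A : ℂ) * v + B) * (1 - V) = μ * ρ - (μ : ℂ)⁻¹ * ρ' * V := by
    linear_combination (A : ℂ) * hv1 + g3 - V * g4
  have k1' : (C : ℂ) * v + E = μ * ((1 - ((μ : ℂ) ^ 2)⁻¹ * V) / (1 - V)) := by
    rw [eq_div_iff_mul_eq h1V |>.mpr k1]; field_simp
  have k2' : (A : ℂ) * v + B = μ * ((ρ - ((μ : ℂ) ^ 2)⁻¹ * V * ρ') / (1 - V)) := by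
    rw [eq_div_iff_mul_eq h1V |>.mpr k2]; field_simp
  have hwρ' : w - ρ' ≠ 0 := by
    intro h
    have := congrArg Complex.im h
    simp at this
    rw [this] at hw
    exact lt_irrefl _ hw
  have hc' : w - ρ = ((μ : ℂ) ^ 2)⁻¹ * V * (w - ρ') := by
    rw [← hc]; field_simp
  have hw1 : w * (1 - ((μ : ℂ) ^ 2)⁻¹ * V) = ρ - ((μ : ℂ) ^ 2)⁻¹ * V * ρ' := by
    linear_combination hc'
  have hne1 : 1 - ((μ : ℂ) ^ 2)⁻¹ * V ≠ 0 := by
    intro h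
    rw [h, mul_zero] at hw1
    have h5 : ((μ : ℂ) ^ 2)⁻¹ * V = 1 := by linear_combination -h
    rw [h5, one_mul] at hw1
    exact hρ hw1.symm
  have hγ : ((A : ℂ) * v + B) / (C * v + E) = w := by
    rw [k1', k2', mul_div_mul_left _ _ hμ', div_div_div_cancel_right₀ h1V, div_eq_iff hne1, hw1]
  have hC : (C : ℂ) = μ * (1 - ((μ : ℂ) ^ 2)⁻¹) / (ρ - ρ') := by
    rw [eq_div_iff hρ]
    have : (C : ℂ) * (ρ - ρ') = μ - (μ : ℂ)⁻¹ := by linear_combination g1 - g2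
    rw [this]; field_simp
  have e2' := e2_transform A B C E hdet v hv0
  have e4' := e4_transform A B C E hdet v hv0
  have e6' := e6_transform A B C E hdet v hv0
  rw [hγ, k1'] at e2' e4' e6'
  fin_cases κ
  · show e2 w = _
    rw [e2', hC]
    simp only [hE, ha, hb, Matrix.cons_val_zero, Fin.zero_eta, Fin.isValue, ← hv_def, inv_inv]
    field_simp
    ring
  · show e4 w = _
    rw [e4']
    simp only [hE, ha, Matrix.cons_val_one, Matrix.cons_val_zero, Fin.mk_one, Fin.isValue, ← hv_def, inv_inv]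
    ring
  · show e6 w = _
    rw [e6']
    simp only [hE, ha, ← hv_def, inv_inv]
    show _ = ((μ : ℂ) ^ 2) ^ 3 * _ * e6 v
    ring

end Pool.Agent.MSD
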