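import Pool.Agent.Lib.MP_f58a57_nt.H00_Defs

/-! # H22: local coordinates at the common fixed point (MP_f58a57_nt) -/

open Complex ModularForm EisensteinSeries Filter
open UpperHalfPlane hiding I
open scoped Topology MatrixGroups Polynomial

noncomputable section

namespace Pool.Agent.MSD

/-- local inverse of an analytic function -/
lemma h22_inv {F : ℂ → ℂ} {x₁ : ℂ} (hF : AnalyticAt ℂ F x₁) (h0 : F x₁ = 0) (hd : deriv F x₁ ≠ 0) :
    ∃ ξ : ℂ → ℂ, AnalyticAt ℂ ξ 0 ∧ ξ 0 = x₁ ∧ deriv ξ 0 ≠ 0 ∧ (∀ᶠ W in 𝓝 (0 : ℂ), F (ξ W) = W) ∧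
      ∀ᶠ x in 𝓝 x₁, ξ (F x) = x := by
  refine ⟨hF.hasStrictDerivAt.localInverse _ _ _ hd, ?_, ?_, ?_, ?_, ?_⟩
  · have := hF.analyticAt_localInverse hd
    rwa [h0] at this
  · have : hF.hasStrictDerivAt.localInverse _ _ _ hd (F x₁) = x₁ :=
      HasStrictFDerivAt.localInverse_apply_image ..
    rwa [h0] at this
  · have h2 := (HasStrictDerivAt.to_localInverse hF.hasStrictDerivAt hd).hasDerivAt
    rw [h0] at h2
    rw [h2.deriv]
    exact inv_ne_zero hd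
  · have := HasStrictDerivAt.eventually_right_inverse (hf := hF.hasStrictDerivAt) (hf' := hd)
    rwa [h0] at this
  · exact HasStrictDerivAt.eventually_left_inverse (hf := hF.hasStrictDerivAt) (hf' := hd)

lemma h22_im (ε ρ ρ' : ℝ) {v : ℂ} (hv : v ≠ ρ') :
    ((ε : ℂ) * ((v - ρ) / (v - ρ'))).im = ε * (ρ - ρ') * v.im / Complex.normSq (v - ρ') := by
  have h1 : v - (ρ' : ℂ) ≠ 0 := sub_ne_zero.2 hv
  have h2 : Complex.normSq (v - ρ') ≠ 0 := by
    rwa [Ne, Complex.normSq_eq_zero]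
  rw [Complex.im_ofReal_mul, Complex.div_im]
  simp only [Complex.sub_re, Complex.sub_im, Complex.ofReal_re, Complex.ofReal_im, sub_zero]
  field_simp
  ring

/-- `dslope` of an analytic function -/
lemma h22_dslope {f : ℂ → ℂ} (hf : AnalyticAt ℂ f 0) : AnalyticAt ℂ (dslope f 0) 0 := by
  obtain ⟨p, hp⟩ := hf
  exact hp.has_fpower_series_dslope_fslope.analyticAt

/-- H22. PROOF. Let `ε i` be the sign of `ρ i - ρ' i` and `W_i(x) = ε i (R i x - ρ i)/(R i x - ρ' i)`, analytic near `x₁`, `W_i(x₁) = 0`, `deriv W_i x₁ ≠ 0`. Fix `i₀`; let `ξ` be the local inverse of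
`W_{i₀}` (inverse function theorem; analytic, on a small disc `|W| < r`). For real `v` near `ρ i` the coordinate is real and conversely; `Im W_i > 0` iff `Im R i > 0` (`hv_im`-type formula:
`Im ((v - ρ)/(v - ρ')) = (ρ - ρ') Im v/|v - ρ'|²`). `f_i(W) = W_i(ξ W)` is analytic with a simple zero at `0`: `f_i(W) = W Ψ_i(W)`, `Ψ_i` analytic and nonvanishing (shrink `r`) (`dslope`). By `harc` `f_i` is real on reals,
so `Ψ_i` is real on reals (at `0` by continuity); `Ψ_i(0) > 0` because by `hside` `Im f_i(W) > 0` for `Im W > 0` (`W = i y`, `y → 0`: `Re Ψ_i(i y) > 0`). -/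
theorem hyp_coords {S : Type} [Finite S] [Nonempty S] (R : S → ℂ → ℂ) (x₁ : ℂ) (hR : ∀ i, AnalyticAt ℂ (R i) x₁)
    (hder : ∀ i, deriv (R i) x₁ ≠ 0) (ρ ρ' : S → ℝ) (hne : ∀ i, ρ i ≠ ρ' i) (hval : ∀ i, R i x₁ = ρ i)
    (harc : ∀ i j, SameArc (R i) (R j) x₁) (hside : ∀ i j, ∀ᶠ x in 𝓝 x₁, 0 < (R i x).im → 0 < (R j x).im) :
    ∃ (r : ℝ) (ξ : ℂ → ℂ) (Ψ : S → ℂ → ℂ) (ε : S → ℝ), 0 < r ∧ (∀ i, (ε i = 1 ∨ ε i = -1) ∧ 0 < ε i * (ρ i - ρ' i)) ∧
      AnalyticOnNhd ℂ ξ (Metric.ball 0 r) ∧ ξ 0 = x₁ ∧ (∀ᶠ x in 𝓝 x₁, ∃ W ∈ Metric.ball (0 : ℂ) r, ξ W = x) ∧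
      (∀ U ∈ 𝓝 (0 : ℂ), ∀ᶠ x in 𝓝 x₁, ∃ W ∈ U, ξ W = x) ∧
      (∀ i, AnalyticOnNhd ℂ (Ψ i) (Metric.ball 0 r)) ∧ (∀ i, ∀ W ∈ Metric.ball (0 : ℂ) r, Ψ i W ≠ 0) ∧
      (∀ i, ∀ u : ℝ, |u| < r → (Ψ i u).im = 0) ∧ (∀ i, 0 < (Ψ i 0).re) ∧
      (∀ i, ∀ W ∈ Metric.ball (0 : ℂ) r, R i (ξ W) ≠ ρ' i ∧ (R i (ξ W) - ρ i) / (R i (ξ W) - ρ' i) = ε i * W * Ψ i W) ∧
      (∀ i, ∀ W ∈ Metric.ball (0 : ℂ) r, 0 < W.im → 0 < (R i (ξ W)).im) := by
  classical
  obtain ⟨i₀⟩ := ‹Nonempty S›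
  -- signs
  set ε : S → ℝ := fun i => if 0 < ρ i - ρ' i then 1 else -1 with hε
  have hε1 : ∀ i, ε i = 1 ∨ ε i = -1 := by
    intro i
    simp only [hε]
    split_ifs <;> simp
  have hε2 : ∀ i, 0 < ε i * (ρ i - ρ' i) := by
    intro i
    simp only [hε]
    split_ifs with h
    · simpa using h
    · have : ρ i - ρ' i ≠ 0 := sub_ne_zero.2 (hne i)
      have h2 : ρ i - ρ' i < 0 := lt_of_le_of_ne (not_lt.1 h) this
      linarith
  have hε0 : ∀ i, (ε i : ℂ) ≠ 0 := by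
    intro i
    rcases hε1 i with h | h <;> simp [h]
  have hεsq : ∀ i, (ε i : ℂ) * ε i = 1 := by
    intro i
    rcases hε1 i with h | h <;> simp [h]
  -- the coordinate functions
  set F : S → ℂ → ℂ := fun i x => (ε i : ℂ) * ((R i x - ρ i) / (R i x - ρ' i)) with hF
  have hden : ∀ i, R i x₁ - ρ' i ≠ 0 := by
    intro i
    rw [hval i, sub_ne_zero]
    exact_mod_cast hne i
  have hFa : ∀ i, AnalyticAt ℂ (F i) x₁ := by
    intro i
    exact analyticAt_const.mul (((hR i).sub analyticAt_const).div ((hR i).sub analyticAt_const)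
      (hden i))
  have hF0 : ∀ i, F i x₁ = 0 := by
    intro i
    simp [hF, hval i]
  have hFd : ∀ i, HasDerivAt (F i) ((ε i : ℂ) * (deriv (R i) x₁ / (ρ i - ρ' i))) x₁ := by
    intro i
    have h1 := (hR i).differentiableAt.hasDerivAt
    have h2 := ((h1.sub_const (ρ i : ℂ)).div (h1.sub_const (ρ' i : ℂ)) (hden i)).const_mul (ε i : ℂ)
    refine HasDerivAt.congr_deriv h2 ?_
    rw [hval i]
    have h3 : (ρ i : ℂ) - ρ' i ≠ 0 := by
      rw [sub_ne_zero]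
      exact_mod_cast hne i
    field_simp
    ring
  have hFd0 : ∀ i, (ε i : ℂ) * (deriv (R i) x₁ / (ρ i - ρ' i)) ≠ 0 := by
    intro i
    have h3 : (ρ i : ℂ) - ρ' i ≠ 0 := by
      rw [sub_ne_zero]
      exact_mod_cast hne i
    exact mul_ne_zero (hε0 i) (div_ne_zero (hder i) h3)
  obtain ⟨ξ, hξa, hξ0, hξd, hξr, hξl⟩ := h22_inv (hFa i₀) (hF0 i₀)
    (by rw [(hFd i₀).deriv]; exact hFd0 i₀)
  have hξc : Tendsto ξ (𝓝 0) (𝓝 x₁) := by
    have := hξa.continuousAt.tendsto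
    rwa [hξ0] at this
  have hFc : Tendsto (F i₀) (𝓝 x₁) (𝓝 0) := by
    have := (hFa i₀).continuousAt.tendsto
    rwa [hF0] at this
  -- the functions `f i`
  set f : S → ℂ → ℂ := fun i W => F i (ξ W) with hf
  have hfa : ∀ i, AnalyticAt ℂ (f i) 0 := by
    intro i
    have h1 := hFa i
    rw [← hξ0] at h1
    exact h1.comp hξa
  have hf0 : ∀ i, f i 0 = 0 := by
    intro i
    simp only [hf]
    rw [hξ0, hF0]
  have hfd : ∀ i, deriv (f i) 0 ≠ 0 := by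
    intro i
    have h1 := hFd i
    rw [← hξ0] at h1
    have h2 := h1.comp (0 : ℂ) hξa.differentiableAt.hasDerivAt
    have h3 : deriv (f i) 0 = _ := h2.deriv
    rw [h3]
    refine mul_ne_zero ?_ hξd
    rw [hξ0]
    exact hFd0 i
  set Ψ : S → ℂ → ℂ := fun i => dslope (f i) 0 with hΨ
  have hΨa : ∀ i, AnalyticAt ℂ (Ψ i) 0 := fun i => h22_dslope (hfa i)
  have hΨ0 : ∀ i, Ψ i 0 ≠ 0 := by
    intro i
    simp only [hΨ, dslope_same]
    exact hfd i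
  have hfΨ : ∀ i W, f i W = W * Ψ i W := by
    intro i W
    have := sub_smul_dslope (f i) 0 W
    rw [hf0, sub_zero, sub_zero, smul_eq_mul] at this
    exact this.symm
  -- eventual facts
  have e1 : ∀ᶠ W in 𝓝 (0 : ℂ), AnalyticAt ℂ ξ W := hξa.eventually_analyticAt
  have e2' : ∀ᶠ W in 𝓝 (0 : ℂ), ∀ i, AnalyticAt ℂ (Ψ i) W :=
    eventually_all.2 fun i => (hΨa i).eventually_analyticAt
  have e3 : ∀ᶠ W in 𝓝 (0 : ℂ), ∀ i, Ψ i W ≠ 0 :=
    eventually_all.2 fun i => (hΨa i).continuousAt.eventually_ne (hΨ0 i)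
  have e4' : ∀ᶠ W in 𝓝 (0 : ℂ), ∀ i, R i (ξ W) ≠ ρ' i := by
    refine eventually_all.2 fun i => ?_
    have h1 : Tendsto (fun W => R i (ξ W)) (𝓝 0) (𝓝 (R i x₁)) :=
      (hR i).continuousAt.tendsto.comp hξc
    refine h1.eventually_ne ?_
    exact sub_ne_zero.1 (hden i)
  have e5 : ∀ᶠ W in 𝓝 (0 : ℂ), ∀ i, (R i₀ (ξ W)).im = 0 → (R i (ξ W)).im = 0 :=
    eventually_all.2 fun i => hξc.eventually (harc i₀ i)
  have e6' : ∀ᶠ W in 𝓝 (0 : ℂ), ∀ i, 0 < (R i₀ (ξ W)).im → 0 < (R i (ξ W)).im :=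
    eventually_all.2 fun i => hξc.eventually (hside i₀ i)
  obtain ⟨r, hr, hball⟩ := Metric.eventually_nhds_iff_ball.1
    ((((((e1.and e2').and e3).and e4').and e5).and e6').and hξr)
  have himF : ∀ i, ∀ W ∈ Metric.ball (0 : ℂ) r, (f i W).im =
      ε i * (ρ i - ρ' i) * (R i (ξ W)).im / Complex.normSq (R i (ξ W) - ρ' i) := by
    intro i W hW
    exact h22_im _ _ _ ((hball W hW).1.1.1.2 i)
  have hns : ∀ i, ∀ W ∈ Metric.ball (0 : ℂ) r, 0 < Complex.normSq (R i (ξ W) - ρ' i) := by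
    intro i W hW
    rw [Complex.normSq_pos, sub_ne_zero]
    exact (hball W hW).1.1.1.2 i
  have hR0im : ∀ W ∈ Metric.ball (0 : ℂ) r, W.im = 0 → (R i₀ (ξ W)).im = 0 := by
    intro W hW h
    have h1 := himF i₀ W hW
    have h2 : f i₀ W = W := (hball W hW).2
    rw [h2, h] at h1
    have h3 := hns i₀ W hW
    have h4 := hε2 i₀
    rcases (div_eq_zero_iff.1 h1.symm) with h5 | h5
    · rcases mul_eq_zero.1 h5 with h6 | h6
      · exact absurd h6 h4.ne'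
      · exact h6
    · exact absurd h5 h3.ne'
  have hR0pos : ∀ W ∈ Metric.ball (0 : ℂ) r, 0 < W.im → 0 < (R i₀ (ξ W)).im := by
    intro W hW h
    have h1 := himF i₀ W hW
    have h2 : f i₀ W = W := (hball W hW).2
    rw [h2] at h1
    rw [h1] at h
    have h3 := hns i₀ W hW
    have h4 := hε2 i₀
    have h5 := (div_pos_iff_of_pos_right h3).1 h
    exact (mul_pos_iff_of_pos_left h4).1 h5
  have hRpos : ∀ i, ∀ W ∈ Metric.ball (0 : ℂ) r, 0 < W.im → 0 < (R i (ξ W)).im :=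
    fun i W hW h => (hball W hW).1.2 i (hR0pos W hW h)
  have hfpos : ∀ i, ∀ W ∈ Metric.ball (0 : ℂ) r, 0 < W.im → 0 < (f i W).im := by
    intro i W hW h
    rw [himF i W hW]
    exact div_pos (mul_pos (hε2 i) (hRpos i W hW h)) (hns i W hW)
  have hfreal : ∀ i, ∀ W ∈ Metric.ball (0 : ℂ) r, W.im = 0 → (f i W).im = 0 := by
    intro i W hW h
    rw [himF i W hW, (hball W hW).1.1.2 i (hR0im W hW h), mul_zero, zero_div]
  -- `Ψ` is real on the reals, off zero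
  have hΨreal' : ∀ i, ∀ u : ℝ, |u| < r → u ≠ 0 → (Ψ i u).im = 0 := by
    intro i u hu hu0
    have hmem : (u : ℂ) ∈ Metric.ball (0 : ℂ) r := by
      simpa using hu
    have h1 := hfreal i u hmem (Complex.ofReal_im u)
    rw [hfΨ, Complex.im_ofReal_mul] at h1
    exact (mul_eq_zero.1 h1).resolve_left hu0
  have hlim : ∀ i, Tendsto (fun u : ℝ => (Ψ i u).im) (𝓝[≠] 0) (𝓝 (Ψ i 0).im) := by
    intro i
    have h1 : Tendsto (fun u : ℝ => Ψ i (u : ℂ)) (𝓝 0) (𝓝 (Ψ i 0)) := by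
      have h2 : Tendsto (fun u : ℝ => (u : ℂ)) (𝓝 0) (𝓝 0) := by
        have := Complex.continuous_ofReal.tendsto (0 : ℝ)
        simpa using this
      exact (hΨa i).continuousAt.tendsto.comp h2
    exact (Complex.continuous_im.tendsto _).comp (h1.mono_left nhdsWithin_le_nhds)
  have hΨ0im : ∀ i, (Ψ i 0).im = 0 := by
    intro i
    refine tendsto_nhds_unique (hlim i) (tendsto_const_nhds.congr' ?_)
    have h1 : ∀ᶠ u : ℝ in 𝓝[≠] 0, |u| < r := by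
      refine nhdsWithin_le_nhds ?_
      have := Metric.ball_mem_nhds (0 : ℝ) hr
      filter_upwards [this] with u hu
      simpa using hu
    filter_upwards [h1, self_mem_nhdsWithin] with u hu hu0
    exact (hΨreal' i u hu hu0).symm
  have hΨ0re : ∀ i, 0 < (Ψ i 0).re := by
    intro i
    have h1 : 0 ≤ (Ψ i 0).re := by
      have h2 : Tendsto (fun y : ℝ => (Ψ i ((y : ℂ) * I)).re) (𝓝[>] 0) (𝓝 (Ψ i 0).re) := by
        have h3 : Tendsto (fun y : ℝ => (y : ℂ) * I) (𝓝[>] 0) (𝓝 0) := by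
          have h4 : Continuous (fun y : ℝ => (y : ℂ) * I) := by fun_prop
          have := h4.tendsto (0 : ℝ)
          simp only [Complex.ofReal_zero, zero_mul] at this
          exact this.mono_left nhdsWithin_le_nhds
        exact (Complex.continuous_re.tendsto _).comp ((hΨa i).continuousAt.tendsto.comp h3)
      refine ge_of_tendsto h2 ?_
      have h5 : ∀ᶠ y : ℝ in 𝓝[>] 0, y < r := by
        refine nhdsWithin_le_nhds ?_
        exact eventually_lt_nhds hr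
      filter_upwards [h5, self_mem_nhdsWithin] with y hy hy0
      have hy0' : 0 < y := hy0
      have hmem : (y : ℂ) * I ∈ Metric.ball (0 : ℂ) r := by
        simp [abs_of_pos hy0', hy]
      have h6 := hfpos i _ hmem (by simpa using hy0')
      rw [hfΨ, mul_assoc, Complex.im_ofReal_mul] at h6
      have h7 : 0 < (I * Ψ i ((y : ℂ) * I)).im := (mul_pos_iff_of_pos_left hy0').1 h6
      rw [Complex.I_mul_im] at h7
      exact h7.le
    refine lt_of_le_of_ne h1 fun h => hΨ0 i ?_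
    exact Complex.ext h.symm (hΨ0im i)
  have hnear : ∀ U ∈ 𝓝 (0 : ℂ), ∀ᶠ x in 𝓝 x₁, ∃ W ∈ U, ξ W = x := by
    intro U hU
    filter_upwards [hξl, hFc.eventually hU] with x h1 h2
    exact ⟨F i₀ x, h2, h1⟩
  refine ⟨r, ξ, Ψ, ε, hr, fun i => ⟨hε1 i, hε2 i⟩, fun W hW => (hball W hW).1.1.1.1.1.1, hξ0,
    hnear _ (Metric.ball_mem_nhds _ hr), hnear, fun i W hW => (hball W hW).1.1.1.1.1.2 i,
    fun i W hW => (hball W hW).1.1.1.1.2 i, ?_, hΨ0re, ?_, hRpos⟩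
  · intro i u hu
    by_cases hu0 : u = 0
    · rw [hu0, Complex.ofReal_zero]
      exact hΨ0im i
    · exact hΨreal' i u hu hu0
  · intro i W hW
    refine ⟨(hball W hW).1.1.1.2 i, ?_⟩
    have h1 := hfΨ i W
    have h2 : f i W = (ε i : ℂ) * ((R i (ξ W) - ρ i) / (R i (ξ W) - ρ' i)) := rfl
    rw [mul_assoc, ← h1, h2, ← mul_assoc, hεsq, one_mul]

end Pool.Agent.MSD
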