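import Pool.Agent.Lib.MP_f58a57_nt.H20_Automorph
import Pool.Agent.Lib.MP_f58a57_nt.H21_HypTransform
import Pool.Agent.Lib.MP_f58a57_nt.H22_Coords
import Pool.Agent.Lib.MP_f58a57_nt.H23a_Geom
import Pool.Agent.Lib.MP_f58a57_nt.A1_Basic

/-! # H23: the two-variable identity (MP_f58a57_nt) -/

open Complex ModularForm EisensteinSeries Filter
open UpperHalfPlane hiding I
open scoped Topology MatrixGroups Polynomial

noncomputable section

namespace Pool.Agent.MSD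

/-- the value of `hE` without the powers of `δ⁻¹` -/
def h23_g (ρ ρ' : ℝ) (κ : Fin 3) (V δ : ℂ) : ℂ :=
  ![ha V δ * e2 (hv ρ ρ' V) + hb ρ ρ' V δ, ha V δ ^ 2 * e4 (hv ρ ρ' V),
    ha V δ ^ 3 * e6 (hv ρ ρ' V)] κ

theorem h23_hE (ρ ρ' : ℝ) (κ : Fin 3) (V δ : ℂ) :
    hE ρ ρ' κ V δ = δ⁻¹ ^ ((κ : ℕ) + 1) * h23_g ρ ρ' κ V δ := by
  unfold hE h23_g
  fin_cases κ
  · simp
  · simp [mul_assoc]
  · simp [mul_assoc]

theorem h23_analytic_upper {f : ℂ → ℂ} (hf : DifferentiableOn ℂ f {z | 0 < z.im}) {z : ℂ}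
    (hz : 0 < z.im) : AnalyticAt ℂ f z :=
  hf.analyticAt ((isOpen_lt continuous_const Complex.continuous_im).mem_nhds hz)

theorem h23_comp {g f : ℂ → ℂ} {x y : ℂ} (hg : AnalyticAt ℂ g y) (hf : AnalyticAt ℂ f x)
    (hy : f x = y) : AnalyticAt ℂ (fun z => g (f z)) x := by
  subst hy
  exact hg.comp hf

/-- `h23_g` is analytic along an analytic function `U` -/
theorem h23_g_analytic (ρ ρ' : ℝ) (hne : ρ ≠ ρ') (κ : Fin 3) (U : ℂ → ℂ) (δ : ℂ)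
    (hU : AnalyticAt ℂ U δ) (hU1 : U δ ≠ 1) (him : 0 < (hv ρ ρ' (U δ)).im) :
    AnalyticAt ℂ (fun δ => h23_g ρ ρ' κ (U δ) δ) δ := by
  have h1 : (1 : ℂ) - U δ ≠ 0 := sub_ne_zero.mpr (Ne.symm hU1)
  have hden : AnalyticAt ℂ (fun δ => 1 - U δ) δ := analyticAt_const.sub hU
  have hid : AnalyticAt ℂ (fun δ : ℂ => δ) δ := analyticAt_id
  have hnum : AnalyticAt ℂ (fun δ => 1 - δ * U δ) δ := analyticAt_const.sub (hid.mul hU)
  have hha : AnalyticAt ℂ (fun δ => ha (U δ) δ) δ := (hnum.div hden h1).pow 2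
  have hhv : AnalyticAt ℂ (fun δ => hv ρ ρ' (U δ)) δ :=
    (analyticAt_const.sub (analyticAt_const.mul hU)).div hden h1
  have hne' : (ρ : ℂ) - ρ' ≠ 0 := by
    intro h
    apply hne
    have : (ρ : ℂ) = ρ' := sub_eq_zero.mp h
    exact_mod_cast this
  have hhb : AnalyticAt ℂ (fun δ => hb ρ ρ' (U δ) δ) δ := by
    unfold hb
    refine AnalyticAt.div ?_ (analyticAt_const.mul hden) (mul_ne_zero hne' h1)
    exact (analyticAt_const.mul (analyticAt_const.sub hid)).mul hnum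
  have he2 : AnalyticAt ℂ (fun δ => e2 (hv ρ ρ' (U δ))) δ :=
    h23_comp (h23_analytic_upper e2_diff him) hhv rfl
  have he4 : AnalyticAt ℂ (fun δ => e4 (hv ρ ρ' (U δ))) δ :=
    h23_comp (h23_analytic_upper e4_diff him) hhv rfl
  have he6 : AnalyticAt ℂ (fun δ => e6 (hv ρ ρ' (U δ))) δ :=
    h23_comp (h23_analytic_upper e6_diff him) hhv rfl
  unfold h23_g
  fin_cases κ
  · exact (hha.mul he2).add hhb
  · exact (hha.pow 2).mul he4
  · exact (hha.pow 3).mul he6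

theorem h23_pev {σ : Type} (P : MvPolynomial σ (ℂ → ℂ)) (x : ℂ) (y : σ → ℂ) :
    pev P x y = ∑ m ∈ P.support, (P.coeff m) x * ∏ i ∈ m.support, y i ^ m i := by
  unfold pev
  rw [MvPolynomial.eval_map, MvPolynomial.eval₂_eq]
  rfl

/-- clearing the powers of `δ⁻¹` -/
theorem h23_clear {S : Type} (P : MvPolynomial (S × Fin 3) (ℂ → ℂ)) : ∃ N : ℕ,
    ∀ (δ : ℂ), δ ≠ 0 → ∀ (x : ℂ) (y : S × Fin 3 → ℂ),
      δ ^ N * pev P x (fun p => δ⁻¹ ^ ((p.2 : ℕ) + 1) * y p) =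
        ∑ m ∈ P.support, (P.coeff m) x *
          (δ ^ (N - ∑ i ∈ m.support, ((i.2 : ℕ) + 1) * m i) * ∏ i ∈ m.support, y i ^ m i) := by
  refine ⟨P.support.sup fun m => ∑ i ∈ m.support, ((i.2 : ℕ) + 1) * m i, fun δ hδ x y => ?_⟩
  rw [h23_pev, Finset.mul_sum]
  refine Finset.sum_congr rfl fun m hm => ?_
  have hle : (∑ i ∈ m.support, ((i.2 : ℕ) + 1) * m i) ≤
      P.support.sup fun m => ∑ i ∈ m.support, ((i.2 : ℕ) + 1) * m i :=
    Finset.le_sup (f := fun m : (S × Fin 3) →₀ ℕ => ∑ i ∈ m.support, ((i.2 : ℕ) + 1) * m i) hm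
  set D := ∑ i ∈ m.support, ((i.2 : ℕ) + 1) * m i with hD
  set N := P.support.sup fun m => ∑ i ∈ m.support, ((i.2 : ℕ) + 1) * m i with hN
  have h1 : ∏ i ∈ m.support, (δ⁻¹ ^ ((i.2 : ℕ) + 1) * y i) ^ m i =
      δ⁻¹ ^ D * ∏ i ∈ m.support, y i ^ m i := by
    rw [hD, ← Finset.prod_pow_eq_pow_sum, ← Finset.prod_mul_distrib]
    refine Finset.prod_congr rfl fun i _ => ?_
    rw [mul_pow, ← pow_mul]
  rw [h1]
  have h2 : δ ^ N * δ⁻¹ ^ D = δ ^ (N - D) := by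
    rw [inv_pow, ← div_eq_mul_inv, pow_sub₀ δ hδ hle, div_eq_mul_inv]
  calc δ ^ N * (P.coeff m x * (δ⁻¹ ^ D * ∏ i ∈ m.support, y i ^ m i))
      = P.coeff m x * ((δ ^ N * δ⁻¹ ^ D) * ∏ i ∈ m.support, y i ^ m i) := by ring
    _ = _ := by rw [h2]

/-- H23b. The identity. PROOF. Fix `V` in the disc `|V - iet| < et/2`. For `δ = δ_k = (Λ^k)⁻²`, `k` large, `W = δ V` has `Im W > 0` and is small, so the relation `hP` holds at `x = ξ(δ V)`; the coordinate of `R i x` is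
`δ · (ε i V Ψ_i(δ V))`, so `EE κ (R i x) = hE (ρ i) (ρ' i) κ (ε i V Ψ_i(δV)) δ` by `hyp_transform` (`hv` of the coordinate is in the upper half plane by `hv_im` and `ε i (ρ i - ρ' i) > 0`, and `|V Ψ| < 1/2` gives `≠ 1`).
So the function `F_V(δ) = pev P (ξ (δ V)) (hE ... )` vanishes at `δ_k → 0`. `F_V` is analytic on the punctured disc `0 < |δ| < r₀` (there `hv` stays in the upper half plane) and meromorphic at `0` (`P` has finitely many monomials,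
the coefficients are analytic at `x₁`; `δ⁻¹` to a bounded power). Hence it vanishes near `0` (`MeromorphicAt.eventually_eq_zero_or_eventually_ne_zero`) and on the connected punctured disc. The coefficients must be analytic
at all points `ξ(W)`, `|W| < 2 et r₀`: this is the hypothesis `hPan`. -/
theorem two_var {S : Type} [Finite S] (R : S → ℂ → ℂ) (x₁ : ℂ) (ρ ρ' : S → ℝ) (hne : ∀ i, ρ i ≠ ρ' i) (Λ : ℝ) (hΛ : 1 < Λ)
    (haut : ∀ (k : ℕ) (i : S), ∃ A B C E : ℤ, A * E - B * C = 1 ∧ (C : ℝ) * ρ i + E = Λ ^ k ∧ (C : ℝ) * ρ' i + E = (Λ ^ k)⁻¹ ∧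
      (A : ℝ) * ρ i + B = Λ ^ k * ρ i ∧ (A : ℝ) * ρ' i + B = (Λ ^ k)⁻¹ * ρ' i)
    (r : ℝ) (hr : 0 < r) (ξ : ℂ → ℂ) (Ψ : S → ℂ → ℂ) (ε : S → ℝ) (hε : ∀ i, (ε i = 1 ∨ ε i = -1) ∧ 0 < ε i * (ρ i - ρ' i))
    (hξ : AnalyticOnNhd ℂ ξ (Metric.ball 0 r)) (hξ0 : ξ 0 = x₁) (hΨ : ∀ i, AnalyticOnNhd ℂ (Ψ i) (Metric.ball 0 r))
    (hcoord : ∀ i, ∀ W ∈ Metric.ball (0 : ℂ) r, R i (ξ W) ≠ ρ' i ∧ (R i (ξ W) - ρ i) / (R i (ξ W) - ρ' i) = ε i * W * Ψ i W)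
    (hside : ∀ i, ∀ W ∈ Metric.ball (0 : ℂ) r, 0 < W.im → 0 < (R i (ξ W)).im)
    (et r₀ : ℝ) (het : 0 < et) (hr₀ : 0 < r₀) (hr₀1 : r₀ < 1) (hetr : 2 * et * r₀ < r)
    (hgeom : ∀ δ : ℂ, ‖δ‖ < r₀ → ∀ V : ℂ, ‖V‖ < 2 * et → ∀ i, ‖V * Ψ i (δ * V)‖ < 1 / 2)
    (hup : ∀ δ : ℂ, ‖δ‖ < r₀ → ∀ V ∈ Metric.ball (I * et) (et / 2), ∀ i, 0 < (V * Ψ i (δ * V)).im)
    (P : MvPolynomial (S × Fin 3) (ℂ → ℂ)) (hPan : ∀ m, ∀ W ∈ Metric.ball (0 : ℂ) (2 * et * r₀), AnalyticAt ℂ (P.coeff m) (ξ W))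
    (hP : ∀ᶠ x in 𝓝 x₁, (∀ i, 0 < (R i x).im) → pev P x (fun p => EE p.2 (R p.1 x)) = 0) :
    ∀ δ : ℂ, δ ≠ 0 → ‖δ‖ < r₀ → ∀ V ∈ Metric.ball (I * et) (et / 2),
      pev P (ξ (δ * V)) (fun p => hE (ρ p.1) (ρ' p.1) p.2 (ε p.1 * V * Ψ p.1 (δ * V)) δ) = 0 := by
  intro δ₀ hδ₀ hδ₀r V hV
  -- size of `V`
  have hVn : ‖V‖ < 2 * et := by
    have h1 : ‖V - I * et‖ < et / 2 := by rwa [← dist_eq_norm]
    have h2 : ‖(I * et : ℂ)‖ = et := by
      rw [norm_mul, Complex.norm_I, one_mul, Complex.norm_real, Real.norm_of_nonneg het.le]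
    have h3 : ‖V‖ ≤ ‖V - I * et‖ + ‖(I * et : ℂ)‖ := by
      have := norm_add_le (V - I * et) (I * et)
      simpa using this
    linarith
  have hVim : 0 < V.im := by
    have h1 : ‖V - I * et‖ < et / 2 := by rwa [← dist_eq_norm]
    have h2 : |(V - I * et).im| ≤ ‖V - I * et‖ := Complex.abs_im_le_norm _
    have h3 : (V - I * et).im = V.im - et := by simp
    rw [h3] at h2
    have := (abs_lt.mp (lt_of_le_of_lt h2 h1)).1
    linarith
  have hV0 : V ≠ 0 := by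
    rintro rfl
    simp at hVim
  -- `δ V` is in the balls
  have hball : ∀ δ : ℂ, ‖δ‖ < r₀ → δ * V ∈ Metric.ball (0 : ℂ) (2 * et * r₀) := by
    intro δ hδ
    rw [mem_ball_zero_iff, norm_mul]
    have h1 : ‖δ‖ * ‖V‖ < r₀ * (2 * et) :=
      mul_lt_mul'' hδ hVn (norm_nonneg _) (norm_nonneg _)
    linarith
  have hball' : ∀ δ : ℂ, ‖δ‖ < r₀ → δ * V ∈ Metric.ball (0 : ℂ) r := fun δ hδ =>
    Metric.ball_subset_ball hetr.le (hball δ hδ)
  -- the functions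
  set U : S → ℂ → ℂ := fun i δ => ε i * V * Ψ i (δ * V) with hU
  have hlin : ∀ δ : ℂ, AnalyticAt ℂ (fun δ : ℂ => δ * V) δ := fun δ => analyticAt_id.mul analyticAt_const
  have hUan : ∀ i, ∀ δ : ℂ, ‖δ‖ < r₀ → AnalyticAt ℂ (U i) δ := by
    intro i δ hδ
    exact analyticAt_const.mul (h23_comp (hΨ i _ (hball' δ hδ)) (hlin δ) rfl)
  have hεn : ∀ i, ‖(ε i : ℂ)‖ = 1 := by
    intro i
    rcases (hε i).1 with h | h <;> rw [h] <;> simp
  have hUn : ∀ i, ∀ δ : ℂ, ‖δ‖ < r₀ → ‖U i δ‖ < 1 / 2 := by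
    intro i δ hδ
    have h1 := hgeom δ hδ V hVn i
    simp only [hU]
    rw [mul_assoc, norm_mul, hεn, one_mul]
    exact h1
  have hU1 : ∀ i, ∀ δ : ℂ, ‖δ‖ < r₀ → U i δ ≠ 1 := by
    intro i δ hδ h
    have := hUn i δ hδ
    rw [h, norm_one] at this
    norm_num at this
  have hUim : ∀ i, ∀ δ : ℂ, ‖δ‖ < r₀ → 0 < (hv (ρ i) (ρ' i) (U i δ)).im := by
    intro i δ hδ
    rw [hv_im _ _ _ (hU1 i δ hδ)]
    have h1 := hup δ hδ V hV i
    have h2 : (U i δ).im = ε i * (V * Ψ i (δ * V)).im := by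
      simp only [hU]
      rw [mul_assoc, Complex.im_ofReal_mul]
    have h3 : 0 < ‖1 - U i δ‖ ^ 2 := by
      have : (1 : ℂ) - U i δ ≠ 0 := sub_ne_zero.mpr (Ne.symm (hU1 i δ hδ))
      positivity
    rw [h2]
    apply div_pos _ h3
    have h4 := mul_pos (hε i).2 h1
    nlinarith
  -- the cleared function
  obtain ⟨N, hN⟩ := h23_clear P
  set F : ℂ → ℂ := fun δ => ∑ m ∈ P.support, (P.coeff m) (ξ (δ * V)) *
          (δ ^ (N - ∑ i ∈ m.support, ((i.2 : ℕ) + 1) * m i) *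
            ∏ i ∈ m.support, h23_g (ρ i.1) (ρ' i.1) i.2 (U i.1 δ) δ ^ m i) with hF
  have hFeq : ∀ δ : ℂ, δ ≠ 0 → F δ = δ ^ N *
      pev P (ξ (δ * V)) (fun p => hE (ρ p.1) (ρ' p.1) p.2 (U p.1 δ) δ) := by
    intro δ hδ
    have h1 := hN δ hδ (ξ (δ * V)) (fun p => h23_g (ρ p.1) (ρ' p.1) p.2 (U p.1 δ) δ)
    simp only [hF]
    rw [← h1]
    congr 2
    funext p
    rw [h23_hE]
  have hFan : AnalyticOnNhd ℂ F (Metric.ball 0 r₀) := by
    intro δ hδ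
    rw [mem_ball_zero_iff] at hδ
    simp only [hF]
    refine Finset.analyticAt_fun_sum _ fun m _ => ?_
    refine AnalyticAt.mul ?_ (AnalyticAt.mul ?_ ?_)
    · exact h23_comp (hPan m _ (hball δ hδ)) (h23_comp (hξ _ (hball' δ hδ)) (hlin δ) rfl) rfl
    · exact analyticAt_id.pow _
    · refine Finset.analyticAt_fun_prod _ fun i _ => ?_
      exact (h23_g_analytic _ _ (hne i.1) _ (U i.1) δ (hUan i.1 δ hδ) (hU1 i.1 δ hδ)
        (hUim i.1 δ hδ)).pow _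
  -- the sequence `δ_k`
  set dk : ℕ → ℂ := fun k => (((((Λ ^ k) ^ 2)⁻¹ : ℝ)) : ℂ) with hdk
  have hΛ0 : 0 < Λ := by linarith
  have hdk0 : Tendsto dk atTop (𝓝 0) := by
    have h1 : Tendsto (fun k : ℕ => (((Λ ^ k) ^ 2)⁻¹ : ℝ)) atTop (𝓝 0) := by
      have h2 : Tendsto (fun k : ℕ => ((Λ⁻¹ ^ 2) ^ k : ℝ)) atTop (𝓝 0) := by
        apply tendsto_pow_atTop_nhds_zero_of_lt_one (by positivity)
        have : Λ⁻¹ < 1 := inv_lt_one_of_one_lt₀ hΛ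
        have h3 : 0 < Λ⁻¹ := by positivity
        nlinarith
      refine h2.congr fun k => ?_
      rw [← pow_mul, ← pow_mul, inv_pow, mul_comm]
    have h3 : Tendsto (fun x : ℝ => (x : ℂ)) (𝓝 0) (𝓝 ((0 : ℝ) : ℂ)) :=
      Complex.continuous_ofReal.tendsto 0
    rw [Complex.ofReal_zero] at h3
    exact h3.comp h1
  have hdkne : ∀ k, dk k ≠ 0 := by
    intro k
    simp only [hdk]
    have : (((Λ ^ k) ^ 2)⁻¹ : ℝ) ≠ 0 := by positivity
    exact_mod_cast this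
  have hsmall : ∀ᶠ k in atTop, ‖dk k‖ < r₀ := by
    have := hdk0.norm
    rw [norm_zero] at this
    exact this.eventually (gt_mem_nhds hr₀)
  have hx₁ : Tendsto (fun k => ξ (dk k * V)) atTop (𝓝 x₁) := by
    have h1 : Tendsto (fun k => dk k * V) atTop (𝓝 0) := by
      have := hdk0.mul_const V
      rwa [zero_mul] at this
    have h2 : ContinuousAt ξ 0 := (hξ 0 (by simpa using hr)).continuousAt
    rw [← hξ0]
    exact h2.tendsto.comp h1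
  have hzero : ∀ᶠ k in atTop, F (dk k) = 0 := by
    filter_upwards [hsmall, hx₁.eventually hP] with k hk hPk
    rw [hFeq _ (hdkne k)]
    have hWim : 0 < (dk k * V).im := by
      simp only [hdk]
      rw [Complex.im_ofReal_mul]
      have : (0 : ℝ) < ((Λ ^ k) ^ 2)⁻¹ := by positivity
      positivity
    have hpos : ∀ i, 0 < (R i (ξ (dk k * V))).im := fun i =>
      hside i _ (hball' _ hk) hWim
    have h1 := hPk hpos
    have h2 : (fun p : S × Fin 3 => hE (ρ p.1) (ρ' p.1) p.2 (U p.1 (dk k)) (dk k)) =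
        fun p => EE p.2 (R p.1 (ξ (dk k * V))) := by
      funext p
      obtain ⟨A, B, C, E, ha1, ha2, ha3, ha4, ha5⟩ := haut k p.1
      have h3 := hyp_transform (ρ p.1) (ρ' p.1) (Λ ^ k) (hne p.1) (by positivity) A B C E ha1 ha2 ha3
        ha4 ha5 (U p.1 (dk k)) (R p.1 (ξ (dk k * V))) (hU1 p.1 _ hk) (hUim p.1 _ hk) (hpos p.1) (by
          rw [(hcoord p.1 _ (hball' _ hk)).2]
          simp only [hU, hdk]
          ring) p.2
      rw [h3]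
    rw [h2, h1, mul_zero]
  have hfreq : ∃ᶠ z in 𝓝[≠] (0 : ℂ), F z = 0 := by
    have h1 : Tendsto dk atTop (𝓝[≠] (0 : ℂ)) := by
      rw [tendsto_nhdsWithin_iff]
      exact ⟨hdk0, Eventually.of_forall hdkne⟩
    exact h1.frequently hzero.frequently
  have hall := hFan.eqOn_zero_of_preconnected_of_frequently_eq_zero
    (convex_ball (0 : ℂ) r₀).isPreconnected (by simpa using hr₀) hfreq
  have h1 := hall (mem_ball_zero_iff.mpr hδ₀r)
  rw [hFeq _ hδ₀, Pi.zero_apply] at h1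
  exact (mul_eq_zero.mp h1).resolve_left (pow_ne_zero _ hδ₀)

end Pool.Agent.MSD
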