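import Pool.Agent.Lib.MP_f58a57_nt.H00_Defs

/-! # H24: for a generic phase the arcs are different (MP_f58a57_nt) -/

open Complex ModularForm EisensteinSeries Filter
open UpperHalfPlane hiding I
open scoped Topology MatrixGroups Polynomial

noncomputable section

namespace Pool.Agent.MSD

/-- H24a. `exp(i)` has no real powers. (`sin k ≠ 0` for `k ≥ 1` because `π` is irrational.) -/
theorem phase_pow (k : ℕ) (hk : 1 ≤ k) : (Complex.exp I ^ k).im ≠ 0 := by
  rw [← Complex.exp_nat_mul]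
  have h1 : ((k : ℂ) * I) = ((k : ℝ) : ℂ) * I := by push_cast; ring
  rw [h1, Complex.exp_ofReal_mul_I_im]
  intro h0
  rw [Real.sin_eq_zero_iff] at h0
  obtain ⟨n, hn⟩ := h0
  have hn0 : (n : ℝ) ≠ 0 := by
    intro h
    rw [h, zero_mul] at hn
    have : (k : ℝ) ≠ 0 := by positivity
    exact this hn.symm
  have hpi : Real.pi = (((k : ℚ) / (n : ℚ) : ℚ) : ℝ) := by
    push_cast
    field_simp
    linarith
  exact irrational_pi ⟨_, hpi.symm⟩

/-- the derivative of a function real on the reals is real on the reals -/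
theorem h24_deriv_real (F : ℂ → ℂ) (s : ℝ) (hF : AnalyticOnNhd ℂ F (Metric.ball 0 s))
    (hre : ∀ u : ℝ, |u| < s → (F u).im = 0) : ∀ u : ℝ, |u| < s → (deriv F u).im = 0 := by
  intro u hu
  have hmem : (u : ℂ) ∈ Metric.ball (0 : ℂ) s := by simpa [Complex.norm_real] using hu
  have h1 : HasDerivAt F (deriv F u) (u : ℂ) := (hF _ hmem).differentiableAt.hasDerivAt
  have h2 : HasDerivAt (fun x : ℝ => F x) (deriv F u) u := h1.comp_ofReal
  have h3 : HasDerivAt (fun x : ℝ => (F x).im) (deriv F u).im u :=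
    (Complex.imCLM.hasFDerivAt.comp_hasDerivAt u h2)
  have h4 : (fun x : ℝ => (F x).im) =ᶠ[𝓝 u] fun _ => 0 := by
    have : ∀ᶠ x : ℝ in 𝓝 u, |x| < s := (continuous_abs.continuousAt.eventually (gt_mem_nhds hu))
    filter_upwards [this] with x hx using hre x hx
  have h5 : HasDerivAt (fun x : ℝ => (F x).im) 0 u := (hasDerivAt_const u (0 : ℝ)).congr_of_eventuallyEq h4
  exact h3.unique h5

/-- reflection: a function which is real on a piece of the real line is symmetric -/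
theorem h24_refl (F : ℂ → ℂ) (s : ℝ) (hF : AnalyticOnNhd ℂ F (Metric.ball 0 s)) (q : ℝ) (hq : |q| < s)
    (h : ∀ᶠ u : ℝ in 𝓝 q, (F u).im = 0) : ∀ u : ℝ, |u| < s → (F u).im = 0 := by
  set G : ℂ → ℂ := (starRingEnd ℂ) ∘ F ∘ (starRingEnd ℂ) with hG
  have hball : ∀ z : ℂ, z ∈ Metric.ball (0 : ℂ) s ↔ (starRingEnd ℂ) z ∈ Metric.ball (0 : ℂ) s := by
    intro z; simp
  have hGa : AnalyticOnNhd ℂ G (Metric.ball 0 s) := by
    apply DifferentiableOn.analyticOnNhd _ Metric.isOpen_ball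
    intro z hz
    apply DifferentiableAt.differentiableWithinAt
    rw [hG, differentiableAt_conj_conj_iff]
    exact (hF _ ((hball z).1 hz)).differentiableAt
  have hmem : (q : ℂ) ∈ Metric.ball (0 : ℂ) s := by simpa [Complex.norm_real] using hq
  have hfreq : ∃ᶠ z in 𝓝[≠] (q : ℂ), F z = G z := by
    have h1 : Tendsto (fun x : ℝ => (x : ℂ)) (𝓝[≠] q) (𝓝[≠] (q : ℂ)) := by
      apply tendsto_nhdsWithin_of_tendsto_nhds_of_eventually_within
      · exact (Complex.continuous_ofReal.tendsto q).mono_left nhdsWithin_le_nhds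
      · filter_upwards [self_mem_nhdsWithin] with x hx
        simpa using hx
    have h2 : ∀ᶠ x : ℝ in 𝓝[≠] q, F x = G x := by
      filter_upwards [nhdsWithin_le_nhds h] with x hx
      simp only [hG, Function.comp_apply, Complex.conj_ofReal]
      exact (Complex.conj_eq_iff_im.2 hx).symm
    exact h1.frequently h2.frequently
  have heq := hF.eqOn_of_preconnected_of_frequently_eq hGa (convex_ball 0 s).isPreconnected hmem hfreq
  intro u hu
  have hum : (u : ℂ) ∈ Metric.ball (0 : ℂ) s := by simpa [Complex.norm_real] using hu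
  have h3 := heq hum
  simp only [hG, Function.comp_apply, Complex.conj_ofReal] at h3
  exact Complex.conj_eq_iff_im.1 h3.symm

/-- functions with only a linear Taylor coefficient -/
theorem h24_linear (F : ℂ → ℂ) (s : ℝ) (hF : AnalyticOnNhd ℂ F (Metric.ball 0 s)) (h0 : F 0 = 0)
    (h : ∀ k, iteratedDeriv (k + 2) F 0 = 0) : ∀ z ∈ Metric.ball (0 : ℂ) s, F z = deriv F 0 * z := by
  intro z hz
  have h1 := Complex.hasSum_taylorSeries_on_ball (f := F) hF.differentiableOn hz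
  have h2 : HasSum (fun n : ℕ ↦ ((n.factorial : ℕ) : ℂ)⁻¹ • (z - 0) ^ n • iteratedDeriv n F 0)
      (((Nat.factorial 1 : ℕ) : ℂ)⁻¹ • (z - 0) ^ 1 • iteratedDeriv 1 F 0) := by
    apply hasSum_single 1
    intro n hn
    rcases n with _ | _ | n
    · simp [h0]
    · exact absurd rfl hn
    · simp [h n]
  have h3 := h1.unique h2
  rw [h3]
  simp [iteratedDeriv_one]
  ring

/-- H24b. PROOF. `f_i(W) = W Ψ_i(W)` is injective near `0` with an analytic inverse `Θ_i` (real on reals); let `Φ = f_j ∘ Θ_i`, analytic near `0`, real on reals, `Φ(0) = 0`: real Taylor coefficients `φ_k`. Choose `r₃` small. Let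
`δ = t exp(i)`, `V` as in the statement, `q = V Ψ_i(δV)` (real), so `f_i(δV) = δ q`. For real `q'` near `q` the point `V' = Θ_i(δ q')/δ` is near `V`, `V' Ψ_i(δV') = q'` is real, so by hypothesis `V' Ψ_j(δV') = Φ(δ q')/δ`
is real: `Φ(δ q')/δ = conj(...) = Φ(δ̄ q')/δ̄` for real `q'` near `q`; both sides are analytic in `q'` on a disc around `0` containing `q`, so they agree there: `φ_k δ^(k-1) = φ_k δ̄^(k-1)` for all `k`, and `φ_k = 0` for
`k ≥ 2` by H24a. So `Φ(W) = φ₁ W` near `0`, i.e. `f_j = φ₁ f_i` near `0`. -/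
theorem hyp_distinct (r : ℝ) (hr : 0 < r) (Ψ Ψ' : ℂ → ℂ) (hΨ : AnalyticOnNhd ℂ Ψ (Metric.ball 0 r)) (hΨ' : AnalyticOnNhd ℂ Ψ' (Metric.ball 0 r))
    (hre : ∀ u : ℝ, |u| < r → (Ψ u).im = 0) (hre' : ∀ u : ℝ, |u| < r → (Ψ' u).im = 0) (h0 : Ψ 0 ≠ 0) (h0' : Ψ' 0 ≠ 0) :
    ∃ r₃ > 0, ∀ t : ℝ, 0 < t → ∀ V : ℂ, t * ‖V‖ < r₃ → (V * Ψ (t * Complex.exp I * V)).im = 0 →
      SameArc (fun V => V * Ψ (t * Complex.exp I * V)) (fun V => V * Ψ' (t * Complex.exp I * V)) V →
      ∃ κ : ℂ, ∀ᶠ W in 𝓝 (0 : ℂ), W * Ψ' W = κ * (W * Ψ W) := by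
  classical
  set f : ℂ → ℂ := fun W => W * Ψ W with hf
  set g : ℂ → ℂ := fun W => W * Ψ' W with hg
  have h0mem : (0 : ℂ) ∈ Metric.ball (0 : ℂ) r := Metric.mem_ball_self hr
  have hfa : AnalyticOnNhd ℂ f (Metric.ball 0 r) := analyticOnNhd_id.mul hΨ
  have hga : AnalyticOnNhd ℂ g (Metric.ball 0 r) := analyticOnNhd_id.mul hΨ'
  have hf0 : f 0 = 0 := by simp [hf]
  have hg0 : g 0 = 0 := by simp [hg]
  have hfd : deriv f 0 ≠ 0 := by
    have h1 : HasDerivAt f (1 * Ψ 0 + 0 * deriv Ψ 0) 0 :=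
      (hasDerivAt_id (0 : ℂ)).mul (hΨ 0 h0mem).differentiableAt.hasDerivAt
    rw [h1.deriv]
    simpa using h0
  have hfre : ∀ u : ℝ, |u| < r → (f u).im = 0 := by
    intro u hu
    simp [hf, hre u hu]
  have hgre : ∀ u : ℝ, |u| < r → (g u).im = 0 := by
    intro u hu
    simp [hg, hre' u hu]
  -- the local inverse
  have hfa0 : AnalyticAt ℂ f 0 := hfa 0 h0mem
  set Θ : ℂ → ℂ := hfa0.hasStrictDerivAt.localInverse _ _ _ hfd with hΘ
  have hΘa : AnalyticAt ℂ Θ 0 := by
    have := hfa0.analyticAt_localInverse hfd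
    rwa [hf0] at this
  have hΘl : ∀ᶠ x in 𝓝 (0 : ℂ), Θ (f x) = x := HasStrictDerivAt.eventually_left_inverse ..
  have hΘr : ∀ᶠ x in 𝓝 (0 : ℂ), f (Θ x) = x := by
    have : ∀ᶠ x in 𝓝 (f 0), f (Θ x) = x := HasStrictDerivAt.eventually_right_inverse ..
    rwa [hf0] at this
  have hΘ0 : Θ 0 = 0 := by
    have := hΘl.self_of_nhds
    rwa [hf0] at this
  -- small radii
  obtain ⟨r₁, hr₁, hr₁l⟩ : ∃ r₁ > 0, ∀ x ∈ Metric.ball (0 : ℂ) r₁, Θ (f x) = x ∧ x ∈ Metric.ball (0 : ℂ) r := by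
    have h1 := hΘl.and (Metric.ball_mem_nhds (0 : ℂ) hr)
    rw [Metric.eventually_nhds_iff_ball] at h1
    exact h1
  obtain ⟨ρ, hρ, hρr⟩ : ∃ ρ > 0, ∀ x ∈ Metric.ball (0 : ℂ) ρ,
      f (Θ x) = x ∧ AnalyticAt ℂ Θ x ∧ Θ x ∈ Metric.ball (0 : ℂ) (min r r₁) := by
    have h1 : ∀ᶠ x in 𝓝 (0 : ℂ), Θ x ∈ Metric.ball (0 : ℂ) (min r r₁) := by
      apply hΘa.continuousAt.eventually_mem
      rw [hΘ0]
      exact Metric.ball_mem_nhds _ (lt_min hr hr₁)
    have h2 := hΘr.and (hΘa.eventually_analyticAt.and h1)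
    rw [Metric.eventually_nhds_iff_ball] at h2
    exact h2
  -- the conjugated function
  set Φ : ℂ → ℂ := fun x => g (Θ x) with hΦ
  have hΦa : AnalyticOnNhd ℂ Φ (Metric.ball 0 ρ) := by
    intro x hx
    obtain ⟨-, h2, h3⟩ := hρr x hx
    have h4 : AnalyticAt ℂ g (Θ x) := hga _ (Metric.ball_subset_ball (min_le_left _ _) h3)
    exact h4.comp h2
  have hΦ0 : Φ 0 = 0 := by simp only [hΦ, hΘ0, hg0]
  -- real on reals
  have hfsym : ∀ z ∈ Metric.ball (0 : ℂ) r, f ((starRingEnd ℂ) z) = (starRingEnd ℂ) (f z) := by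
    intro z hz
    set G : ℂ → ℂ := (starRingEnd ℂ) ∘ f ∘ (starRingEnd ℂ) with hG
    have hball : ∀ z : ℂ, z ∈ Metric.ball (0 : ℂ) r ↔ (starRingEnd ℂ) z ∈ Metric.ball (0 : ℂ) r := by
      intro z; simp
    have hGa : AnalyticOnNhd ℂ G (Metric.ball 0 r) := by
      apply DifferentiableOn.analyticOnNhd _ Metric.isOpen_ball
      intro z hz
      apply DifferentiableAt.differentiableWithinAt
      rw [hG, differentiableAt_conj_conj_iff]
      exact (hfa _ ((hball z).1 hz)).differentiableAt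
    have hfreq : ∃ᶠ z in 𝓝[≠] (0 : ℂ), f z = G z := by
      have h1 : Tendsto (fun x : ℝ => (x : ℂ)) (𝓝[≠] 0) (𝓝[≠] (0 : ℂ)) := by
        apply tendsto_nhdsWithin_of_tendsto_nhds_of_eventually_within
        · have := (Complex.continuous_ofReal.tendsto 0)
          rw [Complex.ofReal_zero] at this
          exact this.mono_left nhdsWithin_le_nhds
        · filter_upwards [self_mem_nhdsWithin] with x hx
          simpa using hx
      have h2 : ∀ᶠ x : ℝ in 𝓝[≠] 0, f x = G x := by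
        have h3 : ∀ᶠ x : ℝ in 𝓝 (0 : ℝ), |x| < r := by
          have : |(0 : ℝ)| < r := by simpa using hr
          exact (continuous_abs.continuousAt.eventually (gt_mem_nhds this))
        filter_upwards [nhdsWithin_le_nhds h3] with x hx
        simp only [hG, Function.comp_apply, Complex.conj_ofReal]
        exact (Complex.conj_eq_iff_im.2 (hfre x hx)).symm
      exact h1.frequently h2.frequently
    have heq := hfa.eqOn_of_preconnected_of_frequently_eq hGa (convex_ball 0 r).isPreconnected h0mem hfreq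
    have h3 := heq ((hball z).1 hz)
    simp only [hG, Function.comp_apply, Complex.conj_conj] at h3
    exact h3
  have hΦre : ∀ u : ℝ, |u| < ρ → (Φ u).im = 0 := by
    intro u hu
    have hum : (u : ℂ) ∈ Metric.ball (0 : ℂ) ρ := by simpa [Complex.norm_real] using hu
    obtain ⟨h1, -, h3⟩ := hρr u hum
    have h3r : Θ u ∈ Metric.ball (0 : ℂ) r := Metric.ball_subset_ball (min_le_left _ _) h3
    have h3r₁ : Θ u ∈ Metric.ball (0 : ℂ) r₁ := Metric.ball_subset_ball (min_le_right _ _) h3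
    have h4 : f ((starRingEnd ℂ) (Θ u)) = u := by
      rw [hfsym _ h3r, h1, Complex.conj_ofReal]
    have h5 : (starRingEnd ℂ) (Θ u) ∈ Metric.ball (0 : ℂ) r₁ := by simpa using h3r₁
    have h6 : (starRingEnd ℂ) (Θ u) = Θ u := by
      have := (hr₁l _ h5).1
      rw [h4] at this
      exact this.symm
    obtain ⟨v, hv⟩ := Complex.conj_eq_iff_real.1 h6
    have h7 : |v| < r := by
      rw [hv] at h3r
      simpa [Complex.norm_real] using h3r
    simp only [hΦ, hv]
    exact hgre v h7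
  -- the radius
  obtain ⟨r₃, hr₃, hr₃f⟩ : ∃ r₃ > 0, ∀ x ∈ Metric.ball (0 : ℂ) r₃, f x ∈ Metric.ball (0 : ℂ) ρ ∧ x ∈ Metric.ball (0 : ℂ) r₁ := by
    have h1 : ∀ᶠ x in 𝓝 (0 : ℂ), f x ∈ Metric.ball (0 : ℂ) ρ := by
      apply hfa0.continuousAt.eventually_mem
      rw [hf0]
      exact Metric.ball_mem_nhds _ hρ
    have h2 := h1.and (Metric.ball_mem_nhds (0 : ℂ) hr₁)
    rw [Metric.eventually_nhds_iff_ball] at h2
    exact h2
  refine ⟨r₃, hr₃, ?_⟩
  intro t ht V hV him harc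
  set δ : ℂ := t * Complex.exp I with hδ
  have hδ0 : δ ≠ 0 := mul_ne_zero (by exact_mod_cast ht.ne') (Complex.exp_ne_zero _)
  have hδn : ‖δ‖ = t := by
    rw [hδ, norm_mul]
    have : ‖Complex.exp I‖ = 1 := by
      have := Complex.norm_exp_ofReal_mul_I 1
      simpa using this
    rw [this, Complex.norm_real, Real.norm_of_nonneg ht.le, mul_one]
  have hδV : δ * V ∈ Metric.ball (0 : ℂ) r₃ := by
    rw [mem_ball_zero_iff, norm_mul, hδn]
    exact hV
  obtain ⟨hfρ, hVr₁⟩ := hr₃f _ hδV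
  obtain ⟨q, hq⟩ : ∃ q : ℝ, V * Ψ (δ * V) = q := ⟨(V * Ψ (δ * V)).re, by
    apply Complex.ext
    · simp
    · simpa using him⟩
  have hfq : f (δ * V) = δ * q := by
    simp only [hf]
    rw [← hq]; ring
  have hΘq : Θ (δ * q) = δ * V := by
    rw [← hfq]; exact (hr₁l _ hVr₁).1
  have hq1 : δ * (q : ℂ) ∈ Metric.ball (0 : ℂ) ρ := by rw [← hfq]; exact hfρ
  have hqρ : |q| < ρ / t := by
    rw [mem_ball_zero_iff, norm_mul, hδn, Complex.norm_real, Real.norm_eq_abs] at hq1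
    rw [lt_div_iff₀ ht]; linarith
  -- the function real on the reals
  set G : ℂ → ℂ := fun z => Φ (δ * z) / δ with hG
  have hscale : ∀ z ∈ Metric.ball (0 : ℂ) (ρ / t), δ * z ∈ Metric.ball (0 : ℂ) ρ := by
    intro z hz
    rw [mem_ball_zero_iff] at hz ⊢
    rw [norm_mul, hδn]
    rw [lt_div_iff₀ ht] at hz
    linarith
  have hlin : ∀ F : ℂ → ℂ, AnalyticOnNhd ℂ F (Metric.ball 0 ρ) →
      AnalyticOnNhd ℂ (fun z => F (δ * z)) (Metric.ball 0 (ρ / t)) := by
    intro F hF z hz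
    have h1 : AnalyticAt ℂ F (δ * z) := hF _ (hscale z hz)
    exact h1.comp (f := fun z => δ * z) (analyticAt_const.mul analyticAt_id)
  have hGa : AnalyticOnNhd ℂ G (Metric.ball 0 (ρ / t)) := by
    intro z hz
    exact (hlin Φ hΦa z hz).div analyticAt_const hδ0
  have hGq : ∀ᶠ u : ℝ in 𝓝 q, (G u).im = 0 := by
    -- the points of the arc
    have hcont : ContinuousAt (fun u : ℝ => Θ (δ * u) / δ) q := by
      have h1 : ContinuousAt Θ (δ * (q : ℂ)) := (hρr _ hq1).2.1.continuousAt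
      have h2 : ContinuousAt (fun u : ℝ => δ * (u : ℂ)) q := by fun_prop
      have h3 : ContinuousAt (fun u : ℝ => Θ (δ * (u : ℂ))) q := ContinuousAt.comp (f := fun u : ℝ => δ * (u : ℂ)) h1 h2
      exact h3.div_const δ
    have hV' : Θ (δ * (q : ℂ)) / δ = V := by rw [hΘq]; field_simp
    have harc' := hcont.tendsto
    rw [hV'] at harc'
    have h4 := harc'.eventually harc
    have h5 : ∀ᶠ u : ℝ in 𝓝 q, |u| < ρ / t := (continuous_abs.continuousAt.eventually (gt_mem_nhds hqρ))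
    filter_upwards [h4, h5] with u hu1 hu2
    have hum : δ * (u : ℂ) ∈ Metric.ball (0 : ℂ) ρ := by
      apply hscale
      simpa [Complex.norm_real] using hu2
    obtain ⟨h6, -, -⟩ := hρr _ hum
    have h7 : δ * (Θ (δ * (u : ℂ)) / δ) = Θ (δ * (u : ℂ)) := by field_simp
    have h8 : Θ (δ * (u : ℂ)) / δ * Ψ (δ * (Θ (δ * (u : ℂ)) / δ)) = u := by
      rw [h7]
      simp only [hf] at h6
      field_simp
      exact h6
    have h9 := hu1 (by rw [h8]; exact Complex.ofReal_im u)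
    rw [h7] at h9
    have h10 : G u = Θ (δ * (u : ℂ)) / δ * Ψ' (Θ (δ * (u : ℂ))) := by
      simp only [hG, hΦ, hg]
      ring
    rw [h10]; exact h9
  have hGre := h24_refl G (ρ / t) hGa q hqρ hGq
  -- derivatives
  have hρt : 0 < ρ / t := div_pos hρ ht
  have hΦk : ∀ k, AnalyticOnNhd ℂ (iteratedDeriv k Φ) (Metric.ball 0 ρ) ∧
      ∀ u : ℝ, |u| < ρ → (iteratedDeriv k Φ u).im = 0 := by
    intro k
    induction k with
    | zero => simpa using ⟨hΦa, hΦre⟩
    | succ k ih =>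
      rw [iteratedDeriv_succ]
      exact ⟨ih.1.deriv, h24_deriv_real _ _ ih.1 ih.2⟩
  have hGk : ∀ k, ∀ u : ℝ, |u| < ρ / t → (δ ^ k * iteratedDeriv (k + 1) Φ (δ * u)).im = 0 := by
    intro k
    induction k with
    | zero =>
      intro u hu
      have h1 := h24_deriv_real G (ρ / t) hGa hGre u hu
      have hum : (u : ℂ) ∈ Metric.ball (0 : ℂ) (ρ / t) := by simpa [Complex.norm_real] using hu
      have h2 : HasDerivAt G (deriv Φ (δ * u) * δ / δ) (u : ℂ) := by
        have h3 : HasDerivAt Φ (deriv Φ (δ * u)) (δ * (u : ℂ)) := (hΦa _ (hscale _ hum)).differentiableAt.hasDerivAt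
        have h4 : HasDerivAt (fun z : ℂ => δ * z) δ (u : ℂ) := by
          simpa using (hasDerivAt_id (u : ℂ)).const_mul δ
        exact (HasDerivAt.comp (u : ℂ) h3 h4).div_const δ
      rw [h2.deriv] at h1
      rw [zero_add, iteratedDeriv_one, pow_zero, one_mul]
      have h5 : deriv Φ (δ * u) * δ / δ = deriv Φ (δ * u) := by field_simp
      rwa [h5] at h1
    | succ k ih =>
      intro u hu
      have hA : AnalyticOnNhd ℂ (fun z => δ ^ k * iteratedDeriv (k + 1) Φ (δ * z)) (Metric.ball 0 (ρ / t)) := by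
        intro z hz
        exact analyticAt_const.mul (hlin _ (hΦk (k + 1)).1 z hz)
      have h1 := h24_deriv_real _ (ρ / t) hA ih u hu
      have hum : (u : ℂ) ∈ Metric.ball (0 : ℂ) (ρ / t) := by simpa [Complex.norm_real] using hu
      have h2 : HasDerivAt (fun z => δ ^ k * iteratedDeriv (k + 1) Φ (δ * z))
          (δ ^ k * (iteratedDeriv (k + 1 + 1) Φ (δ * u) * δ)) (u : ℂ) := by
        have h3 : HasDerivAt (iteratedDeriv (k + 1) Φ) (iteratedDeriv (k + 1 + 1) Φ (δ * u)) (δ * (u : ℂ)) := by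
          rw [iteratedDeriv_succ (n := k + 1)]
          exact ((hΦk (k + 1)).1 _ (hscale _ hum)).differentiableAt.hasDerivAt
        have h4 : HasDerivAt (fun z : ℂ => δ * z) δ (u : ℂ) := by
          simpa using (hasDerivAt_id (u : ℂ)).const_mul δ
        exact (HasDerivAt.comp (u : ℂ) h3 h4).const_mul (δ ^ k)
      rw [h2.deriv] at h1
      have h5 : δ ^ (k + 1) * iteratedDeriv (k + 1 + 1) Φ (δ * u) =
          δ ^ k * (iteratedDeriv (k + 1 + 1) Φ (δ * u) * δ) := by ring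
      rw [h5]; exact h1
  have hzero : ∀ k, iteratedDeriv (k + 2) Φ 0 = 0 := by
    intro k
    have h1 := hGk (k + 1) 0 (by simpa using hρt)
    have h2 := (hΦk (k + 2)).2 0 (by simpa using hρ)
    rw [Complex.ofReal_zero, mul_zero] at h1
    rw [Complex.ofReal_zero] at h2
    have h3 : iteratedDeriv (k + 1 + 1) Φ 0 = ((iteratedDeriv (k + 2) Φ 0).re : ℂ) := by
      apply Complex.ext
      · simp
      · simpa using h2
    rw [h3, hδ, mul_pow] at h1
    have h4 : (((t : ℂ) ^ (k + 1) * Complex.exp I ^ (k + 1) * ((iteratedDeriv (k + 2) Φ 0).re : ℂ))).im =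
        t ^ (k + 1) * (iteratedDeriv (k + 2) Φ 0).re * (Complex.exp I ^ (k + 1)).im := by
      have : ((t : ℂ) ^ (k + 1) * Complex.exp I ^ (k + 1) * ((iteratedDeriv (k + 2) Φ 0).re : ℂ)) =
          ((t ^ (k + 1) * (iteratedDeriv (k + 2) Φ 0).re : ℝ) : ℂ) * Complex.exp I ^ (k + 1) := by
        push_cast; ring
      rw [this, Complex.re_ofReal_mul |> fun _ => Complex.im_ofReal_mul _ _]
    rw [h4] at h1
    have h5 := phase_pow (k + 1) (by omega)
    have h6 : (iteratedDeriv (k + 2) Φ 0).re = 0 := by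
      have ht1 : t ^ (k + 1) ≠ 0 := (pow_pos ht _).ne'
      rcases mul_eq_zero.1 h1 with h | h
      · rcases mul_eq_zero.1 h with h | h
        · exact absurd h ht1
        · exact h
      · exact absurd h h5
    apply Complex.ext
    · simpa using h6
    · simpa using h2
  have hfin := h24_linear Φ ρ hΦa hΦ0 hzero
  refine ⟨deriv Φ 0, ?_⟩
  filter_upwards [Metric.ball_mem_nhds (0 : ℂ) hr₃] with W hW
  obtain ⟨h1, h2⟩ := hr₃f W hW
  have h3 := hfin _ h1
  simp only [hΦ] at h3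
  rw [(hr₁l W h2).1] at h3
  exact h3

end Pool.Agent.MSD
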