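import Pool.Agent.Lib.MP_f58a57_nt.H00_Defs

/-! # H30: arcs (MP_f58a57_nt) -/

open Complex ModularForm EisensteinSeries Filter
open UpperHalfPlane hiding I
open scoped Topology MatrixGroups Polynomial

noncomputable section

namespace Pool.Agent.MSD

/-- the local analytic inverse -/
theorem h30_inv {f : ℂ → ℂ} {x : ℂ} (hf : AnalyticAt ℂ f x) (hf' : deriv f x ≠ 0) :
    ∃ ψ : ℂ → ℂ, AnalyticAt ℂ ψ (f x) ∧ ψ (f x) = x ∧ (∀ᶠ y in 𝓝 x, ψ (f y) = y) ∧
      (∀ᶠ w in 𝓝 (f x), f (ψ w) = w) ∧ HasStrictDerivAt ψ (deriv f x)⁻¹ (f x) := by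
  have hL := hf.hasStrictDerivAt.eventually_left_inverse hf'
  exact ⟨_, hf.analyticAt_localInverse hf', hL.self_of_nhds, hL,
    hf.hasStrictDerivAt.eventually_right_inverse hf', hf.hasStrictDerivAt.to_localInverse hf'⟩

/-- the conjugate function -/
def h30_star (φ : ℂ → ℂ) (w : ℂ) : ℂ := (starRingEnd ℂ) (φ ((starRingEnd ℂ) w))

theorem h30_star_analytic {φ : ℂ → ℂ} {a : ℂ} (hφ : AnalyticAt ℂ φ a) (ha : a.im = 0) :
    AnalyticAt ℂ (h30_star φ) a := by
  have hca : (starRingEnd ℂ) a = a := Complex.conj_eq_iff_im.2 ha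
  rw [Complex.analyticAt_iff_eventually_differentiableAt] at hφ ⊢
  have hc : Tendsto (fun w : ℂ => (starRingEnd ℂ) w) (𝓝 a) (𝓝 a) := by
    have h := Complex.continuous_conj.tendsto a
    rwa [hca] at h
  filter_upwards [hc.eventually hφ] with w hw
  have h := hw.conj_conj
  rw [Complex.conj_conj] at h
  exact h

theorem h30_real {φ : ℂ → ℂ} {w : ℂ} (hw : w.im = 0) :
    φ w - h30_star φ w = 2 * ((φ w).im : ℂ) * I := by
  unfold h30_star
  rw [Complex.conj_eq_iff_im.2 hw]
  apply Complex.ext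
  · simp
  · simp
    ring

theorem h30_sub_eq_zero {φ : ℂ → ℂ} {w : ℂ} (hw : w.im = 0) :
    φ w - h30_star φ w = 0 ↔ (φ w).im = 0 := by
  rw [h30_real hw]
  constructor
  · intro h
    have h1 : (((φ w).im : ℝ) : ℂ) = 0 := by
      rcases mul_eq_zero.1 h with h2 | h2
      · rcases mul_eq_zero.1 h2 with h3 | h3
        · norm_num at h3
        · exact h3
      · exact absurd h2 Complex.I_ne_zero
    exact_mod_cast h1
  · intro h
    rw [h]
    simp

/-- H30a. Dichotomy. PROOF. `f` is a local homeomorphism at `x` with analytic inverse `f⁻¹`; `φ = g ∘ f⁻¹` is analytic at the real point `f x`. `φ - φ*`, `φ*(w) = conj (φ (conj w))`, is analytic and at real `w` equals `2i Im φ(w)`. Either it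
vanishes near `f x` (first alternative) or it has no zeros near `f x` except possibly `f x` itself (second). -/
theorem arc_dichotomy (f g : ℂ → ℂ) (x : ℂ) (hf : AnalyticAt ℂ f x) (hg : AnalyticAt ℂ g x) (hf' : deriv f x ≠ 0) (hfx : (f x).im = 0) :
    SameArc f g x ∨ ∀ᶠ y in 𝓝[≠] x, ¬ ((f y).im = 0 ∧ (g y).im = 0) := by
  obtain ⟨ψ, hψ, hψx, hL, hR, -⟩ := h30_inv hf hf'
  have hgψ : AnalyticAt ℂ g (ψ (f x)) := by rw [hψx]; exact hg
  have hφ : AnalyticAt ℂ (g ∘ ψ) (f x) := hgψ.comp hψ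
  have hD : AnalyticAt ℂ (fun w => (g ∘ ψ) w - h30_star (g ∘ ψ) w) (f x) :=
    hφ.sub (h30_star_analytic hφ hfx)
  have hcont : Tendsto f (𝓝 x) (𝓝 (f x)) := hf.continuousAt
  rcases hD.eventually_eq_zero_or_eventually_ne_zero with h | h
  · left
    unfold SameArc
    filter_upwards [hcont.eventually h, hL] with y hy hy1 hy2
    have h3 := (h30_sub_eq_zero hy2).1 hy
    have h4 : (g ∘ ψ) (f y) = g y := by
      show g (ψ (f y)) = g y
      rw [hy1]
    rwa [h4] at h3
  · right
    have hpunc : Tendsto f (𝓝[≠] x) (𝓝[≠] (f x)) := by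
      rw [tendsto_nhdsWithin_iff]
      refine ⟨hcont.mono_left nhdsWithin_le_nhds, ?_⟩
      have h1 : ∀ᶠ y in 𝓝[≠] x, ψ (f y) = y := hL.filter_mono nhdsWithin_le_nhds
      filter_upwards [h1, self_mem_nhdsWithin] with y hy1 hy2 hy3
      apply hy2
      have hy4 : f y = f x := hy3
      rw [hy4, hψx] at hy1
      exact hy1.symm
    have h1 : ∀ᶠ y in 𝓝[≠] x, ψ (f y) = y := hL.filter_mono nhdsWithin_le_nhds
    filter_upwards [hpunc.eventually h, h1] with y hy hy1 hy2
    apply hy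
    have h4 : (g ∘ ψ) (f y) = g y := by
      show g (ψ (f y)) = g y
      rw [hy1]
    rw [h30_sub_eq_zero hy2.1, h4]
    exact hy2.2

/-- H30b. If two functions have the same arc and are positive at common points near `x`, their positive sides coincide. PROOF. `φ = g ∘ f⁻¹` as above is real on reals, `φ' ≠ 0` real at `f x`; `φ' > 0` because otherwise `Im φ(w) < 0` for `Im w > 0`, `w` near
`f x`. Then `Im φ(w) > 0` for `Im w > 0`, `w` near `f x`. -/
theorem side_of_freq (f g : ℂ → ℂ) (x : ℂ) (hf : AnalyticAt ℂ f x) (hg : AnalyticAt ℂ g x) (hf' : deriv f x ≠ 0) (hg' : deriv g x ≠ 0)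
    (hfx : (f x).im = 0) (hgx : (g x).im = 0) (harc : SameArc f g x) (hfreq : ∃ᶠ y in 𝓝 x, 0 < (f y).im ∧ 0 < (g y).im) :
    ∀ᶠ y in 𝓝 x, 0 < (f y).im → 0 < (g y).im := by
  obtain ⟨ψ, hψ, hψx, hL, hR, hψd⟩ := h30_inv hf hf'
  have hgψ : AnalyticAt ℂ g (ψ (f x)) := by rw [hψx]; exact hg
  have hφ : AnalyticAt ℂ (g ∘ ψ) (f x) := hgψ.comp hψ
  set φ := g ∘ ψ with hφdef
  set a := f x with hadef
  have hcont : Tendsto f (𝓝 x) (𝓝 a) := hf.continuousAt
  have hψcont : Tendsto ψ (𝓝 a) (𝓝 x) := by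
    have h := hψ.continuousAt.tendsto
    rwa [hψx] at h
  -- `φ` is real at real points near `a`
  have hreal : ∀ᶠ w in 𝓝 a, w.im = 0 → (φ w).im = 0 := by
    filter_upwards [hψcont.eventually harc, hR] with w hw1 hw2 hw3
    exact hw1 (by rw [hw2]; exact hw3)
  have hD : AnalyticAt ℂ (fun w => φ w - h30_star φ w) a := hφ.sub (h30_star_analytic hφ hfx)
  have hDz : ∀ᶠ w in 𝓝 a, φ w - h30_star φ w = 0 := by
    rcases hD.eventually_eq_zero_or_eventually_ne_zero with h | h
    · exact h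
    · exfalso
      have h1 : Tendsto (fun t : ℝ => a + (t : ℂ)) (𝓝[≠] (0 : ℝ)) (𝓝[≠] a) := by
        rw [tendsto_nhdsWithin_iff]
        constructor
        · have h2 : Tendsto (fun t : ℝ => a + (t : ℂ)) (𝓝 (0 : ℝ)) (𝓝 (a + ((0 : ℝ) : ℂ))) :=
            (continuous_const.add Complex.continuous_ofReal).tendsto 0
          rw [Complex.ofReal_zero, add_zero] at h2
          exact h2.mono_left nhdsWithin_le_nhds
        · filter_upwards [self_mem_nhdsWithin] with t ht ht1
          apply ht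
          have ht2 : a + (t : ℂ) = a := ht1
          have ht3 : (t : ℂ) = 0 := by
            rw [add_eq_left] at ht2
            exact ht2
          exact_mod_cast ht3
      have h2 : ∀ᶠ w in 𝓝[≠] a, w.im = 0 → (φ w).im = 0 := hreal.filter_mono nhdsWithin_le_nhds
      obtain ⟨t, ht1, ht2⟩ := ((h1.eventually h).and (h1.eventually h2)).exists
      have h3 : (a + (t : ℂ)).im = 0 := by
        rw [Complex.add_im, Complex.ofReal_im, add_zero]
        exact hfx
      exact ht1 ((h30_sub_eq_zero h3).2 (ht2 h3))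
  -- the derivative of `φ` at `a`
  set c := deriv g x * (deriv f x)⁻¹ with hc
  have hc0 : c ≠ 0 := mul_ne_zero hg' (inv_ne_zero hf')
  have hφd : HasStrictDerivAt φ c a := by
    have hgs : HasStrictDerivAt g (deriv g x) (ψ a) := by
      rw [hψx]
      exact hg.hasStrictDerivAt
    exact hgs.comp a hψd
  have hca : (starRingEnd ℂ) a = a := Complex.conj_eq_iff_im.2 hfx
  have hcreal : c.im = 0 := by
    have h1 : HasDerivAt (h30_star φ) ((starRingEnd ℂ) c) a := by
      have h2 := hφd.hasDerivAt.conj_conj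
      rw [hca] at h2
      exact h2
    have h2 : φ =ᶠ[𝓝 a] h30_star φ := by
      filter_upwards [hDz] with w hw
      exact sub_eq_zero.1 hw
    have h3 : HasDerivAt φ ((starRingEnd ℂ) c) a := h1.congr_of_eventuallyEq h2
    have h4 := h3.unique hφd.hasDerivAt
    exact Complex.conj_eq_iff_im.1 h4
  have hcr : c = ((c.re : ℝ) : ℂ) := by
    apply Complex.ext
    · simp
    · simpa using hcreal
  have hcre : c.re ≠ 0 := by
    intro h
    apply hc0
    rw [hcr, h]
    simp
  -- the quantitative estimate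
  have hkey : ∀ᶠ w in 𝓝 a, |(φ w).im - c.re * w.im| ≤ |c.re| / 2 * |w.im| := by
    have h1 := hφd.isLittleO
    have h2 := h1.def (c := |c.re| / 2) (by positivity)
    have h3 : Tendsto (fun w : ℂ => (w, ((w.re : ℝ) : ℂ))) (𝓝 a) (𝓝 (a, a)) := by
      have h4 : Tendsto (fun w : ℂ => ((w.re : ℝ) : ℂ)) (𝓝 a) (𝓝 a) := by
        have h5 : Tendsto (fun w : ℂ => ((w.re : ℝ) : ℂ)) (𝓝 a) (𝓝 ((a.re : ℝ) : ℂ)) :=
          (Complex.continuous_ofReal.comp Complex.continuous_re).tendsto a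
        have h6 : ((a.re : ℝ) : ℂ) = a := by
          apply Complex.ext
          · simp
          · simpa using hfx.symm
        rwa [h6] at h5
      exact tendsto_id.prodMk_nhds h4
    have h4 : Tendsto (fun w : ℂ => ((w.re : ℝ) : ℂ)) (𝓝 a) (𝓝 a) := by
      have h5 := (continuous_snd.tendsto (a, a)).comp h3
      exact h5
    filter_upwards [h3.eventually h2, h4.eventually hreal] with w hw hw2
    have hu : (φ ((w.re : ℝ) : ℂ)).im = 0 := hw2 (Complex.ofReal_im _)
    have hwu : w - ((w.re : ℝ) : ℂ) = (w.im : ℂ) * I := by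
      apply Complex.ext
      · simp
      · simp
    have hw' : ‖φ w - φ ((w.re : ℝ) : ℂ) - (w - ((w.re : ℝ) : ℂ)) • c‖ ≤
        |c.re| / 2 * ‖w - ((w.re : ℝ) : ℂ)‖ := by
      simpa using hw
    rw [hwu] at hw'
    have hn : ‖(w.im : ℂ) * I‖ = |w.im| := by
      rw [norm_mul, Complex.norm_I, mul_one, Complex.norm_real, Real.norm_eq_abs]
    rw [hn] at hw'
    have him : (φ w - φ ((w.re : ℝ) : ℂ) - ((w.im : ℂ) * I) • c).im = (φ w).im - c.re * w.im := by
      rw [Complex.sub_im, Complex.sub_im, hu, smul_eq_mul, hcr]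
      simp
      ring
    rw [← him]
    exact (Complex.abs_im_le_norm _).trans hw'
  have hpos : 0 < c.re := by
    by_contra hneg
    have hneg' : c.re < 0 := lt_of_le_of_ne (not_lt.1 hneg) hcre
    have h1 : ∀ᶠ y in 𝓝 x, 0 < (f y).im → (g y).im ≤ 0 := by
      filter_upwards [hcont.eventually hkey, hL] with y hy1 hy2 hy3
      have h4 : φ (f y) = g y := by
        show g (ψ (f y)) = g y
        rw [hy2]
      rw [h4, abs_of_pos hy3, abs_of_neg hneg'] at hy1
      have h5 := (abs_le.1 hy1).2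
      have h6 : c.re * (f y).im < 0 := mul_neg_of_neg_of_pos hneg' hy3
      nlinarith
    obtain ⟨y, hy1, hy2⟩ := (hfreq.and_eventually h1).exists
    exact absurd hy1.2 (not_lt.2 (hy2 hy1.1))
  filter_upwards [hcont.eventually hkey, hL] with y hy1 hy2 hy3
  have h4 : φ (f y) = g y := by
    show g (ψ (f y)) = g y
    rw [hy2]
  rw [h4, abs_of_pos hy3, abs_of_pos hpos] at hy1
  have h5 := (abs_le.1 hy1).1
  have h6 : 0 < c.re * (f y).im := mul_pos hpos hy3
  nlinarith

/-- H30c. A set all of whose points are isolated is countable. -/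
theorem countable_of_isolated (T : Set ℂ) (h : ∀ x ∈ T, ∀ᶠ y in 𝓝[≠] x, y ∉ T) : T.Countable := by
  have h1 : DiscreteTopology T := by
    rw [discreteTopology_subtype_iff]
    intro x hx
    rw [← disjoint_iff, Filter.disjoint_principal_right]
    exact h x hx
  have h2 : Countable T := TopologicalSpace.separableSpace_iff_countable.1 inferInstance
  exact Set.countable_coe_iff.1 h2

/-- H30d. Nearby points of the arc with rational value: if `M x₁` is real and `deriv M x₁ ≠ 0` there are points `y` near `x₁` with `M y` rational. -/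
theorem rational_near (M : ℂ → ℂ) (x₁ : ℂ) (hM : AnalyticAt ℂ M x₁) (hM' : deriv M x₁ ≠ 0) (h0 : (M x₁).im = 0) (U : Set ℂ) (hU : U ∈ 𝓝 x₁) :
    ∃ y ∈ U, ∃ q : ℚ, M y = (q : ℂ) := by
  have h1 : M '' U ∈ 𝓝 (M x₁) := by
    have h2 := hM.hasStrictDerivAt.map_nhds_eq hM'
    rw [← h2]
    exact Filter.image_mem_map hU
  have h2 : ((((M x₁).re : ℝ)) : ℂ) = M x₁ := by
    apply Complex.ext
    · simp
    · simpa using h0.symm
  have h3 : Tendsto (fun t : ℝ => (t : ℂ)) (𝓝 (M x₁).re) (𝓝 (M x₁)) := by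
    have h4 := Complex.continuous_ofReal.tendsto (M x₁).re
    rwa [h2] at h4
  have h5 : {t : ℝ | (t : ℂ) ∈ M '' U} ∈ 𝓝 (M x₁).re := h3 h1
  obtain ⟨q, hq⟩ := Rat.denseRange_cast.exists_mem_open isOpen_interior
    ⟨(M x₁).re, mem_interior_iff_mem_nhds.2 h5⟩
  obtain ⟨y, hyU, hy⟩ := interior_subset hq
  exact ⟨y, hyU, q, by rw [hy]; push_cast; rfl⟩

end Pool.Agent.MSD
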