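import Pool.Agent.Lib.MP_f58a57_nt.H00_Defs

/-! # H31: generic segments (MP_f58a57_nt) -/

open Complex ModularForm EisensteinSeries Filter
open UpperHalfPlane hiding I
open scoped Topology MatrixGroups Polynomial

noncomputable section

namespace Pool.Agent.MSD

/-- H31. Segments avoiding a countable set. PROOF. Choose two real-linearly independent directions; the points `y_s = y₀ + s v`, `s ∈ (0, ε)`, `v` not real proportional to `y₀ - x₀` (or any `v ≠ 0` if `y₀ = x₀`... assume `y₀ ≠ x₀`) give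
segments `[x₀, y_s]` that pairwise meet only in `x₀`. Each point of the countable set `B`, different from `x₀`, is on at most one of them. -/
theorem generic_segment (x₀ y₀ : ℂ) (hne : y₀ ≠ x₀) (B : Set ℂ) (hB : B.Countable) (ε : ℝ) (hε : 0 < ε) :
    ∃ y : ℂ, ‖y - y₀‖ < ε ∧ y ≠ x₀ ∧ ∀ x ∈ segment ℝ x₀ y, x ≠ x₀ → x ∉ B := by
  set w : ℂ := y₀ - x₀ with hw
  have hw0 : w ≠ 0 := sub_ne_zero.mpr hne
  have hwn : 0 < ‖w‖ := norm_pos_iff.mpr hw0
  set g : ℂ → ℝ := fun x => ((x - x₀) / w).im / ((x - x₀) / w).re with hg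
  have hd : Dense (g '' B)ᶜ := (hB.image g).dense_compl ℝ
  have hδ : (0 : ℝ) < ε / ‖w‖ := by positivity
  obtain ⟨s, hs, hs0, hs1⟩ := hd.exists_between hδ
  have hone : (1 + (s : ℂ) * Complex.I) ≠ 0 := by
    intro h
    have := congrArg Complex.re h
    simp at this
  refine ⟨x₀ + w * (1 + (s : ℂ) * Complex.I), ?_, ?_, ?_⟩
  · have : x₀ + w * (1 + (s : ℂ) * Complex.I) - y₀ = w * ((s : ℂ) * Complex.I) := by
      rw [hw]; ring
    rw [this, norm_mul, norm_mul, Complex.norm_I, mul_one, Complex.norm_real, Real.norm_eq_abs,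
      abs_of_pos hs0]
    have := (lt_div_iff₀ hwn).mp hs1
    linarith [mul_comm s ‖w‖]
  · intro h
    have : w * (1 + (s : ℂ) * Complex.I) = 0 := by linear_combination h
    exact mul_ne_zero hw0 hone this
  · intro x hx hxne hxB
    rw [segment_eq_image'] at hx
    obtain ⟨t, _, rfl⟩ := hx
    apply hs
    refine ⟨_, hxB, ?_⟩
    have ht : t ≠ 0 := by
      rintro rfl
      apply hxne
      simp
    have hval : (x₀ + t • (x₀ + w * (1 + (s : ℂ) * Complex.I) - x₀) - x₀) / w
        = (t : ℂ) * (1 + (s : ℂ) * Complex.I) := by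
      rw [Complex.real_smul]
      field_simp
      ring
    simp only [hg]
    rw [hval]
    have h1 : ((t : ℂ) * (1 + (s : ℂ) * Complex.I)).im = t * s := by simp
    have h2 : ((t : ℂ) * (1 + (s : ℂ) * Complex.I)).re = t := by simp
    rw [h1, h2]
    field_simp

end Pool.Agent.MSD
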