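import Pool.Agent.Lib.MP_f58a57_nt.H30_Arc
import Pool.Agent.Lib.MP_f58a57_nt.H31_Generic

/-! # H32: the exit point (MP_f58a57_nt) -/

open Complex ModularForm EisensteinSeries Filter
open UpperHalfPlane hiding I
open scoped Topology MatrixGroups Polynomial

noncomputable section

namespace Pool.Agent.MSD

/-- a function whose derivative vanishes near a point is constant near the point -/
theorem h32_const (f : ℂ → ℂ) (x : ℂ) (hf : AnalyticAt ℂ f x) (h : ∀ᶠ y in 𝓝 x, deriv f y = 0) :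
    ∀ᶠ y in 𝓝 x, f y = f x := by
  obtain ⟨r, hr, hball⟩ := Metric.eventually_nhds_iff_ball.1 (h.and hf.eventually_analyticAt)
  filter_upwards [Metric.ball_mem_nhds x hr] with y hy
  refine Metric.isOpen_ball.is_const_of_deriv_eq_zero (convex_ball x r).isPreconnected
    (fun z hz => (hball z hz).2.differentiableAt.differentiableWithinAt)
    (fun z hz => (hball z hz).1) hy (Metric.mem_ball_self hr)

/-- the first bad set: isolated critical points -/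
theorem h32_crit (G : Set ℂ) (f : ℂ → ℂ) :
    {x | x ∈ G ∧ deriv f x = 0 ∧ ∀ᶠ y in 𝓝[≠] x, deriv f y ≠ 0}.Countable := by
  refine countable_of_isolated _ fun x hx => ?_
  filter_upwards [hx.2.2] with y hy h
  exact hy h.2.1

/-- the second bad set: isolated common real points -/
theorem h32_real (G : Set ℂ) (f g : ℂ → ℂ) (hf : AnalyticOnNhd ℂ f G) (hg : AnalyticOnNhd ℂ g G) :
    {x | x ∈ G ∧ (f x).im = 0 ∧ (g x).im = 0 ∧ deriv f x ≠ 0 ∧ ¬ SameArc f g x}.Countable := by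
  refine countable_of_isolated _ fun x hx => ?_
  obtain ⟨h1, h2, h3, h4, h5⟩ := hx
  rcases arc_dichotomy f g x (hf x h1) (hg x h1) h4 h2 with h | h
  · exact absurd h h5
  · filter_upwards [h] with y hy h6
    exact hy ⟨h6.2.1, h6.2.2.1⟩

/-- the first exit of a segment -/
theorem h32_first {ι : Type} [Finite ι] (G : Set ℂ) (M : ι → ℂ → ℂ)
    (hM : ∀ i, AnalyticOnNhd ℂ (M i) G) (x₀ y : ℂ) (hseg : segment ℝ x₀ y ⊆ G)
    (hpos : ∀ i, 0 < (M i x₀).im) (i₀ : ι) (hneg : (M i₀ y).im < 0) :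
    ∃ s₁ : ℝ, 0 < s₁ ∧ s₁ ≤ 1 ∧ (∀ s, 0 ≤ s → s < s₁ → ∀ i, 0 < (M i (AffineMap.lineMap x₀ y s)).im) ∧
      (∀ i, 0 ≤ (M i (AffineMap.lineMap x₀ y s₁)).im) ∧
      ∃ i, (M i (AffineMap.lineMap x₀ y s₁)).im = 0 := by
  have hmem : ∀ s ∈ Set.Icc (0 : ℝ) 1, (AffineMap.lineMap x₀ y s : ℂ) ∈ G := fun s hs =>
    hseg (by rw [segment_eq_image_lineMap]; exact ⟨s, hs, rfl⟩)
  have hγ : Continuous fun s : ℝ => (AffineMap.lineMap x₀ y s : ℂ) := AffineMap.lineMap_continuous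
  have hcont : ∀ i, ContinuousOn (fun s : ℝ => (M i (AffineMap.lineMap x₀ y s)).im)
      (Set.Icc 0 1) := by
    intro i
    refine Complex.continuous_im.comp_continuousOn ?_
    exact (hM i).continuousOn.comp hγ.continuousOn fun s hs => hmem s hs
  set S : Set ℝ := ⋃ i, (Set.Icc (0 : ℝ) 1 ∩
    (fun s : ℝ => (M i (AffineMap.lineMap x₀ y s)).im) ⁻¹' Set.Iic 0) with hS
  have hSc : IsCompact S := by
    refine isCompact_iUnion fun i => ?_
    exact isCompact_Icc.of_isClosed_subset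
      ((hcont i).preimage_isClosed_of_isClosed isClosed_Icc isClosed_Iic) Set.inter_subset_left
  have h1 : (1 : ℝ) ∈ S := by
    rw [hS, Set.mem_iUnion]
    refine ⟨i₀, ⟨zero_le_one, le_refl _⟩, ?_⟩
    simp only [Set.mem_preimage, AffineMap.lineMap_apply_one, Set.mem_Iic]
    exact hneg.le
  obtain ⟨s₁, hs₁, hleast⟩ := hSc.exists_isLeast ⟨1, h1⟩
  rw [hS, Set.mem_iUnion] at hs₁
  obtain ⟨i₁, ⟨h2, h3⟩, h4⟩ := hs₁
  simp only [Set.mem_preimage, Set.mem_Iic] at h4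
  have hlt : ∀ s, 0 ≤ s → s < s₁ → ∀ i, 0 < (M i (AffineMap.lineMap x₀ y s)).im := by
    intro s hs0 hs i
    by_contra hcon
    have : s ∈ S := by
      rw [hS, Set.mem_iUnion]
      exact ⟨i, ⟨hs0, hs.le.trans h3⟩, not_lt.1 hcon⟩
    exact absurd (hleast this) (not_le.2 hs)
  have hs₁0 : 0 < s₁ := by
    rcases h2.lt_or_eq with h | h
    · exact h
    · exfalso
      rw [← h, AffineMap.lineMap_apply_zero] at h4
      exact absurd (hpos i₁) (not_lt.2 h4)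
  have hge : ∀ i, 0 ≤ (M i (AffineMap.lineMap x₀ y s₁)).im := by
    intro i
    have hc := (hcont i) s₁ ⟨h2, h3⟩
    have hc' : Tendsto (fun s : ℝ => (M i (AffineMap.lineMap x₀ y s)).im) (𝓝[Set.Ico 0 s₁] s₁)
        (𝓝 (M i (AffineMap.lineMap x₀ y s₁)).im) :=
      hc.mono_left (nhdsWithin_mono _ fun s hs => ⟨hs.1, hs.2.le.trans h3⟩)
    have hne : (𝓝[Set.Ico 0 s₁] s₁).NeBot := by
      rw [← mem_closure_iff_nhdsWithin_neBot, closure_Ico hs₁0.ne]
      exact ⟨h2, le_refl _⟩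
    refine ge_of_tendsto hc' ?_
    filter_upwards [self_mem_nhdsWithin] with s hs
    exact (hlt s hs.1 hs.2 i).le
  exact ⟨s₁, hs₁0, h3, hlt, hge, i₁, le_antisymm h4 (hge i₁)⟩

/-- H32. PROOF. Let `G = Q ∖ F`, `G` is open, connected. Bad set `B`: `F`, the critical points of the nonconstant `M i` (isolated), and for all `i, j` the points `x ∈ G` with `(M i x).im = (M j x).im = 0`, `deriv (M i) x ≠ 0`, not
`SameArc (M i) (M j) x` (isolated by `arc_dichotomy`; use `countable_of_isolated`). `B` is countable. (Connectedness of `G` is not needed: points near which `deriv (M i)` vanishes identically are not put into `B`; such a point is not `x₁` because `Im M i > 0` at the points of the segment near `x₁`.) Choose by H31 `y` near `y₀` (in `Q`, `(M i₀ y).im < 0`) such that `(x₀, y]` avoids `B`. The segment is in `Q` (convex), so in `G`. Let `x₁ = x₀ + s₁ (y - x₀)`, `s₁` the infimum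
of the `s ∈ [0,1]` with `min_i Im M i ≤ 0`. Constant `M i` have positive imaginary part everywhere. -/
theorem exit_gen {ι : Type} [Finite ι] (Q : Set ℂ) (hQ : IsOpen Q) (hQc : Convex ℝ Q) (F : Set ℂ) (hF : F.Finite)
    (M : ι → ℂ → ℂ) (hM : ∀ i, AnalyticOnNhd ℂ (M i) (Q \ F)) (x₀ : ℂ) (hx₀ : x₀ ∈ Q \ F) (hpos : ∀ i, 0 < (M i x₀).im)
    (y₀ : ℂ) (hy₀ : y₀ ∈ Q \ F) (i₀ : ι) (hneg : (M i₀ y₀).im < 0) :
    ∃ x₁ ∈ Q \ F, x₁ ≠ x₀ ∧ segment ℝ x₀ x₁ ⊆ Q \ F ∧ (∀ x ∈ segment ℝ x₀ x₁, x ≠ x₁ → ∀ i, 0 < (M i x).im) ∧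
      (∀ i, 0 ≤ (M i x₁).im) ∧ (∃ i, (M i x₁).im = 0) ∧ (∀ i, (M i x₁).im = 0 → deriv (M i) x₁ ≠ 0) ∧
      ∀ i j, (M i x₁).im = 0 → (M j x₁).im = 0 → SameArc (M i) (M j) x₁ := by
  have hG : IsOpen (Q \ F) := hQ.sdiff hF.isClosed
  have hne : y₀ ≠ x₀ := by
    rintro rfl
    exact absurd (hpos i₀) (not_lt.2 hneg.le)
  set B : Set ℂ := F ∪ ((⋃ i, {x | x ∈ Q \ F ∧ deriv (M i) x = 0 ∧ ∀ᶠ y in 𝓝[≠] x, deriv (M i) y ≠ 0}) ∪
    ⋃ i, ⋃ j, {x | x ∈ Q \ F ∧ (M i x).im = 0 ∧ (M j x).im = 0 ∧ deriv (M i) x ≠ 0 ∧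
      ¬ SameArc (M i) (M j) x}) with hB
  have hBc : B.Countable := by
    refine hF.countable.union (Set.Countable.union ?_ ?_)
    · exact Set.countable_iUnion fun i => h32_crit _ _
    · exact Set.countable_iUnion fun i => Set.countable_iUnion fun j => h32_real _ _ _ (hM i) (hM j)
  have hev : ∀ᶠ y in 𝓝 y₀, y ∈ Q \ F ∧ (M i₀ y).im < 0 := by
    refine (hG.eventually_mem hy₀).and ?_
    have hc : ContinuousAt (fun y => (M i₀ y).im) y₀ :=
      Complex.continuous_im.continuousAt.comp (hM i₀ y₀ hy₀).continuousAt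
    exact hc.eventually (gt_mem_nhds hneg)
  obtain ⟨ε, hε, hball⟩ := Metric.eventually_nhds_iff.1 hev
  obtain ⟨y, hy1, hy2, hy3⟩ := generic_segment x₀ y₀ hne B hBc ε hε
  obtain ⟨hyQ, hyneg⟩ := hball (by rw [dist_eq_norm]; exact hy1)
  have hseg : segment ℝ x₀ y ⊆ Q \ F := by
    intro x hx
    refine ⟨hQc.segment_subset hx₀.1 hyQ.1 hx, ?_⟩
    by_cases hxx : x = x₀
    · rw [hxx]; exact hx₀.2
    · exact fun hF' => hy3 x hx hxx (by rw [hB]; exact Or.inl hF')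
  obtain ⟨s₁, h0, h1, hlt, hge, i₁, hi₁⟩ := h32_first (Q \ F) M hM x₀ y hseg hpos i₀ hyneg
  set x₁ : ℂ := AffineMap.lineMap x₀ y s₁ with hx₁
  have hx₁s : x₁ ∈ segment ℝ x₀ y := by
    rw [segment_eq_image_lineMap]
    exact ⟨s₁, ⟨h0.le, h1⟩, rfl⟩
  have hx₁G : x₁ ∈ Q \ F := hseg hx₁s
  have hx₁0 : x₁ ≠ x₀ := by
    intro h
    rw [h] at hi₁
    exact absurd (hpos i₁) (by rw [hi₁]; exact lt_irrefl _)
  have hsub : segment ℝ x₀ x₁ ⊆ segment ℝ x₀ y :=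
    (convex_segment x₀ y).segment_subset (left_mem_segment ℝ x₀ y) hx₁s
  have hx₁B : x₁ ∉ B := hy3 x₁ hx₁s hx₁0
  rw [hB] at hx₁B
  simp only [Set.mem_union, Set.mem_iUnion, not_or, not_exists] at hx₁B
  obtain ⟨-, hb1, hb2⟩ := hx₁B
  have hder : ∀ i, (M i x₁).im = 0 → deriv (M i) x₁ ≠ 0 := by
    intro i hi hd
    have hfreq : ¬ ∀ᶠ y in 𝓝[≠] x₁, deriv (M i) y ≠ 0 := fun h => hb1 i ⟨hx₁G, hd, h⟩
    have hz : ∀ᶠ y in 𝓝 x₁, deriv (M i) y = 0 :=
      ((hM i x₁ hx₁G).deriv.eventually_eq_zero_or_eventually_ne_zero).resolve_right hfreq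
    have hc := h32_const (M i) x₁ (hM i x₁ hx₁G) hz
    have hγ : Tendsto (fun s : ℝ => (AffineMap.lineMap x₀ y s : ℂ)) (𝓝[<] s₁) (𝓝 x₁) :=
      (AffineMap.lineMap_continuous.tendsto s₁).mono_left nhdsWithin_le_nhds
    have h5 := hγ.eventually hc
    have h6 : ∀ᶠ s in 𝓝[<] s₁, 0 < s := (eventually_gt_nhds h0).filter_mono nhdsWithin_le_nhds
    obtain ⟨s, ⟨h7, h8⟩, h9⟩ := ((h5.and h6).and self_mem_nhdsWithin).exists
    have h10 := hlt s h8.le h9 i
    rw [h7, hi] at h10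
    exact lt_irrefl _ h10
  refine ⟨x₁, hx₁G, hx₁0, hsub.trans hseg, ?_, hge, ⟨i₁, hi₁⟩, hder, ?_⟩
  · intro x hx hxx i
    rw [segment_eq_image_lineMap] at hx
    obtain ⟨r, ⟨hr0, hr1⟩, rfl⟩ := hx
    have hr : r < 1 := by
      rcases hr1.lt_or_eq with h | h
      · exact h
      · exfalso
        rw [h, AffineMap.lineMap_apply_one] at hxx
        exact hxx rfl
    have he : (AffineMap.lineMap x₀ x₁ r : ℂ) = AffineMap.lineMap x₀ y (r * s₁) := by
      rw [hx₁]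
      simp only [AffineMap.lineMap_apply, vsub_eq_sub, vadd_eq_add, add_sub_cancel_right, mul_smul]
    rw [he]
    exact hlt _ (mul_nonneg hr0 h0.le) (by nlinarith) i
  · intro i j hi hj
    by_contra hcon
    exact hb2 i j ⟨hx₁G, hi, hj, hder i hi, hcon⟩

end Pool.Agent.MSD
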