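import Pool.Agent.Lib.MP_f58a57_nt.H00_Defs

/-! # H33: propagation along the segment (MP_f58a57_nt) -/

open Complex ModularForm EisensteinSeries Filter
open UpperHalfPlane hiding I
open scoped Topology MatrixGroups Polynomial

noncomputable section

namespace Pool.Agent.MSD

/-- H33a. Forward. PROOF. Near `x₁`, `M` is a homeomorphism onto a disc `V` around the real number `M x₁`; `N = M⁻¹(V ∩ ℍ)` is connected, contained in `G` (small `V`), and meets the segment. `f` is analytic on the open set `G ⊇ (segment ∖ {x₁}) ∪ N`; this union is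
connected (the half-open segment is connected and meets `N`, because the points of the segment near `x₁` have `Im M > 0`), so `f = 0` on it (`AnalyticOnNhd.eqOn_zero_of_preconnected_of_eventuallyEq_zero`). -/
theorem propagate (f M : ℂ → ℂ) (x₀ x₁ : ℂ) (hne : x₀ ≠ x₁) (G : Set ℂ) (hG : IsOpen G) (hf : AnalyticOnNhd ℂ f G)
    (hseg : ∀ x ∈ segment ℝ x₀ x₁, x ≠ x₁ → x ∈ G ∧ 0 < (M x).im) (hM : AnalyticAt ℂ M x₁) (hM' : deriv M x₁ ≠ 0) (h1 : (M x₁).im = 0)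
    (hGM : ∀ᶠ x in 𝓝 x₁, 0 < (M x).im → x ∈ G) (h0 : ∀ᶠ x in 𝓝 x₀, f x = 0) : ∀ᶠ x in 𝓝 x₁, 0 < (M x).im → f x = 0 := by
  classical
  set Θ : ℂ → ℂ := hM.hasStrictDerivAt.localInverse _ _ _ hM' with hΘ
  have hΘa : AnalyticAt ℂ Θ (M x₁) := hM.analyticAt_localInverse hM'
  have hΘl : ∀ᶠ x in 𝓝 x₁, Θ (M x) = x := HasStrictDerivAt.eventually_left_inverse ..
  have hΘr : ∀ᶠ w in 𝓝 (M x₁), M (Θ w) = w := HasStrictDerivAt.eventually_right_inverse ..
  have hΘ0 : Θ (M x₁) = x₁ := hΘl.self_of_nhds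
  have hΘG : ∀ᶠ w in 𝓝 (M x₁), 0 < (M (Θ w)).im → Θ w ∈ G := by
    have := hΘa.continuousAt.tendsto
    rw [hΘ0] at this
    exact this.eventually hGM
  obtain ⟨ρ, hρ, hρr⟩ : ∃ ρ > 0, ∀ w ∈ Metric.ball (M x₁) ρ, M (Θ w) = w ∧ AnalyticAt ℂ Θ w ∧ (0 < (M (Θ w)).im → Θ w ∈ G) := by
    have h2 := hΘr.and (hΘa.eventually_analyticAt.and hΘG)
    rw [Metric.eventually_nhds_iff_ball] at h2
    exact h2
  set V : Set ℂ := Metric.ball (M x₁) ρ ∩ {w : ℂ | 0 < w.im} with hV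
  have hVc : Convex ℝ V := (convex_ball _ _).inter (convex_halfSpace_im_gt 0)
  have hN : IsPreconnected (Θ '' V) := by
    apply hVc.isPreconnected.image
    intro w hw
    exact (hρr w hw.1).2.1.continuousAt.continuousWithinAt
  have hNG : Θ '' V ⊆ G := by
    rintro _ ⟨w, hw, rfl⟩
    obtain ⟨h2, -, h3⟩ := hρr w hw.1
    apply h3
    rw [h2]; exact hw.2
  set c : ℝ → ℂ := fun t => AffineMap.lineMap x₀ x₁ t with hc
  have hcc : Continuous c := AffineMap.lineMap_continuous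
  have hcS : ∀ t ∈ Set.Ico (0 : ℝ) 1, c t ∈ segment ℝ x₀ x₁ ∧ c t ≠ x₁ := by
    intro t ht
    refine ⟨?_, ?_⟩
    · rw [segment_eq_image_lineMap]
      exact ⟨t, ⟨ht.1, ht.2.le⟩, rfl⟩
    · intro h
      have h2 : c t = c 1 := by rw [h]; simp [hc]
      have h3 := AffineMap.lineMap_injective ℝ hne h2
      exact absurd h3 ht.2.ne
  have hS : IsPreconnected (c '' Set.Ico 0 1) := isPreconnected_Ico.image _ hcc.continuousOn
  have hSG : c '' Set.Ico 0 1 ⊆ G := by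
    rintro _ ⟨t, ht, rfl⟩
    exact (hseg _ (hcS t ht).1 (hcS t ht).2).1
  have hnear : ∀ᶠ x in 𝓝 x₁, 0 < (M x).im → x ∈ Θ '' V := by
    have h2 : ∀ᶠ x in 𝓝 x₁, M x ∈ Metric.ball (M x₁) ρ := hM.continuousAt.eventually_mem (Metric.ball_mem_nhds _ hρ)
    filter_upwards [hΘl, h2] with x hx1 hx2 hx3
    exact ⟨M x, ⟨hx2, hx3⟩, hx1⟩
  obtain ⟨t, ht, htN⟩ : ∃ t ∈ Set.Ico (0 : ℝ) 1, c t ∈ Θ '' V := by
    have h2 : Tendsto c (𝓝[<] 1) (𝓝 x₁) := by
      have h3 := hcc.tendsto 1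
      have h4 : c 1 = x₁ := by simp [hc]
      rw [h4] at h3
      exact h3.mono_left nhdsWithin_le_nhds
    have h3 := h2.eventually hnear
    have h4 : ∀ᶠ t in 𝓝[<] (1 : ℝ), t ∈ Set.Ioo (0 : ℝ) 1 := Ioo_mem_nhdsLT one_pos
    obtain ⟨t, ht1, ht2⟩ := (h3.and h4).exists
    have ht : t ∈ Set.Ico (0 : ℝ) 1 := ⟨ht2.1.le, ht2.2⟩
    exact ⟨t, ht, ht1 (hseg _ (hcS t ht).1 (hcS t ht).2).2⟩
  have hU : IsPreconnected (c '' Set.Ico 0 1 ∪ Θ '' V) := hS.union (c t) ⟨t, ht, rfl⟩ htN hN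
  have hx₀ : x₀ ∈ c '' Set.Ico 0 1 ∪ Θ '' V := Or.inl ⟨0, ⟨le_rfl, one_pos⟩, by simp [hc]⟩
  have hfU : AnalyticOnNhd ℂ f (c '' Set.Ico 0 1 ∪ Θ '' V) := hf.mono (Set.union_subset hSG hNG)
  have hz := hfU.eqOn_zero_of_preconnected_of_eventuallyEq_zero hU hx₀ h0
  filter_upwards [hnear] with x hx1 hx2
  exact hz (Or.inr (hx1 hx2))

/-- H33b. Backward. (An open neighbourhood of the segment: a thickening, which is convex.) -/
theorem propagate_back (f : ℂ → ℂ) (x₀ x₁ : ℂ) (hf : ∀ x ∈ segment ℝ x₀ x₁, AnalyticAt ℂ f x) (h1 : ∀ᶠ x in 𝓝 x₁, f x = 0) :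
    ∀ᶠ x in 𝓝 x₀, f x = 0 := by
  rcases eq_or_ne x₀ x₁ with rfl | hne
  · exact h1
  have hz := AnalyticOnNhd.eqOn_zero_of_preconnected_of_eventuallyEq_zero (f := f) (U := segment ℝ x₀ x₁) hf
    (convex_segment x₀ x₁).isPreconnected (right_mem_segment ℝ x₀ x₁) h1
  have hfx : AnalyticAt ℂ f x₀ := hf x₀ (left_mem_segment ℝ x₀ x₁)
  rw [← hfx.frequently_zero_iff_eventually_zero]
  set c : ℝ → ℂ := fun t => AffineMap.lineMap x₀ x₁ t with hc
  have hcc : Continuous c := AffineMap.lineMap_continuous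
  have h2 : Tendsto c (𝓝[>] 0) (𝓝[≠] x₀) := by
    apply tendsto_nhdsWithin_of_tendsto_nhds_of_eventually_within
    · have h3 := hcc.tendsto 0
      have h4 : c 0 = x₀ := by simp [hc]
      rw [h4] at h3
      exact h3.mono_left nhdsWithin_le_nhds
    · filter_upwards [self_mem_nhdsWithin] with t ht
      intro h
      have h4 : c 0 = x₀ := by simp [hc]
      have h5 : c t = c 0 := by rw [h4]; exact h
      exact absurd (AffineMap.lineMap_injective ℝ hne h5) (ne_of_gt ht)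
  have h3 : ∀ᶠ t in 𝓝[>] (0 : ℝ), f (c t) = 0 := by
    have h4 : ∀ᶠ t in 𝓝[>] (0 : ℝ), t ∈ Set.Ioo (0 : ℝ) 1 := Ioo_mem_nhdsGT one_pos
    filter_upwards [h4] with t ht
    apply hz
    rw [segment_eq_image_lineMap]
    exact ⟨t, ⟨ht.1.le, ht.2.le⟩, rfl⟩
  exact h2.frequently h3.frequently

end Pool.Agent.MSD
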