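import Pool.Agent.Lib.MP_f58a57_nt.H34_Cusp
import Pool.Agent.Lib.MP_f58a57_nt.H30_Arc

/-! # H35: elimination on an arc of one function (MP_f58a57_nt) -/

open Complex ModularForm EisensteinSeries Filter
open UpperHalfPlane hiding I
open scoped Topology MatrixGroups Polynomial

noncomputable section

namespace Pool.Agent.MSD

/-- H35. PROOF. Take a disc `N` around `x₁` where everything is analytic, `deriv M ≠ 0` and the relation holds on `{Im M > 0}`; `rational_near` gives `y ∈ N` with `M y` rational; `cusp_gen` at `y`; the coefficients are analytic on the disc `N` and vanish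
near `y`, so they vanish on `N`. -/
theorem arc_one (M : ℂ → ℂ) (x₁ : ℂ) (hM : AnalyticAt ℂ M x₁) (hM' : deriv M x₁ ≠ 0) (h0 : (M x₁).im = 0)
    (P : MvPolynomial (Fin 3) (ℂ → ℂ)) (hPan : ∀ m, AnalyticAt ℂ (P.coeff m) x₁)
    (hP : ∀ᶠ x in 𝓝 x₁, 0 < (M x).im → pev P x (fun κ => EE κ (M x)) = 0) (m : Fin 3 →₀ ℕ) : ∀ᶠ x in 𝓝 x₁, P.coeff m x = 0 := by
  have e1 : ∀ᶠ x in 𝓝 x₁, AnalyticAt ℂ M x := hM.eventually_analyticAt
  have e2' : ∀ᶠ x in 𝓝 x₁, deriv M x ≠ 0 := hM.deriv.continuousAt.eventually_ne hM'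
  have e3 : ∀ᶠ x in 𝓝 x₁, ∀ n ∈ P.support, AnalyticAt ℂ (P.coeff n) x := by
    rw [Filter.eventually_all_finset]
    exact fun n _ => (hPan n).eventually_analyticAt
  have e4' : ∀ᶠ x in 𝓝 x₁, ∀ᶠ y in 𝓝 x, 0 < (M y).im → pev P y (fun κ => EE κ (M y)) = 0 :=
    eventually_eventually_nhds.mpr hP
  obtain ⟨ε, hε, hball⟩ := Metric.eventually_nhds_iff_ball.mp (e1.and (e2'.and (e3.and e4')))
  have hcoef : ∀ y ∈ Metric.ball x₁ ε, ∀ n, AnalyticAt ℂ (P.coeff n) y := by
    intro y hy n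
    by_cases hn : n ∈ P.support
    · exact (hball y hy).2.2.1 n hn
    · have : P.coeff n = fun _ => (0 : ℂ) := by
        rw [MvPolynomial.notMem_support_iff] at hn
        rw [hn]; rfl
      rw [this]
      exact analyticAt_const
  obtain ⟨y, hy, q, hq⟩ := rational_near M x₁ hM hM' h0 (Metric.ball x₁ ε) (Metric.ball_mem_nhds _ hε)
  have hby := hball y hy
  have hz := cusp_gen M y hby.1 hby.2.1 q hq P (hcoef y hy) hby.2.2.2 m
  have hon : AnalyticOnNhd ℂ (P.coeff m) (Metric.ball x₁ ε) := fun z hz => hcoef z hz m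
  have hzero := hon.eqOn_zero_of_preconnected_of_eventuallyEq_zero
    (convex_ball x₁ ε).isPreconnected hy hz
  filter_upwards [Metric.ball_mem_nhds x₁ hε] with z hz
  exact hzero hz

end Pool.Agent.MSD
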