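import Pool.Agent.Lib.MP_f58a57_nt.H00_Defs

/-! # H36: evaluating a part of the variables (MP_f58a57_nt) -/

open Complex ModularForm EisensteinSeries Filter
open UpperHalfPlane hiding I
open scoped Topology MatrixGroups Polynomial

noncomputable section

namespace Pool.Agent.MSD

theorem h36_monomial {R S₁ S₂ : Type} [CommRing R] (u : S₁ ⊕ S₂ →₀ ℕ) (r : R) :
    MvPolynomial.sumAlgEquiv R S₁ S₂ (MvPolynomial.monomial u r) =
      MvPolynomial.monomial (Finsupp.sumFinsuppAddEquivProdFinsupp u).1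
        (MvPolynomial.monomial (Finsupp.sumFinsuppAddEquivProdFinsupp u).2 r) := by
  unfold MvPolynomial.sumAlgEquiv
  rw [AlgEquiv.trans_apply]
  have h1 : (AddMonoidAlgebra.domCongr R R Finsupp.sumFinsuppAddEquivProdFinsupp)
      (MvPolynomial.monomial u r) =
    AddMonoidAlgebra.single (Finsupp.sumFinsuppAddEquivProdFinsupp u) r := by
    simp [MvPolynomial.monomial]
  rw [h1]
  exact AddMonoidAlgebra.curryAlgEquiv_single _ _ _

theorem h36_coeff {R S₁ S₂ : Type} [CommRing R] (Q : MvPolynomial (S₁ ⊕ S₂) R) (m : S₁ →₀ ℕ)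
    (n : S₂ →₀ ℕ) : ((MvPolynomial.sumAlgEquiv R S₁ S₂ Q).coeff m).coeff n =
      Q.coeff (Finsupp.sumFinsuppAddEquivProdFinsupp.symm (m, n)) := by
  classical
  induction Q using MvPolynomial.induction_on' with
  | monomial u r =>
    rw [h36_monomial, MvPolynomial.coeff_monomial, MvPolynomial.coeff_monomial]
    by_cases h : u = Finsupp.sumFinsuppAddEquivProdFinsupp.symm (m, n)
    · have h2 : Finsupp.sumFinsuppAddEquivProdFinsupp u = (m, n) := by rw [h]; simp
      rw [if_pos h, h2]; simp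
    · rw [if_neg h]
      have h2 : Finsupp.sumFinsuppAddEquivProdFinsupp u ≠ (m, n) := by
        intro h3; apply h; rw [← h3]; simp
      by_cases h3 : (Finsupp.sumFinsuppAddEquivProdFinsupp u).1 = m
      · rw [if_pos h3, MvPolynomial.coeff_monomial, if_neg]
        intro h4
        exact h2 (Prod.ext h3 h4)
      · rw [if_neg h3]; simp
  | add p q hp hq =>
    rw [map_add, MvPolynomial.coeff_add, MvPolynomial.coeff_add, MvPolynomial.coeff_add, hp, hq]

theorem h36_eval {σ : Type} (y : σ → ℂ → ℂ) (a : MvPolynomial σ (ℂ → ℂ)) (x : ℂ) :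
    (MvPolynomial.eval y a) x = pev a x (fun q => y q x) := by
  have h1 : (Pi.evalRingHom (fun _ : ℂ => ℂ) x).comp (MvPolynomial.eval y) =
      (MvPolynomial.eval (fun q => y q x)).comp
        (MvPolynomial.map (Pi.evalRingHom (fun _ : ℂ => ℂ) x)) := by
    apply MvPolynomial.ringHom_ext
    · intro r; simp
    · intro i; simp
  exact congrArg (fun g : MvPolynomial σ (ℂ → ℂ) →+* ℂ => g a) h1

/-- H36. Splitting the variables. Let `p` be a predicate on the index set. There is a polynomial `P₁` in the variables with `p` whose coefficients are the functions obtained by inserting the functions `y` in the variables without `p`;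
the coefficient of `m` is `x ↦ pev (P₂ m) x (y x)`, and if all coefficients of all `P₂ m` vanish near a point, so do those of `P`. PROOF. `P₂ m` collects the monomials of `P` whose restriction to `{p}` is `m`
(`MvPolynomial.sumAlgEquiv` after the equivalence `ι × Fin 3 ≃ ({p} × Fin 3) ⊕ ({¬p} × Fin 3)`, or directly by `Finsupp.subtypeDomain`). -/
theorem split_poly {ι : Type} [Finite ι] (p : ι → Prop) (P : MvPolynomial (ι × Fin 3) (ℂ → ℂ)) (y : {i // ¬ p i} × Fin 3 → ℂ → ℂ) :
    ∃ (P₁ : MvPolynomial ({i // p i} × Fin 3) (ℂ → ℂ)) (P₂ : ({i // p i} × Fin 3 →₀ ℕ) → MvPolynomial ({i // ¬ p i} × Fin 3) (ℂ → ℂ)),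
      (∀ m x, P₁.coeff m x = pev (P₂ m) x (fun q => y q x)) ∧
      (∀ (Y : ι × Fin 3 → ℂ) (x : ℂ), (∀ q : {i // ¬ p i} × Fin 3, Y (q.1.1, q.2) = y q x) →
        pev P₁ x (fun q => Y (q.1.1, q.2)) = pev P x Y) ∧
      (∀ m n, ∃ k, (P₂ m).coeff n = P.coeff k) ∧ (∀ k, ∃ m n, P.coeff k = (P₂ m).coeff n) := by
  classical
  set e : ι × Fin 3 ≃ ({i // p i} × Fin 3) ⊕ ({i // ¬ p i} × Fin 3) :=
    (Equiv.prodCongr (Equiv.sumCompl p).symm (Equiv.refl (Fin 3))).trans
      (Equiv.sumProdDistrib _ _ _) with he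
  have he1 : ∀ (i : ι) (κ : Fin 3) (hi : p i), e (i, κ) = Sum.inl (⟨i, hi⟩, κ) := by
    intro i κ hi
    simp [he, Equiv.sumCompl_symm_apply_of_pos hi]
  have he2 : ∀ (i : ι) (κ : Fin 3) (hi : ¬ p i), e (i, κ) = Sum.inr (⟨i, hi⟩, κ) := by
    intro i κ hi
    simp [he, Equiv.sumCompl_symm_apply_of_neg hi]
  set Q := MvPolynomial.sumAlgEquiv (ℂ → ℂ) ({i // p i} × Fin 3) ({i // ¬ p i} × Fin 3)
    (MvPolynomial.rename e P) with hQ
  refine ⟨MvPolynomial.map (MvPolynomial.eval y) Q, fun m => Q.coeff m, ?_, ?_, ?_, ?_⟩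
  · intro m x
    rw [MvPolynomial.coeff_map, h36_eval]
  · intro Y x hY
    have h1 : (MvPolynomial.eval (fun q : {i // p i} × Fin 3 => Y (q.1.1, q.2))).comp
        ((MvPolynomial.map (Pi.evalRingHom (fun _ : ℂ => ℂ) x)).comp
          ((MvPolynomial.map (MvPolynomial.eval y)).comp
            (((MvPolynomial.sumAlgEquiv (ℂ → ℂ) ({i // p i} × Fin 3) ({i // ¬ p i} × Fin 3) :
              MvPolynomial (({i // p i} × Fin 3) ⊕ ({i // ¬ p i} × Fin 3)) (ℂ → ℂ) →+*
                MvPolynomial ({i // p i} × Fin 3) (MvPolynomial ({i // ¬ p i} × Fin 3) (ℂ → ℂ)))).comp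
              (MvPolynomial.rename e : MvPolynomial (ι × Fin 3) (ℂ → ℂ) →ₐ[ℂ → ℂ] _).toRingHom))) =
        (MvPolynomial.eval Y).comp (MvPolynomial.map (Pi.evalRingHom (fun _ : ℂ => ℂ) x)) := by
      apply MvPolynomial.ringHom_ext
      · intro r
        simp
      · rintro ⟨i, κ⟩
        by_cases hi : p i
        · simp [he1 i κ hi]
        · have h2 := hY (⟨i, hi⟩, κ)
          simp only at h2
          simp [he2 i κ hi, h2]
    exact congrArg (fun g : MvPolynomial (ι × Fin 3) (ℂ → ℂ) →+* ℂ => g P) h1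
  · intro m n
    set d := Finsupp.sumFinsuppAddEquivProdFinsupp.symm (m, n) with hd
    refine ⟨d.mapDomain e.symm, ?_⟩
    rw [hQ, h36_coeff, ← hd, ← MvPolynomial.coeff_rename_mapDomain e e.injective P,
      ← Finsupp.mapDomain_comp]
    congr 1
    have : (e ∘ e.symm : _ → _) = id := by ext1 z; simp
    rw [this, Finsupp.mapDomain_id]
  · intro k
    refine ⟨(Finsupp.sumFinsuppAddEquivProdFinsupp (k.mapDomain e)).1,
      (Finsupp.sumFinsuppAddEquivProdFinsupp (k.mapDomain e)).2, ?_⟩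
    rw [hQ, h36_coeff, Prod.mk.eta, AddEquiv.symm_apply_apply,
      MvPolynomial.coeff_rename_mapDomain e e.injective]

/-- H36b. Analyticity of the evaluation. -/
theorem pev_analytic {σ : Type} (P : MvPolynomial σ (ℂ → ℂ)) (y : σ → ℂ → ℂ) (x : ℂ) (hP : ∀ m, AnalyticAt ℂ (P.coeff m) x)
    (hy : ∀ i, AnalyticAt ℂ (y i) x) : AnalyticAt ℂ (fun x => pev P x (fun i => y i x)) x := by
  have h1 : (fun x => pev P x (fun i => y i x)) =
      fun x => ∑ m ∈ P.support, P.coeff m x * ∏ i ∈ m.support, y i x ^ m i := by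
    funext x
    unfold pev
    rw [MvPolynomial.eval_map, MvPolynomial.eval₂_eq]
    rfl
  rw [h1]
  apply Finset.analyticAt_fun_sum
  intro m _
  apply (hP m).fun_mul
  apply Finset.analyticAt_fun_prod
  intro i _
  exact (hy i).fun_pow _

end Pool.Agent.MSD
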