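import Pool.Agent.Lib.MP_f58a57_nt.H32_Exit
import Pool.Agent.Lib.MP_f58a57_nt.H33_Propagate
import Pool.Agent.Lib.MP_f58a57_nt.H35_ArcOne
import Pool.Agent.Lib.MP_f58a57_nt.H36_Split
import Pool.Agent.Lib.MP_f58a57_nt.A1_Basic

/-! # H37: independence when all arcs are different (MP_f58a57_nt) -/

open Complex ModularForm EisensteinSeries Filter
open UpperHalfPlane hiding I
open scoped Topology MatrixGroups Polynomial

noncomputable section

namespace Pool.Agent.MSD

lemma h37_EE_an (κ : Fin 3) {z : ℂ} (hz : 0 < z.im) : AnalyticAt ℂ (EE κ) z := by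
  have hopen : IsOpen {z : ℂ | 0 < z.im} := isOpen_lt continuous_const Complex.continuous_im
  have hn : {z : ℂ | 0 < z.im} ∈ 𝓝 z := hopen.mem_nhds hz
  have h2 := e2_diff.analyticAt hn
  have h4 := e4_diff.analyticAt hn
  have h6 := e6_diff.analyticAt hn
  fin_cases κ
  · exact h2
  · exact h4
  · exact h6

/-- renaming the variables by an equivalence -/
lemma h37_pev_rename {σ τ : Type} (e : σ ≃ τ) (P : MvPolynomial σ (ℂ → ℂ)) (x : ℂ) (y : τ → ℂ) :
    pev (MvPolynomial.rename e P) x y = pev P x (fun s => y (e s)) := by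
  unfold pev
  rw [MvPolynomial.map_rename, MvPolynomial.eval_rename]
  rfl

lemma h37_coeff_rename {σ τ : Type} (e : σ ≃ τ) (P : MvPolynomial σ (ℂ → ℂ)) (m : σ →₀ ℕ) :
    (MvPolynomial.rename e P).coeff (m.mapDomain e) = P.coeff m :=
  MvPolynomial.coeff_rename_mapDomain _ e.injective _ _

lemma h37_coeff_rename' {σ τ : Type} (e : σ ≃ τ) (P : MvPolynomial σ (ℂ → ℂ)) (m : τ →₀ ℕ) :
    (MvPolynomial.rename e P).coeff m = P.coeff (m.mapDomain e.symm) := by
  rw [← h37_coeff_rename e]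
  congr 1
  rw [← Finsupp.mapDomain_comp]
  simp

lemma h37_aux (Q : Set ℂ) (hQ : IsOpen Q) (hQc : Convex ℝ Q) (x₀ : ℂ) (hx₀ : x₀ ∈ Q)
    (y₀ : ℂ) (hy₀ : y₀ ∈ Q) (n : ℕ) : ∀ {ι : Type} [Finite ι] (_ : Nat.card ι = n) (M : ι → ℂ → ℂ)
    (_ : ∀ i, AnalyticOnNhd ℂ (M i) Q) (_ : ∀ i, 0 < (M i x₀).im) (_ : ∀ i, (M i y₀).im < 0)
    (_ : ∀ i j, i ≠ j → ∀ x ∈ Q, (M i x).im = 0 → (M j x).im = 0 → ¬ SameArc (M i) (M j) x)
    (P : MvPolynomial (ι × Fin 3) (ℂ → ℂ)) (_ : ∀ m, AnalyticOnNhd ℂ (P.coeff m) Q)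
    (_ : ∀ᶠ x in 𝓝 x₀, pev P x (fun p => EE p.2 (M p.1 x)) = 0) (m : ι × Fin 3 →₀ ℕ),
    ∀ᶠ x in 𝓝 x₀, P.coeff m x = 0 := by
  induction n using Nat.strong_induction_on with
  | _ n ih =>
    intro ι _ hcard M hM hpos hneg hdist P hPan hP m
    rcases isEmpty_or_nonempty ι with hemp | ⟨⟨j₀⟩⟩
    · -- no functions
      filter_upwards [hP] with x hx
      have h1 : P = MvPolynomial.C (P.coeff m) := by
        ext1 k
        have : k = m := Subsingleton.elim _ _
        rw [this]
        have h0 : (0 : ι × Fin 3 →₀ ℕ) = m := Subsingleton.elim _ _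
        rw [← h0]
        simp
      rw [h1] at hx
      simpa [pev] using hx
    · classical
      obtain ⟨x₁, hx₁, hne, hseg, hsegpos, hge, ⟨i₀, hi₀⟩, hder, hsame⟩ :=
        exit_gen Q hQ hQc ∅ Set.finite_empty M (by simpa using hM) x₀ (by simpa using hx₀) hpos y₀
          (by simpa using hy₀) j₀ (hneg j₀)
      rw [Set.sdiff_empty] at hx₁ hseg
      have hother : ∀ i, i ≠ i₀ → 0 < (M i x₁).im := by
        intro i hi
        refine lt_of_le_of_ne (hge i) fun h => ?_
        exact hdist i i₀ hi x₁ hx₁ h.symm hi₀ (hsame i i₀ h.symm hi₀)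
      have hsegpos' : ∀ x ∈ segment ℝ x₀ x₁, ∀ i, i ≠ i₀ → 0 < (M i x).im := by
        intro x hx i hi
        by_cases h : x = x₁
        · rw [h]; exact hother i hi
        · exact hsegpos x hx h i
      obtain ⟨P₁, P₂, hc, hsp, hex1, hex2⟩ := split_poly (fun i => i = i₀) P
        (fun (q : {i // ¬ i = i₀} × Fin 3) x => EE q.2 (M q.1 x))
      -- analyticity of the coefficients of `P₁`
      have hP2an : ∀ m, ∀ k, AnalyticOnNhd ℂ ((P₂ m).coeff k) Q := by
        intro m k
        obtain ⟨k', hk'⟩ := hex1 m k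
        rw [hk']
        exact hPan k'
      have hfan : ∀ m, ∀ x ∈ Q, (∀ i, i ≠ i₀ → 0 < (M i x).im) → AnalyticAt ℂ
          (fun x => pev (P₂ m) x (fun q : {i // ¬ i = i₀} × Fin 3 => EE q.2 (M q.1 x))) x := by
        intro m x hx hi
        refine pev_analytic (P₂ m) (fun q x => EE q.2 (M q.1 x)) x (fun k => hP2an m k x hx) ?_
        intro q
        exact (h37_EE_an q.2 (hi q.1 q.1.2)).comp (hM q.1 x hx)
      -- the relation is propagated
      have hGopen : IsOpen (Q ∩ ⋂ i, {x | x ∈ Q → 0 < (M i x).im}) := by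
        rw [isOpen_iff_mem_nhds]
        intro x hx
        have h1 : ∀ᶠ y in 𝓝 x, ∀ i, 0 < (M i y).im := by
          refine eventually_all.2 fun i => ?_
          have h2 : 0 < (M i x).im := Set.mem_iInter.1 hx.2 i hx.1
          have h3 := (Complex.continuous_im.continuousAt (x := M i x)).comp (hM i x hx.1).continuousAt
          exact h3.eventually (lt_mem_nhds h2)
        filter_upwards [h1, hQ.mem_nhds hx.1] with y hy hyQ
        exact ⟨hyQ, Set.mem_iInter.2 fun i _ => hy i⟩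
      set G : Set ℂ := Q ∩ ⋂ i, {x | x ∈ Q → 0 < (M i x).im} with hG
      have hGmem : ∀ x, x ∈ G ↔ x ∈ Q ∧ ∀ i, 0 < (M i x).im := by
        intro x
        constructor
        · intro hx
          exact ⟨hx.1, fun i => Set.mem_iInter.1 hx.2 i hx.1⟩
        · intro hx
          exact ⟨hx.1, Set.mem_iInter.2 fun i _ => hx.2 i⟩
      have hprop : ∀ᶠ x in 𝓝 x₁, 0 < (M i₀ x).im → pev P x (fun p => EE p.2 (M p.1 x)) = 0 := by
        refine propagate (fun x => pev P x (fun p => EE p.2 (M p.1 x))) (M i₀) x₀ x₁ hne.symm G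
          hGopen ?_ ?_ (hM i₀ x₁ hx₁) (hder i₀ hi₀) hi₀ ?_ hP
        · intro x hx
          rw [hGmem] at hx
          refine pev_analytic P (fun p x => EE p.2 (M p.1 x)) x (fun k => hPan k x hx.1) ?_
          intro q
          exact (h37_EE_an q.2 (hx.2 q.1)).comp (hM q.1 x hx.1)
        · intro x hx hxne
          exact ⟨(hGmem x).2 ⟨hseg hx, hsegpos x hx hxne⟩, hsegpos x hx hxne i₀⟩
        · have h1 : ∀ᶠ y in 𝓝 x₁, ∀ i, i ≠ i₀ → 0 < (M i y).im := by
            refine eventually_all.2 fun i => ?_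
            by_cases hi : i = i₀
            · exact Eventually.of_forall fun y h => absurd hi h
            · have h3 := (Complex.continuous_im.continuousAt (x := M i x₁)).comp
                (hM i x₁ hx₁).continuousAt
              filter_upwards [h3.eventually (lt_mem_nhds (hother i hi))] with y hy _
              exact hy
          filter_upwards [h1, hQ.mem_nhds hx₁] with y hy hyQ hpos0
          rw [hGmem]
          refine ⟨hyQ, fun i => ?_⟩
          by_cases hi : i = i₀
          · rw [hi]; exact hpos0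
          · exact hy i hi
      -- elimination of `M i₀`
      let e : {i // i = i₀} × Fin 3 ≃ Fin 3 := Equiv.uniqueProd (Fin 3) {i // i = i₀}
      have he : ∀ q : {i // i = i₀} × Fin 3, e q = q.2 := fun q => rfl
      have hP1 : ∀ k : Fin 3 →₀ ℕ, ∀ᶠ x in 𝓝 x₁, (MvPolynomial.rename e P₁).coeff k x = 0 := by
        refine arc_one (M i₀) x₁ (hM i₀ x₁ hx₁) (hder i₀ hi₀) hi₀ _ ?_ ?_
        · intro k
          rw [h37_coeff_rename']
          have h1 := hfan (k.mapDomain e.symm) x₁ hx₁ hother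
          refine h1.congr ?_
          exact Eventually.of_forall fun x => (hc _ x).symm
        · filter_upwards [hprop] with x hx hx0
          rw [h37_pev_rename]
          have h2 := hsp (fun p => EE p.2 (M p.1 x)) x (fun q => rfl)
          rw [← hx hx0, ← h2]
          congr 1
          funext q
          rw [he, q.1.2]
      -- the coefficients of `P₁` vanish near `x₀`
      have hP2 : ∀ k, ∀ᶠ x in 𝓝 x₀,
          pev (P₂ k) x (fun q : {i // ¬ i = i₀} × Fin 3 => EE q.2 (M q.1 x)) = 0 := by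
        intro k
        refine propagate_back _ x₀ x₁ (fun x hx => hfan k x (hseg hx) (hsegpos' x hx)) ?_
        have h1 := hP1 (k.mapDomain e)
        rw [h37_coeff_rename] at h1
        filter_upwards [h1] with x hx
        rw [← hc]
        exact hx
      -- induction
      obtain ⟨m', n', hmn⟩ := hex2 m
      rw [hmn]
      have hlt : Nat.card {i // ¬ i = i₀} < n := by
        rw [← hcard]
        exact Finite.card_subtype_lt (p := fun i => ¬ i = i₀) (x := i₀) (by simp)
      exact ih _ hlt rfl (fun i : {i // ¬ i = i₀} => M i) (fun i => hM i) (fun i => hpos i)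
        (fun i => hneg i) (fun i j hij x hx h1 h2 => hdist i j (fun h => hij (Subtype.ext h)) x hx h1 h2)
        (P₂ m') (fun k => hP2an m' k) (hP2 m') n'

/-- H37. PROOF. Induction on the number of functions. No functions: `pev P x y = P.coeff 0 x`. Otherwise `exit_gen` on `Q` (`F = ∅`) from `x₀` towards `y₀` gives `x₁`; by `hdist` exactly one `i₀` has `(M i₀ x₁).im = 0`. Split `P` by `p i = (i = i₀)` (`split_poly`) with
`y = EE κ (M i ·)`, `i ≠ i₀`: the coefficients of `P₁` are analytic at all points of `Q` where `Im M i > 0`, `i ≠ i₀`. `propagate` (for `M = M i₀`, `G = {x ∈ Q | ∀ i, 0 < (M i x).im}`) gives the relation near `x₁` on the side `Im M i₀ > 0`; `arc_one` (after reindexing `{i // i = i₀} × Fin 3 ≃ Fin 3`)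
gives that the coefficients `pev (P₂ m) x (y x)` vanish near `x₁`, by `propagate_back` near `x₀`; apply the induction hypothesis to each `P₂ m` and the functions `i ≠ i₀`. -/
theorem indep_distinct {ι : Type} [Finite ι] (Q : Set ℂ) (hQ : IsOpen Q) (hQc : Convex ℝ Q) (M : ι → ℂ → ℂ) (hM : ∀ i, AnalyticOnNhd ℂ (M i) Q)
    (x₀ : ℂ) (hx₀ : x₀ ∈ Q) (hpos : ∀ i, 0 < (M i x₀).im) (y₀ : ℂ) (hy₀ : y₀ ∈ Q) (hneg : ∀ i, (M i y₀).im < 0)
    (hdist : ∀ i j, i ≠ j → ∀ x ∈ Q, (M i x).im = 0 → (M j x).im = 0 → ¬ SameArc (M i) (M j) x)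
    (P : MvPolynomial (ι × Fin 3) (ℂ → ℂ)) (hPan : ∀ m, AnalyticOnNhd ℂ (P.coeff m) Q)
    (hP : ∀ᶠ x in 𝓝 x₀, pev P x (fun p => EE p.2 (M p.1 x)) = 0) (m : ι × Fin 3 →₀ ℕ) : ∀ᶠ x in 𝓝 x₀, P.coeff m x = 0 := by
  exact h37_aux Q hQ hQc x₀ hx₀ y₀ hy₀ (Nat.card ι) rfl M hM hpos hneg hdist P hPan hP m

end Pool.Agent.MSD
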