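import Pool.Agent.Lib.MP_f58a57_nt.H00_Defs

/-! # H38a: affine substitutions (MP_f58a57_nt) -/

open Complex ModularForm EisensteinSeries Filter
open UpperHalfPlane hiding I
open scoped Topology MatrixGroups Polynomial

noncomputable section

namespace Pool.Agent.MSD

/-- the subring of the polynomials whose coefficients are analytic at `x` -/
def h38a_ring (σ : Type) (x : ℂ) : Subring (MvPolynomial σ (ℂ → ℂ)) where
  carrier := {q | ∀ m, AnalyticAt ℂ (q.coeff m) x}
  zero_mem' := fun m => by
    rw [MvPolynomial.coeff_zero]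
    exact analyticAt_const
  one_mem' := fun m => by
    classical
    rw [MvPolynomial.coeff_one]
    split_ifs
    · exact analyticAt_const
    · exact analyticAt_const
  add_mem' := fun {p q} hp hq m => by
    rw [MvPolynomial.coeff_add]
    exact (hp m).add (hq m)
  neg_mem' := fun {p} hp m => by
    rw [MvPolynomial.coeff_neg]
    exact (hp m).neg
  mul_mem' := fun {p q} hp hq m => by
    classical
    rw [MvPolynomial.coeff_mul]
    exact Finset.sum_induction _ (fun f : ℂ → ℂ => AnalyticAt ℂ f x) (fun _ _ ha hb => ha.add hb)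
      analyticAt_const (fun i _ => (hp _).mul (hq _))

theorem h38a_C {σ : Type} {x : ℂ} {a : ℂ → ℂ} (ha : AnalyticAt ℂ a x) :
    (MvPolynomial.C a : MvPolynomial σ (ℂ → ℂ)) ∈ h38a_ring σ x := by
  classical
  intro m
  rw [MvPolynomial.coeff_C]
  split_ifs
  · exact ha
  · exact analyticAt_const

theorem h38a_X {σ : Type} {x : ℂ} (i : σ) :
    (MvPolynomial.X i : MvPolynomial σ (ℂ → ℂ)) ∈ h38a_ring σ x := by
  classical
  intro m
  rw [MvPolynomial.coeff_X']
  split_ifs
  · exact analyticAt_const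
  · exact analyticAt_const

/-- H38a. Invertible affine substitutions: if `Q` arises from `P` by `Y_ν ↦ A_ν Y_ν + B_ν` with functions `A_ν, B_ν` of `x`, and at the point `x` all `A_ν ≠ 0`, then: all coefficients of `Q` vanish at `x` only if all coefficients of `P` vanish at `x`. -/
theorem affine_sub {σ : Type} [Finite σ] (P : MvPolynomial σ (ℂ → ℂ)) (A B : σ → ℂ → ℂ) :
    ∃ Q : MvPolynomial σ (ℂ → ℂ), (∀ x y, pev Q x y = pev P x (fun ν => A ν x * y ν + B ν x)) ∧
      (∀ x, (∀ ν, A ν x ≠ 0) → (∀ m, Q.coeff m x = 0) → ∀ m, P.coeff m x = 0) ∧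
      (∀ x, (∀ m, AnalyticAt ℂ (P.coeff m) x) → (∀ ν, AnalyticAt ℂ (A ν) x) → (∀ ν, AnalyticAt ℂ (B ν) x) → ∀ m, AnalyticAt ℂ (Q.coeff m) x) := by
  classical
  let f : σ → MvPolynomial σ (ℂ → ℂ) := fun ν =>
    MvPolynomial.C (A ν) * MvPolynomial.X ν + MvPolynomial.C (B ν)
  refine ⟨MvPolynomial.bind₁ f P, ?_, ?_, ?_⟩
  · intro x y
    have h : ((MvPolynomial.eval y).comp (MvPolynomial.map (Pi.evalRingHom (fun _ : ℂ => ℂ) x))).comp
        (MvPolynomial.bind₁ f).toRingHom =
        (MvPolynomial.eval (fun ν => A ν x * y ν + B ν x)).comp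
          (MvPolynomial.map (Pi.evalRingHom (fun _ : ℂ => ℂ) x)) := by
      apply MvPolynomial.ringHom_ext
      · intro a
        simp
      · intro i
        simp [f]
    exact RingHom.congr_fun h P
  · intro x hA hQ m
    let g : σ → MvPolynomial σ ℂ := fun ν =>
      MvPolynomial.C (A ν x) * MvPolynomial.X ν + MvPolynomial.C (B ν x)
    let g' : σ → MvPolynomial σ ℂ := fun ν =>
      MvPolynomial.C (A ν x)⁻¹ * (MvPolynomial.X ν - MvPolynomial.C (B ν x))
    have h1 : MvPolynomial.map (Pi.evalRingHom (fun _ : ℂ => ℂ) x) (MvPolynomial.bind₁ f P) = 0 := by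
      ext m
      rw [MvPolynomial.coeff_map, MvPolynomial.coeff_zero]
      exact hQ m
    have h2 : (MvPolynomial.bind₁ g') ((MvPolynomial.bind₁ g)
        (MvPolynomial.map (Pi.evalRingHom (fun _ : ℂ => ℂ) x) P)) =
        MvPolynomial.map (Pi.evalRingHom (fun _ : ℂ => ℂ) x) P := by
      have h : ((MvPolynomial.bind₁ g').comp (MvPolynomial.bind₁ g)) =
          AlgHom.id ℂ (MvPolynomial σ ℂ) := by
        apply MvPolynomial.algHom_ext
        intro i
        simp only [AlgHom.comp_apply, MvPolynomial.bind₁_X_right, g, map_add, map_mul,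
          MvPolynomial.bind₁_C_right, g', AlgHom.id_apply]
        rw [← mul_assoc, ← MvPolynomial.C_mul, mul_inv_cancel₀ (hA i), MvPolynomial.C_1, one_mul]
        ring
      exact AlgHom.congr_fun h _
    have h3 : MvPolynomial.map (Pi.evalRingHom (fun _ : ℂ => ℂ) x) (MvPolynomial.bind₁ f P) =
        (MvPolynomial.bind₁ g) (MvPolynomial.map (Pi.evalRingHom (fun _ : ℂ => ℂ) x) P) := by
      rw [MvPolynomial.map_bind₁]
      congr 2
      funext ν
      simp [f, g]
    rw [← h3, h1, map_zero] at h2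
    have h4 := congrArg (MvPolynomial.coeff m) h2.symm
    rw [MvPolynomial.coeff_map, MvPolynomial.coeff_zero] at h4
    exact h4
  · intro x hP hA hB
    have h1 : MvPolynomial.bind₁ f P ∈ h38a_ring σ x := by
      have e : MvPolynomial.bind₁ f P = ∑ d ∈ P.support, MvPolynomial.C (P.coeff d) *
          ∏ i ∈ d.support, f i ^ d i := by
        rw [MvPolynomial.bind₁, MvPolynomial.aeval_def, MvPolynomial.eval₂_eq]
        rfl
      rw [e]
      refine Subring.sum_mem _ (fun d _ => Subring.mul_mem _ (h38a_C (hP d)) ?_)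
      refine Subring.prod_mem _ (fun i _ => Subring.pow_mem _ ?_ _)
      exact Subring.add_mem _ (Subring.mul_mem _ (h38a_C (hA i)) (h38a_X i)) (h38a_C (hB i))
    exact h1

end Pool.Agent.MSD
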