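import Pool.Agent.Lib.MP_f58a57_nt.H23_TwoVar
import Pool.Agent.Lib.MP_f58a57_nt.H24_Distinct
import Pool.Agent.Lib.MP_f58a57_nt.H37_IndepDistinct
import Pool.Agent.Lib.MP_f58a57_nt.H38a_Affine

/-! # H38: elimination at a common hyperbolic fixed point (MP_f58a57_nt) -/

open Complex ModularForm EisensteinSeries Filter
open UpperHalfPlane hiding I
open scoped Topology MatrixGroups Polynomial

noncomputable section

namespace Pool.Agent.MSD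

theorem h38_hE (ρ ρ' : ℝ) (κ : Fin 3) (V δ : ℂ) :
    hE ρ ρ' κ V δ = (δ⁻¹ * ha V δ) ^ (κ.val + 1) * EE κ (hv ρ ρ' V) +
      (if κ = 0 then δ⁻¹ * hb ρ ρ' V δ else 0) := by
  fin_cases κ
  · change δ⁻¹ * (ha V δ * e2 (hv ρ ρ' V) + hb ρ ρ' V δ) = (δ⁻¹ * ha V δ) ^ (0 + 1) * e2 (hv ρ ρ' V) +
      (if (0 : Fin 3) = 0 then δ⁻¹ * hb ρ ρ' V δ else 0)
    rw [if_pos rfl]; ring
  · change δ⁻¹ ^ 2 * ha V δ ^ 2 * e4 (hv ρ ρ' V) = (δ⁻¹ * ha V δ) ^ (1 + 1) * e4 (hv ρ ρ' V) +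
      (if (1 : Fin 3) = 0 then δ⁻¹ * hb ρ ρ' V δ else 0)
    rw [if_neg (by decide)]; ring
  · change δ⁻¹ ^ 3 * ha V δ ^ 3 * e6 (hv ρ ρ' V) = (δ⁻¹ * ha V δ) ^ (2 + 1) * e6 (hv ρ ρ' V) +
      (if (2 : Fin 3) = 0 then δ⁻¹ * hb ρ ρ' V δ else 0)
    rw [if_neg (by decide)]; ring

/-- precomposition as a ring homomorphism -/
def h38_pre (φ : ℂ → ℂ) : (ℂ → ℂ) →+* (ℂ → ℂ) :=
  RingHom.pi (fun V => Pi.evalRingHom (fun _ : ℂ => ℂ) (φ V))

theorem h38_pre_apply (φ f : ℂ → ℂ) (V : ℂ) : h38_pre φ f V = f (φ V) := rfl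

theorem h38_pev_map {σ : Type} (P : MvPolynomial σ (ℂ → ℂ)) (φ : ℂ → ℂ) (V : ℂ) (y : σ → ℂ) :
    pev (MvPolynomial.map (h38_pre φ) P) V y = pev P (φ V) y := by
  unfold pev
  rw [MvPolynomial.map_map]
  rfl

theorem h38_coeff_map {σ : Type} (P : MvPolynomial σ (ℂ → ℂ)) (φ : ℂ → ℂ) (V : ℂ) (m : σ →₀ ℕ) :
    (MvPolynomial.map (h38_pre φ) P).coeff m V = P.coeff m (φ V) := by
  rw [MvPolynomial.coeff_map]
  rfl

/-- all coefficients at once -/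
theorem h38_all {σ : Type} (P : MvPolynomial σ (ℂ → ℂ)) (x : ℂ) (h : ∀ m, ∀ᶠ y in 𝓝 x, P.coeff m y = 0) :
    ∀ᶠ y in 𝓝 x, ∀ m, P.coeff m y = 0 := by
  have h1 : ∀ᶠ y in 𝓝 x, ∀ m ∈ P.support, P.coeff m y = 0 := by
    rw [Filter.eventually_all_finset]
    exact fun m _ => h m
  filter_upwards [h1] with y hy m
  by_cases hm : m ∈ P.support
  · exact hy m hm
  · rw [MvPolynomial.notMem_support_iff.1 hm]; rfl

theorem h38_an {σ : Type} (P : MvPolynomial σ (ℂ → ℂ)) (x : ℂ) (h : ∀ m, AnalyticAt ℂ (P.coeff m) x) :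
    ∀ᶠ y in 𝓝 x, ∀ m, AnalyticAt ℂ (P.coeff m) y := by
  have h1 : ∀ᶠ y in 𝓝 x, ∀ m ∈ P.support, AnalyticAt ℂ (P.coeff m) y := by
    rw [Filter.eventually_all_finset]
    exact fun m _ => (h m).eventually_analyticAt
  filter_upwards [h1] with y hy m
  by_cases hm : m ∈ P.support
  · exact hy m hm
  · rw [MvPolynomial.notMem_support_iff.1 hm]; exact analyticAt_const

/-- no variables -/
theorem h38_empty {σ : Type} [IsEmpty σ] (P : MvPolynomial σ (ℂ → ℂ)) (x : ℂ) (y : σ → ℂ) (m : σ →₀ ℕ) :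
    pev P x y = P.coeff m x := by
  have hm : m = 0 := Subsingleton.elim _ _
  subst hm
  unfold pev
  rw [MvPolynomial.eq_C_of_isEmpty P]
  simp only [MvPolynomial.map_C, MvPolynomial.eval_C, MvPolynomial.coeff_C, if_true]
  rfl

/-- sign of the imaginary part of the coordinate -/
theorem h38_im (ρ ρ' ε : ℝ) (V W : ℂ) (h : ‖V * W‖ < 1 / 2) (hε : ε = 1 ∨ ε = -1) :
    (ε : ℂ) * V * W ≠ 1 ∧ ‖(ε : ℂ) * V * W‖ < 1 / 2 ∧
    (hv ρ ρ' ((ε : ℂ) * V * W)).im = (ε * (ρ - ρ')) * (V * W).im / ‖1 - (ε : ℂ) * V * W‖ ^ 2 ∧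
    0 < ‖1 - (ε : ℂ) * V * W‖ ^ 2 := by
  have h1 : ‖(ε : ℂ) * V * W‖ < 1 / 2 := by
    rw [mul_assoc, norm_mul, Complex.norm_real]
    rcases hε with h' | h' <;> rw [h'] <;> simpa using h
  have h2 : (ε : ℂ) * V * W ≠ 1 := by
    intro hc
    rw [hc, norm_one] at h1
    norm_num at h1
  refine ⟨h2, h1, ?_, ?_⟩
  · rw [hv_im ρ ρ' _ h2, mul_assoc (ε : ℂ) V W, Complex.im_ofReal_mul]
    ring
  · have : 1 - (ε : ℂ) * V * W ≠ 0 := sub_ne_zero.2 (Ne.symm h2)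
    positivity

theorem h38_sign {c x n : ℝ} (hc : 0 < c) (hn : 0 < n) : (c * x / n = 0 ↔ x = 0) ∧ (0 < x → 0 < c * x / n) ∧
    (x < 0 → c * x / n < 0) := by
  refine ⟨?_, fun hx => by positivity, fun hx => ?_⟩
  · rw [div_eq_zero_iff, mul_eq_zero]
    constructor
    · rintro ((h | h) | h)
      · exact absurd h hc.ne'
      · exact h
      · exact absurd h hn.ne'
    · intro h; exact Or.inl (Or.inr h)
  · exact div_neg_of_neg_of_pos (mul_neg_of_pos_of_neg hc hx) hn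

/-- H38b. PROOF. If `S` is empty use `pev`: `P.coeff m` for `m = 0`. Let `ρ i = a i + b i √D`, `ρ' i = a i - b i √D`. Take `Λ` from `automorph`, `r, ξ, Ψ, ε` from `hyp_coords`, `r₃` (minimum over the pairs) from `hyp_distinct`, `et, r₀` from `hyp_geom` (with `r` shrunk so that the coefficients of `P` are
analytic on `ξ(ball 0 r)`). `two_var` with `δ = t exp(i)`, `t = r₀/2`: for `V` near `iet` the relation `pev P (ξ(δV)) (hE ...) = 0`. On `Q = ball 0 (2et)` put `M i V = hv (ρ i) (ρ' i) (ε i V Ψ_i(δV))`; `Im M i` has the sign of `Im (V Ψ_i(δV))` (`hv_im`, `ε i (ρ i - ρ' i) > 0`). `hE` is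
an affine function of `EE κ (M i V)` with factor `δ⁻¹ ha`, `δ⁻² ha²`, `δ⁻³ ha³ ≠ 0`, analytic on `Q`. The arcs are pairwise different: otherwise `hyp_distinct` gives `W Ψ_j = κ W Ψ_i` near `0`, which contradicts `hrel` (translate with `hcoord`). By `affine_sub` and `indep_distinct` (applied to the polynomial with coefficients
`V ↦ P.coeff m (ξ(δV))`) all coefficients `P.coeff m (ξ (δ V))` vanish for `V` near `iet`, so for all `V ∈ Q` (analytic on the disc), so `P.coeff m` vanishes near `x₁ = ξ 0` (`ξ` maps neighbourhoods of `0` onto neighbourhoods of `x₁`). -/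
theorem hyp_elim {S : Type} [Finite S] (D : ℕ) (hD : ¬ IsSquare D) (R : S → ℂ → ℂ) (x₁ : ℂ) (hR : ∀ i, AnalyticAt ℂ (R i) x₁)
    (hder : ∀ i, deriv (R i) x₁ ≠ 0) (a b : S → ℚ) (hb : ∀ i, b i ≠ 0) (hval : ∀ i, R i x₁ = ((a i + b i * Real.sqrt D : ℝ) : ℂ))
    (harc : ∀ i j, SameArc (R i) (R j) x₁) (hside : ∀ i j, ∀ᶠ x in 𝓝 x₁, 0 < (R i x).im → 0 < (R j x).im)
    (hrel : ∀ i j, i ≠ j → ¬ ∃ κ : ℂ, ∀ᶠ x in 𝓝 x₁,
      (R j x - ((a j + b j * Real.sqrt D : ℝ) : ℂ)) * (R i x - ((a i - b i * Real.sqrt D : ℝ) : ℂ)) =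
        κ * ((R i x - ((a i + b i * Real.sqrt D : ℝ) : ℂ)) * (R j x - ((a j - b j * Real.sqrt D : ℝ) : ℂ))))
    (P : MvPolynomial (S × Fin 3) (ℂ → ℂ)) (hPan : ∀ m, AnalyticAt ℂ (P.coeff m) x₁)
    (hP : ∀ᶠ x in 𝓝 x₁, (∀ i, 0 < (R i x).im) → pev P x (fun p => EE p.2 (R p.1 x)) = 0) (m : S × Fin 3 →₀ ℕ) :
    ∀ᶠ x in 𝓝 x₁, P.coeff m x = 0 := by
  rcases isEmpty_or_nonempty S with hS | hS
  · have hne : IsEmpty (S × Fin 3) := inferInstance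
    filter_upwards [hP] with x hx
    rw [← h38_empty P x (fun p => EE p.2 (R p.1 x)) m]
    exact hx (fun i => isEmptyElim i)
  -- the fixed points
  have hsD : Real.sqrt D ≠ 0 := by
    intro h0
    rw [Real.sqrt_eq_zero (Nat.cast_nonneg D)] at h0
    have : D = 0 := by exact_mod_cast h0
    exact hD ⟨0, by rw [this]⟩
  obtain ⟨ρ, hρ⟩ : ∃ ρ : S → ℝ, ρ = fun i => a i + b i * Real.sqrt D := ⟨_, rfl⟩
  obtain ⟨ρ', hρ'⟩ : ∃ ρ' : S → ℝ, ρ' = fun i => a i - b i * Real.sqrt D := ⟨_, rfl⟩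
  have hρi : ∀ i, ρ i = a i + b i * Real.sqrt D := fun i => by rw [hρ]
  have hρi' : ∀ i, ρ' i = a i - b i * Real.sqrt D := fun i => by rw [hρ']
  have hne : ∀ i, ρ i ≠ ρ' i := by
    intro i h
    rw [hρi, hρi'] at h
    have h2 : (b i : ℝ) * Real.sqrt D = 0 := by linarith
    rcases mul_eq_zero.1 h2 with h3 | h3
    · exact hb i (by exact_mod_cast h3)
    · exact hsD h3
  obtain ⟨Λ, hΛ, haut⟩ := automorph D hD a b hb
  have haut' : ∀ (k : ℕ) (i : S), ∃ A B C E : ℤ, A * E - B * C = 1 ∧ (C : ℝ) * ρ i + E = Λ ^ k ∧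
      (C : ℝ) * ρ' i + E = (Λ ^ k)⁻¹ ∧ (A : ℝ) * ρ i + B = Λ ^ k * ρ i ∧ (A : ℝ) * ρ' i + B = (Λ ^ k)⁻¹ * ρ' i := by
    intro k i
    rw [hρi, hρi']
    exact haut k i
  have hval' : ∀ i, R i x₁ = ρ i := fun i => by rw [hval, hρi]
  obtain ⟨r, ξ, Ψ, ε, hr, hε, hξ, hξ0, -, hnb, hΨ, hΨ0, hre, hpos, hcoord, hsd⟩ :=
    hyp_coords R x₁ hR hder ρ ρ' hne hval' harc hside
  -- shrink r
  have hξc : ContinuousAt ξ 0 := (hξ 0 (Metric.mem_ball_self hr)).continuousAt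
  have hpa : ∀ᶠ W in 𝓝 (0 : ℂ), ∀ m, AnalyticAt ℂ (P.coeff m) (ξ W) := by
    have h1 := h38_an P x₁ hPan
    rw [← hξ0] at h1
    exact hξc.eventually h1
  obtain ⟨r₁, hr₁, hr₁a⟩ := Metric.eventually_nhds_iff_ball.1 hpa
  obtain ⟨r', hr'⟩ : ∃ r', r' = min r r₁ := ⟨_, rfl⟩
  have hr'0 : 0 < r' := by rw [hr']; exact lt_min hr hr₁
  have hr'r : r' ≤ r := by rw [hr']; exact min_le_left _ _
  have hr'r₁ : r' ≤ r₁ := by rw [hr']; exact min_le_right _ _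
  have hsub : Metric.ball (0 : ℂ) r' ⊆ Metric.ball 0 r := Metric.ball_subset_ball hr'r
  have hΨ00 : ∀ i, Ψ i 0 ≠ 0 := fun i => hΨ0 i 0 (Metric.mem_ball_self hr)
  -- r₃
  obtain ⟨r₃, hr₃, hdis⟩ : ∃ r₃ > (0 : ℝ), ∀ i j : S, ∀ t : ℝ, 0 < t → ∀ V : ℂ, t * ‖V‖ < r₃ →
      (V * Ψ i (t * Complex.exp I * V)).im = 0 →
      SameArc (fun V => V * Ψ i (t * Complex.exp I * V)) (fun V => V * Ψ j (t * Complex.exp I * V)) V →
      ∃ κ : ℂ, ∀ᶠ W in 𝓝 (0 : ℂ), W * Ψ j W = κ * (W * Ψ i W) := by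
    have h1 : ∀ i j : S, ∃ r₃ > (0 : ℝ), ∀ t : ℝ, 0 < t → ∀ V : ℂ, t * ‖V‖ < r₃ →
      (V * Ψ i (t * Complex.exp I * V)).im = 0 →
      SameArc (fun V => V * Ψ i (t * Complex.exp I * V)) (fun V => V * Ψ j (t * Complex.exp I * V)) V →
      ∃ κ : ℂ, ∀ᶠ W in 𝓝 (0 : ℂ), W * Ψ j W = κ * (W * Ψ i W) := fun i j =>
      hyp_distinct r hr (Ψ i) (Ψ j) (hΨ i) (hΨ j) (hre i) (hre j) (hΨ00 i) (hΨ00 j)
    choose g hg hg2 using h1
    have h2 : ∀ᶠ x in 𝓝[>] (0 : ℝ), ∀ i j : S, x < g i j := by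
      rw [Filter.eventually_all]
      intro i
      rw [Filter.eventually_all]
      intro j
      exact (gt_mem_nhds (hg i j)).filter_mono nhdsWithin_le_nhds
    obtain ⟨x, hx0, hx⟩ := (h2.and self_mem_nhdsWithin).exists
    exact ⟨x, hx, fun i j t ht V hV => hg2 i j t ht V (hV.trans (hx0 i j))⟩
  -- the domains
  obtain ⟨et, r₀, het, hr₀, hr₀1, hetr, hetr₃, hg1, hg2, hg3⟩ :=
    hyp_geom r' hr'0 Ψ (fun i => (hΨ i).mono hsub) (fun i u hu => hre i u (hu.trans_le hr'r)) hpos r₃ hr₃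
  have hPan' : ∀ m, ∀ W ∈ Metric.ball (0 : ℂ) (2 * et * r₀), AnalyticAt ℂ (P.coeff m) (ξ W) := by
    intro m W hW
    exact hr₁a W (Metric.ball_subset_ball (hetr.le.trans hr'r₁) hW) m
  have htwo := two_var R x₁ ρ ρ' hne Λ hΛ haut' r' hr'0 ξ Ψ ε hε (hξ.mono hsub) hξ0 (fun i => (hΨ i).mono hsub)
    (fun i W hW => hcoord i W (hsub hW)) (fun i W hW => hsd i W (hsub hW)) et r₀ het hr₀ hr₀1 hetr
    (fun δ hδ V hV i => (hg1 δ hδ V hV i).1) hg2 P hPan' hP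
  -- the parameter
  obtain ⟨t, ht⟩ : ∃ t : ℝ, t = r₀ / 2 := ⟨_, rfl⟩
  have ht0 : 0 < t := by rw [ht]; positivity
  have htr : t < r₀ := by rw [ht]; linarith
  obtain ⟨δ, hδ⟩ : ∃ δ : ℂ, δ = t * Complex.exp I := ⟨_, rfl⟩
  have hδn : ‖δ‖ = t := by
    have h1 : ‖Complex.exp I‖ = 1 := by simpa using Complex.norm_exp_ofReal_mul_I 1
    rw [hδ, norm_mul, Complex.norm_real, h1, mul_one, Real.norm_eq_abs, abs_of_pos ht0]
  have hδr : ‖δ‖ < r₀ := by rw [hδn]; exact htr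
  have hδ0 : δ ≠ 0 := by
    intro h0
    rw [h0, norm_zero] at hδn
    exact ht0.ne hδn
  have hδ1 : ‖δ‖ < 1 := hδr.trans hr₀1
  -- facts on the disc
  obtain ⟨Q, hQ⟩ : ∃ Q : Set ℂ, Q = Metric.ball 0 (2 * et) := ⟨_, rfl⟩
  have hQm : ∀ V ∈ Q, ‖V‖ < 2 * et := by
    intro V hV
    rw [hQ, Metric.mem_ball, dist_zero_right] at hV
    exact hV
  have hδV : ∀ V ∈ Q, δ * V ∈ Metric.ball (0 : ℂ) (2 * et * r₀) := by
    intro V hV
    rw [Metric.mem_ball, dist_zero_right, norm_mul]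
    have h1 := hQm V hV
    calc ‖δ‖ * ‖V‖ ≤ r₀ * ‖V‖ := by gcongr
      _ < r₀ * (2 * et) := by gcongr
      _ = 2 * et * r₀ := by ring
  have hδVr : ∀ V ∈ Q, δ * V ∈ Metric.ball (0 : ℂ) r := fun V hV =>
    Metric.ball_subset_ball (hetr.le.trans hr'r) (hδV V hV)
  have hlin : ∀ V : ℂ, AnalyticAt ℂ (fun V : ℂ => δ * V) V := fun V => analyticAt_const.mul analyticAt_id
  have hψan : ∀ i, ∀ V ∈ Q, AnalyticAt ℂ (fun V => (ε i : ℂ) * V * Ψ i (δ * V)) V := by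
    intro i V hV
    have h1 : AnalyticAt ℂ (fun V => Ψ i (δ * V)) V :=
      AnalyticAt.fun_comp (f := fun V : ℂ => δ * V) (hΨ i _ (hδVr V hV)) (hlin V)
    exact (analyticAt_const.mul analyticAt_id).mul h1
  have him : ∀ i, ∀ V ∈ Q, (ε i : ℂ) * V * Ψ i (δ * V) ≠ 1 ∧ ‖(ε i : ℂ) * V * Ψ i (δ * V)‖ < 1 / 2 ∧
      (hv (ρ i) (ρ' i) ((ε i : ℂ) * V * Ψ i (δ * V))).im = (ε i * (ρ i - ρ' i)) * (V * Ψ i (δ * V)).im /
        ‖1 - (ε i : ℂ) * V * Ψ i (δ * V)‖ ^ 2 ∧ 0 < ‖1 - (ε i : ℂ) * V * Ψ i (δ * V)‖ ^ 2 := by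
    intro i V hV
    exact h38_im (ρ i) (ρ' i) (ε i) V (Ψ i (δ * V)) (hg1 δ hδr V (hQm V hV) i).1 (hε i).1
  obtain ⟨M, hM⟩ : ∃ M : S → ℂ → ℂ, M = fun i V => hv (ρ i) (ρ' i) ((ε i : ℂ) * V * Ψ i (δ * V)) := ⟨_, rfl⟩
  have hMi : ∀ i V, M i V = hv (ρ i) (ρ' i) ((ε i : ℂ) * V * Ψ i (δ * V)) := fun i V => by rw [hM]
  have hMsign : ∀ i, ∀ V ∈ Q, ((M i V).im = 0 ↔ (V * Ψ i (δ * V)).im = 0) ∧
      (0 < (V * Ψ i (δ * V)).im → 0 < (M i V).im) ∧ ((V * Ψ i (δ * V)).im < 0 → (M i V).im < 0) := by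
    intro i V hV
    obtain ⟨-, -, h3, h4⟩ := him i V hV
    rw [hMi, h3]
    exact h38_sign (hε i).2 h4
  have hMan : ∀ i, AnalyticOnNhd ℂ (M i) Q := by
    intro i V hV
    have h1 := hψan i V hV
    have h2 : 1 - (ε i : ℂ) * V * Ψ i (δ * V) ≠ 0 := sub_ne_zero.2 (Ne.symm (him i V hV).1)
    rw [hM]
    unfold hv
    exact (analyticAt_const.sub (analyticAt_const.mul h1)).div (analyticAt_const.sub h1) h2
  have hQo : IsOpen Q := by rw [hQ]; exact Metric.isOpen_ball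
  have hQc : Convex ℝ Q := by rw [hQ]; exact convex_ball _ _
  have hnI : ‖I * (et : ℂ)‖ = et := by
    rw [norm_mul, Complex.norm_I, one_mul, Complex.norm_real, Real.norm_eq_abs, abs_of_pos het]
  have hx₀ : I * (et : ℂ) ∈ Q := by
    rw [hQ, Metric.mem_ball, dist_zero_right, hnI]
    linarith
  have hy₀ : -(I * (et : ℂ)) ∈ Q := by
    rw [hQ, Metric.mem_ball, dist_zero_right, norm_neg, hnI]
    linarith
  have hx₀p : ∀ i, 0 < (M i (I * et)).im := fun i =>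
    (hMsign i _ hx₀).2.1 (hg2 δ hδr _ (Metric.mem_ball_self (by positivity)) i)
  have hy₀n : ∀ i, (M i (-(I * et))).im < 0 := fun i => (hMsign i _ hy₀).2.2 (hg3 δ hδr i)
  -- different arcs
  have hdist : ∀ i j, i ≠ j → ∀ x ∈ Q, (M i x).im = 0 → (M j x).im = 0 → ¬ SameArc (M i) (M j) x := by
    intro i j hij x hx hix _ hsame
    have h1 : SameArc (fun V => V * Ψ i (t * Complex.exp I * V)) (fun V => V * Ψ j (t * Complex.exp I * V)) x := by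
      unfold SameArc at hsame ⊢
      filter_upwards [hsame, hQo.mem_nhds hx] with y hy hyQ hy0
      rw [← hδ] at hy0 ⊢
      exact (hMsign j y hyQ).1.1 (hy ((hMsign i y hyQ).1.2 hy0))
    have h2 : (x * Ψ i (t * Complex.exp I * x)).im = 0 := by
      rw [← hδ]
      exact (hMsign i x hx).1.1 hix
    have h3 : t * ‖x‖ < r₃ := by
      have h4 := hQm x hx
      calc t * ‖x‖ ≤ r₀ * ‖x‖ := by gcongr
        _ ≤ r₀ * (2 * et) := by gcongr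
        _ = 2 * et * r₀ := by ring
        _ < r₃ := hetr₃
    obtain ⟨κ, hκ⟩ := hdis i j t ht0 x h3 h2 h1
    apply hrel i j hij
    refine ⟨(ε i : ℂ) * ε j * κ, ?_⟩
    have hU : {W : ℂ | W * Ψ j W = κ * (W * Ψ i W)} ∩ Metric.ball 0 r ∈ 𝓝 (0 : ℂ) :=
      Filter.inter_mem hκ (Metric.ball_mem_nhds 0 hr)
    filter_upwards [hnb _ hU] with y hy
    obtain ⟨W, ⟨hW1, hW2⟩, rfl⟩ := hy
    obtain ⟨ei1, ei2⟩ := hcoord i W hW2
    obtain ⟨ej1, ej2⟩ := hcoord j W hW2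
    rw [← hρi, ← hρi', ← hρi, ← hρi']
    have ei3 := sub_ne_zero.2 ei1
    have ej3 := sub_ne_zero.2 ej1
    rw [div_eq_iff ei3] at ei2
    rw [div_eq_iff ej3] at ej2
    have hW1' : W * Ψ j W = κ * (W * Ψ i W) := hW1
    have hεε : (ε i : ℂ) * ε i = 1 := by
      rcases (hε i).1 with h | h <;> rw [h] <;> push_cast <;> ring
    rw [ei2, ej2]
    have e1 : (ε j : ℂ) * W * Ψ j W = ε j * κ * (W * Ψ i W) := by rw [mul_assoc, hW1']; ring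
    rw [e1]
    linear_combination (-(ε j : ℂ) * κ * W * Ψ i W * (R j (ξ W) - ρ' j) * (R i (ξ W) - ρ' i)) * hεε
  -- the substituted polynomial
  obtain ⟨φ, hφ⟩ : ∃ φ : ℂ → ℂ, φ = fun V => ξ (δ * V) := ⟨_, rfl⟩
  have hφi : ∀ V, φ V = ξ (δ * V) := fun V => by rw [hφ]
  have hcan : ∀ m, AnalyticOnNhd ℂ (fun V => P.coeff m (φ V)) Q := by
    intro m V hV
    have h1 : AnalyticAt ℂ (fun V => ξ (δ * V)) V :=
      AnalyticAt.fun_comp (f := fun V : ℂ => δ * V) (hξ _ (hδVr V hV)) (hlin V)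
    rw [hφ]
    exact AnalyticAt.fun_comp (f := fun V : ℂ => ξ (δ * V)) (hPan' m _ (hδV V hV)) h1
  obtain ⟨A, hA⟩ : ∃ A : S × Fin 3 → ℂ → ℂ, A = fun p V =>
      (δ⁻¹ * ha ((ε p.1 : ℂ) * V * Ψ p.1 (δ * V)) δ) ^ (p.2.val + 1) := ⟨_, rfl⟩
  obtain ⟨B, hB⟩ : ∃ B : S × Fin 3 → ℂ → ℂ, B = fun p V =>
      if p.2 = 0 then δ⁻¹ * MSD.hb (ρ p.1) (ρ' p.1) ((ε p.1 : ℂ) * V * Ψ p.1 (δ * V)) δ else 0 := ⟨_, rfl⟩
  have hAan : ∀ p, ∀ V ∈ Q, AnalyticAt ℂ (A p) V := by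
    intro p V hV
    have h1 := hψan p.1 V hV
    have h2 : 1 - (ε p.1 : ℂ) * V * Ψ p.1 (δ * V) ≠ 0 := sub_ne_zero.2 (Ne.symm (him p.1 V hV).1)
    rw [hA]
    unfold ha
    exact (analyticAt_const.mul (((analyticAt_const.sub (analyticAt_const.mul h1)).div
      (analyticAt_const.sub h1) h2).pow 2)).pow _
  have hBan : ∀ p, ∀ V ∈ Q, AnalyticAt ℂ (B p) V := by
    intro p V hV
    have h1 := hψan p.1 V hV
    have h2 : 1 - (ε p.1 : ℂ) * V * Ψ p.1 (δ * V) ≠ 0 := sub_ne_zero.2 (Ne.symm (him p.1 V hV).1)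
    rw [hB]
    by_cases h0 : p.2 = 0
    · simp only [h0, if_true]
      unfold MSD.hb
      have h3 : ((ρ p.1 : ℂ) - ρ' p.1) ≠ 0 := by
        rw [← Complex.ofReal_sub]
        exact_mod_cast sub_ne_zero.2 (hne p.1)
      exact analyticAt_const.mul ((analyticAt_const.mul (analyticAt_const.sub (analyticAt_const.mul h1))).div
        (analyticAt_const.mul (analyticAt_const.sub h1)) (mul_ne_zero h3 h2))
    · simp only [h0, if_false]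
      exact analyticAt_const
  have hAne : ∀ V ∈ Q, ∀ p, A p V ≠ 0 := by
    intro V hV p
    obtain ⟨h1, h2, -, -⟩ := him p.1 V hV
    rw [hA]
    refine pow_ne_zero _ (mul_ne_zero (inv_ne_zero hδ0) ?_)
    unfold ha
    refine pow_ne_zero _ (div_ne_zero ?_ (sub_ne_zero.2 (Ne.symm h1)))
    intro hc
    have h3 : δ * ((ε p.1 : ℂ) * V * Ψ p.1 (δ * V)) = 1 := by linear_combination -hc
    have h4 : ‖δ * ((ε p.1 : ℂ) * V * Ψ p.1 (δ * V))‖ = 1 := by rw [h3, norm_one]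
    rw [norm_mul] at h4
    have h5 : ‖δ‖ * ‖(ε p.1 : ℂ) * V * Ψ p.1 (δ * V)‖ ≤ 1 * (1 / 2) :=
      mul_le_mul hδ1.le h2.le (norm_nonneg _) zero_le_one
    linarith
  obtain ⟨Qp, hQ1, hQ2, hQ3⟩ := affine_sub (MvPolynomial.map (h38_pre φ) P) A B
  have hQpan : ∀ m, AnalyticOnNhd ℂ (Qp.coeff m) Q := by
    intro m V hV
    refine hQ3 V ?_ (fun p => hAan p V hV) (fun p => hBan p V hV) m
    intro m'
    have : (MvPolynomial.map (h38_pre φ) P).coeff m' = fun V => P.coeff m' (φ V) := by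
      funext V'
      exact h38_coeff_map P φ V' m'
    rw [this]
    exact hcan m' V hV
  have hrelQ : ∀ᶠ V in 𝓝 (I * (et : ℂ)), pev Qp V (fun p => EE p.2 (M p.1 V)) = 0 := by
    filter_upwards [Metric.ball_mem_nhds (I * (et : ℂ)) (show 0 < et / 2 by positivity)] with V hV
    rw [hQ1, h38_pev_map, hφi]
    have h1 := htwo δ hδ0 hδr V hV
    rw [← h1]
    congr 1
    funext p
    rw [h38_hE, hA, hB, hMi]
  have hcoef : ∀ m', ∀ᶠ V in 𝓝 (I * (et : ℂ)), Qp.coeff m' V = 0 := fun m' =>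
    indep_distinct Q hQo hQc M hMan (I * et) hx₀ hx₀p (-(I * et)) hy₀ hy₀n hdist Qp hQpan hrelQ m'
  have hzero : ∀ᶠ V in 𝓝 (I * (et : ℂ)), P.coeff m (φ V) = 0 := by
    filter_upwards [h38_all Qp _ hcoef, hQo.mem_nhds hx₀] with V hV hVQ
    rw [← h38_coeff_map P φ V m]
    exact hQ2 V (hAne V hVQ) hV m
  have hall : ∀ V ∈ Q, P.coeff m (φ V) = 0 := by
    have h1 := (hcan m).eqOn_zero_of_preconnected_of_eventuallyEq_zero hQc.isPreconnected hx₀ hzero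
    intro V hV
    exact h1 hV
  filter_upwards [hnb _ (Metric.ball_mem_nhds (0 : ℂ) (show 0 < 2 * et * ‖δ‖ by rw [hδn]; positivity))] with x hx
  obtain ⟨W, hW, rfl⟩ := hx
  have hWV : W / δ ∈ Q := by
    rw [hQ, Metric.mem_ball, dist_zero_right, norm_div]
    rw [Metric.mem_ball, dist_zero_right] at hW
    rw [div_lt_iff₀ (by rw [hδn]; exact ht0)]
    exact hW
  have h1 := hall _ hWV
  rw [hφi, mul_div_cancel₀ _ hδ0] at h1
  exact h1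

end Pool.Agent.MSD
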