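import Pool.Agent.Lib.MP_f58a57_nt.H02_Eval

/-! # H39: complex relations of real rational functions (MP_f58a57_nt) -/

open Complex ModularForm EisensteinSeries Filter
open UpperHalfPlane hiding I
open scoped Topology MatrixGroups Polynomial

noncomputable section

namespace Pool.Agent.MSD

theorem h39_poly {d : ℕ} (P : Polynomial (KF d))
    (h : {x : ℂ | P.eval₂ (algebraMap (KF d) ℂ) x = 0}.Infinite) : P = 0 := by
  have h1 : P.map (algebraMap (KF d) ℂ) = 0 := by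
    apply Polynomial.eq_zero_of_infinite_isRoot
    refine h.mono fun x hx => ?_
    simp only [Set.mem_ofPred_eq, Polynomial.IsRoot, Polynomial.eval_map] at hx ⊢
    exact hx
  exact (Polynomial.map_eq_zero _).1 h1

theorem h39_evr {d : ℕ} (R : RatFunc (KF d)) (x : ℂ) (hx : dn R x ≠ 0) :
    evr R x * dn R x = R.num.eval₂ (algebraMap (KF d) ℂ) x := by
  unfold evr RatFunc.eval
  exact div_mul_cancel₀ _ hx

/-- the cleared combination -/
def h39_W {d : ℕ} (R R' : RatFunc (KF d)) (k₀ k₁ k₂ k₃ : KF d) : Polynomial (KF d) :=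
  Polynomial.C k₀ * (R.denom * R'.denom) + Polynomial.C k₁ * (R.num * R'.denom) +
    Polynomial.C k₂ * (R.denom * R'.num) + Polynomial.C k₃ * (R.num * R'.num)

theorem h39_eval {d : ℕ} (R R' : RatFunc (KF d)) (k₀ k₁ k₂ k₃ : KF d) (x : ℂ) (hx : dn R x ≠ 0)
    (hx' : dn R' x ≠ 0) :
    (h39_W R R' k₀ k₁ k₂ k₃).eval₂ (algebraMap (KF d) ℂ) x = dn R x * dn R' x *
      ((k₀ : ℂ) + k₁ * evr R x + k₂ * evr R' x + k₃ * (evr R x * evr R' x)) := by
  have e1 := h39_evr R x hx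
  have e2 := h39_evr R' x hx'
  have e3 : R.denom.eval₂ (algebraMap (KF d) ℂ) x = dn R x := rfl
  have e4 : R'.denom.eval₂ (algebraMap (KF d) ℂ) x = dn R' x := rfl
  have ek : ∀ k : KF d, (algebraMap (KF d) ℂ) k = (k : ℂ) := fun k => rfl
  unfold h39_W
  simp only [Polynomial.eval₂_add, Polynomial.eval₂_mul, Polynomial.eval₂_C, ← e1, ← e2, e3, e4, ek]
  ring

theorem h39_inf {d : ℕ} (R R' : RatFunc (KF d)) {S : Set ℂ} (hS : S.Infinite) :
    (S ∩ {x | dn R x ≠ 0 ∧ dn R' x ≠ 0}).Infinite := by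
  have h1 : (S \ ({x | dn R x = 0} ∪ {x | dn R' x = 0})).Infinite :=
    hS.sdiff ((dn_finite R).union (dn_finite R'))
  refine h1.mono fun x hx => ?_
  simp only [Set.mem_sdiff, Set.mem_union, Set.mem_ofPred_eq, not_or] at hx
  exact ⟨hx.1, hx.2⟩

theorem h39_ratfunc {d : ℕ} (R R' : RatFunc (KF d)) (k₀ k₁ k₂ k₃ : KF d)
    (h : h39_W R R' k₀ k₁ k₂ k₃ = 0) :
    RatFunc.C k₀ + RatFunc.C k₁ * R + RatFunc.C k₂ * R' + RatFunc.C k₃ * (R * R') = 0 := by
  have hD : algebraMap (Polynomial (KF d)) (RatFunc (KF d)) R.denom ≠ 0 := by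
    simpa using R.denom_ne_zero
  have hD' : algebraMap (Polynomial (KF d)) (RatFunc (KF d)) R'.denom ≠ 0 := by
    simpa using R'.denom_ne_zero
  have hR : R * algebraMap (Polynomial (KF d)) (RatFunc (KF d)) R.denom =
      algebraMap (Polynomial (KF d)) (RatFunc (KF d)) R.num := by
    nth_rewrite 1 [← RatFunc.num_div_denom R]
    exact div_mul_cancel₀ _ hD
  have hR' : R' * algebraMap (Polynomial (KF d)) (RatFunc (KF d)) R'.denom =
      algebraMap (Polynomial (KF d)) (RatFunc (KF d)) R'.num := by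
    nth_rewrite 1 [← RatFunc.num_div_denom R']
    exact div_mul_cancel₀ _ hD'
  have h1 := congrArg (algebraMap (Polynomial (KF d)) (RatFunc (KF d))) h
  unfold h39_W at h1
  simp only [map_add, map_mul, map_zero, RatFunc.algebraMap_C, ← hR, ← hR'] at h1
  have h2 : (RatFunc.C k₀ + RatFunc.C k₁ * R + RatFunc.C k₂ * R' + RatFunc.C k₃ * (R * R')) *
      (algebraMap (Polynomial (KF d)) (RatFunc (KF d)) R.denom *
        algebraMap (Polynomial (KF d)) (RatFunc (KF d)) R'.denom) = 0 := by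
    rw [← h1]; ring
  exact (mul_eq_zero.1 h2).resolve_right (mul_ne_zero hD hD')

/-- complex relation => relation over `KF d` -/
theorem h39_toK {d : ℕ} (R R' : RatFunc (KF d)) (c₀ c₁ c₂ c₃ : ℂ)
    (hc : ¬ (c₀ = 0 ∧ c₁ = 0 ∧ c₂ = 0 ∧ c₃ = 0))
    (h : {x : ℂ | c₀ + c₁ * evr R x + c₂ * evr R' x + c₃ * (evr R x * evr R' x) = 0}.Infinite) :
    ∃ k₀ k₁ k₂ k₃ : KF d, ¬ (k₀ = 0 ∧ k₁ = 0 ∧ k₂ = 0 ∧ k₃ = 0) ∧ h39_W R R' k₀ k₁ k₂ k₃ = 0 := by
  set φ := algebraMap (KF d) ℂ with hφ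
  have hF : Polynomial.C c₀ * (R.denom * R'.denom).map φ + Polynomial.C c₁ * (R.num * R'.denom).map φ +
      Polynomial.C c₂ * (R.denom * R'.num).map φ + Polynomial.C c₃ * (R.num * R'.num).map φ = 0 := by
    apply Polynomial.eq_zero_of_infinite_isRoot
    refine (h39_inf R R' h).mono fun x hx => ?_
    obtain ⟨hx0, hx1, hx2⟩ := hx
    simp only [Set.mem_ofPred_eq] at hx0
    have e1 := h39_evr R x hx1
    have e2 := h39_evr R' x hx2
    have e3 : R.denom.eval₂ (algebraMap (KF d) ℂ) x = dn R x := rfl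
    have e4 : R'.denom.eval₂ (algebraMap (KF d) ℂ) x = dn R' x := rfl
    simp only [Set.mem_ofPred_eq, Polynomial.IsRoot, Polynomial.eval_add, Polynomial.eval_mul,
      Polynomial.eval_C, Polynomial.eval_map, Polynomial.eval₂_mul, hφ, ← e1, ← e2, e3, e4]
    linear_combination (dn R x * dn R' x) * hx0
  have key : ∀ ψ : Module.Dual (KF d) ℂ, h39_W R R' (ψ c₀) (ψ c₁) (ψ c₂) (ψ c₃) = 0 := by
    intro ψ
    ext m
    have hm := congrArg (fun P : Polynomial ℂ => ψ (P.coeff m)) hF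
    have e : ∀ (c : ℂ) (k : KF d), ψ (c * φ k) = ψ c * k := by
      intro c k
      have : c * φ k = k • c := by rw [Algebra.smul_def, mul_comm]
      rw [this, map_smul, smul_eq_mul, mul_comm]
    simp only [Polynomial.coeff_add, Polynomial.coeff_C_mul, Polynomial.coeff_map, map_add, e,
      Polynomial.coeff_zero, map_zero] at hm
    simp only [h39_W, Polynomial.coeff_add, Polynomial.coeff_C_mul, Polynomial.coeff_zero]
    exact congrArg Subtype.val hm
  by_contra hcon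
  have hall : ∀ ψ : Module.Dual (KF d) ℂ, ψ c₀ = 0 ∧ ψ c₁ = 0 ∧ ψ c₂ = 0 ∧ ψ c₃ = 0 := by
    intro ψ
    by_contra hn
    exact hcon ⟨_, _, _, _, hn, key ψ⟩
  apply hc
  refine ⟨?_, ?_, ?_, ?_⟩
  · exact (Module.forall_dual_apply_eq_zero_iff (KF d) c₀).1 fun ψ => (hall ψ).1
  · exact (Module.forall_dual_apply_eq_zero_iff (KF d) c₁).1 fun ψ => (hall ψ).2.1
  · exact (Module.forall_dual_apply_eq_zero_iff (KF d) c₂).1 fun ψ => (hall ψ).2.2.1
  · exact (Module.forall_dual_apply_eq_zero_iff (KF d) c₃).1 fun ψ => (hall ψ).2.2.2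

/-- relation over `KF d` => rational relation -/
theorem h39_toQ {d : ℕ} (hd : 0 < d) (R R' : RatFunc (KF d)) (k₀ k₁ k₂ k₃ : KF d)
    (hk : ¬ (k₀ = 0 ∧ k₁ = 0 ∧ k₂ = 0 ∧ k₃ = 0)) (hW : h39_W R R' k₀ k₁ k₂ k₃ = 0)
    (hA : {x : ℂ | (evr R x).im = 0 ∧ (evr R' x).im = 0}.Infinite) :
    ∃ q₀ q₁ q₂ q₃ : ℚ, ¬ (q₀ = 0 ∧ q₁ = 0 ∧ q₂ = 0 ∧ q₃ = 0) ∧
      h39_W R R' (q₀ : KF d) (q₁ : KF d) (q₂ : KF d) (q₃ : KF d) = 0 := by
  have hk' : ∀ k : KF d, ∃ u v : ℚ, (k : ℂ) = u + v * rt d := fun k => (mem_KF d _).1 k.2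
  obtain ⟨u₀, v₀, e₀⟩ := hk' k₀
  obtain ⟨u₁, v₁, e₁⟩ := hk' k₁
  obtain ⟨u₂, v₂, e₂⟩ := hk' k₂
  obtain ⟨u₃, v₃, e₃⟩ := hk' k₃
  have hsd : Real.sqrt d ≠ 0 := (Real.sqrt_pos.2 (by exact_mod_cast hd)).ne'
  have hrel : ∀ x ∈ {x : ℂ | (evr R x).im = 0 ∧ (evr R' x).im = 0} ∩ {x | dn R x ≠ 0 ∧ dn R' x ≠ 0},
      (((u₀ : ℂ) + u₁ * evr R x + u₂ * evr R' x + u₃ * (evr R x * evr R' x)) = 0) ∧
      (((v₀ : ℂ) + v₁ * evr R x + v₂ * evr R' x + v₃ * (evr R x * evr R' x)) = 0) := by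
    rintro x ⟨⟨hx1, hx2⟩, hx3, hx4⟩
    have h1 := h39_eval R R' k₀ k₁ k₂ k₃ x hx3 hx4
    rw [hW, Polynomial.eval₂_zero] at h1
    have h2 := (mul_eq_zero.1 h1.symm).resolve_left (mul_ne_zero hx3 hx4)
    obtain ⟨a, ha⟩ : ∃ a : ℝ, evr R x = a := ⟨(evr R x).re, Complex.ext (by simp) (by simp [hx1])⟩
    obtain ⟨b, hb⟩ : ∃ b : ℝ, evr R' x = b := ⟨(evr R' x).re, Complex.ext (by simp) (by simp [hx2])⟩
    rw [ha, hb, e₀, e₁, e₂, e₃] at h2
    have h3 : (((u₀ + u₁ * a + u₂ * b + u₃ * (a * b) : ℝ) : ℂ)) +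
        (((v₀ + v₁ * a + v₂ * b + v₃ * (a * b)) * Real.sqrt d : ℝ) : ℂ) * I = 0 := by
      rw [← h2]; unfold rt; push_cast; ring
    have h4 := congrArg Complex.re h3
    have h5 := congrArg Complex.im h3
    simp only [Complex.add_re, Complex.add_im, Complex.ofReal_re, Complex.ofReal_im,
      Complex.re_ofReal_mul, Complex.im_ofReal_mul, Complex.I_re, Complex.I_im, mul_zero, mul_one,
      add_zero, zero_add, Complex.zero_re, Complex.zero_im] at h4 h5
    have h6 := (mul_eq_zero.1 h5).resolve_right hsd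
    rw [ha, hb]
    constructor
    · have := congrArg (fun t : ℝ => (t : ℂ)) h4
      push_cast at this
      exact this
    · have := congrArg (fun t : ℝ => (t : ℂ)) h6
      push_cast at this
      exact this
  have fin : ∀ q₀ q₁ q₂ q₃ : ℚ,
      (∀ x ∈ {x : ℂ | (evr R x).im = 0 ∧ (evr R' x).im = 0} ∩ {x | dn R x ≠ 0 ∧ dn R' x ≠ 0},
        (((q₀ : ℂ) + q₁ * evr R x + q₂ * evr R' x + q₃ * (evr R x * evr R' x)) = 0)) →
      h39_W R R' (q₀ : KF d) (q₁ : KF d) (q₂ : KF d) (q₃ : KF d) = 0 := by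
    intro q₀ q₁ q₂ q₃ hq
    apply h39_poly
    refine (h39_inf R R' hA).mono fun x hx => ?_
    have h1 := h39_eval R R' (q₀ : KF d) (q₁ : KF d) (q₂ : KF d) (q₃ : KF d) x hx.2.1 hx.2.2
    have h2 := hq x hx
    simp only [Set.mem_ofPred_eq]
    rw [h1]
    push_cast
    rw [h2, mul_zero]
  by_cases hu : u₀ = 0 ∧ u₁ = 0 ∧ u₂ = 0 ∧ u₃ = 0
  · refine ⟨v₀, v₁, v₂, v₃, ?_, fin _ _ _ _ fun x hx => (hrel x hx).2⟩
    rintro ⟨w₀, w₁, w₂, w₃⟩
    obtain ⟨z₀, z₁, z₂, z₃⟩ := hu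
    apply hk
    refine ⟨?_, ?_, ?_, ?_⟩
    · apply Subtype.ext; rw [e₀, z₀, w₀]; simp
    · apply Subtype.ext; rw [e₁, z₁, w₁]; simp
    · apply Subtype.ext; rw [e₂, z₂, w₂]; simp
    · apply Subtype.ext; rw [e₃, z₃, w₃]; simp
  · exact ⟨u₀, u₁, u₂, u₃, hu, fin _ _ _ _ fun x hx => (hrel x hx).1⟩

/-- H39. PROOF. Let `f = (1, R, R', R R')`. The vectors `(f_k(x))_k`, `x ∈ KF d` not a pole, span a subspace `W` of `(KF d)^4`; vectors linearly independent over `KF d` are linearly independent over `ℂ` (nonzero minors), and `W` lies in the kernel of the nonzero complex linear form given by the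
relation (the relation holds on an infinite set, so identically: multiply by the denominators), so `W ≠ (KF d)^4` and there is a nonzero `c ∈ (KF d)^4` with `Σ c_k f_k(x) = 0` for all these `x`, hence `Σ c_k f_k = 0` (`evr_inj`). Write `c_k = u_k + v_k √(-d)`, `u, v` rational. On the infinite set `A` the
`f_k` are real, so `Σ u_k f_k = 0 = Σ v_k f_k` on `A`, hence identically; one of `u, v` is nonzero: rational `α + β R + γ R' + ε R R' = 0`. This is `R' (ε R + γ) = - β R - α`; the determinant `-βγ + αε` is nonzero: if `αε = βγ` and `ε ≠ 0` then `(ε R' + β)(ε R + γ) = 0`; if `ε = 0` then `β = 0` or `γ = 0`, and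
`R'` or `R` is constant or `α = ... = 0`; contradiction. -/
theorem rat_rel {d : ℕ} (hd : 0 < d) (R R' : RatFunc (KF d)) (hR : ¬ ∃ c, R = RatFunc.C c) (hR' : ¬ ∃ c, R' = RatFunc.C c)
    (c₀ c₁ c₂ c₃ : ℂ) (hc : ¬ (c₀ = 0 ∧ c₁ = 0 ∧ c₂ = 0 ∧ c₃ = 0))
    (h : {x : ℂ | c₀ + c₁ * evr R x + c₂ * evr R' x + c₃ * (evr R x * evr R' x) = 0}.Infinite)
    (hA : {x : ℂ | (evr R x).im = 0 ∧ (evr R' x).im = 0}.Infinite) : GRel R R' := by
  obtain ⟨k₀, k₁, k₂, k₃, hk, hW⟩ := h39_toK R R' c₀ c₁ c₂ c₃ hc h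
  obtain ⟨α, β, γ, ε, hq, hW'⟩ := h39_toQ hd R R' k₀ k₁ k₂ k₃ hk hW hA
  have hrel := h39_ratfunc R R' _ _ _ _ hW'
  have hC : ∀ q : ℚ, (RatFunc.C (q : KF d) : RatFunc (KF d)) = 0 → q = 0 := by
    intro q hq0
    have h1 : (q : KF d) = 0 := RatFunc.C_injective (by rw [hq0, map_zero])
    exact_mod_cast h1
  refine ⟨-β, -α, ε, γ, ?_, ?_⟩
  · intro hdet
    have hdet' : α * ε = β * γ := by linear_combination hdet
    by_cases hε : ε = 0
    · subst hε
      have hbg : β * γ = 0 := by rw [← hdet', mul_zero]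
      rw [Rat.cast_zero, map_zero, zero_mul, add_zero] at hrel
      by_cases hβ : β = 0
      · subst hβ
        rw [Rat.cast_zero, map_zero, zero_mul, add_zero] at hrel
        by_cases hγ : γ = 0
        · subst hγ
          rw [Rat.cast_zero, map_zero, zero_mul, add_zero] at hrel
          exact hq ⟨hC _ hrel, rfl, rfl, rfl⟩
        · apply hR'
          refine ⟨-(α : KF d) / (γ : KF d), ?_⟩
          have hγ' : (RatFunc.C (γ : KF d) : RatFunc (KF d)) ≠ 0 := fun h0 => hγ (hC _ h0)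
          rw [map_div₀, map_neg]
          field_simp
          linear_combination hrel
      · have hγ : γ = 0 := (mul_eq_zero.1 hbg).resolve_left hβ
        subst hγ
        rw [Rat.cast_zero, map_zero, zero_mul, add_zero] at hrel
        apply hR
        refine ⟨-(α : KF d) / (β : KF d), ?_⟩
        have hβ' : (RatFunc.C (β : KF d) : RatFunc (KF d)) ≠ 0 := fun h0 => hβ (hC _ h0)
        rw [map_div₀, map_neg]
        field_simp
        linear_combination hrel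
    · have hε' : (RatFunc.C (ε : KF d) : RatFunc (KF d)) ≠ 0 := fun h0 => hε (hC _ h0)
      have hdC : (RatFunc.C (α : KF d) : RatFunc (KF d)) * RatFunc.C (ε : KF d) =
          RatFunc.C (β : KF d) * RatFunc.C (γ : KF d) := by
        rw [← map_mul, ← map_mul, ← Rat.cast_mul, ← Rat.cast_mul, hdet']
      have hprod : (RatFunc.C (ε : KF d) * R' + RatFunc.C (β : KF d)) *
          (RatFunc.C (ε : KF d) * R + RatFunc.C (γ : KF d)) = 0 := by
        linear_combination (RatFunc.C (ε : KF d)) * hrel - hdC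
      rcases mul_eq_zero.1 hprod with h0 | h0
      · apply hR'
        refine ⟨-(β : KF d) / (ε : KF d), ?_⟩
        rw [map_div₀, map_neg]
        field_simp
        linear_combination h0
      · apply hR
        refine ⟨-(γ : KF d) / (ε : KF d), ?_⟩
        rw [map_div₀, map_neg]
        field_simp
        linear_combination h0
  · rw [Rat.cast_neg, Rat.cast_neg, map_neg, map_neg]
    linear_combination hrel

end Pool.Agent.MSD
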