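import Pool.Agent.Lib.MP_f58a57_nt.H18_QuadPoints
import Pool.Agent.Lib.MP_f58a57_nt.H38_HypElim
import Pool.Agent.Lib.MP_f58a57_nt.H39_RatRel

/-! # H40: elimination on a common arc of rational functions (MP_f58a57_nt) -/

open Complex ModularForm EisensteinSeries Filter
open UpperHalfPlane hiding I
open scoped Topology MatrixGroups Polynomial

noncomputable section

namespace Pool.Agent.MSD

/-- points of the arc near `y`: infinitely many -/
theorem h40_infinite (f g : ℂ → ℂ) (y : ℂ) (hf : AnalyticAt ℂ f y) (hf' : deriv f y ≠ 0)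
    (hfy : (f y).im = 0) (harc : SameArc f g y) :
    {x : ℂ | (f x).im = 0 ∧ (g x).im = 0}.Infinite := by
  unfold SameArc at harc
  set V : Set ℂ := {x : ℂ | (f x).im = 0 → (g x).im = 0} with hV
  have hV1 : V ∈ 𝓝 y := harc
  have h1 : f '' V ∈ 𝓝 (f y) := by
    have h2 := hf.hasStrictDerivAt.map_nhds_eq hf'
    rw [← h2]
    exact Filter.image_mem_map hV1
  have h2 : ((((f y).re : ℝ)) : ℂ) = f y := by
    apply Complex.ext
    · simp
    · simpa using hfy.symm
  have h3 : Tendsto (fun t : ℝ => (t : ℂ)) (𝓝 (f y).re) (𝓝 (f y)) := by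
    have h4 := Complex.continuous_ofReal.tendsto (f y).re
    rwa [h2] at h4
  have h5 : {t : ℝ | (t : ℂ) ∈ f '' V} ∈ 𝓝 (f y).re := h3 h1
  have h6 : {t : ℝ | (t : ℂ) ∈ f '' V}.Infinite := infinite_of_mem_nhds _ h5
  have h7 : ((fun t : ℝ => (t : ℂ)) '' {t : ℝ | (t : ℂ) ∈ f '' V}).Infinite :=
    h6.image (Complex.ofReal_injective.injOn)
  refine Set.Infinite.of_image f (h7.mono ?_)
  rintro w ⟨t, ht, rfl⟩
  obtain ⟨x, hxV, hx⟩ := ht
  have hx0 : (f x).im = 0 := by
    rw [hx]
    exact Complex.ofReal_im t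
  exact ⟨x, ⟨hx0, hxV hx0⟩, hx⟩

/-- H40. PROOF. If `S` is empty then `P` is a constant polynomial. Choose a disc `N` around `x₁` in which all `evr (R i)` are analytic with nonzero derivative, arcs and sides coincide (for all points of the disc, `harc, hside` hold at each point of the arc in the disc because they are
eventual statements at `x₁`), the coefficients of `P` are analytic, and the relation holds on the common positive side. `quad_points` gives `y ∈ N`, `D`, `a, b`. Apply `hyp_elim` at `y`: the hypothesis `hrel` holds because otherwise there is a nontrivial complex relation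
`(R j - ρ_j)(R i - ρ_i') = κ (R i - ρ_i)(R j - ρ_j')` near `y` between `1, R i, R j, R i R j` (nontrivial: the coefficient of `R i R j` is `1 - κ`, and if `κ = 1` the coefficients of `R j` is `ρ_i - ρ_i' ≠ 0`), and `rat_rel` contradicts `hrel`. Then the coefficients vanish near `y`, so on `N`. -/
theorem arc_elim {d : ℕ} (hd : 0 < d) {S : Type} [Finite S] (R : S → RatFunc (KF d)) (x₁ : ℂ)
    (hR : ∀ i, ¬ ∃ c, R i = RatFunc.C c) (hdn : ∀ i, dn (R i) x₁ ≠ 0) (hreal : ∀ i, (evr (R i) x₁).im = 0)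
    (hder : ∀ i, deriv (evr (R i)) x₁ ≠ 0) (harc : ∀ i j, SameArc (evr (R i)) (evr (R j)) x₁)
    (hside : ∀ i j, ∀ᶠ x in 𝓝 x₁, 0 < (evr (R i) x).im → 0 < (evr (R j) x).im) (hrel : ∀ i j, i ≠ j → ¬ GRel (R i) (R j))
    (P : MvPolynomial (S × Fin 3) (ℂ → ℂ)) (hPan : ∀ m, AnalyticAt ℂ (P.coeff m) x₁)
    (hP : ∀ᶠ x in 𝓝 x₁, (∀ i, 0 < (evr (R i) x).im) → pev P x (fun p => EE p.2 (evr (R p.1) x)) = 0) (m : S × Fin 3 →₀ ℕ) :
    ∀ᶠ x in 𝓝 x₁, P.coeff m x = 0 := by
  classical
  have hRan : ∀ i, AnalyticAt ℂ (evr (R i)) x₁ := fun i => evr_analytic (R i) x₁ (hdn i)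
  rcases isEmpty_or_nonempty S with hS | hS
  · haveI : IsEmpty (S × Fin 3) := ⟨fun p => hS.elim p.1⟩
    have hm : m = 0 := Finsupp.ext fun p => isEmptyElim p
    filter_upwards [hP] with x hx
    have h1 := hx (fun i => isEmptyElim i)
    rw [hm]
    rw [MvPolynomial.eq_C_of_isEmpty P] at h1
    unfold pev at h1
    rw [MvPolynomial.map_C, MvPolynomial.eval_C] at h1
    exact h1
  · -- the good disc
    have e1 : ∀ᶠ x in 𝓝 x₁, ∀ i, AnalyticAt ℂ (evr (R i)) x :=
      Filter.eventually_all.2 fun i => (hRan i).eventually_analyticAt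
    have e2 : ∀ᶠ x in 𝓝 x₁, ∀ i, deriv (evr (R i)) x ≠ 0 :=
      Filter.eventually_all.2 fun i => (hRan i).deriv.continuousAt.eventually_ne (hder i)
    have e3 : ∀ᶠ x in 𝓝 x₁, ∀ i j, ∀ᶠ y in 𝓝 x, (evr (R i) y).im = 0 → (evr (R j) y).im = 0 :=
      Filter.eventually_all.2 fun i => Filter.eventually_all.2 fun j => (harc i j).eventually_nhds
    have e4 : ∀ᶠ x in 𝓝 x₁, ∀ i j, ∀ᶠ y in 𝓝 x, 0 < (evr (R i) y).im → 0 < (evr (R j) y).im :=
      Filter.eventually_all.2 fun i => Filter.eventually_all.2 fun j => (hside i j).eventually_nhds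
    have e5 : ∀ᶠ x in 𝓝 x₁, ∀ m ∈ P.support, AnalyticAt ℂ (P.coeff m) x :=
      (Filter.eventually_all_finset P.support).2 fun m _ => (hPan m).eventually_analyticAt
    have e6 := hP.eventually_nhds
    obtain ⟨ε, hε, hball⟩ := Metric.eventually_nhds_iff_ball.1
      (e1.and (e2.and (e3.and (e4.and (e5.and e6)))))
    have hcoef : ∀ m, AnalyticOnNhd ℂ (P.coeff m) (Metric.ball x₁ ε) := by
      intro m x hx
      by_cases hmem : m ∈ P.support
      · exact (hball x hx).2.2.2.2.1 m hmem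
      · rw [MvPolynomial.notMem_support_iff.1 hmem]
        exact analyticAt_const
    obtain ⟨y, hyU, D, hD, hquad⟩ := quad_points hd R x₁ hdn hreal hder harc
      (Metric.ball x₁ ε) (Metric.ball_mem_nhds x₁ hε)
    choose a b hb hval using hquad
    obtain ⟨g1, g2, g3, g4, g5, g6⟩ := hball y hyU
    have hD0 : (Real.sqrt D : ℝ) ≠ 0 := by
      intro h
      apply hD
      have h1 : (D : ℝ) = 0 := (Real.sqrt_eq_zero (Nat.cast_nonneg D)).1 h
      have h2 : D = 0 := by exact_mod_cast h1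
      rw [h2]
      exact ⟨0, rfl⟩
    have hres := hyp_elim D hD (fun i => evr (R i)) y g1 g2 a b hb hval g3 g4 (by
      rintro i j hij ⟨κ, hκ⟩
      apply hrel i j hij
      set ρi : ℂ := ((a i + b i * Real.sqrt D : ℝ) : ℂ) with hρi
      set ρi' : ℂ := ((a i - b i * Real.sqrt D : ℝ) : ℂ) with hρi'
      set ρj : ℂ := ((a j + b j * Real.sqrt D : ℝ) : ℂ) with hρj
      set ρj' : ℂ := ((a j - b j * Real.sqrt D : ℝ) : ℂ) with hρj'
      refine rat_rel hd (R i) (R j) (hR i) (hR j) (ρj * ρi' - κ * (ρi * ρj'))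
        (-ρj + κ * ρj') (-ρi' + κ * ρi) (1 - κ) ?_ ?_ ?_
      · rintro ⟨-, -, h2, h3⟩
        have hκ1 : κ = 1 := by linear_combination -h3
        rw [hκ1, one_mul] at h2
        have h4 : ρi = ρi' := by linear_combination h2
        have h5 : ((a i : ℝ) + b i * Real.sqrt D) = (a i : ℝ) - b i * Real.sqrt D :=
          Complex.ofReal_injective h4
        have h6 : (b i : ℝ) * Real.sqrt D = 0 := by linarith
        rcases mul_eq_zero.1 h6 with h7 | h7
        · exact hb i (by exact_mod_cast h7)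
        · exact hD0 h7
      · have h1 : {x : ℂ | ρj * ρi' - κ * (ρi * ρj') + (-ρj + κ * ρj') * evr (R i) x
            + (-ρi' + κ * ρi) * evr (R j) x + (1 - κ) * (evr (R i) x * evr (R j) x) = 0} ∈ 𝓝 y := by
          filter_upwards [hκ] with x hx
          show ρj * ρi' - κ * (ρi * ρj') + (-ρj + κ * ρj') * evr (R i) x
            + (-ρi' + κ * ρi) * evr (R j) x + (1 - κ) * (evr (R i) x * evr (R j) x) = 0
          linear_combination hx
        exact infinite_of_mem_nhds _ h1
      · refine h40_infinite (evr (R i)) (evr (R j)) y (g1 i) (g2 i) ?_ (g3 i j)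
        rw [hval i]
        exact Complex.ofReal_im _) P (fun m => hcoef m y hyU) g6 m
    have hzero := (hcoef m).eqOn_zero_of_preconnected_of_eventuallyEq_zero
      (convex_ball x₁ ε).isPreconnected hyU hres
    filter_upwards [Metric.ball_mem_nhds x₁ hε] with x hx
    exact hzero hx

end Pool.Agent.MSD
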