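import Pool.Agent.Lib.MP_f58a57_nt.H40_ArcElim
import Pool.Agent.Lib.MP_f58a57_nt.H03_Neg

/-! # H41: functional independence for rational functions over K (MP_f58a57_nt) -/

open Complex ModularForm EisensteinSeries Filter
open UpperHalfPlane hiding I
open scoped Topology MatrixGroups Polynomial

noncomputable section

namespace Pool.Agent.MSD

theorem h41_isOpen_uhp : IsOpen {z : ℂ | 0 < z.im} := isOpen_lt continuous_const Complex.continuous_im

theorem h41_EE_analytic (κ : Fin 3) (z : ℂ) (hz : 0 < z.im) : AnalyticAt ℂ (EE κ) z := by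
  have hmem : {z : ℂ | 0 < z.im} ∈ 𝓝 z := h41_isOpen_uhp.mem_nhds hz
  fin_cases κ
  · exact e2_diff.analyticAt hmem
  · exact e4_diff.analyticAt hmem
  · exact e6_diff.analyticAt hmem

theorem h41_comp_analytic {d : ℕ} (κ : Fin 3) (R : RatFunc (KF d)) (x : ℂ) (hx : dn R x ≠ 0)
    (hpos : 0 < (evr R x).im) : AnalyticAt ℂ (fun x => EE κ (evr R x)) x :=
  (h41_EE_analytic κ (evr R x) hpos).comp (evr_analytic R x hx)

theorem h41_pos_eventually {d : ℕ} (R : RatFunc (KF d)) (x : ℂ) (hx : dn R x ≠ 0)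
    (hpos : 0 < (evr R x).im) : ∀ᶠ y in 𝓝 x, 0 < (evr R y).im := by
  have hc : ContinuousAt (fun y => (evr R y).im) x :=
    Complex.continuous_im.continuousAt.comp (evr_analytic R x hx).continuousAt
  exact hc.eventually (lt_mem_nhds hpos)

/-- Points of the segment near the end point. -/
theorem h41_segment_freq (x₀ x₁ : ℂ) (hne : x₁ ≠ x₀) (p : ℂ → Prop)
    (h : ∀ x ∈ segment ℝ x₀ x₁, x ≠ x₁ → p x) : ∃ᶠ x in 𝓝 x₁, p x := by
  have ht : Tendsto (fun t : ℝ => x₁ + (t : ℂ) * (x₀ - x₁)) (𝓝[>] (0 : ℝ)) (𝓝 x₁) := by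
    have hc : Continuous (fun t : ℝ => x₁ + (t : ℂ) * (x₀ - x₁)) := by fun_prop
    have h0 := hc.tendsto (0 : ℝ)
    simp only [Complex.ofReal_zero, zero_mul, add_zero] at h0
    exact h0.mono_left nhdsWithin_le_nhds
  refine ht.frequently (Eventually.frequently ?_)
  have h1 : ∀ᶠ t : ℝ in 𝓝[>] (0 : ℝ), 0 < t := self_mem_nhdsWithin
  have h2 : ∀ᶠ t : ℝ in 𝓝[>] (0 : ℝ), t < 1 := nhdsWithin_le_nhds (gt_mem_nhds one_pos)
  filter_upwards [h1, h2] with t ht0 ht1
  apply h
  · refine ⟨t, 1 - t, ht0.le, by linarith, by ring, ?_⟩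
    simp only [Complex.real_smul]
    push_cast
    ring
  · intro heq
    have h3 : (t : ℂ) * (x₀ - x₁) = 0 := by
      have := heq
      linear_combination this
    rcases mul_eq_zero.mp h3 with h4 | h4
    · exact ht0.ne' (by exact_mod_cast h4)
    · exact hne (sub_eq_zero.mp h4).symm

theorem h41_base {σ : Type} [IsEmpty σ] (P : MvPolynomial σ (ℂ → ℂ)) (x : ℂ) (y : σ → ℂ) :
    pev P x y = P.coeff 0 x := by
  have hP : P = MvPolynomial.C (P.coeff 0) := by
    ext1 m
    have hm : m = 0 := Subsingleton.elim _ _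
    subst hm
    simp
  unfold pev
  conv_lhs => rw [hP]
  simp

theorem h41_entire (g : ℂ → ℂ) (hg : Differentiable ℂ g) (x₀ : ℂ) (h : ∀ᶠ x in 𝓝 x₀, g x = 0) : g = 0 := by
  have h1 : AnalyticOnNhd ℂ g Set.univ := fun x _ => hg.analyticAt x
  have h2 : AnalyticOnNhd ℂ (0 : ℂ → ℂ) Set.univ := fun x _ => analyticAt_const
  exact h1.eq_of_eventuallyEq h2 h

/-- H41. Ax-Lindemann with derivatives for rational functions over an imaginary quadratic field. PROOF. Induction on the number of functions. None: `pev P x y = P.coeff 0 x` is entire and vanishes near `x₀`, so it is `0`. Otherwise let `F` be the finite set of all poles,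
`evr_neg` gives `y₀ ∉ F` with `(R i₀ y₀).im < 0`; `exit_gen` with `Q = univ` gives `x₁`. Let `p i = ((evr (R i) x₁).im = 0)`. Split `P` by `p` (`split_poly`, `y = EE κ (evr (R i) ·)`): the coefficients of `P₁` are analytic at `x₁` and on the segment. The sides at `x₁` coincide by `side_of_freq`
(the points of the segment near `x₁`). `propagate` (with `M = evr (R i₁)`, `p i₁`, `G = {x ∉ F | all Im > 0}`) gives the relation near `x₁` on the positive side; `arc_elim` gives that the coefficients `pev (P₂ m) x (y x)` of `P₁` vanish near `x₁`, `propagate_back`: near `x₀`; apply the induction hypothesis to each `P₂ m`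
and the functions with `¬ p i` (fewer functions since some `i` has `p i`). -/
theorem alw {d : ℕ} (hd : 0 < d) {ι : Type} [Finite ι] (R : ι → RatFunc (KF d)) (x₀ : ℂ) (hR : ∀ i, ¬ ∃ c, R i = RatFunc.C c)
    (hdn : ∀ i, dn (R i) x₀ ≠ 0) (hpos : ∀ i, 0 < (evr (R i) x₀).im) (hrel : ∀ i j, i ≠ j → ¬ GRel (R i) (R j))
    (P : MvPolynomial (ι × Fin 3) (ℂ → ℂ)) (hPan : ∀ m, Differentiable ℂ (P.coeff m))
    (hP : ∀ᶠ x in 𝓝 x₀, pev P x (fun p => EE p.2 (evr (R p.1) x)) = 0) : P = 0 := by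
  classical
  induction hn : Nat.card ι using Nat.strong_induction_on generalizing ι with
  | _ n ih =>
  rcases isEmpty_or_nonempty ι with hemp | ⟨⟨i₀⟩⟩
  · -- no functions
    have h0 : P.coeff 0 = 0 := by
      apply h41_entire _ (hPan 0) x₀
      filter_upwards [hP] with x hx
      rw [h41_base] at hx
      exact hx
    ext1 m
    have hm : m = 0 := Subsingleton.elim _ _
    subst hm
    rw [h0]; rfl
  · -- the poles
    set F : Set ℂ := ⋃ i, {x : ℂ | dn (R i) x = 0} with hF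
    have hFfin : F.Finite := Set.finite_iUnion (fun i => dn_finite (R i))
    have hnF : ∀ x : ℂ, x ∉ F ↔ ∀ i, dn (R i) x ≠ 0 := by
      intro x
      simp [hF]
    obtain ⟨y₀, hy₀F, _, hy₀neg⟩ := evr_neg (R i₀) (hR i₀) F hFfin
    obtain ⟨x₁, hx₁, hx₁ne, hseg, hsegpos, hnonneg, ⟨i₁, hi₁⟩, hder, harc⟩ :=
      exit_gen (Set.univ) isOpen_univ convex_univ F hFfin (fun i => evr (R i))
        (fun i x hx => evr_analytic (R i) x ((hnF x).mp hx.2 i)) x₀ ⟨Set.mem_univ _, (hnF x₀).mpr hdn⟩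
        hpos y₀ ⟨Set.mem_univ _, hy₀F⟩ i₀ hy₀neg
    have hdn₁ : ∀ i, dn (R i) x₁ ≠ 0 := (hnF x₁).mp hx₁.2
    -- the sides coincide
    have hside : ∀ i j, (evr (R i) x₁).im = 0 → (evr (R j) x₁).im = 0 →
        ∀ᶠ x in 𝓝 x₁, 0 < (evr (R i) x).im → 0 < (evr (R j) x).im := by
      intro i j hi hj
      refine side_of_freq _ _ x₁ (evr_analytic _ _ (hdn₁ i)) (evr_analytic _ _ (hdn₁ j)) (hder i hi)
        (hder j hj) hi hj (harc i j hi hj) ?_
      refine h41_segment_freq x₀ x₁ hx₁ne _ (fun x hx hxne => ?_)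
      exact ⟨hsegpos x hx hxne i, hsegpos x hx hxne j⟩
    -- the positive side
    set G : Set ℂ := {x | (∀ i, dn (R i) x ≠ 0) ∧ ∀ i, 0 < (evr (R i) x).im} with hG
    have hGo : IsOpen G := by
      rw [isOpen_iff_mem_nhds]
      rintro x ⟨hx1, hx2⟩
      have h1 : ∀ᶠ y in 𝓝 x, ∀ i, dn (R i) y ≠ 0 :=
        Filter.eventually_all.mpr (fun i => dn_eventually (R i) x (hx1 i))
      have h2 : ∀ᶠ y in 𝓝 x, ∀ i, 0 < (evr (R i) y).im :=
        Filter.eventually_all.mpr (fun i => h41_pos_eventually (R i) x (hx1 i) (hx2 i))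
      filter_upwards [h1, h2] with y hy1 hy2
      exact ⟨hy1, hy2⟩
    have hPan' : ∀ m x, AnalyticAt ℂ (P.coeff m) x := fun m x => (hPan m).analyticAt x
    set f : ℂ → ℂ := fun x => pev P x (fun p => EE p.2 (evr (R p.1) x)) with hf
    have hfG : AnalyticOnNhd ℂ f G := by
      rintro x ⟨hx1, hx2⟩
      exact pev_analytic P (fun p x => EE p.2 (evr (R p.1) x)) x (fun m => hPan' m x)
        (fun p => h41_comp_analytic p.2 (R p.1) x (hx1 p.1) (hx2 p.1))
    have hsegG : ∀ x ∈ segment ℝ x₀ x₁, x ≠ x₁ → x ∈ G ∧ 0 < (evr (R i₁) x).im := by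
      intro x hx hxne
      exact ⟨⟨(hnF x).mp (hseg hx).2, hsegpos x hx hxne⟩, hsegpos x hx hxne i₁⟩
    have hGM : ∀ᶠ x in 𝓝 x₁, 0 < (evr (R i₁) x).im → x ∈ G := by
      have h1 : ∀ᶠ y in 𝓝 x₁, ∀ i, dn (R i) y ≠ 0 :=
        Filter.eventually_all.mpr (fun i => dn_eventually (R i) x₁ (hdn₁ i))
      have h2 : ∀ᶠ y in 𝓝 x₁, ∀ i, 0 < (evr (R i₁) y).im → 0 < (evr (R i) y).im := by
        refine Filter.eventually_all.mpr (fun i => ?_)
        by_cases hi : (evr (R i) x₁).im = 0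
        · exact hside i₁ i hi₁ hi
        · have hpos' : 0 < (evr (R i) x₁).im := lt_of_le_of_ne (hnonneg i) (Ne.symm hi)
          filter_upwards [h41_pos_eventually (R i) x₁ (hdn₁ i) hpos'] with y hy _ using hy
      filter_upwards [h1, h2] with y hy1 hy2 hy3
      exact ⟨hy1, fun i => hy2 i hy3⟩
    have hprop : ∀ᶠ x in 𝓝 x₁, 0 < (evr (R i₁) x).im → f x = 0 :=
      propagate f (evr (R i₁)) x₀ x₁ (Ne.symm hx₁ne) G hGo hfG hsegG (evr_analytic _ _ (hdn₁ i₁))
        (hder i₁ hi₁) hi₁ hGM hP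
    -- splitting
    obtain ⟨P₁, P₂, h1, h2, h3, h4⟩ := split_poly (fun i => (evr (R i) x₁).im = 0) P
      (fun q x => EE q.2 (evr (R q.1.1) x))
    have hcoef : ∀ m, P₁.coeff m = fun x => pev (P₂ m) x (fun q => EE q.2 (evr (R q.1.1) x)) :=
      fun m => funext (fun x => h1 m x)
    have hP₂an : ∀ m n, Differentiable ℂ ((P₂ m).coeff n) := by
      intro m n
      obtain ⟨k, hk⟩ := h3 m n
      rw [hk]
      exact hPan k
    have hP₁an : ∀ m, ∀ x, (∀ i, dn (R i) x ≠ 0) →
        (∀ i : {i // ¬ (evr (R i) x₁).im = 0}, 0 < (evr (R i.1) x).im) → AnalyticAt ℂ (P₁.coeff m) x := by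
      intro m x hx1 hx2
      rw [hcoef m]
      exact pev_analytic (P₂ m) (fun q x => EE q.2 (evr (R q.1.1) x)) x
        (fun n => (hP₂an m n).analyticAt x)
        (fun q => h41_comp_analytic q.2 (R q.1.1) x (hx1 q.1.1) (hx2 q.1))
    have hpos₁ : ∀ i : {i // ¬ (evr (R i) x₁).im = 0}, 0 < (evr (R i.1) x₁).im :=
      fun i => lt_of_le_of_ne (hnonneg i.1) (Ne.symm i.2)
    have hrel₁ : ∀ᶠ x in 𝓝 x₁, (∀ i : {i // (evr (R i) x₁).im = 0}, 0 < (evr (R i.1) x).im) →
        pev P₁ x (fun q => EE q.2 (evr (R q.1.1) x)) = 0 := by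
      filter_upwards [hprop] with x hx hall
      have h5 := h2 (fun p => EE p.2 (evr (R p.1) x)) x (fun q => rfl)
      have h6 := hx (hall ⟨i₁, hi₁⟩)
      rw [hf] at h6
      simp only at h5 h6
      rw [h5, h6]
    have helim : ∀ m, ∀ᶠ x in 𝓝 x₁, P₁.coeff m x = 0 := by
      intro m
      exact arc_elim hd (fun i : {i // (evr (R i) x₁).im = 0} => R i.1) x₁ (fun i => hR i.1)
        (fun i => hdn₁ i.1) (fun i => i.2) (fun i => hder i.1 i.2)
        (fun i j => harc i.1 j.1 i.2 j.2) (fun i j => hside i.1 j.1 i.2 j.2)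
        (fun i j hij => hrel i.1 j.1 (fun h => hij (Subtype.ext h))) P₁
        (fun m => hP₁an m x₁ hdn₁ hpos₁) hrel₁ m
    have hback : ∀ m, ∀ᶠ x in 𝓝 x₀, P₁.coeff m x = 0 := by
      intro m
      refine propagate_back _ x₀ x₁ (fun x hx => ?_) (helim m)
      refine hP₁an m x ((hnF x).mp (hseg hx).2) (fun i => ?_)
      by_cases hxe : x = x₁
      · rw [hxe]; exact hpos₁ i
      · exact hsegpos x hx hxe i.1
    have hP₂ : ∀ m, P₂ m = 0 := by
      intro m
      have hcard : Nat.card {i // ¬ (evr (R i) x₁).im = 0} < n := by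
        rw [← hn]
        exact Finite.card_subtype_lt (p := fun i => ¬ (evr (R i) x₁).im = 0) (x := i₁) (not_not.mpr hi₁)
      refine ih _ hcard (ι := {i // ¬ (evr (R i) x₁).im = 0}) (fun i => R i.1) (fun i => hR i.1)
        (fun i => hdn i.1) (fun i => hpos i.1)
        (fun i j hij => hrel i.1 j.1 (fun h => hij (Subtype.ext h))) (P₂ m) (hP₂an m) ?_ rfl
      filter_upwards [hback m] with x hx
      rw [hcoef m] at hx
      exact hx
    ext1 k
    obtain ⟨m, n', hk⟩ := h4 k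
    rw [hk, hP₂ m]
    simp

/-- H41b. The version with polynomial coefficients. -/
theorem alw_poly {d : ℕ} (hd : 0 < d) {ι : Type} [Finite ι] (R : ι → RatFunc (KF d)) (x₀ : ℂ) (hR : ∀ i, ¬ ∃ c, R i = RatFunc.C c)
    (hdn : ∀ i, dn (R i) x₀ ≠ 0) (hpos : ∀ i, 0 < (evr (R i) x₀).im) (hrel : ∀ i j, i ≠ j → ¬ GRel (R i) (R j))
    (P : MvPolynomial (Option (ι × Fin 3)) ℂ)
    (hP : ∀ᶠ x in 𝓝 x₀, MvPolynomial.eval (fun o : Option (ι × Fin 3) => o.elim x (fun p => EE p.2 (evr (R p.1) x))) P = 0) : P = 0 := by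
  classical
  obtain ⟨φ, hφ⟩ : ∃ φ : Polynomial ℂ →+* (ℂ → ℂ), ∀ p x, φ p x = Polynomial.eval x p :=
    ⟨RingHom.pi (fun x => Polynomial.evalRingHom x), fun _ _ => rfl⟩
  have hφi : Function.Injective φ := by
    intro p q h
    apply Polynomial.funext
    intro x
    rw [← hφ, ← hφ, h]
  set Q := MvPolynomial.optionEquivRight ℂ (ι × Fin 3) P with hQ
  have key : ∀ (x : ℂ) (y : ι × Fin 3 → ℂ), pev (MvPolynomial.map φ Q) x y =
      MvPolynomial.eval (fun o : Option (ι × Fin 3) => o.elim x y) P := by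
    intro x y
    have h1 : ((MvPolynomial.eval y).comp ((MvPolynomial.map (Pi.evalRingHom (fun _ : ℂ => ℂ) x)).comp
        ((MvPolynomial.map φ).comp
          (MvPolynomial.optionEquivRight ℂ (ι × Fin 3) : _ →+* MvPolynomial (ι × Fin 3) (Polynomial ℂ))))) =
        MvPolynomial.eval (fun o : Option (ι × Fin 3) => o.elim x y) := by
      apply MvPolynomial.ringHom_ext
      · intro r
        simp [hφ]
      · intro o
        cases o with
        | none => simp [hφ]
        | some i => simp [hφ]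
    exact congrArg (fun g : MvPolynomial (Option (ι × Fin 3)) ℂ →+* ℂ => g P) h1
  have h0 : MvPolynomial.map φ Q = 0 := by
    apply alw hd R x₀ hR hdn hpos hrel
    · intro m
      rw [MvPolynomial.coeff_map]
      have h5 : φ (Q.coeff m) = fun x => Polynomial.eval x (Q.coeff m) := funext (fun x => hφ _ x)
      rw [h5]
      exact (Q.coeff m).differentiable
    · filter_upwards [hP] with x hx
      rw [key]
      exact hx
  have h1 : Q = 0 := by
    apply MvPolynomial.map_injective φ hφi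
    rw [h0, map_zero]
  exact (map_eq_zero_iff _ (MvPolynomial.optionEquivRight ℂ (ι × Fin 3)).injective).mp h1

end Pool.Agent.MSD
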