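import Pool.Agent.Lib.MP_f58a57_nt.Q00_Defs
import Pool.Agent.Lib.MP_f58a57_nt.A1_Basic
import Pool.Agent.Lib.MP_f58a57_nt.A1_DlQ
import Pool.Agent.Lib.MP_f58a57_nt.A5_Uniform
import Pool.Agent.Lib.MP_f58a57_nt.B3_HeckeMF

/-! # Q03: uniform growth (MP_f58a57_nt) -/

open Complex ModularForm EisensteinSeries Filter
open UpperHalfPlane hiding I
open scoped Topology MatrixGroups Polynomial

noncomputable section

namespace Pool.Agent.MSD

theorem q03_qexp {c : ℕ → ℤ} (hc : QExp c dl) (h0 : c 0 = 0) :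
    QExp (fun n => c (n + 1)) (fun z => dl z / qq z) := by
  intro z hz
  have hq : qq z ≠ 0 := by rw [qq]; exact Complex.exp_ne_zero _
  have h1 := (hasSum_nat_add_iff' 1).2 (hc z hz)
  simp only [Finset.range_one, Finset.sum_singleton, h0, Int.cast_zero, pow_zero, zero_mul, sub_zero] at h1
  have h2 := h1.div_const (qq z)
  have h3 : (fun n : ℕ => ((c (n + 1) : ℤ) : ℂ) * qq z ^ n) = fun n => (c (n + 1) : ℂ) * qq z ^ (n + 1) / qq z := by
    funext n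
    rw [pow_succ]
    field_simp
  simp only [h3]
  exact h2

theorem q03_ne (z : ℂ) : qq z ≠ 0 := by rw [qq]; exact Complex.exp_ne_zero _

theorem q03_lim : Tendsto (fun z => qq z / dl z) (comap Complex.im atTop) (𝓝 1) := by
  obtain ⟨c, hc, h0, h1⟩ := dl_q
  have h2 := a5_tendsto (q03_qexp hc h0)
  simp only [zero_add, h1, Int.cast_one] at h2
  have h3 := h2.inv₀ one_ne_zero
  rw [inv_one] at h3
  refine h3.congr fun z => ?_
  rw [inv_div]

theorem q03_diff : DifferentiableOn ℂ (fun z => qq z / dl z) {z | 0 < z.im} := by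
  refine DifferentiableOn.div ?_ dl_diff fun z hz => dl_ne_zero z hz
  unfold qq
  fun_prop

theorem q03_per : ∀ z : ℂ, 0 < z.im → (fun z => qq z / dl z) (z + 1) = (fun z => qq z / dl z) z := by
  intro z hz
  have h1 : qq (z + 1) = qq z := by
    rw [qq, qq, mul_add, mul_one, Complex.exp_add, Complex.exp_two_pi_mul_I, mul_one]
  simp only [isMF_dl.per z hz, h1]

theorem q03_bdd {g : ℂ → ℂ} (hd : DifferentiableOn ℂ g {z | 0 < z.im})
    (hper : ∀ z : ℂ, 0 < z.im → g (z + 1) = g z) {a : ℂ}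
    (hlim : Tendsto g (comap Complex.im atTop) (𝓝 a)) :
    ∃ C : ℝ, ∀ z : ℂ, 1 / 2 ≤ z.im → ‖g z‖ ≤ C := by
  have h1 : ∀ᶠ z in comap Complex.im atTop, ‖g z‖ ≤ ‖a‖ + 1 := by
    have := hlim.norm.eventually (eventually_le_nhds (show ‖a‖ < ‖a‖ + 1 by linarith))
    exact this
  rw [eventually_comap] at h1
  obtain ⟨Y, hY⟩ := eventually_atTop.1 h1
  have hK : IsCompact (Set.Icc (0 : ℝ) 1 ×ℂ Set.Icc (1 / 2 : ℝ) Y) := isCompact_Icc.reProdIm isCompact_Icc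
  have hc : ContinuousOn g (Set.Icc (0 : ℝ) 1 ×ℂ Set.Icc (1 / 2 : ℝ) Y) := by
    refine hd.continuousOn.mono fun z hz => ?_
    have := (Complex.mem_reProdIm.1 hz).2.1
    exact lt_of_lt_of_le (by norm_num) this
  obtain ⟨C, hC⟩ := hK.exists_bound_of_continuousOn hc
  refine ⟨max C (‖a‖ + 1), fun z hz => ?_⟩
  rcases le_total Y z.im with h | h
  · exact (hY z.im h z rfl).trans (le_max_right _ _)
  · have h2 := a5_per_int hper (-⌊z.re⌋) z (by linarith)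
    rw [← h2]
    refine (hC _ ?_).trans (le_max_left _ _)
    rw [Complex.mem_reProdIm]
    have h3 := Int.floor_le z.re
    have h4 := Int.lt_floor_add_one z.re
    refine ⟨⟨?_, ?_⟩, ?_, ?_⟩ <;> simp <;> linarith

/-- Q03a. PROOF. `dl_q` and `a5_bound`-type estimate: for `Im z ≥ 1`, `‖dl z - qq z‖ ≤ K ‖qq z‖²` (sum from `n = 2`; as in `a5_bound` in `A5_Uniform.lean`), so `‖dl z‖ ≥ ‖qq z‖/2` for
`Im z ≥ Y`, `‖qq z‖ = exp (-2π Im z)` (`a5_norm_qq`). On the compact set `0 ≤ Re z ≤ 1`, `1/2 ≤ Im z ≤ Y` the continuous function `‖dl z‖` has a positive minimum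
(`dl_ne_zero`, `dl_diff`); periodicity (`isMF_dl.per`, `a5_per_int`) as in `a5_bdd`. (Alternative: Mathlib's product formula for the discriminant.) -/
theorem dl_lower : ∃ c : ℝ, 0 < c ∧ ∀ z : ℂ, 1 / 2 ≤ z.im → c * Real.exp (-(2 * Real.pi * z.im)) ≤ ‖dl z‖ := by
  obtain ⟨C, hC⟩ := q03_bdd q03_diff q03_per q03_lim
  have hC0 : 0 ≤ C := (norm_nonneg _).trans (hC I (by simp; norm_num))
  refine ⟨1 / (C + 1), by positivity, fun z hz => ?_⟩
  have hz0 : 0 < z.im := by linarith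
  have h1 := hC z hz
  rw [norm_div] at h1
  have hd : 0 < ‖dl z‖ := norm_pos_iff.2 (dl_ne_zero z hz0)
  rw [div_le_iff₀ hd, a5_norm_qq] at h1
  rw [one_div, inv_mul_le_iff₀ (by positivity)]
  refine h1.trans ?_
  nlinarith

/-- Q03b. PROOF. `e6_q` and `a5_bound`. -/
theorem e6_cusp : ∃ Y : ℕ, 0 < Y ∧ ∀ z : ℂ, (Y : ℝ) ≤ z.im → ‖e6 z - 1‖ ≤ 1 / 4 := by
  obtain ⟨c, hc, h0⟩ := e6_q
  have h1 := a5_tendsto hc
  rw [h0, Int.cast_one, tendsto_iff_norm_sub_tendsto_zero] at h1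
  have h2 := h1.eventually (eventually_le_nhds (show (0 : ℝ) < 1 / 4 by norm_num))
  rw [eventually_comap] at h2
  obtain ⟨Y, hY⟩ := eventually_atTop.1 h2
  obtain ⟨A, hA⟩ := exists_nat_ge Y
  refine ⟨A + 1, by omega, fun z hz => ?_⟩
  refine hY z.im ?_ z rfl
  push_cast at hz
  linarith

/-- Q03c. PROOF. As `Gr_bound` in `B3_HeckeMF.lean` (`B3_size` with `y = 1/2`). -/
theorem Gr_bound_unif : ∃ C : ℕ, ∀ z : ℂ, 1 / 2 ≤ z.im → ∀ (κ : Fin 3) (N : ℕ), 0 < N → ∀ ρ ∈ TT N,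
    ‖Gr κ z ρ‖ ≤ (C : ℝ) * (N : ℝ) ^ C := by
  obtain ⟨C, hC⟩ := B3_size
  obtain ⟨A, hA⟩ := exists_nat_ge (2 * (C * (1 / (1 / 2 : ℝ)) ^ C))
  refine ⟨A + (6 + C), fun z hz κ N hN ρ hρ => ?_⟩
  have hN1 : (1 : ℝ) ≤ N := by exact_mod_cast hN
  have hN0 : (0 : ℝ) < N := by linarith
  refine (hC κ N z (1 / 2) hN (by norm_num) (by norm_num) hz ρ hρ).trans ?_
  calc 2 * (N : ℝ) ^ 6 * (C * (N / (1 / 2 : ℝ)) ^ C)
      = (2 * (C * (1 / (1 / 2 : ℝ)) ^ C)) * (N : ℝ) ^ (6 + C) := by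
        rw [pow_add, div_pow (N : ℝ), div_pow (1 : ℝ), one_pow]
        field_simp
    _ ≤ A * (N : ℝ) ^ (6 + C) := by gcongr
    _ ≤ ((A + (6 + C) : ℕ) : ℝ) * (N : ℝ) ^ (A + (6 + C)) := by
        refine mul_le_mul ?_ (pow_le_pow_right₀ hN1 (by omega)) (by positivity) (by positivity)
        push_cast
        linarith [(Nat.cast_nonneg C : (0 : ℝ) ≤ C)]

end Pool.Agent.MSD
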