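import Pool.Agent.Lib.MP_f58a57_nt.M00_Defs

/-! # M01: Kronecker substitution (MP_f58a57_nt) -/

open Complex ModularForm EisensteinSeries Filter
open UpperHalfPlane hiding I
open scoped Topology MatrixGroups Polynomial

noncomputable section

namespace Pool.Agent.MSD

/-- M01a. Digits in base `N`. (Induction on `s`, `Fin.sum_univ_succ`, remainder mod `N` after division by `N`; or `Nat.ofDigits_inj_of_len_eq`.) -/
theorem digits_inj {s : ℕ} (N : ℕ) (m m' : Fin s → ℕ) (hm : ∀ l, m l < N) (hm' : ∀ l, m' l < N)
    (h : ∑ l, m l * N ^ (l.val + 1) = ∑ l, m' l * N ^ (l.val + 1)) : m = m' := by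
  induction s with
  | zero => exact Subsingleton.elim _ _
  | succ s ih =>
    have hN : 0 < N := lt_of_le_of_lt (Nat.zero_le _) (hm 0)
    have key : ∀ f : Fin (s + 1) → ℕ, ∑ l, f l * N ^ (l.val + 1) =
        N * (f 0 + N * ∑ l : Fin s, f l.succ * N ^ l.val) := by
      intro f
      rw [Fin.sum_univ_succ, mul_add, Finset.mul_sum, Finset.mul_sum]
      congr 1
      · simp [mul_comm]
      · refine Finset.sum_congr rfl fun l _ => ?_
        rw [Fin.val_succ]
        ring
    rw [key m, key m'] at h
    have h1 := Nat.eq_of_mul_eq_mul_left hN h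
    have h0 : m 0 = m' 0 := by
      have h2 := congrArg (fun x => x % N) h1
      simp only [Nat.add_mul_mod_self_left] at h2
      rwa [Nat.mod_eq_of_lt (hm 0), Nat.mod_eq_of_lt (hm' 0)] at h2
    rw [h0] at h1
    have h3 := Nat.add_left_cancel h1
    have h4 : (fun l : Fin s => m l.succ) = fun l : Fin s => m' l.succ := by
      refine ih _ _ (fun l => hm l.succ) (fun l => hm' l.succ) ?_
      have e : ∀ f : Fin (s + 1) → ℕ, ∑ l : Fin s, f l.succ * N ^ (l.val + 1) =
          N * ∑ l : Fin s, f l.succ * N ^ l.val := by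
        intro f
        rw [Finset.mul_sum]
        refine Finset.sum_congr rfl fun l _ => ?_
        ring
      rw [e m, e m', h3]
    funext l
    refine Fin.cases h0 (fun j => ?_) l
    exact congrFun h4 j

/-- M01b. PROOF. The translate `P̃ = P(X_l + p_l)` has exponents `< N` too (`degreeOf`), `P = P̃(X_l - p_l)`, and `kr p N P = Σ_m coeff_m X^(Σ m_l N^(l+1))`
with different exponents for different `m` by `digits_inj`; so all coefficients of `P̃` vanish. -/
theorem kron_inj {s d : ℕ} (p : Fin s → ℚ) (N : ℕ) (P : MvPolynomial (Fin s) (KF d)) (hN : ∀ m ∈ P.support, ∀ l, m l < N)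
    (h : kr p N P = 0) : P = 0 := by
  classical
  by_cases hP : P = 0
  · exact hP
  obtain ⟨m₀, hm₀⟩ : P.support.Nonempty := by
    rw [Finset.nonempty_iff_ne_empty]
    intro h0
    exact hP (MvPolynomial.support_eq_empty.1 h0)
  set q : Fin s → KF d := fun l => algebraMap ℚ (KF d) (p l) with hq
  -- the translate
  set Q : MvPolynomial (Fin s) (KF d) :=
    MvPolynomial.aeval (fun l => MvPolynomial.X l + MvPolynomial.C (q l)) P with hQ
  have hback : MvPolynomial.aeval (fun l => MvPolynomial.X l - MvPolynomial.C (q l)) Q = P := by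
    have h1 : ((MvPolynomial.aeval (fun l => MvPolynomial.X l - MvPolynomial.C (q l))).comp
        (MvPolynomial.aeval (fun l => MvPolynomial.X l + MvPolynomial.C (q l))) :
        MvPolynomial (Fin s) (KF d) →ₐ[KF d] MvPolynomial (Fin s) (KF d)) = AlgHom.id _ _ := by
      apply MvPolynomial.algHom_ext
      intro l
      rw [AlgHom.comp_apply, MvPolynomial.aeval_X, map_add, MvPolynomial.aeval_X,
        MvPolynomial.aeval_C, MvPolynomial.algebraMap_eq, sub_add_cancel]
      rfl
    have h2 := congrArg (fun φ => φ P) h1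
    exact h2
  have hkr : kr p N P = MvPolynomial.aeval
      (fun l : Fin s => (Polynomial.X : Polynomial (KF d)) ^ (N ^ (l.val + 1))) Q := by
    have h1 : kr p N = ((MvPolynomial.aeval
        (fun l : Fin s => (Polynomial.X : Polynomial (KF d)) ^ (N ^ (l.val + 1)))).comp
        (MvPolynomial.aeval (fun l => MvPolynomial.X l + MvPolynomial.C (q l)))) := by
      apply MvPolynomial.algHom_ext
      intro l
      unfold kr
      rw [AlgHom.comp_apply, MvPolynomial.aeval_X, MvPolynomial.aeval_X, map_add,
        MvPolynomial.aeval_X, MvPolynomial.aeval_C, add_comm]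
      rfl
    rw [h1]
    rfl
  have hdeg : ∀ l, Q.degreeOf l ≤ P.degreeOf l := by
    intro l
    rw [hQ, MvPolynomial.aeval_def, MvPolynomial.eval₂_eq']
    refine (MvPolynomial.degreeOf_sum_le _ _ _).trans ?_
    refine Finset.sup_le fun m hm => ?_
    refine (MvPolynomial.degreeOf_mul_le _ _ _).trans ?_
    rw [MvPolynomial.algebraMap_eq, MvPolynomial.degreeOf_C, zero_add]
    refine (MvPolynomial.degreeOf_prod_le _ _ _).trans ?_
    refine le_trans (b := ∑ j : Fin s, if j = l then m l else 0) ?_ ?_
    · refine Finset.sum_le_sum fun j _ => ?_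
      refine (MvPolynomial.degreeOf_pow_le _ _ _).trans ?_
      have h1 : (MvPolynomial.X j + MvPolynomial.C (q j) : MvPolynomial (Fin s) (KF d)).degreeOf l ≤
          if j = l then 1 else 0 := by
        refine (MvPolynomial.degreeOf_add_le _ _ _).trans ?_
        rw [MvPolynomial.degreeOf_C, MvPolynomial.degreeOf_X]
        by_cases hjl : j = l
        · simp [hjl]
        · simp [hjl, Ne.symm hjl]
      by_cases hjl : j = l
      · subst hjl
        rw [if_pos rfl] at h1 ⊢
        exact (Nat.mul_le_mul_left _ h1).trans (by simp)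
      · rw [if_neg hjl] at h1 ⊢
        rw [Nat.le_zero.1 h1, mul_zero]
    · rw [Finset.sum_ite_eq' Finset.univ l (fun _ => m l), if_pos (Finset.mem_univ l)]
      exact MvPolynomial.monomial_le_degreeOf l hm
  have hQN : ∀ m ∈ Q.support, ∀ l, m l < N := by
    intro m hm l
    have hN0 : 0 < N := lt_of_le_of_lt (Nat.zero_le _) (hN m₀ hm₀ l)
    have h1 : P.degreeOf l < N := (MvPolynomial.degreeOf_lt_iff hN0).2 fun m hm => hN m hm l
    exact lt_of_le_of_lt ((MvPolynomial.monomial_le_degreeOf l hm).trans (hdeg l)) h1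
  rw [hkr, MvPolynomial.aeval_def, MvPolynomial.eval₂_eq'] at h
  have hcoef : ∀ m ∈ Q.support, Q.coeff m = 0 := by
    intro m hm
    have h1 := congrArg (fun f => Polynomial.coeff f (∑ l, m l * N ^ (l.val + 1))) h
    simp only [Polynomial.finsetSum_coeff, Polynomial.coeff_zero] at h1
    rw [Finset.sum_eq_single m] at h1
    · rw [Polynomial.algebraMap_eq, Polynomial.coeff_C_mul] at h1
      have h2 : (∏ i, ((Polynomial.X : Polynomial (KF d)) ^ (N ^ (i.val + 1))) ^ m i) =
          Polynomial.X ^ (∑ l, m l * N ^ (l.val + 1)) := by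
        rw [← Finset.prod_pow_eq_pow_sum]
        refine Finset.prod_congr rfl fun i _ => ?_
        rw [← pow_mul, mul_comm]
      rw [h2, Polynomial.coeff_X_pow_self, mul_one] at h1
      exact h1
    · intro m' hm' hne
      have h2 : (∏ i, ((Polynomial.X : Polynomial (KF d)) ^ (N ^ (i.val + 1))) ^ m' i) =
          Polynomial.X ^ (∑ l, m' l * N ^ (l.val + 1)) := by
        rw [← Finset.prod_pow_eq_pow_sum]
        refine Finset.prod_congr rfl fun i _ => ?_
        rw [← pow_mul, mul_comm]
      rw [h2, Polynomial.algebraMap_eq, Polynomial.coeff_C_mul, Polynomial.coeff_X_pow, if_neg, mul_zero]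
      intro he
      apply hne
      have := digits_inj N (fun l => m l) (fun l => m' l) (hQN m hm) (hQN m' hm') he
      ext l
      exact (congrFun this l).symm
    · intro hnot
      exact absurd hm hnot
  have hQ0 : Q = 0 := by
    rw [← MvPolynomial.support_eq_empty, Finset.eq_empty_iff_forall_notMem]
    intro m hm
    exact MvPolynomial.mem_support_iff.1 hm (hcoef m hm)
  rw [← hback, hQ0, map_zero]

end Pool.Agent.MSD
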