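import Pool.Agent.Lib.MP_f58a57_nt.M01_Kron

/-! # M01c: Kronecker substitution in blocks (MP_f58a57_nt) -/

open Complex ModularForm EisensteinSeries Filter
open UpperHalfPlane hiding I
open scoped Topology MatrixGroups Polynomial

noncomputable section

namespace Pool.Agent.MSD

/-- a translation does not raise the partial degrees -/
theorem m01c_transl {σ : Type} (pp : σ → ℂ) (i : σ) (N : ℕ) (P : MvPolynomial σ ℂ)
    (hN : ∀ m ∈ P.support, m i < N) :
    ∀ m ∈ (MvPolynomial.aeval (fun j => (MvPolynomial.X j + MvPolynomial.C (pp j) :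
      MvPolynomial σ ℂ)) P).support, m i < N := by
  classical
  rcases Nat.eq_zero_or_pos N with rfl | hpos
  · have hP : P = 0 := by
      rw [← MvPolynomial.support_eq_empty]
      apply Finset.eq_empty_of_forall_notMem
      intro m hm
      exact absurd (hN m hm) (Nat.not_lt_zero _)
    intro m hm
    rw [hP, map_zero] at hm
    simp at hm
  · rw [← MvPolynomial.degreeOf_lt_iff hpos]
    have h1 : MvPolynomial.aeval (fun j => (MvPolynomial.X j + MvPolynomial.C (pp j) :
        MvPolynomial σ ℂ)) P = ∑ m ∈ P.support, MvPolynomial.C (P.coeff m) *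
          ∏ j ∈ m.support, (MvPolynomial.X j + MvPolynomial.C (pp j)) ^ m j := by
      rw [MvPolynomial.aeval_def, MvPolynomial.eval₂_eq]
      rfl
    rw [h1]
    refine lt_of_le_of_lt (MvPolynomial.degreeOf_sum_le _ _ _) ?_
    rw [Finset.sup_lt_iff hpos]
    intro m hm
    refine lt_of_le_of_lt ?_ (hN m hm)
    refine (MvPolynomial.degreeOf_C_mul_le _ _ _).trans ?_
    refine (MvPolynomial.degreeOf_prod_le _ _ _).trans ?_
    have h2 : ∀ j ∈ m.support, MvPolynomial.degreeOf i ((MvPolynomial.X j +
        MvPolynomial.C (pp j) : MvPolynomial σ ℂ) ^ m j) ≤ if i = j then m i else 0 := by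
      intro j _
      refine (MvPolynomial.degreeOf_pow_le _ _ _).trans ?_
      have h3 := MvPolynomial.degreeOf_add_le i (MvPolynomial.X j : MvPolynomial σ ℂ)
        (MvPolynomial.C (pp j))
      rw [MvPolynomial.degreeOf_C, MvPolynomial.degreeOf_X] at h3
      by_cases hij : i = j
      · subst hij
        simp only [if_true] at h3 ⊢
        calc m i * _ ≤ m i * 1 := Nat.mul_le_mul le_rfl (by simpa using h3)
          _ = m i := mul_one _
      · simp only [hij, if_false] at h3 ⊢
        have : MvPolynomial.degreeOf i (MvPolynomial.X j + MvPolynomial.C (pp j) :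
          MvPolynomial σ ℂ) = 0 := by simpa using h3
        rw [this, mul_zero]
    refine (Finset.sum_le_sum h2).trans ?_
    rw [Finset.sum_ite_eq]
    split_ifs
    · exact le_rfl
    · exact Nat.zero_le _

/-- a monomial substitution is injective on polynomials whose exponents are separated -/
theorem m01c_mono {σ τ : Type} (ε : σ → τ →₀ ℕ) (P : MvPolynomial σ ℂ)
    (hinj : ∀ m ∈ P.support, ∀ m' ∈ P.support,
      (m.sum fun i k => k • ε i) = (m'.sum fun i k => k • ε i) → m = m')
    (h : MvPolynomial.aeval (fun i => (MvPolynomial.monomial (ε i) 1 : MvPolynomial τ ℂ)) P = 0) :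
    P = 0 := by
  classical
  by_contra hP
  obtain ⟨m0, hm0⟩ : P.support.Nonempty := by
    rw [Finset.nonempty_iff_ne_empty, Ne, MvPolynomial.support_eq_empty]
    exact hP
  have h1 : MvPolynomial.aeval (fun i => (MvPolynomial.monomial (ε i) 1 : MvPolynomial τ ℂ)) P =
      ∑ m ∈ P.support, MvPolynomial.monomial (m.sum fun i k => k • ε i) (P.coeff m) := by
    conv_lhs => rw [P.as_sum]
    rw [map_sum]
    apply Finset.sum_congr rfl
    intro m _
    rw [MvPolynomial.aeval_monomial]
    simp only [MvPolynomial.monomial_pow, one_pow]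
    rw [Finsupp.prod, Finsupp.sum]
    rw [← MvPolynomial.monomial_sum_one, MvPolynomial.algebraMap_eq, MvPolynomial.C_mul_monomial,
      mul_one]
  rw [h1] at h
  have h2 := congrArg (MvPolynomial.coeff (m0.sum fun i k => k • ε i)) h
  rw [MvPolynomial.coeff_sum, Finset.sum_eq_single m0, MvPolynomial.coeff_monomial, if_pos rfl,
    MvPolynomial.coeff_zero] at h2
  · exact (MvPolynomial.mem_support_iff.mp hm0) h2
  · intro m hm hne
    rw [MvPolynomial.coeff_monomial, if_neg]
    intro h3
    exact hne (hinj m hm m0 hm0 h3)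
  · intro h3
    exact absurd hm0 h3

/-- M01c. The version in blocks, with additional variables. PROOF. The same: after the translation `X_l ↦ X_l + p_l` the monomial `Π_l x_l^(m_l) · Y^n` goes to
`Π_b X_b^(Σ_{bl l = b} m_l N^(l+1)) · Y^n`, and different `(m, n)` with `m_l < N` have different images (`digits_inj` for `m` restricted to the block `b`). -/
theorem kron_block {s r : ℕ} (bl : Fin s → Fin r) (ι : Fin r → Type) [∀ b, Finite (ι b)] (p : Fin s → ℚ) (N : ℕ)
    (P : MvPolynomial (Fin s ⊕ (Σ b, ι b × Fin 3)) ℂ) (hN : ∀ m ∈ P.support, ∀ l, m (Sum.inl l) < N)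
    (h : MvPolynomial.aeval (Sum.elim
        (fun l => (MvPolynomial.C (p l : ℂ) + MvPolynomial.X ⟨bl l, none⟩ ^ (N ^ (l.val + 1)) :
          MvPolynomial (Σ b, Option (ι b × Fin 3)) ℂ))
        (fun q => MvPolynomial.X ⟨q.1, some q.2⟩)) P = 0) : P = 0 := by
  classical
  let pp : Fin s ⊕ (Σ b, ι b × Fin 3) → ℂ := Sum.elim (fun l => (p l : ℂ)) (fun _ => 0)
  let ε : Fin s ⊕ (Σ b, ι b × Fin 3) → (Σ b, Option (ι b × Fin 3)) →₀ ℕ :=
    Sum.elim (fun l => Finsupp.single ⟨bl l, none⟩ (N ^ (l.val + 1)))
      (fun q => Finsupp.single ⟨q.1, some q.2⟩ 1)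
  let τP : MvPolynomial (Fin s ⊕ (Σ b, ι b × Fin 3)) ℂ :=
    MvPolynomial.aeval (fun j => (MvPolynomial.X j + MvPolynomial.C (pp j) :
      MvPolynomial (Fin s ⊕ (Σ b, ι b × Fin 3)) ℂ)) P
  have hτ : ∀ m ∈ τP.support, ∀ l, m (Sum.inl l) < N := fun m hm l =>
    m01c_transl pp (Sum.inl l) N P (fun m hm => hN m hm l) m hm
  have h0 : MvPolynomial.aeval (fun i => (MvPolynomial.monomial (ε i) 1 :
      MvPolynomial (Σ b, Option (ι b × Fin 3)) ℂ)) τP = 0 := by
    rw [← h]
    change MvPolynomial.aeval _ (MvPolynomial.aeval _ P) = _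
    rw [← AlgHom.comp_apply, MvPolynomial.comp_aeval]
    congr 2
    funext i
    rcases i with l | q
    · simp only [Sum.elim_inl, map_add, MvPolynomial.aeval_X, MvPolynomial.algHom_C, pp, ε]
      rw [MvPolynomial.algebraMap_eq, add_comm, MvPolynomial.X_pow_eq_monomial]
    · simp only [Sum.elim_inr, MvPolynomial.aeval_X, map_zero, add_zero, pp, ε]
      rfl
  -- coordinates
  have hcoord : ∀ (m : Fin s ⊕ (Σ b, ι b × Fin 3) →₀ ℕ) (x : Σ b, Option (ι b × Fin 3)),
      (m.sum fun i k => k • ε i) x = m.sum fun i k => k * ε i x := by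
    intro m x
    rw [Finsupp.sum, Finsupp.finsetSum_apply]
    rfl
  have hq : ∀ (m : Fin s ⊕ (Σ b, ι b × Fin 3) →₀ ℕ) (q : Σ b, ι b × Fin 3),
      (m.sum fun i k => k • ε i) ⟨q.1, some q.2⟩ = m (Sum.inr q) := by
    intro m q
    rw [hcoord, Finsupp.sum, Finset.sum_eq_single (Sum.inr q)]
    · simp [ε]
    · rintro (l | q') _ hne
      · have hne' : (⟨bl l, none⟩ : Σ b, Option (ι b × Fin 3)) ≠ ⟨q.1, some q.2⟩ := by
          intro h3
          rcases q with ⟨b, x⟩
          simp only [Sigma.mk.injEq] at h3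
          obtain ⟨h4, h5⟩ := h3
          subst h4
          simp at h5
        simp only [ε, Sum.elim_inl]
        rw [Finsupp.single_eq_of_ne' hne', mul_zero]
      · have hne' : (⟨q'.1, some q'.2⟩ : Σ b, Option (ι b × Fin 3)) ≠ ⟨q.1, some q.2⟩ := by
          intro h3
          apply hne
          rcases q with ⟨b, x⟩
          rcases q' with ⟨b', x'⟩
          simp only [Sigma.mk.injEq] at h3
          obtain ⟨h4, h5⟩ := h3
          subst h4
          simp only [heq_eq_eq, Option.some.injEq] at h5
          rw [h5]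
        simp only [ε, Sum.elim_inr]
        rw [Finsupp.single_eq_of_ne' hne', mul_zero]
    · intro h3
      rw [Finsupp.notMem_support_iff.mp h3, zero_mul]
  have hl : ∀ (m : Fin s ⊕ (Σ b, ι b × Fin 3) →₀ ℕ) (b : Fin r),
      (m.sum fun i k => k • ε i) ⟨b, none⟩ =
        ∑ l, (if bl l = b then m (Sum.inl l) else 0) * N ^ (l.val + 1) := by
    intro m b
    have : Fintype (Σ b, ι b × Fin 3) := Fintype.ofFinite _
    rw [hcoord, Finsupp.sum_fintype _ _ (fun i => zero_mul _), Fintype.sum_sum_type]
    have h5 : ∑ q : Σ b, ι b × Fin 3, m (Sum.inr q) * ε (Sum.inr q) ⟨b, none⟩ = 0 := by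
      apply Finset.sum_eq_zero
      intro q _
      simp only [ε, Sum.elim_inr]
      rw [Finsupp.single_eq_of_ne', mul_zero]
      intro h6
      rcases q with ⟨b', x'⟩
      simp only [Sigma.mk.injEq] at h6
      obtain ⟨h7, h8⟩ := h6
      subst h7
      simp at h8
    rw [h5, add_zero]
    apply Finset.sum_congr rfl
    intro l _
    simp only [ε, Sum.elim_inl]
    by_cases hb : bl l = b
    · subst hb
      rw [if_pos rfl, Finsupp.single_eq_same]
    · rw [if_neg hb, Finsupp.single_eq_of_ne', mul_zero, zero_mul]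
      intro h6
      apply hb
      simp only [Sigma.mk.injEq] at h6
      exact h6.1
  have hτ0 : τP = 0 := by
    apply m01c_mono ε τP _ h0
    intro m hm m' hm' heq
    ext i
    rcases i with l | q
    · have h1 := hl m (bl l)
      rw [heq, hl m' (bl l)] at h1
      have hpos : 0 < N := lt_of_le_of_lt (Nat.zero_le _) (hτ m hm l)
      have h2 := digits_inj N (fun l' => if bl l' = bl l then m' (Sum.inl l') else 0)
        (fun l' => if bl l' = bl l then m (Sum.inl l') else 0) (fun l' => by
          split_ifs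
          · exact hτ m' hm' l'
          · exact hpos) (fun l' => by
          split_ifs
          · exact hτ m hm l'
          · exact hpos) h1
      have h3 := congrFun h2 l
      simp only [if_true] at h3
      exact h3.symm
    · rw [← hq m q, heq, hq m' q]
  have hinv : MvPolynomial.aeval (fun j => (MvPolynomial.X j - MvPolynomial.C (pp j) :
      MvPolynomial (Fin s ⊕ (Σ b, ι b × Fin 3)) ℂ)) τP = P := by
    change MvPolynomial.aeval _ (MvPolynomial.aeval _ P) = _
    rw [← AlgHom.comp_apply, MvPolynomial.comp_aeval]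
    have : (fun i => MvPolynomial.aeval (fun j => (MvPolynomial.X j - MvPolynomial.C (pp j) :
        MvPolynomial (Fin s ⊕ (Σ b, ι b × Fin 3)) ℂ))
        (MvPolynomial.X i + MvPolynomial.C (pp i))) = MvPolynomial.X := by
      funext i
      rw [map_add, MvPolynomial.aeval_X, MvPolynomial.algHom_C, MvPolynomial.algebraMap_eq]
      ring
    rw [this, MvPolynomial.aeval_X_left_apply]
  rw [← hinv, hτ0, map_zero]

end Pool.Agent.MSD
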