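import Pool.Agent.Lib.MP_f58a57_nt.M01_Kron
import Pool.Agent.Lib.MP_f58a57_nt.H02_Eval

/-! # M02: the restricted functions (MP_f58a57_nt) -/

open Complex ModularForm EisensteinSeries Filter
open UpperHalfPlane hiding I
open scoped Topology MatrixGroups Polynomial

noncomputable section

namespace Pool.Agent.MSD

theorem m02_kr_eval {s d : ℕ} (U : MvPolynomial (Fin s) (KF d)) (p : Fin s → ℚ) (N : ℕ) (x : ℂ) :
    (kr p N U).eval₂ (algebraMap (KF d) ℂ) x =
      MvPolynomial.aeval (fun l : Fin s => ((p l : ℂ) + x ^ (N ^ (l.val + 1)))) U := by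
  have h : (Polynomial.aeval x : Polynomial (KF d) →ₐ[KF d] ℂ).comp (kr p N) =
      MvPolynomial.aeval (fun l : Fin s => ((p l : ℂ) + x ^ (N ^ (l.val + 1)))) := by
    refine MvPolynomial.algHom_ext fun l => ?_
    simp [kr]
  have h2 := DFunLike.congr_fun h U
  simpa [Polynomial.aeval_def] using h2

theorem m02_dn {d : ℕ} (q : Polynomial (KF d)) (x : ℂ) :
    dn (algebraMap (Polynomial (KF d)) (RatFunc (KF d)) q) x = 1 := by
  unfold dn
  rw [RatFunc.denom_algebraMap]
  simp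

theorem m02_evr {d : ℕ} (q : Polynomial (KF d)) (x : ℂ) :
    evr (algebraMap (Polynomial (KF d)) (RatFunc (KF d)) q) x = q.eval₂ (algebraMap (KF d) ℂ) x := by
  unfold evr RatFunc.eval
  rw [RatFunc.denom_algebraMap, RatFunc.num_algebraMap]
  simp

theorem m02_kr_ne {s d : ℕ} (V : MvPolynomial (Fin s) (KF d)) (p : Fin s → ℚ) (N : ℕ)
    (hV : ∀ m ∈ V.support, ∀ l, m l < N) (hV0 : V ≠ 0) :
    algebraMap (Polynomial (KF d)) (RatFunc (KF d)) (kr p N V) ≠ 0 := by
  intro h
  rw [map_eq_zero_iff _ (IsFractionRing.injective (Polynomial (KF d)) (RatFunc (KF d)))] at h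
  exact hV0 (kron_inj p N V hV h)

theorem m02_sub {s d : ℕ} (P Q : MvPolynomial (Fin s) (KF d)) (M : ℕ)
    (hP : ∀ m ∈ P.support, ∀ l, m l < M) (hQ : ∀ m ∈ Q.support, ∀ l, m l < M) :
    ∀ m ∈ (P - Q).support, ∀ l, m l < M := by
  intro m hm l
  have h := MvPolynomial.support_sub _ P Q hm
  rcases Finset.mem_union.mp h with h | h
  · exact hP m h l
  · exact hQ m h l

theorem m02_add {s d : ℕ} (P Q : MvPolynomial (Fin s) (KF d)) (M : ℕ)
    (hP : ∀ m ∈ P.support, ∀ l, m l < M) (hQ : ∀ m ∈ Q.support, ∀ l, m l < M) :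
    ∀ m ∈ (P + Q).support, ∀ l, m l < M := by
  intro m hm l
  have h := MvPolynomial.support_add hm
  rcases Finset.mem_union.mp h with h | h
  · exact hP m h l
  · exact hQ m h l

theorem m02_C_mul {s d : ℕ} (c : KF d) (P : MvPolynomial (Fin s) (KF d)) (M : ℕ)
    (hP : ∀ m ∈ P.support, ∀ l, m l < M) :
    ∀ m ∈ (MvPolynomial.C c * P).support, ∀ l, m l < M := by
  intro m hm l
  refine hP m ?_ l
  rw [MvPolynomial.mem_support_iff, MvPolynomial.coeff_C_mul] at hm
  rw [MvPolynomial.mem_support_iff]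
  exact right_ne_zero_of_mul hm

theorem m02_mul {s d : ℕ} (P Q : MvPolynomial (Fin s) (KF d)) (M : ℕ)
    (hP : ∀ m ∈ P.support, ∀ l, m l < M) (hQ : ∀ m ∈ Q.support, ∀ l, m l < M) :
    ∀ m ∈ (P * Q).support, ∀ l, m l < 2 * M := by
  intro m hm l
  have h := MvPolynomial.support_mul P Q hm
  obtain ⟨m1, h1, m2, h2, rfl⟩ := Finset.mem_add.mp h
  have := hP m1 h1 l
  have := hQ m2 h2 l
  simp only [Finsupp.add_apply]
  omega

/-- M02a. PROOF. `aeval x (kr p N U) = aeval (p_l + x^(N^(l+1))) U` (`MvPolynomial.aeval`/`Polynomial.aeval` composition); so `kr p N V ≠ 0` and its value at `x` is not `0`; use `evr_div`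
(the functions `algebraMap q` have denominator `1`). -/
theorem rho_eval {s d : ℕ} (U V : MvPolynomial (Fin s) (KF d)) (p : Fin s → ℚ) (N : ℕ) (x : ℂ)
    (hx : MvPolynomial.aeval (fun l : Fin s => ((p l : ℂ) + x ^ (N ^ (l.val + 1)))) V ≠ 0) :
    dn (rho U V p N) x ≠ 0 ∧ evr (rho U V p N) x = MvPolynomial.aeval (fun l : Fin s => ((p l : ℂ) + x ^ (N ^ (l.val + 1)))) U /
      MvPolynomial.aeval (fun l : Fin s => ((p l : ℂ) + x ^ (N ^ (l.val + 1)))) V := by
  have h := evr_div (algebraMap (Polynomial (KF d)) (RatFunc (KF d)) (kr p N U))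
    (algebraMap (Polynomial (KF d)) (RatFunc (KF d)) (kr p N V)) x (by rw [m02_dn]; exact one_ne_zero)
    (by rw [m02_dn]; exact one_ne_zero) (by rw [m02_evr, m02_kr_eval]; exact hx)
  rw [m02_evr, m02_evr, m02_kr_eval, m02_kr_eval] at h
  exact h

/-- M02b. PROOF. If `rho = c` then `kr (U - c V) = 0`, so `U = c V` by `kron_inj`. -/
theorem rho_nonconst {s d : ℕ} (U V : MvPolynomial (Fin s) (KF d)) (p : Fin s → ℚ) (N : ℕ) (hU : ∀ m ∈ U.support, ∀ l, m l < N)
    (hV : ∀ m ∈ V.support, ∀ l, m l < N) (hV0 : V ≠ 0) (h : ¬ ∃ c, U = MvPolynomial.C c * V) :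
    ¬ ∃ c, rho U V p N = RatFunc.C c := by
  rintro ⟨c, hc⟩
  apply h
  refine ⟨c, ?_⟩
  have hVn := m02_kr_ne V p N hV hV0
  have hinj := IsFractionRing.injective (Polynomial (KF d)) (RatFunc (KF d))
  unfold rho at hc
  rw [div_eq_iff hVn, ← RatFunc.algebraMap_C, ← map_mul] at hc
  have h1 := hinj hc
  have h2 : kr p N (U - MvPolynomial.C c * V) = 0 := by
    rw [map_sub, map_mul, h1]
    simp [kr]
  have h3 := kron_inj p N _ (m02_sub U _ N hU (m02_C_mul c V N hV)) h2
  exact sub_eq_zero.mp h3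

/-- M02c. PROOF. A relation `GRel` gives, multiplied by the denominators, `kr (U' (c U + e V) - V' (a U + b V)) = 0`; the exponents of this polynomial are `< 2 M ≤ N`; `kron_inj`. -/
theorem rho_rel {s d : ℕ} (U V U' V' : MvPolynomial (Fin s) (KF d)) (p : Fin s → ℚ) (M N : ℕ) (hMN : 2 * M ≤ N)
    (hU : ∀ m ∈ U.support, ∀ l, m l < M) (hV : ∀ m ∈ V.support, ∀ l, m l < M) (hU' : ∀ m ∈ U'.support, ∀ l, m l < M)
    (hV' : ∀ m ∈ V'.support, ∀ l, m l < M) (hV0 : V ≠ 0) (hV0' : V' ≠ 0) (h : ¬ PRel U V U' V') :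
    ¬ GRel (rho U V p N) (rho U' V' p N) := by
  rintro ⟨a, b, c, e, hdet, hrel⟩
  apply h
  refine ⟨a, b, c, e, hdet, ?_⟩
  have hVn := m02_kr_ne V p N (fun m hm l => by have := hV m hm l; omega) hV0
  have hVn' := m02_kr_ne V' p N (fun m hm l => by have := hV' m hm l; omega) hV0'
  have hinj := IsFractionRing.injective (Polynomial (KF d)) (RatFunc (KF d))
  unfold rho at hrel
  have hr2 : algebraMap (Polynomial (KF d)) (RatFunc (KF d)) (kr p N U') *
      (RatFunc.C (c : KF d) * algebraMap (Polynomial (KF d)) (RatFunc (KF d)) (kr p N U) +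
        RatFunc.C (e : KF d) * algebraMap (Polynomial (KF d)) (RatFunc (KF d)) (kr p N V)) =
      algebraMap (Polynomial (KF d)) (RatFunc (KF d)) (kr p N V') *
      (RatFunc.C (a : KF d) * algebraMap (Polynomial (KF d)) (RatFunc (KF d)) (kr p N U) +
        RatFunc.C (b : KF d) * algebraMap (Polynomial (KF d)) (RatFunc (KF d)) (kr p N V)) := by
    field_simp at hrel
    linear_combination hrel
  rw [← RatFunc.algebraMap_C, ← RatFunc.algebraMap_C, ← RatFunc.algebraMap_C, ← RatFunc.algebraMap_C,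
    ← map_mul, ← map_mul, ← map_mul, ← map_mul, ← map_add, ← map_add, ← map_mul, ← map_mul] at hr2
  have h1 := hinj hr2
  have hk : ∀ q : KF d, kr p N (MvPolynomial.C q) = Polynomial.C q := by
    intro q
    simp [kr]
  have h2 : kr p N (U' * (MvPolynomial.C (c : KF d) * U + MvPolynomial.C (e : KF d) * V) -
      V' * (MvPolynomial.C (a : KF d) * U + MvPolynomial.C (b : KF d) * V)) = 0 := by
    rw [map_sub, map_mul, map_mul, map_add, map_add, map_mul, map_mul, map_mul, map_mul, hk, hk, hk,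
      hk, h1, sub_self]
  have h3 := kron_inj p N _ (fun m hm l => by
    have := m02_sub _ _ (2 * M)
      (m02_mul U' _ M hU' (m02_add _ _ M (m02_C_mul (c : KF d) U M hU) (m02_C_mul (e : KF d) V M hV)))
      (m02_mul V' _ M hV' (m02_add _ _ M (m02_C_mul (a : KF d) U M hU) (m02_C_mul (b : KF d) V M hV)))
      m hm l
    omega) h2
  exact sub_eq_zero.mp h3

end Pool.Agent.MSD
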