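import Pool.Agent.Lib.MP_f58a57_nt.M00_Defs

/-! # M03: a flagged sequence (MP_f58a57_nt) -/

open Complex ModularForm EisensteinSeries Filter
open UpperHalfPlane hiding I
open scoped Topology MatrixGroups Polynomial

noncomputable section

namespace Pool.Agent.MSD

/-- M03. PROOF. `x k l = (1/2)^((k+1)^(r-l))`: for `l < l'` and `k + 1 ≥ C`, `(k+1)^(r-l) ≥ (k+1) (k+1)^(r-l') ≥ C (k+1)^(r-l')`. -/
theorem exists_flag (r : ℕ) : ∃ x : ℕ → Fin r → ℂ, (∀ l, Tendsto (fun k => x k l) atTop (𝓝 0)) ∧ (∀ k l, x k l ≠ 0) ∧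
    ∀ C : ℕ, ∀ᶠ k in atTop, ∀ l l', l < l' → ‖x k l‖ ≤ ‖x k l'‖ ^ C := by
  refine ⟨fun k l => ((1 : ℂ) / 2) ^ ((k + 1) ^ (r - l.val)), fun l => ?_, fun k l => ?_, fun C => ?_⟩
  · have h1 : Tendsto (fun n : ℕ => ((1 : ℂ) / 2) ^ n) atTop (𝓝 0) := by
      apply tendsto_pow_atTop_nhds_zero_of_norm_lt_one
      rw [norm_div, norm_one, Complex.norm_ofNat]
      norm_num
    have h2 : Tendsto (fun k : ℕ => (k + 1) ^ (r - l.val)) atTop atTop := by
      have h3 : r - l.val ≠ 0 := by omega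
      exact (tendsto_pow_atTop h3).comp (tendsto_add_atTop_nat 1)
    exact h1.comp h2
  · exact pow_ne_zero _ (by norm_num)
  · filter_upwards [eventually_ge_atTop C] with k hk l l' hl
    simp only [norm_pow, norm_div, norm_one, Complex.norm_ofNat]
    rw [← pow_mul]
    apply pow_le_pow_of_le_one (by norm_num) (by norm_num)
    have h1 : l.val < l'.val := hl
    have h2 : r - l'.val + 1 ≤ r - l.val := by omega
    calc (k + 1) ^ (r - l'.val) * C ≤ (k + 1) ^ (r - l'.val) * (k + 1) := Nat.mul_le_mul_left _ (by omega)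
      _ = (k + 1) ^ (r - l'.val + 1) := by rw [pow_succ]
      _ ≤ (k + 1) ^ (r - l.val) := Nat.pow_le_pow_right (by omega) h2

end Pool.Agent.MSD
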