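import Pool.Agent.Lib.MP_f58a57_nt.M00_Defs
import Pool.Agent.Lib.MP_f58a57_nt.F4_Indep

/-! # M04a: analyticity of the family (MP_f58a57_nt) -/

open Complex ModularForm EisensteinSeries Filter
open UpperHalfPlane hiding I
open scoped Topology MatrixGroups Polynomial

noncomputable section

namespace Pool.Agent.MSD

/-- M04a. Analyticity (`AnalyticAt.aeval_mvPolynomial`, `F4_EE_analytic`). -/
theorem famM_analytic {s r : ℕ} (d : Fin r → ℕ) {ι : Fin r → Type} (U V : ∀ b, ι b → MvPolynomial (Fin s) (KF (d b)))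
    (x₀ : Fin s → ℂ) (hV : ∀ b i, MvPolynomial.aeval x₀ (V b i) ≠ 0)
    (hpos : ∀ b i, 0 < (MvPolynomial.aeval x₀ (U b i) / MvPolynomial.aeval x₀ (V b i) : ℂ).im) (ν : Fin s ⊕ (Σ b, ι b × Fin 3)) :
    AnalyticAt ℂ (fun x => famM d U V x ν) x₀ := by
  have hproj : ∀ l : Fin s, AnalyticAt ℂ (fun x : Fin s → ℂ => x l) x₀ := fun l =>
    (ContinuousLinearMap.proj (R := ℂ) (φ := fun _ : Fin s => ℂ) l).analyticAt x₀
  rcases ν with l | ⟨b, i, κ⟩
  · exact hproj l
  · have hU : AnalyticAt ℂ (fun x : Fin s → ℂ => (MvPolynomial.aeval x (U b i) : ℂ)) x₀ :=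
      AnalyticAt.aeval_mvPolynomial (f := fun x : Fin s → ℂ => x) hproj (U b i)
    have hV' : AnalyticAt ℂ (fun x : Fin s → ℂ => (MvPolynomial.aeval x (V b i) : ℂ)) x₀ :=
      AnalyticAt.aeval_mvPolynomial (f := fun x : Fin s → ℂ => x) hproj (V b i)
    have hdiv : AnalyticAt ℂ (fun x : Fin s → ℂ =>
        (MvPolynomial.aeval x (U b i) / MvPolynomial.aeval x (V b i) : ℂ)) x₀ := hU.fun_div hV' (hV b i)
    have hE := F4_EE_analytic κ _ (hpos b i)
    exact AnalyticAt.fun_comp (g := EE κ)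
      (f := fun x : Fin s → ℂ => (MvPolynomial.aeval x (U b i) / MvPolynomial.aeval x (V b i) : ℂ)) hE hdiv

end Pool.Agent.MSD
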