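import Pool.Agent.Lib.MP_f58a57_nt.M01c_Block
import Pool.Agent.Lib.MP_f58a57_nt.M02_Rho
import Pool.Agent.Lib.MP_f58a57_nt.M03_Flag
import Pool.Agent.Lib.MP_f58a57_nt.M04a_An
import Pool.Agent.Lib.MP_f58a57_nt.H41_ALW
import Pool.Agent.Lib.MP_f58a57_nt.F6_Flag
import Pool.Agent.Lib.MP_f58a57_nt.F4_Indep

/-! # M04: functional independence in several variables (MP_f58a57_nt) -/

open Complex ModularForm EisensteinSeries Filter
open UpperHalfPlane hiding I
open scoped Topology MatrixGroups Polynomial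

noncomputable section

namespace Pool.Agent.MSD

/-- the exponents are bounded by the total degree -/
theorem m04_exp {σ K : Type} [CommSemiring K] (P : MvPolynomial σ K) (m : σ →₀ ℕ) (hm : m ∈ P.support) (l : σ) :
    m l ≤ P.totalDegree := by
  classical
  refine le_trans ?_ (MvPolynomial.le_totalDegree hm)
  by_cases hl : l ∈ m.support
  · exact Finset.single_le_sum (f := fun i => m i) (fun i _ => Nat.zero_le _) hl
  · rw [Finsupp.notMem_support_iff.mp hl]
    exact Nat.zero_le _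

/-- a rational point near a real point -/
theorem m04_rat {s : ℕ} (t : Fin s → ℝ) (G : (Fin s → ℂ) → Prop) (h : ∀ᶠ x in 𝓝 (fun l => (t l : ℂ)), G x) :
    ∃ p : Fin s → ℚ, G (fun l => (p l : ℂ)) := by
  obtain ⟨ε, hε, hb⟩ := Metric.eventually_nhds_iff_ball.mp h
  have h1 : ∀ l, ∃ q : ℚ, t l < q ∧ (q : ℝ) < t l + ε := fun l => exists_rat_btwn (by linarith)
  choose p hp hp' using h1
  refine ⟨p, hb _ ?_⟩
  rw [Metric.mem_ball, dist_pi_lt_iff hε]
  intro l
  have h2 : dist ((p l : ℚ) : ℂ) (t l : ℂ) = |((p l : ℚ) : ℝ) - t l| := by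
    rw [dist_eq_norm, ← Real.norm_eq_abs, ← Complex.norm_real]
    push_cast
    rfl
  rw [h2, abs_lt]
  constructor
  · linarith [hp l]
  · linarith [hp' l]

/-- evaluation depends only on the variables that occur -/
theorem m04_congr {s d : ℕ} (U : MvPolynomial (Fin s) (KF d)) (x y : Fin s → ℂ) (h : ∀ l ∈ U.vars, x l = y l) :
    MvPolynomial.aeval x U = MvPolynomial.aeval y U := by
  have := MvPolynomial.eval₂Hom_congr' (f₁ := algebraMap (KF d) ℂ) (f₂ := algebraMap (KF d) ℂ) (g₁ := x) (g₂ := y)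
    (p₁ := U) (p₂ := U) rfl (fun i hi _ => h i hi) rfl
  simpa [MvPolynomial.aeval_def] using this

/-- M04b. PROOF. Choose rational `p` near `t` such that near `p` the relation holds, `V b i (p) ≠ 0` and `Im > 0`. Choose `M` larger than all exponents of all `U b i, V b i` and `N` larger than `2 M`, than
all exponents of `P` in the variables `inl l`, and `N ≥ 1`. Put `φ b x none = x`, `φ b x (some (i, κ)) = EE κ (evr (rho (U b i) (V b i) p N) x)`, `x₀ = 0`; `rho_eval` at `0` (`0 ^ (N^(l+1)) = 0`) gives the value `U(p)/V(p)`; `alw_poly` (with `rho_nonconst`, `rho_rel`) gives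
the independence of `φ b` near `0`, and it is analytic at `0`. Let `P'` be the polynomial in `kron_block`, `P' ≠ 0` if `P ≠ 0`. By `flag_nonvanish` for the sequence `λ_k` of `exists_flag`, `eval (φ(λ_k)) P' ≠ 0` for large `k`. But
`eval (φ(λ)) P' = eval (famM (p_l + λ_{bl l}^(N^(l+1)))) P` (`rho_eval`; `U b i`, `V b i` only contain variables with `bl l = b`, so the value at `(p_l + λ_{bl l}^(...))_l` equals the value at `(p_l + λ_b^(...))_l`), which is `0` for small `λ`. -/
theorem famM_indep {s r : ℕ} (bl : Fin s → Fin r) (d : Fin r → ℕ) (t : Fin s → ℝ) (ι : Fin r → Type) [∀ b, Finite (ι b)]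
    (U V : ∀ b, ι b → MvPolynomial (Fin s) (KF (d b))) (h : Sys bl d t ι U V) (P : MvPolynomial (Fin s ⊕ (Σ b, ι b × Fin 3)) ℂ)
    (hP : ∀ᶠ x in 𝓝 (fun l => (t l : ℂ)), MvPolynomial.eval (famM d U V x) P = 0) : P = 0 := by
  classical
  by_contra hP0
  -- the rational point
  have hcont : ∀ b (W : MvPolynomial (Fin s) (KF (d b))), Continuous fun x : Fin s → ℂ => MvPolynomial.aeval x W :=
    fun b W => by
      have h1 : (fun x : Fin s → ℂ => MvPolynomial.aeval x W) =
          fun x => MvPolynomial.eval x (MvPolynomial.map (algebraMap (KF (d b)) ℂ) W) := by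
        funext x
        rw [MvPolynomial.eval_map, MvPolynomial.aeval_def]
      rw [h1]
      exact MvPolynomial.continuous_eval _
  have hgood : ∀ᶠ x in 𝓝 (fun l => (t l : ℂ)), (∀ᶠ y in 𝓝 x, MvPolynomial.eval (famM d U V y) P = 0) ∧
      (∀ b i, MvPolynomial.aeval x (V b i) ≠ 0) ∧
      (∀ b i, 0 < (MvPolynomial.aeval x (U b i) / MvPolynomial.aeval x (V b i) : ℂ).im) := by
    refine (eventually_eventually_nhds.mpr hP).and ((eventually_all.mpr fun b => eventually_all.mpr fun i => ?_).and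
      (eventually_all.mpr fun b => eventually_all.mpr fun i => ?_))
    · exact (hcont b (V b i)).continuousAt.eventually_ne (h.ne b i)
    · have hc : ContinuousAt (fun x : Fin s → ℂ => (MvPolynomial.aeval x (U b i) / MvPolynomial.aeval x (V b i) : ℂ).im)
          (fun l => (t l : ℂ)) :=
        Complex.continuous_im.continuousAt.comp
          ((hcont b (U b i)).continuousAt.div (hcont b (V b i)).continuousAt (h.ne b i))
      exact hc.eventually (lt_mem_nhds (h.pos b i))
  obtain ⟨p, hp1, hp2, hp3⟩ := m04_rat t _ hgood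
  -- the exponents
  obtain ⟨M, hM⟩ : ∃ M : ℕ, ∀ b i, (U b i).totalDegree < M ∧ (V b i).totalDegree < M := by
    have h1 := (Set.finite_range (fun q : (Σ b, ι b) => (U q.1 q.2).totalDegree)).bddAbove
    have h2 := (Set.finite_range (fun q : (Σ b, ι b) => (V q.1 q.2).totalDegree)).bddAbove
    obtain ⟨M1, hM1⟩ := h1
    obtain ⟨M2, hM2⟩ := h2
    refine ⟨M1 + M2 + 1, fun b i => ⟨?_, ?_⟩⟩
    · have : (U b i).totalDegree ≤ M1 := hM1 ⟨⟨b, i⟩, rfl⟩
      omega
    · have : (V b i).totalDegree ≤ M2 := hM2 ⟨⟨b, i⟩, rfl⟩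
      omega
  set N : ℕ := 2 * M + P.totalDegree + 1 with hN
  have hN0 : N ≠ 0 := by omega
  have hMN : 2 * M ≤ N := by omega
  have hUM : ∀ b i, ∀ m ∈ (U b i).support, ∀ l, m l < M := fun b i m hm l =>
    lt_of_le_of_lt (m04_exp _ m hm l) (hM b i).1
  have hVM : ∀ b i, ∀ m ∈ (V b i).support, ∀ l, m l < M := fun b i m hm l =>
    lt_of_le_of_lt (m04_exp _ m hm l) (hM b i).2
  have hV0 : ∀ b i, V b i ≠ 0 := by
    intro b i h0
    apply hp2 b i
    rw [h0, map_zero]
  -- the functions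
  set φ : ∀ b, ℂ → Option (ι b × Fin 3) → ℂ := fun b x o =>
    o.elim x (fun q => EE q.2 (evr (rho (U b q.1) (V b q.1) p N) x)) with hφ
  have hzero : (fun l : Fin s => ((p l : ℂ) + (0 : ℂ) ^ (N ^ (l.val + 1)))) = fun l => (p l : ℂ) := by
    funext l
    rw [zero_pow (pow_ne_zero _ hN0), add_zero]
  have hrho0 : ∀ b i, dn (rho (U b i) (V b i) p N) 0 ≠ 0 ∧ evr (rho (U b i) (V b i) p N) 0 =
      MvPolynomial.aeval (fun l => (p l : ℂ)) (U b i) / MvPolynomial.aeval (fun l => (p l : ℂ)) (V b i) := by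
    intro b i
    have := rho_eval (U b i) (V b i) p N 0 (by rw [hzero]; exact hp2 b i)
    rwa [hzero] at this
  have hpos0 : ∀ b i, 0 < (evr (rho (U b i) (V b i) p N) 0).im := by
    intro b i
    rw [(hrho0 b i).2]
    exact hp3 b i
  have hφan : ∀ b ν, AnalyticAt ℂ (fun x => φ b x ν) 0 := by
    intro b ν
    rcases ν with _ | ⟨i, κ⟩
    · exact analyticAt_id
    · have h1 := evr_analytic (rho (U b i) (V b i) p N) 0 (hrho0 b i).1
      have h2 := F4_EE_analytic κ (evr (rho (U b i) (V b i) p N) 0) (hpos0 b i)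
      exact h2.comp h1
  have hind : ∀ b, ∀ Q : MvPolynomial (Option (ι b × Fin 3)) ℂ,
      (∀ᶠ x in 𝓝 (0 : ℂ), MvPolynomial.eval (φ b x) Q = 0) → Q = 0 := by
    intro b Q hQ
    refine alw_poly (h.hd b) (fun i => rho (U b i) (V b i) p N) 0 ?_ (fun i => (hrho0 b i).1) (hpos0 b) ?_ Q hQ
    · intro i
      exact rho_nonconst (U b i) (V b i) p N (fun m hm l => by have := hUM b i m hm l; omega)
        (fun m hm l => by have := hVM b i m hm l; omega) (hV0 b i) (h.nc b i)
    · intro i j hij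
      exact rho_rel (U b i) (V b i) (U b j) (V b j) p M N hMN (hUM b i) (hVM b i) (hUM b j) (hVM b j)
        (hV0 b i) (hV0 b j) (h.rel b i j hij)
  -- the substituted polynomial
  set P' : MvPolynomial (Σ b, Option (ι b × Fin 3)) ℂ := MvPolynomial.aeval (Sum.elim
        (fun l => (MvPolynomial.C (p l : ℂ) + MvPolynomial.X ⟨bl l, none⟩ ^ (N ^ (l.val + 1)) :
          MvPolynomial (Σ b, Option (ι b × Fin 3)) ℂ))
        (fun q => MvPolynomial.X ⟨q.1, some q.2⟩)) P with hP'
  have hP'0 : P' ≠ 0 := by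
    intro h0
    apply hP0
    refine kron_block bl ι p N P ?_ h0
    intro m hm l
    have := m04_exp P m hm (Sum.inl l)
    omega
  obtain ⟨x, hx0, hxne, hxflag⟩ := exists_flag r
  have hnv := flag_nonvanish r (fun b => Option (ι b × Fin 3)) φ (fun _ => 0) hφan hind x hx0
    (fun l k => hxne k l) (fun C => (hxflag C).mono fun k hk l l' hll => by
      rw [sub_zero, sub_zero]; exact hk l l' hll) P' hP'0
  -- the points y
  have htend : ∀ l : Fin s, ∀ b : Fin r, Tendsto (fun k => (p l : ℂ) + x k b ^ (N ^ (l.val + 1))) atTop (𝓝 (p l : ℂ)) := by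
    intro l b
    have h1 : Tendsto (fun k => (p l : ℂ) + x k b ^ (N ^ (l.val + 1))) atTop (𝓝 ((p l : ℂ) + 0 ^ (N ^ (l.val + 1)))) :=
      ((hx0 b).pow _).const_add _
    rwa [zero_pow (pow_ne_zero _ hN0), add_zero] at h1
  have hy : Tendsto (fun k => fun l => (p l : ℂ) + x k (bl l) ^ (N ^ (l.val + 1))) atTop (𝓝 (fun l => (p l : ℂ))) :=
    tendsto_pi_nhds.mpr fun l => htend l (bl l)
  have hyb : ∀ b, Tendsto (fun k => fun l : Fin s => (p l : ℂ) + x k b ^ (N ^ (l.val + 1))) atTop (𝓝 (fun l => (p l : ℂ))) :=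
    fun b => tendsto_pi_nhds.mpr fun l => htend l b
  have hVev : ∀ᶠ k in atTop, ∀ b i, MvPolynomial.aeval (fun l : Fin s => (p l : ℂ) + x k b ^ (N ^ (l.val + 1))) (V b i) ≠ 0 := by
    refine eventually_all.mpr fun b => eventually_all.mpr fun i => ?_
    have h1 : ∀ᶠ y in 𝓝 (fun l => (p l : ℂ)), MvPolynomial.aeval y (V b i) ≠ 0 :=
      (hcont b (V b i)).continuousAt.eventually_ne (hp2 b i)
    exact (hyb b).eventually h1
  obtain ⟨k, hk1, hk2, hk3⟩ := (hnv.and (hVev.and (hy.eventually hp1))).exists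
  apply hk1
  rw [← hk3, hP', MvPolynomial.map_aeval]
  change _ = MvPolynomial.eval₂Hom (RingHom.id ℂ) _ P
  refine MvPolynomial.eval₂Hom_congr ?_ ?_ rfl
  · ext c
    simp
  · funext ν
    rcases ν with l | ⟨b, i, κ⟩
    · simp [famM, hφ]
    · have h1 := (rho_eval (U b i) (V b i) p N (x k b) (hk2 b i)).2
      have h2 : MvPolynomial.aeval (fun l : Fin s => (p l : ℂ) + x k b ^ (N ^ (l.val + 1))) (U b i) =
          MvPolynomial.aeval (fun l : Fin s => (p l : ℂ) + x k (bl l) ^ (N ^ (l.val + 1))) (U b i) :=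
        m04_congr _ _ _ fun l hl => by rw [h.vU b i l hl]
      have h3 : MvPolynomial.aeval (fun l : Fin s => (p l : ℂ) + x k b ^ (N ^ (l.val + 1))) (V b i) =
          MvPolynomial.aeval (fun l : Fin s => (p l : ℂ) + x k (bl l) ^ (N ^ (l.val + 1))) (V b i) :=
        m04_congr _ _ _ fun l hl => by rw [h.vV b i l hl]
      rw [h2, h3] at h1
      simp only [Sum.elim_inr, MvPolynomial.eval_X, famM, hφ, Option.elim, h1]

end Pool.Agent.MSD
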