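import Pool.Agent.Lib.MP_f58a57_nt.Defs

/-! # M05: change of variables, several variables (MP_f58a57_nt) -/

open Complex ModularForm EisensteinSeries Filter
open UpperHalfPlane hiding I
open scoped Topology MatrixGroups Polynomial

noncomputable section

namespace Pool.Agent.MSD

/-- a polynomial in the variables `Fin s` as a polynomial in the variables `Fin s ⊕ J` -/
def m05_io {s : ℕ} {J : Type} (p : MvPolynomial (Fin s) ℂ) : MvPolynomial (Fin s ⊕ J) ℂ :=
  MvPolynomial.rename Sum.inl p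

theorem m05_io_map {s : ℕ} {J : Type} {B : Type*} [CommRing B] [Algebra ℂ B]
    (f : MvPolynomial (Fin s ⊕ J) ℂ →ₐ[ℂ] B) (p : MvPolynomial (Fin s) ℂ) :
    f (m05_io p) = MvPolynomial.aeval (fun l => f (MvPolynomial.X (Sum.inl l))) p := by
  unfold m05_io
  have h : f.comp (MvPolynomial.rename Sum.inl) =
      MvPolynomial.aeval (fun l : Fin s => f (MvPolynomial.X (Sum.inl l))) := by
    apply MvPolynomial.algHom_ext
    intro l
    simp
  rw [← h]
  rfl

theorem m05_eval {s : ℕ} {J : Type} (p : MvPolynomial (Fin s) ℂ) (y : Fin s ⊕ J → ℂ) :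
    MvPolynomial.eval y (m05_io p) = MvPolynomial.eval (fun l => y (Sum.inl l)) p := by
  unfold m05_io
  rw [MvPolynomial.eval_rename]
  rfl

theorem m05_io_ne {s : ℕ} {J : Type} {p : MvPolynomial (Fin s) ℂ} {t : Fin s → ℂ} (h : MvPolynomial.eval t p ≠ 0) :
    (m05_io p : MvPolynomial (Fin s ⊕ J) ℂ) ≠ 0 := by
  intro h0
  apply h
  have := m05_eval (J := J) p (Sum.elim t (fun _ => 0))
  rw [h0, map_zero] at this
  exact this.symm

/-- the algebraic part: if `L` is a ring in which the `V_ν` are invertible, the substitution is injective -/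
theorem m05_key {s : ℕ} {J : Type} (L : Type) [CommRing L] [Algebra ℂ L]
    [Algebra (MvPolynomial (Fin s ⊕ J) ℂ) L] [IsScalarTower ℂ (MvPolynomial (Fin s ⊕ J) ℂ) L]
    (W : MvPolynomial (Fin s ⊕ J) ℂ) (hL : IsLocalization.Away W L) (hW : W ≠ 0)
    (w : MvPolynomial (Fin s) ℂ) (hw : W = m05_io w)
    (a : J → ℂ) (ha : ∀ ν, a ν ≠ 0) (U V : J → MvPolynomial (Fin s) ℂ) (r : J → L)
    (hr : ∀ ν, r ν * algebraMap (MvPolynomial (Fin s ⊕ J) ℂ) L (m05_io (V ν)) =
      algebraMap (MvPolynomial (Fin s ⊕ J) ℂ) L (m05_io (U ν)))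
    (hu : ∀ ν, IsUnit (algebraMap (MvPolynomial (Fin s ⊕ J) ℂ) L (m05_io (V ν))))
    (θ : MvPolynomial (Fin s ⊕ J) ℂ →ₐ[ℂ] L)
    (hθ0 : ∀ l, θ (MvPolynomial.X (Sum.inl l)) =
      algebraMap (MvPolynomial (Fin s ⊕ J) ℂ) L (MvPolynomial.X (Sum.inl l)))
    (hθ : ∀ ν, θ (MvPolynomial.X (Sum.inr ν)) =
      algebraMap ℂ L (a ν) * algebraMap (MvPolynomial (Fin s ⊕ J) ℂ) L (MvPolynomial.X (Sum.inr ν)) + r ν)
    (P : MvPolynomial (Fin s ⊕ J) ℂ) (hP : θ P = 0) : P = 0 := by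
  set i := algebraMap (MvPolynomial (Fin s ⊕ J) ℂ) L with hi
  let iA : MvPolynomial (Fin s ⊕ J) ℂ →ₐ[ℂ] L := IsScalarTower.toAlgHom ℂ _ L
  have hiA : ∀ s, iA s = i s := fun s => rfl
  let θ' : MvPolynomial (Fin s ⊕ J) ℂ →ₐ[ℂ] L := MvPolynomial.aeval (fun o : Fin s ⊕ J =>
    Sum.elim (fun l => i (MvPolynomial.X (Sum.inl l)))
      (fun ν => algebraMap ℂ L (a ν)⁻¹ * (i (MvPolynomial.X (Sum.inr ν)) - r ν)) o)
  have hθ'0 : ∀ l, θ' (MvPolynomial.X (Sum.inl l)) = i (MvPolynomial.X (Sum.inl l)) := by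
    intro l
    show MvPolynomial.aeval _ _ = _
    rw [MvPolynomial.aeval_X]
    rfl
  have hθ'1 : ∀ ν, θ' (MvPolynomial.X (Sum.inr ν)) =
      algebraMap ℂ L (a ν)⁻¹ * (i (MvPolynomial.X (Sum.inr ν)) - r ν) := by
    intro ν
    show MvPolynomial.aeval _ _ = _
    rw [MvPolynomial.aeval_X]
    rfl
  have hio : ∀ p : MvPolynomial (Fin s) ℂ, θ' (m05_io p) = i (m05_io p) := by
    intro p
    rw [m05_io_map, ← hiA, m05_io_map]
    congr 2
    funext l
    rw [hθ'0, hiA]
  have hWu : IsUnit ((θ' : MvPolynomial (Fin s ⊕ J) ℂ →+* L) W) := by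
    show IsUnit (θ' W)
    rw [hw, hio, ← hw]
    exact IsLocalization.Away.algebraMap_isUnit W
  let Θ : L →+* L := IsLocalization.Away.lift W hWu
  have hΘ : ∀ s, Θ (i s) = θ' s := fun s => IsLocalization.Away.lift_eq W hWu s
  have hr' : ∀ ν, Θ (r ν) = r ν := by
    intro ν
    have h1 := congrArg Θ (hr ν)
    rw [map_mul, hΘ, hΘ, hio, hio, ← hr ν] at h1
    exact (hu ν).mul_right_cancel h1
  have hC : ∀ c : ℂ, Θ (algebraMap ℂ L c) = algebraMap ℂ L c := by
    intro c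
    rw [IsScalarTower.algebraMap_apply ℂ (MvPolynomial (Fin s ⊕ J) ℂ) L, ← hi, hΘ]
    rw [AlgHom.commutes]
    rw [IsScalarTower.algebraMap_apply ℂ (MvPolynomial (Fin s ⊕ J) ℂ) L]
  have hcomp : Θ.comp (θ : MvPolynomial (Fin s ⊕ J) ℂ →+* L) = i := by
    apply MvPolynomial.ringHom_ext
    · intro c
      show Θ (θ (MvPolynomial.C c)) = i (MvPolynomial.C c)
      rw [← MvPolynomial.algebraMap_eq, AlgHom.commutes, hC, hi,
        ← IsScalarTower.algebraMap_apply]
    · intro o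
      cases o with
      | inl l =>
        show Θ (θ (MvPolynomial.X (Sum.inl l))) = _
        rw [hθ0, hΘ, hθ'0]
      | inr ν =>
        show Θ (θ (MvPolynomial.X (Sum.inr ν))) = _
        rw [hθ ν, map_add, map_mul, hC, hΘ, hθ'1, hr', ← mul_assoc, ← map_mul,
          mul_inv_cancel₀ (ha ν), map_one, one_mul, sub_add_cancel]
  have h1 : i P = 0 := by
    rw [← hcomp]
    show Θ (θ P) = 0
    rw [hP, map_zero]
  have hinj : Function.Injective i := by
    apply IsLocalization.injective (M := Submonoid.powers W) L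
    exact powers_le_nonZeroDivisors_of_noZeroDivisors hW
  exact hinj (by rw [h1, map_zero])

/-- M05. The version of `indep_shift` (`F5_Shift.lean`, copy its proof) for `Fin s ⊕ J` instead of `Option J`. PROOF. For `P ≠ 0` the polynomial `D(x) P(x; ψ)`, `D` = a high power of `Π V_ν`, is `Q(x; φ)` with a polynomial `Q`; `Q ≠ 0` because the substitution
`Y_ν ↦ a_ν Y_ν + U_ν/V_ν` is an automorphism of `ℂ(X)[Y]`. -/
theorem indep_shiftM {s : ℕ} {J : Type} [Finite J] (φ ψ : (Fin s → ℂ) → (Fin s ⊕ J) → ℂ) (t : Fin s → ℂ)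
    (hφ0 : ∀ x l, φ x (Sum.inl l) = x l) (hψ0 : ∀ x l, ψ x (Sum.inl l) = x l)
    (a : J → ℂ) (ha : ∀ ν, a ν ≠ 0) (U V : J → MvPolynomial (Fin s) ℂ) (hV : ∀ ν, MvPolynomial.eval t (V ν) ≠ 0)
    (hψ : ∀ᶠ x in 𝓝 t, ∀ ν, ψ x (Sum.inr ν) = a ν * φ x (Sum.inr ν) + MvPolynomial.eval x (U ν) / MvPolynomial.eval x (V ν))
    (hind : ∀ P : MvPolynomial (Fin s ⊕ J) ℂ, (∀ᶠ x in 𝓝 t, MvPolynomial.eval (φ x) P = 0) → P = 0)
    (P : MvPolynomial (Fin s ⊕ J) ℂ) (hP : ∀ᶠ x in 𝓝 t, MvPolynomial.eval (ψ x) P = 0) : P = 0 := by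
  classical
  have := Fintype.ofFinite J
  set w : MvPolynomial (Fin s) ℂ := ∏ ν, V ν with hw
  set W : MvPolynomial (Fin s ⊕ J) ℂ := m05_io w with hW
  have hwt : MvPolynomial.eval t w ≠ 0 := by
    rw [hw, map_prod]
    exact Finset.prod_ne_zero_iff.2 fun ν _ => hV ν
  have hW0 : W ≠ 0 := m05_io_ne hwt
  set i := algebraMap (MvPolynomial (Fin s ⊕ J) ℂ) (Localization.Away W) with hi
  have hWu : IsUnit (i W) := IsLocalization.Away.algebraMap_isUnit W
  have hu : ∀ ν, IsUnit (i (m05_io (V ν))) := by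
    intro ν
    have hdvd : (m05_io (V ν) : MvPolynomial (Fin s ⊕ J) ℂ) ∣ W := by
      rw [hW, hw]
      unfold m05_io
      exact map_dvd _ (Finset.dvd_prod_of_mem V (Finset.mem_univ ν))
    exact isUnit_of_dvd_unit (map_dvd i hdvd) hWu
  let r : J → Localization.Away W := fun ν => i (m05_io (U ν)) * ↑(hu ν).unit⁻¹
  have hr : ∀ ν, r ν * i (m05_io (V ν)) = i (m05_io (U ν)) := by
    intro ν
    show i (m05_io (U ν)) * ↑(hu ν).unit⁻¹ * i (m05_io (V ν)) = _
    rw [mul_assoc, IsUnit.val_inv_mul, mul_one]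
  let θ : MvPolynomial (Fin s ⊕ J) ℂ →ₐ[ℂ] Localization.Away W :=
    MvPolynomial.aeval (fun o : Fin s ⊕ J => Sum.elim (fun l => i (MvPolynomial.X (Sum.inl l)))
      (fun ν => algebraMap ℂ (Localization.Away W) (a ν) * i (MvPolynomial.X (Sum.inr ν)) + r ν) o)
  have hθ0 : ∀ l, θ (MvPolynomial.X (Sum.inl l)) = i (MvPolynomial.X (Sum.inl l)) := by
    intro l
    show MvPolynomial.aeval _ _ = _
    rw [MvPolynomial.aeval_X]
    rfl
  have hθ : ∀ ν, θ (MvPolynomial.X (Sum.inr ν)) =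
      algebraMap ℂ (Localization.Away W) (a ν) * i (MvPolynomial.X (Sum.inr ν)) + r ν := by
    intro ν
    show MvPolynomial.aeval _ _ = _
    rw [MvPolynomial.aeval_X]
    rfl
  refine m05_key (Localization.Away W) W inferInstance hW0 w hW a ha U V r hr hu θ hθ0 hθ P ?_
  -- clear denominators
  obtain ⟨⟨Q, s'⟩, hQ⟩ := IsLocalization.surj (Submonoid.powers W) (θ P)
  have hsu : IsUnit (i s'.1) := IsLocalization.map_units (Localization.Away W) s'
  have hQ' : θ P * i s'.1 = i Q := hQ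
  have hQ0 : Q = 0 := by
    apply hind
    have hne : ∀ᶠ x in 𝓝 t, MvPolynomial.eval x w ≠ 0 :=
      (MvPolynomial.continuous_eval w).continuousAt.eventually_ne hwt
    filter_upwards [hP, hψ, hne] with x hx1 hx2 hx3
    have hφx : (fun l => φ x (Sum.inl l)) = x := funext fun l => hφ0 x l
    have hWx : MvPolynomial.eval (φ x) W ≠ 0 := by
      rw [hW, m05_eval, hφx]
      exact hx3
    have hWxu : IsUnit ((MvPolynomial.eval (φ x)) W) := hWx.isUnit
    let ev : Localization.Away W →+* ℂ := IsLocalization.Away.lift W hWxu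
    have hev : ∀ p, ev (i p) = MvPolynomial.eval (φ x) p :=
      fun p => IsLocalization.Away.lift_eq W hWxu p
    have hVx : ∀ ν, MvPolynomial.eval x (V ν) ≠ 0 := by
      rw [hw, map_prod] at hx3
      exact fun ν => (Finset.prod_ne_zero_iff.1 hx3) ν (Finset.mem_univ ν)
    have hevr : ∀ ν, ev (r ν) = MvPolynomial.eval x (U ν) / MvPolynomial.eval x (V ν) := by
      intro ν
      have h1 := congrArg ev (hr ν)
      rw [map_mul, hev, hev, m05_eval, m05_eval, hφx] at h1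
      rw [eq_div_iff (hVx ν)]
      exact h1
    have hevC : ∀ c : ℂ, ev (algebraMap ℂ (Localization.Away W) c) = c := by
      intro c
      rw [IsScalarTower.algebraMap_apply ℂ (MvPolynomial (Fin s ⊕ J) ℂ) (Localization.Away W),
        ← hi, hev, MvPolynomial.algebraMap_eq, MvPolynomial.eval_C]
    have hcomp : ev.comp (θ : MvPolynomial (Fin s ⊕ J) ℂ →+* Localization.Away W) =
        MvPolynomial.eval (ψ x) := by
      apply MvPolynomial.ringHom_ext
      · intro c
        show ev (θ (MvPolynomial.C c)) = _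
        rw [← MvPolynomial.algebraMap_eq, AlgHom.commutes, hevC, MvPolynomial.algebraMap_eq,
          MvPolynomial.eval_C]
      · intro o
        cases o with
        | inl l =>
          show ev (θ (MvPolynomial.X (Sum.inl l))) = _
          rw [hθ0, hev, MvPolynomial.eval_X, MvPolynomial.eval_X, hφ0, hψ0]
        | inr ν =>
          show ev (θ (MvPolynomial.X (Sum.inr ν))) = _
          rw [hθ ν, map_add, map_mul, hevC, hev, hevr, MvPolynomial.eval_X, MvPolynomial.eval_X,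
            hx2 ν]
    have h2 : ev (θ P) = 0 := by
      rw [← hx1, ← hcomp]
      rfl
    rw [← hev, ← hQ', map_mul, h2, zero_mul]
  rw [hQ0, map_zero] at hQ'
  exact (hsu.mul_left_eq_zero).1 hQ'

end Pool.Agent.MSD
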