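import Pool.Agent.Lib.MP_f58a57_nt.M04a_An

/-! # M06: the normalised functions (MP_f58a57_nt) -/

open Complex ModularForm EisensteinSeries Filter
open UpperHalfPlane hiding I
open scoped Topology MatrixGroups Polynomial

noncomputable section

namespace Pool.Agent.MSD

/-- M06a. Values of the conjugated polynomial at real points. -/
theorem cjP_real {s d : ℕ} (U : MvPolynomial (Fin s) (KF d)) (x : Fin s → ℝ) :
    MvPolynomial.aeval (fun l => (x l : ℂ)) (cjP U) = (starRingEnd ℂ) (MvPolynomial.aeval (fun l => (x l : ℂ)) U) := by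
  have h1 : (algebraMap (KF d) ℂ).comp (conjK d) = (starRingEnd ℂ).comp (algebraMap (KF d) ℂ) := by
    ext y
    exact conjK_coe d y
  have h2 : (fun l => (x l : ℂ)) = (starRingEnd ℂ) ∘ (fun l => (x l : ℂ)) := by
    funext l
    exact (Complex.conj_ofReal (x l)).symm
  rw [MvPolynomial.aeval_def, MvPolynomial.aeval_def, MvPolynomial.eval₂_comp_left, ← h2]
  unfold cjP
  rw [MvPolynomial.eval₂_map, h1]

/-- M06b. At real points. (As `famS_real` in `F5b_FamS.lean`.) -/
theorem famMS_real {s r : ℕ} (d : Fin r → ℕ) {ι : Fin r → Type} (Ω : Fin r → ℂ) (U V : ∀ b, ι b → MvPolynomial (Fin s) (KF (d b)))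
    (x : Fin s → ℝ) (b : Fin r) (i : ι b) (κ : Fin 3) (z : ℂ) (hz : z = MvPolynomial.aeval (fun l => (x l : ℂ)) (U b i) / MvPolynomial.aeval (fun l => (x l : ℂ)) (V b i)) :
    famMS d Ω U V (fun l => (x l : ℂ)) (Sum.inr ⟨b, (i, κ)⟩) = ![e2s z / Ω b ^ 2, e4 z / Ω b ^ 4, e6 z / Ω b ^ 6] κ := by
  have hb : MvPolynomial.aeval (fun l => (x l : ℂ)) (cjP (U b i)) / MvPolynomial.aeval (fun l => (x l : ℂ)) (cjP (V b i)) =
      (starRingEnd ℂ) z := by
    rw [cjP_real, cjP_real, hz, map_div₀]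
  have h0 : famMS d Ω U V (fun l => (x l : ℂ)) (Sum.inr ⟨b, (i, κ)⟩) =
      ![(e2 z - 6 * I / (Real.pi * (z - (starRingEnd ℂ) z))) / Ω b ^ 2, e4 z / Ω b ^ 4, e6 z / Ω b ^ 6] κ := by
    rw [← hb, hz]
    rfl
  rw [h0]
  fin_cases κ
  · show (e2 z - 6 * I / (Real.pi * (z - (starRingEnd ℂ) z))) / Ω b ^ 2 = e2s z / Ω b ^ 2
    rw [Complex.sub_conj]
    unfold e2s
    congr 1
    congr 1
    set y := z.im with hy
    by_cases hy0 : y = 0
    · simp [hy0]
    · have hpi : (Real.pi : ℂ) ≠ 0 := by exact_mod_cast Real.pi_ne_zero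
      have hyc : (y : ℂ) ≠ 0 := by exact_mod_cast hy0
      push_cast
      field_simp
      ring
  · rfl
  · rfl

/-- M06c. Analyticity at `t`. (`z - z̄ = 2 i Im z ≠ 0` at `t`.) -/
theorem famMS_analytic {s r : ℕ} (bl : Fin s → Fin r) (d : Fin r → ℕ) (t : Fin s → ℝ) (Ω : Fin r → ℂ) (ι : Fin r → Type)
    (U V : ∀ b, ι b → MvPolynomial (Fin s) (KF (d b))) (h : Sys bl d t ι U V) (ν : Fin s ⊕ (Σ b, ι b × Fin 3)) :
    AnalyticAt ℂ (fun x => famMS d Ω U V x ν) (fun l => (t l : ℂ)) := by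
  have hf := fun ν => famM_analytic d U V (fun l => (t l : ℂ)) h.ne h.pos ν
  match ν with
  | Sum.inl l => exact hf (Sum.inl l)
  | Sum.inr ⟨b, (i, κ)⟩ =>
    have hg := hf (Sum.inr ⟨b, (i, κ)⟩)
    have hdiv : ∀ (n : ℕ) (f : (Fin s → ℂ) → ℂ), AnalyticAt ℂ f (fun l => (t l : ℂ)) →
        AnalyticAt ℂ (fun x => f x / Ω b ^ n) (fun l => (t l : ℂ)) := by
      intro n f hf
      simp only [div_eq_mul_inv]
      exact hf.mul analyticAt_const
    have hpoly : ∀ Q : MvPolynomial (Fin s) (KF (d b)),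
        AnalyticAt ℂ (fun x : Fin s → ℂ => MvPolynomial.aeval x Q) (fun l => (t l : ℂ)) := by
      intro Q
      exact AnalyticAt.aeval_mvPolynomial (𝕜 := ℂ)
        (fun j => (ContinuousLinearMap.proj (R := ℂ) (φ := fun _ : Fin s => ℂ) j).analyticAt _) Q
    fin_cases κ
    · have hV := h.ne b i
      have hVc : MvPolynomial.aeval (fun l => (t l : ℂ)) (cjP (V b i)) ≠ 0 := by
        rw [cjP_real]
        exact (map_ne_zero _).2 hV
      have ha : AnalyticAt ℂ (fun x : Fin s → ℂ =>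
          MvPolynomial.aeval x (U b i) / MvPolynomial.aeval x (V b i) -
            MvPolynomial.aeval x (cjP (U b i)) / MvPolynomial.aeval x (cjP (V b i))) (fun l => (t l : ℂ)) :=
        ((hpoly _).div (hpoly _) hV).sub ((hpoly _).div (hpoly _) hVc)
      have hne : (MvPolynomial.aeval (fun l => (t l : ℂ)) (U b i) / MvPolynomial.aeval (fun l => (t l : ℂ)) (V b i) -
            MvPolynomial.aeval (fun l => (t l : ℂ)) (cjP (U b i)) /
              MvPolynomial.aeval (fun l => (t l : ℂ)) (cjP (V b i)) : ℂ) ≠ 0 := by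
        rw [cjP_real, cjP_real, ← map_div₀ (starRingEnd ℂ), Complex.sub_conj]
        have h1 := (h.pos b i).ne'
        have h2 : ((MvPolynomial.aeval (fun l => (t l : ℂ)) (U b i) /
            MvPolynomial.aeval (fun l => (t l : ℂ)) (V b i) : ℂ).im : ℂ) ≠ 0 := by exact_mod_cast h1
        push_cast
        exact mul_ne_zero (mul_ne_zero two_ne_zero h2) I_ne_zero
      have hpi : (Real.pi : ℂ) ≠ 0 := by exact_mod_cast Real.pi_ne_zero
      exact hdiv 2 _ (AnalyticAt.sub hg (AnalyticAt.div analyticAt_const (analyticAt_const.mul ha)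
        (mul_ne_zero hpi hne)))
    · exact hdiv 4 _ hg
    · exact hdiv 6 _ hg

end Pool.Agent.MSD
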