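import Pool.Agent.Lib.MP_f58a57_nt.M04_FamM
import Pool.Agent.Lib.MP_f58a57_nt.M05_Shift
import Pool.Agent.Lib.MP_f58a57_nt.M06_FamMS

/-! # M06d: independence of the normalised functions (MP_f58a57_nt) -/

open Complex ModularForm EisensteinSeries Filter
open UpperHalfPlane hiding I
open scoped Topology MatrixGroups Polynomial

noncomputable section

namespace Pool.Agent.MSD

/-- the polynomial over `ℂ` -/
def m06d_pc {s d : ℕ} (P : MvPolynomial (Fin s) (KF d)) : MvPolynomial (Fin s) ℂ :=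
  MvPolynomial.map (algebraMap (KF d) ℂ) P

theorem m06d_eval {s d : ℕ} (P : MvPolynomial (Fin s) (KF d)) (x : Fin s → ℂ) :
    MvPolynomial.eval x (m06d_pc P) = MvPolynomial.aeval x P := by
  rw [m06d_pc, MvPolynomial.eval_map, MvPolynomial.aeval_def]

/-- the denominator `U V̄ - Ū V` -/
def m06d_den {s d : ℕ} (U V : MvPolynomial (Fin s) (KF d)) : MvPolynomial (Fin s) ℂ :=
  m06d_pc U * m06d_pc (cjP V) - m06d_pc (cjP U) * m06d_pc V

theorem m06d_den_eval {s d : ℕ} (U V : MvPolynomial (Fin s) (KF d)) (x : Fin s → ℂ) :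
    MvPolynomial.eval x (m06d_den U V) =
      MvPolynomial.aeval x U * MvPolynomial.aeval x (cjP V) - MvPolynomial.aeval x (cjP U) * MvPolynomial.aeval x V := by
  rw [m06d_den, map_sub, map_mul, map_mul, m06d_eval, m06d_eval, m06d_eval, m06d_eval]

theorem m06d_ne {u v : ℂ} (hv : v ≠ 0) (hpos : 0 < (u / v).im) :
    u * (starRingEnd ℂ) v - (starRingEnd ℂ) u * v ≠ 0 := by
  intro h
  have hv' : (starRingEnd ℂ) v ≠ 0 := (map_ne_zero _).mpr hv
  have h1 : (starRingEnd ℂ) (u / v) = u / v := by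
    rw [map_div₀, div_eq_div_iff hv' hv]
    linear_combination -h
  have h2 := Complex.conj_eq_iff_im.mp h1
  linarith

/-- M06d. Independence: `famM_indep` and `indep_shiftM` with `a = Ω⁻², Ω⁻⁴, Ω⁻⁶`, numerators `-6i/(π Ω²) V V̄, 0, 0`, denominators `U V̄ - Ū V, 1, 1` (polynomials over `ℂ`, mapped by `algebraMap (KF d) ℂ`). (As `famS_indep`.) -/
theorem famMS_indep {s r : ℕ} (bl : Fin s → Fin r) (d : Fin r → ℕ) (t : Fin s → ℝ) (Ω : Fin r → ℂ) (hΩ : ∀ b, Ω b ≠ 0)
    (ι : Fin r → Type) [∀ b, Finite (ι b)] (U V : ∀ b, ι b → MvPolynomial (Fin s) (KF (d b))) (h : Sys bl d t ι U V)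
    (P : MvPolynomial (Fin s ⊕ (Σ b, ι b × Fin 3)) ℂ)
    (hP : ∀ᶠ x in 𝓝 (fun l => (t l : ℂ)), MvPolynomial.eval (famMS d Ω U V x) P = 0) : P = 0 := by
  have hVt : ∀ b i, MvPolynomial.aeval (fun l => (t l : ℂ)) (cjP (V b i)) ≠ 0 := by
    intro b i
    rw [cjP_real]
    exact (map_ne_zero _).mpr (h.ne b i)
  have hDt : ∀ b i, MvPolynomial.eval (fun l => (t l : ℂ)) (m06d_den (U b i) (V b i)) ≠ 0 := by
    intro b i
    rw [m06d_den_eval, cjP_real, cjP_real]
    exact m06d_ne (h.ne b i) (h.pos b i)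
  refine indep_shiftM (J := Σ b, ι b × Fin 3) (famM d U V) (famMS d Ω U V) (fun l => (t l : ℂ))
    (fun x l => rfl) (fun x l => rfl)
    (fun ν => ![1 / Ω ν.1 ^ 2, 1 / Ω ν.1 ^ 4, 1 / Ω ν.1 ^ 6] ν.2.2) ?_
    (fun ν => ![MvPolynomial.C (-(6 * I / (Real.pi * Ω ν.1 ^ 2))) *
      (m06d_pc (V ν.1 ν.2.1) * m06d_pc (cjP (V ν.1 ν.2.1))), 0, 0] ν.2.2)
    (fun ν => ![m06d_den (U ν.1 ν.2.1) (V ν.1 ν.2.1), 1, 1] ν.2.2) ?_ ?_ ?_ P hP
  · rintro ⟨b, i, κ⟩
    have := hΩ b
    fin_cases κ <;> simp [this]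
  · rintro ⟨b, i, κ⟩
    have := hDt b i
    fin_cases κ <;> simp [this]
  · have hev : ∀ {e : ℕ} (Q : MvPolynomial (Fin s) (KF e)), MvPolynomial.aeval (fun l => (t l : ℂ)) Q ≠ 0 →
        ∀ᶠ x in 𝓝 (fun l => (t l : ℂ)), MvPolynomial.aeval x Q ≠ 0 := by
      intro e Q hQ
      have h1 : MvPolynomial.eval (fun l => (t l : ℂ)) (m06d_pc Q) ≠ 0 := by rwa [m06d_eval]
      filter_upwards [(MvPolynomial.continuous_eval (m06d_pc Q)).continuousAt.eventually_ne h1] with x hx
      rwa [m06d_eval] at hx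
    have hev1 : ∀ᶠ x in 𝓝 (fun l => (t l : ℂ)), ∀ b, ∀ i, MvPolynomial.aeval x (V b i) ≠ 0 :=
      eventually_all.2 fun b => eventually_all.2 fun i => hev _ (h.ne b i)
    have hev2 : ∀ᶠ x in 𝓝 (fun l => (t l : ℂ)), ∀ b, ∀ i, MvPolynomial.aeval x (cjP (V b i)) ≠ 0 :=
      eventually_all.2 fun b => eventually_all.2 fun i => hev _ (hVt b i)
    have hev3 : ∀ᶠ x in 𝓝 (fun l => (t l : ℂ)), ∀ b, ∀ i,
        MvPolynomial.eval x (m06d_den (U b i) (V b i)) ≠ 0 :=
      eventually_all.2 fun b => eventually_all.2 fun i =>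
        (MvPolynomial.continuous_eval (m06d_den (U b i) (V b i))).continuousAt.eventually_ne (hDt b i)
    filter_upwards [hev1, hev2, hev3] with x h1 h2 h3
    rintro ⟨b, i, κ⟩
    have hV := h1 b i
    have hV' := h2 b i
    have hD := h3 b i
    have hO := hΩ b
    rw [m06d_den_eval] at hD
    have hpi : (Real.pi : ℂ) ≠ 0 := by exact_mod_cast Real.pi_ne_zero
    fin_cases κ
    · have e1 : MvPolynomial.aeval x (U b i) / MvPolynomial.aeval x (V b i) -
          MvPolynomial.aeval x (cjP (U b i)) / MvPolynomial.aeval x (cjP (V b i)) =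
          (MvPolynomial.aeval x (U b i) * MvPolynomial.aeval x (cjP (V b i)) -
            MvPolynomial.aeval x (cjP (U b i)) * MvPolynomial.aeval x (V b i)) /
          (MvPolynomial.aeval x (V b i) * MvPolynomial.aeval x (cjP (V b i))) := by
        rw [div_sub_div _ _ hV hV']
        ring
      show (e2 (MvPolynomial.aeval x (U b i) / MvPolynomial.aeval x (V b i)) - 6 * I / (Real.pi *
          (MvPolynomial.aeval x (U b i) / MvPolynomial.aeval x (V b i) -
            MvPolynomial.aeval x (cjP (U b i)) / MvPolynomial.aeval x (cjP (V b i))))) / Ω b ^ 2 =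
        1 / Ω b ^ 2 * e2 (MvPolynomial.aeval x (U b i) / MvPolynomial.aeval x (V b i)) +
          MvPolynomial.eval x (MvPolynomial.C (-(6 * I / (Real.pi * Ω b ^ 2))) *
            (m06d_pc (V b i) * m06d_pc (cjP (V b i)))) / MvPolynomial.eval x (m06d_den (U b i) (V b i))
      rw [e1, m06d_den_eval, map_mul, map_mul, m06d_eval, m06d_eval, MvPolynomial.eval_C]
      generalize e2 (MvPolynomial.aeval x (U b i) / MvPolynomial.aeval x (V b i)) = E
      generalize MvPolynomial.aeval x (U b i) = u at *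
      generalize MvPolynomial.aeval x (V b i) = v at *
      generalize MvPolynomial.aeval x (cjP (U b i)) = u' at *
      generalize MvPolynomial.aeval x (cjP (V b i)) = v' at *
      field_simp
      ring
    · show e4 (MvPolynomial.aeval x (U b i) / MvPolynomial.aeval x (V b i)) / Ω b ^ 4 =
        1 / Ω b ^ 4 * e4 (MvPolynomial.aeval x (U b i) / MvPolynomial.aeval x (V b i)) +
          MvPolynomial.eval x (0 : MvPolynomial (Fin s) ℂ) / MvPolynomial.eval x (1 : MvPolynomial (Fin s) ℂ)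
      simp
      ring
    · show e6 (MvPolynomial.aeval x (U b i) / MvPolynomial.aeval x (V b i)) / Ω b ^ 6 =
        1 / Ω b ^ 6 * e6 (MvPolynomial.aeval x (U b i) / MvPolynomial.aeval x (V b i)) +
          MvPolynomial.eval x (0 : MvPolynomial (Fin s) ℂ) / MvPolynomial.eval x (1 : MvPolynomial (Fin s) ℂ)
      simp
      ring
  · intro Q hQ
    exact famM_indep bl d t ι U V h Q hQ

end Pool.Agent.MSD
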