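import Pool.Agent.Lib.MP_f58a57_nt.M07a_Taylor

/-! # M07: analytic functions at flagged sequences (MP_f58a57_nt) -/

open Complex ModularForm EisensteinSeries Filter
open UpperHalfPlane hiding I
open scoped Topology MatrixGroups Polynomial

noncomputable section

namespace Pool.Agent.MSD

/-- iterated partial derivatives in the first coordinate -/
def fg_F {s : ℕ} (f : (Fin (s + 1) → ℂ) → ℂ) : ℕ → (Fin (s + 1) → ℂ) → ℂ
  | 0 => f
  | n + 1 => fun x => fderiv ℂ (fg_F f n) x (Pi.single 0 1)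

theorem fg_F_an {s : ℕ} {f : (Fin (s + 1) → ℂ) → ℂ} {U : Set (Fin (s + 1) → ℂ)}
    (hf : AnalyticOnNhd ℂ f U) (n : ℕ) : AnalyticOnNhd ℂ (fg_F f n) U := by
  induction n with
  | zero => exact hf
  | succ n ih =>
    intro x hx
    have h1 : AnalyticAt ℂ (fderiv ℂ (fg_F f n)) x := (ih x hx).fderiv
    exact ((ContinuousLinearMap.apply ℂ ℂ (Pi.single 0 1 : Fin (s + 1) → ℂ)).analyticAt _).comp h1

theorem fg_cons_mem {s : ℕ} {t : Fin (s + 1) → ℂ} {ε : ℝ} (hε : 0 < ε) {z : ℂ} {x' : Fin s → ℂ} :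
    (Fin.cons z x' : Fin (s + 1) → ℂ) ∈ Metric.ball t ε ↔
      z ∈ Metric.ball (t 0) ε ∧ x' ∈ Metric.ball (Fin.tail t) ε := by
  rw [Metric.mem_ball, Metric.mem_ball, Metric.mem_ball, dist_pi_lt_iff hε, dist_pi_lt_iff hε,
    Fin.forall_fin_succ]
  rfl

theorem fg_slice_deriv {s : ℕ} (x' : Fin s → ℂ) (z : ℂ) :
    HasDerivAt (fun z : ℂ => (Fin.cons z x' : Fin (s + 1) → ℂ)) (Pi.single 0 1) z := by
  rw [hasDerivAt_pi]
  intro i
  refine Fin.cases ?_ (fun j => ?_) i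
  · simp only [Fin.cons_zero, Pi.single_eq_same]
    exact hasDerivAt_id z
  · simp only [Fin.cons_succ]
    rw [Pi.single_eq_of_ne (Fin.succ_ne_zero j)]
    exact hasDerivAt_const z (x' j)

theorem fg_slice_iter {s : ℕ} {f : (Fin (s + 1) → ℂ) → ℂ} {t : Fin (s + 1) → ℂ} {ε : ℝ}
    (hε : 0 < ε) (hf : AnalyticOnNhd ℂ f (Metric.ball t ε)) {x' : Fin s → ℂ}
    (hx' : x' ∈ Metric.ball (Fin.tail t) ε) (n : ℕ) : ∀ z ∈ Metric.ball (t 0) ε,
      iteratedDeriv n (fun z : ℂ => f (Fin.cons z x' : Fin (s + 1) → ℂ)) z =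
        fg_F f n (Fin.cons z x' : Fin (s + 1) → ℂ) := by
  induction n with
  | zero => intro z _; rw [iteratedDeriv_zero]; rfl
  | succ n ih =>
    intro z hz
    rw [iteratedDeriv_succ]
    have h1 : iteratedDeriv n (fun z : ℂ => f (Fin.cons z x' : Fin (s + 1) → ℂ)) =ᶠ[𝓝 z]
        fun z => fg_F f n (Fin.cons z x' : Fin (s + 1) → ℂ) := by
      filter_upwards [Metric.isOpen_ball.mem_nhds hz] with w hw
      exact ih w hw
    rw [h1.deriv_eq]
    have h2 : AnalyticAt ℂ (fg_F f n) (Fin.cons z x' : Fin (s + 1) → ℂ) :=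
      fg_F_an hf n _ ((fg_cons_mem hε).2 ⟨hz, hx'⟩)
    have h3 := h2.differentiableAt.hasFDerivAt.comp_hasDerivAt z (fg_slice_deriv x' z)
    exact h3.deriv

theorem fg_slice_an {s : ℕ} {f : (Fin (s + 1) → ℂ) → ℂ} {t : Fin (s + 1) → ℂ} {ε : ℝ}
    (hε : 0 < ε) (hf : AnalyticOnNhd ℂ f (Metric.ball t ε)) {x' : Fin s → ℂ}
    (hx' : x' ∈ Metric.ball (Fin.tail t) ε) :
    AnalyticOnNhd ℂ (fun z : ℂ => f (Fin.cons z x' : Fin (s + 1) → ℂ)) (Metric.ball (t 0) ε) := by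
  intro z hz
  have h2 : AnalyticAt ℂ f (Fin.cons z x' : Fin (s + 1) → ℂ) :=
    hf _ ((fg_cons_mem hε).2 ⟨hz, hx'⟩)
  have h3 : AnalyticAt ℂ (fun z : ℂ => (Fin.cons z x' : Fin (s + 1) → ℂ)) z := by
    rw [analyticAt_pi_iff]
    intro i
    refine Fin.cases ?_ (fun j => ?_) i
    · simp only [Fin.cons_zero]
      exact analyticAt_id
    · simp only [Fin.cons_succ]
      exact analyticAt_const
  exact AnalyticAt.comp (f := fun z : ℂ => (Fin.cons z x' : Fin (s + 1) → ℂ)) h2 h3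

theorem fg_G_an {s : ℕ} {f : (Fin (s + 1) → ℂ) → ℂ} {t : Fin (s + 1) → ℂ} {ε : ℝ}
    (hε : 0 < ε) (hf : AnalyticOnNhd ℂ f (Metric.ball t ε)) :
    AnalyticOnNhd ℂ (fun x' : Fin s → ℂ => f (Fin.cons (t 0) x' : Fin (s + 1) → ℂ))
      (Metric.ball (Fin.tail t) ε) := by
  intro x' hx'
  have h2 : AnalyticAt ℂ f (Fin.cons (t 0) x' : Fin (s + 1) → ℂ) :=
    hf _ ((fg_cons_mem hε).2 ⟨Metric.mem_ball_self hε, hx'⟩)
  have h3 : AnalyticAt ℂ (fun x' : Fin s → ℂ => (Fin.cons (t 0) x' : Fin (s + 1) → ℂ)) x' := by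
    rw [analyticAt_pi_iff]
    intro i
    refine Fin.cases ?_ (fun j => ?_) i
    · simp only [Fin.cons_zero]
      exact analyticAt_const
    · simp only [Fin.cons_succ]
      exact (ContinuousLinearMap.proj (R := ℂ) (φ := fun _ : Fin s => ℂ) j).analyticAt x'
  exact AnalyticAt.comp (f := fun x' : Fin s → ℂ => (Fin.cons (t 0) x' : Fin (s + 1) → ℂ)) h2 h3

/-- the inductive statement -/
def fg_P (s : ℕ) : Prop := ∀ (f : (Fin s → ℂ) → ℂ) (t : Fin s → ℂ), AnalyticAt ℂ f t →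
  (¬ ∀ᶠ x in 𝓝 t, f x = 0) → ∀ x : ℕ → Fin s → ℂ,
  (∀ l, Tendsto (fun k => x k l) atTop (𝓝 (t l))) → (∀ l k, x k l ≠ t l) →
  (∀ C : ℕ, ∀ᶠ k in atTop, ∀ l l', l < l' → ‖x k l - t l‖ ≤ ‖x k l' - t l'‖ ^ C) →
  ∀ δ : ℕ → ℝ, Tendsto δ atTop (𝓝 0) → (∀ k, 0 ≤ δ k) →
  (∀ C : ℕ, ∀ᶠ k in atTop, ∀ l, δ k ≤ ‖x k l - t l‖ ^ C) →
  ∀ A : ℝ, ∀ᶠ k in atTop, A * δ k ≤ ‖f (x k)‖

theorem fg_step {s : ℕ} (IH : fg_P s) (f : (Fin (s + 1) → ℂ) → ℂ) (t : Fin (s + 1) → ℂ)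
    (hf : AnalyticAt ℂ f t) (h0 : ¬ ∀ᶠ x in 𝓝 t, f x = 0)
    (x : ℕ → Fin (s + 1) → ℂ) (hx : ∀ l, Tendsto (fun k => x k l) atTop (𝓝 (t l)))
    (hne : ∀ l k, x k l ≠ t l)
    (hflag : ∀ C : ℕ, ∀ᶠ k in atTop, ∀ l l', l < l' → ‖x k l - t l‖ ≤ ‖x k l' - t l'‖ ^ C) :
    ∃ M : ℕ, ∀ᶠ k in atTop, ‖x k 0 - t 0‖ ^ M ≤ ‖f (x k)‖ := by
  classical
  obtain ⟨ε, hε, hball⟩ := Metric.eventually_nhds_iff_ball.1 hf.eventually_analyticAt
  have hfa : AnalyticOnNhd ℂ f (Metric.ball t ε) := fun y hy => hball y hy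
  obtain ⟨r, hr0, hrε⟩ : ∃ r : ℝ, 0 < r ∧ r < ε := ⟨ε / 2, by positivity, by linarith⟩
  have hsub : Metric.closedBall t r ⊆ Metric.ball t ε := Metric.closedBall_subset_ball hrε
  have hsub0 : Metric.closedBall (t 0) r ⊆ Metric.ball (t 0) ε := Metric.closedBall_subset_ball hrε
  -- a bound for `f`
  obtain ⟨B, hB⟩ : ∃ B : ℝ, ∀ y ∈ Metric.closedBall t r, ‖f y‖ ≤ B := by
    have hc : ContinuousOn f (Metric.closedBall t r) := fun y hy =>
      (hfa y (hsub hy)).continuousAt.continuousWithinAt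
    exact (isCompact_closedBall t r).exists_bound_of_continuousOn hc
  -- the Taylor estimate on slices
  have htaylor : ∀ (n : ℕ) (x' : Fin s → ℂ), x' ∈ Metric.ball (Fin.tail t) r →
      (∀ j < n, fg_F f j (Fin.cons (t 0) x' : Fin (s + 1) → ℂ) = 0) →
      ∀ z ∈ Metric.ball (t 0) r,
      ‖f (Fin.cons z x' : Fin (s + 1) → ℂ) -
        fg_F f n (Fin.cons (t 0) x' : Fin (s + 1) → ℂ) / (n.factorial : ℂ) * (z - t 0) ^ n‖ ≤
        2 * B / r ^ (n + 1) * ‖z - t 0‖ ^ (n + 1) := by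
    intro n x' hx' hj z hz
    have hx'' : x' ∈ Metric.ball (Fin.tail t) ε := Metric.ball_subset_ball hrε.le hx'
    have hself : t 0 ∈ Metric.ball (t 0) ε := Metric.mem_ball_self hε
    have h1 := taylor_bound (fun z : ℂ => f (Fin.cons z x' : Fin (s + 1) → ℂ)) (t 0) r hr0 B n
      ((fg_slice_an hε hfa hx'').mono hsub0) (by
        intro w hw
        refine hB _ ?_
        rw [Metric.mem_closedBall, dist_pi_le_iff hr0.le, Fin.forall_fin_succ]
        refine ⟨by simpa using hw, fun i => ?_⟩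
        have h2 := (dist_pi_lt_iff hr0).1 hx' i
        simpa [Fin.tail] using h2.le) (by
        intro j hjn
        rw [fg_slice_iter hε hfa hx'' j _ hself]
        exact hj j hjn) z hz
    rw [fg_slice_iter hε hfa hx'' n _ hself] at h1
    exact h1
  -- some derivative is not identically zero
  have hex : ∃ n, ¬ ∀ᶠ x' in 𝓝 (Fin.tail t), fg_F f n (Fin.cons (t 0) x' : Fin (s + 1) → ℂ) = 0 := by
    by_contra hcon
    push Not at hcon
    apply h0
    have hz : ∀ n, ∀ x' ∈ Metric.ball (Fin.tail t) ε,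
        fg_F f n (Fin.cons (t 0) x' : Fin (s + 1) → ℂ) = 0 := by
      intro n x' hx'
      have h1 := fg_G_an hε (fg_F_an hfa n)
      exact h1.eqOn_zero_of_preconnected_of_eventuallyEq_zero
        (convex_ball (Fin.tail t) ε).isPreconnected (Metric.mem_ball_self hε) (hcon n) hx'
    filter_upwards [Metric.ball_mem_nhds t hr0] with y hy
    have hy' : (Fin.cons (y 0) (Fin.tail y) : Fin (s + 1) → ℂ) = y := Fin.cons_self_tail y
    rw [← hy'] at hy ⊢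
    obtain ⟨hy0, hy1⟩ := (fg_cons_mem hr0).1 hy
    have h1 : ∀ n : ℕ, ‖f (Fin.cons (y 0) (Fin.tail y) : Fin (s + 1) → ℂ)‖ ≤
        2 * B * (‖y 0 - t 0‖ / r) ^ (n + 1) := by
      intro n
      have h2 := htaylor n _ hy1 (fun j _ => hz j _ (Metric.ball_subset_ball hrε.le hy1)) _ hy0
      rw [hz n _ (Metric.ball_subset_ball hrε.le hy1), zero_div, zero_mul, sub_zero] at h2
      refine h2.trans (le_of_eq ?_)
      rw [div_pow]
      ring
    have h3 : ‖y 0 - t 0‖ / r < 1 := by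
      rw [div_lt_one hr0, ← dist_eq_norm]
      exact hy0
    have h4 : Tendsto (fun n : ℕ => 2 * B * (‖y 0 - t 0‖ / r) ^ (n + 1)) atTop (𝓝 (2 * B * 0)) :=
      ((tendsto_add_atTop_iff_nat 1).2
        (tendsto_pow_atTop_nhds_zero_of_lt_one (by positivity) h3)).const_mul _
    rw [mul_zero] at h4
    exact norm_le_zero_iff.1 (ge_of_tendsto' h4 h1)
  set n := Nat.find hex with hn
  have hn1 := Nat.find_spec hex
  have hn2 : ∀ j < n, ∀ x' ∈ Metric.ball (Fin.tail t) ε,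
      fg_F f j (Fin.cons (t 0) x' : Fin (s + 1) → ℂ) = 0 := by
    intro j hj x' hx'
    have h1 := Nat.find_min hex hj
    rw [not_not] at h1
    exact (fg_G_an hε (fg_F_an hfa j)).eqOn_zero_of_preconnected_of_eventuallyEq_zero
        (convex_ball (Fin.tail t) ε).isPreconnected (Metric.mem_ball_self hε) h1 hx'
  set K : ℝ := 2 * B / r ^ (n + 1) with hK
  have hδ0 : Tendsto (fun k => ‖x k 0 - t 0‖) atTop (𝓝 0) := by
    have h1 := (hx 0).sub_const (t 0)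
    rw [sub_self] at h1
    simpa using h1.norm
  have hIH := IH (fun x' => fg_F f n (Fin.cons (t 0) x' : Fin (s + 1) → ℂ)) (Fin.tail t)
    (fg_G_an hε (fg_F_an hfa n) _ (Metric.mem_ball_self hε)) hn1 (fun k => Fin.tail (x k))
    (fun l => hx l.succ) (fun l k => hne l.succ k)
    (fun C => by
      filter_upwards [hflag C] with k hk l l' hll
      exact hk l.succ l'.succ (Fin.succ_lt_succ_iff.2 hll))
    (fun k => ‖x k 0 - t 0‖) hδ0 (fun k => norm_nonneg _)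
    (fun C => by
      filter_upwards [hflag C] with k hk l
      exact hk 0 l.succ (Fin.succ_pos l))
    ((n.factorial : ℝ) * (K + 1))
  refine ⟨n + 1, ?_⟩
  have hxt : Tendsto x atTop (𝓝 t) := tendsto_pi_nhds.2 hx
  filter_upwards [hIH, hxt.eventually (Metric.ball_mem_nhds t hr0)] with k hk hkb
  have hy' : (Fin.cons (x k 0) (Fin.tail (x k)) : Fin (s + 1) → ℂ) = x k := Fin.cons_self_tail (x k)
  rw [← hy'] at hkb
  obtain ⟨hk0, hk1⟩ := (fg_cons_mem hr0).1 hkb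
  have h1 := htaylor n _ hk1 (fun j hj => hn2 j hj _ (Metric.ball_subset_ball hrε.le hk1)) _ hk0
  rw [hy', ← hK] at h1
  set g : ℂ := fg_F f n (Fin.cons (t 0) (Fin.tail (x k)) : Fin (s + 1) → ℂ) with hg
  set d : ℝ := ‖x k 0 - t 0‖ with hd
  have hd0 : 0 ≤ d := norm_nonneg _
  have hfac : (0 : ℝ) < n.factorial := by exact_mod_cast n.factorial_pos
  have h2 : (K + 1) * d ≤ ‖g‖ / n.factorial := by
    rw [le_div_iff₀ hfac]
    calc (K + 1) * d * n.factorial = n.factorial * (K + 1) * d := by ring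
      _ ≤ ‖g‖ := hk
  have h3 : ‖g / (n.factorial : ℂ) * (x k 0 - t 0) ^ n‖ = ‖g‖ / n.factorial * d ^ n := by
    rw [norm_mul, norm_div, norm_pow, Complex.norm_natCast]
  have h4 : ‖g / (n.factorial : ℂ) * (x k 0 - t 0) ^ n‖ ≤
      ‖f (x k)‖ + K * d ^ (n + 1) := by
    have h5 := norm_sub_norm_le (g / (n.factorial : ℂ) * (x k 0 - t 0) ^ n) (f (x k))
    rw [norm_sub_rev] at h5
    linarith
  rw [h3] at h4
  have h5 : (K + 1) * d * d ^ n ≤ ‖g‖ / n.factorial * d ^ n :=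
    mul_le_mul_of_nonneg_right h2 (pow_nonneg hd0 n)
  have h6 : (K + 1) * d * d ^ n = K * d ^ (n + 1) + d ^ (n + 1) := by ring
  linarith

theorem fg_all (s : ℕ) : fg_P s := by
  induction s with
  | zero =>
    intro f t hf h0 x hx hne hflag δ hδ hδ0 hδC A
    have h1 : ∀ y : Fin 0 → ℂ, y = t := fun y => Subsingleton.elim _ _
    have h2 : f t ≠ 0 := by
      intro h
      apply h0
      exact Eventually.of_forall fun y => by rw [h1 y]; exact h
    have h3 : Tendsto (fun k => A * δ k) atTop (𝓝 0) := by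
      have := hδ.const_mul A
      rwa [mul_zero] at this
    filter_upwards [h3.eventually (gt_mem_nhds (norm_pos_iff.2 h2))] with k hk
    rw [h1 (x k)]
    exact hk.le
  | succ s ih =>
    intro f t hf h0 x hx hne hflag δ hδ hδ0 hδC A
    obtain ⟨M, hM⟩ := fg_step ih f t hf h0 x hx hne hflag
    have hd : Tendsto (fun k => ‖x k 0 - t 0‖) atTop (𝓝 0) := by
      have h1 := (hx 0).sub_const (t 0)
      rw [sub_self] at h1
      simpa using h1.norm
    have h3 : Tendsto (fun k => |A| * ‖x k 0 - t 0‖) atTop (𝓝 0) := by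
      have := hd.const_mul |A|
      rwa [mul_zero] at this
    filter_upwards [hM, hδC (M + 1), h3.eventually (gt_mem_nhds one_pos)] with k h1 h2 h4
    have h5 : δ k ≤ ‖x k 0 - t 0‖ ^ (M + 1) := h2 0
    calc A * δ k ≤ |A| * δ k := mul_le_mul_of_nonneg_right (le_abs_self A) (hδ0 k)
      _ ≤ |A| * ‖x k 0 - t 0‖ ^ (M + 1) := mul_le_mul_of_nonneg_left h5 (abs_nonneg A)
      _ = (|A| * ‖x k 0 - t 0‖) * ‖x k 0 - t 0‖ ^ M := by ring
      _ ≤ 1 * ‖x k 0 - t 0‖ ^ M := mul_le_mul_of_nonneg_right h4.le (by positivity)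
      _ ≤ ‖f (x k)‖ := by rw [one_mul]; exact h1

/-- M07b. Lower bound. PROOF. Induction on `s`. Let `f` be analytic on a closed polydisc `D = closedBall t ρ` (sup norm), bounded by `M`. For `x'` in the polydisc of the last `s` (in the induction step `Fin (s+1)`) coordinates let `f_n(x') = iteratedDeriv n (fun x₀ => f (Fin.cons x₀ x')) t₀`;
this is analytic in `x'` (`∂_0 f = fderiv ℂ f x e₀` is analytic, iterate, `AnalyticAt.fderiv`). If all `f_n` vanish near `t'` then they vanish on the polydisc (identity theorem), so `f = 0` near `t` (one-variable Taylor series), excluded. Let `n` be minimal with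
`f_n` not `= 0` near `t'`. For `n' < n` `f_n' = 0` on the polydisc. By `taylor_bound`, `‖f(x_k) - f_n(x'_k)/n! (x_{k,0} - t_0)^n‖ ≤ K ‖x_{k,0} - t_0‖^(n+1)`. If `s = 0` (one variable): `f_n ≠ 0` is a constant. If `s ≥ 1`: by induction
`‖f_n(x'_k)‖ ≥ ‖x_{k,1} - t_1‖^M'` for large `k`, and `K n! ‖x_{k,0} - t_0‖ ≤ (1/2) ‖x_{k,1} - t_1‖^M'` by the flag condition with `C = M' + 1`; so `‖f(x_k)‖ ≥ ‖x_{k,0} - t_0‖^(n+2)`, say. -/
theorem flag_gen_lower (s : ℕ) (f : (Fin (s + 1) → ℂ) → ℂ) (t : Fin (s + 1) → ℂ) (hf : AnalyticAt ℂ f t) (h0 : ¬ ∀ᶠ x in 𝓝 t, f x = 0)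
    (x : ℕ → Fin (s + 1) → ℂ) (hx : ∀ l, Tendsto (fun k => x k l) atTop (𝓝 (t l))) (hne : ∀ l k, x k l ≠ t l)
    (hflag : ∀ C : ℕ, ∀ᶠ k in atTop, ∀ l l', l < l' → ‖x k l - t l‖ ≤ ‖x k l' - t l'‖ ^ C) :
    ∃ M : ℕ, ∀ᶠ k in atTop, ‖x k 0 - t 0‖ ^ M ≤ ‖f (x k)‖ := by
  exact fg_step (fg_all s) f t hf h0 x hx hne hflag

theorem flag_gen (s : ℕ) (f : (Fin s → ℂ) → ℂ) (t : Fin s → ℂ) (hf : AnalyticAt ℂ f t) (h0 : ¬ ∀ᶠ x in 𝓝 t, f x = 0)
    (x : ℕ → Fin s → ℂ) (hx : ∀ l, Tendsto (fun k => x k l) atTop (𝓝 (t l))) (hne : ∀ l k, x k l ≠ t l)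
    (hflag : ∀ C : ℕ, ∀ᶠ k in atTop, ∀ l l', l < l' → ‖x k l - t l‖ ≤ ‖x k l' - t l'‖ ^ C) :
    ∀ᶠ k in atTop, f (x k) ≠ 0 := by
  cases s with
  | zero =>
    refine Eventually.of_forall fun k h => h0 (Eventually.of_forall fun y => ?_)
    rw [← h]
    congr 1
    exact Subsingleton.elim _ _
  | succ s =>
    obtain ⟨M, hM⟩ := flag_gen_lower s f t hf h0 x hx hne hflag
    filter_upwards [hM] with k hk h
    rw [h, norm_zero] at hk
    have h1 : 0 < ‖x k 0 - t 0‖ ^ M := pow_pos (norm_pos_iff.2 (sub_ne_zero.2 (hne 0 k))) M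
    linarith

end Pool.Agent.MSD
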