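import Pool.Agent.Lib.MP_f58a57_nt.Defs

/-! # M07a: uniform Taylor bound (MP_f58a57_nt) -/

open Complex ModularForm EisensteinSeries Filter
open UpperHalfPlane hiding I
open scoped Topology MatrixGroups Polynomial

noncomputable section

namespace Pool.Agent.MSD

theorem m07a_local (h : ℂ → ℂ) (t : ℂ) (n : ℕ) (hh : AnalyticAt ℂ h t)
    (h0 : ∀ j < n, iteratedDeriv j h t = 0) :
    ∃ G : ℂ → ℂ, AnalyticAt ℂ G t ∧ ∀ᶠ x in 𝓝 t,
      h x - iteratedDeriv n h t / (n.factorial : ℂ) * (x - t) ^ n = (x - t) ^ (n + 1) * G x := by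
  have hf : AnalyticAt ℂ (fun z => h (t + z)) 0 := by
    have h1 : AnalyticAt ℂ h ((fun z : ℂ => t + z) 0) := by simpa using hh
    have h2 : AnalyticAt ℂ (fun z : ℂ => t + z) 0 := by fun_prop
    exact AnalyticAt.comp h1 h2
  obtain ⟨F, hF, hFe⟩ := hf.exists_eventuallyEq_sum_add_pow_mul (n + 1)
  refine ⟨fun x => F (x - t), ?_, ?_⟩
  · have h1 : AnalyticAt ℂ F ((fun x : ℂ => x - t) t) := by simpa using hF
    have h2 : AnalyticAt ℂ (fun x : ℂ => x - t) t := by fun_prop
    exact AnalyticAt.comp h1 h2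
  · have ht : Tendsto (fun x : ℂ => x - t) (𝓝 t) (𝓝 0) := by
      have : Continuous (fun x : ℂ => x - t) := by fun_prop
      have h1 := this.tendsto t
      simpa using h1
    filter_upwards [ht.eventually hFe] with x hx
    have e1 : ∀ i, iteratedDeriv i (fun z => h (t + z)) 0 = iteratedDeriv i h t := by
      intro i
      have := iteratedDeriv_comp_const_add i h t
      rw [this]
      simp
    rw [Finset.sum_range_succ, Finset.sum_eq_zero] at hx
    · rw [e1] at hx
      have e2 : t + (x - t) = x := by ring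
      rw [e2, smul_eq_mul, smul_eq_mul] at hx
      rw [hx]
      ring
    · intro i hi
      rw [e1, h0 i (Finset.mem_range.mp hi), smul_zero]

/-- M07a. Uniform Taylor bound. PROOF. `h₁(x) = h x - (h^(n)(t)/n!) (x - t)^n` vanishes to order `≥ n+1` at `t`; `h₁/(x-t)^(n+1)` is analytic on the disc (`dslope`) and on `|x - t| = ρ` it is at most `2 M/ρ^(n+1)` (Cauchy's
estimate `‖h^(n)(t)‖ ≤ n! M/ρ^n`); maximum principle. -/
theorem taylor_bound (h : ℂ → ℂ) (t : ℂ) (ρ : ℝ) (hρ : 0 < ρ) (M : ℝ) (n : ℕ) (hh : AnalyticOnNhd ℂ h (Metric.closedBall t ρ))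
    (hM : ∀ x ∈ Metric.closedBall t ρ, ‖h x‖ ≤ M) (h0 : ∀ j < n, iteratedDeriv j h t = 0) (x : ℂ) (hx : x ∈ Metric.ball t ρ) :
    ‖h x - iteratedDeriv n h t / (n.factorial : ℂ) * (x - t) ^ n‖ ≤ 2 * M / ρ ^ (n + 1) * ‖x - t‖ ^ (n + 1) := by
  obtain ⟨G, hG, hGe⟩ := m07a_local h t n (hh t (Metric.mem_closedBall_self hρ.le)) h0
  set c : ℂ := iteratedDeriv n h t / (n.factorial : ℂ) with hc
  set g : ℂ → ℂ := fun x => if x = t then G t else (h x - c * (x - t) ^ n) / (x - t) ^ (n + 1) with hg
  have hga : AnalyticOnNhd ℂ g (Metric.closedBall t ρ) := by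
    intro z hz
    by_cases hzt : z = t
    · subst hzt
      refine hG.congr ?_
      filter_upwards [hGe] with w hw
      by_cases hwz : w = z
      · simp [hg, hwz]
      · have hwz' : (w - z) ^ (n + 1) ≠ 0 := pow_ne_zero _ (sub_ne_zero.mpr hwz)
        simp only [hg, hwz, if_false]
        rw [hw]
        field_simp
    · have h1 : AnalyticAt ℂ (fun x => (h x - c * (x - t) ^ n) / (x - t) ^ (n + 1)) z := by
        have h2 := hh z hz
        refine AnalyticAt.div (by fun_prop) (by fun_prop) (pow_ne_zero _ (sub_ne_zero.mpr hzt))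
      refine h1.congr ?_
      filter_upwards [isOpen_ne.mem_nhds hzt] with w hw
      have hw' : w ≠ t := hw
      simp [hg, hw']
  have hdiff : DiffContOnCl ℂ g (Metric.ball t ρ) := by
    refine DifferentiableOn.diffContOnCl ?_
    intro z hz
    rw [closure_ball t hρ.ne'] at hz
    exact (hga z hz).differentiableAt.differentiableWithinAt
  have hdiffh : DiffContOnCl ℂ h (Metric.ball t ρ) := by
    refine DifferentiableOn.diffContOnCl ?_
    intro z hz
    rw [closure_ball t hρ.ne'] at hz
    exact (hh z hz).differentiableAt.differentiableWithinAt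
  have hcb : ‖c‖ * ρ ^ n ≤ M := by
    have h1 := Complex.norm_iteratedDeriv_le_of_forall_mem_sphere_norm_le n hρ hdiffh
      (fun z hz => hM z (Metric.sphere_subset_closedBall hz))
    rw [hc, norm_div, Complex.norm_natCast]
    have hf0 : (0 : ℝ) < (n.factorial : ℝ) := by exact_mod_cast n.factorial_pos
    rw [div_mul_eq_mul_div, div_le_iff₀ hf0]
    rw [le_div_iff₀ (by positivity)] at h1
    linarith
  have hsph : ∀ z ∈ frontier (Metric.ball t ρ), ‖g z‖ ≤ 2 * M / ρ ^ (n + 1) := by
    intro z hz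
    rw [frontier_ball t hρ.ne'] at hz
    have hz1 : ‖z - t‖ = ρ := mem_sphere_iff_norm.mp hz
    have hzt : z ≠ t := by
      rintro rfl
      simp at hz1
      exact hρ.ne hz1
    simp only [hg, hzt, if_false]
    rw [norm_div, norm_pow, hz1]
    refine div_le_div_of_nonneg_right ?_ (by positivity)
    refine (norm_sub_le _ _).trans ?_
    rw [norm_mul, norm_pow, hz1]
    have h1 := hM z (Metric.sphere_subset_closedBall hz)
    linarith
  have hmax := Complex.norm_le_of_forall_mem_frontier_norm_le Metric.isBounded_ball hdiff hsph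
    (subset_closure hx)
  by_cases hxt : x = t
  · subst hxt
    have h2 := hGe.self_of_nhds
    rw [h2]
    simp
  · have e1 : h x - c * (x - t) ^ n = g x * (x - t) ^ (n + 1) := by
      have : (x - t) ^ (n + 1) ≠ 0 := pow_ne_zero _ (sub_ne_zero.mpr hxt)
      simp only [hg, hxt, if_false]
      field_simp
    rw [e1, norm_mul, norm_pow]
    exact mul_le_mul_of_nonneg_right hmax (by positivity)

end Pool.Agent.MSD
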