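import Pool.Agent.Lib.MP_f58a57_nt.M00_Defs
import Pool.Agent.Lib.MP_f58a57_nt.C3a_Coords

/-! # M10: coordinates of CM values (MP_f58a57_nt) -/

open Complex ModularForm EisensteinSeries Filter
open UpperHalfPlane hiding I
open scoped Topology MatrixGroups Polynomial

noncomputable section

namespace Pool.Agent.MSD

/-- the scaled coordinates -/
theorem m10_core (d : ℕ) (hd : 0 < d) (n1 n2 m1 m2 : ℤ) (P Q Z : ℂ) (hZ : Z ≠ 0) (hP : Z * P = n1 + n2 * rt d)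
    (hQ : Z * Q = m1 + m2 * rt d) (him : 0 < (P / Q).im) :
    0 < n2 * m1 - n1 * m2 ∧ 0 < m1 ^ 2 + d * m2 ^ 2 ∧
      P / Q = ((n2 * m1 - n1 * m2 : ℤ) * rt d + (n1 * m1 + d * (n2 * m2) : ℤ)) / (m1 ^ 2 + d * m2 ^ 2 : ℤ) := by
  obtain ⟨q, hq⟩ : ∃ q : ℤ, q = n2 * m1 - n1 * m2 := ⟨_, rfl⟩
  obtain ⟨p, hp⟩ : ∃ p : ℤ, p = n1 * m1 + d * (n2 * m2) := ⟨_, rfl⟩
  obtain ⟨r, hr⟩ : ∃ r : ℤ, r = m1 ^ 2 + d * m2 ^ 2 := ⟨_, rfl⟩
  rw [← hq, ← hp, ← hr]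
  have hprod : ((n1 : ℂ) + n2 * rt d) * (starRingEnd ℂ) ((m1 : ℂ) + m2 * rt d) = (q : ℂ) * rt d + p := by
    rw [map_add, map_mul, C3a_conj_rt, map_intCast, map_intCast, hq, hp]
    push_cast
    linear_combination (-(n2 : ℂ) * m2) * C3a_rt_sq d
  have hprod2 : ((m1 : ℂ) + m2 * rt d) * (starRingEnd ℂ) ((m1 : ℂ) + m2 * rt d) = (r : ℂ) := by
    rw [map_add, map_mul, C3a_conj_rt, map_intCast, map_intCast, hr]
    push_cast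
    linear_combination (-(m2 : ℂ) * m2) * C3a_rt_sq d
  have hQ0 : Q ≠ 0 := by
    intro h0
    rw [h0, div_zero, Complex.zero_im] at him
    exact lt_irrefl _ him
  have hmne : ((m1 : ℂ) + m2 * rt d) ≠ 0 := by
    rw [← hQ]
    exact mul_ne_zero hZ hQ0
  have hcm : (starRingEnd ℂ) ((m1 : ℂ) + m2 * rt d) ≠ 0 := (map_ne_zero _).2 hmne
  have hrne : (r : ℂ) ≠ 0 := by
    rw [← hprod2]
    exact mul_ne_zero hmne hcm
  have hrne' : r ≠ 0 := by exact_mod_cast hrne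
  have hr0 : 0 ≤ r := by rw [hr]; positivity
  have hrpos : 0 < r := lt_of_le_of_ne hr0 (Ne.symm hrne')
  have hval : P / Q = ((q : ℂ) * rt d + p) / r := by
    rw [← mul_div_mul_left P Q hZ, hP, hQ, ← hprod, ← hprod2, mul_div_mul_right _ _ hcm]
  have hsd : (0 : ℝ) < Real.sqrt d := Real.sqrt_pos.2 (by exact_mod_cast hd)
  refine ⟨?_, hrpos, hval⟩
  have h4 : (((q : ℂ) * rt d + p) / r).im = (q : ℝ) * Real.sqrt d / r := by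
    have h5 : ((q : ℂ) * rt d + p) / r = (((1 / (r : ℝ) : ℝ)) : ℂ) * ((q : ℂ) * rt d + p) := by
      push_cast
      field_simp
    have h6 : ((q : ℂ) * rt d + p).im = (q : ℝ) * Real.sqrt d := by
      have h5 : (((q : ℂ)) * rt d + p).im = ((((q : ℝ) : ℂ)) * rt d).im + (((p : ℝ) : ℂ)).im := by
        rw [← Complex.add_im]
        push_cast
        rfl
      rw [h5, Complex.im_ofReal_mul, Complex.ofReal_im, C3a_rt_im, add_zero]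
    rw [h5, Complex.im_ofReal_mul, h6]
    ring
  rw [hval, h4] at him
  have hr' : (0 : ℝ) < (r : ℝ) := by exact_mod_cast hrpos
  have h7 : 0 < (q : ℝ) * Real.sqrt d := by
    by_contra hc
    exact absurd him (not_lt.2 (div_nonpos_of_nonpos_of_nonneg (not_lt.1 hc) hr'.le))
  have h8 : (0 : ℝ) < (q : ℝ) := (mul_pos_iff_of_pos_right hsd).1 h7
  exact_mod_cast h8

/-- product of the denominators -/
def m10_B {s : ℕ} (x : Fin s → ℚ) : ℕ := ∏ l, (x l).den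

theorem m10_B_pos {s : ℕ} (x : Fin s → ℚ) : 0 < m10_B x := Finset.prod_pos fun l _ => (x l).den_pos

theorem m10_B_le {s : ℕ} (x : Fin s → ℚ) : m10_B x ≤ Bd x ^ s := by
  unfold m10_B Bd
  calc ∏ l, (x l).den ≤ ∏ _l : Fin s, (2 + ∑ l, (x l).den) := by
        refine Finset.prod_le_prod' fun l _ => ?_
        have := Finset.single_le_sum (f := fun l => (x l).den) (fun l _ => Nat.zero_le _) (Finset.mem_univ l)
        exact this.trans (by omega)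
    _ = (2 + ∑ l, (x l).den) ^ s := by
        rw [Finset.prod_const, Finset.card_univ, Fintype.card_fin]

/-- coordinates of the values of a polynomial -/
theorem m10_poly {s : ℕ} (d : ℕ) (R' : ℕ) (P : MvPolynomial (Fin s) (KF d)) :
    ∃ M D K : ℕ, 0 < M ∧ ∀ x : Fin s → ℚ, (∀ l, |(x l : ℝ)| ≤ R') → ∃ n1 n2 : ℤ,
      ((M : ℂ) * (m10_B x : ℂ) ^ D) * MvPolynomial.aeval (fun l => ((x l : ℚ) : ℂ)) P = n1 + n2 * rt d ∧
      |n1| ≤ (K : ℤ) * (m10_B x : ℤ) ^ D ∧ |n2| ≤ (K : ℤ) * (m10_B x : ℤ) ^ D := by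
  induction P using MvPolynomial.induction_on with
  | C c =>
    obtain ⟨u, v, huv⟩ := (mem_KF d (c : ℂ)).1 c.2
    obtain ⟨k1, hk1⟩ := C3a_mul_int u (u.den * v.den) (dvd_mul_right _ _)
    obtain ⟨k2, hk2⟩ := C3a_mul_int v (u.den * v.den) (dvd_mul_left _ _)
    refine ⟨u.den * v.den, 0, k1.natAbs + k2.natAbs, Nat.mul_pos u.den_pos v.den_pos, fun x _ => ⟨k1, k2, ?_, ?_, ?_⟩⟩
    · rw [MvPolynomial.aeval_C, pow_zero, mul_one]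
      have h1 : (algebraMap (KF d) ℂ) c = (c : ℂ) := rfl
      rw [h1, huv]
      linear_combination hk1 + (rt d) * hk2
    · rw [pow_zero, mul_one]
      push_cast
      have := abs_nonneg k2
      linarith
    · rw [pow_zero, mul_one]
      push_cast
      have := abs_nonneg k1
      linarith
  | add p q hp hq =>
    obtain ⟨M1, D1, K1, hM1, h1⟩ := hp
    obtain ⟨M2, D2, K2, hM2, h2⟩ := hq
    refine ⟨M1 * M2, D1 + D2, M2 * K1 + M1 * K2, Nat.mul_pos hM1 hM2, fun x hx => ?_⟩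
    obtain ⟨a1, a2, ha, ha1, ha2⟩ := h1 x hx
    obtain ⟨b1, b2, hb, hb1, hb2⟩ := h2 x hx
    have hB : (0 : ℤ) < (m10_B x : ℤ) := by exact_mod_cast m10_B_pos x
    obtain ⟨B, hBe⟩ : ∃ B : ℤ, B = (m10_B x : ℤ) := ⟨_, rfl⟩
    have hBc : (m10_B x : ℂ) = (B : ℂ) := by rw [hBe]; push_cast; rfl
    rw [← hBe] at hB ha1 ha2 hb1 hb2 ⊢
    rw [hBc] at ha hb ⊢
    have hbound : ∀ a b : ℤ, |a| ≤ (K1 : ℤ) * B ^ D1 → |b| ≤ (K2 : ℤ) * B ^ D2 →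
        |(M2 : ℤ) * B ^ D2 * a + (M1 : ℤ) * B ^ D1 * b| ≤ ((M2 * K1 + M1 * K2 : ℕ) : ℤ) * B ^ (D1 + D2) := by
      intro a b h3 h4
      have e1 : 0 ≤ (M2 : ℤ) * B ^ D2 := by positivity
      have e2 : 0 ≤ (M1 : ℤ) * B ^ D1 := by positivity
      calc |(M2 : ℤ) * B ^ D2 * a + (M1 : ℤ) * B ^ D1 * b|
          ≤ |(M2 : ℤ) * B ^ D2 * a| + |(M1 : ℤ) * B ^ D1 * b| := abs_add_le _ _
        _ = (M2 : ℤ) * B ^ D2 * |a| + (M1 : ℤ) * B ^ D1 * |b| := by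
            rw [abs_mul ((M2 : ℤ) * B ^ D2) a, abs_mul ((M1 : ℤ) * B ^ D1) b, abs_of_nonneg e1, abs_of_nonneg e2]
        _ ≤ (M2 : ℤ) * B ^ D2 * ((K1 : ℤ) * B ^ D1) + (M1 : ℤ) * B ^ D1 * ((K2 : ℤ) * B ^ D2) := by
            gcongr
        _ = ((M2 * K1 + M1 * K2 : ℕ) : ℤ) * B ^ (D1 + D2) := by
            push_cast; ring
    refine ⟨(M2 : ℤ) * B ^ D2 * a1 + (M1 : ℤ) * B ^ D1 * b1, (M2 : ℤ) * B ^ D2 * a2 + (M1 : ℤ) * B ^ D1 * b2, ?_,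
      hbound _ _ ha1 hb1, hbound _ _ ha2 hb2⟩
    rw [map_add]
    push_cast
    linear_combination ((M2 : ℂ) * (B : ℂ) ^ D2) * ha + ((M1 : ℂ) * (B : ℂ) ^ D1) * hb
  | mul_X p l hp =>
    obtain ⟨M, D, K, hM, h1⟩ := hp
    refine ⟨M, D + 1, K * R', hM, fun x hx => ?_⟩
    obtain ⟨a1, a2, ha, ha1, ha2⟩ := h1 x hx
    have hB : (0 : ℤ) < (m10_B x : ℤ) := by exact_mod_cast m10_B_pos x
    obtain ⟨k, hk⟩ := C3a_mul_int (x l) (m10_B x) (Finset.dvd_prod_of_mem (fun i => (x i).den) (Finset.mem_univ l))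
    have hkb : |k| ≤ (R' : ℤ) * (m10_B x : ℤ) := by
      have h2 : (m10_B x : ℝ) * (x l : ℝ) = (k : ℝ) := by exact_mod_cast hk
      have h3 : |(k : ℝ)| ≤ (R' : ℝ) * (m10_B x : ℝ) := by
        rw [← h2, abs_mul, abs_of_nonneg (Nat.cast_nonneg _), mul_comm]
        exact mul_le_mul_of_nonneg_right (hx l) (Nat.cast_nonneg _)
      exact_mod_cast h3
    obtain ⟨B, hBe⟩ : ∃ B : ℤ, B = (m10_B x : ℤ) := ⟨_, rfl⟩
    have hBc : (m10_B x : ℂ) = (B : ℂ) := by rw [hBe]; push_cast; rfl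
    rw [← hBe] at hB ha1 ha2 hkb ⊢
    rw [hBc] at ha hk ⊢
    have hbound : ∀ a : ℤ, |a| ≤ (K : ℤ) * B ^ D → |a * k| ≤ ((K * R' : ℕ) : ℤ) * B ^ (D + 1) := by
      intro a h3
      rw [abs_mul]
      calc |a| * |k| ≤ ((K : ℤ) * B ^ D) * ((R' : ℤ) * B) := mul_le_mul h3 hkb (abs_nonneg _) (by positivity)
        _ = ((K * R' : ℕ) : ℤ) * B ^ (D + 1) := by push_cast; ring
    refine ⟨a1 * k, a2 * k, ?_, hbound _ ha1, hbound _ ha2⟩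
    rw [map_mul, MvPolynomial.aeval_X]
    push_cast
    linear_combination ((k : ℂ)) * ha + ((M : ℂ) * (B : ℂ) ^ D *
      MvPolynomial.aeval (fun l => ((x l : ℚ) : ℂ)) p) * hk

/-- M10. The version of `cm_coords` (`C3a_Coords.lean`) for rational functions. PROOF. Let `M > 0` be an integer with `M u ∈ ℤ + ℤ√(-d)` for all coefficients `u` of `U, V` (`C3a_common`, `mem_KF`), `D` larger than all exponents. For `x_l = a_l/b_l`, `Π = M Π_l b_l^D`: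
`Π U(x) = n₁ + n₂ √(-d)`, `Π V(x) = m₁ + m₂ √(-d)` with integers of absolute value `≤ K B^K` (`|a_l| ≤ R b_l`, `b_l ≤ B = Bd x`, `K` depends on `U, V, R, s`). Then `U(x)/V(x) = (p + q √(-d))/r`, `r = m₁² + d m₂² > 0` (`V(x) ≠ 0` because the imaginary part is positive),
`q = n₂ m₁ - n₁ m₂ > 0`, `p = n₁ m₁ + d n₂ m₂`, and `q r ≤ B^C` (`B ≥ 2`). -/
theorem cm_coordsM {s : ℕ} (d : ℕ) (hd : 0 < d) (U V : MvPolynomial (Fin s) (KF d)) (R : ℝ) :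
    ∃ C : ℕ, ∀ x : Fin s → ℚ, (∀ l, |(x l : ℝ)| ≤ R) →
      0 < (MvPolynomial.aeval (fun l => ((x l : ℚ) : ℂ)) U / MvPolynomial.aeval (fun l => ((x l : ℚ) : ℂ)) V : ℂ).im →
      ∃ (q r : ℕ) (p : ℤ), 0 < q ∧ 0 < r ∧ q * r ≤ Bd x ^ C ∧
        MvPolynomial.aeval (fun l => ((x l : ℚ) : ℂ)) U / MvPolynomial.aeval (fun l => ((x l : ℚ) : ℂ)) V = (q * rt d + p) / r := by
  obtain ⟨R', hR'⟩ := exists_nat_ge R
  obtain ⟨M1, D1, K1, hM1, h1⟩ := m10_poly d R' U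
  obtain ⟨M2, D2, K2, hM2, h2⟩ := m10_poly d R' V
  obtain ⟨K, hK⟩ : ∃ K : ℕ, K = M2 * K1 + M1 * K2 := ⟨_, rfl⟩
  obtain ⟨C0, hC0⟩ : ∃ C0 : ℕ, C0 = 2 * (1 + d) * K ^ 4 := ⟨_, rfl⟩
  refine ⟨C0 + s * (4 * (D1 + D2)), fun x hx him => ?_⟩
  have hx' : ∀ l, |(x l : ℝ)| ≤ R' := fun l => (hx l).trans hR'
  obtain ⟨a1, a2, ha, ha1, ha2⟩ := h1 x hx'
  obtain ⟨b1, b2, hb, hb1, hb2⟩ := h2 x hx'
  have hB : (0 : ℤ) < (m10_B x : ℤ) := by exact_mod_cast m10_B_pos x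
  have hBle := m10_B_le x
  obtain ⟨B, hBe⟩ : ∃ B : ℤ, B = (m10_B x : ℤ) := ⟨_, rfl⟩
  have hBc : (m10_B x : ℂ) = (B : ℂ) := by rw [hBe]; push_cast; rfl
  rw [← hBe] at hB ha1 ha2 hb1 hb2
  rw [hBc] at ha hb
  obtain ⟨t, ht⟩ : ∃ t : ℤ, t = B ^ (D1 + D2) := ⟨_, rfl⟩
  have htpos : 0 < t := by rw [ht]; positivity
  have hbU : ∀ a : ℤ, |a| ≤ (K1 : ℤ) * B ^ D1 → |(M2 : ℤ) * B ^ D2 * a| ≤ (K : ℤ) * t := by
    intro a h3
    have e1 : 0 ≤ (M2 : ℤ) * B ^ D2 := by positivity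
    rw [abs_mul, abs_of_nonneg e1]
    calc (M2 : ℤ) * B ^ D2 * |a| ≤ (M2 : ℤ) * B ^ D2 * ((K1 : ℤ) * B ^ D1) := by gcongr
      _ = ((M2 * K1 : ℕ) : ℤ) * t := by rw [ht]; push_cast; ring
      _ ≤ (K : ℤ) * t := by
        rw [hK]
        have : ((M2 * K1 : ℕ) : ℤ) ≤ ((M2 * K1 + M1 * K2 : ℕ) : ℤ) := by exact_mod_cast Nat.le_add_right _ _
        gcongr
  have hbV : ∀ a : ℤ, |a| ≤ (K2 : ℤ) * B ^ D2 → |(M1 : ℤ) * B ^ D1 * a| ≤ (K : ℤ) * t := by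
    intro a h3
    have e1 : 0 ≤ (M1 : ℤ) * B ^ D1 := by positivity
    rw [abs_mul, abs_of_nonneg e1]
    calc (M1 : ℤ) * B ^ D1 * |a| ≤ (M1 : ℤ) * B ^ D1 * ((K2 : ℤ) * B ^ D2) := by gcongr
      _ = ((M1 * K2 : ℕ) : ℤ) * t := by rw [ht]; push_cast; ring
      _ ≤ (K : ℤ) * t := by
        rw [hK]
        have : ((M1 * K2 : ℕ) : ℤ) ≤ ((M2 * K1 + M1 * K2 : ℕ) : ℤ) := by exact_mod_cast Nat.le_add_left _ _
        gcongr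
  have hBne : (B : ℂ) ≠ 0 := by exact_mod_cast hB.ne'
  have hM1c : (M1 : ℂ) ≠ 0 := by exact_mod_cast hM1.ne'
  have hM2c : (M2 : ℂ) ≠ 0 := by exact_mod_cast hM2.ne'
  have hZ : (M1 : ℂ) * M2 * (B : ℂ) ^ (D1 + D2) ≠ 0 := mul_ne_zero (mul_ne_zero hM1c hM2c) (pow_ne_zero _ hBne)
  have hP : ((M1 : ℂ) * M2 * (B : ℂ) ^ (D1 + D2)) * MvPolynomial.aeval (fun l => ((x l : ℚ) : ℂ)) U =
      (((M2 : ℤ) * B ^ D2 * a1 : ℤ) : ℂ) + (((M2 : ℤ) * B ^ D2 * a2 : ℤ) : ℂ) * rt d := by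
    push_cast
    linear_combination ((M2 : ℂ) * (B : ℂ) ^ D2) * ha
  have hQ : ((M1 : ℂ) * M2 * (B : ℂ) ^ (D1 + D2)) * MvPolynomial.aeval (fun l => ((x l : ℚ) : ℂ)) V =
      (((M1 : ℤ) * B ^ D1 * b1 : ℤ) : ℂ) + (((M1 : ℤ) * B ^ D1 * b2 : ℤ) : ℂ) * rt d := by
    push_cast
    linear_combination ((M1 : ℂ) * (B : ℂ) ^ D1) * hb
  obtain ⟨hq, hr, hval⟩ := m10_core d hd _ _ _ _ _ _ _ hZ hP hQ him
  have hqr := C3a_qr_bound (d := d) (K := (K : ℤ)) (t := t) (Int.natCast_nonneg K) htpos (hbU a1 ha1) (hbU a2 ha2)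
    (hbV b1 hb1) (hbV b2 hb2)
  obtain ⟨n1, hn1⟩ : ∃ n1 : ℤ, n1 = (M2 : ℤ) * B ^ D2 * a1 := ⟨_, rfl⟩
  obtain ⟨n2, hn2⟩ : ∃ n2 : ℤ, n2 = (M2 : ℤ) * B ^ D2 * a2 := ⟨_, rfl⟩
  obtain ⟨m1, hm1⟩ : ∃ m1 : ℤ, m1 = (M1 : ℤ) * B ^ D1 * b1 := ⟨_, rfl⟩
  obtain ⟨m2, hm2⟩ : ∃ m2 : ℤ, m2 = (M1 : ℤ) * B ^ D1 * b2 := ⟨_, rfl⟩
  rw [← hn1, ← hn2, ← hm1, ← hm2] at hq hval hqr
  rw [← hm1, ← hm2] at hr
  refine ⟨(n2 * m1 - n1 * m2).toNat, (m1 ^ 2 + d * m2 ^ 2).toNat, n1 * m1 + d * (n2 * m2), by omega, by omega, ?_, ?_⟩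
  · have h5 : (((n2 * m1 - n1 * m2).toNat * (m1 ^ 2 + d * m2 ^ 2).toNat : ℕ) : ℤ) ≤ ((C0 * (m10_B x) ^ (4 * (D1 + D2)) : ℕ) : ℤ) := by
      push_cast
      rw [Int.toNat_of_nonneg hq.le, Int.toNat_of_nonneg hr.le]
      refine hqr.trans (le_of_eq ?_)
      rw [hC0, ht, ← hBe]
      push_cast
      ring
    have h6 : (n2 * m1 - n1 * m2).toNat * (m1 ^ 2 + d * m2 ^ 2).toNat ≤ C0 * (m10_B x) ^ (4 * (D1 + D2)) := by
      exact_mod_cast h5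
    have h7 : 2 ≤ Bd x := by unfold Bd; omega
    have h8 : C0 ≤ Bd x ^ C0 := (Nat.lt_two_pow_self).le.trans (Nat.pow_le_pow_left h7 C0)
    calc _ ≤ C0 * (m10_B x) ^ (4 * (D1 + D2)) := h6
      _ ≤ Bd x ^ C0 * (Bd x ^ s) ^ (4 * (D1 + D2)) := Nat.mul_le_mul h8 (Nat.pow_le_pow_left hBle _)
      _ = Bd x ^ (C0 + s * (4 * (D1 + D2))) := by rw [← pow_mul, ← pow_add]
  · have hq' : (((n2 * m1 - n1 * m2).toNat : ℕ) : ℂ) = ((n2 * m1 - n1 * m2 : ℤ) : ℂ) := by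
      have : (((n2 * m1 - n1 * m2).toNat : ℕ) : ℤ) = n2 * m1 - n1 * m2 := Int.toNat_of_nonneg hq.le
      exact_mod_cast congrArg (fun z : ℤ => (z : ℂ)) this
    have hr' : (((m1 ^ 2 + d * m2 ^ 2).toNat : ℕ) : ℂ) = ((m1 ^ 2 + d * m2 ^ 2 : ℤ) : ℂ) := by
      have : (((m1 ^ 2 + d * m2 ^ 2).toNat : ℕ) : ℤ) = m1 ^ 2 + d * m2 ^ 2 := Int.toNat_of_nonneg hr.le
      exact_mod_cast congrArg (fun z : ℤ => (z : ℂ)) this
    rw [hq', hr']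
    exact hval

end Pool.Agent.MSD
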