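import Pool.Agent.Lib.MP_f58a57_nt.M10_Coords
import Pool.Agent.Lib.MP_f58a57_nt.C3_PcValues

/-! # M11: the values at rational points (MP_f58a57_nt) -/

open Complex ModularForm EisensteinSeries Filter
open UpperHalfPlane hiding I
open scoped Topology MatrixGroups Polynomial

noncomputable section

namespace Pool.Agent.MSD

theorem m11_two_le {s : ℕ} (x : Fin s → ℚ) : 2 ≤ Bd x := Nat.le_add_right _ _

/-- M11a. (Copy `pc_values` in `C3_PcValues.lean`; `cm_coordsM` instead of `cm_coords`.) -/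
theorem pc_valuesM {s : ℕ} (d : ℕ) (hd : 0 < d) (Ω : ℂ) (hΩ : CMBase (rt d) Ω) (U V : MvPolynomial (Fin s) (KF d)) (R : ℝ) (κ : Fin 3) :
    PC (X := {x : Fin s → ℚ // (∀ l, |(x l : ℝ)| ≤ R) ∧
        0 < (MvPolynomial.aeval (fun l => ((x l : ℚ) : ℂ)) U / MvPolynomial.aeval (fun l => ((x l : ℚ) : ℂ)) V : ℂ).im})
      (fun x => Bd x.1)
      (fun x => ![e2s (MvPolynomial.aeval (fun l => ((x.1 l : ℚ) : ℂ)) U / MvPolynomial.aeval (fun l => ((x.1 l : ℚ) : ℂ)) V) / Ω ^ 2,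
        e4 (MvPolynomial.aeval (fun l => ((x.1 l : ℚ) : ℂ)) U / MvPolynomial.aeval (fun l => ((x.1 l : ℚ) : ℂ)) V) / Ω ^ 4,
        e6 (MvPolynomial.aeval (fun l => ((x.1 l : ℚ) : ℂ)) U / MvPolynomial.aeval (fun l => ((x.1 l : ℚ) : ℂ)) V) / Ω ^ 6] κ) := by
  obtain ⟨C, hC⟩ := cm_coordsM d hd U V R
  have hC' : ∀ x : {x : Fin s → ℚ // (∀ l, |(x l : ℝ)| ≤ R) ∧
      0 < (MvPolynomial.aeval (fun l => ((x l : ℚ) : ℂ)) U / MvPolynomial.aeval (fun l => ((x l : ℚ) : ℂ)) V : ℂ).im},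
      ∃ (q r : ℕ) (p : ℤ), 0 < q ∧ 0 < r ∧ q * r ≤ Bd x.1 ^ C ∧
      MvPolynomial.aeval (fun l => ((x.1 l : ℚ) : ℂ)) U / MvPolynomial.aeval (fun l => ((x.1 l : ℚ) : ℂ)) V =
        (q * rt d + p) / r := fun x => hC x.1 x.2.1 x.2.2
  choose q r p hq hr hqr happ using hC'
  have hV := fun x => values_Gr d hd (q x) (r x) (p x) (hq x) (hr x)
  choose ρ hρ h4 h6 h2 using hV
  have hB : ∀ x : {x : Fin s → ℚ // (∀ l, |(x l : ℝ)| ≤ R) ∧
      0 < (MvPolynomial.aeval (fun l => ((x l : ℚ) : ℂ)) U / MvPolynomial.aeval (fun l => ((x l : ℚ) : ℂ)) V : ℂ).im},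
      2 ≤ Bd x.1 := fun x => m11_two_le x.1
  have hN : ∀ x, q x * r x ≤ Bd x.1 ^ C := fun x => hqr x
  have hq' : ∀ x, q x ≤ Bd x.1 ^ C := fun x =>
    (Nat.le_mul_of_pos_right (q x) (hr x)).trans (hN x)
  have hG := fun κ' => pc_GrFam hB (rt d) Ω hΩ κ' (fun x => q x * r x)
    (fun x => Nat.mul_pos (hq x) (hr x)) C hN ρ hρ
  have hI := fun w => pc_invFam hB q hq C w hq'
  fin_cases κ
  · have hE : PC (fun x : {x : Fin s → ℚ // (∀ l, |(x l : ℝ)| ≤ R) ∧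
        0 < (MvPolynomial.aeval (fun l => ((x l : ℚ) : ℂ)) U / MvPolynomial.aeval (fun l => ((x l : ℚ) : ℂ)) V : ℂ).im} => Bd x.1)
        (fun _ => e2s (rt d) / Ω ^ 2) := PC.const hB _ (cm_e2 d hd Ω hΩ)
    have hM : PC (fun x : {x : Fin s → ℚ // (∀ l, |(x l : ℝ)| ≤ R) ∧
        0 < (MvPolynomial.aeval (fun l => ((x l : ℚ) : ℂ)) U / MvPolynomial.aeval (fun l => ((x l : ℚ) : ℂ)) V : ℂ).im} => Bd x.1)
        (fun x => (((q x * r x : ℕ) : ℚ) : ℂ)) := by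
      refine pc_ratFam _ C (fun x => ?_) (fun x => ?_)
      · rw [Rat.den_natCast]
        exact Nat.one_le_pow _ _ (Nat.lt_of_lt_of_le Nat.zero_lt_two (hB x))
      · rw [Rat.cast_natCast, abs_of_nonneg (Nat.cast_nonneg _)]
        exact_mod_cast hN x
    have hT := PC.mul hB (PC.add hB (hG 2) (PC.mul hB hM hE)) (hI 2)
    refine (congrArg (PC _) ?_).mp hT
    funext x
    show _ = e2s (MvPolynomial.aeval (fun l => ((x.1 l : ℚ) : ℂ)) U /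
      MvPolynomial.aeval (fun l => ((x.1 l : ℚ) : ℂ)) V) / Ω ^ 2
    rw [happ x, h2 x]
    have hΩ0 := hΩ.ne
    have hq0 : (q x : ℂ) ≠ 0 := Nat.cast_ne_zero.2 (hq x).ne'
    show (Gr 2 (rt d) (ρ x) / Ω ^ 2 + ((q x * r x : ℕ) : ℚ) * (e2s (rt d) / Ω ^ 2)) * (1 / (q x : ℂ) ^ 2) = _
    push_cast
    field_simp
  · have hT := PC.mul hB (hG 0) (hI 4)
    refine (congrArg (PC _) ?_).mp hT
    funext x
    show _ = e4 (MvPolynomial.aeval (fun l => ((x.1 l : ℚ) : ℂ)) U /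
      MvPolynomial.aeval (fun l => ((x.1 l : ℚ) : ℂ)) V) / Ω ^ 4
    rw [happ x, h4 x]
    have hΩ0 := hΩ.ne
    have hq0 : (q x : ℂ) ≠ 0 := Nat.cast_ne_zero.2 (hq x).ne'
    show (Gr 0 (rt d) (ρ x) / Ω ^ 4) * (1 / (q x : ℂ) ^ 4) = _
    field_simp
  · have hT := PC.mul hB (hG 1) (hI 6)
    refine (congrArg (PC _) ?_).mp hT
    funext x
    show _ = e6 (MvPolynomial.aeval (fun l => ((x.1 l : ℚ) : ℂ)) U /
      MvPolynomial.aeval (fun l => ((x.1 l : ℚ) : ℂ)) V) / Ω ^ 6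
    rw [happ x, h6 x]
    have hΩ0 := hΩ.ne
    have hq0 : (q x : ℂ) ≠ 0 := Nat.cast_ne_zero.2 (hq x).ne'
    show (Gr 1 (rt d) (ρ x) / Ω ^ 6) * (1 / (q x : ℂ) ^ 6) = _
    field_simp

/-- M11b. The coordinates (`pc_rat`, `PC.comp`). -/
theorem pc_coordM {s : ℕ} (R : ℝ) (l : Fin s) : PC (X := {x : Fin s → ℚ // ∀ l, |(x l : ℝ)| ≤ R}) (fun x => Bd x.1)
    (fun x => ((x.1 l : ℚ) : ℂ)) := by
  have h := PC.comp (X := {x : ℚ // |(x : ℝ)| ≤ R}) (B := fun x => 2 + x.1.den)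
    (Y := {x : Fin s → ℚ // ∀ l, |(x l : ℝ)| ≤ R}) (B' := fun x => Bd x.1)
    (fun x => ⟨x.1 l, x.2 l⟩) (fun x => m11_two_le x.1) (fun x => by
      show 2 + (x.1 l).den ≤ 2 + ∑ l, (x.1 l).den
      have h1 : (x.1 l).den ≤ ∑ l, (x.1 l).den :=
        Finset.single_le_sum (f := fun l => (x.1 l).den) (fun _ _ => Nat.zero_le _)
          (Finset.mem_univ l)
      omega) (pc_rat R)
  exact h

end Pool.Agent.MSD
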