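import Pool.Agent.Lib.MP_f58a57_nt.M06d_Indep
import Pool.Agent.Lib.MP_f58a57_nt.M07_FlagGen
import Pool.Agent.Lib.MP_f58a57_nt.M11_PcM
import Pool.Agent.Lib.MP_f58a57_nt.G1_AlgIndep

/-! # M12: algebraic independence (MP_f58a57_nt) -/

open Complex ModularForm EisensteinSeries Filter
open UpperHalfPlane hiding I
open scoped Topology MatrixGroups Polynomial

noncomputable section

namespace Pool.Agent.MSD

theorem m12_coord_analytic {s : ℕ} (t : Fin s → ℂ) (l : Fin s) : AnalyticAt ℂ (fun x : Fin s → ℂ => x l) t :=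
  (ContinuousLinearMap.proj (R := ℂ) (φ := fun _ : Fin s => ℂ) l).analyticAt t

theorem m12_aeval_analytic {s d : ℕ} (U : MvPolynomial (Fin s) (KF d)) (t : Fin s → ℂ) :
    AnalyticAt ℂ (fun x : Fin s → ℂ => MvPolynomial.aeval x U) t :=
  AnalyticAt.aeval_mvPolynomial (f := fun x : Fin s → ℂ => x) (m12_coord_analytic t) U

/-- M12. PROOF. As `alg_indep` in `G1_AlgIndep.lean` (copy). Let `P ∈ ℚ[...]`, `P(values at t) = 0`, `P ≠ 0`. Let `x k` be the approximations given by `HyperLiouville` for `C = k`. `F(y) = aeval (famMS ... y) P` is analytic at `t` (`AnalyticAt.aeval_mvPolynomial`, `famMS_analytic`), not eventually `0` by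
`famMS_indep`. `|F(x k)| ≤ K exp(-B^k)`, and by `PC.aeval`, `pc_valuesM`, `pc_coordM`, `famMS_real` the numbers `F(x k)` form a PC family, so by `PC.lower` they are `0` for large `k`; this contradicts `flag_gen`. -/
theorem alg_indepM {s r : ℕ} (bl : Fin s → Fin r) (d : Fin r → ℕ) (t : Fin s → ℝ) (ht : HyperLiouville t) (Ω : Fin r → ℂ)
    (hΩ : ∀ b, CMBase (rt (d b)) (Ω b)) (ι : Fin r → Type) [∀ b, Finite (ι b)]
    (U V : ∀ b, ι b → MvPolynomial (Fin s) (KF (d b))) (h : Sys bl d t ι U V) :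
    AlgebraicIndependent ℚ (famMS d Ω U V (fun l => (t l : ℂ))) := by
  rw [algebraicIndependent_iff]
  intro P hP
  by_contra hP0
  -- the approximations
  choose x hx0 hx1 hx2 using ht
  -- convergence
  have hBd : ∀ k, (2 : ℝ) ≤ Bd (x k) := fun k => by exact_mod_cast g1_two_le_Bd (x k)
  have hexp0 : Tendsto (fun k : ℕ => Real.exp (-(2 : ℝ) ^ k)) atTop (𝓝 0) := by
    apply Real.tendsto_exp_neg_atTop_nhds_zero.comp
    exact tendsto_pow_atTop_atTop_of_one_lt (by norm_num)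
  have hx1' : ∀ k l, |t l - x k l| < Real.exp (-(2 : ℝ) ^ k) := by
    intro k l
    refine lt_of_lt_of_le (hx1 k l) (Real.exp_le_exp.mpr ?_)
    have := pow_le_pow_left₀ (by norm_num : (0 : ℝ) ≤ 2) (hBd k) k
    linarith
  have hxt : ∀ l, Tendsto (fun k => ((x k l : ℚ) : ℝ)) atTop (𝓝 (t l)) := by
    intro l
    rw [tendsto_iff_dist_tendsto_zero]
    refine squeeze_zero (fun _ => dist_nonneg) (fun k => ?_) hexp0
    rw [dist_comm, Real.dist_eq]
    exact (hx1' k l).le
  have hxtC : ∀ l, Tendsto (fun k => ((x k l : ℚ) : ℂ)) atTop (𝓝 (t l : ℂ)) := by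
    intro l
    have := (Complex.continuous_ofReal.tendsto (t l)).comp (hxt l)
    refine this.congr (fun k => ?_)
    simp
  have hnorm : ∀ k l, ‖((x k l : ℚ) : ℂ) - (t l : ℂ)‖ = |t l - x k l| := by
    intro k l
    have h1 : ((x k l : ℚ) : ℂ) - (t l : ℂ) = ((((x k l : ℚ) : ℝ) - t l : ℝ) : ℂ) := by push_cast; rfl
    rw [h1, Complex.norm_real, Real.norm_eq_abs, abs_sub_comm]
  have hxtv : Tendsto (fun k => (fun l => ((x k l : ℚ) : ℂ))) atTop (𝓝 (fun l => (t l : ℂ))) :=
    tendsto_pi_nhds.mpr hxtC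
  -- radius
  obtain ⟨R, hR⟩ : ∃ R : ℝ, ∀ l, |t l| + 1 ≤ R := by
    obtain ⟨R, hR⟩ := (Set.finite_range (fun l => |t l| + 1)).bddAbove
    exact ⟨R, fun l => hR ⟨l, rfl⟩⟩
  have hgood1 : ∀ᶠ k in atTop, ∀ l, |((x k l : ℚ) : ℝ)| ≤ R := by
    rw [eventually_all]
    intro l
    have h1 : Tendsto (fun k => |((x k l : ℚ) : ℝ)|) atTop (𝓝 |t l|) := (hxt l).abs
    have h2 : |t l| < R := by linarith [hR l]
    filter_upwards [h1.eventually_lt_const h2] with k hk using hk.le
  have hgood2 : ∀ᶠ k in atTop, ∀ b, ∀ i, 0 < (MvPolynomial.aeval (fun l => ((x k l : ℚ) : ℂ)) (U b i) /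
      MvPolynomial.aeval (fun l => ((x k l : ℚ) : ℂ)) (V b i) : ℂ).im := by
    rw [eventually_all]
    intro b
    rw [eventually_all]
    intro i
    have hc : ContinuousAt (fun y : Fin s → ℂ => (MvPolynomial.aeval y (U b i) / MvPolynomial.aeval y (V b i) : ℂ).im)
        (fun l => (t l : ℂ)) :=
      Complex.continuous_im.continuousAt.comp
        (((m12_aeval_analytic (U b i) _).continuousAt).div ((m12_aeval_analytic (V b i) _).continuousAt) (h.ne b i))
    have h1 := hc.tendsto.comp hxtv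
    exact h1.eventually_const_lt (h.pos b i)
  -- the values
  set F : (Fin s → ℂ) → ℂ := fun y => MvPolynomial.aeval (famMS d Ω U V y) P with hF
  have hFt : F (fun l => (t l : ℂ)) = 0 := hP
  have hFa : AnalyticAt ℂ F (fun l => (t l : ℂ)) :=
    AnalyticAt.aeval_mvPolynomial (f := fun y => famMS d Ω U V y) (fun ν => famMS_analytic bl d t Ω ι U V h ν) P
  have hFd : DifferentiableAt ℂ F (fun l => (t l : ℂ)) := hFa.differentiableAt
  -- PC family
  let X := {y : Fin s → ℚ // (∀ l, |((y l : ℚ) : ℝ)| ≤ R) ∧ ∀ b, ∀ i,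
    0 < (MvPolynomial.aeval (fun l => ((y l : ℚ) : ℂ)) (U b i) / MvPolynomial.aeval (fun l => ((y l : ℚ) : ℂ)) (V b i) : ℂ).im}
  have hPC : PC (X := X) (fun y => Bd y.1) (fun y => F (fun l => ((y.1 l : ℚ) : ℂ))) := by
    refine PC.aeval (X := X) (B := fun y => Bd y.1) (fun y => g1_two_le_Bd y.1) P
      (fun ν y => famMS d Ω U V (fun l => ((y.1 l : ℚ) : ℂ)) ν) ?_
    rintro (l | ⟨b, i, κ⟩)
    · exact PC.comp (X := {x : Fin s → ℚ // ∀ l, |(x l : ℝ)| ≤ R}) (B := fun x => Bd x.1)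
        (f := fun y : X => ⟨y.1, y.2.1⟩) (fun y => g1_two_le_Bd y.1) (fun y => le_refl _) (pc_coordM R l)
    · have h1 := PC.comp (X := {x : Fin s → ℚ // (∀ l, |(x l : ℝ)| ≤ R) ∧
          0 < (MvPolynomial.aeval (fun l => ((x l : ℚ) : ℂ)) (U b i) / MvPolynomial.aeval (fun l => ((x l : ℚ) : ℂ)) (V b i) : ℂ).im})
        (B := fun x => Bd x.1) (B' := fun y : X => Bd y.1)
        (f := fun y : X => ⟨y.1, y.2.1, y.2.2 b i⟩) (fun y => g1_two_le_Bd y.1) (fun y => le_refl _)
        (pc_valuesM (d b) (h.hd b) (Ω b) (hΩ b) (U b i) (V b i) R κ)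
      convert h1 using 1
      funext y
      have e : (fun l => ((y.1 l : ℚ) : ℂ)) = (fun l => (((y.1 l : ℚ) : ℝ) : ℂ)) := by
        funext l
        simp
      rw [e]
      exact famMS_real d Ω U V (fun l => ((y.1 l : ℚ) : ℝ)) b i κ _ rfl
  obtain ⟨C, hC⟩ := PC.lower (X := X) (B := fun y => Bd y.1) (fun y => g1_two_le_Bd y.1) hPC
  -- upper bound
  have hO := hFd.isBigO_sub
  obtain ⟨K, hKpos, hKb⟩ := hO.exists_pos
  have hup := hxtv.eventually hKb.bound
  have hzero : ∀ᶠ k in atTop, F (fun l => ((x k l : ℚ) : ℂ)) = 0 := by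
    filter_upwards [hup, hgood1, hgood2, g1_exp C K] with k hk hk1 hk2 hk3
    rw [hFt, sub_zero] at hk
    have h1 : ‖(fun l => ((x k l : ℚ) : ℂ)) - (fun l => (t l : ℂ))‖ ≤ Real.exp (-(Bd (x k) : ℝ) ^ k) := by
      rw [pi_norm_le_iff_of_nonneg (Real.exp_pos _).le]
      intro l
      rw [Pi.sub_apply, hnorm k l]
      exact (hx1 k l).le
    have h2 : ‖F (fun l => ((x k l : ℚ) : ℂ))‖ < Real.exp (-(Bd (x k) : ℝ) ^ C) :=
      lt_of_le_of_lt (hk.trans (mul_le_mul_of_nonneg_left h1 hKpos.le)) (hk3 (Bd (x k)) (g1_two_le_Bd _))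
    rcases hC ⟨x k, hk1, hk2⟩ with h3 | h3
    · exact h3
    · exact absurd h2 (not_lt.mpr h3)
  -- nonvanishing
  have hPne : MvPolynomial.map (algebraMap ℚ ℂ) P ≠ 0 := by
    intro h0
    apply hP0
    exact MvPolynomial.map_injective _ (algebraMap ℚ ℂ).injective (by rw [h0, map_zero])
  have hFne : ¬ ∀ᶠ y in 𝓝 (fun l => (t l : ℂ)), F y = 0 := by
    intro hev
    apply hPne
    apply famMS_indep bl d t Ω (fun b => (hΩ b).ne) ι U V h
    filter_upwards [hev] with y hy
    rw [MvPolynomial.eval_map]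
    exact hy
  have hnv := flag_gen s F (fun l => (t l : ℂ)) hFa hFne
    (fun k l => ((x k l : ℚ) : ℂ)) hxtC (by
      intro l k he
      have := hx0 k l
      rw [← hnorm k l, he, sub_self, norm_zero] at this
      exact lt_irrefl _ this) (by
      intro C'
      have hle : ∀ᶠ k in atTop, ∀ l, |t l - x k l| ≤ 1 := by
        refine Eventually.of_forall (fun k l => ?_)
        refine (hx1' k l).le.trans ?_
        rw [Real.exp_le_one_iff]
        have : (0 : ℝ) < 2 ^ k := by positivity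
        linarith
      filter_upwards [hle, eventually_ge_atTop C'] with k hk1 hk2 l l' hll
      simp only [hnorm]
      refine (hx2 k l l' hll).le.trans ?_
      exact pow_le_pow_of_le_one (abs_nonneg _) (hk1 l') hk2)
  obtain ⟨k, hk1, hk2⟩ := (hzero.and hnv).exists
  exact hk2 hk1

end Pool.Agent.MSD
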