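import Pool.Agent.Lib.MP_f58a57_nt.M00_Defs

/-! # M13: representation of the elements of the field (MP_f58a57_nt) -/

open Complex ModularForm EisensteinSeries Filter
open UpperHalfPlane hiding I
open scoped Topology MatrixGroups Polynomial

noncomputable section

namespace Pool.Agent.MSD

/-- M13. PROOF. The set of the values `U(t)/V(t)` is closed under addition, multiplication, inverses and contains `ℚ`, `rt (d b)` (`rt_mem_KF`) and `t l`, `bl l = b`: `IntermediateField.adjoin_induction`. -/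
theorem mem_rep {s r : ℕ} (bl : Fin s → Fin r) (d : Fin r → ℕ) (t : Fin s → ℝ) (b : Fin r) (z : ℂ) (hz : z ∈ FB bl d t b) :
    ∃ U V : MvPolynomial (Fin s) (KF (d b)), (∀ l ∈ U.vars, bl l = b) ∧ (∀ l ∈ V.vars, bl l = b) ∧
      MvPolynomial.aeval (fun l => (t l : ℂ)) V ≠ 0 ∧
      z = MvPolynomial.aeval (fun l => (t l : ℂ)) U / MvPolynomial.aeval (fun l => (t l : ℂ)) V := by
  classical
  have hmulv : ∀ P Q : MvPolynomial (Fin s) (KF (d b)), (∀ l ∈ P.vars, bl l = b) → (∀ l ∈ Q.vars, bl l = b) →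
      ∀ l ∈ (P * Q).vars, bl l = b := by
    intro P Q hP hQ l hl
    rcases Finset.mem_union.1 (MvPolynomial.vars_mul P Q hl) with h | h
    · exact hP l h
    · exact hQ l h
  have haddv : ∀ P Q : MvPolynomial (Fin s) (KF (d b)), (∀ l ∈ P.vars, bl l = b) → (∀ l ∈ Q.vars, bl l = b) →
      ∀ l ∈ (P + Q).vars, bl l = b := by
    intro P Q hP hQ l hl
    rcases Finset.mem_union.1 (MvPolynomial.vars_add_subset P Q hl) with h | h
    · exact hP l h
    · exact hQ l h
  have hCv : ∀ c : KF (d b), ∀ l ∈ (MvPolynomial.C c : MvPolynomial (Fin s) (KF (d b))).vars, bl l = b := by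
    intro c l hl
    simp [MvPolynomial.vars_C] at hl
  have h1v : ∀ l ∈ (1 : MvPolynomial (Fin s) (KF (d b))).vars, bl l = b := by
    intro l hl
    have := hCv 1 l
    rw [MvPolynomial.C_1] at this
    exact this hl
  unfold FB at hz
  induction hz using IntermediateField.adjoin_induction with
  | mem x hx =>
    rcases hx with hx | ⟨l, hl, hx⟩
    · refine ⟨MvPolynomial.C ⟨rt (d b), rt_mem_KF (d b)⟩, 1, hCv _, h1v, ?_, ?_⟩
      · simp
      · rw [Set.mem_singleton_iff] at hx
        rw [hx, MvPolynomial.aeval_C, map_one, div_one]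
        rfl
    · refine ⟨MvPolynomial.X l, 1, ?_, h1v, ?_, ?_⟩
      · intro l' hl'
        rw [MvPolynomial.vars_X, Finset.mem_singleton] at hl'
        rw [hl']; exact hl
      · simp
      · simp [hx]
  | algebraMap x =>
    refine ⟨MvPolynomial.C (algebraMap ℚ (KF (d b)) x), 1, hCv _, h1v, ?_, ?_⟩
    · simp
    · rw [MvPolynomial.aeval_C, map_one, div_one]
      rw [← IsScalarTower.algebraMap_apply ℚ (KF (d b)) ℂ]
  | add x y _ _ hx hy =>
    obtain ⟨U, V, hU, hV, h0, h1⟩ := hx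
    obtain ⟨U', V', hU', hV', h0', h1'⟩ := hy
    refine ⟨U * V' + V * U', V * V', haddv _ _ (hmulv _ _ hU hV') (hmulv _ _ hV hU'), hmulv _ _ hV hV', ?_, ?_⟩
    · rw [map_mul]; exact mul_ne_zero h0 h0'
    · rw [map_mul, map_add, map_mul, map_mul, h1, h1', div_add_div _ _ h0 h0']
  | inv x _ hx =>
    obtain ⟨U, V, hU, hV, h0, h1⟩ := hx
    by_cases hU0 : MvPolynomial.aeval (fun l => (t l : ℂ)) U = 0
    · refine ⟨0, 1, ?_, h1v, ?_, ?_⟩
      · intro l hl
        simp at hl
      · simp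
      · rw [h1, hU0]; simp
    · refine ⟨V, U, hV, hU, hU0, ?_⟩
      rw [h1, inv_div]
  | mul x y _ _ hx hy =>
    obtain ⟨U, V, hU, hV, h0, h1⟩ := hx
    obtain ⟨U', V', hU', hV', h0', h1'⟩ := hy
    refine ⟨U * U', V * V', hmulv _ _ hU hU', hmulv _ _ hV hV', ?_, ?_⟩
    · rw [map_mul]; exact mul_ne_zero h0 h0'
    · rw [map_mul, map_mul, h1, h1', div_mul_div_comm]

end Pool.Agent.MSD
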