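import Pool.Agent.Lib.MP_f58a57_nt.M13_Rep
import Pool.Agent.Lib.MP_f58a57_nt.G3e_KK
import Pool.Agent.Lib.MP_f58a57_nt.M06_FamMS

/-! # M14: values at the point t (MP_f58a57_nt) -/

open Complex ModularForm EisensteinSeries Filter
open UpperHalfPlane hiding I
open scoped Topology MatrixGroups Polynomial

noncomputable section

namespace Pool.Agent.MSD

/-- M14a. PROOF. `t` is algebraically independent over the algebraic closure of `ℚ` in `ℂ` (e.g. `AlgebraicIndependent.extendScalars` or `algebraicIndependent_iff` over `algebraicClosure ℚ ℂ`). With `z = U(t)/V(t)` algebraic, the polynomial `U - z V` with coefficients in this field vanishes at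
`t`, so it is `0`; some coefficient `v_m` of `V` is not `0`, so `z = u_m/v_m ∈ KF d` and `U = C z * V`. -/
theorem const_of_algebraic {s d : ℕ} (t : Fin s → ℂ) (ht : AlgebraicIndependent ℚ t) (U V : MvPolynomial (Fin s) (KF d))
    (hV : MvPolynomial.aeval t V ≠ 0) (h : IsAlgebraic ℚ (MvPolynomial.aeval t U / MvPolynomial.aeval t V : ℂ)) :
    ∃ c : KF d, U = MvPolynomial.C c * V := by
  have hL : AlgebraicIndependent (algebraicClosure ℚ ℂ) t := ht.algebraicClosure
  have hle : KF d ≤ algebraicClosure ℚ ℂ := fun x hx => mem_algebraicClosure_iff.2 (KF_algebraic d x hx)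
  set φ : KF d →+* algebraicClosure ℚ ℂ := (IntermediateField.inclusion hle).toRingHom with hφ
  have hφc : ∀ x : KF d, ((φ x : algebraicClosure ℚ ℂ) : ℂ) = (x : ℂ) := fun x => rfl
  have hcomp : (algebraMap (algebraicClosure ℚ ℂ) ℂ).comp φ = algebraMap (KF d) ℂ := by
    ext x; exact hφc x
  have hmap : ∀ P : MvPolynomial (Fin s) (KF d), MvPolynomial.aeval t (MvPolynomial.map φ P) = MvPolynomial.aeval t P := by
    intro P
    rw [MvPolynomial.aeval_def, MvPolynomial.aeval_def, MvPolynomial.eval₂_map, hcomp]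
  set z : ℂ := MvPolynomial.aeval t U / MvPolynomial.aeval t V with hz
  set zL : algebraicClosure ℚ ℂ := ⟨z, mem_algebraicClosure_iff.2 h⟩ with hzL
  have hP : MvPolynomial.map φ U - MvPolynomial.C zL * MvPolynomial.map φ V = 0 := by
    apply (algebraicIndependent_iff.1 hL)
    rw [map_sub, map_mul, hmap, hmap, MvPolynomial.aeval_C]
    have : (algebraMap (algebraicClosure ℚ ℂ) ℂ zL) = z := rfl
    rw [this, hz]
    field_simp
    ring
  have hcoef : ∀ m, ((U.coeff m : KF d) : ℂ) = z * ((V.coeff m : KF d) : ℂ) := by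
    intro m
    have h1 := congrArg (fun Q => MvPolynomial.coeff m Q) hP
    simp only [MvPolynomial.coeff_sub, MvPolynomial.coeff_map, MvPolynomial.coeff_C_mul, MvPolynomial.coeff_zero] at h1
    have h2 := congrArg (fun x : algebraicClosure ℚ ℂ => (x : ℂ)) (sub_eq_zero.1 h1)
    exact h2
  have hV0 : V ≠ 0 := by
    rintro rfl
    simp at hV
  obtain ⟨m, hm⟩ := MvPolynomial.ne_zero_iff.1 hV0
  refine ⟨U.coeff m / V.coeff m, ?_⟩
  have hzc : z = ((U.coeff m / V.coeff m : KF d) : ℂ) := by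
    have hm' : ((V.coeff m : KF d) : ℂ) ≠ 0 := by
      intro h0
      apply hm
      exact_mod_cast h0
    push_cast
    rw [hcoef m]
    field_simp
  ext n
  rw [MvPolynomial.coeff_C_mul]
  have h3 := hcoef n
  rw [hzc] at h3
  push_cast at h3 ⊢
  exact_mod_cast h3

/-- M14b. Special points are algebraic. -/
theorem special_algebraic (z : ℂ) (h : IsSpecial z) : IsAlgebraic ℚ z := by
  obtain ⟨a, b, c, hne, hz⟩ := h
  refine ⟨Polynomial.C (a : ℚ) * Polynomial.X ^ 2 + Polynomial.C (b : ℚ) * Polynomial.X + Polynomial.C (c : ℚ), ?_, ?_⟩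
  · intro h0
    apply hne
    have h1 := congrArg (fun P : ℚ[X] => P.coeff 2) h0
    have h2 := congrArg (fun P : ℚ[X] => P.coeff 1) h0
    have h3 := congrArg (fun P : ℚ[X] => P.coeff 0) h0
    simp only [Polynomial.coeff_add, Polynomial.coeff_C_mul, Polynomial.coeff_X_pow, Polynomial.coeff_X, Polynomial.coeff_C,
      Polynomial.coeff_zero] at h1 h2 h3
    norm_num at h1 h2 h3
    exact ⟨h1, h2, h3⟩
  · simp only [map_add, map_mul, map_pow, Polynomial.aeval_C, Polynomial.aeval_X]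
    simpa using hz

/-- M14c. -/
theorem gequiv_of_prel {s d : ℕ} (t : Fin s → ℂ) (U V U' V' : MvPolynomial (Fin s) (KF d)) (hV : MvPolynomial.aeval t V ≠ 0)
    (hV' : MvPolynomial.aeval t V' ≠ 0) (him : 0 < (MvPolynomial.aeval t U / MvPolynomial.aeval t V : ℂ).im) (h : PRel U V U' V') :
    GEquiv (MvPolynomial.aeval t U / MvPolynomial.aeval t V) (MvPolynomial.aeval t U' / MvPolynomial.aeval t V') := by
  obtain ⟨a, b, c, e, hdet, hrel⟩ := h
  have h1 := congrArg (fun Q => (MvPolynomial.aeval t Q : ℂ)) hrel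
  simp only [map_mul, map_add, MvPolynomial.aeval_C] at h1
  have hq : ∀ q : ℚ, algebraMap (KF d) ℂ (q : KF d) = (q : ℂ) := fun q => map_ratCast _ q
  rw [hq, hq, hq, hq] at h1
  set u := (MvPolynomial.aeval t U : ℂ)
  set v := (MvPolynomial.aeval t V : ℂ)
  set u' := (MvPolynomial.aeval t U' : ℂ)
  set v' := (MvPolynomial.aeval t V' : ℂ)
  have hce : (c : ℂ) * (u / v) + e ≠ 0 := by
    intro h0
    have h2 := congrArg Complex.im h0
    have h3 : ((c : ℂ) * (u / v) + e).im = c * (u / v).im := by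
      have hc : ((c : ℂ)) = ((c : ℝ) : ℂ) := by push_cast; rfl
      have he : ((e : ℂ)) = ((e : ℝ) : ℂ) := by push_cast; rfl
      rw [hc, he, Complex.add_im, Complex.im_ofReal_mul, Complex.ofReal_im, add_zero]
    rw [h3, Complex.zero_im] at h2
    have hc0 : (c : ℝ) = 0 := by
      rcases mul_eq_zero.1 h2 with h | h
      · exact h
      · exact absurd h him.ne'
    have hc0' : c = 0 := by exact_mod_cast hc0
    rw [hc0'] at h0
    simp at h0
    have he0 : e = 0 := by exact_mod_cast h0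
    apply hdet
    rw [hc0', he0]; ring
  refine ⟨a, b, c, e, ?_, hce, ?_⟩
  · intro h0
    apply hdet
    exact_mod_cast h0
  · rw [eq_div_iff hce]
    field_simp
    linear_combination h1

theorem m14_aeval_mem {s d : ℕ} (t : Fin s → ℂ) (F : Subfield ℂ) (hQ : ∀ x : ℂ, IsAlgebraic ℚ x → x ∈ F) (ht : ∀ l, t l ∈ F)
    (P : MvPolynomial (Fin s) (KF d)) : (MvPolynomial.aeval t P : ℂ) ∈ F := by
  induction P using MvPolynomial.induction_on with
  | C c =>
    rw [MvPolynomial.aeval_C]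
    exact hQ _ (KF_algebraic d _ c.2)
  | add p q hp hq =>
    rw [map_add]
    exact F.add_mem hp hq
  | mul_X p i hp =>
    rw [map_mul, MvPolynomial.aeval_X]
    exact F.mul_mem hp (ht i)

/-- M14d. Algebraic elements of `FB`. -/
theorem mem_KK_of_algebraic {s r : ℕ} (bl : Fin s → Fin r) (d : Fin r → ℕ) (t : Fin s → ℝ) (ht : AlgebraicIndependent ℚ (fun l => (t l : ℂ)))
    (b : Fin r) (z : ℂ) (hz : z ∈ FB bl d t b) (h : IsAlgebraic ℚ z) : z ∈ KK (d b) := by
  obtain ⟨U, V, -, -, hV, hzUV⟩ := mem_rep bl d t b z hz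
  rw [hzUV] at h
  obtain ⟨c, hc⟩ := const_of_algebraic _ ht U V hV h
  rw [← mem_KF, hzUV, hc, map_mul, MvPolynomial.aeval_C, mul_div_cancel_right₀ _ hV]
  exact c.2

/-- M14e. The imaginary part. (`z̄ = Ū(t)/V̄(t)`, `mem_rep`, `cjP_real`.) -/
theorem im_mem {s r : ℕ} (bl : Fin s → Fin r) (d : Fin r → ℕ) (t : Fin s → ℝ) (b : Fin r) (z : ℂ) (hz : z ∈ FB bl d t b)
    (F : Subfield ℂ) (hI : I ∈ F) (hQ : ∀ x : ℂ, IsAlgebraic ℚ x → x ∈ F) (ht : ∀ l, (t l : ℂ) ∈ F) : (z.im : ℂ) ∈ F := by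
  obtain ⟨U, V, -, -, -, hzUV⟩ := mem_rep bl d t b z hz
  have hzF : z ∈ F := by
    rw [hzUV]
    exact F.div_mem (m14_aeval_mem _ F hQ ht U) (m14_aeval_mem _ F hQ ht V)
  have hcF : (starRingEnd ℂ) z ∈ F := by
    rw [hzUV, map_div₀, ← cjP_real, ← cjP_real]
    exact F.div_mem (m14_aeval_mem _ F hQ ht _) (m14_aeval_mem _ F hQ ht _)
  have h1 : (z.im : ℂ) = (z - (starRingEnd ℂ) z) / (2 * I) := by
    rw [Complex.sub_conj]
    have : (2 * I : ℂ) ≠ 0 := mul_ne_zero two_ne_zero Complex.I_ne_zero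
    field_simp
    push_cast
    ring
  rw [h1]
  exact F.div_mem (F.sub_mem hzF hcF) (F.mul_mem (by simpa using natCast_mem F 2) hI)

end Pool.Agent.MSD
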