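import Pool.Agent.Lib.MP_f58a57_nt.M00_Defs
import Pool.Agent.Lib.MP_f58a57_nt.G3_Orbit

/-! # M15: exchange (MP_f58a57_nt) -/

open Complex ModularForm EisensteinSeries Filter
open UpperHalfPlane hiding I
open scoped Topology MatrixGroups Polynomial

noncomputable section

namespace Pool.Agent.MSD

theorem m15_mem (S : Set ℂ) (x : ℂ) : IsAlgebraic (IntermediateField.adjoin ℚ S) x ↔
    x ∈ (AlgebraicIndependent.matroid ℚ ℂ).closure S := by
  rw [IntermediateField.isAlgebraic_adjoin_iff]
  have h2 : (AlgebraicIndependent.matroid ℚ ℂ).closure S = Subalgebra.algebraicClosure (Algebra.adjoin ℚ S) ℂ :=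
    AlgebraicIndependent.matroid_closure_eq
  rw [h2]
  exact Iff.rfl

/-- M15a. PROOF. Induction on the finite set `A`. `A = ∅`: `z` would be algebraic. `A = insert l A'`: if `z` is algebraic over `ℚ(t(A'))` use the induction hypothesis and monotonicity; otherwise, by the exchange property of algebraic dependence
(`AlgebraicIndependent.matroid ℚ ℂ`, `Matroid.closure_exchange`; see `G4_Trdeg.lean` for the use of the matroid) `t l` is algebraic over `ℚ(z, t(A'))`. -/
theorem exchange {s : ℕ} (t : Fin s → ℂ) (z : ℂ) (hz : Transcendental ℚ z) (A : Finset (Fin s))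
    (hza : IsAlgebraic (IntermediateField.adjoin ℚ (t '' (A : Set (Fin s)))) z) :
    ∃ l ∈ A, IsAlgebraic (IntermediateField.adjoin ℚ (insert z (t '' ((A : Set (Fin s)) \ {l})))) (t l) := by
  classical
  simp only [m15_mem] at hza ⊢
  induction A using Finset.induction_on with
  | empty =>
    exfalso
    apply hz
    rw [Finset.coe_empty, Set.image_empty, ← m15_mem, IntermediateField.adjoin_empty] at hza
    exact hza.restrictScalars ℚ
  | insert a A' ha ih =>
    by_cases h : z ∈ (AlgebraicIndependent.matroid ℚ ℂ).closure (t '' (A' : Set (Fin s)))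
    · obtain ⟨l, hl, h2⟩ := ih h
      refine ⟨l, Finset.mem_insert_of_mem hl, ?_⟩
      refine (AlgebraicIndependent.matroid ℚ ℂ).closure_subset_closure ?_ h2
      refine Set.insert_subset_insert (Set.image_mono ?_)
      rw [Finset.coe_insert]
      exact Set.sdiff_subset_sdiff_left (Set.subset_insert _ _)
    · refine ⟨a, Finset.mem_insert_self _ _, ?_⟩
      rw [Finset.coe_insert, Set.image_insert_eq] at hza
      have h2 := ((AlgebraicIndependent.matroid ℚ ℂ).closure_exchange ⟨hza, h⟩).1
      have h3 : ((insert a A' : Finset (Fin s)) : Set (Fin s)) \ {a} = (A' : Set (Fin s)) := by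
        rw [Finset.coe_insert]
        ext x
        simp only [Set.mem_sdiff, Set.mem_insert_iff, Set.mem_singleton_iff, Finset.mem_coe]
        constructor
        · rintro ⟨h4 | h4, h5⟩
          · exact absurd h4 h5
          · exact h4
        · intro h4
          exact ⟨Or.inr h4, fun h5 => ha (h5 ▸ h4)⟩
      rw [h3]
      exact h2

/-- M15b. (`rt (d b)` is algebraic.) -/
theorem FB_algebraic {s r : ℕ} (bl : Fin s → Fin r) (d : Fin r → ℕ) (t : Fin s → ℝ) (b : Fin r) (z : ℂ) (hz : z ∈ FB bl d t b) :
    IsAlgebraic (IntermediateField.adjoin ℚ ((fun l => (t l : ℂ)) '' {l | bl l = b})) z := by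
  set S : Set ℂ := (fun l => (t l : ℂ)) '' {l | bl l = b} with hS
  have h1 : IsAlgebraic (FB bl d t b) z := by
    have := isAlgebraic_algebraMap (R := FB bl d t b) (A := ℂ) ⟨z, hz⟩
    simpa using this
  unfold FB at h1
  rw [m15_mem] at h1 ⊢
  rw [← (AlgebraicIndependent.matroid ℚ ℂ).closure_closure S]
  refine (AlgebraicIndependent.matroid ℚ ℂ).closure_subset_closure ?_ h1
  intro x hx
  rcases hx with hx | ⟨l, hl, rfl⟩
  · rw [Set.mem_singleton_iff] at hx
    rw [hx, ← m15_mem]
    exact (rt_algebraic_g3 (d b)).extendScalars (FaithfulSMul.algebraMap_injective ℚ _)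
  · refine (AlgebraicIndependent.matroid ℚ ℂ).subset_closure S ?_ ?_
    · intro x _
      trivial
    · exact ⟨l, hl, rfl⟩

end Pool.Agent.MSD
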