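import Pool.Agent.Lib.MP_f58a57_nt.M12_AlgIndep
import Pool.Agent.Lib.MP_f58a57_nt.M14_Values
import Pool.Agent.Lib.MP_f58a57_nt.M15_Exchange
import Pool.Agent.Lib.MP_f58a57_nt.G5_Final

/-! # M16: the theorem for the fields K(t) (MP_f58a57_nt) -/

open Complex ModularForm EisensteinSeries Filter
open UpperHalfPlane hiding I
open scoped Topology MatrixGroups Polynomial

noncomputable section

namespace Pool.Agent.MSD

/-- algebraic over a smaller field -/
theorem m16_alg_mono {K₁ K₂ : IntermediateField ℚ ℂ} (h : K₁ ≤ K₂) {x : ℂ} (hx : IsAlgebraic K₁ x) :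
    IsAlgebraic K₂ x := by
  let _ := (IntermediateField.inclusion h).toRingHom.toAlgebra
  have : IsScalarTower K₁ K₂ ℂ := IsScalarTower.of_algebraMap_eq fun _ => rfl
  exact hx.tower_top K₂

/-- M16. PROOF (compare `main` in `G5_Final.lean`). Take `Ω b` from `cm_base`. The `t l` are algebraically independent: `alg_indepM` with `ι b = Empty`. For nonspecial `i` choose a block `f i` with `z i ∈ FB (f i)` and `U i, V i` from `mem_rep`; let `ι b = {i // nonspecial, f i = b}`. `Sys` holds: `nc` because `U = c V` gives `z i = c ∈ KF`,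
special (`special_of_KK`, `mem_KF`); `rel` by `gequiv_of_prel`, `hind`. `alg_indepM`: the `s + 3 m₁` numbers `famMS ... t` are algebraically independent. For special `i` choose a block `g i` with `z i ∈ FB (g i)` and a nonspecial entry there; `z i ∈ KK (d (g i))` (`mem_KK_of_algebraic`, `special_algebraic`), so `g` is injective (`equiv_of_KK`).
Let `Uu` be the finite set of blocks `b` that contain a nonspecial entry `k b` (`z (k b) ∈ FB b`), `G = image g ⊆ Uu`, `card G = m₂`. `z (k b)` is transcendental (otherwise in `KK`, special). By `FB_algebraic` and `exchange` there is `l_b` with `bl l_b = b` and `t l_b` algebraic over `ℚ(z (k b), t l : bl l = b, l ≠ l_b)`.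
Let `S` be the set of all `z i, j, j', j''` and `T = {π Ω_b² : b ∈ Uu \ G} ∪ {t l : l ∉ {l_b : b ∈ Uu}}`, `card T ≤ card Uu - m₂ + s - card Uu` (`b ↦ l_b` is injective). Let `F` be the relative algebraic closure of `ℚ(S ∪ T)`: all `t l ∈ F` (if `l = l_b`: the other `t l'` with `bl l' = b` are in `T`), `π Ω_b² ∈ F` for `b ∈ Uu`
(for `b ∈ G` from `link4` at the special entry, as in `main`), `(z i).im ∈ F` (`im_mem`), and `link_mem` gives all members of the family in `F` (`famMS_real`). `trdeg_lower` and `card_arith` (with `u = s`, `p = m₁`, `q = m₂`, `r = card T`, `r + q ≤ s`). -/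
theorem main2 {s r n : ℕ} (bl : Fin s → Fin r) (d : Fin r → ℕ) (hd : ∀ b, 0 < d b) (t : Fin s → ℝ) (ht : HyperLiouville t)
    (z : Fin n → ℂ) (hz : ∀ i, 0 < (z i).im) (hind : ∀ i j, i ≠ j → ¬ GEquiv (z i) (z j))
    (hj : ∀ i, deriv jj (z i) ≠ 0)
    (hor : ∀ i, ∃ b, z i ∈ FB bl d t b ∧ ∃ k, z k ∈ FB bl d t b ∧ ¬ IsSpecial (z k)) :
    ((3 * Nat.card {i // ¬ IsSpecial (z i)} + Nat.card {i // IsSpecial (z i)} : ℕ) : Cardinal) ≤
      Algebra.trdeg ℚ (IntermediateField.adjoin ℚ
        (⋃ i, {z i, jj (z i), deriv jj (z i), deriv (deriv jj) (z i)} : Set ℂ)) := by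
  classical
  choose Ω hΩ using fun b => cm_base (d b) (hd b)
  -- the `t l` are algebraically independent
  have htA : AlgebraicIndependent ℚ (fun l => (t l : ℂ)) := by
    have h0 := alg_indepM bl d t ht Ω hΩ (fun _ => Empty) (fun _ e => e.elim) (fun _ e => e.elim)
      ⟨hd, fun _ e => e.elim, fun _ e => e.elim, fun _ e => e.elim, fun _ e => e.elim,
        fun _ e => e.elim, fun _ e => e.elim⟩
    exact h0.comp Sum.inl Sum.inl_injective
  choose β hβz kk hkk hkn using hor
  have hKK : ∀ b k, z k ∈ FB bl d t b → IsAlgebraic ℚ (z k) → z k ∈ KK (d b) := fun b k h1 h2 =>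
    mem_KK_of_algebraic bl d t htA b (z k) h1 h2
  choose U V hUv hVv hVne hrep using
    fun i : {i // ¬ IsSpecial (z i)} => mem_rep bl d t (β i.1) (z i.1) (hβz i.1)
  let ι : Fin r → Type := fun b => {i : {i // ¬ IsSpecial (z i)} // β i.1 = b}
  let Uu : ∀ b, ι b → MvPolynomial (Fin s) (KF (d b)) := fun b i => i.2 ▸ U i.1
  let Vv : ∀ b, ι b → MvPolynomial (Fin s) (KF (d b)) := fun b i => i.2 ▸ V i.1
  have hV' : ∀ b (i : ι b), MvPolynomial.aeval (fun l => (t l : ℂ)) (Vv b i) ≠ 0 := by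
    intro b i
    obtain ⟨i, rfl⟩ := i
    exact hVne i
  have hrep' : ∀ b (i : ι b), z i.1.1 = MvPolynomial.aeval (fun l => (t l : ℂ)) (Uu b i) /
      MvPolynomial.aeval (fun l => (t l : ℂ)) (Vv b i) := by
    intro b i
    obtain ⟨i, rfl⟩ := i
    exact hrep i
  have hsys : Sys bl d t ι Uu Vv := by
    refine ⟨hd, ?_, ?_, ?_, ?_, hV', ?_⟩
    · intro b i
      obtain ⟨i, rfl⟩ := i
      exact hUv i
    · intro b i
      obtain ⟨i, rfl⟩ := i
      exact hVv i
    · rintro b i ⟨c, hc⟩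
      apply i.1.2
      apply special_of_KK (d b)
      rw [← mem_KF, hrep' b i, hc, map_mul, MvPolynomial.aeval_C, mul_div_cancel_right₀ _ (hV' b i)]
      exact c.2
    · intro b i j hij hrel
      have h1 := gequiv_of_prel (fun l => (t l : ℂ)) (Uu b i) (Vv b i) (Uu b j) (Vv b j) (hV' b i)
        (hV' b j) (by rw [← hrep' b i]; exact hz _) hrel
      rw [← hrep' b i, ← hrep' b j] at h1
      refine hind _ _ (fun h => hij ?_) h1
      exact Subtype.ext (Subtype.ext h)
    · intro b i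
      rw [← hrep' b i]
      exact hz _
  have hAI := alg_indepM bl d t ht Ω hΩ ι Uu Vv hsys
  -- the finite family
  let J : Type := Fin s ⊕ ({i // ¬ IsSpecial (z i)} × Fin 3)
  let φ : J → Fin s ⊕ (Σ b, ι b × Fin 3) :=
    Sum.map id (fun q => ⟨β q.1.1, (⟨q.1, rfl⟩, q.2)⟩)
  have hφ : Function.Injective φ := by
    refine Function.injective_id.sumMap ?_
    rintro ⟨i, κ⟩ ⟨j, κ'⟩ hab
    have := congrArg (fun p : (Σ b, ι b × Fin 3) =>
      ((p.2.1.1 : {i // ¬ IsSpecial (z i)}), p.2.2)) hab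
    exact this
  have hAI' := hAI.comp φ hφ
  -- special points
  have hsp : ∀ i : {i // IsSpecial (z i)}, z i.1 ∈ KK (d (β i.1)) := fun i =>
    hKK _ _ (hβz i.1) (special_algebraic _ i.2)
  let g : {i // IsSpecial (z i)} → Fin r := fun i => β i.1
  have hginj : Function.Injective g := by
    intro i j hij
    by_contra hne
    have hne' : i.1 ≠ j.1 := fun h => hne (Subtype.ext h)
    have h1 := hsp i
    have hij' : β i.1 = β j.1 := hij
    rw [hij'] at h1
    exact hind _ _ hne' (equiv_of_KK _ _ _ (hz i.1) (hz j.1) h1 (hsp j))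
  -- blocks with a nonspecial entry
  set B : Finset (Fin r) := Finset.univ.filter (fun b => ∃ k, z k ∈ FB bl d t b ∧ ¬ IsSpecial (z k))
    with hB
  have hex : ∀ b : {b // b ∈ B}, ∃ l, bl l = b.1 ∧ ∃ k, IsAlgebraic (IntermediateField.adjoin ℚ
      (insert (z k) ((fun l => (t l : ℂ)) '' ({l' | bl l' = b.1} \ {l})))) (t l : ℂ) := by
    rintro ⟨b, hb⟩
    obtain ⟨k, hk, hkn'⟩ := (Finset.mem_filter.1 hb).2
    have htr : Transcendental ℚ (z k) := fun h => hkn' (special_of_KK _ _ (hKK b k hk h))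
    have hset : ((Finset.univ.filter (fun l => bl l = b) : Finset (Fin s)) : Set (Fin s)) =
        {l | bl l = b} := by
      ext l
      simp
    obtain ⟨l, hl, hl2⟩ := exchange (fun l => (t l : ℂ)) (z k) htr
      (Finset.univ.filter (fun l => bl l = b)) (by rw [hset]; exact FB_algebraic bl d t b (z k) hk)
    rw [hset] at hl2
    exact ⟨l, (Finset.mem_filter.1 hl).2, k, hl2⟩
  choose lam hlam kb hkb using hex
  have hlaminj : Function.Injective lam := by
    intro b b' h
    apply Subtype.ext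
    rw [← hlam b, ← hlam b', h]
  set E : Finset (Fin s) := Finset.univ.image lam with hE
  have hEcard : E.card = B.card := by
    rw [hE, Finset.card_image_of_injective _ hlaminj, Finset.card_univ, Fintype.card_coe]
  set G : Finset (Fin r) := Finset.univ.image g with hG
  have hgB : ∀ i, g i ∈ B := fun i =>
    Finset.mem_filter.2 ⟨Finset.mem_univ _, kk i.1, hkk i.1, hkn i.1⟩
  have hfB : ∀ i : {i // ¬ IsSpecial (z i)}, β i.1 ∈ B := fun i =>
    Finset.mem_filter.2 ⟨Finset.mem_univ _, i.1, hβz i.1, i.2⟩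
  have hGB : G ⊆ B := by
    intro l hl
    obtain ⟨i, -, rfl⟩ := Finset.mem_image.1 hl
    exact hgB i
  set S : Set ℂ := ⋃ i, {z i, jj (z i), deriv jj (z i), deriv (deriv jj) (z i)} with hS
  set T : Finset ℂ := (B \ G).image (fun b => (Real.pi : ℂ) * Ω b ^ 2) ∪
    (Finset.univ \ E).image (fun l => (t l : ℂ)) with hT
  set L := IntermediateField.adjoin ℚ (S ∪ (T : Set ℂ)) with hL
  have hSL : ∀ x ∈ S, x ∈ L := fun x hx => IntermediateField.subset_adjoin _ _ (Or.inl hx)
  have hTL : ∀ x ∈ T, x ∈ L := fun x hx => IntermediateField.subset_adjoin _ _ (Or.inr hx)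
  have hzS : ∀ i, z i ∈ S := fun i => Set.mem_iUnion.2 ⟨i, by simp⟩
  have hjS : ∀ i, jj (z i) ∈ S := fun i => Set.mem_iUnion.2 ⟨i, by simp⟩
  have hj1S : ∀ i, deriv jj (z i) ∈ S := fun i => Set.mem_iUnion.2 ⟨i, by simp⟩
  have hj2S : ∀ i, deriv (deriv jj) (z i) ∈ S := fun i => Set.mem_iUnion.2 ⟨i, by simp⟩
  -- the relative algebraic closure
  set F : Subfield ℂ := (algebraicClosure L ℂ).toSubfield with hF
  have hFmem : ∀ x : ℂ, x ∈ F ↔ IsAlgebraic L x := by
    intro x
    rw [hF]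
    exact mem_algebraicClosure_iff
  have hLF : ∀ x ∈ L, x ∈ F := fun x hx => (hFmem x).2 (isAlgebraic_algebraMap (⟨x, hx⟩ : L))
  have hQF : ∀ x : ℂ, IsAlgebraic ℚ x → x ∈ F := fun x hx => (hFmem x).2 (hx.tower_top L)
  have hIF : I ∈ F := hQF _ isIntegral_rat_I.isAlgebraic
  have htE : ∀ l, l ∉ E → (t l : ℂ) ∈ L := by
    intro l hl
    refine hTL _ (Finset.mem_union_right _ (Finset.mem_image.2 ⟨l, ?_, rfl⟩))
    exact Finset.mem_sdiff.2 ⟨Finset.mem_univ _, hl⟩
  have htF : ∀ l, (t l : ℂ) ∈ F := by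
    intro l
    by_cases hl : l ∈ E
    · obtain ⟨b, -, rfl⟩ := Finset.mem_image.1 hl
      refine (hFmem _).2 (m16_alg_mono ?_ (hkb b))
      rw [IntermediateField.adjoin_le_iff]
      rintro x (rfl | ⟨l', ⟨hl1, hl2⟩, rfl⟩)
      · exact hSL _ (hzS _)
      · apply htE
        intro hmem
        obtain ⟨b', -, hb'⟩ := Finset.mem_image.1 hmem
        apply hl2
        have h1 : bl l' = b'.1 := by rw [← hb', hlam b']
        have h2 : b' = b := Subtype.ext (h1.symm.trans hl1)
        rw [Set.mem_singleton_iff, ← hb', h2]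
    · exact hLF _ (htE l hl)
  have hθ : ∀ b ∈ B, (Real.pi : ℂ) * Ω b ^ 2 ∈ F := by
    intro l hl
    by_cases hlG : l ∈ G
    · obtain ⟨i, -, rfl⟩ := Finset.mem_image.1 hlG
      have hA : e4 (z i) / Ω (g i) ^ 4 ∈ F :=
        hQF _ (algebraic_e4 (d (g i)) (hd _) (Ω (g i)) (hΩ _) (z i) (hz i) (hsp i))
      obtain ⟨h1, h2, h3, h4⟩ := jj_ne (z i) (hz i) (hj i)
      have hlink := link4 (z i) (Ω (g i)) (hz i) (hΩ _).ne (hj i)
      have hΩ0 := (hΩ (g i)).ne
      have hpi : (Real.pi : ℂ) ≠ 0 := by exact_mod_cast Real.pi_ne_zero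
      have hA0 : e4 (z i) / Ω (g i) ^ 4 ≠ 0 := div_ne_zero h3 (pow_ne_zero _ hΩ0)
      have h1728 : jj (z i) - 1728 ≠ 0 := sub_ne_zero.2 h2
      have hsq : ((Real.pi : ℂ) * Ω (g i) ^ 2) ^ 2 =
          -(deriv jj (z i)) ^ 2 / (4 * (e4 (z i) / Ω (g i) ^ 4) * jj (z i) * (jj (z i) - 1728)) := by
        rw [hlink]
        have := hj i
        field_simp
      have hmem : ((Real.pi : ℂ) * Ω (g i) ^ 2) ^ 2 ∈ F := by
        rw [hsq]
        have hj0F := hLF _ (hSL _ (hjS i))
        have hj1F := hLF _ (hSL _ (hj1S i))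
        have h1728F : (1728 : ℂ) ∈ F := by
          have := natCast_mem F 1728
          exact_mod_cast this
        have h4F : (4 : ℂ) ∈ F := by
          have := natCast_mem F 4
          exact_mod_cast this
        exact F.div_mem (F.neg_mem (F.pow_mem hj1F 2))
          (F.mul_mem (F.mul_mem (F.mul_mem h4F hA) hj0F) (F.sub_mem hj0F h1728F))
      exact (hFmem _).2 (IsAlgebraic.of_pow two_pos ((hFmem _).1 hmem))
    · exact hLF _ (hTL _ (Finset.mem_union_left _
        (Finset.mem_image.2 ⟨l, Finset.mem_sdiff.2 ⟨hl, hlG⟩, rfl⟩)))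
  have halg : ∀ j : J, IsAlgebraic L (famMS d Ω Uu Vv (fun l => (t l : ℂ)) (φ j)) := by
    rintro (l | ⟨i, κ⟩)
    · exact (hFmem _).1 (htF l)
    · rw [← hFmem]
      have hreal := famMS_real d Ω Uu Vv t (β i.1) (⟨i, rfl⟩ : ι (β i.1)) κ (z i.1)
        (hrep' (β i.1) (⟨i, rfl⟩ : ι (β i.1)))
      change famMS d Ω Uu Vv (fun l => (t l : ℂ))
        (Sum.inr ⟨β i.1, ((⟨i, rfl⟩ : ι (β i.1)), κ)⟩) ∈ F
      rw [hreal]
      have hy : ((z i).im : ℂ) ∈ F := im_mem bl d t (β i.1) (z i.1) (hβz i.1) F hIF hQF htF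
      obtain ⟨ha, hb, hc⟩ := link_mem F (z i) (Ω (β i.1)) (hz i) (hΩ _).ne (hj i)
        (hLF _ (hSL _ (hjS i))) (hLF _ (hSL _ (hj1S i))) (hLF _ (hSL _ (hj2S i))) hIF hy
        (hθ _ (hfB i))
      fin_cases κ
      · exact hc
      · exact ha
      · exact hb
  have hmain := trdeg_lower J _ hAI' S T halg
  have hcardJ : Fintype.card J = s + 3 * Nat.card {i // ¬ IsSpecial (z i)} := by
    simp only [J, Fintype.card_sum, Fintype.card_prod, Fintype.card_fin,
      Nat.card_eq_fintype_card]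
    ring
  rw [hcardJ] at hmain
  refine card_arith _ s _ _ T.card hmain ?_
  have hGcard : G.card = Nat.card {i // IsSpecial (z i)} := by
    rw [hG, Finset.card_image_of_injective _ hginj, Nat.card_eq_fintype_card]
    rfl
  have hTcard : T.card ≤ (B \ G).card + (Finset.univ \ E : Finset (Fin s)).card :=
    (Finset.card_union_le _ _).trans (add_le_add Finset.card_image_le Finset.card_image_le)
  rw [Finset.card_sdiff_of_subset hGB, Finset.card_sdiff_of_subset (Finset.subset_univ E),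
    Finset.card_univ, Fintype.card_fin, hEcard] at hTcard
  have h1 := Finset.card_le_card hGB
  have h2 : E.card ≤ s := by
    have := Finset.card_le_univ E
    rwa [Fintype.card_fin] at this
  omega

end Pool.Agent.MSD
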