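import Pool.Agent.Lib.MP_f58a57_nt.Q00_Defs
import Pool.Agent.Lib.MP_f58a57_nt.A1_Basic

/-! # Q01: isobaric polynomials of weight 12 n as polynomials in j (MP_f58a57_nt) -/

open Complex ModularForm EisensteinSeries Filter
open UpperHalfPlane hiding I
open scoped Topology MatrixGroups Polynomial

noncomputable section

namespace Pool.Agent.MSD

theorem q01_weight (n : ℕ) (Ξ : MvPolynomial (Fin 3) ℤ) (h : MvPolynomial.IsWeightedHomogeneous wts Ξ (12 * n))
    (d : Fin 3 →₀ ℕ) (hd : d ∈ Ξ.support) : 4 * d 0 + 6 * d 1 + 12 * d 2 = 12 * n := by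
  have h1 := h (MvPolynomial.mem_support_iff.mp hd)
  rw [Finsupp.weight_apply, Finsupp.sum_fintype _ _ (by intro i; simp), Fin.sum_univ_three] at h1
  simp [wts] at h1
  omega

/-- Q01. PROOF. `Ξ = Σ c_d X^d`, all monomials of `Ξ` have `4 d₀ + 6 d₁ + 12 d₂ = 12 n` (`h` applied to the support), so `3 ∣ d₀`, `2 ∣ d₁` (`omega`) and
`d₀/3 + d₁/2 + d₂ = n`. Put `P = Σ_{d ∈ support} C (c_d) * X^(d₀/3) * (X - 1728)^(d₁/2)`. With `jj z = e4³/dl`, `jj z - 1728 = e6²/dl` (because `1728 dl = e4³ - e6²`;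
`dl_ne_zero`): `e4^(d₀) e6^(d₁) dl^(d₂) = dl^n (jj z)^(d₀/3) (jj z - 1728)^(d₁/2)`. The degree of a summand is `d₀/3 + d₁/2 = n - d₂ ≤ n` and its coefficient
at `n` is `c_d` if `d₂ = 0` (monic factors) and `0` otherwise, as in `Ξ(1, 1, 0)`. (Write `aeval`/`eval` with `MvPolynomial.aeval_def`, `MvPolynomial.eval₂_eq'`, `Fin.prod_univ_three`.) -/
theorem jpoly (n : ℕ) (Ξ : MvPolynomial (Fin 3) ℤ) (h : MvPolynomial.IsWeightedHomogeneous wts Ξ (12 * n)) :
    ∃ P : Polynomial ℤ, P.natDegree ≤ n ∧ P.coeff n = MvPolynomial.eval ![1, 1, 0] Ξ ∧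
      ∀ z : ℂ, 0 < z.im → MvPolynomial.aeval (vals z) Ξ = dl z ^ n * Polynomial.aeval (jj z) P := by
  classical
  have hmon : ∀ a b : ℕ, (Polynomial.X ^ a * (Polynomial.X - Polynomial.C (1728 : ℤ)) ^ b).Monic := fun a b =>
    (Polynomial.monic_X_pow a).mul ((Polynomial.monic_X_sub_C _).pow b)
  have hdeg : ∀ a b : ℕ, (Polynomial.X ^ a * (Polynomial.X - Polynomial.C (1728 : ℤ)) ^ b).natDegree = a + b := by
    intro a b
    rw [(Polynomial.monic_X_pow a).natDegree_mul ((Polynomial.monic_X_sub_C _).pow b),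
      Polynomial.natDegree_X_pow, (Polynomial.monic_X_sub_C _).natDegree_pow, Polynomial.natDegree_X_sub_C, mul_one]
  refine ⟨∑ d ∈ Ξ.support, Polynomial.C (MvPolynomial.coeff d Ξ) *
    (Polynomial.X ^ (d 0 / 3) * (Polynomial.X - Polynomial.C (1728 : ℤ)) ^ (d 1 / 2)), ?_, ?_, ?_⟩
  · refine Polynomial.natDegree_sum_le_of_forall_le _ _ ?_
    intro d hd
    have hw := q01_weight n Ξ h d hd
    refine (Polynomial.natDegree_C_mul_le _ _).trans ?_
    rw [hdeg]
    omega
  · rw [Polynomial.finsetSum_coeff, MvPolynomial.eval_eq']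
    refine Finset.sum_congr rfl ?_
    intro d hd
    have hw := q01_weight n Ξ h d hd
    rw [Polynomial.coeff_C_mul, Fin.prod_univ_three]
    congr 1
    by_cases h2 : d 2 = 0
    · have hn : n = (Polynomial.X ^ (d 0 / 3) * (Polynomial.X - Polynomial.C (1728 : ℤ)) ^ (d 1 / 2)).natDegree := by
        rw [hdeg]
        omega
      rw [hn, Polynomial.coeff_natDegree, (hmon _ _).leadingCoeff]
      simp [h2]
    · rw [Polynomial.coeff_eq_zero_of_natDegree_lt]
      · simp [h2]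
      · rw [hdeg]
        omega
  · intro z hz
    have hdl := dl_ne_zero z hz
    have hj : jj z - 1728 = e6 z ^ 2 / dl z := by
      rw [jj, eq_div_iff hdl, sub_mul, div_mul_cancel₀ _ hdl]
      rw [dl]
      ring
    rw [MvPolynomial.aeval_def, MvPolynomial.eval₂_eq', map_sum, Finset.mul_sum]
    refine Finset.sum_congr rfl ?_
    intro d hd
    have hw := q01_weight n Ξ h d hd
    rw [Fin.prod_univ_three]
    simp only [map_mul, map_pow, map_sub, Polynomial.aeval_C, Polynomial.aeval_X, vals, Matrix.cons_val_zero,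
      Matrix.cons_val_one, Matrix.cons_val]
    have h0 : d 0 = 3 * (d 0 / 3) := by omega
    have h1 : d 1 = 2 * (d 1 / 2) := by omega
    have h3 : n = d 0 / 3 + d 1 / 2 + d 2 := by omega
    have e1 : (algebraMap ℤ ℂ) 1728 = 1728 := by norm_num
    rw [e1, hj, jj, div_pow, div_pow]
    generalize d 0 / 3 = a at *
    generalize d 1 / 2 = b at *
    rw [h0, h1, h3, pow_mul, pow_mul, pow_add, pow_add]
    field_simp
    try ring

end Pool.Agent.MSD
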