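import Pool.Agent.Lib.MP_f58a57_nt.B5_Field

/-! # Q02: isobaric products with integral coefficients (MP_f58a57_nt) -/

open Complex ModularForm EisensteinSeries Filter
open UpperHalfPlane hiding I
open scoped Topology MatrixGroups Polynomial

noncomputable section

namespace Pool.Agent.MSD

/-- Q02. Integral version of `prod_isobaric` (`B5_Field.lean`). PROOF. As there, but by strong induction one shows: for every `j` there is `Ξ_j : MvPolynomial (Fin 3) ℤ` isobaric of
weight `w j` with `j! e_j(z) = Ξ_j(vals z)`, `e_j(z) = B5F_E s (fun i => F i z) j`: `Ξ_0 = 1` and by `B5F_newton`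
`j! e_j = (j-1)! (j e_j) = (-1)^(j+1) Σ_{a+b=j, a<j} (-1)^a ((j-1)!/a!) (a! e_a) Θ_b` (`Nat.factorial_dvd_factorial`). Then with `M = s.card` and `B5F_prod` evaluated at `P(vals z)`:
`M! Π_i (P - F_i) = Σ_{j ≤ M} (-1)^j (M!/j!) Ξ_j P^(M-j)`, isobaric of weight `w M`. -/
theorem prod_isobaric_int {J : Type*} (s : Finset J) (w : ℕ) (F : J → ℂ → ℂ)
    (h : ∀ m : ℕ, 0 < m → ∃ Θ : MvPolynomial (Fin 3) ℤ, MvPolynomial.IsWeightedHomogeneous wts Θ (w * m) ∧
      ∀ z : ℂ, 0 < z.im → ∑ i ∈ s, F i z ^ m = MvPolynomial.aeval (vals z) Θ)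
    (P : MvPolynomial (Fin 3) ℤ) (hP : MvPolynomial.IsWeightedHomogeneous wts P w) :
    ∃ Ξ : MvPolynomial (Fin 3) ℤ, MvPolynomial.IsWeightedHomogeneous wts Ξ (w * s.card) ∧
      ∀ z : ℂ, 0 < z.im → (s.card.factorial : ℂ) * ∏ i ∈ s, (MvPolynomial.aeval (vals z) P - F i z) =
        MvPolynomial.aeval (vals z) Ξ := by
  choose! Θ hΘ1 hΘ2 using h
  have hE : ∀ j, ∃ Ξ : MvPolynomial (Fin 3) ℤ, MvPolynomial.IsWeightedHomogeneous wts Ξ (w * j) ∧
      ∀ z : ℂ, 0 < z.im → (j.factorial : ℂ) * B5F_E s (fun i => F i z) j =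
        MvPolynomial.aeval (vals z) Ξ := by
    intro j
    induction j using Nat.strong_induction_on with
    | _ j ih =>
      rcases Nat.eq_zero_or_pos j with rfl | hj
      · refine ⟨1, MvPolynomial.isWeightedHomogeneous_one ℤ wts, fun z _ => ?_⟩
        rw [B5F_zero, map_one, Nat.factorial_zero, Nat.cast_one, mul_one]
      · choose! Ξ h1 h2 using ih
        obtain ⟨k, rfl⟩ : ∃ k, j = k + 1 := ⟨j - 1, by omega⟩
        refine ⟨MvPolynomial.C ((-1) ^ (k + 1 + 1)) *
          ∑ a ∈ (Finset.HasAntidiagonal.antidiagonal (k + 1)).filter (fun a => a.1 < k + 1),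
            MvPolynomial.C ((-1) ^ a.1 * ((k.factorial / a.1.factorial : ℕ) : ℤ)) * Ξ a.1 * Θ a.2,
            ?_, ?_⟩
        · refine MvPolynomial.IsWeightedHomogeneous.C_mul ?_ _
          refine MvPolynomial.IsWeightedHomogeneous.sum _ _ _ ?_
          rintro ⟨a, b⟩ hab
          rw [Finset.mem_filter, Finset.HasAntidiagonal.mem_antidiagonal] at hab
          obtain ⟨hab1, hab2⟩ := hab
          simp only at hab1 hab2 ⊢
          have h3 : w * (k + 1) = w * a + w * b := by rw [← hab1]; ring
          rw [h3]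
          exact ((h1 a hab2).C_mul _).mul (hΘ1 b (by omega))
        · intro z hz
          have h1' : ((k + 1).factorial : ℂ) * B5F_E s (fun i => F i z) (k + 1) =
              (k.factorial : ℂ) * (((k + 1 : ℕ) : ℂ) * B5F_E s (fun i => F i z) (k + 1)) := by
            rw [Nat.factorial_succ, Nat.cast_mul]
            ring
          rw [h1', B5F_newton, map_mul, MvPolynomial.aeval_C, map_pow, map_neg, map_one, map_sum,
            mul_left_comm, Finset.mul_sum]
          congr 1
          refine Finset.sum_congr rfl ?_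
          rintro ⟨a, b⟩ hab
          rw [Finset.mem_filter, Finset.HasAntidiagonal.mem_antidiagonal] at hab
          obtain ⟨hab1, hab2⟩ := hab
          simp only at hab1 hab2 ⊢
          have hfac : (k.factorial : ℂ) = ((k.factorial / a.factorial : ℕ) : ℂ) * (a.factorial : ℂ) := by
            rw [← Nat.cast_mul, Nat.div_mul_cancel (Nat.factorial_dvd_factorial (by omega))]
          rw [map_mul, map_mul, ← h2 a hab2 z hz, ← hΘ2 b (by omega) z hz, MvPolynomial.aeval_C, map_mul,
            map_pow, map_neg, map_one, hfac]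
          simp only [eq_intCast, Int.cast_natCast]
          ring
  choose Ξ hΞ1 hΞ2 using hE
  refine ⟨∑ j ∈ Finset.range (s.card + 1),
    MvPolynomial.C ((-1) ^ j * ((s.card.factorial / j.factorial : ℕ) : ℤ)) *
      (Ξ j * P ^ (s.card - j)), ?_, ?_⟩
  · refine MvPolynomial.IsWeightedHomogeneous.sum _ _ _ ?_
    intro j hj
    rw [Finset.mem_range] at hj
    refine MvPolynomial.IsWeightedHomogeneous.C_mul ?_ _
    have h3 : w * s.card = w * j + (s.card - j) • w := by
      rw [smul_eq_mul, mul_comm (s.card - j) w, ← mul_add]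
      congr 1
      omega
    rw [h3]
    exact (hΞ1 j).mul (hP.pow _)
  · intro z hz
    have h4 := congrArg (Polynomial.eval (MvPolynomial.aeval (vals z) P)) (B5F_prod s (fun i => F i z))
    rw [Polynomial.eval_prod, Polynomial.eval_finsetSum] at h4
    simp only [Polynomial.eval_sub, Polynomial.eval_X, Polynomial.eval_C, Polynomial.eval_mul,
      Polynomial.eval_pow, Polynomial.eval_neg, Polynomial.eval_one] at h4
    rw [h4, map_sum, Finset.mul_sum]
    refine Finset.sum_congr rfl ?_
    intro j hj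
    rw [Finset.mem_range] at hj
    have hfac : (s.card.factorial : ℂ) =
        ((s.card.factorial / j.factorial : ℕ) : ℂ) * (j.factorial : ℂ) := by
      rw [← Nat.cast_mul, Nat.div_mul_cancel (Nat.factorial_dvd_factorial (by omega))]
    rw [map_mul (MvPolynomial.aeval (vals z)) (MvPolynomial.C _),
      map_mul (MvPolynomial.aeval (vals z)) (Ξ j), ← hΞ2 j z hz, MvPolynomial.aeval_C, map_mul,
      map_pow, map_pow, map_neg, map_one, hfac]
    simp only [eq_intCast, Int.cast_natCast]
    ring

end Pool.Agent.MSD
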