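import Pool.Agent.Lib.MP_f58a57_nt.Q01_JPoly
import Pool.Agent.Lib.MP_f58a57_nt.Q02_IsoInt
import Pool.Agent.Lib.MP_f58a57_nt.Q03_Growth
import Pool.Agent.Lib.MP_f58a57_nt.B8a_Rel
import Pool.Agent.Lib.MP_f58a57_nt.B7b_Degree

/-! # Q04: the polynomial of j(√(-D)) (MP_f58a57_nt) -/

open Complex ModularForm EisensteinSeries Filter
open UpperHalfPlane hiding I
open scoped Topology MatrixGroups Polynomial

noncomputable section

namespace Pool.Agent.MSD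

/-- the polynomial `-D³ X₁` -/
def q04_P (D : ℕ) : MvPolynomial (Fin 3) ℤ := MvPolynomial.C (-(D : ℤ) ^ 3) * MvPolynomial.X 1

theorem q04_P_hom (D : ℕ) : MvPolynomial.IsWeightedHomogeneous wts (q04_P D) 6 := by
  have h1 := (MvPolynomial.isWeightedHomogeneous_C (R := ℤ) wts (-(D : ℤ) ^ 3)).mul
    (MvPolynomial.isWeightedHomogeneous_X ℤ wts 1)
  simpa [wts, q04_P] using h1

theorem q04_P_val (D : ℕ) (z : ℂ) :
    MvPolynomial.aeval (vals z) (q04_P D) = -(D : ℂ) ^ 3 * e6 z := by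
  simp [vals, q04_P]

/-- entries of the members of `TT D` -/
theorem q04_TT {D : ℕ} {ρ : Σ _ : ℕ × ℕ, ℕ} (hD : 0 < D) (hρ : ρ ∈ TT D) :
    0 < ρ.1.1 ∧ 0 < ρ.1.2 ∧ ρ.1.1 ≤ D ∧ ρ.1.2 ≤ D := by
  have hρ' := Finset.mem_sigma.1 hρ
  have hprod : ρ.1.1 * ρ.1.2 = D := (Nat.mem_divisorsAntidiagonal.1 hρ'.1).1
  have ha : 0 < ρ.1.1 := by
    rcases Nat.eq_zero_or_pos ρ.1.1 with h0 | h0
    · rw [h0, zero_mul] at hprod
      omega
    · exact h0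
  have hδ : 0 < ρ.1.2 := by
    rcases Nat.eq_zero_or_pos ρ.1.2 with h0 | h0
    · rw [h0, mul_zero] at hprod
      omega
    · exact h0
  exact ⟨ha, hδ, Nat.le_of_dvd hD (Dvd.intro _ hprod), Nat.le_of_dvd hD (Dvd.intro_left _ hprod)⟩

theorem q04_e4_lim : Tendsto (fun y : ℝ => e4 (I * y)) atTop (𝓝 (1 : ℂ)) := by
  obtain ⟨c, hc, hc0⟩ := e4_q
  have := B8a_tendsto hc (u := fun y : ℝ => I * y) (by
    have h6 : (fun y : ℝ => (I * (y : ℂ)).im) = fun y : ℝ => y := by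
      funext y
      simp
    rw [h6]
    exact tendsto_id)
  rw [hc0] at this
  simpa using this

theorem q04_e6_lim : Tendsto (fun y : ℝ => e6 (I * y)) atTop (𝓝 (1 : ℂ)) := by
  obtain ⟨c, hc, hc0⟩ := e6_q
  have := B8a_tendsto hc (u := fun y : ℝ => I * y) (by
    have h6 : (fun y : ℝ => (I * (y : ℂ)).im) = fun y : ℝ => y := by
      funext y
      simp
    rw [h6]
    exact tendsto_id)
  rw [hc0] at this
  simpa using this

theorem q04_dl_lim : Tendsto (fun y : ℝ => dl (I * y)) atTop (𝓝 (0 : ℂ)) := by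
  have h1 := ((q04_e4_lim.pow 3).sub (q04_e6_lim.pow 2)).div_const (1728 : ℂ)
  simpa [dl] using h1

theorem q04_vals_lim : Tendsto (fun y : ℝ => vals (I * y)) atTop (𝓝 (![1, 1, 0] : Fin 3 → ℂ)) := by
  rw [tendsto_pi_nhds]
  intro i
  fin_cases i
  · simpa [vals] using q04_e4_lim
  · simpa [vals] using q04_e6_lim
  · simpa [vals] using q04_dl_lim

theorem q04_aeval_lim (Ξ : MvPolynomial (Fin 3) ℤ) :
    Tendsto (fun y : ℝ => MvPolynomial.aeval (vals (I * y)) Ξ) atTop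
      (𝓝 ((MvPolynomial.eval ![1, 1, 0] Ξ : ℤ) : ℂ)) := by
  have h1 : ∀ v : Fin 3 → ℂ, MvPolynomial.aeval v Ξ =
      MvPolynomial.eval v (MvPolynomial.map (algebraMap ℤ ℂ) Ξ) := by
    intro v
    rw [MvPolynomial.eval_map, MvPolynomial.aeval_def]
  have h2 : ((MvPolynomial.eval ![1, 1, 0] Ξ : ℤ) : ℂ) =
      MvPolynomial.aeval (![1, 1, 0] : Fin 3 → ℂ) Ξ := by
    have e : (![1, 1, 0] : Fin 3 → ℂ) = algebraMap ℤ ℂ ∘ (![1, 1, 0] : Fin 3 → ℤ) := by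
      funext i
      fin_cases i <;> simp
    rw [e, MvPolynomial.aeval_algebraMap_apply]
    simp [MvPolynomial.aeval_eq_eval]
  rw [h2]
  simp_rw [h1]
  have h3 := (MvPolynomial.continuous_eval (MvPolynomial.map (algebraMap ℤ ℂ) Ξ)).tendsto
    (![1, 1, 0] : Fin 3 → ℂ)
  exact h3.comp q04_vals_lim

/-- the value at the cusp -/
theorem q04_cusp (D : ℕ) (hD : 0 < D) (Ξ : MvPolynomial (Fin 3) ℤ)
    (h : ∀ z : ℂ, 0 < z.im → ((TT D).card.factorial : ℂ) *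
      ∏ ρ ∈ TT D, (MvPolynomial.aeval (vals z) (q04_P D) - Gr 1 z ρ) = MvPolynomial.aeval (vals z) Ξ) :
    MvPolynomial.eval ![1, 1, 0] Ξ =
      ((TT D).card.factorial : ℤ) * ∏ ρ ∈ TT D, (-((D : ℤ) ^ 3 + (ρ.1.1 : ℤ) ^ 6)) := by
  have hlim : Tendsto (fun y : ℝ => ((TT D).card.factorial : ℂ) *
      ∏ ρ ∈ TT D, (MvPolynomial.aeval (vals (I * y)) (q04_P D) - Gr 1 (I * y) ρ)) atTop
      (𝓝 (((TT D).card.factorial : ℂ) * ∏ ρ ∈ TT D, (-(D : ℂ) ^ 3 * 1 - (ρ.1.1 : ℂ) ^ 6 * 1))) := by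
    apply Tendsto.const_mul
    apply tendsto_finsetProd
    intro ρ hρ
    obtain ⟨ha, hδ, -, -⟩ := q04_TT hD hρ
    have t2 : Tendsto (fun y : ℝ => e6 (((ρ.1.1 : ℂ) * (I * y) + (ρ.2 : ℂ)) / (ρ.1.2 : ℂ)))
        atTop (𝓝 (1 : ℂ)) := by
      obtain ⟨c, hc, hc0⟩ := e6_q
      have hu : Tendsto (fun y : ℝ => (((ρ.1.1 : ℂ) * (I * y) + (ρ.2 : ℂ)) / (ρ.1.2 : ℂ)).im)
          atTop atTop := by
        have h5 : (fun y : ℝ => (((ρ.1.1 : ℂ) * (I * y) + (ρ.2 : ℂ)) / (ρ.1.2 : ℂ)).im) =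
            fun y : ℝ => ((ρ.1.1 : ℝ) / (ρ.1.2 : ℝ)) * y := by
          funext y
          rw [Complex.div_natCast_im]
          simp [Complex.mul_im]
          ring
        rw [h5]
        exact tendsto_id.const_mul_atTop (by positivity)
      have := B8a_tendsto hc hu
      rw [hc0] at this
      simpa using this
    refine Tendsto.sub ?_ ?_
    · have := q04_e6_lim.const_mul (-(D : ℂ) ^ 3)
      refine this.congr fun y => ?_
      rw [q04_P_val]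
    · have := t2.const_mul ((ρ.1.1 : ℂ) ^ 6)
      refine this.congr fun y => ?_
      unfold Gr GG
      simp
  have h2 := q04_aeval_lim Ξ
  have h3 : Tendsto (fun y : ℝ => MvPolynomial.aeval (vals (I * y)) Ξ) atTop
      (𝓝 (((TT D).card.factorial : ℂ) * ∏ ρ ∈ TT D, (-(D : ℂ) ^ 3 * 1 - (ρ.1.1 : ℂ) ^ 6 * 1))) := by
    refine hlim.congr' ?_
    filter_upwards [eventually_gt_atTop (0 : ℝ)] with y hy
    exact h (I * y) (by simpa using hy)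
  have h4 := tendsto_nhds_unique h2 h3
  have h5 : ((MvPolynomial.eval ![1, 1, 0] Ξ : ℤ) : ℂ) =
      ((((TT D).card.factorial : ℤ) * ∏ ρ ∈ TT D, (-((D : ℤ) ^ 3 + (ρ.1.1 : ℤ) ^ 6)) : ℤ) : ℂ) := by
    rw [h4]
    push_cast
    congr 1
    refine Finset.prod_congr rfl fun ρ _ => ?_
    ring
  exact_mod_cast h5

/-- the leading coefficient -/
def q04_L (D : ℕ) : ℕ := ((TT D).card.factorial * ∏ ρ ∈ TT D, (D ^ 3 + ρ.1.1 ^ 6)) ^ 2

theorem q04_L_pos (D : ℕ) (hD : 0 < D) : 0 < q04_L D := by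
  unfold q04_L
  have h1 : 0 < ∏ ρ ∈ TT D, (D ^ 3 + ρ.1.1 ^ 6) :=
    Finset.prod_pos fun ρ _ => by positivity
  positivity

theorem q04_L_eq (D : ℕ) :
    (((TT D).card.factorial : ℤ) * ∏ ρ ∈ TT D, (-((D : ℤ) ^ 3 + (ρ.1.1 : ℤ) ^ 6))) ^ 2 = (q04_L D : ℤ) := by
  unfold q04_L
  rw [Finset.prod_neg]
  push_cast
  rw [mul_pow, mul_pow, mul_pow]
  have : ((-1 : ℤ) ^ (TT D).card) ^ 2 = 1 := by
    rw [← pow_mul, mul_comm, pow_mul]
    simp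
  rw [this, one_mul]

theorem q04_L_le (D : ℕ) (hD : 0 < D) : (q04_L D : ℝ) ≤ Real.exp (18 * (D : ℝ) ^ 4) := by
  have hcard := B7b_card D
  have hfac : (TT D).card.factorial ≤ (D ^ 2) ^ (D ^ 2) :=
    (Nat.factorial_le hcard).trans (Nat.factorial_le_pow _)
  have hprod : ∏ ρ ∈ TT D, (D ^ 3 + ρ.1.1 ^ 6) ≤ (2 * D ^ 6) ^ (D ^ 2) := by
    have h1 : ∏ ρ ∈ TT D, (D ^ 3 + ρ.1.1 ^ 6) ≤ (2 * D ^ 6) ^ (TT D).card := by
      refine (Finset.prod_le_pow_card _ _ _ ?_)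
      intro ρ hρ
      obtain ⟨-, -, h2, -⟩ := q04_TT hD hρ
      have h3 : ρ.1.1 ^ 6 ≤ D ^ 6 := Nat.pow_le_pow_left h2 6
      have h4 : D ^ 3 ≤ D ^ 6 := Nat.pow_le_pow_right hD (by norm_num)
      omega
    refine h1.trans (Nat.pow_le_pow_right ?_ hcard)
    positivity
  have h1 : q04_L D ≤ ((2 * D ^ 8) ^ (D ^ 2)) ^ 2 := by
    unfold q04_L
    refine Nat.pow_le_pow_left ?_ 2
    refine (Nat.mul_le_mul hfac hprod).trans ?_
    rw [← mul_pow]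
    refine Nat.pow_le_pow_left (le_of_eq ?_) _
    ring
  have h2 : (q04_L D : ℝ) ≤ ((2 * (D : ℝ) ^ 8) ^ (D ^ 2)) ^ 2 := by exact_mod_cast h1
  refine h2.trans ?_
  have hD1 : (1 : ℝ) ≤ D := by exact_mod_cast hD
  have h3 : 2 * (D : ℝ) ^ 8 ≤ Real.exp (9 * D) := by
    have e1 : (2 : ℝ) ≤ Real.exp 1 := by
      have := Real.add_one_le_exp (1 : ℝ)
      linarith
    have e2 : (D : ℝ) ≤ Real.exp D := by
      have := Real.add_one_le_exp (D : ℝ)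
      linarith
    have e3 : (D : ℝ) ^ 8 ≤ Real.exp (8 * D) := by
      have : Real.exp (8 * (D : ℝ)) = Real.exp D ^ 8 := by
        rw [← Real.exp_nat_mul]
        norm_num
      rw [this]
      exact pow_le_pow_left₀ (by positivity) e2 8
    have e4' : Real.exp 1 ≤ Real.exp D := Real.exp_le_exp.2 hD1
    calc 2 * (D : ℝ) ^ 8 ≤ Real.exp D * Real.exp (8 * D) := by
          apply mul_le_mul (e1.trans e4') e3 (by positivity) (Real.exp_pos _).le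
      _ = Real.exp (9 * D) := by
          rw [← Real.exp_add]
          congr 1
          ring
  have h4 : ((2 * (D : ℝ) ^ 8) ^ (D ^ 2)) ^ 2 ≤ ((Real.exp (9 * D)) ^ (D ^ 2)) ^ 2 := by
    gcongr
  refine h4.trans ?_
  rw [← Real.exp_nat_mul, ← Real.exp_nat_mul]
  apply Real.exp_le_exp.2
  push_cast
  have h5 : (D : ℝ) ^ 3 ≤ (D : ℝ) ^ 4 := pow_le_pow_right₀ hD1 (by norm_num)
  nlinarith [h5]

/-- the sign argument at the cusp -/
theorem q04_sign (D Y : ℕ) (hD : 0 < D) (hY : 0 < Y)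
    (h : ∀ z : ℂ, (Y : ℝ) ≤ z.im → ‖e6 z - 1‖ ≤ 1 / 4) (z : ℂ) (hz : (Y : ℝ) * D < z.im)
    (ρ : Σ _ : ℕ × ℕ, ℕ) (hρ : ρ ∈ TT D) : -(D : ℂ) ^ 3 * e6 z - Gr 1 z ρ ≠ 0 := by
  obtain ⟨ha, hδ, haD, hδD⟩ := q04_TT hD hρ
  have hD1 : (1 : ℝ) ≤ D := by exact_mod_cast hD
  have hY1 : (1 : ℝ) ≤ Y := by exact_mod_cast hY
  have hre : ∀ w : ℂ, (Y : ℝ) ≤ w.im → 0 < (e6 w).re := by
    intro w hw
    have h1 := h w hw
    have h2 := Complex.abs_re_le_norm (e6 w - 1)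
    have h3 := (abs_le.1 (h2.trans h1)).1
    simp only [Complex.sub_re, Complex.one_re] at h3
    linarith
  have hz1 : (Y : ℝ) ≤ z.im := by nlinarith
  have hz0 : 0 < z.im := by linarith
  set w : ℂ := ((ρ.1.1 : ℂ) * z + (ρ.2 : ℂ)) / (ρ.1.2 : ℂ) with hw
  have hwim : w.im = (ρ.1.1 : ℝ) * z.im / (ρ.1.2 : ℝ) := by
    rw [hw, Complex.div_natCast_im]
    simp [Complex.mul_im]
  have ha1 : (1 : ℝ) ≤ ρ.1.1 := by exact_mod_cast ha
  have hδ0 : (0 : ℝ) < ρ.1.2 := by exact_mod_cast hδ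
  have hδ1 : ((ρ.1.2 : ℕ) : ℝ) ≤ D := by exact_mod_cast hδD
  have hw1 : (Y : ℝ) ≤ w.im := by
    rw [hwim, le_div_iff₀ hδ0]
    have e1 : (Y : ℝ) * (ρ.1.2 : ℝ) ≤ Y * D := by
      apply mul_le_mul_of_nonneg_left hδ1 (by linarith)
    have e2 : z.im ≤ (ρ.1.1 : ℝ) * z.im := by nlinarith
    linarith
  have hGr : Gr 1 z ρ = (ρ.1.1 : ℂ) ^ 6 * e6 w := by
    unfold Gr GG
    simp [hw]
  rw [hGr]
  intro h0
  have h1 := congrArg Complex.re h0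
  have e1 : ((-(D : ℂ) ^ 3) * e6 z).re = -((D : ℝ) ^ 3) * (e6 z).re := by
    have : (-(D : ℂ) ^ 3) = ((-((D : ℝ) ^ 3) : ℝ) : ℂ) := by push_cast; ring
    rw [this, Complex.re_ofReal_mul]
  have e2 : ((ρ.1.1 : ℂ) ^ 6 * e6 w).re = (ρ.1.1 : ℝ) ^ 6 * (e6 w).re := by
    have : ((ρ.1.1 : ℂ) ^ 6) = (((ρ.1.1 : ℝ) ^ 6 : ℝ) : ℂ) := by push_cast; ring
    rw [this, Complex.re_ofReal_mul]
  rw [Complex.sub_re, e1, e2, Complex.zero_re] at h1
  have p1 : 0 < (D : ℝ) ^ 3 * (e6 z).re := mul_pos (by positivity) (hre z hz1)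
  have p2 : 0 < (ρ.1.1 : ℝ) ^ 6 * (e6 w).re := mul_pos (by positivity) (hre w hw1)
  linarith

/-- Q04. The polynomial relation for `j(√(-D))`, uniformly in `D`.

PROOF. `M = card (TT D) ≤ D²` (`B7b_card`). `prod_isobaric_int` with `s = TT D`, `w = 6`, `F ρ z = Gr 1 z ρ` (hypothesis: `theta 1 D m hD`), `P = -D³ X₁` gives `Ξ` of weight `6 M` with
`M! Π_ρ (-D³ e6 z - Gr 1 z ρ) = Ξ(vals z)`. `Ξ²` has weight `12 M`; `jpoly M (Ξ^2)` gives `P` with `P.natDegree ≤ M`, `P.coeff M = (Ξ(1,1,0))²`,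
`Ξ(vals z)² = dl z ^ M P(jj z)`. The value at the cusp: `Ξ(1,1,0) = M! Π_ρ (-D³ - a_ρ⁶)` by letting `z = i y → i∞` (as in `cm_relation`, `B8a_Rel.lean`: `B8a_tendsto`; `vals (i y) → (1,1,0)`), so
`L := (M! Π_ρ (D³ + a_ρ⁶))²` is a positive integer, `P.coeff M = L ≠ 0`, hence `natDegree P = M` and `P.leadingCoeff = L`. Size: `M! ≤ M^M ≤ (D²)^(D²)`, `a_ρ ≤ D`, so
`L ≤ (D^(2 D²) (2 D⁶)^(D²))² = (2 D⁸)^(2 D²) ≤ exp(2 D² (1 + 8 D)) ≤ exp(18 D⁴)` (`Real.add_one_le_exp`: `x ≤ exp x`).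
`P(jj(√-D)) = 0`: `e6_mem` makes a factor of `Ξ(vals (rt D))` vanish, `dl ≠ 0`.
If `P(jj z) = 0` then `Ξ(vals z) = 0` so `-D³ e6 z = Gr 1 z ρ = a⁶ e6((a z + b)/δ)` for some `ρ = ⟨(a, δ), b⟩`, `a δ = D`. If `Im z > Y D` (`Y` from `e6_cusp`) then `Im z ≥ Y` and
`Im((az+b)/δ) = a Im z/δ ≥ Im z/D ≥ Y`, so the real parts of `e6` at the two points are `≥ 3/4 > 0` and the real parts of the two sides have opposite signs: contradiction. -/
theorem modular_rel : ∃ C : ℕ, ∀ D : ℕ, 0 < D → ∃ (L : ℕ) (P : Polynomial ℤ), 0 < L ∧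
    (L : ℝ) ≤ Real.exp ((C : ℝ) * (D : ℝ) ^ 4) ∧ P.natDegree ≤ D ^ 2 ∧ P.leadingCoeff = (L : ℤ) ∧
      Polynomial.aeval (jj (rt D)) P = 0 ∧
      ∀ z : ℂ, 0 < z.im → Polynomial.aeval (jj z) P = 0 → z.im ≤ (C : ℝ) * D := by
  obtain ⟨Y, hY, hcusp⟩ := e6_cusp
  refine ⟨18 + Y, ?_⟩
  intro D hD
  have hcard := B7b_card D
  obtain ⟨Ξ, hΞ, hΞv⟩ := prod_isobaric_int (TT D) 6 (fun ρ z => Gr 1 z ρ) (by
    intro m _
    obtain ⟨Θ, hΘ, hΘv⟩ := theta 1 D m hD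
    exact ⟨Θ, hΘ, hΘv⟩) (q04_P D) (q04_P_hom D)
  have hΞ2 : MvPolynomial.IsWeightedHomogeneous wts (Ξ ^ 2) (12 * (TT D).card) := by
    have h1 := hΞ.pow 2
    have h2 : 2 • (6 * (TT D).card) = 12 * (TT D).card := by
      rw [smul_eq_mul]
      ring
    rwa [h2] at h1
  obtain ⟨P, hPdeg, hPco, hPv⟩ := jpoly (TT D).card (Ξ ^ 2) hΞ2
  have hcoL : P.coeff (TT D).card = (q04_L D : ℤ) := by
    rw [hPco, map_pow, q04_cusp D hD Ξ hΞv, q04_L_eq]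
  have hLpos := q04_L_pos D hD
  have hne : P.coeff (TT D).card ≠ 0 := by
    rw [hcoL]
    exact_mod_cast hLpos.ne'
  have hdeg : P.natDegree = (TT D).card := le_antisymm hPdeg (Polynomial.le_natDegree_of_ne_zero hne)
  have hD1 : (1 : ℝ) ≤ D := by exact_mod_cast hD
  have hY0 : (0 : ℝ) ≤ Y := Nat.cast_nonneg _
  refine ⟨q04_L D, P, hLpos, ?_, ?_, ?_, ?_, ?_⟩
  · refine (q04_L_le D hD).trans (Real.exp_le_exp.2 ?_)
    push_cast
    have : (0 : ℝ) ≤ (D : ℝ) ^ 4 := by positivity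
    nlinarith
  · rw [hdeg]
    exact hcard
  · rw [Polynomial.leadingCoeff, hdeg, hcoL]
  · have him := B8a_rt_im D hD
    have h1 := hPv (rt D) him
    have h2 : MvPolynomial.aeval (vals (rt D)) Ξ = 0 := by
      rw [← hΞv _ him]
      obtain ⟨ρ, hρ, hρv⟩ := e6_mem D hD
      have : ∏ ρ ∈ TT D, (MvPolynomial.aeval (vals (rt D)) (q04_P D) - Gr 1 (rt D) ρ) = 0 := by
        apply Finset.prod_eq_zero hρ
        rw [q04_P_val, hρv, sub_self]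
      rw [this, mul_zero]
    rw [map_pow, h2] at h1
    have h3 : dl (rt D) ^ (TT D).card ≠ 0 := pow_ne_zero _ (dl_ne_zero _ him)
    have h4 : dl (rt D) ^ (TT D).card * Polynomial.aeval (jj (rt D)) P = 0 := by
      rw [← h1]
      simp
    exact (mul_eq_zero.1 h4).resolve_left h3
  · intro z hz hz0
    by_contra hcon
    push Not at hcon
    have h1 := hPv z hz
    rw [hz0, mul_zero, map_pow] at h1
    have h2 : MvPolynomial.aeval (vals z) Ξ = 0 := by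
      simpa using h1
    rw [← hΞv z hz] at h2
    have hfac : ((TT D).card.factorial : ℂ) ≠ 0 := by
      exact_mod_cast (Nat.factorial_pos _).ne'
    have h3 := (mul_eq_zero.1 h2).resolve_left hfac
    obtain ⟨ρ, hρ, h4⟩ := Finset.prod_eq_zero_iff.1 h3
    rw [q04_P_val] at h4
    refine q04_sign D Y hD hY hcusp z ?_ ρ hρ h4
    refine lt_of_le_of_lt ?_ hcon
    push_cast
    nlinarith

end Pool.Agent.MSD
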