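import Pool.Agent.Lib.MP_f58a57_nt.Q04_Modular
import Pool.Agent.Lib.MP_f58a57_nt.B8_Base

/-! # Q05: the normaliser at √(-D) (MP_f58a57_nt) -/

open Complex ModularForm EisensteinSeries Filter
open UpperHalfPlane hiding I
open scoped Topology MatrixGroups Polynomial

noncomputable section

namespace Pool.Agent.MSD

theorem q05_comp (P : Polynomial ℤ) (Q : Polynomial ℚ) (a : ℂ) :
    Polynomial.aeval a ((P.map (algebraMap ℤ ℚ)).comp Q) = Polynomial.aeval (Polynomial.aeval a Q) P := by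
  rw [Polynomial.aeval_comp, Polynomial.aeval_map_algebraMap]

theorem q05_min_le {a : ℂ} {R : Polynomial ℚ} (hR : R ≠ 0) (h : Polynomial.aeval a R = 0) {m : ℕ}
    (hm : R.natDegree ≤ m) : (minpoly ℚ a).natDegree ≤ m :=
  (Polynomial.natDegree_le_of_dvd (minpoly.dvd ℚ a h) hR).trans hm

theorem q05_comp_ne {P : Polynomial ℚ} (hP : P ≠ 0) {Q : Polynomial ℚ} (hQ : 0 < Q.natDegree) : P.comp Q ≠ 0 := by
  intro h
  rcases Polynomial.comp_eq_zero_iff.1 h with h | h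
  · exact hP h
  · rw [h.2] at hQ
    simp at hQ

/-- Q05. PROOF. `L, P` from `modular_rel`, `J = jj (rt D)`. Choose `Ω₀` with `Ω₀^12 = dl (rt D)` (`IsAlgClosed.exists_pow_nat_eq`), `Ω = Ω₀/L`. Let `u = e4/Ω₀⁴`, `v = e6/Ω₀⁶`: `u³ = J`,
`v² = J - 1728`. `L J` is integral over `ℤ` (`P(J) = 0`, `P.leadingCoeff = L`; Mathlib: `isIntegral_leadingCoeff_smul`), so `(L u)³ = L² (L J)` is integral and `L u` is integral
(`IsIntegral.of_pow`), `(L v)² = L (L J) - 1728 L²` and `L v` are integral. `e4/Ω⁴ = L⁴ u`, `e6/Ω⁶ = L⁶ v`, `dl/Ω^12 = L^12`: this gives `CMBase`.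
`e4/Ω⁴` is a root of `P(X³/L^12) ∈ ℚ[X]` (degree `3 natDegree P`), `e6/Ω⁶` is a root of `P(X²/L^12 + 1728)` (degree `2 natDegree P`): `minpoly.dvd`, `Polynomial.natDegree_le_of_dvd`, `natDegree_comp`.
Every root `a` of the minimal polynomial of `e4/Ω⁴` is a root of `P(X³/L^12)`; so if `a³ = L^12 jj z` then `P(jj z) = 0` and `Im z ≤ C D`. -/
theorem base_unif : ∃ C : ℕ, ∀ D : ℕ, 0 < D → ∃ (Ω : ℂ) (L : ℕ), CMBase (rt D) Ω ∧ 0 < L ∧
    (L : ℝ) ≤ Real.exp ((C : ℝ) * (D : ℝ) ^ 4) ∧ dl (rt D) / Ω ^ 12 = (L : ℂ) ^ 12 ∧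
      (minpoly ℚ (e4 (rt D) / Ω ^ 4)).natDegree ≤ 3 * D ^ 2 ∧ (minpoly ℚ (e6 (rt D) / Ω ^ 6)).natDegree ≤ 2 * D ^ 2 ∧
      ∀ a ∈ (minpoly ℚ (e4 (rt D) / Ω ^ 4)).aroots ℂ, ∀ z : ℂ, 0 < z.im → a ^ 3 = (L : ℂ) ^ 12 * jj z →
        z.im ≤ (C : ℝ) * D := by
  obtain ⟨C, hC⟩ := modular_rel
  refine ⟨C, fun D hD => ?_⟩
  obtain ⟨L, P, hL, hLs, hdeg, hlead, hroot, hzz⟩ := hC D hD
  have him := B8_rt_im D hD
  have hdl := dl_ne_zero (rt D) him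
  obtain ⟨Ω₀, hΩ₀⟩ := IsAlgClosed.exists_pow_nat_eq (dl (rt D)) (n := 12) (by norm_num)
  have hΩ00 : Ω₀ ≠ 0 := by
    rintro rfl
    apply hdl
    rw [← hΩ₀]
    norm_num
  have hL0 : (L : ℂ) ≠ 0 := by exact_mod_cast hL.ne'
  have hP0 : P ≠ 0 := by
    rintro rfl
    simp at hlead
    omega
  have hPQ0 : P.map (algebraMap ℤ ℚ) ≠ 0 := by
    rw [Ne, Polynomial.map_eq_zero_iff (algebraMap ℤ ℚ).injective_int]
    exact hP0
  have hPQd : (P.map (algebraMap ℤ ℚ)).natDegree = P.natDegree :=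
    Polynomial.natDegree_map_eq_of_injective (algebraMap ℤ ℚ).injective_int P
  -- the invariants
  have hJ : jj (rt D) = e4 (rt D) ^ 3 / Ω₀ ^ 12 := by rw [jj, hΩ₀]
  have hJ2 : jj (rt D) - 1728 = e6 (rt D) ^ 2 / Ω₀ ^ 12 := by
    have e : e6 (rt D) ^ 2 = e4 (rt D) ^ 3 - 1728 * Ω₀ ^ 12 := by
      rw [hΩ₀, dl]
      ring
    rw [hJ, e]
    field_simp
  have hu3 : (e4 (rt D) / (Ω₀ / L) ^ 4) ^ 3 = (L : ℂ) ^ 12 * jj (rt D) := by
    rw [hJ]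
    field_simp
  have hv2 : (e6 (rt D) / (Ω₀ / L) ^ 6) ^ 2 = (L : ℂ) ^ 12 * (jj (rt D) - 1728) := by
    rw [hJ2]
    field_simp
  have hd12 : dl (rt D) / (Ω₀ / L) ^ 12 = (L : ℂ) ^ 12 := by
    rw [← hΩ₀]
    field_simp
  have hLJ : IsIntegral ℤ ((L : ℂ) * jj (rt D)) := by
    have h := isIntegral_leadingCoeff_smul P (jj (rt D)) hroot
    rw [hlead, zsmul_eq_mul] at h
    simpa using h
  have hLi : IsIntegral ℤ (L : ℂ) := B8_nat L
  have i4 : IsIntegral ℤ (e4 (rt D) / (Ω₀ / L) ^ 4) := by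
    refine IsIntegral.of_pow (n := 3) (by norm_num) ?_
    rw [hu3, show (L : ℂ) ^ 12 * jj (rt D) = (L : ℂ) ^ 11 * ((L : ℂ) * jj (rt D)) by ring]
    exact (hLi.pow 11).mul hLJ
  have i6 : IsIntegral ℤ (e6 (rt D) / (Ω₀ / L) ^ 6) := by
    refine IsIntegral.of_pow (n := 2) (by norm_num) ?_
    rw [hv2, show (L : ℂ) ^ 12 * (jj (rt D) - 1728) =
      (L : ℂ) ^ 11 * ((L : ℂ) * jj (rt D)) - ((1728 : ℕ) : ℂ) * (L : ℂ) ^ 12 by push_cast; ring]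
    exact ((hLi.pow 11).mul hLJ).sub ((B8_nat 1728).mul (hLi.pow 12))
  -- the polynomials
  have hX3 : (Polynomial.C (1 / (L : ℚ) ^ 12) * Polynomial.X ^ 3 : Polynomial ℚ).natDegree = 3 :=
    Polynomial.natDegree_C_mul_X_pow 3 _ (by positivity)
  have hX2 : (Polynomial.C (1 / (L : ℚ) ^ 12) * Polynomial.X ^ 2 + Polynomial.C 1728 : Polynomial ℚ).natDegree = 2 := by
    rw [Polynomial.natDegree_add_C]
    exact Polynomial.natDegree_C_mul_X_pow 2 _ (by positivity)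
  set R3 : Polynomial ℚ := (P.map (algebraMap ℤ ℚ)).comp (Polynomial.C (1 / (L : ℚ) ^ 12) * Polynomial.X ^ 3) with hR3
  set R2 : Polynomial ℚ := (P.map (algebraMap ℤ ℚ)).comp
    (Polynomial.C (1 / (L : ℚ) ^ 12) * Polynomial.X ^ 2 + Polynomial.C 1728) with hR2
  have hR30 : R3 ≠ 0 := q05_comp_ne hPQ0 (by rw [hX3]; norm_num)
  have hR20 : R2 ≠ 0 := q05_comp_ne hPQ0 (by rw [hX2]; norm_num)
  have hR3d : R3.natDegree ≤ 3 * D ^ 2 := by
    rw [hR3, Polynomial.natDegree_comp, hX3, hPQd]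
    nlinarith
  have hR2d : R2.natDegree ≤ 2 * D ^ 2 := by
    rw [hR2, Polynomial.natDegree_comp, hX2, hPQd]
    nlinarith
  have hev3 : ∀ a : ℂ, Polynomial.aeval a R3 = Polynomial.aeval (a ^ 3 / (L : ℂ) ^ 12) P := by
    intro a
    have e : Polynomial.aeval a (Polynomial.C (1 / (L : ℚ) ^ 12) * Polynomial.X ^ 3 : Polynomial ℚ) = a ^ 3 / (L : ℂ) ^ 12 := by
      simp only [map_mul, Polynomial.aeval_C, map_pow, Polynomial.aeval_X, eq_ratCast]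
      push_cast
      field_simp
    rw [hR3, q05_comp, e]
  have hev2 : ∀ a : ℂ, Polynomial.aeval a R2 = Polynomial.aeval (a ^ 2 / (L : ℂ) ^ 12 + 1728) P := by
    intro a
    have e : Polynomial.aeval a (Polynomial.C (1 / (L : ℚ) ^ 12) * Polynomial.X ^ 2 + Polynomial.C 1728 : Polynomial ℚ) =
        a ^ 2 / (L : ℂ) ^ 12 + 1728 := by
      simp only [map_add, map_mul, Polynomial.aeval_C, map_pow, Polynomial.aeval_X, eq_ratCast]
      push_cast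
      field_simp
    rw [hR2, q05_comp, e]
  have h3 : Polynomial.aeval (e4 (rt D) / (Ω₀ / L) ^ 4) R3 = 0 := by
    rw [hev3, hu3, mul_div_cancel_left₀ _ (pow_ne_zero _ hL0)]
    exact hroot
  have h2 : Polynomial.aeval (e6 (rt D) / (Ω₀ / L) ^ 6) R2 = 0 := by
    rw [hev2, hv2, mul_div_cancel_left₀ _ (pow_ne_zero _ hL0), sub_add_cancel]
    exact hroot
  refine ⟨Ω₀ / L, L, ⟨him, div_ne_zero hΩ00 hL0, i4, i6, ?_⟩, hL, hLs, hd12, q05_min_le hR30 h3 hR3d,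
    q05_min_le hR20 h2 hR2d, ?_⟩
  · rw [hd12]
    exact hLi.pow 12
  · intro a ha z hz haz
    have ha' : Polynomial.aeval a (minpoly ℚ (e4 (rt D) / (Ω₀ / L) ^ 4)) = 0 := by
      rw [Polynomial.mem_aroots] at ha
      exact ha.2
    obtain ⟨R, hR⟩ := minpoly.dvd ℚ _ h3
    have ha3 : Polynomial.aeval a R3 = 0 := by
      rw [hR, map_mul, ha', zero_mul]
    rw [hev3, haz, mul_div_cancel_left₀ _ (pow_ne_zero _ hL0)] at ha3
    exact hzz z hz ha3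

end Pool.Agent.MSD
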