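import Pool.Agent.Lib.MP_f58a57_nt.A5_Uniform
import Pool.Agent.Lib.MP_f58a57_nt.A2_Transform

/-! # Q06: uniformisation by reduced points (MP_f58a57_nt) -/

open Complex ModularForm EisensteinSeries Filter
open UpperHalfPlane hiding I
open scoped Topology MatrixGroups Polynomial

noncomputable section

namespace Pool.Agent.MSD

/-- Q06. PROOF. `uniformization` gives `τ, Ω`. By Mathlib's `ModularGroup.exists_smul_mem_fd` some `γ ∈ SL(2, ℤ)` moves `⟨τ, _⟩ : ℍ` into the fundamental domain, where `3/4 ≤ (Im)²`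
(`ModularGroup.three_le_four_mul_im_sq_of_mem_fd`), so `Im ≥ 1/2`. With `γ = (a b; c d)`, `τ' = (a τ + b)/(c τ + d)` (coe of `γ • τ`, see `a2t_setup` in `A2_Transform.lean`), `Ω' = (c τ + d) Ω`:
`e4_transform`, `e6_transform`. -/
theorem uniformization_red (u v : ℂ) (h : u ^ 3 ≠ v ^ 2) :
    ∃ τ Ω : ℂ, 1 / 2 ≤ τ.im ∧ Ω ≠ 0 ∧ e4 τ / Ω ^ 4 = u ∧ e6 τ / Ω ^ 6 = v := by
  obtain ⟨τ, Ω, hτ, hΩ, h4, h6⟩ := uniformization u v h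
  obtain ⟨γ, hγ⟩ := ModularGroup.exists_one_half_le_im_smul (⟨τ, hτ⟩ : ℍ)
  have hdet : γ 0 0 * γ 1 1 - γ 0 1 * γ 1 0 = 1 := by
    have h1 := γ.det_coe
    rw [Matrix.det_fin_two] at h1
    exact h1
  have hcoe : ((γ • (⟨τ, hτ⟩ : ℍ) : ℍ) : ℂ) =
      ((γ 0 0 : ℤ) * τ + (γ 0 1 : ℤ)) / ((γ 1 0 : ℤ) * τ + (γ 1 1 : ℤ)) := by
    rw [coe_specialLinearGroup_apply]
    simp
  have hden : ((γ 1 0 : ℤ) : ℂ) * τ + ((γ 1 1 : ℤ) : ℂ) ≠ 0 := by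
    intro h0
    have h1 : (γ • (⟨τ, hτ⟩ : ℍ)).im = 0 := by
      rw [← UpperHalfPlane.coe_im, hcoe, h0, div_zero, Complex.zero_im]
    rw [h1] at hγ
    norm_num at hγ
  have k4 := e4_transform (γ 0 0) (γ 0 1) (γ 1 0) (γ 1 1) hdet τ hτ
  have k6 := e6_transform (γ 0 0) (γ 0 1) (γ 1 0) (γ 1 1) hdet τ hτ
  refine ⟨((γ 0 0 : ℤ) * τ + (γ 0 1 : ℤ)) / ((γ 1 0 : ℤ) * τ + (γ 1 1 : ℤ)),
    ((γ 1 0 : ℤ) * τ + (γ 1 1 : ℤ)) * Ω, ?_, mul_ne_zero hden hΩ, ?_, ?_⟩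
  · rw [← hcoe]
    exact hγ
  · rw [k4, mul_pow, mul_div_mul_left _ _ (pow_ne_zero 4 hden)]
    exact h4
  · rw [k6, mul_pow, mul_div_mul_left _ _ (pow_ne_zero 6 hden)]
    exact h6

end Pool.Agent.MSD
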