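import Pool.Agent.Lib.MP_f58a57_nt.B7c_Conj

/-! # Q07: conjugates of the members, precise form (MP_f58a57_nt) -/

open Complex ModularForm EisensteinSeries Filter
open UpperHalfPlane hiding I
open scoped Topology MatrixGroups Polynomial

noncomputable section

namespace Pool.Agent.MSD

/-- Q07. PROOF. This is the proof of `Gr_conj` (`B7c_Conj.lean`), whose argument applies word for word: `σ` an embedding of the algebraic numbers with `σ(Gr κ τ ρ/Ω^w) = r`, `a = σ(e4/Ω⁴)`,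
`b = σ(e6/Ω⁶)`; `a` is a root of the minimal polynomial of `e4/Ω⁴`; `a³ - b² = σ(1728 dl/Ω^12) = 1728 c`; for all `τ', Ω'` with these values the families `σ(Gr κ τ ρ'/Ω^w)` and `Gr κ τ' ρ'/Ω'^w` have
the same power sums, so by `prod_eq_of_psum` `r` is a member of the second. -/
theorem conj_mem (τ Ω : ℂ) (h : CMBase τ Ω) (c : ℚ) (hc : dl τ / Ω ^ 12 = (c : ℂ)) (κ : Fin 3) (N : ℕ) (hN : 0 < N)
    (ρ : Σ _ : ℕ × ℕ, ℕ) (hρ : ρ ∈ TT N) (r : ℂ) (hr : r ∈ (minpoly ℚ (Gr κ τ ρ / Ω ^ kwt κ)).aroots ℂ) :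
    ∃ a ∈ (minpoly ℚ (e4 τ / Ω ^ 4)).aroots ℂ, ∃ b : ℂ, a ^ 3 - b ^ 2 = 1728 * (c : ℂ) ∧
      ∀ τ' Ω' : ℂ, 0 < τ'.im → Ω' ≠ 0 → e4 τ' / Ω' ^ 4 = a → e6 τ' / Ω' ^ 6 = b →
        ∃ ρ' ∈ TT N, r = Gr κ τ' ρ' / Ω' ^ kwt κ := by
  classical
  set u : ℂ := e4 τ / Ω ^ 4 with hu
  set v : ℂ := e6 τ / Ω ^ 6 with hv
  have hΩ := h.ne
  have huv : u ^ 3 - v ^ 2 = 1728 * (dl τ / Ω ^ 12) := by
    rw [hu, hv, dl]
    field_simp
  have hd0 : dl τ / Ω ^ 12 ≠ 0 := div_ne_zero (dl_ne_zero τ h.im) (pow_ne_zero _ hΩ)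
  have hualg : IsAlgebraic ℚ u := (h.i4.tower_top (A := ℚ)).isAlgebraic
  have hvalg : IsAlgebraic ℚ v := (h.i6.tower_top (A := ℚ)).isAlgebraic
  -- the algebraic closure
  let A : IntermediateField ℚ ℂ := algebraicClosure ℚ ℂ
  have hAmem : ∀ x : ℂ, x ∈ A ↔ IsAlgebraic ℚ x := fun x => by
    simp only [A]
    rw [mem_algebraicClosure_iff]
  have hspl : ∀ s : A, IsIntegral ℚ s ∧ ((minpoly ℚ s).map (algebraMap ℚ ℂ)).Splits := by
    intro s
    have : IsAlgebraic ℚ (s : ℂ) := (hAmem _).1 s.2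
    exact ⟨(isIntegral_algebraMap_iff (algebraMap A ℂ).injective).1 this.isIntegral,
      IsAlgClosed.splits _⟩
  have halg : ∀ ρ' ∈ TT N, Gr κ τ ρ' / Ω ^ kwt κ ∈ A := fun ρ' hρ' =>
    (hAmem _).2 (b7c_isAlg τ Ω h κ N hN ρ' hρ')
  let α : A := ⟨Gr κ τ ρ / Ω ^ kwt κ, halg ρ hρ⟩
  have hmin : minpoly ℚ α = minpoly ℚ (Gr κ τ ρ / Ω ^ kwt κ) := by
    have := minpoly.algebraMap_eq (A := ℚ) (B := A) (B' := ℂ) (algebraMap A ℂ).injective α
    exact this.symm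
  have hr0 : Polynomial.aeval r (minpoly ℚ α) = 0 := by
    rw [hmin]
    exact (Polynomial.mem_aroots.1 hr).2
  obtain ⟨σ, hσ⟩ := IntermediateField.exists_algHom_of_splits_of_aeval hspl hr0
  let uA : A := ⟨u, (hAmem _).2 hualg⟩
  let vA : A := ⟨v, (hAmem _).2 hvalg⟩
  have hdl : (dl τ / Ω ^ 12) = (u ^ 3 - v ^ 2) / 1728 := by
    rw [huv]; ring
  let dA : A := algebraMap ℚ A (1 / 1728) * (uA ^ 3 - vA ^ 2)
  have hdA : (algebraMap A ℂ dA) = dl τ / Ω ^ 12 := by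
    rw [hdl]
    have e0 : algebraMap A ℂ (algebraMap ℚ A (1 / 1728)) = (1 / 1728 : ℂ) := by
      rw [← IsScalarTower.algebraMap_apply ℚ A ℂ]
      norm_num
    have e1 : algebraMap A ℂ uA = u := rfl
    have e2 : algebraMap A ℂ vA = v := rfl
    simp only [dA]
    rw [map_mul, map_sub, map_pow, map_pow, e0, e1, e2]
    ring
  have hσd : (σ uA) ^ 3 - (σ vA) ^ 2 = 1728 * (c : ℂ) := by
    have h1 : dA = algebraMap ℚ A c := by
      apply (algebraMap A ℂ).injective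
      rw [hdA, hc, ← IsScalarTower.algebraMap_apply ℚ A ℂ]
      rfl
    have h2 : σ dA = (c : ℂ) := by
      rw [h1, AlgHom.commutes]
      rfl
    have e4 : σ (algebraMap ℚ A (1 / 1728)) = (1 / 1728 : ℂ) := by
      rw [AlgHom.commutes]
      norm_num
    simp only [dA] at h2
    rw [map_mul, map_sub, map_pow, map_pow, e4] at h2
    rw [← h2]
    ring
  have hmemu : (σ uA) ∈ (minpoly ℚ u).aroots ℂ := by
    rw [Polynomial.mem_aroots]
    refine ⟨minpoly.ne_zero hualg.isIntegral, ?_⟩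
    have hm : minpoly ℚ uA = minpoly ℚ u :=
      (minpoly.algebraMap_eq (A := ℚ) (B := A) (B' := ℂ) (algebraMap A ℂ).injective uA).symm
    rw [← hm, Polynomial.aeval_algHom_apply, minpoly.aeval, map_zero]
  refine ⟨σ uA, hmemu, σ vA, hσd, ?_⟩
  intro τ' Ω' him' hne' h4' h6'
  -- power sums
  have hps : ∀ k : ℕ, 0 < k →
      ∑ ρ' ∈ TT N, (if hm : ρ' ∈ TT N then σ ⟨Gr κ τ ρ' / Ω ^ kwt κ, halg ρ' hm⟩ else 0) ^ k =
        ∑ ρ' ∈ TT N, (Gr κ τ' ρ' / Ω' ^ kwt κ) ^ k := by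
    intro k _
    obtain ⟨Θ, hΘ⟩ := theta_norm κ N k hN
    rw [hΘ τ' Ω' him' hne']
    have hA : (∑ ρ' ∈ TT N, (if hm : ρ' ∈ TT N then (⟨Gr κ τ ρ' / Ω ^ kwt κ, halg ρ' hm⟩ : A) else 0) ^ k) =
        MvPolynomial.aeval (![uA, vA, dA] : Fin 3 → A) Θ := by
      apply (algebraMap A ℂ).injective
      have e1 : (algebraMap A ℂ) (∑ ρ' ∈ TT N,
          (if hm : ρ' ∈ TT N then (⟨Gr κ τ ρ' / Ω ^ kwt κ, halg ρ' hm⟩ : A) else 0) ^ k) =
          ∑ ρ' ∈ TT N, (Gr κ τ ρ' / Ω ^ kwt κ) ^ k := by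
        rw [map_sum]
        refine Finset.sum_congr rfl fun ρ' hρ' => ?_
        rw [map_pow, dif_pos hρ']
        rfl
      rw [e1, hΘ τ Ω h.im h.ne]
      rw [MvPolynomial.aeval_def, MvPolynomial.eval₂_eq, MvPolynomial.aeval_def, MvPolynomial.eval₂_eq,
        map_sum]
      refine Finset.sum_congr rfl fun d _ => ?_
      rw [map_mul, map_prod]
      congr 1
      refine Finset.prod_congr rfl fun i _ => ?_
      rw [map_pow]
      congr 1
      fin_cases i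
      · rfl
      · rfl
      · exact hdA.symm
    have hσA := congrArg σ hA
    rw [map_sum] at hσA
    have e2 : ∑ ρ' ∈ TT N, (if hm : ρ' ∈ TT N then σ ⟨Gr κ τ ρ' / Ω ^ kwt κ, halg ρ' hm⟩ else 0) ^ k =
        ∑ ρ' ∈ TT N, σ ((if hm : ρ' ∈ TT N then (⟨Gr κ τ ρ' / Ω ^ kwt κ, halg ρ' hm⟩ : A) else 0) ^ k) := by
      refine Finset.sum_congr rfl fun ρ' hρ' => ?_
      rw [map_pow, dif_pos hρ', dif_pos hρ']
    rw [e2, hσA]
    rw [MvPolynomial.aeval_def, MvPolynomial.eval₂_eq, MvPolynomial.aeval_def, MvPolynomial.eval₂_eq,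
        map_sum]
    refine Finset.sum_congr rfl fun d _ => ?_
    rw [map_mul, map_prod]
    congr 1
    · simp
    · refine Finset.prod_congr rfl fun i _ => ?_
      rw [map_pow]
      congr 1
      fin_cases i
      · exact h4'.symm
      · exact h6'.symm
      · change σ dA = dl τ' / Ω' ^ 12
        have e3 : dl τ' / Ω' ^ 12 = ((e4 τ' / Ω' ^ 4) ^ 3 - (e6 τ' / Ω' ^ 6) ^ 2) / 1728 := by
          rw [dl]
          field_simp
        have e4 : σ (algebraMap ℚ A (1 / 1728)) = (1 / 1728 : ℂ) := by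
          rw [AlgHom.commutes]
          norm_num
        rw [e3, h4', h6']
        simp only [dA]
        rw [map_mul, map_sub, map_pow, map_pow, e4]
        ring
  have hprod := prod_eq_of_psum (TT N)
    (fun ρ' => if hm : ρ' ∈ TT N then σ ⟨Gr κ τ ρ' / Ω ^ kwt κ, halg ρ' hm⟩ else 0)
    (fun ρ' => Gr κ τ' ρ' / Ω' ^ kwt κ) hps
  have hev := congrArg (Polynomial.eval r) hprod
  rw [Polynomial.eval_prod, Polynomial.eval_prod] at hev
  have hz : ∏ i ∈ TT N, Polynomial.eval r (Polynomial.X - Polynomial.C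
      ((fun ρ' => if hm : ρ' ∈ TT N then σ ⟨Gr κ τ ρ' / Ω ^ kwt κ, halg ρ' hm⟩ else 0) i)) = 0 := by
    refine Finset.prod_eq_zero hρ ?_
    simp only [Polynomial.eval_sub, Polynomial.eval_X, Polynomial.eval_C]
    rw [dif_pos hρ]
    have : σ ⟨Gr κ τ ρ / Ω ^ kwt κ, halg ρ hρ⟩ = r := hσ
    rw [this, sub_self]
  rw [hz] at hev
  obtain ⟨ρ', hρ', he⟩ := Finset.prod_eq_zero_iff.1 hev.symm
  have hrr : r = Gr κ τ' ρ' / Ω' ^ kwt κ := by
    simp only [Polynomial.eval_sub, Polynomial.eval_X, Polynomial.eval_C] at he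
    exact sub_eq_zero.1 he
  exact ⟨ρ', hρ', hrr⟩

end Pool.Agent.MSD
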