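import Pool.Agent.Lib.MP_f58a57_nt.B7b_Degree

/-! # Q08: degree of the members, precise form (MP_f58a57_nt) -/

open Complex ModularForm EisensteinSeries Filter
open UpperHalfPlane hiding I
open scoped Topology MatrixGroups Polynomial

noncomputable section

namespace Pool.Agent.MSD

/-- Q08. PROOF. As `Gr_degree` (`B7b_Degree.lean`) with `k = ℚ(e4/Ω⁴, e6/Ω⁶)` (`dl/Ω^12 = c` is rational), whose degree over `ℚ` is at most the product of the two degrees
(tower `ℚ ⊆ ℚ(u) ⊆ ℚ(u)(v)`, `IntermediateField.adjoin.finrank`, `minpoly` over the bigger field divides; or `IntermediateField.finrank_sup_le`), and `card (TT N) ≤ N²`. -/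
theorem degree_le (τ Ω : ℂ) (h : CMBase τ Ω) (c : ℚ) (hc : dl τ / Ω ^ 12 = (c : ℂ)) (κ : Fin 3) (N : ℕ) (hN : 0 < N)
    (ρ : Σ _ : ℕ × ℕ, ℕ) (hρ : ρ ∈ TT N) : (minpoly ℚ (Gr κ τ ρ / Ω ^ kwt κ)).natDegree ≤
      (minpoly ℚ (e4 τ / Ω ^ 4)).natDegree * (minpoly ℚ (e6 τ / Ω ^ 6)).natDegree * N ^ 2 := by
  classical
  have i4 : IsIntegral ℚ (e4 τ / Ω ^ 4) := h.i4.tower_top
  have i6 : IsIntegral ℚ (e6 τ / Ω ^ 6) := h.i6.tower_top
  let k4 : IntermediateField ℚ ℂ := IntermediateField.adjoin ℚ {e4 τ / Ω ^ 4}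
  let k6 : IntermediateField ℚ ℂ := IntermediateField.adjoin ℚ {e6 τ / Ω ^ 6}
  have : FiniteDimensional ℚ k4 := IntermediateField.adjoin.finiteDimensional i4
  have : FiniteDimensional ℚ k6 := IntermediateField.adjoin.finiteDimensional i6
  let k : IntermediateField ℚ ℂ := k4 ⊔ k6
  have : FiniteDimensional ℚ k := IntermediateField.finiteDimensional_sup k4 k6
  have hk : Module.finrank ℚ k ≤
      (minpoly ℚ (e4 τ / Ω ^ 4)).natDegree * (minpoly ℚ (e6 τ / Ω ^ 6)).natDegree := by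
    refine (IntermediateField.finrank_sup_le k4 k6).trans (le_of_eq ?_)
    rw [IntermediateField.adjoin.finrank i4, IntermediateField.adjoin.finrank i6]
  have hmem : ∀ i : Fin 3, (![e4 τ / Ω ^ 4, e6 τ / Ω ^ 6, dl τ / Ω ^ 12] : Fin 3 → ℂ) i ∈ k := by
    have m4 : e4 τ / Ω ^ 4 ∈ k :=
      (le_sup_left : k4 ≤ k) (IntermediateField.mem_adjoin_simple_self ℚ _)
    have m6 : e6 τ / Ω ^ 6 ∈ k :=
      (le_sup_right : k6 ≤ k) (IntermediateField.mem_adjoin_simple_self ℚ _)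
    have m12 : dl τ / Ω ^ 12 ∈ k := by
      rw [hc]
      exact k.algebraMap_mem c
    intro i
    fin_cases i
    · exact m4
    · exact m6
    · exact m12
  have hps : ∀ m : ℕ, 0 < m → ∑ ρ ∈ TT N, (Gr κ τ ρ / Ω ^ kwt κ) ^ m ∈ k := by
    intro m _
    obtain ⟨Θ, hΘ⟩ := theta_norm κ N m hN
    rw [hΘ τ Ω h.im h.ne]
    let f : Fin 3 → k := fun i => ⟨_, hmem i⟩
    have e : (![e4 τ / Ω ^ 4, e6 τ / Ω ^ 6, dl τ / Ω ^ 12] : Fin 3 → ℂ) = algebraMap k ℂ ∘ f := by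
      funext i
      rfl
    rw [e, MvPolynomial.aeval_algebraMap_apply]
    exact (MvPolynomial.aeval f Θ).2
  have hcoef := coeff_mem_of_psum (TT N) (fun ρ => Gr κ τ ρ / Ω ^ kwt κ) k hps
  have hmon : (∏ ρ ∈ TT N, (Polynomial.X - Polynomial.C (Gr κ τ ρ / Ω ^ kwt κ))).Monic :=
    Polynomial.monic_prod_of_monic _ _ fun i _ => Polynomial.monic_X_sub_C _
  have hdeg : (∏ ρ ∈ TT N, (Polynomial.X - Polynomial.C (Gr κ τ ρ / Ω ^ kwt κ))).natDegree = (TT N).card := by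
    rw [Polynomial.natDegree_prod_of_monic _ _ fun i _ => Polynomial.monic_X_sub_C _]
    simp
  have hev : (∏ ρ ∈ TT N, (Polynomial.X - Polynomial.C (Gr κ τ ρ / Ω ^ kwt κ))).eval (Gr κ τ ρ / Ω ^ kwt κ) = 0 := by
    rw [Polynomial.eval_prod]
    refine Finset.prod_eq_zero hρ ?_
    simp
  have := B7b_degree k _ hmon hcoef _ hev
  rw [hdeg] at this
  exact this.trans (Nat.mul_le_mul hk (B7b_card N))

end Pool.Agent.MSD
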