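import Pool.Agent.Lib.MP_f58a57_nt.Q05_Base
import Pool.Agent.Lib.MP_f58a57_nt.Q06_Reduce
import Pool.Agent.Lib.MP_f58a57_nt.Q07_Conj
import Pool.Agent.Lib.MP_f58a57_nt.Q08_Degree
import Pool.Agent.Lib.MP_f58a57_nt.B7_CtrlGr

/-! # Q09: uniform control (MP_f58a57_nt) -/

open Complex ModularForm EisensteinSeries Filter
open UpperHalfPlane hiding I
open scoped Topology MatrixGroups Polynomial

noncomputable section

namespace Pool.Agent.MSD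

/-- Q09. PROOF. `Om D, L D` from `base_unif` (`Om 0 = 1`). Integrality: `Gr_integral`. Algebraicity: `ctrl_Gr` or `b7c_isAlg`. Degree: `degree_le` with `c = L^12`: at most `3 D² · 2 D² · N²`.
Conjugates: `conj_mem` gives `a, b` with `a³ - b² = 1728 L^12 ≠ 0`; `uniformization_red a b` gives `τ', Ω'`, `Im τ' ≥ 1/2`, with these values; `dl τ'/Ω'^12 = (a³ - b²)/1728 = L^12`, so
`a³ = e4(τ')³/Ω'^12 = jj τ' · L^12` and `Im τ' ≤ C D` by the last clause of `base_unif`. `r = Gr κ τ' ρ'/Ω'^w`, `‖Gr κ τ' ρ'‖ ≤ C N^C` (`Gr_bound_unif`), `‖Ω'‖^(-12) = L^12/‖dl τ'‖ ≤ L^12 exp(2π C D)/c`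
(`dl_lower`), and `y^w ≤ 1 + y^12` for `y ≥ 0`, `w ≤ 12`. All bounds are `≤ exp((D+N+1)^C')` for a suitable `C'`. -/
theorem uctrl : ∃ (Om : ℕ → ℂ) (C : ℕ), UCtrl Om C := by
  classical
  obtain ⟨C₁, h₁⟩ := base_unif
  choose! Om L hbase hL0 hLe hdl hd4 hd6 him using h₁
  obtain ⟨c, hc0, hc⟩ := dl_lower
  obtain ⟨C₂, h₂⟩ := Gr_bound_unif
  obtain ⟨M, hM⟩ := exists_nat_ge (1 / c)
  refine ⟨Om, 2 * C₂ + 19 * C₁ + M + 8, fun D hD => hbase D hD, ?_⟩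
  intro D hD κ N hN ρ hρ
  have hcq : dl (rt D) / Om D ^ 12 = ((((L D : ℕ) : ℚ) ^ 12 : ℚ) : ℂ) := by
    rw [hdl D hD]
    push_cast
    rfl
  have hL1 : (0 : ℝ) < (L D : ℝ) := by exact_mod_cast hL0 D hD
  have hLne : ((L D : ℕ) : ℂ) ≠ 0 := by exact_mod_cast (hL0 D hD).ne'
  have hDr : (0 : ℝ) ≤ (D : ℝ) := Nat.cast_nonneg _
  have hC₁ : (0 : ℝ) ≤ (C₁ : ℝ) := Nat.cast_nonneg _
  have hC₂ : (0 : ℝ) ≤ (C₂ : ℝ) := Nat.cast_nonneg _
  set A : ℝ := 12 * (C₁ * (D : ℝ) ^ 4) + 7 * (C₁ * D) with hA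
  have hA0 : 0 ≤ A := by positivity
  set S : ℝ := (C₂ : ℝ) * (N : ℝ) ^ C₂ * (1 + Real.exp A / c) with hS
  have hx3 : (3 : ℝ) ≤ ((D + N + 1 : ℕ) : ℝ) := by
    have : 3 ≤ D + N + 1 := by omega
    exact_mod_cast this
  have hx1 : (1 : ℝ) ≤ ((D + N + 1 : ℕ) : ℝ) := by linarith
  have hDx : (D : ℝ) ≤ ((D + N + 1 : ℕ) : ℝ) := by
    have : D ≤ D + N + 1 := by omega
    exact_mod_cast this
  have hNx : (N : ℝ) ≤ ((D + N + 1 : ℕ) : ℝ) := by
    have : N ≤ D + N + 1 := by omega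
    exact_mod_cast this
  refine ⟨(3 * D ^ 2) * (2 * D ^ 2) * N ^ 2, S, ⟨b7c_isAlg _ _ (hbase D hD) κ N hN ρ hρ,
    Gr_integral _ _ (hbase D hD) κ N hN ρ hρ, ?_, ?_⟩, ?_, ?_⟩
  · -- degree
    refine (degree_le _ _ (hbase D hD) _ hcq κ N hN ρ hρ).trans ?_
    exact Nat.mul_le_mul_right _ (Nat.mul_le_mul (hd4 D hD) (hd6 D hD))
  · -- conjugates
    intro r hr
    obtain ⟨a, ha, b, hab, hfam⟩ := conj_mem _ _ (hbase D hD) _ hcq κ N hN ρ hρ r hr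
    have hab0 : a ^ 3 ≠ b ^ 2 := by
      intro hcon
      rw [hcon, sub_self] at hab
      have h0 : (1728 : ℂ) * ((((L D : ℕ) : ℚ) ^ 12 : ℚ) : ℂ) ≠ 0 := by
        refine mul_ne_zero (by norm_num) ?_
        push_cast
        exact pow_ne_zero _ hLne
      exact h0 hab.symm
    obtain ⟨τ', Ω', him', hne', h4', h6'⟩ := uniformization_red a b hab0
    have him0 : 0 < τ'.im := by linarith
    obtain ⟨ρ', hρ', hrr⟩ := hfam τ' Ω' him0 hne' h4' h6'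
    have hdl' : dl τ' / Ω' ^ 12 = ((L D : ℕ) : ℂ) ^ 12 := by
      have e3 : dl τ' / Ω' ^ 12 = ((e4 τ' / Ω' ^ 4) ^ 3 - (e6 τ' / Ω' ^ 6) ^ 2) / 1728 := by
        rw [dl]
        field_simp
      rw [e3, h4', h6', hab]
      push_cast
      ring
    have hdl0 : dl τ' ≠ 0 := dl_ne_zero τ' him0
    have ha3 : a ^ 3 = ((L D : ℕ) : ℂ) ^ 12 * jj τ' := by
      rw [← h4', ← hdl', jj]
      field_simp
    have himle : τ'.im ≤ (C₁ : ℝ) * D := him D hD a ha τ' him0 ha3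
    have hdlow : c * Real.exp (-(7 * (C₁ * D))) ≤ ‖dl τ'‖ := by
      refine le_trans ?_ (hc τ' him')
      refine mul_le_mul_of_nonneg_left ?_ hc0.le
      rw [Real.exp_le_exp]
      have hpi : 2 * Real.pi ≤ 7 := by linarith [Real.pi_lt_d2]
      have : 2 * Real.pi * τ'.im ≤ 7 * (C₁ * D) :=
        mul_le_mul hpi himle him0.le (by norm_num)
      linarith
    have hΩpos : 0 < ‖Ω'‖ := norm_pos_iff.2 hne'
    have hΩ12 : (‖Ω'‖⁻¹) ^ 12 = (L D : ℝ) ^ 12 / ‖dl τ'‖ := by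
      have h1 : ‖dl τ'‖ / ‖Ω'‖ ^ 12 = (L D : ℝ) ^ 12 := by
        rw [← norm_pow, ← norm_div, hdl', norm_pow, Complex.norm_natCast]
      have h2 : ‖dl τ'‖ ≠ 0 := norm_ne_zero_iff.2 hdl0
      rw [← h1]
      field_simp
    have hΩle : (‖Ω'‖⁻¹) ^ 12 ≤ Real.exp A / c := by
      rw [hΩ12]
      have h3 : (L D : ℝ) ^ 12 ≤ Real.exp (12 * (C₁ * (D : ℝ) ^ 4)) := by
        calc (L D : ℝ) ^ 12 ≤ (Real.exp (C₁ * (D : ℝ) ^ 4)) ^ 12 :=
              pow_le_pow_left₀ hL1.le (hLe D hD) _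
          _ = Real.exp (12 * (C₁ * (D : ℝ) ^ 4)) := by
              rw [← Real.exp_nat_mul]
              norm_num
      calc (L D : ℝ) ^ 12 / ‖dl τ'‖
          ≤ Real.exp (12 * (C₁ * (D : ℝ) ^ 4)) / (c * Real.exp (-(7 * (C₁ * D)))) := by
            refine div_le_div₀ (Real.exp_pos _).le h3 (by positivity) hdlow
        _ = Real.exp A / c := by
            rw [hA, Real.exp_add, Real.exp_neg]
            field_simp
    have hw : (‖Ω'‖⁻¹) ^ kwt κ ≤ 1 + Real.exp A / c := by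
      have hy : 0 ≤ ‖Ω'‖⁻¹ := by positivity
      have hk : kwt κ ≤ 12 := by
        fin_cases κ <;> simp [kwt]
      rcases le_total (‖Ω'‖⁻¹) 1 with h5 | h5
      · have : (‖Ω'‖⁻¹) ^ kwt κ ≤ 1 := pow_le_one₀ hy h5
        have h6 : 0 ≤ Real.exp A / c := by positivity
        linarith
      · have : (‖Ω'‖⁻¹) ^ kwt κ ≤ (‖Ω'‖⁻¹) ^ 12 := pow_le_pow_right₀ h5 hk
        linarith
    rw [hrr, norm_div, norm_pow, div_eq_mul_inv, ← inv_pow, hS]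
    refine mul_le_mul (h₂ τ' him' κ N hN ρ' hρ') hw (by positivity) (by positivity)
  · -- size of the degree
    have h8 : (((3 * D ^ 2) * (2 * D ^ 2) * N ^ 2 : ℕ) : ℝ) ≤ ((D + N + 1 : ℕ) : ℝ) ^ 8 := by
      push_cast
      have hN0 : (0 : ℝ) ≤ (N : ℝ) := Nat.cast_nonneg _
      have hx : (3 : ℝ) ≤ (D : ℝ) + N + 1 := by
        have := hx3
        push_cast at this
        exact this
      have hDx' : (D : ℝ) ≤ (D : ℝ) + N + 1 := by linarith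
      have hNx' : (N : ℝ) ≤ (D : ℝ) + N + 1 := by linarith
      have h6 : (6 : ℝ) ≤ ((D : ℝ) + N + 1) ^ 2 := by nlinarith
      have hD4 : (D : ℝ) ^ 4 ≤ ((D : ℝ) + N + 1) ^ 4 := pow_le_pow_left₀ hDr hDx' 4
      have hN2 : (N : ℝ) ^ 2 ≤ ((D : ℝ) + N + 1) ^ 2 := pow_le_pow_left₀ hN0 hNx' 2
      calc (3 * (D : ℝ) ^ 2) * (2 * (D : ℝ) ^ 2) * (N : ℝ) ^ 2 = 6 * (D : ℝ) ^ 4 * (N : ℝ) ^ 2 := by ring
        _ ≤ ((D : ℝ) + N + 1) ^ 2 * ((D : ℝ) + N + 1) ^ 4 * ((D : ℝ) + N + 1) ^ 2 := by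
            refine mul_le_mul (mul_le_mul h6 hD4 (by positivity) (by positivity)) hN2 (by positivity) (by positivity)
        _ = ((D : ℝ) + N + 1) ^ 8 := by ring
    exact h8.trans (pow_le_pow_right₀ hx1 (by omega))
  · -- size of the conjugates
    have hN0 : (0 : ℝ) ≤ (N : ℝ) := Nat.cast_nonneg _
    have e1 : (C₂ : ℝ) ≤ Real.exp C₂ := by linarith [Real.add_one_le_exp (C₂ : ℝ)]
    have e2 : (N : ℝ) ^ C₂ ≤ Real.exp (C₂ * N) := by
      rw [Real.exp_nat_mul]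
      exact pow_le_pow_left₀ hN0 (by linarith [Real.add_one_le_exp (N : ℝ)]) _
    have e3 : 1 + Real.exp A / c ≤ Real.exp (A + 1 / c) := by
      rw [Real.exp_add A (1 / c)]
      have h5 : 1 ≤ Real.exp A := Real.one_le_exp hA0
      have h6 : 1 + 1 / c ≤ Real.exp (1 / c) := by linarith [Real.add_one_le_exp (1 / c)]
      calc 1 + Real.exp A / c ≤ Real.exp A + Real.exp A / c := by linarith
        _ = Real.exp A * (1 + 1 / c) := by ring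
        _ ≤ Real.exp A * Real.exp (1 / c) := mul_le_mul_of_nonneg_left h6 (Real.exp_pos _).le
    have e4' : S ≤ Real.exp (C₂ + C₂ * N + (A + 1 / c)) := by
      rw [Real.exp_add (C₂ + C₂ * N) (A + 1 / c), Real.exp_add (C₂ : ℝ) (C₂ * N), hS]
      refine mul_le_mul (mul_le_mul e1 e2 (by positivity) (Real.exp_pos _).le) e3 (by positivity) (by positivity)
    refine e4'.trans ?_
    rw [Real.exp_le_exp]
    set x : ℝ := ((D + N + 1 : ℕ) : ℝ) with hx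
    have hx4 : x ≤ x ^ 4 := by
      calc x = x ^ 1 := (pow_one x).symm
        _ ≤ x ^ 4 := pow_le_pow_right₀ hx1 (by norm_num)
    have h14 : (1 : ℝ) ≤ x ^ 4 := hx1.trans hx4
    have hx0 : 0 ≤ x := by linarith
    have b1 : (C₂ : ℝ) ≤ C₂ * x ^ 4 := by nlinarith
    have b2 : (C₂ : ℝ) * N ≤ C₂ * x ^ 4 := mul_le_mul_of_nonneg_left (hNx.trans hx4) hC₂
    have b3 : 12 * ((C₁ : ℝ) * (D : ℝ) ^ 4) ≤ 12 * (C₁ * x ^ 4) := by
      have : (D : ℝ) ^ 4 ≤ x ^ 4 := pow_le_pow_left₀ hDr hDx 4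
      have := mul_le_mul_of_nonneg_left this hC₁
      linarith
    have b4 : 7 * ((C₁ : ℝ) * (D : ℝ)) ≤ 7 * (C₁ * x ^ 4) := by
      have := mul_le_mul_of_nonneg_left (hDx.trans hx4) hC₁
      linarith
    have b5 : 1 / c ≤ (M : ℝ) * x ^ 4 := by
      have hM0 : (0 : ℝ) ≤ (M : ℝ) := Nat.cast_nonneg _
      nlinarith
    set K : ℕ := 2 * C₂ + 19 * C₁ + M with hK
    have b6 : (C₂ : ℝ) + C₂ * N + (A + 1 / c) ≤ (K : ℝ) * x ^ 4 := by
      rw [hA, hK]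
      push_cast
      linarith
    refine b6.trans ?_
    have b7 : (K : ℝ) ≤ x ^ K := by
      have : K < 2 ^ K := Nat.lt_two_pow_self
      have h2 : (K : ℝ) ≤ (2 : ℝ) ^ K := by exact_mod_cast this.le
      exact h2.trans (pow_le_pow_left₀ (by norm_num) (by linarith) _)
    calc (K : ℝ) * x ^ 4 ≤ x ^ K * x ^ 4 := mul_le_mul_of_nonneg_right b7 (by positivity)
      _ = x ^ (K + 4) := (pow_add x K 4).symm
      _ ≤ x ^ (K + 8) := pow_le_pow_right₀ hx1 (by omega)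

end Pool.Agent.MSD
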