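import Pool.Agent.Lib.MP_f58a57_nt.C2_PC

/-! # Q10: inverses of PC families (MP_f58a57_nt) -/

open Complex ModularForm EisensteinSeries Filter
open UpperHalfPlane hiding I
open scoped Topology MatrixGroups Polynomial

noncomputable section

namespace Pool.Agent.MSD

/-- the minimal polynomial over `ℤ` of `D α` -/
theorem q10_minpoly {D : ℕ} {α : ℂ} (hα : IsIntegral ℚ α) (hint : IsIntegral ℤ ((D : ℂ) * α)) (hD : 0 < D) :
    (minpoly ℤ ((D : ℂ) * α)).map (algebraMap ℤ ℚ) = (minpoly ℚ α).scaleRoots (D : ℚ) := by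
  have hDα : (D : ℂ) * α = (D : ℚ) • α := by
    rw [Algebra.smul_def]
    simp
  have h1 : minpoly ℚ ((D : ℂ) * α) = (minpoly ℚ α).scaleRoots (D : ℚ) := by
    rw [hDα]
    exact IsIntegrallyClosed.minpoly_smul (by exact_mod_cast hD.ne') hα
  rw [← minpoly.isIntegrallyClosed_eq_field_fractions' ℚ hint, h1]

theorem q10_minpoly_conj {α r : ℂ} (hα : IsIntegral ℚ α) (hr : r ∈ (minpoly ℚ α).aroots ℂ) :
    minpoly ℚ r = minpoly ℚ α := by
  rw [Polynomial.mem_aroots] at hr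
  exact (minpoly.eq_of_irreducible_of_monic (minpoly.irreducible hα) hr.2 (minpoly.monic hα)).symm

theorem q10_ctrl_conj {m D : ℕ} {S : ℝ} {α : ℂ} (h : Ctrl m D S α) (hD : 0 < D) {r : ℂ}
    (hr : r ∈ (minpoly ℚ α).aroots ℂ) : Ctrl m D S r := by
  have hα : IsIntegral ℚ α := h.alg.isIntegral
  have hq := q10_minpoly_conj hα hr
  have hrr : Polynomial.aeval r (minpoly ℚ α) = 0 := (Polynomial.mem_aroots.1 hr).2
  refine ⟨?_, ?_, ?_, ?_⟩
  · exact ⟨minpoly ℚ α, minpoly.ne_zero hα, hrr⟩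
  · refine ⟨minpoly ℤ ((D : ℂ) * α), minpoly.monic h.int, ?_⟩
    have h1 : Polynomial.aeval ((D : ℂ) * r) ((minpoly ℤ ((D : ℂ) * α)).map (algebraMap ℤ ℚ)) = 0 := by
      rw [q10_minpoly hα h.int hD]
      have := Polynomial.scaleRoots_aeval_eq_zero (r := (D : ℚ)) hrr
      simpa using this
    rw [Polynomial.aeval_map_algebraMap] at h1
    exact h1
  · rw [hq]; exact h.deg
  · rw [hq]; exact h.conj

/-- Q10a. PROOF. Let `q` be the minimal polynomial of `α`, `n` its degree, `β = D α`; the minimal polynomial of `β` over `ℤ` is `X^n + ... + c₀` with `c₀ ≠ 0` and `|c₀| = Π_r ‖D r‖ ≤ (D max(1,S))^m` (compare the proof of `Ctrl.lower` in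
`C1_Lower.lean`). `c₀ β⁻¹ = -(β^(n-1) + ...)` is integral, so `|c₀| α⁻¹ = |c₀| D β⁻¹` is integral. `α⁻¹` is a root of `q.reverse`, so its degree is at most `n ≤ m`; its conjugates are roots of `q.reverse`, i.e. they are
`r⁻¹` with `r` a root of `q`, and `1 ≤ ‖r‖ D^m max(1,S)^m` by `Ctrl.lower` for `r` (which has the same minimal polynomial: `minpoly.eq_of_irreducible...`; `D r` is integral because its minimal polynomial is the one of `D α`). -/
theorem Ctrl.inv {m D : ℕ} {S : ℝ} {α : ℂ} (h : Ctrl m D S α) (hD : 0 < D) (h0 : α ≠ 0) :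
    ∃ D' : ℕ, 0 < D' ∧ (D' : ℝ) ≤ ((D : ℝ) * max 1 S) ^ m ∧ Ctrl m D' ((D : ℝ) ^ m * (max 1 S) ^ m) α⁻¹ := by
  have hα : IsIntegral ℚ α := h.alg.isIntegral
  have hint : IsIntegral ℤ ((D : ℂ) * α) := h.int
  set q := minpoly ℚ α with hq
  set n := q.natDegree with hn
  set P := minpoly ℤ ((D : ℂ) * α) with hP
  have hD0 : (D : ℂ) ≠ 0 := by exact_mod_cast hD.ne'
  have hD1 : (1 : ℝ) ≤ (D : ℝ) := by exact_mod_cast hD
  have hT : (1 : ℝ) ≤ max 1 S := le_max_left _ _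
  have h3 : ((P.coeff 0 : ℤ) : ℚ) = q.coeff 0 * (D : ℚ) ^ n := by
    have := congrArg (fun p => Polynomial.coeff p 0) (q10_minpoly hα hint hD)
    simpa [Polynomial.coeff_map, Polynomial.coeff_scaleRoots] using this
  have h4 : q.coeff 0 ≠ 0 := minpoly.coeff_zero_ne_zero hα h0
  have h5 : P.coeff 0 ≠ 0 := by
    intro h6
    rw [h6] at h3
    have : q.coeff 0 * (D : ℚ) ^ n ≠ 0 := mul_ne_zero h4 (pow_ne_zero _ (by exact_mod_cast hD.ne'))
    exact this (by rw [← h3]; simp)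
  -- size of the constant coefficient
  have hmonic : (q.map (algebraMap ℚ ℂ)).Monic := (minpoly.monic hα).map _
  have hsplit : (q.map (algebraMap ℚ ℂ)).Splits := IsAlgClosed.splits _
  have h9 := hsplit.coeff_zero_eq_prod_roots_of_monic hmonic
  have hdeg : (q.map (algebraMap ℚ ℂ)).natDegree = n := Polynomial.natDegree_map _
  have hcard : Multiset.card (q.aroots ℂ) = n := by
    rw [Polynomial.aroots_def, ← hsplit.natDegree_eq_card_roots, hdeg]
  have h10 : |((q.coeff 0 : ℚ) : ℝ)| = ‖(q.aroots ℂ).prod‖ := by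
    have h11 : (((q.coeff 0 : ℚ) : ℂ)) = (q.map (algebraMap ℚ ℂ)).coeff 0 := by
      rw [Polynomial.coeff_map]
      rfl
    have h12 : ‖((q.coeff 0 : ℚ) : ℂ)‖ = |((q.coeff 0 : ℚ) : ℝ)| := by
      rw [show ((q.coeff 0 : ℚ) : ℂ) = (((q.coeff 0 : ℚ) : ℝ) : ℂ) by push_cast; rfl,
        Complex.norm_real, Real.norm_eq_abs]
    rw [← h12, h11, h9, norm_mul, norm_pow, norm_neg, norm_one, one_pow, one_mul,
      Polynomial.aroots_def]
  have h13 : ∀ t : Multiset ℂ, (∀ r ∈ t, ‖r‖ ≤ max 1 S) → ‖t.prod‖ ≤ (max 1 S) ^ (Multiset.card t) := by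
    intro t
    induction t using Multiset.induction_on with
    | empty => intro _; simp
    | cons b t ih =>
      intro hb
      rw [Multiset.prod_cons, norm_mul, Multiset.card_cons, pow_succ, mul_comm]
      exact mul_le_mul (ih fun r hr => hb r (Multiset.mem_cons_of_mem hr))
        (hb b (Multiset.mem_cons_self b t)) (norm_nonneg _) (by positivity)
  have h14 : |((q.coeff 0 : ℚ) : ℝ)| ≤ (max 1 S) ^ n := by
    rw [h10]
    have := h13 (q.aroots ℂ) fun r hr => (h.conj r hr).trans (le_max_right _ _)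
    rwa [hcard] at this
  have hnm : n ≤ m := h.deg
  have h15 : ((P.coeff 0).natAbs : ℝ) ≤ ((D : ℝ) * max 1 S) ^ m := by
    have h8 : ((P.coeff 0 : ℤ) : ℝ) = ((q.coeff 0 : ℚ) : ℝ) * (D : ℝ) ^ n := by
      exact_mod_cast congrArg (fun x : ℚ => (x : ℝ)) h3
    have h16 : ((P.coeff 0).natAbs : ℝ) = |((P.coeff 0 : ℤ) : ℝ)| := by
      rw [Nat.cast_natAbs, Int.cast_abs]
    rw [h16, h8, abs_mul, abs_of_nonneg (by positivity : (0 : ℝ) ≤ (D : ℝ) ^ n)]
    calc |((q.coeff 0 : ℚ) : ℝ)| * (D : ℝ) ^ n ≤ (max 1 S) ^ n * (D : ℝ) ^ n :=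
          mul_le_mul_of_nonneg_right h14 (by positivity)
      _ = ((D : ℝ) * max 1 S) ^ n := by rw [mul_pow, mul_comm]
      _ ≤ ((D : ℝ) * max 1 S) ^ m := pow_le_pow_right₀ (one_le_mul_of_one_le_of_one_le hD1 hT) hnm
  have hrev : Polynomial.aeval α⁻¹ q.reverse = 0 := by
    let _ : Invertible α := invertibleOfNonzero h0
    have := (Polynomial.eval₂_reverse_eq_zero_iff (algebraMap ℚ ℂ) α q).2 (minpoly.aeval ℚ α)
    rwa [invOf_eq_inv] at this
  have hrev0 : q.reverse ≠ 0 := by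
    rw [Ne, Polynomial.reverse_eq_zero]
    exact minpoly.ne_zero hα
  refine ⟨(P.coeff 0).natAbs, Int.natAbs_pos.2 h5, h15, ?_, ?_, ?_, ?_⟩
  · exact ⟨q.reverse, hrev0, hrev⟩
  · -- integrality
    have h20 : IsIntegral ℤ (((P.coeff 0 : ℤ) : ℂ) * α⁻¹) := by
      have h21 : Polynomial.aeval ((D : ℂ) * α) P = 0 := minpoly.aeval ℤ _
      rw [← Polynomial.divX_mul_X_add P, map_add, map_mul, Polynomial.aeval_X, Polynomial.aeval_C] at h21
      have h22 : ((P.coeff 0 : ℤ) : ℂ) * α⁻¹ = -(Polynomial.aeval ((D : ℂ) * α) P.divX) * (D : ℂ) := by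
        have h23 : ((P.coeff 0 : ℤ) : ℂ) = -(Polynomial.aeval ((D : ℂ) * α) P.divX * ((D : ℂ) * α)) := by
          have h24 : (algebraMap ℤ ℂ) (P.coeff 0) = ((P.coeff 0 : ℤ) : ℂ) := rfl
          rw [h24] at h21
          linear_combination h21
        rw [h23]
        field_simp
      rw [h22]
      refine IsIntegral.mul (IsIntegral.neg ?_) (C1m_nat_int D)
      exact IsIntegral.of_mem_of_fg _ hint.fg_adjoin_singleton _
        (Polynomial.aeval_mem_adjoin_singleton ℤ _)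
    have h30 : (((P.coeff 0).natAbs : ℕ) : ℂ) = ((P.coeff 0 : ℤ) : ℂ) ∨
        (((P.coeff 0).natAbs : ℕ) : ℂ) = -((P.coeff 0 : ℤ) : ℂ) := by
      rcases Int.natAbs_eq (P.coeff 0) with h | h
      · left
        conv_rhs => rw [h]
        simp
      · right
        conv_rhs => rw [h]
        simp
    rcases h30 with h30 | h30
    · rw [h30]; exact h20
    · rw [h30, neg_mul]; exact h20.neg
  · have h40 : minpoly ℚ α⁻¹ ∣ q.reverse := minpoly.dvd ℚ _ hrev
    exact (Polynomial.natDegree_le_of_dvd h40 hrev0).trans ((Polynomial.reverse_natDegree_le q).trans hnm)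
  · intro r' hr'
    have h40 : minpoly ℚ α⁻¹ ∣ q.reverse := minpoly.dvd ℚ _ hrev
    have h41 : Polynomial.aeval r' q.reverse = 0 := by
      obtain ⟨g, hg⟩ := h40
      rw [hg, map_mul, (Polynomial.mem_aroots.1 hr').2, zero_mul]
    have h42 : r' ≠ 0 := by
      rintro rfl
      rw [Polynomial.aeval_def, Polynomial.eval₂_at_zero, Polynomial.coeff_zero_reverse,
        (minpoly.monic hα).leadingCoeff] at h41
      simp at h41
    have h43 : r'⁻¹ ∈ q.aroots ℂ := by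
      rw [Polynomial.mem_aroots]
      refine ⟨minpoly.ne_zero hα, ?_⟩
      let _ : Invertible r'⁻¹ := invertibleOfNonzero (inv_ne_zero h42)
      refine (Polynomial.eval₂_reverse_eq_zero_iff (algebraMap ℚ ℂ) r'⁻¹ q).1 ?_
      rw [invOf_eq_inv, inv_inv]
      exact h41
    have h44 := (q10_ctrl_conj h hD h43).lower hD (inv_ne_zero h42)
    rw [norm_inv] at h44
    have h45 : 0 < ‖r'‖ := norm_pos_iff.2 h42
    rw [mul_assoc, ← div_eq_inv_mul, le_div_iff₀ h45, one_mul] at h44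
    exact h44

/-- Q10b. PROOF. From Q10a (estimates as in `PC.lower`, `C2_PC.lean`). -/
theorem PC.inv {X : Type*} {B : X → ℕ} (hB : ∀ x, 2 ≤ B x) {α : X → ℂ} (h : PC B α) (h0 : ∀ x, α x ≠ 0) :
    PC B (fun x => (α x)⁻¹) := by
  obtain ⟨C, hC⟩ := h
  refine ⟨C + C + 1, fun x => ?_⟩
  obtain ⟨m, D, S, h1, h2, h3, h4, h5⟩ := hC x
  obtain ⟨D', g1, g2, g3⟩ := h1.inv h2 (h0 x)
  have hb : (2 : ℝ) ≤ B x := by exact_mod_cast hB x
  have a3 := C2_two_mul hb (C + C)
  have hp : (0 : ℝ) ≤ (B x : ℝ) ^ C := by positivity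
  have key : ∀ T : ℝ, 0 ≤ T → T ≤ Real.exp ((B x : ℝ) ^ C) → T ^ m ≤ Real.exp ((B x : ℝ) ^ (C + C)) := by
    intro T hT0 hT
    calc T ^ m ≤ Real.exp ((B x : ℝ) ^ C) ^ m := pow_le_pow_left₀ hT0 hT m
      _ = Real.exp ((m : ℝ) * (B x : ℝ) ^ C) := (Real.exp_nat_mul _ _).symm
      _ ≤ _ := Real.exp_le_exp.2 (by rw [pow_add]; exact mul_le_mul_of_nonneg_right h3 hp)
  have k1 := key (D : ℝ) (Nat.cast_nonneg _) h4
  have k2 := key (max 1 S) (by positivity) (max_le (Real.one_le_exp hp) h5)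
  have k3 : (D : ℝ) ^ m * (max 1 S) ^ m ≤ Real.exp ((B x : ℝ) ^ (C + C + 1)) := by
    calc (D : ℝ) ^ m * (max 1 S) ^ m
        ≤ Real.exp ((B x : ℝ) ^ (C + C)) * Real.exp ((B x : ℝ) ^ (C + C)) :=
          mul_le_mul k1 k2 (by positivity) (Real.exp_nonneg _)
      _ = Real.exp ((B x : ℝ) ^ (C + C) + (B x : ℝ) ^ (C + C)) := by rw [Real.exp_add]
      _ ≤ _ := Real.exp_le_exp.2 (by linarith)
  refine ⟨m, D', _, g3, g1, ?_, ?_, k3⟩
  · exact h3.trans (C2_pow_mono hb (by omega))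
  · rw [mul_pow] at g2
    exact g2.trans k3

end Pool.Agent.MSD
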