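import Pool.Agent.Lib.MP_f58a57_nt.Q00_Defs
import Pool.Agent.Lib.MP_f58a57_nt.C3_PcValues

/-! # Q11: the members of the families at √(-D) as PC families (MP_f58a57_nt) -/

open Complex ModularForm EisensteinSeries Filter
open UpperHalfPlane hiding I
open scoped Topology MatrixGroups Polynomial

noncomputable section

namespace Pool.Agent.MSD

/-- Q11a. PROOF. As `pc_GrFam` (`C3_PcValues.lean`), from `UCtrl.ctrl`: `D x + N x + 1 ≤ 3 (B x)^K ≤ (B x)^(K+2)`. -/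
theorem pc_GrU {X : Type*} {B : X → ℕ} (hB : ∀ x, 2 ≤ B x) {Om : ℕ → ℂ} {C : ℕ} (hO : UCtrl Om C) (κ : Fin 3)
    (D N : X → ℕ) (hD : ∀ x, 0 < D x) (hN : ∀ x, 0 < N x) (K : ℕ) (hDK : ∀ x, D x ≤ B x ^ K) (hNK : ∀ x, N x ≤ B x ^ K)
    (ρ : X → (Σ _ : ℕ × ℕ, ℕ)) (hρ : ∀ x, ρ x ∈ TT (N x)) :
    PC B (fun x => Gr κ (rt (D x)) (ρ x) / Om (D x) ^ kwt κ) := by
  have hch := fun x => hO.ctrl (D x) (hD x) κ (N x) (hN x) (ρ x) (hρ x)
  choose n S hc hn hS using hch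
  have hsum : ∀ x, D x + N x + 1 ≤ B x ^ (K + 2) := by
    intro x
    have h1 := hDK x
    have h2 := hNK x
    have h3 : 1 ≤ B x ^ K := Nat.one_le_pow _ _ (by have := hB x; omega)
    have h4 : 2 ^ 2 ≤ B x ^ 2 := Nat.pow_le_pow_left (hB x) 2
    calc D x + N x + 1 ≤ B x ^ K * 4 := by omega
      _ ≤ B x ^ K * B x ^ 2 := Nat.mul_le_mul_left _ (by omega)
      _ = B x ^ (K + 2) := by rw [← pow_add]
  have hpow : ∀ x, (D x + N x + 1) ^ C ≤ B x ^ ((K + 2) * C + 4 * K) := by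
    intro x
    calc (D x + N x + 1) ^ C ≤ (B x ^ (K + 2)) ^ C := Nat.pow_le_pow_left (hsum x) C
      _ = B x ^ ((K + 2) * C) := by rw [← pow_mul]
      _ ≤ B x ^ ((K + 2) * C + 4 * K) := Nat.pow_le_pow_right (by have := hB x; omega) (by omega)
  have hpowR : ∀ x, (((D x + N x + 1 : ℕ) : ℝ)) ^ C ≤ (B x : ℝ) ^ ((K + 2) * C + 4 * K) := by
    intro x
    exact_mod_cast hpow x
  refine ⟨(K + 2) * C + 4 * K, fun x => ⟨n x, (N x ^ 2).factorial, S x, hc x,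
    Nat.factorial_pos _, ?_, ?_, ?_⟩⟩
  · exact_mod_cast (hn x).trans (hpowR x)
  · have h1 : ((N x ^ 2).factorial : ℝ) ≤ ((N x ^ 2 : ℕ) : ℝ) ^ (N x ^ 2) := by
      exact_mod_cast Nat.factorial_le_pow (N x ^ 2)
    have h2 : (0 : ℝ) < ((N x ^ 2 : ℕ) : ℝ) := by
      have := hN x
      positivity
    have h3 : ((N x ^ 2 : ℕ) : ℝ) ^ (N x ^ 2) ≤ Real.exp (((N x ^ 4 : ℕ) : ℝ)) := by
      have h4 : ((N x ^ 2 : ℕ) : ℝ) ≤ Real.exp ((N x ^ 2 : ℕ) : ℝ) :=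
        (le_add_of_nonneg_right zero_le_one).trans (Real.add_one_le_exp _)
      refine (pow_le_pow_left₀ h2.le h4 _).trans (le_of_eq ?_)
      rw [← Real.exp_nat_mul]
      congr 1
      push_cast
      ring
    refine h1.trans (h3.trans (Real.exp_le_exp.2 ?_))
    have h5 : N x ^ 4 ≤ B x ^ ((K + 2) * C + 4 * K) := by
      calc N x ^ 4 ≤ (B x ^ K) ^ 4 := Nat.pow_le_pow_left (hNK x) 4
        _ = B x ^ (K * 4) := by rw [← pow_mul]
        _ ≤ B x ^ ((K + 2) * C + 4 * K) := by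
            apply Nat.pow_le_pow_right (by have := hB x; omega)
            omega
    exact_mod_cast h5
  · exact (hS x).trans (Real.exp_le_exp.2 (hpowR x))

/-- Q11b. PROOF. `b8d_mem` (`B8d_E2.lean`): `-2 D e2s(√(-D)) = Gr 2 (√(-D)) ρ` with `ρ ∈ TT D`; Q11a with `N = D`, and the rational factor `-1/(2 D x)` (`pc_ratFam`). -/
theorem pc_e2U {X : Type*} {B : X → ℕ} (hB : ∀ x, 2 ≤ B x) {Om : ℕ → ℂ} {C : ℕ} (hO : UCtrl Om C)
    (D : X → ℕ) (hD : ∀ x, 0 < D x) (K : ℕ) (hDK : ∀ x, D x ≤ B x ^ K) :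
    PC B (fun x => e2s (rt (D x)) / Om (D x) ^ 2) := by
  have hch := fun x => b8d_mem (D x) (hD x)
  choose ρ hρ hG using hch
  have h1 := pc_GrU hB hO 2 D D hD hD K hDK hDK ρ hρ
  have h2 : PC B (fun x => (((-1 / (2 * (D x : ℚ)) : ℚ)) : ℂ)) := by
    refine pc_ratFam _ (K + 1) (fun x => ?_) (fun x => ?_)
    · have e : (-1 / (2 * (D x : ℚ)) : ℚ) = -(((2 * D x : ℕ) : ℚ)⁻¹) := by
        push_cast
        rw [neg_div, one_div]
      rw [e, Rat.neg_den, Rat.inv_natCast_den_of_pos (by have := hD x; omega)]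
      calc 2 * D x ≤ B x * B x ^ K := Nat.mul_le_mul (hB x) (hDK x)
        _ = B x ^ (K + 1) := by rw [pow_succ, mul_comm]
    · have h3 : (1 : ℝ) ≤ (D x : ℝ) := by exact_mod_cast hD x
      have h4 : (1 : ℝ) ≤ (B x : ℝ) ^ (K + 1) := one_le_pow₀ (by
        have := hB x
        exact_mod_cast (by omega : 1 ≤ B x))
      push_cast
      rw [abs_div, abs_neg, abs_one, abs_of_nonneg (by positivity)]
      refine le_trans ?_ h4
      rw [div_le_one (by linarith)]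
      linarith
  have h3 := PC.mul hB h1 h2
  refine (congrArg (PC _) ?_).mp h3
  funext x
  have hD0 : (D x : ℂ) ≠ 0 := Nat.cast_ne_zero.2 (hD x).ne'
  have hΩ0 := (hO.base (D x) (hD x)).ne
  show Gr 2 (rt (D x)) (ρ x) / Om (D x) ^ 2 * _ = _
  rw [hG x]
  push_cast
  field_simp

end Pool.Agent.MSD
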