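import Pool.Agent.Lib.MP_f58a57_nt.Q00_Defs
import Pool.Agent.Lib.MP_f58a57_nt.M10_Coords

/-! # Q12: coordinates of the CM points (MP_f58a57_nt) -/

open Complex ModularForm EisensteinSeries Filter
open UpperHalfPlane hiding I
open scoped Topology MatrixGroups Polynomial

noncomputable section

namespace Pool.Agent.MSD

theorem Dn_pos (q : ℚ) (hq : 0 < q) : 0 < Dn q := by
  have h1 : 0 < q.num := Rat.num_pos.2 hq
  unfold Dn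
  exact Nat.mul_pos (by omega) q.den_pos

theorem q12_num (q : ℚ) (hq : 0 < q) : (q : ℝ) = (q.num.toNat : ℝ) / (q.den : ℝ) := by
  have h1 : 0 < q.num := Rat.num_pos.2 hq
  have h2 : ((q.num.toNat : ℤ) : ℝ) = (q.num : ℝ) := by rw [Int.toNat_of_nonneg h1.le]
  have h3 : (q.num.toNat : ℝ) = (q.num : ℝ) := by exact_mod_cast h2
  rw [h3]
  exact Rat.cast_def q

/-- Q12a. PROOF. `q = α/β`, `√q = √(αβ)/β`; `Complex.ofReal_cpow`, `Real.sqrt_eq_rpow`. -/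
theorem isq_eq (q : ℚ) (hq : 0 < q) : I * ((q : ℚ) : ℂ) ^ (1 / 2 : ℂ) = rt (Dn q) / (q.den : ℂ) := by
  have hqR : (0 : ℝ) < (q : ℝ) := by exact_mod_cast hq
  have hden : (0 : ℝ) < (q.den : ℝ) := by exact_mod_cast q.den_pos
  have h1 : ((q : ℚ) : ℂ) ^ (1 / 2 : ℂ) = ((Real.sqrt (q : ℝ) : ℝ) : ℂ) := by
    rw [Real.sqrt_eq_rpow, Complex.ofReal_cpow hqR.le]
    push_cast
    rfl
  have h2 : Real.sqrt (q : ℝ) = Real.sqrt (Dn q : ℕ) / (q.den : ℝ) := by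
    have h3 : (q : ℝ) = ((Dn q : ℕ) : ℝ) / (q.den : ℝ) ^ 2 := by
      rw [q12_num q hq, Dn]
      push_cast
      field_simp
    rw [h3, Real.sqrt_div (Nat.cast_nonneg _), Real.sqrt_sq hden.le]
  rw [h1, h2, rt]
  push_cast
  ring

theorem q12_den_le {m : ℕ} (x : Fin m → ℚ) (b : Fin m) : (x b).den ≤ Bd x := by
  unfold Bd
  have := Finset.single_le_sum (f := fun l => (x l).den) (fun l _ => Nat.zero_le _) (Finset.mem_univ b)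
  exact this.trans (by omega)

theorem q12_num_le (q : ℚ) (hq : 0 < q) (R' : ℕ) (h : |(q : ℝ)| ≤ R') : q.num.toNat ≤ R' * q.den := by
  have hqR : (0 : ℝ) < (q : ℝ) := by exact_mod_cast hq
  have hden : (0 : ℝ) < (q.den : ℝ) := by exact_mod_cast q.den_pos
  rw [abs_of_pos hqR, q12_num q hq, div_le_iff₀ hden] at h
  exact_mod_cast h

theorem q12_Dn_le (q : ℚ) (hq : 0 < q) (R' : ℕ) (h : |(q : ℝ)| ≤ R') : Dn q ≤ R' * q.den ^ 2 := by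
  unfold Dn
  calc q.num.toNat * q.den ≤ (R' * q.den) * q.den := Nat.mul_le_mul_right _ (q12_num_le q hq R' h)
    _ = R' * q.den ^ 2 := by ring

/-- Q12b. PROOF. `num ≤ R den`, `den ≤ Bd x`. -/
theorem Dn_le {m : ℕ} (R : ℝ) : ∃ C : ℕ, ∀ (x : Fin m → ℚ) (b : Fin m), |(x b : ℝ)| ≤ R → 0 < x b → Dn (x b) ≤ Bd x ^ C := by
  obtain ⟨R', hR'⟩ := exists_nat_ge R
  refine ⟨R' + 2, fun x b hx hb => ?_⟩
  have h1 := q12_Dn_le (x b) hb R' (hx.trans hR')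
  have h7 : 2 ≤ Bd x := by unfold Bd; omega
  have h8 : R' ≤ Bd x ^ R' := (Nat.lt_two_pow_self).le.trans (Nat.pow_le_pow_left h7 R')
  calc Dn (x b) ≤ R' * (x b).den ^ 2 := h1
    _ ≤ Bd x ^ R' * Bd x ^ 2 := Nat.mul_le_mul h8 (Nat.pow_le_pow_left (q12_den_le x b) 2)
    _ = Bd x ^ (R' + 2) := by rw [← pow_add]

/-- the coordinates of `tw I b x` -/
theorem q12_tw {m : ℕ} (b : Fin m) (R' : ℕ) (x : Fin m → ℚ) (hx : ∀ l, |(x l : ℝ)| ≤ R') (hb : 0 < x b) (l : Fin m) :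
    ∃ a e : ℤ, (m10_B x : ℂ) * tw I b (fun l => ((x l : ℚ) : ℂ)) l = a + e * rt (Dn (x b)) ∧
      |a| ≤ (R' : ℤ) * (m10_B x : ℤ) ∧ |e| ≤ (m10_B x : ℤ) := by
  have hdvd : ∀ l, (x l).den ∣ m10_B x := fun l =>
    Finset.dvd_prod_of_mem (fun i => (x i).den) (Finset.mem_univ l)
  by_cases hl : l = b
  · subst hl
    obtain ⟨β', hβ⟩ := hdvd l
    have hden : ((x l).den : ℂ) ≠ 0 := by exact_mod_cast (x l).den_pos.ne'
    refine ⟨0, β', ?_, ?_, ?_⟩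
    · rw [tw, Function.update_self, isq_eq (x l) hb, hβ]
      push_cast
      field_simp
      ring
    · rw [abs_zero]
      positivity
    · rw [abs_of_nonneg (Int.natCast_nonneg _), hβ]
      have h1 : β' ≤ (x l).den * β' := Nat.le_mul_of_pos_left _ (x l).den_pos
      exact_mod_cast h1
  · obtain ⟨k, hk⟩ := C3a_mul_int (x l) (m10_B x) (hdvd l)
    have hkb : |k| ≤ (R' : ℤ) * (m10_B x : ℤ) := by
      have h2 : (m10_B x : ℝ) * (x l : ℝ) = (k : ℝ) := by exact_mod_cast hk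
      have h3 : |(k : ℝ)| ≤ (R' : ℝ) * (m10_B x : ℝ) := by
        rw [← h2, abs_mul, abs_of_nonneg (Nat.cast_nonneg _), mul_comm]
        exact mul_le_mul_of_nonneg_right (hx l) (Nat.cast_nonneg _)
      exact_mod_cast h3
    refine ⟨k, 0, ?_, hkb, ?_⟩
    · rw [tw, Function.update_of_ne hl, hk]
      push_cast
      ring
    · rw [abs_zero]
      positivity

theorem q12_D_le {m : ℕ} (b : Fin m) (R' : ℕ) (x : Fin m → ℚ) (hx : ∀ l, |(x l : ℝ)| ≤ R') (hb : 0 < x b) :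
    (Dn (x b) : ℤ) ≤ (R' : ℤ) * (m10_B x : ℤ) ^ 2 := by
  have h1 := q12_Dn_le (x b) hb R' (hx b)
  have h2 : (x b).den ≤ m10_B x := Nat.le_of_dvd (m10_B_pos x)
    (Finset.dvd_prod_of_mem (fun i => (x i).den) (Finset.mem_univ b))
  have h3 : Dn (x b) ≤ R' * (m10_B x) ^ 2 := h1.trans (Nat.mul_le_mul_left _ (Nat.pow_le_pow_left h2 2))
  exact_mod_cast h3

/-- coordinates of the values of a polynomial -/
theorem q12_poly {m : ℕ} (b : Fin m) (R' : ℕ) (P : MvPolynomial (Fin m) ℚ) :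
    ∃ M E K E' : ℕ, 0 < M ∧ ∀ x : Fin m → ℚ, (∀ l, |(x l : ℝ)| ≤ R') → 0 < x b → ∃ n1 n2 : ℤ,
      ((M : ℂ) * (m10_B x : ℂ) ^ E) * MvPolynomial.aeval (tw I b (fun l => ((x l : ℚ) : ℂ))) P = n1 + n2 * rt (Dn (x b)) ∧
      |n1| ≤ (K : ℤ) * (m10_B x : ℤ) ^ E' ∧ |n2| ≤ (K : ℤ) * (m10_B x : ℤ) ^ E' := by
  induction P using MvPolynomial.induction_on with
  | C c =>
    obtain ⟨k1, hk1⟩ := C3a_mul_int c c.den (dvd_refl _)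
    refine ⟨c.den, 0, k1.natAbs, 0, c.den_pos, fun x _ _ => ⟨k1, 0, ?_, ?_, ?_⟩⟩
    · rw [MvPolynomial.aeval_C, pow_zero, mul_one]
      have h1 : (algebraMap ℚ ℂ) c = (c : ℂ) := rfl
      rw [h1, hk1]
      push_cast
      ring
    · rw [pow_zero, mul_one]
      push_cast
      exact le_rfl
    · rw [pow_zero, mul_one, abs_zero]
      positivity
  | add p q hp hq =>
    obtain ⟨M1, E1, K1, F1, hM1, h1⟩ := hp
    obtain ⟨M2, E2, K2, F2, hM2, h2⟩ := hq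
    refine ⟨M1 * M2, E1 + E2, M2 * K1 + M1 * K2, E1 + E2 + F1 + F2, Nat.mul_pos hM1 hM2, fun x hx hb => ?_⟩
    obtain ⟨a1, a2, ha, ha1, ha2⟩ := h1 x hx hb
    obtain ⟨b1, b2, hb', hb1, hb2⟩ := h2 x hx hb
    have hB : (0 : ℤ) < (m10_B x : ℤ) := by exact_mod_cast m10_B_pos x
    obtain ⟨B, hBe⟩ : ∃ B : ℤ, B = (m10_B x : ℤ) := ⟨_, rfl⟩
    have hBc : (m10_B x : ℂ) = (B : ℂ) := by rw [hBe]; push_cast; rfl
    rw [← hBe] at hB ha1 ha2 hb1 hb2 ⊢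
    rw [hBc] at ha hb' ⊢
    have hB1 : 1 ≤ B := hB
    have hbound : ∀ a b : ℤ, |a| ≤ (K1 : ℤ) * B ^ F1 → |b| ≤ (K2 : ℤ) * B ^ F2 →
        |(M2 : ℤ) * B ^ E2 * a + (M1 : ℤ) * B ^ E1 * b| ≤ ((M2 * K1 + M1 * K2 : ℕ) : ℤ) * B ^ (E1 + E2 + F1 + F2) := by
      intro a b h3 h4
      have e1 : 0 ≤ (M2 : ℤ) * B ^ E2 := by positivity
      have e2 : 0 ≤ (M1 : ℤ) * B ^ E1 := by positivity
      have e3 : B ^ (E2 + F1) ≤ B ^ (E1 + E2 + F1 + F2) := pow_le_pow_right₀ hB1 (by omega)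
      have e4 : B ^ (E1 + F2) ≤ B ^ (E1 + E2 + F1 + F2) := pow_le_pow_right₀ hB1 (by omega)
      calc |(M2 : ℤ) * B ^ E2 * a + (M1 : ℤ) * B ^ E1 * b|
          ≤ |(M2 : ℤ) * B ^ E2 * a| + |(M1 : ℤ) * B ^ E1 * b| := abs_add_le _ _
        _ = (M2 : ℤ) * B ^ E2 * |a| + (M1 : ℤ) * B ^ E1 * |b| := by
            rw [abs_mul ((M2 : ℤ) * B ^ E2) a, abs_mul ((M1 : ℤ) * B ^ E1) b, abs_of_nonneg e1, abs_of_nonneg e2]
        _ ≤ (M2 : ℤ) * B ^ E2 * ((K1 : ℤ) * B ^ F1) + (M1 : ℤ) * B ^ E1 * ((K2 : ℤ) * B ^ F2) := by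
            gcongr
        _ = ((M2 * K1 : ℕ) : ℤ) * B ^ (E2 + F1) + ((M1 * K2 : ℕ) : ℤ) * B ^ (E1 + F2) := by
            push_cast; ring
        _ ≤ ((M2 * K1 : ℕ) : ℤ) * B ^ (E1 + E2 + F1 + F2) + ((M1 * K2 : ℕ) : ℤ) * B ^ (E1 + E2 + F1 + F2) := by
            gcongr
        _ = ((M2 * K1 + M1 * K2 : ℕ) : ℤ) * B ^ (E1 + E2 + F1 + F2) := by
            push_cast; ring
    refine ⟨(M2 : ℤ) * B ^ E2 * a1 + (M1 : ℤ) * B ^ E1 * b1, (M2 : ℤ) * B ^ E2 * a2 + (M1 : ℤ) * B ^ E1 * b2, ?_,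
      hbound _ _ ha1 hb1, hbound _ _ ha2 hb2⟩
    rw [map_add]
    push_cast
    linear_combination ((M2 : ℂ) * (B : ℂ) ^ E2) * ha + ((M1 : ℂ) * (B : ℂ) ^ E1) * hb'
  | mul_X p l hp =>
    obtain ⟨M, E, K, F, hM, h1⟩ := hp
    refine ⟨M, E + 1, K * (2 * R' + 1), F + 3, hM, fun x hx hb => ?_⟩
    obtain ⟨n1, n2, hn, hn1, hn2⟩ := h1 x hx hb
    obtain ⟨a, e, hae, ha, he⟩ := q12_tw b R' x hx hb l
    have hD := q12_D_le b R' x hx hb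
    have hsq := C3a_rt_sq (Dn (x b))
    have hB : (0 : ℤ) < (m10_B x : ℤ) := by exact_mod_cast m10_B_pos x
    obtain ⟨D, hDe⟩ : ∃ D : ℕ, D = Dn (x b) := ⟨_, rfl⟩
    obtain ⟨B, hBe⟩ : ∃ B : ℤ, B = (m10_B x : ℤ) := ⟨_, rfl⟩
    have hBc : (m10_B x : ℂ) = (B : ℂ) := by rw [hBe]; push_cast; rfl
    rw [← hDe] at hn hae hD hsq ⊢
    rw [← hBe] at hB hn1 hn2 ha he hD ⊢
    rw [hBc] at hn hae ⊢
    have hB1 : 1 ≤ B := hB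
    have hB1' : B ^ (F + 1) ≤ B ^ (F + 3) := pow_le_pow_right₀ hB1 (by omega)
    have hKB : (0 : ℤ) ≤ (K : ℤ) * B ^ F := by positivity
    refine ⟨n1 * a - n2 * e * D, n1 * e + n2 * a, ?_, ?_, ?_⟩
    · rw [map_mul, MvPolynomial.aeval_X]
      push_cast
      linear_combination (a + e * rt D) * hn + ((M : ℂ) * (B : ℂ) ^ E *
        MvPolynomial.aeval (tw I b (fun l => ((x l : ℚ) : ℂ))) p) * hae + (n2 : ℂ) * e * hsq
    · calc |n1 * a - n2 * e * D| ≤ |n1 * a| + |n2 * e * D| := abs_sub _ _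
        _ = |n1| * |a| + |n2| * |e| * D := by
            rw [abs_mul, abs_mul, abs_mul, abs_of_nonneg (Int.natCast_nonneg D)]
        _ ≤ ((K : ℤ) * B ^ F) * ((R' : ℤ) * B) + ((K : ℤ) * B ^ F) * B * ((R' : ℤ) * B ^ 2) := by
            gcongr
        _ = ((K : ℤ) * R') * B ^ (F + 1) + ((K : ℤ) * R') * B ^ (F + 3) := by ring
        _ ≤ ((K : ℤ) * R') * B ^ (F + 3) + ((K : ℤ) * R') * B ^ (F + 3) := by gcongr
        _ ≤ ((K : ℤ) * R') * B ^ (F + 3) + ((K : ℤ) * R') * B ^ (F + 3) + (K : ℤ) * B ^ (F + 3) :=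
            le_add_of_nonneg_right (by positivity)
        _ = ((K * (2 * R' + 1) : ℕ) : ℤ) * B ^ (F + 3) := by push_cast; ring
    · calc |n1 * e + n2 * a| ≤ |n1 * e| + |n2 * a| := abs_add_le _ _
        _ = |n1| * |e| + |n2| * |a| := by rw [abs_mul, abs_mul]
        _ ≤ ((K : ℤ) * B ^ F) * B + ((K : ℤ) * B ^ F) * ((R' : ℤ) * B) := by
            gcongr
        _ = ((K : ℤ) * (R' + 1)) * B ^ (F + 1) := by ring
        _ ≤ ((K : ℤ) * (R' + 1)) * B ^ (F + 3) := by gcongr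
        _ ≤ ((K : ℤ) * (R' + 1)) * B ^ (F + 3) + ((K : ℤ) * R') * B ^ (F + 3) :=
            le_add_of_nonneg_right (by positivity)
        _ = ((K * (2 * R' + 1) : ℕ) : ℤ) * B ^ (F + 3) := by push_cast; ring

/-- Q12c. PROOF. As `m10_poly` and `cm_coordsM` (`M10_Coords.lean`). For every `P : MvPolynomial (Fin m) ℚ` there are `M > 0, E, K, E'` with: for all `x` as below there are integers `n₁, n₂` with
`M (m10_B x)^E P(tw I b x) = n₁ + n₂ rt (Dn (x b))` and `|n₁|, |n₂| ≤ K (m10_B x)^E'`: induction on `P`. For the step `P ↦ P X_b` use `i√(x b) = rt D/β` (`isq_eq`), `β = (x b).den`, `m10_B x = β β'`, `rt D ^ 2 = -D`: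
`M B^(E+1) (P X_b) = (n₁ + n₂ rt D) β' rt D = -n₂ β' D + n₁ β' rt D` and `β' D ≤ R' β' β² ≤ R' B²`. The other step as in `m10_poly`.
Then `m10_core` with `d = Dn (x b)` (common factor `Z`), `C3a_qr_bound`, and `D ≤ R' B²` to absorb the factor `1 + D`. -/
theorem coordsQ {m : ℕ} (b : Fin m) (U W : MvPolynomial (Fin m) ℚ) (R : ℝ) : ∃ C : ℕ, ∀ x : Fin m → ℚ,
    (∀ l, |(x l : ℝ)| ≤ R) → 0 < x b → 0 < (zq I b U W (fun l => ((x l : ℚ) : ℂ))).im →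
      ∃ (q r : ℕ) (p : ℤ), 0 < q ∧ 0 < r ∧ q * r ≤ Bd x ^ C ∧
        zq I b U W (fun l => ((x l : ℚ) : ℂ)) = (q * rt (Dn (x b)) + p) / r := by
  obtain ⟨R', hR'⟩ := exists_nat_ge R
  obtain ⟨M1, E1, K1, F1, hM1, h1⟩ := q12_poly b R' U
  obtain ⟨M2, E2, K2, F2, hM2, h2⟩ := q12_poly b R' W
  obtain ⟨K, hK⟩ : ∃ K : ℕ, K = M2 * K1 + M1 * K2 := ⟨_, rfl⟩
  obtain ⟨T, hT⟩ : ∃ T : ℕ, T = E1 + E2 + F1 + F2 := ⟨_, rfl⟩
  obtain ⟨C0, hC0⟩ : ∃ C0 : ℕ, C0 = 2 * (1 + R') * K ^ 4 := ⟨_, rfl⟩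
  refine ⟨C0 + m * (4 * T + 2), fun x hx hb him => ?_⟩
  have hx' : ∀ l, |(x l : ℝ)| ≤ R' := fun l => (hx l).trans hR'
  obtain ⟨a1, a2, ha, ha1, ha2⟩ := h1 x hx' hb
  obtain ⟨b1, b2, hb', hb1, hb2⟩ := h2 x hx' hb
  have hDpos := Dn_pos (x b) hb
  have hDle := q12_D_le b R' x hx' hb
  have hB : (0 : ℤ) < (m10_B x : ℤ) := by exact_mod_cast m10_B_pos x
  have hBle := m10_B_le x
  obtain ⟨d, hd⟩ : ∃ d : ℕ, d = Dn (x b) := ⟨_, rfl⟩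
  obtain ⟨B, hBe⟩ : ∃ B : ℤ, B = (m10_B x : ℤ) := ⟨_, rfl⟩
  have hBc : (m10_B x : ℂ) = (B : ℂ) := by rw [hBe]; push_cast; rfl
  rw [← hd] at ha hb' hDpos hDle ⊢
  rw [← hBe] at hB ha1 ha2 hb1 hb2 hDle
  rw [hBc] at ha hb'
  have hB1 : 1 ≤ B := hB
  obtain ⟨t, ht⟩ : ∃ t : ℤ, t = B ^ T := ⟨_, rfl⟩
  have htpos : 0 < t := by rw [ht]; positivity
  have hbU : ∀ a : ℤ, |a| ≤ (K1 : ℤ) * B ^ F1 → |(M2 : ℤ) * B ^ E2 * a| ≤ (K : ℤ) * t := by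
    intro a h3
    have e1 : 0 ≤ (M2 : ℤ) * B ^ E2 := by positivity
    have e3 : B ^ (E2 + F1) ≤ t := by rw [ht, hT]; exact pow_le_pow_right₀ hB1 (by omega)
    rw [abs_mul, abs_of_nonneg e1]
    calc (M2 : ℤ) * B ^ E2 * |a| ≤ (M2 : ℤ) * B ^ E2 * ((K1 : ℤ) * B ^ F1) := by gcongr
      _ = ((M2 * K1 : ℕ) : ℤ) * B ^ (E2 + F1) := by push_cast; ring
      _ ≤ ((M2 * K1 : ℕ) : ℤ) * t := by gcongr
      _ ≤ (K : ℤ) * t := by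
        rw [hK]
        have : ((M2 * K1 : ℕ) : ℤ) ≤ ((M2 * K1 + M1 * K2 : ℕ) : ℤ) := by exact_mod_cast Nat.le_add_right _ _
        gcongr
  have hbV : ∀ a : ℤ, |a| ≤ (K2 : ℤ) * B ^ F2 → |(M1 : ℤ) * B ^ E1 * a| ≤ (K : ℤ) * t := by
    intro a h3
    have e1 : 0 ≤ (M1 : ℤ) * B ^ E1 := by positivity
    have e3 : B ^ (E1 + F2) ≤ t := by rw [ht, hT]; exact pow_le_pow_right₀ hB1 (by omega)
    rw [abs_mul, abs_of_nonneg e1]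
    calc (M1 : ℤ) * B ^ E1 * |a| ≤ (M1 : ℤ) * B ^ E1 * ((K2 : ℤ) * B ^ F2) := by gcongr
      _ = ((M1 * K2 : ℕ) : ℤ) * B ^ (E1 + F2) := by push_cast; ring
      _ ≤ ((M1 * K2 : ℕ) : ℤ) * t := by gcongr
      _ ≤ (K : ℤ) * t := by
        rw [hK]
        have : ((M1 * K2 : ℕ) : ℤ) ≤ ((M2 * K1 + M1 * K2 : ℕ) : ℤ) := by exact_mod_cast Nat.le_add_left _ _
        gcongr
  have hBne : (B : ℂ) ≠ 0 := by exact_mod_cast hB.ne'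
  have hM1c : (M1 : ℂ) ≠ 0 := by exact_mod_cast hM1.ne'
  have hM2c : (M2 : ℂ) ≠ 0 := by exact_mod_cast hM2.ne'
  have hZ : (M1 : ℂ) * M2 * (B : ℂ) ^ (E1 + E2) ≠ 0 := mul_ne_zero (mul_ne_zero hM1c hM2c) (pow_ne_zero _ hBne)
  have hP : ((M1 : ℂ) * M2 * (B : ℂ) ^ (E1 + E2)) * MvPolynomial.aeval (tw I b (fun l => ((x l : ℚ) : ℂ))) U =
      (((M2 : ℤ) * B ^ E2 * a1 : ℤ) : ℂ) + (((M2 : ℤ) * B ^ E2 * a2 : ℤ) : ℂ) * rt d := by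
    push_cast
    linear_combination ((M2 : ℂ) * (B : ℂ) ^ E2) * ha
  have hQ : ((M1 : ℂ) * M2 * (B : ℂ) ^ (E1 + E2)) * MvPolynomial.aeval (tw I b (fun l => ((x l : ℚ) : ℂ))) W =
      (((M1 : ℤ) * B ^ E1 * b1 : ℤ) : ℂ) + (((M1 : ℤ) * B ^ E1 * b2 : ℤ) : ℂ) * rt d := by
    push_cast
    linear_combination ((M1 : ℂ) * (B : ℂ) ^ E1) * hb'
  obtain ⟨hq, hr, hval⟩ := m10_core d hDpos _ _ _ _ _ _ _ hZ hP hQ him
  have hqr := C3a_qr_bound (d := d) (K := (K : ℤ)) (t := t) (Int.natCast_nonneg K) htpos (hbU a1 ha1) (hbU a2 ha2)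
    (hbV b1 hb1) (hbV b2 hb2)
  obtain ⟨n1, hn1⟩ : ∃ n1 : ℤ, n1 = (M2 : ℤ) * B ^ E2 * a1 := ⟨_, rfl⟩
  obtain ⟨n2, hn2⟩ : ∃ n2 : ℤ, n2 = (M2 : ℤ) * B ^ E2 * a2 := ⟨_, rfl⟩
  obtain ⟨m1, hm1⟩ : ∃ m1 : ℤ, m1 = (M1 : ℤ) * B ^ E1 * b1 := ⟨_, rfl⟩
  obtain ⟨m2, hm2⟩ : ∃ m2 : ℤ, m2 = (M1 : ℤ) * B ^ E1 * b2 := ⟨_, rfl⟩
  rw [← hn1, ← hn2, ← hm1, ← hm2] at hq hval hqr
  rw [← hm1, ← hm2] at hr
  refine ⟨(n2 * m1 - n1 * m2).toNat, (m1 ^ 2 + d * m2 ^ 2).toNat, n1 * m1 + d * (n2 * m2), by omega, by omega, ?_, ?_⟩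
  · have hd1 : (1 + d : ℤ) ≤ (1 + R') * B ^ 2 := by
      have : (1 : ℤ) ≤ B ^ 2 := one_le_pow₀ hB1
      linarith
    have h5 : (((n2 * m1 - n1 * m2).toNat * (m1 ^ 2 + d * m2 ^ 2).toNat : ℕ) : ℤ) ≤ ((C0 * (m10_B x) ^ (4 * T + 2) : ℕ) : ℤ) := by
      push_cast
      rw [Int.toNat_of_nonneg hq.le, Int.toNat_of_nonneg hr.le]
      refine hqr.trans ?_
      calc (2 * (1 + (d : ℤ)) * (K : ℤ) ^ 4) * t ^ 4 ≤ (2 * ((1 + R') * B ^ 2) * (K : ℤ) ^ 4) * t ^ 4 := by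
            gcongr
        _ = (C0 : ℤ) * (m10_B x : ℤ) ^ (4 * T + 2) := by
            rw [hC0, ht, ← hBe]
            push_cast
            ring
    have h6 : (n2 * m1 - n1 * m2).toNat * (m1 ^ 2 + d * m2 ^ 2).toNat ≤ C0 * (m10_B x) ^ (4 * T + 2) := by
      exact_mod_cast h5
    have h7 : 2 ≤ Bd x := by unfold Bd; omega
    have h8 : C0 ≤ Bd x ^ C0 := (Nat.lt_two_pow_self).le.trans (Nat.pow_le_pow_left h7 C0)
    calc _ ≤ C0 * (m10_B x) ^ (4 * T + 2) := h6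
      _ ≤ Bd x ^ C0 * (Bd x ^ m) ^ (4 * T + 2) := Nat.mul_le_mul h8 (Nat.pow_le_pow_left hBle _)
      _ = Bd x ^ (C0 + m * (4 * T + 2)) := by rw [← pow_mul, ← pow_add]
  · have hq' : (((n2 * m1 - n1 * m2).toNat : ℕ) : ℂ) = ((n2 * m1 - n1 * m2 : ℤ) : ℂ) := by
      have : (((n2 * m1 - n1 * m2).toNat : ℕ) : ℤ) = n2 * m1 - n1 * m2 := Int.toNat_of_nonneg hq.le
      exact_mod_cast congrArg (fun z : ℤ => (z : ℂ)) this
    have hr' : (((m1 ^ 2 + d * m2 ^ 2).toNat : ℕ) : ℂ) = ((m1 ^ 2 + d * m2 ^ 2 : ℤ) : ℂ) := by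
      have : (((m1 ^ 2 + d * m2 ^ 2).toNat : ℕ) : ℤ) = m1 ^ 2 + d * m2 ^ 2 := Int.toNat_of_nonneg hr.le
      exact_mod_cast congrArg (fun z : ℤ => (z : ℂ)) this
    rw [hq', hr']
    exact hval

end Pool.Agent.MSD
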