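import Pool.Agent.Lib.MP_f58a57_nt.Q11_PcUnif
import Pool.Agent.Lib.MP_f58a57_nt.Q12_CoordsQ

/-! # Q13: the values at rational points (MP_f58a57_nt) -/

open Complex ModularForm EisensteinSeries Filter
open UpperHalfPlane hiding I
open scoped Topology MatrixGroups Polynomial

noncomputable section

namespace Pool.Agent.MSD

/-- Q13. PROOF. As `pc_valuesM` (`M11_PcM.lean`): `coordsQ`, `values_Gr (Dn (x b))`, `pc_GrU` (`N = q r`), `pc_invFam`, `pc_e2U`, `Dn_le`, `Dn_pos`. -/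
theorem pc_valuesQ {m : ℕ} {Om : ℕ → ℂ} {C : ℕ} (hO : UCtrl Om C) (b : Fin m) (U W : MvPolynomial (Fin m) ℚ) (R : ℝ) (κ : Fin 3) :
    PC (X := {x : Fin m → ℚ // (∀ l, |(x l : ℝ)| ≤ R) ∧ 0 < x b ∧ 0 < (zq I b U W (fun l => ((x l : ℚ) : ℂ))).im})
      (fun x => Bd x.1)
      (fun x => ![e2s (zq I b U W (fun l => ((x.1 l : ℚ) : ℂ))) / Om (Dn (x.1 b)) ^ 2,
        e4 (zq I b U W (fun l => ((x.1 l : ℚ) : ℂ))) / Om (Dn (x.1 b)) ^ 4,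
        e6 (zq I b U W (fun l => ((x.1 l : ℚ) : ℂ))) / Om (Dn (x.1 b)) ^ 6] κ) := by
  obtain ⟨C1, hC1⟩ := coordsQ b U W R
  obtain ⟨C2, hC2⟩ := Dn_le (m := m) R
  have hC' : ∀ x : {x : Fin m → ℚ // (∀ l, |(x l : ℝ)| ≤ R) ∧ 0 < x b ∧
      0 < (zq I b U W (fun l => ((x l : ℚ) : ℂ))).im},
      ∃ (q r : ℕ) (p : ℤ), 0 < q ∧ 0 < r ∧ q * r ≤ Bd x.1 ^ C1 ∧
      zq I b U W (fun l => ((x.1 l : ℚ) : ℂ)) = (q * rt (Dn (x.1 b)) + p) / r :=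
    fun x => hC1 x.1 x.2.1 x.2.2.1 x.2.2.2
  choose q r p hq hr hqr happ using hC'
  have hDpos : ∀ x : {x : Fin m → ℚ // (∀ l, |(x l : ℝ)| ≤ R) ∧ 0 < x b ∧
      0 < (zq I b U W (fun l => ((x l : ℚ) : ℂ))).im}, 0 < Dn (x.1 b) :=
    fun x => Dn_pos _ x.2.2.1
  have hV := fun x => values_Gr (Dn (x.1 b)) (hDpos x) (q x) (r x) (p x) (hq x) (hr x)
  choose ρ hρ h4 h6 h2 using hV
  have hB : ∀ x : {x : Fin m → ℚ // (∀ l, |(x l : ℝ)| ≤ R) ∧ 0 < x b ∧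
      0 < (zq I b U W (fun l => ((x l : ℚ) : ℂ))).im}, 2 ≤ Bd x.1 :=
    fun x => Nat.le_add_right _ _
  have hB1 : ∀ x : {x : Fin m → ℚ // (∀ l, |(x l : ℝ)| ≤ R) ∧ 0 < x b ∧
      0 < (zq I b U W (fun l => ((x l : ℚ) : ℂ))).im}, 0 < Bd x.1 :=
    fun x => Nat.lt_of_lt_of_le Nat.zero_lt_two (hB x)
  have hN : ∀ x, q x * r x ≤ Bd x.1 ^ (C1 + C2) := fun x =>
    (hqr x).trans (Nat.pow_le_pow_right (hB1 x) (Nat.le_add_right _ _))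
  have hD : ∀ x : {x : Fin m → ℚ // (∀ l, |(x l : ℝ)| ≤ R) ∧ 0 < x b ∧
      0 < (zq I b U W (fun l => ((x l : ℚ) : ℂ))).im}, Dn (x.1 b) ≤ Bd x.1 ^ (C1 + C2) := fun x =>
    (hC2 x.1 b (x.2.1 b) x.2.2.1).trans (Nat.pow_le_pow_right (hB1 x) (Nat.le_add_left _ _))
  have hq' : ∀ x, q x ≤ Bd x.1 ^ (C1 + C2) := fun x =>
    (Nat.le_mul_of_pos_right (q x) (hr x)).trans (hN x)
  have hG := fun κ' => pc_GrU hB hO κ' (fun x => Dn (x.1 b)) (fun x => q x * r x) hDpos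
    (fun x => Nat.mul_pos (hq x) (hr x)) (C1 + C2) hD hN ρ hρ
  have hI := fun w => pc_invFam hB q hq (C1 + C2) w hq'
  fin_cases κ
  · have hE := pc_e2U hB hO (fun x => Dn (x.1 b)) hDpos (C1 + C2) hD
    have hM : PC (fun x : {x : Fin m → ℚ // (∀ l, |(x l : ℝ)| ≤ R) ∧ 0 < x b ∧
        0 < (zq I b U W (fun l => ((x l : ℚ) : ℂ))).im} => Bd x.1)
        (fun x => (((q x * r x : ℕ) : ℚ) : ℂ)) := by
      refine pc_ratFam _ (C1 + C2) (fun x => ?_) (fun x => ?_)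
      · rw [Rat.den_natCast]
        exact Nat.one_le_pow _ _ (hB1 x)
      · rw [Rat.cast_natCast, abs_of_nonneg (Nat.cast_nonneg _)]
        exact_mod_cast hN x
    have hT := PC.mul hB (PC.add hB (hG 2) (PC.mul hB hM hE)) (hI 2)
    refine (congrArg (PC _) ?_).mp hT
    funext x
    show _ = e2s (zq I b U W (fun l => ((x.1 l : ℚ) : ℂ))) / Om (Dn (x.1 b)) ^ 2
    rw [happ x, h2 x]
    have hΩ0 := (hO.base _ (hDpos x)).ne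
    have hq0 : (q x : ℂ) ≠ 0 := Nat.cast_ne_zero.2 (hq x).ne'
    show (Gr 2 (rt (Dn (x.1 b))) (ρ x) / Om (Dn (x.1 b)) ^ 2 + ((q x * r x : ℕ) : ℚ) *
      (e2s (rt (Dn (x.1 b))) / Om (Dn (x.1 b)) ^ 2)) * (1 / (q x : ℂ) ^ 2) = _
    push_cast
    field_simp
  · have hT := PC.mul hB (hG 0) (hI 4)
    refine (congrArg (PC _) ?_).mp hT
    funext x
    show _ = e4 (zq I b U W (fun l => ((x.1 l : ℚ) : ℂ))) / Om (Dn (x.1 b)) ^ 4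
    rw [happ x, h4 x]
    have hΩ0 := (hO.base _ (hDpos x)).ne
    have hq0 : (q x : ℂ) ≠ 0 := Nat.cast_ne_zero.2 (hq x).ne'
    show (Gr 0 (rt (Dn (x.1 b))) (ρ x) / Om (Dn (x.1 b)) ^ 4) * (1 / (q x : ℂ) ^ 4) = _
    field_simp
  · have hT := PC.mul hB (hG 1) (hI 6)
    refine (congrArg (PC _) ?_).mp hT
    funext x
    show _ = e6 (zq I b U W (fun l => ((x.1 l : ℚ) : ℂ))) / Om (Dn (x.1 b)) ^ 6
    rw [happ x, h6 x]
    have hΩ0 := (hO.base _ (hDpos x)).ne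
    have hq0 : (q x : ℂ) ≠ 0 := Nat.cast_ne_zero.2 (hq x).ne'
    show (Gr 1 (rt (Dn (x.1 b))) (ρ x) / Om (Dn (x.1 b)) ^ 6) * (1 / (q x : ℂ) ^ 6) = _
    field_simp

end Pool.Agent.MSD
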