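import Pool.Agent.Lib.MP_f58a57_nt.Q00_Defs
import Pool.Agent.Lib.MP_f58a57_nt.M06_FamMS

/-! # Q14: the family: real points, analyticity (MP_f58a57_nt) -/

open Complex ModularForm EisensteinSeries Filter
open UpperHalfPlane hiding I
open scoped Topology MatrixGroups Polynomial

noncomputable section

namespace Pool.Agent.MSD

theorem q14_aeval_conj {m : ℕ} (U : MvPolynomial (Fin m) ℚ) (y : Fin m → ℂ) :
    MvPolynomial.aeval (fun l => (starRingEnd ℂ) (y l)) U = (starRingEnd ℂ) (MvPolynomial.aeval y U) := by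
  rw [MvPolynomial.aeval_def, MvPolynomial.aeval_def, MvPolynomial.eval₂_comp_left]
  have h1 : (starRingEnd ℂ).comp (algebraMap ℚ ℂ) = algebraMap ℚ ℂ := Subsingleton.elim _ _
  rw [h1]
  rfl

theorem q14_sqrt {r : ℝ} (hr : 0 < r) : (starRingEnd ℂ) ((r : ℂ) ^ (1 / 2 : ℂ)) = (r : ℂ) ^ (1 / 2 : ℂ) := by
  have h : ((r : ℂ) ^ (1 / 2 : ℂ)) = ((r ^ (1 / 2 : ℝ) : ℝ) : ℂ) := by
    rw [Complex.ofReal_cpow hr.le]
    norm_num
  rw [h, Complex.conj_ofReal]

theorem q14_tw_conj {m : ℕ} (b : Fin m) (x : Fin m → ℝ) (hx : 0 < x b) :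
    tw (-I) b (fun l => (x l : ℂ)) = fun l => (starRingEnd ℂ) (tw I b (fun l => (x l : ℂ)) l) := by
  funext l
  by_cases hl : l = b
  · subst hl
    simp only [tw, Function.update_self, map_mul, Complex.conj_I, q14_sqrt hx]
  · simp only [tw, Function.update_of_ne hl, Complex.conj_ofReal]

/-- Q14a. PROOF. For `x b > 0`, `(x b : ℂ)^(1/2) = √(x b)` is real, so `tw (-I) b x` is the complex conjugate of `tw I b x`, and the coefficients of `U, W` are rational. -/
theorem zq_conj {m : ℕ} (b : Fin m) (U W : MvPolynomial (Fin m) ℚ) (x : Fin m → ℝ) (hx : 0 < x b) :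
    zq (-I) b U W (fun l => (x l : ℂ)) = (starRingEnd ℂ) (zq I b U W (fun l => (x l : ℂ))) := by
  rw [zq, zq, q14_tw_conj b x hx, q14_aeval_conj, q14_aeval_conj, map_div₀]

/-- Q14b. PROOF. `zq_conj`; `z - z̄ = 2 i Im z`; as `famMS_real` (`M06_FamMS.lean`). -/
theorem famQ_real {m : ℕ} {ι : Type} (b : ι → Fin m) (U W : ι → MvPolynomial (Fin m) ℚ) (x : Fin m → ℝ) (i : ι) (hx : 0 < x (b i))
    (κ : Fin 3) (z : ℂ) (hz : z = zq I (b i) (U i) (W i) (fun l => (x l : ℂ))) :
    famQ b U W (fun l => (x l : ℂ)) (Sum.inr (i, κ)) = ![e2s z, e4 z, e6 z] κ := by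
  have hb := zq_conj (b i) (U i) (W i) x hx
  rw [← hz] at hb
  have h0 : famQ b U W (fun l => (x l : ℂ)) (Sum.inr (i, κ)) =
      ![(e2 z - 6 * I / (Real.pi * (z - (starRingEnd ℂ) z))), e4 z, e6 z] κ := by
    rw [← hb, hz]
    rfl
  rw [h0]
  fin_cases κ
  · show (e2 z - 6 * I / (Real.pi * (z - (starRingEnd ℂ) z))) = e2s z
    rw [Complex.sub_conj]
    unfold e2s
    congr 1
    set y := z.im with hy
    by_cases hy0 : y = 0
    · simp [hy0]
    · have hpi : (Real.pi : ℂ) ≠ 0 := by exact_mod_cast Real.pi_ne_zero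
      have hyc : (y : ℂ) ≠ 0 := by exact_mod_cast hy0
      push_cast
      field_simp
      ring
  · rfl
  · rfl

theorem q14_tw_analytic {m : ℕ} (c : ℂ) (b : Fin m) (x : Fin m → ℝ) (hx : 0 < x b) (l : Fin m) :
    AnalyticAt ℂ (fun y : Fin m → ℂ => tw c b y l) (fun l => (x l : ℂ)) := by
  have hproj : ∀ l : Fin m, AnalyticAt ℂ (fun y : Fin m → ℂ => y l) (fun l => (x l : ℂ)) := fun l =>
    (ContinuousLinearMap.proj (R := ℂ) (φ := fun _ : Fin m => ℂ) l).analyticAt _
  by_cases hl : l = b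
  · subst hl
    simp only [tw, Function.update_self]
    refine analyticAt_const.mul ((hproj l).cpow analyticAt_const ?_)
    exact Or.inl (by simpa using hx)
  · simp only [tw, Function.update_of_ne hl]
    exact hproj l

theorem q14_poly_analytic {m : ℕ} (c : ℂ) (b : Fin m) (x : Fin m → ℝ) (hx : 0 < x b) (Q : MvPolynomial (Fin m) ℚ) :
    AnalyticAt ℂ (fun y : Fin m → ℂ => MvPolynomial.aeval (tw c b y) Q) (fun l => (x l : ℂ)) :=
  AnalyticAt.aeval_mvPolynomial (𝕜 := ℂ) (f := fun y : Fin m → ℂ => tw c b y) (q14_tw_analytic c b x hx) Q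

theorem q14_zq_analytic {m : ℕ} (c : ℂ) (b : Fin m) (U W : MvPolynomial (Fin m) ℚ) (x : Fin m → ℝ) (hx : 0 < x b)
    (hW : MvPolynomial.aeval (tw c b (fun l => (x l : ℂ))) W ≠ 0) :
    AnalyticAt ℂ (fun y : Fin m → ℂ => zq c b U W y) (fun l => (x l : ℂ)) :=
  (q14_poly_analytic c b x hx U).div (q14_poly_analytic c b x hx W) hW

/-- Q14c. PROOF. The coordinates of `tw c b y` are analytic at `x` (`x b > 0` is in the slit plane: `AnalyticAt.cpow`), so `zq` is (denominators do not vanish: `SysQ.ne`, and its conjugate for `-I`), `z - z̄ ≠ 0` at `x`,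
`Im z > 0`; `e2, e4, e6` are holomorphic there (`famM_analytic`, `famMS_analytic` in `M04a_An.lean`, `M06_FamMS.lean` as models). -/
theorem famQ_analytic {m : ℕ} (V : Finset (Fin m)) (x : Fin m → ℝ) {ι : Type} (b : ι → Fin m) (U W : ι → MvPolynomial (Fin m) ℚ)
    (h : SysQ V x b U W) (p : Fin m ⊕ (ι × Fin 3)) : AnalyticAt ℂ (fun y => famQ b U W y p) (fun l => (x l : ℂ)) := by
  match p with
  | Sum.inl l => exact (ContinuousLinearMap.proj (R := ℂ) (φ := fun _ : Fin m => ℂ) l).analyticAt _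
  | Sum.inr (i, κ) =>
    have hx : 0 < x (b i) := h.pos _ (h.bV i)
    have hW := h.ne i
    have hW' : MvPolynomial.aeval (tw (-I) (b i) (fun l => (x l : ℂ))) (W i) ≠ 0 := by
      rw [q14_tw_conj (b i) x hx, q14_aeval_conj]
      exact (map_ne_zero _).2 hW
    have hz := q14_zq_analytic I (b i) (U i) (W i) x hx hW
    have hz' := q14_zq_analytic (-I) (b i) (U i) (W i) x hx hW'
    have hE : ∀ κ : Fin 3, AnalyticAt ℂ (fun y : Fin m → ℂ => EE κ (zq I (b i) (U i) (W i) y)) (fun l => (x l : ℂ)) := by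
      intro κ
      exact AnalyticAt.fun_comp (g := EE κ) (f := fun y : Fin m → ℂ => zq I (b i) (U i) (W i) y)
        (F4_EE_analytic κ _ (h.im i)) hz
    have hne : zq I (b i) (U i) (W i) (fun l => (x l : ℂ)) - zq (-I) (b i) (U i) (W i) (fun l => (x l : ℂ)) ≠ 0 := by
      rw [zq_conj (b i) (U i) (W i) x hx, Complex.sub_conj]
      have h1 := (h.im i).ne'
      have h2 : ((zq I (b i) (U i) (W i) (fun l => (x l : ℂ))).im : ℂ) ≠ 0 := by exact_mod_cast h1
      push_cast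
      exact mul_ne_zero (mul_ne_zero two_ne_zero h2) I_ne_zero
    have hpi : (Real.pi : ℂ) ≠ 0 := by exact_mod_cast Real.pi_ne_zero
    fin_cases κ
    · exact (hE 0).sub (AnalyticAt.div analyticAt_const (analyticAt_const.mul (hz.sub hz')) (mul_ne_zero hpi hne))
    · exact hE 1
    · exact hE 2

/-- Q14d. PROOF. Quotients of the functions of Q14c with nonvanishing denominators. -/
theorem famN_analytic {m : ℕ} (V : Finset (Fin m)) (x : Fin m → ℝ) {ι : Type} (b : ι → Fin m) (U W : ι → MvPolynomial (Fin m) ℚ)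
    (h : SysQ V x b U W) (k : ι → ι) (h0 : ∀ i, e4 (zq I (b i) (U i) (W i) (fun l => (x l : ℂ))) ≠ 0 ∧ e6 (zq I (b i) (U i) (W i) (fun l => (x l : ℂ))) ≠ 0)
    (p : Fin m ⊕ (ι × Fin 3)) : AnalyticAt ℂ (fun y => nrm k (famQ b U W y) p) (fun l => (x l : ℂ)) := by
  match p with
  | Sum.inl l => exact famQ_analytic V x b U W h (Sum.inl l)
  | Sum.inr (i, κ) =>
    have h4 := famQ_analytic V x b U W h (Sum.inr (k i, 1))
    have h6 := famQ_analytic V x b U W h (Sum.inr (k i, 2))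
    have hq : AnalyticAt ℂ (fun y => famQ b U W y (Sum.inr (k i, 2)) / famQ b U W y (Sum.inr (k i, 1))) (fun l => (x l : ℂ)) :=
      h6.div h4 (h0 (k i)).1
    exact (famQ_analytic V x b U W h (Sum.inr (i, κ))).div (hq.pow _)
      (pow_ne_zero _ (div_ne_zero (h0 (k i)).2 (h0 (k i)).1))

end Pool.Agent.MSD
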