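import Pool.Agent.Lib.MP_f58a57_nt.Q14_FamQ
import Pool.Agent.Lib.MP_f58a57_nt.M06d_Indep
import Pool.Agent.Lib.MP_f58a57_nt.M14_Values

/-! # Q15: functional independence (MP_f58a57_nt) -/

open Complex ModularForm EisensteinSeries Filter
open UpperHalfPlane hiding I
open scoped Topology MatrixGroups Polynomial

noncomputable section

namespace Pool.Agent.MSD

theorem q15_map {m : ℕ} {B B' : Type*} [CommRing B] [Algebra ℚ B] [CommRing B'] [Algebra ℚ B'] (ψ : B →+* B')
    (f : Fin m → B) (U : MvPolynomial (Fin m) ℚ) :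
    ψ (MvPolynomial.aeval f U) = MvPolynomial.aeval (fun l => ψ (f l)) U := by
  induction U using MvPolynomial.induction_on with
  | C q => rw [MvPolynomial.aeval_C, MvPolynomial.aeval_C, RingHom.map_rat_algebraMap]
  | add p q hp hq => rw [map_add, map_add, map_add, hp, hq]
  | mul_X p i hp => rw [map_mul, map_mul, map_mul, hp, MvPolynomial.aeval_X, MvPolynomial.aeval_X]

theorem q15_rt : rt 1 = I := by
  unfold rt; simp

/-- the element `i` of `KF 1` -/
def q15_i : KF 1 := ⟨rt 1, rt_mem_KF 1⟩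

/-- the polynomial with `X b` replaced by `i X b`, the other `X l`, `l ∈ V`, by their squares -/
def q15_hat {m : ℕ} (V : Finset (Fin m)) (b : Fin m) (U : MvPolynomial (Fin m) ℚ) : MvPolynomial (Fin m) (KF 1) :=
  MvPolynomial.aeval (fun l => if l = b then MvPolynomial.C q15_i * MvPolynomial.X l else
    if l ∈ V then MvPolynomial.X l ^ 2 else MvPolynomial.X l) U

theorem q15_hat_eval {m : ℕ} (V : Finset (Fin m)) (b : Fin m) (U : MvPolynomial (Fin m) ℚ) (u : Fin m → ℂ) :
    MvPolynomial.aeval u (q15_hat V b U) =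
      MvPolynomial.aeval (fun l => if l = b then I * u l else if l ∈ V then u l ^ 2 else u l) U := by
  have h := q15_map (MvPolynomial.aeval u : MvPolynomial (Fin m) (KF 1) →ₐ[KF 1] ℂ).toRingHom
    (fun l => if l = b then MvPolynomial.C q15_i * MvPolynomial.X l else
      if l ∈ V then MvPolynomial.X l ^ 2 else MvPolynomial.X l) U
  refine Eq.trans h ?_
  congr 2
  funext l
  change (MvPolynomial.aeval u) (if l = b then MvPolynomial.C q15_i * MvPolynomial.X l else
    if l ∈ V then MvPolynomial.X l ^ 2 else MvPolynomial.X l) = _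
  split_ifs
  · rw [map_mul, MvPolynomial.aeval_C, MvPolynomial.aeval_X]
    congr 1
    exact q15_rt
  · rw [map_pow, MvPolynomial.aeval_X]
  · rw [MvPolynomial.aeval_X]

theorem q15_cj_eval {m : ℕ} (V : Finset (Fin m)) (b : Fin m) (U : MvPolynomial (Fin m) ℚ) (u : Fin m → ℂ) :
    MvPolynomial.aeval u (cjP (q15_hat V b U)) =
      MvPolynomial.aeval (fun l => if l = b then -I * u l else if l ∈ V then u l ^ 2 else u l) U := by
  have h := q15_map ((MvPolynomial.aeval u : MvPolynomial (Fin m) (KF 1) →ₐ[KF 1] ℂ).toRingHom.comp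
    (MvPolynomial.map (conjK 1)))
    (fun l => if l = b then MvPolynomial.C q15_i * MvPolynomial.X l else
      if l ∈ V then MvPolynomial.X l ^ 2 else MvPolynomial.X l) U
  refine Eq.trans h ?_
  congr 2
  funext l
  change (MvPolynomial.aeval u) (MvPolynomial.map (conjK 1)
    (if l = b then MvPolynomial.C q15_i * MvPolynomial.X l else
      if l ∈ V then MvPolynomial.X l ^ 2 else MvPolynomial.X l)) = _
  split_ifs
  · rw [map_mul, MvPolynomial.map_C, MvPolynomial.map_X, map_mul, MvPolynomial.aeval_C, MvPolynomial.aeval_X]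
    congr 1
    change ((conjK 1 q15_i : KF 1) : ℂ) = -I
    rw [conjK_coe]
    change (starRingEnd ℂ) (rt 1) = -I
    rw [q15_rt, Complex.conj_I]
  · rw [map_pow, map_pow, MvPolynomial.map_X, MvPolynomial.aeval_X]
  · rw [MvPolynomial.map_X, MvPolynomial.aeval_X]

/-- the squares of the coordinates in `V` -/
def q15_sq {m : ℕ} (V : Finset (Fin m)) (u : Fin m → ℂ) : Fin m → ℂ := fun l => if l ∈ V then u l ^ 2 else u l

theorem q15_tw {m : ℕ} (V : Finset (Fin m)) (b : Fin m) (hb : b ∈ V) (U : MvPolynomial (Fin m) ℚ)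
    (c : ℂ) (u : Fin m → ℂ) (hu : 0 < (u b).re) :
    MvPolynomial.aeval (tw c b (q15_sq V u)) U =
      MvPolynomial.aeval (fun l => if l = b then c * u l else if l ∈ V then u l ^ 2 else u l) U := by
  congr 2
  funext l
  unfold tw
  by_cases h : l = b
  · subst h
    rw [Function.update_self, if_pos rfl]
    congr 1
    simp only [q15_sq, if_pos hb]
    have := Complex.sq_cpow_two_inv hu
    rw [one_div]
    exact this
  · rw [Function.update_of_ne h, if_neg h]
    rfl

/-- Q15. Functional independence, from `famMS_indep` with one block `b : Fin 1`, `d = 1` (`KF 1 = ℚ(i)`), `Ω = 1`, by the substitution `y_l = w_l²` (`l ∈ V`), `y_l = w_l` (`l ∉ V`).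

PROOF. Let `w₀ l = √(x l)` for `l ∈ V`, `x l` otherwise (real), `sq u l = u l ^ 2` for `l ∈ V`, `u l` otherwise; `sq` is continuous and `sq w₀ = x`. Let `Û_i = aeval (fun l => if l = b i then C (i) * X l else if l ∈ V then X l ^ 2 else X l) (U i)` in `MvPolynomial (Fin m) (KF 1)`
(`i = rt 1 ∈ KF 1`), `Ŵ_i` similarly. For `u` near `w₀` (`Re (u l) > 0` for `l ∈ V`) `((u b)²)^(1/2) = u b` and `aeval (tw I (b i) (sq u)) (U i) = aeval u Û_i`,
`aeval (tw (-I) (b i) (sq u)) (U i) = aeval u (cjP Û_i)`. So `famQ b U W (sq u) (inr (i, κ)) = famMS (fun _ => 1) (fun _ => 1) Û Ŵ u (inr ⟨0, (i, κ)⟩)`.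
Let `P'` be `P` with `X (inl l)` replaced by `X (inl l) ^ 2` for `l ∈ V` and `X (inr (i, κ))` by `X (inr ⟨0, (i, κ)⟩)`. `eval (famMS .. u) P' = eval (famQ .. (sq u)) P = 0` for `u` near `w₀`, so `P' = 0` by `famMS_indep`; hence `eval g P = 0` for all
`g` (every complex number is a square; `IsSquare`, `IsAlgClosed.exists_pow_nat_eq`), `P = 0` (`MvPolynomial.funext`).
`Sys (fun _ => 0) (fun _ => 1) w₀ ..` : `vU`, `vV` trivial (`Fin 1`), `ne`, `pos` from `SysQ` (values at `w₀`), `rel`: `gequiv_of_prel` (`M14_Values.lean`) and `SysQ.ineq`. `nc`: if `Û = C c * Ŵ`, evaluate at the real point `w₀`: `z = c`; and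
`aeval w₀ (cjP Û) = c̄ aeval w₀ (cjP Ŵ)`. Apply the automorphism `X_b ↦ -X_b` to `Û = C c * Ŵ`: as `Û(X_b ↦ -X_b) = cjP Û` (rational coefficients of `U`), `cjP Û = C c * cjP Ŵ`, so `c = c̄` and `Im z = 0`, contradiction. -/
theorem famQ_indep {m : ℕ} (V : Finset (Fin m)) (x : Fin m → ℝ) {ι : Type} [Finite ι] (b : ι → Fin m) (U W : ι → MvPolynomial (Fin m) ℚ)
    (h : SysQ V x b U W) (P : MvPolynomial (Fin m ⊕ (ι × Fin 3)) ℂ)
    (hP : ∀ᶠ y in 𝓝 (fun l => (x l : ℂ)), MvPolynomial.eval (famQ b U W y) P = 0) : P = 0 := by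
  classical
  -- the base point
  set w₀ : Fin m → ℝ := fun l => if l ∈ V then Real.sqrt (x l) else x l with hw₀
  have hsq : q15_sq V (fun l => (w₀ l : ℂ)) = fun l => (x l : ℂ) := by
    funext l
    simp only [q15_sq, hw₀]
    by_cases hl : l ∈ V
    · rw [if_pos hl, if_pos hl, ← Complex.ofReal_pow, Real.sq_sqrt (h.pos l hl).le]
    · rw [if_neg hl, if_neg hl]
  have hw₀b : ∀ l ∈ V, 0 < ((w₀ l : ℂ)).re := by
    intro l hl
    rw [Complex.ofReal_re]
    simp only [hw₀, if_pos hl]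
    exact Real.sqrt_pos.2 (h.pos l hl)
  set Uh : ∀ _ : Fin 1, ι → MvPolynomial (Fin m) (KF 1) := fun _ i => q15_hat V (b i) (U i) with hUh
  set Wh : ∀ _ : Fin 1, ι → MvPolynomial (Fin m) (KF 1) := fun _ i => q15_hat V (b i) (W i) with hWh
  -- the values
  have hUt : ∀ (i : ι) (u : Fin m → ℂ), 0 < (u (b i)).re →
      MvPolynomial.aeval (tw I (b i) (q15_sq V u)) (U i) = MvPolynomial.aeval u (q15_hat V (b i) (U i)) ∧
      MvPolynomial.aeval (tw I (b i) (q15_sq V u)) (W i) = MvPolynomial.aeval u (q15_hat V (b i) (W i)) ∧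
      MvPolynomial.aeval (tw (-I) (b i) (q15_sq V u)) (U i) = MvPolynomial.aeval u (cjP (q15_hat V (b i) (U i))) ∧
      MvPolynomial.aeval (tw (-I) (b i) (q15_sq V u)) (W i) = MvPolynomial.aeval u (cjP (q15_hat V (b i) (W i))) := by
    intro i u hu
    rw [q15_hat_eval, q15_hat_eval, q15_cj_eval, q15_cj_eval]
    exact ⟨q15_tw V _ (h.bV i) _ _ _ hu, q15_tw V _ (h.bV i) _ _ _ hu,
      q15_tw V _ (h.bV i) _ _ _ hu, q15_tw V _ (h.bV i) _ _ _ hu⟩
  have hz : ∀ i, zq I (b i) (U i) (W i) (fun l => (x l : ℂ)) =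
      MvPolynomial.aeval (fun l => (w₀ l : ℂ)) (q15_hat V (b i) (U i)) /
        MvPolynomial.aeval (fun l => (w₀ l : ℂ)) (q15_hat V (b i) (W i)) := by
    intro i
    obtain ⟨h1, h2, -, -⟩ := hUt i (fun l => (w₀ l : ℂ)) (hw₀b _ (h.bV i))
    rw [hsq] at h1 h2
    rw [zq, h1, h2]
  have hne : ∀ i, MvPolynomial.aeval (fun l => (w₀ l : ℂ)) (q15_hat V (b i) (W i)) ≠ (0 : ℂ) := by
    intro i
    obtain ⟨-, h2, -, -⟩ := hUt i (fun l => (w₀ l : ℂ)) (hw₀b _ (h.bV i))
    rw [hsq] at h2
    rw [← h2]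
    exact h.ne i
  have hpos : ∀ i, 0 < (MvPolynomial.aeval (fun l => (w₀ l : ℂ)) (q15_hat V (b i) (U i)) /
      MvPolynomial.aeval (fun l => (w₀ l : ℂ)) (q15_hat V (b i) (W i)) : ℂ).im := by
    intro i
    rw [← hz i]
    exact h.im i
  have hSys : Sys (fun _ => (0 : Fin 1)) (fun _ : Fin 1 => 1) w₀ (fun _ => ι) Uh Wh := by
    refine ⟨fun _ => one_pos, fun b' i l _ => Subsingleton.elim _ _, fun b' i l _ => Subsingleton.elim _ _,
      ?_, ?_, fun b' i => hne i, fun b' i => hpos i⟩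
    · rintro b' i ⟨c, hc⟩
      have e1 : ∀ u : Fin m → ℂ, MvPolynomial.aeval u (q15_hat V (b i) (U i)) =
          ((c : KF 1) : ℂ) * MvPolynomial.aeval u (q15_hat V (b i) (W i)) := by
        intro u
        have := congrArg (fun Q => (MvPolynomial.aeval u Q : ℂ)) hc
        simp only [hUh, hWh, map_mul, MvPolynomial.aeval_C] at this
        exact this
      have e2 := e1 (fun l => (w₀ l : ℂ))
      have e3 := e1 (fun l => if l = b i then -(w₀ l : ℂ) else (w₀ l : ℂ))
      have e4 : ∀ Q : MvPolynomial (Fin m) ℚ,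
          MvPolynomial.aeval (fun l => if l = b i then -(w₀ l : ℂ) else (w₀ l : ℂ)) (q15_hat V (b i) Q) =
            (starRingEnd ℂ) (MvPolynomial.aeval (fun l => (w₀ l : ℂ)) (q15_hat V (b i) Q)) := by
        intro Q
        rw [← cjP_real, q15_cj_eval, q15_hat_eval]
        congr 2
        funext l
        by_cases hl : l = b i
        · simp [hl]
        · simp only [if_neg hl]
      rw [e4, e4] at e3
      have hW := hne i
      have hWc : (starRingEnd ℂ) (MvPolynomial.aeval (fun l => (w₀ l : ℂ)) (q15_hat V (b i) (W i))) ≠ 0 :=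
        (map_ne_zero _).2 hW
      have hc1 : (MvPolynomial.aeval (fun l => (w₀ l : ℂ)) (q15_hat V (b i) (U i)) /
          MvPolynomial.aeval (fun l => (w₀ l : ℂ)) (q15_hat V (b i) (W i)) : ℂ) = ((c : KF 1) : ℂ) := by
        rw [e2, mul_div_cancel_right₀ _ hW]
      have hc2 : (starRingEnd ℂ) (MvPolynomial.aeval (fun l => (w₀ l : ℂ)) (q15_hat V (b i) (U i)) /
          MvPolynomial.aeval (fun l => (w₀ l : ℂ)) (q15_hat V (b i) (W i)) : ℂ) = ((c : KF 1) : ℂ) := by
        rw [map_div₀, e3, mul_div_cancel_right₀ _ hWc]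
      have hp := hpos i
      rw [hc1] at hp hc2
      have := Complex.conj_eq_iff_im.1 hc2
      rw [this] at hp
      exact lt_irrefl _ hp
    · intro b' i j hij hrel
      refine h.ineq i j hij ?_
      rw [hz i, hz j]
      exact gequiv_of_prel _ _ _ _ _ (hne i) (hne j) (hpos i) hrel
  -- the family
  have hfam : ∀ᶠ u in 𝓝 (fun l => (w₀ l : ℂ)), ∀ i κ,
      famQ b U W (q15_sq V u) (Sum.inr (i, κ)) =
        famMS (fun _ : Fin 1 => 1) (fun _ : Fin 1 => (1 : ℂ)) Uh Wh u (Sum.inr ⟨0, (i, κ)⟩) := by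
    have hev : ∀ᶠ u in 𝓝 (fun l => (w₀ l : ℂ)), ∀ l ∈ V, 0 < (u l).re := by
      rw [eventually_all_finset]
      intro l hl
      have hcont : Continuous (fun u : Fin m → ℂ => (u l).re) :=
        Complex.continuous_re.comp (continuous_apply l)
      exact (hcont.tendsto _).eventually (lt_mem_nhds (hw₀b l hl))
    filter_upwards [hev] with u hu i κ
    obtain ⟨h1, h2, h3, h4⟩ := hUt i u (hu _ (h.bV i))
    simp only [famQ, famMS, zq, hUh, hWh]
    rw [h1, h2, h3, h4]
    fin_cases κ <;> simp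
  have hcontsq : Continuous (q15_sq V) := by
    refine continuous_pi fun l => ?_
    unfold q15_sq
    by_cases hl : l ∈ V
    · simp only [if_pos hl]
      exact (continuous_apply l).pow 2
    · simp only [if_neg hl]
      exact continuous_apply l
  have hP2 : ∀ᶠ u in 𝓝 (fun l => (w₀ l : ℂ)), MvPolynomial.eval (famQ b U W (q15_sq V u)) P = 0 := by
    have ht := hcontsq.tendsto (fun l => (w₀ l : ℂ))
    rw [hsq] at ht
    exact ht.eventually hP
  set sub : Fin m ⊕ (ι × Fin 3) → MvPolynomial (Fin m ⊕ (Σ _ : Fin 1, ι × Fin 3)) ℂ := fun ν =>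
    match ν with
    | Sum.inl l => if l ∈ V then MvPolynomial.X (Sum.inl l) ^ 2 else MvPolynomial.X (Sum.inl l)
    | Sum.inr p => MvPolynomial.X (Sum.inr ⟨0, p⟩) with hsub
  have hevalsub : ∀ g' : Fin m ⊕ (Σ _ : Fin 1, ι × Fin 3) → ℂ,
      MvPolynomial.eval g' (MvPolynomial.bind₁ sub P) =
        MvPolynomial.eval (fun ν => MvPolynomial.eval g' (sub ν)) P := by
    intro g'
    exact MvPolynomial.eval₂Hom_bind₁ (RingHom.id ℂ) g' sub P
  have hPz : MvPolynomial.bind₁ sub P = 0 := by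
    refine famMS_indep (fun _ => (0 : Fin 1)) (fun _ : Fin 1 => 1) w₀ (fun _ => 1) (fun _ => one_ne_zero)
      (fun _ => ι) Uh Wh hSys _ ?_
    filter_upwards [hfam, hP2] with u h1 h2
    rw [hevalsub]
    rw [← h2]
    congr 2
    funext ν
    match ν with
    | Sum.inl l =>
      simp only [hsub]
      by_cases hl : l ∈ V
      · rw [if_pos hl, map_pow, MvPolynomial.eval_X]
        simp only [famMS, famQ, q15_sq, if_pos hl]
      · rw [if_neg hl, MvPolynomial.eval_X]
        simp only [famMS, famQ, q15_sq, if_neg hl]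
    | Sum.inr (i, κ) =>
      simp only [hsub, MvPolynomial.eval_X]
      exact (h1 i κ).symm
  refine MvPolynomial.funext fun g => ?_
  rw [map_zero]
  have hroot : ∀ z : ℂ, ∃ w : ℂ, w ^ 2 = z := fun z => IsAlgClosed.exists_pow_nat_eq z two_pos
  choose rtf hrtf using hroot
  have hg := hevalsub (fun ν => match ν with
    | Sum.inl l => if l ∈ V then rtf (g (Sum.inl l)) else g (Sum.inl l)
    | Sum.inr p => g (Sum.inr p.2))
  rw [hPz, map_zero] at hg
  rw [hg]
  congr 2
  funext ν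
  match ν with
  | Sum.inl l =>
    simp only [hsub]
    by_cases hl : l ∈ V
    · rw [if_pos hl, map_pow, MvPolynomial.eval_X]
      simp only [if_pos hl]
      exact (hrtf _).symm
    · rw [if_neg hl, MvPolynomial.eval_X]
      simp only [if_neg hl]
  | Sum.inr p =>
    simp only [hsub, MvPolynomial.eval_X]

end Pool.Agent.MSD
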