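import Pool.Agent.Lib.MP_f58a57_nt.Q00_Defs

/-! # Q16: independence of the normalised family (MP_f58a57_nt) -/

open Complex ModularForm EisensteinSeries Filter
open UpperHalfPlane hiding I
open scoped Topology MatrixGroups Polynomial

noncomputable section

namespace Pool.Agent.MSD

/-- the constructor of `JN` -/
def q16mk {A ι : Type} (k : ι → ι) (p : A ⊕ (ι × Fin 3))
    (h : ∀ i, p = Sum.inr (i, 2) → k i ≠ i) : JN (A := A) k := ⟨p, h⟩

theorem q16_clear {A ι : Type} [Fintype ι] [DecidableEq ι] (k : ι → ι)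
    (Q : MvPolynomial (JN (A := A) k) ℂ) :
    ∃ (N : ℕ) (P : MvPolynomial (A ⊕ (ι × Fin 3)) ℂ), ∀ g : A ⊕ (ι × Fin 3) → ℂ,
      (∀ i, g (Sum.inr (i, 1)) ≠ 0 ∧ g (Sum.inr (i, 2)) ≠ 0) →
      MvPolynomial.eval g P = (∏ i, g (Sum.inr (i, 2))) ^ N *
        MvPolynomial.eval (fun j : JN (A := A) k => nrm k g j.1) Q := by
  induction Q using MvPolynomial.induction_on with
  | C a => exact ⟨0, MvPolynomial.C a, fun g _ => by simp⟩
  | add p q hp hq =>
    obtain ⟨N₁, P₁, h₁⟩ := hp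
    obtain ⟨N₂, P₂, h₂⟩ := hq
    refine ⟨N₁ + N₂, (∏ i, MvPolynomial.X (Sum.inr (i, 2))) ^ N₂ * P₁ +
      (∏ i, MvPolynomial.X (Sum.inr (i, 2))) ^ N₁ * P₂, fun g hg => ?_⟩
    rw [map_add, map_mul, map_mul, map_pow, map_pow, map_prod, h₁ g hg, h₂ g hg, map_add]
    simp only [MvPolynomial.eval_X]
    ring
  | mul_X p j hp =>
    obtain ⟨N, P, h⟩ := hp
    have hX : ∀ g : A ⊕ (ι × Fin 3) → ℂ,
        MvPolynomial.eval (fun j : JN (A := A) k => nrm k g j.1) (p * MvPolynomial.X j) =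
          MvPolynomial.eval (fun j : JN (A := A) k => nrm k g j.1) p * nrm k g j.1 := by
      intro g
      rw [map_mul, MvPolynomial.eval_X]
    generalize hj : j.1 = p' at hX
    rcases p' with a | ⟨i, κ⟩
    · refine ⟨N, P * MvPolynomial.X (Sum.inl a), fun g hg => ?_⟩
      rw [hX, map_mul, h g hg, MvPolynomial.eval_X, mul_assoc]
      rfl
    · set w : ℕ := (![1, 2, 3] : Fin 3 → ℕ) κ with hw
      refine ⟨N + w, P * (MvPolynomial.X (Sum.inr (i, κ)) * MvPolynomial.X (Sum.inr (k i, 1)) ^ w *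
        (∏ i' ∈ Finset.univ.erase (k i), MvPolynomial.X (Sum.inr (i', 2))) ^ w), fun g hg => ?_⟩
      have h1 := (hg (k i)).1
      have h2 := (hg (k i)).2
      have h3 : ∏ i', g (Sum.inr (i', 2)) = g (Sum.inr (k i, 2)) *
          ∏ i' ∈ Finset.univ.erase (k i), g (Sum.inr (i', 2)) :=
        (Finset.mul_prod_erase Finset.univ (fun i' => g (Sum.inr (i', 2)))
          (Finset.mem_univ (k i))).symm
      have h4 : nrm k g (Sum.inr (i, κ)) = g (Sum.inr (i, κ)) /
          (g (Sum.inr (k i, 2)) / g (Sum.inr (k i, 1))) ^ w := rfl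
      rw [hX, h4, map_mul, h g hg]
      generalize MvPolynomial.eval (fun j : JN (A := A) k => nrm k g j.1) p = v
      simp only [map_mul, map_pow, map_prod, MvPolynomial.eval_X]
      rw [pow_add, h3]
      set E := ∏ i' ∈ Finset.univ.erase (k i), g (Sum.inr (i', 2))
      rw [div_pow, mul_pow]
      field_simp
      ring

/-- Q16. Abstract: independence of a family passes to the normalised family. -/
theorem nrm_indep {Y : Type} (F : Filter Y) {A ι : Type} [Finite ι] (k : ι → ι) (hk : ∀ i, k (k i) = k i)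
    (G : Y → A ⊕ (ι × Fin 3) → ℂ)
    (hG : ∀ P : MvPolynomial (A ⊕ (ι × Fin 3)) ℂ, (∀ᶠ y in F, MvPolynomial.eval (G y) P = 0) → P = 0)
    (h0 : ∀ᶠ y in F, ∀ i, G y (Sum.inr (i, 1)) ≠ 0 ∧ G y (Sum.inr (i, 2)) ≠ 0)
    (Q : MvPolynomial (JN (A := A) k) ℂ) (hQ : ∀ᶠ y in F, MvPolynomial.eval (fun j => nrm k (G y) j.1) Q = 0) : Q = 0 := by
  classical
  let _ : Fintype ι := Fintype.ofFinite ι
  obtain ⟨N, P, hP⟩ := q16_clear k Q
  have hP0 : P = 0 := by
    apply hG
    filter_upwards [h0, hQ] with y h1 h2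
    rw [hP (G y) h1, h2, mul_zero]
  have m0 : ∀ a : A, ∀ i, (Sum.inl a : A ⊕ (ι × Fin 3)) = Sum.inr (i, 2) → k i ≠ i := by
    intro a i h
    exact absurd h (by simp)
  have m1 : ∀ i : ι, ∀ i', (Sum.inr (i, 1) : A ⊕ (ι × Fin 3)) = Sum.inr (i', 2) → k i' ≠ i' := by
    intro i i' h
    exact absurd h (by simp)
  have m2 : ∀ i : ι, k i ≠ i →
      ∀ i', (Sum.inr (i, 2) : A ⊕ (ι × Fin 3)) = Sum.inr (i', 2) → k i' ≠ i' := by
    intro i hi i' h
    have h1 : i = i' := by simpa using h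
    rw [← h1]
    exact hi
  set R : MvPolynomial (JN (A := A) k) ℂ := ∏ i, (MvPolynomial.X (q16mk k (Sum.inr (i, 1)) (m1 i)) *
    (if h : k i ≠ i then MvPolynomial.X (q16mk k (Sum.inr (i, 2)) (m2 i h)) else 1)) with hR
  have hR0 : R ≠ 0 := by
    rw [hR, Finset.prod_ne_zero_iff]
    intro i _
    apply mul_ne_zero (MvPolynomial.X_ne_zero _)
    by_cases h : k i ≠ i
    · rw [dif_pos h]
      exact MvPolynomial.X_ne_zero _
    · rw [dif_neg h]
      exact one_ne_zero
  have hQR : Q * R = 0 := by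
    apply MvPolynomial.funext
    intro c
    rw [map_mul, map_zero]
    by_cases hc : MvPolynomial.eval c R = 0
    · rw [hc, mul_zero]
    have hc1 : ∀ i, c (q16mk k (Sum.inr (i, 1)) (m1 i)) ≠ 0 ∧ ∀ h : k i ≠ i, c (q16mk k (Sum.inr (i, 2)) (m2 i h)) ≠ 0 := by
      intro i
      rw [hR, map_prod] at hc
      have h1 := Finset.prod_ne_zero_iff.mp hc i (Finset.mem_univ i)
      rw [map_mul, MvPolynomial.eval_X] at h1
      refine ⟨left_ne_zero_of_mul h1, fun h => ?_⟩
      have h2 := right_ne_zero_of_mul h1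
      rw [dif_pos h, MvPolynomial.eval_X] at h2
      exact h2
    -- the point
    set g : A ⊕ (ι × Fin 3) → ℂ := fun p =>
      if h : ∀ i, p = Sum.inr (i, 2) → k i ≠ i then c (q16mk k p h) else
        (match p with
          | Sum.inl _ => 0
          | Sum.inr q => c (q16mk k (Sum.inr (q.1, 1)) (m1 q.1))) with hg
    have g1 : ∀ i, g (Sum.inr (i, 1)) = c (q16mk k (Sum.inr (i, 1)) (m1 i)) := by
      intro i
      rw [hg]
      simp only
      rw [dif_pos (m1 i)]
    have g2 : ∀ i, k i = i → g (Sum.inr (i, 2)) = c (q16mk k (Sum.inr (i, 1)) (m1 i)) := by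
      intro i hi
      rw [hg]
      simp only
      rw [dif_neg]
      intro h
      exact h i rfl hi
    have g3 : ∀ i, (h : k i ≠ i) → g (Sum.inr (i, 2)) = c (q16mk k (Sum.inr (i, 2)) (m2 i h)) := by
      intro i hi
      rw [hg]
      simp only
      rw [dif_pos (m2 i hi)]
    have hgne : ∀ i, g (Sum.inr (i, 1)) ≠ 0 ∧ g (Sum.inr (i, 2)) ≠ 0 := by
      intro i
      refine ⟨by rw [g1]; exact (hc1 i).1, ?_⟩
      by_cases h : k i = i
      · rw [g2 i h]; exact (hc1 i).1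
      · rw [g3 i h]; exact (hc1 i).2 h
    have hnrm : (fun j : JN (A := A) k => nrm k g j.1) = c := by
      funext j
      have hgp : g j.1 = c j := by
        rw [hg]
        simp only
        rw [dif_pos j.2]
        rfl
      rw [← hgp]
      generalize j.1 = p
      rcases p with a | ⟨i, κ⟩
      · rfl
      · have h4 : nrm k g (Sum.inr (i, κ)) = g (Sum.inr (i, κ)) /
            (g (Sum.inr (k i, 2)) / g (Sum.inr (k i, 1))) ^ ((![1, 2, 3] : Fin 3 → ℕ) κ) := rfl
        rw [h4, g2 (k i) (hk i), g1 (k i), div_self (hc1 (k i)).1, one_pow, div_one]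
    have h2 := hP g hgne
    rw [hP0, map_zero, hnrm] at h2
    have h3 : (∏ i, g (Sum.inr (i, 2))) ^ N ≠ 0 :=
      pow_ne_zero _ (Finset.prod_ne_zero_iff.mpr fun i _ => (hgne i).2)
    have h4 : MvPolynomial.eval c Q = 0 := by
      rcases mul_eq_zero.mp h2.symm with h5 | h5
      · exact absurd h5 h3
      · exact h5
    rw [h4, zero_mul]
  rcases mul_eq_zero.mp hQR with h | h
  · exact h
  · exact absurd h hR0

end Pool.Agent.MSD
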