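import Pool.Agent.Lib.MP_f58a57_nt.Q10_PcInv
import Pool.Agent.Lib.MP_f58a57_nt.Q13_PcValQ
import Pool.Agent.Lib.MP_f58a57_nt.Q14_FamQ
import Pool.Agent.Lib.MP_f58a57_nt.Q15_IndepQ
import Pool.Agent.Lib.MP_f58a57_nt.Q16_Nrm
import Pool.Agent.Lib.MP_f58a57_nt.M12_AlgIndep

/-! # Q17: algebraic independence (MP_f58a57_nt) -/

open Complex ModularForm EisensteinSeries Filter
open UpperHalfPlane hiding I
open scoped Topology MatrixGroups Polynomial

noncomputable section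

namespace Pool.Agent.MSD

theorem q17_zq_analytic {m : ℕ} (V : Finset (Fin m)) (x : Fin m → ℝ) {ι : Type} (b : ι → Fin m) (U W : ι → MvPolynomial (Fin m) ℚ)
    (h : SysQ V x b U W) (i : ι) : AnalyticAt ℂ (fun y => zq I (b i) (U i) (W i) y) (fun l => (x l : ℂ)) := by
  have hc : ∀ l, AnalyticAt ℂ (fun y : Fin m → ℂ => tw I (b i) y l) (fun l => (x l : ℂ)) := by
    intro l
    by_cases hl : l = b i
    · subst hl
      have h1 : (fun y : Fin m → ℂ => tw I (b i) y (b i)) = fun y => I * y (b i) ^ (1 / 2 : ℂ) := by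
        funext y
        simp [tw]
      rw [h1]
      refine analyticAt_const.mul (AnalyticAt.cpow (m12_coord_analytic _ _) analyticAt_const ?_)
      show ((x (b i) : ℂ)) ∈ Complex.slitPlane
      exact Complex.ofReal_mem_slitPlane.2 (h.pos _ (h.bV i))
    · have h1 : (fun y : Fin m → ℂ => tw I (b i) y l) = fun y => y l := by
        funext y
        simp [tw, hl]
      rw [h1]
      exact m12_coord_analytic _ _
  exact (AnalyticAt.aeval_mvPolynomial (f := fun y : Fin m → ℂ => tw I (b i) y) hc (U i)).div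
    (AnalyticAt.aeval_mvPolynomial (f := fun y : Fin m → ℂ => tw I (b i) y) hc (W i)) (h.ne i)

/-- Q17. PROOF. As `alg_indepM` (`M12_AlgIndep.lean`): `F(y) = aeval (fun j => nrm k (famQ b U W y) j.1) P` is analytic at `x` (`famN_analytic`), not eventually `0` (`nrm_indep`, `famQ_indep`). At rational points `y` near `x` (`|y l| ≤ R`, `0 < y l` for `l ∈ V`,
`0 < Im z_i(y)`, `e4 z_i(y) ≠ 0`, `e6 z_i(y) ≠ 0`: all true near `x` by continuity) the values are PC families: by `famQ_real` the member `(i, κ)` is `(value/Om^w)/((e6 z_k/Om^6)/(e4 z_k/Om^4))^w'`, `Om = Om (Dn (y (b i)))`, `b (k i) = b i`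
(`pc_valuesQ`, `PC.mul`, `PC.inv`, `PC.comp`). `PC.lower` and `flag_gen` as there. -/
theorem alg_indepQ {m : ℕ} {Om : ℕ → ℂ} {C : ℕ} (hO : UCtrl Om C) (V : Finset (Fin m)) (x : Fin m → ℝ) (hx : HyperLiouville x) {ι : Type} [Finite ι]
    (b : ι → Fin m) (U W : ι → MvPolynomial (Fin m) ℚ) (h : SysQ V x b U W) (k : ι → ι) (hk : ∀ i, k (k i) = k i) (hkb : ∀ i, b (k i) = b i)
    (h0 : ∀ i, e4 (zq I (b i) (U i) (W i) (fun l => (x l : ℂ))) ≠ 0 ∧ e6 (zq I (b i) (U i) (W i) (fun l => (x l : ℂ))) ≠ 0) :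
    AlgebraicIndependent ℚ (fun j : JN (A := Fin m) k => nrm k (famQ b U W (fun l => (x l : ℂ))) j.1) := by
  classical
  rw [algebraicIndependent_iff]
  intro P hP
  by_contra hP0
  haveI : Fintype ι := Fintype.ofFinite ι
  -- the approximations
  choose q hq0 hq1 hq2 using hx
  have hBd : ∀ k, (2 : ℝ) ≤ Bd (q k) := fun k => by exact_mod_cast g1_two_le_Bd (q k)
  have hexp0 : Tendsto (fun k : ℕ => Real.exp (-(2 : ℝ) ^ k)) atTop (𝓝 0) := by
    apply Real.tendsto_exp_neg_atTop_nhds_zero.comp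
    exact tendsto_pow_atTop_atTop_of_one_lt (by norm_num)
  have hq1' : ∀ k l, |x l - q k l| < Real.exp (-(2 : ℝ) ^ k) := by
    intro k l
    refine lt_of_lt_of_le (hq1 k l) (Real.exp_le_exp.mpr ?_)
    have := pow_le_pow_left₀ (by norm_num : (0 : ℝ) ≤ 2) (hBd k) k
    linarith
  have hxt : ∀ l, Tendsto (fun k => ((q k l : ℚ) : ℝ)) atTop (𝓝 (x l)) := by
    intro l
    rw [tendsto_iff_dist_tendsto_zero]
    refine squeeze_zero (fun _ => dist_nonneg) (fun k => ?_) hexp0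
    rw [dist_comm, Real.dist_eq]
    exact (hq1' k l).le
  have hxtC : ∀ l, Tendsto (fun k => ((q k l : ℚ) : ℂ)) atTop (𝓝 (x l : ℂ)) := by
    intro l
    have := (Complex.continuous_ofReal.tendsto (x l)).comp (hxt l)
    refine this.congr (fun k => ?_)
    simp
  have hnorm : ∀ k l, ‖((q k l : ℚ) : ℂ) - (x l : ℂ)‖ = |x l - q k l| := by
    intro k l
    have h1 : ((q k l : ℚ) : ℂ) - (x l : ℂ) = ((((q k l : ℚ) : ℝ) - x l : ℝ) : ℂ) := by push_cast; rfl
    rw [h1, Complex.norm_real, Real.norm_eq_abs, abs_sub_comm]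
  have hxtv : Tendsto (fun k => (fun l => ((q k l : ℚ) : ℂ))) atTop (𝓝 (fun l => (x l : ℂ))) :=
    tendsto_pi_nhds.mpr hxtC
  -- radius
  obtain ⟨R, hR⟩ : ∃ R : ℝ, ∀ l, |x l| + 1 ≤ R := by
    obtain ⟨R, hR⟩ := (Set.finite_range (fun l => |x l| + 1)).bddAbove
    exact ⟨R, fun l => hR ⟨l, rfl⟩⟩
  have hgood1 : ∀ᶠ k in atTop, ∀ l, |((q k l : ℚ) : ℝ)| ≤ R := by
    rw [eventually_all]
    intro l
    have h1 : Tendsto (fun k => |((q k l : ℚ) : ℝ)|) atTop (𝓝 |x l|) := (hxt l).abs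
    have h2 : |x l| < R := by linarith [hR l]
    filter_upwards [h1.eventually_lt_const h2] with k hk using hk.le
  have hgoodV : ∀ᶠ k in atTop, ∀ l ∈ V, 0 < q k l := by
    have h1 : ∀ᶠ k in atTop, ∀ l, l ∈ V → 0 < q k l := by
      rw [eventually_all]
      intro l
      by_cases hl : l ∈ V
      · filter_upwards [(hxt l).eventually_const_lt (h.pos l hl)] with k hk _
        exact_mod_cast hk
      · exact Eventually.of_forall fun k hk => absurd hk hl
    exact h1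
  have hcz : ∀ i, ContinuousAt (fun y : Fin m → ℂ => zq I (b i) (U i) (W i) y) (fun l => (x l : ℂ)) := fun i =>
    (q17_zq_analytic V x b U W h i).continuousAt
  have hgood2 : ∀ᶠ k in atTop, ∀ i, 0 < (zq I (b i) (U i) (W i) (fun l => ((q k l : ℚ) : ℂ))).im := by
    rw [eventually_all]
    intro i
    have h1 := ((Complex.continuous_im.continuousAt (x := zq I (b i) (U i) (W i) (fun l => (x l : ℂ)))).comp (hcz i)).tendsto.comp hxtv
    exact h1.eventually_const_lt (h.im i)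
  have hgood3 : ∀ᶠ k in atTop, ∀ i, e4 (zq I (b i) (U i) (W i) (fun l => ((q k l : ℚ) : ℂ))) ≠ 0 ∧
      e6 (zq I (b i) (U i) (W i) (fun l => ((q k l : ℚ) : ℂ))) ≠ 0 := by
    rw [eventually_all]
    intro i
    have h1 := (famQ_analytic V x b U W h (Sum.inr (i, 1))).continuousAt.tendsto.comp hxtv
    have h2 := (famQ_analytic V x b U W h (Sum.inr (i, 2))).continuousAt.tendsto.comp hxtv
    exact (h1.eventually_ne (h0 i).1).and (h2.eventually_ne (h0 i).2)
  -- the values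
  set F : (Fin m → ℂ) → ℂ := fun y => MvPolynomial.aeval (fun j : JN (A := Fin m) k => nrm k (famQ b U W y) j.1) P with hF
  have hFt : F (fun l => (x l : ℂ)) = 0 := hP
  have hFa : AnalyticAt ℂ F (fun l => (x l : ℂ)) :=
    AnalyticAt.aeval_mvPolynomial (f := fun y => fun j : JN (A := Fin m) k => nrm k (famQ b U W y) j.1)
      (fun j => famN_analytic V x b U W h k h0 j.1) P
  have hFd : DifferentiableAt ℂ F (fun l => (x l : ℂ)) := hFa.differentiableAt
  -- PC family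
  let X := {y : Fin m → ℚ // (∀ l, |((y l : ℚ) : ℝ)| ≤ R) ∧ (∀ l ∈ V, 0 < y l) ∧
    (∀ i, 0 < (zq I (b i) (U i) (W i) (fun l => ((y l : ℚ) : ℂ))).im) ∧
    ∀ i, e4 (zq I (b i) (U i) (W i) (fun l => ((y l : ℚ) : ℂ))) ≠ 0 ∧ e6 (zq I (b i) (U i) (W i) (fun l => ((y l : ℚ) : ℂ))) ≠ 0}
  have hB2 : ∀ y : X, 2 ≤ Bd y.1 := fun y => g1_two_le_Bd y.1
  have hval : ∀ (i : ι) (κ : Fin 3), PC (X := X) (fun y => Bd y.1)
      (fun y => ![e2s (zq I (b i) (U i) (W i) (fun l => ((y.1 l : ℚ) : ℂ))) / Om (Dn (y.1 (b i))) ^ 2,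
        e4 (zq I (b i) (U i) (W i) (fun l => ((y.1 l : ℚ) : ℂ))) / Om (Dn (y.1 (b i))) ^ 4,
        e6 (zq I (b i) (U i) (W i) (fun l => ((y.1 l : ℚ) : ℂ))) / Om (Dn (y.1 (b i))) ^ 6] κ) := by
    intro i κ
    exact PC.comp (X := {y : Fin m → ℚ // (∀ l, |(y l : ℝ)| ≤ R) ∧ 0 < y (b i) ∧
        0 < (zq I (b i) (U i) (W i) (fun l => ((y l : ℚ) : ℂ))).im}) (B := fun y => Bd y.1) (B' := fun y : X => Bd y.1)
      (f := fun y : X => ⟨y.1, y.2.1, y.2.2.1 _ (h.bV i), y.2.2.2.1 i⟩) hB2 (fun y => le_refl _)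
      (pc_valuesQ hO (b i) (U i) (W i) R κ)
  have hOm : ∀ (y : X) (i : ι), Om (Dn (y.1 (b i))) ≠ 0 := fun y i =>
    (hO.base _ (Dn_pos _ (y.2.2.1 _ (h.bV i)))).ne
  have hPC : PC (X := X) (fun y => Bd y.1) (fun y => F (fun l => ((y.1 l : ℚ) : ℂ))) := by
    refine PC.aeval (X := X) (B := fun y => Bd y.1) hB2 P
      (fun j y => nrm k (famQ b U W (fun l => ((y.1 l : ℚ) : ℂ))) j.1) ?_
    rintro ⟨l | ⟨i, κ⟩, hj⟩
    · exact PC.comp (X := {x : Fin m → ℚ // ∀ l, |(x l : ℝ)| ≤ R}) (B := fun x => Bd x.1)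
        (f := fun y : X => ⟨y.1, y.2.1⟩) hB2 (fun y => le_refl _) (pc_coordM R l)
    · -- the normaliser
      have e1 := hval (k i) 1
      have e2 := hval (k i) 2
      have hth : PC (X := X) (fun y => Bd y.1) (fun y =>
          (e6 (zq I (b (k i)) (U (k i)) (W (k i)) (fun l => ((y.1 l : ℚ) : ℂ))) /
            e4 (zq I (b (k i)) (U (k i)) (W (k i)) (fun l => ((y.1 l : ℚ) : ℂ)))) / Om (Dn (y.1 (b i))) ^ 2) := by
        have e3 := PC.mul hB2 e2 (PC.inv hB2 e1 (fun y => div_ne_zero (y.2.2.2.2 (k i)).1 (pow_ne_zero _ (hOm y (k i)))))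
        refine (congrArg (PC _) ?_).mp e3
        funext y
        have h4 := (y.2.2.2.2 (k i)).1
        have hOy := hOm y i
        show e6 (zq I (b (k i)) (U (k i)) (W (k i)) (fun l => ((y.1 l : ℚ) : ℂ))) / Om (Dn (y.1 (b (k i)))) ^ 6 *
          (e4 (zq I (b (k i)) (U (k i)) (W (k i)) (fun l => ((y.1 l : ℚ) : ℂ))) / Om (Dn (y.1 (b (k i)))) ^ 4)⁻¹ = _
        rw [show Om (Dn (y.1 (b (k i)))) = Om (Dn (y.1 (b i))) by rw [hkb i]]
        field_simp
      have hthi := PC.inv hB2 hth (fun y => div_ne_zero (div_ne_zero (y.2.2.2.2 (k i)).2 (y.2.2.2.2 (k i)).1)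
        (pow_ne_zero _ (hOm y i)))
      have hpow : ∀ n : ℕ, PC (X := X) (fun y => Bd y.1) (fun y =>
          ((e6 (zq I (b (k i)) (U (k i)) (W (k i)) (fun l => ((y.1 l : ℚ) : ℂ))) /
            e4 (zq I (b (k i)) (U (k i)) (W (k i)) (fun l => ((y.1 l : ℚ) : ℂ)))) / Om (Dn (y.1 (b i))) ^ 2)⁻¹ ^ n) := by
        intro n
        induction n with
        | zero =>
          simp only [pow_zero]
          exact PC.const hB2 1 isAlgebraic_one
        | succ n ih =>
          simp only [pow_succ]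
          exact PC.mul hB2 ih hthi
      have hT := PC.mul hB2 (hval i κ) (hpow ((![1, 2, 3] : Fin 3 → ℕ) κ))
      refine (congrArg (PC _) ?_).mp hT
      funext y
      have hreal : ∀ (i' : ι) (κ' : Fin 3), famQ b U W (fun l => ((y.1 l : ℚ) : ℂ)) (Sum.inr (i', κ')) =
          ![e2s (zq I (b i') (U i') (W i') (fun l => ((y.1 l : ℚ) : ℂ))), e4 (zq I (b i') (U i') (W i') (fun l => ((y.1 l : ℚ) : ℂ))),
            e6 (zq I (b i') (U i') (W i') (fun l => ((y.1 l : ℚ) : ℂ)))] κ' := by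
        intro i' κ'
        have e : (fun l => ((y.1 l : ℚ) : ℂ)) = (fun l => (((y.1 l : ℚ) : ℝ) : ℂ)) := by
          funext l
          simp
        rw [e]
        exact famQ_real b U W (fun l => ((y.1 l : ℚ) : ℝ)) i' (by exact_mod_cast y.2.2.1 _ (h.bV i')) κ' _ rfl
      show _ = famQ b U W (fun l => ((y.1 l : ℚ) : ℂ)) (Sum.inr (i, κ)) /
        (famQ b U W (fun l => ((y.1 l : ℚ) : ℂ)) (Sum.inr (k i, 2)) /
          famQ b U W (fun l => ((y.1 l : ℚ) : ℂ)) (Sum.inr (k i, 1))) ^ ((![1, 2, 3] : Fin 3 → ℕ) κ)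
      rw [hreal, hreal, hreal]
      have h4 := (y.2.2.2.2 (k i)).1
      have h6 := (y.2.2.2.2 (k i)).2
      have hOy := hOm y i
      generalize zq I (b (k i)) (U (k i)) (W (k i)) (fun l => ((y.1 l : ℚ) : ℂ)) = zk at h4 h6 ⊢
      generalize zq I (b i) (U i) (W i) (fun l => ((y.1 l : ℚ) : ℂ)) = zi
      generalize Om (Dn (y.1 (b i))) = O at hOy ⊢
      fin_cases κ
      · show e2s zi / O ^ 2 * ((e6 zk / e4 zk) / O ^ 2)⁻¹ ^ 1 = e2s zi / (e6 zk / e4 zk) ^ 1
        field_simp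
      · show e4 zi / O ^ 4 * ((e6 zk / e4 zk) / O ^ 2)⁻¹ ^ 2 = e4 zi / (e6 zk / e4 zk) ^ 2
        field_simp
      · show e6 zi / O ^ 6 * ((e6 zk / e4 zk) / O ^ 2)⁻¹ ^ 3 = e6 zi / (e6 zk / e4 zk) ^ 3
        field_simp
  obtain ⟨C', hC'⟩ := PC.lower (X := X) (B := fun y => Bd y.1) hB2 hPC
  -- upper bound
  have hO' := hFd.isBigO_sub
  obtain ⟨K, hKpos, hKb⟩ := hO'.exists_pos
  have hup := hxtv.eventually hKb.bound
  have hzero : ∀ᶠ k in atTop, F (fun l => ((q k l : ℚ) : ℂ)) = 0 := by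
    filter_upwards [hup, hgood1, hgoodV, hgood2, hgood3, g1_exp C' K] with k hk hk1 hkV hk2 hk3 hk4
    rw [hFt, sub_zero] at hk
    have h1 : ‖(fun l => ((q k l : ℚ) : ℂ)) - (fun l => (x l : ℂ))‖ ≤ Real.exp (-(Bd (q k) : ℝ) ^ k) := by
      rw [pi_norm_le_iff_of_nonneg (Real.exp_pos _).le]
      intro l
      rw [Pi.sub_apply, hnorm k l]
      exact (hq1 k l).le
    have h2 : ‖F (fun l => ((q k l : ℚ) : ℂ))‖ < Real.exp (-(Bd (q k) : ℝ) ^ C') :=
      lt_of_le_of_lt (hk.trans (mul_le_mul_of_nonneg_left h1 hKpos.le)) (hk4 (Bd (q k)) (g1_two_le_Bd _))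
    rcases hC' ⟨q k, hk1, hkV, hk2, hk3⟩ with h3 | h3
    · exact h3
    · exact absurd h2 (not_lt.mpr h3)
  -- nonvanishing
  have hPne : MvPolynomial.map (algebraMap ℚ ℂ) P ≠ 0 := by
    intro h0
    apply hP0
    exact MvPolynomial.map_injective _ (algebraMap ℚ ℂ).injective (by rw [h0, map_zero])
  have hFne : ¬ ∀ᶠ y in 𝓝 (fun l => (x l : ℂ)), F y = 0 := by
    intro hev
    apply hPne
    refine nrm_indep (𝓝 (fun l => (x l : ℂ))) k hk (fun y => famQ b U W y) (famQ_indep V x b U W h) ?_ _ ?_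
    · rw [eventually_all]
      intro i
      have h1 := (famQ_analytic V x b U W h (Sum.inr (i, 1))).continuousAt.tendsto
      have h2 := (famQ_analytic V x b U W h (Sum.inr (i, 2))).continuousAt.tendsto
      exact (h1.eventually_ne (h0 i).1).and (h2.eventually_ne (h0 i).2)
    · filter_upwards [hev] with y hy
      rw [MvPolynomial.eval_map]
      exact hy
  have hnv := flag_gen m F (fun l => (x l : ℂ)) hFa hFne
    (fun k l => ((q k l : ℚ) : ℂ)) hxtC (by
      intro l k he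
      have := hq0 k l
      rw [← hnorm k l, he, sub_self, norm_zero] at this
      exact lt_irrefl _ this) (by
      intro C'
      have hle : ∀ᶠ k in atTop, ∀ l, |x l - q k l| ≤ 1 := by
        refine Eventually.of_forall (fun k l => ?_)
        refine (hq1' k l).le.trans ?_
        rw [Real.exp_le_one_iff]
        have : (0 : ℝ) < 2 ^ k := by positivity
        linarith
      filter_upwards [hle, eventually_ge_atTop C'] with k hk1 hk2 l l' hll
      simp only [hnorm]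
      refine (hq2 k l l' hll).le.trans ?_
      exact pow_le_pow_of_le_one (abs_nonneg _) (hk1 l') hk2)
  obtain ⟨k, hk1, hk2⟩ := (hzero.and hnv).exists
  exact hk2 hk1

end Pool.Agent.MSD
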