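import Pool.Agent.Lib.MP_f58a57_nt.Q14_FamQ
import Pool.Agent.Lib.MP_f58a57_nt.M15_Exchange
import Pool.Agent.Lib.MP_f58a57_nt.M14_Values

/-! # Q18: the field ℚ(x_l, √(-x_b)) (MP_f58a57_nt) -/

open Complex ModularForm EisensteinSeries Filter
open UpperHalfPlane hiding I
open scoped Topology MatrixGroups Polynomial

noncomputable section

namespace Pool.Agent.MSD

theorem q18_cpow (x : ℝ) (hx : 0 < x) : ((x : ℂ) ^ (1 / 2 : ℂ)) = ((Real.sqrt x : ℝ) : ℂ) := by
  rw [Real.sqrt_eq_rpow, Complex.ofReal_cpow hx.le]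
  norm_num

theorem q18_tw_self {m : ℕ} (c : ℂ) (x : Fin m → ℝ) (b : Fin m) (hb : 0 < x b) :
    tw c b (fun l => (x l : ℂ)) b = c * ((Real.sqrt (x b) : ℝ) : ℂ) := by
  unfold tw
  rw [Function.update_self, q18_cpow _ hb]

theorem q18_tw_ne {m : ℕ} (c : ℂ) (x : Fin m → ℝ) (b l : Fin m) (h : l ≠ b) :
    tw c b (fun l => (x l : ℂ)) l = (x l : ℂ) := by
  unfold tw
  rw [Function.update_of_ne h]

theorem q18_sq (x : ℝ) (hx : 0 < x) : ((((Real.sqrt x : ℝ) : ℂ)) * I) ^ 2 = - (x : ℂ) := by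
  rw [mul_pow, I_sq, ← Complex.ofReal_pow, Real.sq_sqrt hx.le]
  ring

/-- Q18a. PROOF. As `mem_rep` (`M13_Rep.lean`), `IntermediateField.adjoin_induction`; the generator `√(x b) i` is `X b` at `tw I b x` (`isq`: `(x b : ℂ)^(1/2) = √(x b)`). -/
theorem memFV_rep {m : ℕ} (V : Finset (Fin m)) (x : Fin m → ℝ) (b : Fin m) (hb : 0 < x b) (z : ℂ) (hz : z ∈ FV V x b) :
    ∃ U W : MvPolynomial (Fin m) ℚ, (∀ l ∈ U.vars, l ∈ V → l = b) ∧ (∀ l ∈ W.vars, l ∈ V → l = b) ∧
      MvPolynomial.aeval (tw I b (fun l => (x l : ℂ))) W ≠ 0 ∧ z = zq I b U W (fun l => (x l : ℂ)) := by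
  classical
  have hmulv : ∀ P Q : MvPolynomial (Fin m) ℚ, (∀ l ∈ P.vars, l ∈ V → l = b) → (∀ l ∈ Q.vars, l ∈ V → l = b) →
      ∀ l ∈ (P * Q).vars, l ∈ V → l = b := by
    intro P Q hP hQ l hl
    rcases Finset.mem_union.1 (MvPolynomial.vars_mul P Q hl) with h | h
    · exact hP l h
    · exact hQ l h
  have haddv : ∀ P Q : MvPolynomial (Fin m) ℚ, (∀ l ∈ P.vars, l ∈ V → l = b) → (∀ l ∈ Q.vars, l ∈ V → l = b) →
      ∀ l ∈ (P + Q).vars, l ∈ V → l = b := by
    intro P Q hP hQ l hl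
    rcases Finset.mem_union.1 (MvPolynomial.vars_add_subset P Q hl) with h | h
    · exact hP l h
    · exact hQ l h
  have hCv : ∀ c : ℚ, ∀ l ∈ (MvPolynomial.C c : MvPolynomial (Fin m) ℚ).vars, l ∈ V → l = b := by
    intro c l hl
    simp [MvPolynomial.vars_C] at hl
  have h1v : ∀ l ∈ (1 : MvPolynomial (Fin m) ℚ).vars, l ∈ V → l = b := by
    intro l hl
    have := hCv 1 l
    rw [MvPolynomial.C_1] at this
    exact this hl
  have hXb : ∀ l ∈ (MvPolynomial.X b : MvPolynomial (Fin m) ℚ).vars, l ∈ V → l = b := by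
    intro l hl _
    rw [MvPolynomial.vars_X, Finset.mem_singleton] at hl
    exact hl
  unfold zq
  unfold FV at hz
  induction hz using IntermediateField.adjoin_induction with
  | mem y hy =>
    rcases hy with hy | ⟨l, hl, hy⟩
    · refine ⟨MvPolynomial.X b, 1, hXb, h1v, ?_, ?_⟩
      · simp
      · rw [Set.mem_singleton_iff] at hy
        rw [hy, MvPolynomial.aeval_X, map_one, div_one, q18_tw_self I x b hb, mul_comm]
    · by_cases hlb : l = b
      · subst hlb
        refine ⟨MvPolynomial.C (-1) * (MvPolynomial.X l * MvPolynomial.X l), 1, ?_, h1v, ?_, ?_⟩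
        · exact hmulv _ _ (hCv _) (hmulv _ _ hXb hXb)
        · simp
        · rw [hy, map_mul, map_mul, MvPolynomial.aeval_C, MvPolynomial.aeval_X, map_one, div_one,
            q18_tw_self I x l hb]
          have h2 := q18_sq (x l) hb
          have h3 : (algebraMap ℚ ℂ) (-1) = -1 := by simp
          rw [h3]
          linear_combination h2
      · refine ⟨MvPolynomial.X l, 1, ?_, h1v, ?_, ?_⟩
        · intro l' hl' hV
          rw [MvPolynomial.vars_X, Finset.mem_singleton] at hl'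
          rw [hl'] at hV
          exact absurd hV hl
        · simp
        · rw [MvPolynomial.aeval_X, q18_tw_ne I x b l hlb, map_one, div_one, hy]
  | algebraMap y =>
    refine ⟨MvPolynomial.C y, 1, hCv _, h1v, ?_, ?_⟩
    · simp
    · rw [MvPolynomial.aeval_C, map_one, div_one]
  | add y y' _ _ hx hy =>
    obtain ⟨U, W, hU, hW, h0, h1⟩ := hx
    obtain ⟨U', W', hU', hW', h0', h1'⟩ := hy
    refine ⟨U * W' + W * U', W * W', haddv _ _ (hmulv _ _ hU hW') (hmulv _ _ hW hU'), hmulv _ _ hW hW', ?_, ?_⟩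
    · rw [map_mul]; exact mul_ne_zero h0 h0'
    · rw [map_mul, map_add, map_mul, map_mul, h1, h1', div_add_div _ _ h0 h0']
  | inv y _ hx =>
    obtain ⟨U, W, hU, hW, h0, h1⟩ := hx
    by_cases hU0 : MvPolynomial.aeval (tw I b (fun l => (x l : ℂ))) U = 0
    · refine ⟨0, 1, ?_, h1v, ?_, ?_⟩
      · intro l hl
        simp at hl
      · simp
      · rw [h1, hU0]; simp
    · refine ⟨W, U, hW, hU, hU0, ?_⟩
      rw [h1, inv_div]
  | mul y y' _ _ hx hy =>
    obtain ⟨U, W, hU, hW, h0, h1⟩ := hx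
    obtain ⟨U', W', hU', hW', h0', h1'⟩ := hy
    refine ⟨U * U', W * W', hmulv _ _ hU hU', hmulv _ _ hW hW', ?_, ?_⟩
    · rw [map_mul]; exact mul_ne_zero h0 h0'
    · rw [map_mul, map_mul, h1, h1', div_mul_div_comm]

theorem q18_set {m : ℕ} (V : Finset (Fin m)) (x : Fin m → ℝ) :
    {y : ℂ | ∃ l, l ∉ V ∧ y = (x l : ℂ)} = (fun l => (x l : ℂ)) '' {l | l ∉ V} := by
  ext y
  constructor
  · rintro ⟨l, hl, rfl⟩
    exact ⟨l, hl, rfl⟩
  · rintro ⟨l, hl, rfl⟩
    exact ⟨l, hl, rfl⟩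

theorem q18_trans {m : ℕ} (V : Finset (Fin m)) (x : Fin m → ℝ) (hx : AlgebraicIndependent ℚ (fun l => (x l : ℂ))) (b : Fin m) (hbV : b ∈ V) :
    ¬ IsAlgebraic (IntermediateField.adjoin ℚ {y : ℂ | ∃ l, l ∉ V ∧ y = (x l : ℂ)}) (x b : ℂ) := by
  rw [IntermediateField.isAlgebraic_adjoin_iff, q18_set]
  have h := hx.transcendental_adjoin (s := {l | l ∉ V}) (i := b) (by simp [hbV])
  exact h

theorem q18_eval {m : ℕ} (V : Finset (Fin m)) (x : Fin m → ℝ) (b : Fin m) (K : IntermediateField ℚ ℂ) (hK : ∀ l, l ∉ V → (x l : ℂ) ∈ K)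
    (g : Fin m → Polynomial K) (hgb : g b = Polynomial.X) (hg : ∀ l (h : l ∉ V), l ≠ b → g l = Polynomial.C ⟨(x l : ℂ), hK l h⟩)
    (U : MvPolynomial (Fin m) ℚ) (hU : ∀ l ∈ U.vars, l ∈ V → l = b) (c : ℂ) :
    Polynomial.aeval (tw c b (fun l => (x l : ℂ)) b) (MvPolynomial.aeval g U) = MvPolynomial.aeval (tw c b (fun l => (x l : ℂ))) U := by
  set w : ℂ := tw c b (fun l => (x l : ℂ)) b with hw
  have h1 := MvPolynomial.comp_aeval_apply (f := g) ((Polynomial.aeval w : Polynomial K →ₐ[K] ℂ).restrictScalars ℚ) U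
  have h2 : ((Polynomial.aeval w : Polynomial K →ₐ[K] ℂ).restrictScalars ℚ) (MvPolynomial.aeval g U) = Polynomial.aeval w (MvPolynomial.aeval g U) := rfl
  rw [← h2, h1, MvPolynomial.aeval_def, MvPolynomial.aeval_def, ← MvPolynomial.coe_eval₂Hom, ← MvPolynomial.coe_eval₂Hom]
  refine MvPolynomial.eval₂Hom_congr' rfl ?_ rfl
  intro l hl _
  by_cases hlb : l = b
  · rw [hlb, hgb]
    show Polynomial.aeval w Polynomial.X = _
    rw [Polynomial.aeval_X]
  · have hlV : l ∉ V := fun h => hlb (hU l hl h)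
    rw [hg l hlV hlb, q18_tw_ne c x b l hlb]
    show Polynomial.aeval w (Polynomial.C _) = _
    rw [Polynomial.aeval_C]
    rfl

/-- Q18b. A nonreal element of the field is not algebraic over the subfield generated by the `x_l`, `l ∉ V`.

PROOF. Let `k₀ = ℚ(x_l : l ∉ V)`, `A` its algebraic closure in `ℂ`, and suppose `z ∈ A`. `ω = i√(x b)` is transcendental over `k₀` (`x b` is, by algebraic independence, and `x b = -ω²`), so over `A`. Let `Û, Ŵ ∈ A[X]` be `U, W` with `X_b ↦ X`, `X_l ↦ x_l` for `l ≠ b`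
(only `l ∉ V` occur: define them with value `0` for `l ∈ V`, `l ≠ b`). `(Û - z Ŵ)(ω) = 0`, so `Û = z Ŵ`; at `-ω`: `z̄ = Û(-ω)/Ŵ(-ω) = z` (`zq_conj`; `Ŵ(-ω)` is the conjugate of `Ŵ(ω) ≠ 0`). So `z` is real. -/
theorem zq_not_alg {m : ℕ} (V : Finset (Fin m)) (x : Fin m → ℝ) (hx : AlgebraicIndependent ℚ (fun l => (x l : ℂ))) (b : Fin m) (hbV : b ∈ V) (hb : 0 < x b)
    (U W : MvPolynomial (Fin m) ℚ) (hU : ∀ l ∈ U.vars, l ∈ V → l = b) (hW : ∀ l ∈ W.vars, l ∈ V → l = b)
    (hne : MvPolynomial.aeval (tw I b (fun l => (x l : ℂ))) W ≠ 0) (him : (zq I b U W (fun l => (x l : ℂ))).im ≠ 0) :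
    ¬ IsAlgebraic (IntermediateField.adjoin ℚ {y : ℂ | ∃ l, l ∉ V ∧ y = (x l : ℂ)}) (zq I b U W (fun l => (x l : ℂ))) := by
  classical
  intro hz
  have htr := q18_trans V x hx b hbV
  set S : Set ℂ := {y : ℂ | ∃ l, l ∉ V ∧ y = (x l : ℂ)} with hS
  set z : ℂ := zq I b U W (fun l => (x l : ℂ)) with hzdef
  rw [m15_mem] at hz
  set K : IntermediateField ℚ ℂ := IntermediateField.adjoin ℚ (insert z S) with hKdef
  have hcl : (AlgebraicIndependent.matroid ℚ ℂ).closure (insert z S) = (AlgebraicIndependent.matroid ℚ ℂ).closure S :=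
    Matroid.closure_insert_eq_of_mem_closure hz
  have htr2 : ¬ IsAlgebraic K (x b : ℂ) := by
    rw [hKdef, m15_mem, hcl, ← m15_mem]
    exact htr
  have hzK : z ∈ K := IntermediateField.subset_adjoin ℚ _ (Set.mem_insert _ _)
  have hxK : ∀ l, l ∉ V → (x l : ℂ) ∈ K := fun l hl =>
    IntermediateField.subset_adjoin ℚ _ (Set.mem_insert_of_mem _ ⟨l, hl, rfl⟩)
  set w : ℂ := tw I b (fun l => (x l : ℂ)) b with hw
  have hw2 : w ^ 2 = - (x b : ℂ) := by
    rw [hw, q18_tw_self I x b hb, mul_comm, q18_sq _ hb]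
  have htw : Transcendental K w := by
    intro h
    apply htr2
    have h2 : IsAlgebraic K (w ^ 2) := h.pow 2
    rw [hw2] at h2
    have h3 := h2.neg
    rwa [neg_neg] at h3
  set g : Fin m → Polynomial K := fun l => if l = b then Polynomial.X else if h : l ∉ V then Polynomial.C ⟨(x l : ℂ), hxK l h⟩ else 0 with hg
  have hgb : g b = Polynomial.X := by simp [hg]
  have hgl : ∀ l (h : l ∉ V), l ≠ b → g l = Polynomial.C ⟨(x l : ℂ), hxK l h⟩ := by
    intro l h h'
    simp only [hg]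
    rw [if_neg h', dif_pos h]
  have hev := q18_eval V x b K hxK g hgb hgl
  have hP : MvPolynomial.aeval g U - Polynomial.C (⟨z, hzK⟩ : K) * MvPolynomial.aeval g W = 0 := by
    by_contra hne0
    apply htw
    refine ⟨_, hne0, ?_⟩
    rw [map_sub, map_mul, hev U hU I, hev W hW I, Polynomial.aeval_C]
    have h4 : (algebraMap K ℂ) (⟨z, hzK⟩ : K) = z := rfl
    rw [h4, hzdef]
    unfold zq
    field_simp
    ring
  have h5 := congrArg (Polynomial.aeval (tw (-I) b (fun l => (x l : ℂ)) b)) hP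
  rw [map_sub, map_mul, hev U hU (-I), hev W hW (-I), Polynomial.aeval_C, map_zero] at h5
  have h4 : (algebraMap K ℂ) (⟨z, hzK⟩ : K) = z := rfl
  rw [h4] at h5
  have hconj := zq_conj b U W x hb
  rw [← hzdef] at hconj
  have h6 : (starRingEnd ℂ) z = z := by
    by_cases hd : MvPolynomial.aeval (tw (-I) b (fun l => (x l : ℂ))) W = 0
    · exfalso
      apply him
      have h7 : zq (-I) b U W (fun l => (x l : ℂ)) = 0 := by
        unfold zq
        rw [hd, div_zero]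
      rw [h7] at hconj
      have h8 : z = 0 := by
        have := congrArg (starRingEnd ℂ) hconj
        simpa using this.symm
      rw [h8]
      simp
    · rw [← hconj]
      unfold zq
      rw [div_eq_iff hd]
      linear_combination h5
  exact him (Complex.conj_eq_iff_im.1 h6)

/-- Q18c. PROOF. `z ∈ FV` is algebraic over `ℚ(x_l (l ∉ V), x_b)` (`√(-x_b)` is) and not over `ℚ(x_l : l ∉ V)` by Q18a, Q18b; exchange (`(AlgebraicIndependent.matroid ℚ ℂ).closure_exchange`, `m15_mem` in `M15_Exchange.lean`). -/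
theorem xb_algebraic {m : ℕ} (V : Finset (Fin m)) (x : Fin m → ℝ) (hx : AlgebraicIndependent ℚ (fun l => (x l : ℂ))) (b : Fin m) (hbV : b ∈ V) (hb : 0 < x b)
    (z : ℂ) (hz : z ∈ FV V x b) (him : z.im ≠ 0) :
    IsAlgebraic (IntermediateField.adjoin ℚ (insert z {y : ℂ | ∃ l, l ∉ V ∧ y = (x l : ℂ)})) (x b : ℂ) := by
  obtain ⟨U, W, hU, hW, hne, hzq⟩ := memFV_rep V x b hb z hz
  have him' := him
  rw [hzq] at him'
  have h1 := zq_not_alg V x hx b hbV hb U W hU hW hne him'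
  rw [← hzq] at h1
  have h2 : IsAlgebraic (FV V x b) z := by
    have := isAlgebraic_algebraMap (R := FV V x b) (A := ℂ) ⟨z, hz⟩
    simpa using this
  unfold FV at h2
  set S : Set ℂ := {y : ℂ | ∃ l, l ∉ V ∧ y = (x l : ℂ)} with hS
  rw [m15_mem] at h1 h2 ⊢
  have h3 : z ∈ (AlgebraicIndependent.matroid ℚ ℂ).closure (insert (x b : ℂ) S) := by
    rw [← (AlgebraicIndependent.matroid ℚ ℂ).closure_closure (insert (x b : ℂ) S)]
    refine (AlgebraicIndependent.matroid ℚ ℂ).closure_subset_closure ?_ h2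
    intro y hy
    rcases hy with hy | hy
    · rw [Set.mem_singleton_iff] at hy
      rw [hy, ← m15_mem]
      refine IsAlgebraic.of_pow (n := 2) (by norm_num) ?_
      rw [q18_sq _ hb]
      refine IsAlgebraic.neg ?_
      have hm : (x b : ℂ) ∈ IntermediateField.adjoin ℚ (insert (x b : ℂ) S) :=
        IntermediateField.subset_adjoin ℚ _ (Set.mem_insert _ _)
      have := isAlgebraic_algebraMap (R := IntermediateField.adjoin ℚ (insert (x b : ℂ) S)) (A := ℂ) ⟨(x b : ℂ), hm⟩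
      simpa using this
    · refine (AlgebraicIndependent.matroid ℚ ℂ).subset_closure _ ?_ ?_
      · intro x _
        trivial
      · exact Set.mem_insert_of_mem _ hy
  exact ((AlgebraicIndependent.matroid ℚ ℂ).closure_exchange ⟨h3, h1⟩).1

/-- Q18d. PROOF. Special points are algebraic over `ℚ` (`special_algebraic`, `M14_Values.lean`): Q18a, Q18b. -/
theorem FV_not_special {m : ℕ} (V : Finset (Fin m)) (x : Fin m → ℝ) (hx : AlgebraicIndependent ℚ (fun l => (x l : ℂ))) (b : Fin m) (hbV : b ∈ V) (hb : 0 < x b)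
    (z : ℂ) (hz : z ∈ FV V x b) (him : z.im ≠ 0) : ¬ IsSpecial z := by
  intro hsp
  obtain ⟨U, W, hU, hW, hne, hzq⟩ := memFV_rep V x b hb z hz
  have him' := him
  rw [hzq] at him'
  apply zq_not_alg V x hx b hbV hb U W hU hW hne him'
  rw [← hzq]
  exact (special_algebraic z hsp).extendScalars (FaithfulSMul.algebraMap_injective ℚ _)

theorem q18_mem {m : ℕ} (F : Subfield ℂ) (f : Fin m → ℂ) (hf : ∀ l, f l ∈ F) (P : MvPolynomial (Fin m) ℚ) : MvPolynomial.aeval f P ∈ F := by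
  induction P using MvPolynomial.induction_on with
  | C a =>
    rw [MvPolynomial.aeval_C]
    have : (algebraMap ℚ ℂ) a = (a : ℂ) := by simp
    rw [this]
    exact SubfieldClass.ratCast_mem F a
  | add p q hp hq =>
    rw [map_add]
    exact F.add_mem hp hq
  | mul_X p n hp =>
    rw [map_mul, MvPolynomial.aeval_X]
    exact F.mul_mem hp (hf n)

/-- Q18e. PROOF. `z ∈ F` and `z̄ ∈ F` by `memFV_rep`, `zq_conj`: `F` contains `√(x b)`, `i` and all `x l`; `Im z = (z - z̄)/(2i)`. -/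
theorem FV_im_mem {m : ℕ} (V : Finset (Fin m)) (x : Fin m → ℝ) (b : Fin m) (hb : 0 < x b) (z : ℂ) (hz : z ∈ FV V x b)
    (F : Subfield ℂ) (hI : I ∈ F) (hs : ((Real.sqrt (x b) : ℝ) : ℂ) ∈ F) (hx : ∀ l, (x l : ℂ) ∈ F) : (z.im : ℂ) ∈ F := by
  obtain ⟨U, W, hU, hW, hne, hzq⟩ := memFV_rep V x b hb z hz
  have htw : ∀ c ∈ F, ∀ l, tw c b (fun l => (x l : ℂ)) l ∈ F := by
    intro c hc l
    by_cases h : l = b
    · rw [h, q18_tw_self c x b hb]
      exact F.mul_mem hc hs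
    · rw [q18_tw_ne c x b l h]
      exact hx l
  have hq : ∀ c ∈ F, zq c b U W (fun l => (x l : ℂ)) ∈ F := by
    intro c hc
    unfold zq
    exact F.div_mem (q18_mem F _ (htw c hc) U) (q18_mem F _ (htw c hc) W)
  have h1 : z ∈ F := by
    rw [hzq]
    exact hq I hI
  have h2 : (starRingEnd ℂ) z ∈ F := by
    rw [hzq, ← zq_conj b U W x hb]
    exact hq (-I) (F.neg_mem hI)
  rw [Complex.im_eq_sub_conj]
  refine F.div_mem (F.sub_mem h1 h2) (F.mul_mem ?_ hI)
  have : (2 : ℂ) = 1 + 1 := by norm_num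
  rw [this]
  exact F.add_mem F.one_mem F.one_mem

end Pool.Agent.MSD
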