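import Pool.Agent.Lib.MP_f58a57_nt.Q09_Uniform
import Pool.Agent.Lib.MP_f58a57_nt.Q17_AlgIndepQ
import Pool.Agent.Lib.MP_f58a57_nt.Q18_FieldV
import Pool.Agent.Lib.MP_f58a57_nt.M16_Final

/-! # Q19: the theorem for the fields ℚ(x_l, √(-x_b)) (MP_f58a57_nt) -/

open Complex ModularForm EisensteinSeries Filter
open UpperHalfPlane hiding I
open scoped Topology MatrixGroups Polynomial

noncomputable section

namespace Pool.Agent.MSD

instance q19_fintype {A ι : Type} [Fintype A] [Fintype ι] (k : ι → ι) : Fintype (JN (A := A) k) := by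
  classical
  unfold JN
  infer_instance

/-- the cardinality of the index set -/
theorem q19_card {m n : ℕ} (β : Fin n → Fin m) (k : Fin n → Fin n) (hk : ∀ i, β (k i) = β i)
    (hc : ∀ i j, β i = β j → k i = k j) :
    Fintype.card (JN (A := Fin m) k) + (Finset.univ.image β).card = m + 3 * n := by
  classical
  have hkk : ∀ i, k (k i) = k i := fun i => hc _ _ (hk i)
  -- the bases
  have h0 : (Finset.univ.image β).card = (Finset.univ.filter (fun i => k i = i)).card := by
    have e : (Finset.univ.image β) = (Finset.univ.filter (fun i => k i = i)).image β := by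
      ext c
      simp only [Finset.mem_image, Finset.mem_univ, true_and, Finset.mem_filter]
      constructor
      · rintro ⟨i, rfl⟩
        exact ⟨k i, hkk i, hk i⟩
      · rintro ⟨i, -, rfl⟩
        exact ⟨i, rfl⟩
    rw [e, Finset.card_image_of_injOn]
    intro i hi j hj hij
    have hi' := (Finset.mem_filter.1 (Finset.mem_coe.1 hi)).2
    have hj' := (Finset.mem_filter.1 (Finset.mem_coe.1 hj)).2
    rw [← hi', ← hj']
    exact hc _ _ hij
  have h1 : (Finset.univ.filter (fun p : Fin m ⊕ (Fin n × Fin 3) => ¬ ∀ i, p = Sum.inr (i, 2) → k i ≠ i)).card =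
      (Finset.univ.filter (fun i => k i = i)).card := by
    have e : (Finset.univ.filter (fun p : Fin m ⊕ (Fin n × Fin 3) => ¬ ∀ i, p = Sum.inr (i, 2) → k i ≠ i)) =
        (Finset.univ.filter (fun i => k i = i)).image (fun i => Sum.inr (i, 2)) := by
      ext p
      simp only [Finset.mem_image, Finset.mem_univ, true_and, Finset.mem_filter]
      push Not
      constructor
      · rintro ⟨i, h, h'⟩
        exact ⟨i, h', h.symm⟩
      · rintro ⟨i, h, h'⟩
        exact ⟨i, h'.symm, h⟩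
    rw [e, Finset.card_image_of_injective]
    intro i j hij
    have := Sum.inr_injective hij
    exact (Prod.mk.inj this).1
  have h2 : Fintype.card (JN (A := Fin m) k) =
      (Finset.univ.filter (fun p : Fin m ⊕ (Fin n × Fin 3) => ∀ i, p = Sum.inr (i, 2) → k i ≠ i)).card := by
    rw [← Fintype.card_subtype (α := Fin m ⊕ (Fin n × Fin 3)) (fun p => ∀ i, p = Sum.inr (i, 2) → k i ≠ i)]
    exact Fintype.card_congr (Equiv.refl _)
  have h3 := Finset.card_filter_add_card_filter_not (s := (Finset.univ : Finset (Fin m ⊕ (Fin n × Fin 3))))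
    (fun p => ∀ i, p = Sum.inr (i, 2) → k i ≠ i)
  rw [Finset.card_univ, Fintype.card_sum, Fintype.card_prod, Fintype.card_fin, Fintype.card_fin, Fintype.card_fin] at h3
  rw [h2, h0, ← h1]
  omega

/-- Q19. PROOF (compare `main2` in `M16_Final.lean`). `uctrl` gives `Om, C`. The `x l` are algebraically independent (`alg_indepM` with `ι = Empty`). Choose `β i ∈ V` with `z i ∈ FV V x (β i)` and `U i, W i` from `memFV_rep`. For every block `c` in the image of `β` choose `rep c` with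
`β (rep c) = c`; `k i = rep (β i)`, so `k (k i) = k i`, `β (k i) = β i`. `SysQ` holds; `e4, e6 ≠ 0` by `jj_ne`. `alg_indepQ`: the family indexed by `JN k`, of cardinality `m + 3 n - u`, `u = card (image β)` (`{i | k i = i}` is in bijection with `image β`), is algebraically independent.
`S` = all `z i, j, j', j''`; `T = {x l : l ∉ image β}`, `card T ≤ m - u`; `F` = relative algebraic closure of `ℚ(S ∪ T)`. For `l = β i`: `x l ∈ F` by `xb_algebraic` (`l' ∉ V` implies `l' ∉ image β`). `√(x l) ∈ F`, `Im (z i) ∈ F` (`FV_im_mem`).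
`θ = e6 (z k)/e4 (z k)`: `π θ = -j'(z k)/(2 i j(z k)) ∈ F` (`link6` with `Ω = 1`). With `Ω² = θ`, `link_mem` gives `e4/θ², e6/θ³, e2s/θ ∈ F`, the members of the family (`famQ_real`). `trdeg_lower`: `m + 3 n - u ≤ trdeg + (m - u)`. -/
theorem main3 {m n : ℕ} (V : Finset (Fin m)) (x : Fin m → ℝ) (hx : HyperLiouville x) (hV : ∀ l ∈ V, 0 < x l)
    (z : Fin n → ℂ) (hz : ∀ i, 0 < (z i).im) (hind : ∀ i j, i ≠ j → ¬ GEquiv (z i) (z j)) (hj : ∀ i, deriv jj (z i) ≠ 0)
    (hor : ∀ i, ∃ b ∈ V, z i ∈ FV V x b) :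
    (∀ i, ¬ IsSpecial (z i)) ∧ ((3 * n : ℕ) : Cardinal) ≤ Algebra.trdeg ℚ (IntermediateField.adjoin ℚ
        (⋃ i, {z i, jj (z i), deriv jj (z i), deriv (deriv jj) (z i)} : Set ℂ)) := by
  classical
  obtain ⟨Om, C, hO⟩ := uctrl
  -- the `x l` are algebraically independent
  have hxA : AlgebraicIndependent ℚ (fun l => (x l : ℂ)) := by
    have h0 := alg_indepM (r := 1) (fun _ => 0) (fun _ => 1) x hx (fun _ => Om 1) (fun _ => hO.base 1 one_pos)
      (fun _ => Empty) (fun _ e => e.elim) (fun _ e => e.elim)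
      ⟨fun _ => one_pos, fun _ e => e.elim, fun _ e => e.elim, fun _ e => e.elim, fun _ e => e.elim,
        fun _ e => e.elim, fun _ e => e.elim⟩
    exact h0.comp Sum.inl Sum.inl_injective
  choose β hβV hβz using hor
  have him0 : ∀ i, (z i).im ≠ 0 := fun i => (hz i).ne'
  have hns : ∀ i, ¬ IsSpecial (z i) := fun i =>
    FV_not_special V x hxA (β i) (hβV i) (hV _ (hβV i)) (z i) (hβz i) (him0 i)
  refine ⟨hns, ?_⟩
  choose U W hUv hWv hWne hrep using fun i => memFV_rep V x (β i) (hV _ (hβV i)) (z i) (hβz i)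
  have hsys : SysQ V x β U W := by
    refine ⟨hV, hβV, hWne, fun i => ?_, fun i j hij => ?_⟩
    · rw [← hrep i]; exact hz i
    · rw [← hrep i, ← hrep j]; exact hind i j hij
  have hne46 : ∀ i, e4 (z i) ≠ 0 ∧ e6 (z i) ≠ 0 := fun i => by
    obtain ⟨-, -, h3, h4⟩ := jj_ne (z i) (hz i) (hj i)
    exact ⟨h3, h4⟩
  -- representatives of the blocks
  have hrepc : ∀ i, ∃ i', β i' = β i := fun i => ⟨i, rfl⟩
  let rp : Fin m → Option (Fin n) := fun c => if h : ∃ i, β i = c then some h.choose else none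
  let k : Fin n → Fin n := fun i => (⟨i, rfl⟩ : ∃ i', β i' = β i).choose
  have hkβ : ∀ i, β (k i) = β i := fun i => (⟨i, rfl⟩ : ∃ i', β i' = β i).choose_spec
  have hkcongr : ∀ i j, β i = β j → k i = k j := by
    intro i j hij
    have : (fun i' => β i' = β i) = (fun i' => β i' = β j) := by rw [hij]
    simp only [k]
    congr 1
  have hkk : ∀ i, k (k i) = k i := fun i => hkcongr _ _ (hkβ i)
  have hAI := alg_indepQ hO V x hx β U W hsys k hkk hkβ (fun i => by rw [← hrep i]; exact hne46 i)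
  -- the counting
  set Bs : Finset (Fin m) := Finset.univ.image β with hBs
  have hJcard : Fintype.card (JN (A := Fin m) k) + Bs.card = m + 3 * n := by
    exact q19_card β k hkβ hkcongr
  set S : Set ℂ := ⋃ i, {z i, jj (z i), deriv jj (z i), deriv (deriv jj) (z i)} with hS
  set T : Finset ℂ := (Finset.univ \ Bs).image (fun l => (x l : ℂ)) with hT
  set L := IntermediateField.adjoin ℚ (S ∪ (T : Set ℂ)) with hL
  have hSL : ∀ y ∈ S, y ∈ L := fun y hy => IntermediateField.subset_adjoin _ _ (Or.inl hy)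
  have hTL : ∀ y ∈ T, y ∈ L := fun y hy => IntermediateField.subset_adjoin _ _ (Or.inr hy)
  have hzS : ∀ i, z i ∈ S := fun i => Set.mem_iUnion.2 ⟨i, by simp⟩
  have hjS : ∀ i, jj (z i) ∈ S := fun i => Set.mem_iUnion.2 ⟨i, by simp⟩
  have hj1S : ∀ i, deriv jj (z i) ∈ S := fun i => Set.mem_iUnion.2 ⟨i, by simp⟩
  have hj2S : ∀ i, deriv (deriv jj) (z i) ∈ S := fun i => Set.mem_iUnion.2 ⟨i, by simp⟩
  set F : Subfield ℂ := (algebraicClosure L ℂ).toSubfield with hF
  have hFmem : ∀ y : ℂ, y ∈ F ↔ IsAlgebraic L y := by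
    intro y
    rw [hF]
    exact mem_algebraicClosure_iff
  have hLF : ∀ y ∈ L, y ∈ F := fun y hy => (hFmem y).2 (isAlgebraic_algebraMap (⟨y, hy⟩ : L))
  have hQF : ∀ y : ℂ, IsAlgebraic ℚ y → y ∈ F := fun y hy => (hFmem y).2 (hy.tower_top L)
  have hIF : I ∈ F := hQF _ isIntegral_rat_I.isAlgebraic
  have hsqF : ∀ y : ℂ, y ^ 2 ∈ F → y ∈ F := fun y hy =>
    (hFmem _).2 (IsAlgebraic.of_pow two_pos ((hFmem _).1 hy))
  have hxB : ∀ l, l ∉ Bs → (x l : ℂ) ∈ L := by
    intro l hl
    refine hTL _ (Finset.mem_image.2 ⟨l, ?_, rfl⟩)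
    exact Finset.mem_sdiff.2 ⟨Finset.mem_univ _, hl⟩
  have hBV : ∀ l ∈ Bs, l ∈ V := by
    intro l hl
    obtain ⟨i, -, rfl⟩ := Finset.mem_image.1 hl
    exact hβV i
  have hxF : ∀ l, (x l : ℂ) ∈ F := by
    intro l
    by_cases hl : l ∈ Bs
    · obtain ⟨i, -, rfl⟩ := Finset.mem_image.1 hl
      refine (hFmem _).2 (m16_alg_mono ?_ (xb_algebraic V x hxA (β i) (hβV i) (hV _ (hβV i)) (z i) (hβz i) (him0 i)))
      rw [IntermediateField.adjoin_le_iff]
      rintro y (rfl | ⟨l', hl', rfl⟩)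
      · exact hSL _ (hzS _)
      · exact hxB _ fun hmem => hl' (hBV _ hmem)
    · exact hLF _ (hxB l hl)
  have hrtF : ∀ i, ((Real.sqrt (x (β i)) : ℝ) : ℂ) ∈ F := by
    intro i
    apply hsqF
    rw [← ofReal_pow, Real.sq_sqrt (hV _ (hβV i)).le]
    exact hxF _
  have hyF : ∀ i, ((z i).im : ℂ) ∈ F := fun i =>
    FV_im_mem V x (β i) (hV _ (hβV i)) (z i) (hβz i) F hIF (hrtF i) hxF
  have hθF : ∀ i, (Real.pi : ℂ) * (e6 (z i) / e4 (z i)) ∈ F := by
    intro i
    obtain ⟨h1, h2, h3, h4⟩ := jj_ne (z i) (hz i) (hj i)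
    have hlink := link6 (z i) 1 (hz i) one_ne_zero (hj i)
    simp only [one_pow, div_one, mul_one] at hlink
    have hpi : (Real.pi : ℂ) ≠ 0 := by exact_mod_cast Real.pi_ne_zero
    have he : (Real.pi : ℂ) * (e6 (z i) / e4 (z i)) = -(deriv jj (z i)) / (2 * I * jj (z i)) := by
      rw [hlink]
      field_simp
    rw [he]
    have h2F : (2 : ℂ) ∈ F := by simp
    exact F.div_mem (F.neg_mem (hLF _ (hSL _ (hj1S i)))) (F.mul_mem (F.mul_mem h2F hIF) (hLF _ (hSL _ (hjS i))))
  have halg : ∀ j : JN (A := Fin m) k, IsAlgebraic L (nrm k (famQ β U W (fun l => (x l : ℂ))) j.1) := by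
    rintro ⟨l | ⟨i, κ⟩, hj'⟩
    · exact (hFmem _).1 (hxF l)
    · rw [← hFmem]
      have hreal : ∀ (i' : Fin n) (κ' : Fin 3), famQ β U W (fun l => (x l : ℂ)) (Sum.inr (i', κ')) =
          ![e2s (z i'), e4 (z i'), e6 (z i')] κ' := fun i' κ' =>
        famQ_real β U W x i' (hV _ (hβV i')) κ' (z i') (hrep i')
      show famQ β U W (fun l => (x l : ℂ)) (Sum.inr (i, κ)) /
        (famQ β U W (fun l => (x l : ℂ)) (Sum.inr (k i, 2)) /
          famQ β U W (fun l => (x l : ℂ)) (Sum.inr (k i, 1))) ^ ((![1, 2, 3] : Fin 3 → ℕ) κ) ∈ F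
      rw [hreal, hreal, hreal]
      obtain ⟨O, hOO⟩ := IsAlgClosed.exists_pow_nat_eq (e6 (z (k i)) / e4 (z (k i))) (n := 2) (by norm_num)
      have hO0 : O ≠ 0 := by
        rintro rfl
        rw [zero_pow (by norm_num)] at hOO
        exact div_ne_zero (hne46 (k i)).2 (hne46 (k i)).1 hOO.symm
      obtain ⟨ha, hb, hc⟩ := link_mem F (z i) O (hz i) hO0 (hj i)
        (hLF _ (hSL _ (hjS i))) (hLF _ (hSL _ (hj1S i))) (hLF _ (hSL _ (hj2S i))) hIF (hyF i)
        (by rw [hOO]; exact hθF (k i))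
      show ![e2s (z i), e4 (z i), e6 (z i)] κ / (e6 (z (k i)) / e4 (z (k i))) ^ ((![1, 2, 3] : Fin 3 → ℕ) κ) ∈ F
      rw [← hOO, ← pow_mul]
      fin_cases κ
      · exact hc
      · exact ha
      · exact hb
  have hmain := trdeg_lower (JN (A := Fin m) k) _ hAI S T halg
  have hTcard : T.card ≤ m - Bs.card := by
    refine Finset.card_image_le.trans ?_
    rw [Finset.card_sdiff_of_subset (Finset.subset_univ _), Finset.card_univ, Fintype.card_fin]
  have hBm : Bs.card ≤ m := by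
    have := Finset.card_le_univ Bs
    rwa [Fintype.card_fin] at this
  have h1 : ((m - Bs.card + 3 * n : ℕ) : Cardinal) ≤ Algebra.trdeg ℚ (IntermediateField.adjoin ℚ S) + (T.card : Cardinal) := by
    refine le_trans ?_ hmain
    have : m - Bs.card + 3 * n ≤ Fintype.card (JN (A := Fin m) k) := by omega
    exact_mod_cast this
  have h2 := card_arith _ (m - Bs.card) n 0 T.card h1 (by omega)
  simpa using h2

end Pool.Agent.MSD
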