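import Pool.Agent.Lib.MP_f58a57_nt.M20_Explicit

/-! # Q20: the explicit systems are positive (MP_f58a57_nt) -/

open Complex ModularForm EisensteinSeries Filter
open UpperHalfPlane hiding I
open scoped Topology MatrixGroups Polynomial

noncomputable section

namespace Pool.Agent.MSD

theorem towSys_pos (s : ℕ) (l : Fin s) : 0 < towSys s l := by
  have h1 : (0 : ℝ) < tow (nix s l 0) := by exact_mod_cast tow_pos _
  have h2 : 0 < 1 / (tow (nix s l 0) : ℝ) := by positivity
  have h3 := (tail_nix l.2 0).1
  rw [Finset.sum_range_zero, sub_zero] at h3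
  have hsys : towSys s l = ∑' k, 1 / (tow (nix s l k) : ℝ) := rfl
  rw [hsys]
  exact lt_of_lt_of_le h2 h3

end Pool.Agent.MSD
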