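import Pool.Agent.Lib.MP_f58a57_nt.M15_Exchange

/-! # Q21: completing a tuple by some of the coordinates (MP_f58a57_nt) -/

open Complex ModularForm EisensteinSeries Filter
open UpperHalfPlane hiding I
open scoped Topology MatrixGroups Polynomial

noncomputable section

namespace Pool.Agent.MSD

/-- the transcendence degree of a generated field is at most the rank -/
theorem q21_trdeg_le (Z : Set ℂ) (q : ℕ) (h : (AlgebraicIndependent.matroid ℚ ℂ).eRk Z ≤ (q : ℕ∞)) :
    Algebra.trdeg ℚ (IntermediateField.adjoin ℚ Z) ≤ (q : Cardinal) := by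
  classical
  let M := AlgebraicIndependent.matroid ℚ ℂ
  obtain ⟨κ, y, hy⟩ := exists_isTranscendenceBasis' ℚ (IntermediateField.adjoin ℚ Z)
  rw [← hy.cardinalMk_eq_trdeg]
  have h1 : AlgebraicIndependent ℚ (fun i => ((y i : IntermediateField.adjoin ℚ Z) : ℂ)) :=
    hy.1.map' (f := (IntermediateField.adjoin ℚ Z).val) (IntermediateField.adjoin ℚ Z).val.injective
  have hind : M.Indep (Set.range (fun i => ((y i : IntermediateField.adjoin ℚ Z) : ℂ))) := h1.to_subtype_range
  have hsub : Set.range (fun i => ((y i : IntermediateField.adjoin ℚ Z) : ℂ)) ⊆ M.closure Z := by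
    rintro _ ⟨i, rfl⟩
    rw [← m15_mem]
    exact isAlgebraic_algebraMap (R := IntermediateField.adjoin ℚ Z) (A := ℂ) (y i)
  have hrk : (Set.range (fun i => ((y i : IntermediateField.adjoin ℚ Z) : ℂ))).encard ≤ (q : ℕ∞) := by
    calc _ = M.eRk (Set.range (fun i => ((y i : IntermediateField.adjoin ℚ Z) : ℂ))) := hind.eRk_eq_encard.symm
      _ ≤ M.eRk (M.closure Z) := M.eRk_mono hsub
      _ = M.eRk Z := M.eRk_closure_eq _
      _ ≤ q := h
  have hinj : Function.Injective (fun i => ((y i : IntermediateField.adjoin ℚ Z) : ℂ)) := h1.injective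
  have hfin : (Set.range (fun i => ((y i : IntermediateField.adjoin ℚ Z) : ℂ))).Finite :=
    Set.finite_of_encard_le_coe hrk
  have hκ : Finite κ := by
    have := hfin.to_subtype
    exact Finite.of_injective_finite_range hinj
  haveI := Fintype.ofFinite κ
  have h2 : (Set.range (fun i => ((y i : IntermediateField.adjoin ℚ Z) : ℂ))).encard = (Fintype.card κ : ℕ∞) := by
    rw [← Set.image_univ, hinj.encard_image, Set.encard_univ, ENat.card_eq_coe_fintype_card]
  rw [h2] at hrk
  have h3 : Fintype.card κ ≤ q := by exact_mod_cast hrk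
  rw [Cardinal.mk_fintype]
  exact_mod_cast h3

/-- A tuple of numbers algebraic over `ℚ(x)`, `x` algebraically independent, is completed by `m - trdeg ℚ(z)` numbers. -/
theorem exists_complement {m n : ℕ} (x : Fin m → ℂ) (hx : AlgebraicIndependent ℚ x) (z : Fin n → ℂ)
    (hz : ∀ i, IsAlgebraic (IntermediateField.adjoin ℚ (Set.range x)) (z i)) :
    ∃ (q : ℕ) (T : Finset ℂ), q + T.card = m ∧ Algebra.trdeg ℚ (IntermediateField.adjoin ℚ (Set.range z)) ≤ (q : Cardinal) ∧
      ∀ l, IsAlgebraic (IntermediateField.adjoin ℚ (Set.range z ∪ (T : Set ℂ))) (x l) := by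
  classical
  let M := AlgebraicIndependent.matroid ℚ ℂ
  have hX : M.Indep (Set.range x) := hx.to_subtype_range
  have hzX : Set.range z ⊆ M.closure (Set.range x) := by
    rintro _ ⟨i, rfl⟩
    rw [← m15_mem]
    exact hz i
  obtain ⟨Ib, hI⟩ := M.exists_isBasis (Set.range z)
  obtain ⟨J, hJ, hIJ⟩ := hI.indep.subset_isBasis_of_subset
    (hI.subset.trans (Set.subset_union_left (s := Set.range z) (t := Set.range x)))
  have hJrk : J.encard = (m : ℕ∞) := by
    rw [hJ.encard_eq_eRk]
    have h1 : M.eRk (Set.range z ∪ Set.range x) = M.eRk (Set.range x) := by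
      refine le_antisymm ?_ (M.eRk_mono Set.subset_union_right)
      calc M.eRk (Set.range z ∪ Set.range x) ≤ M.eRk (M.closure (Set.range x)) :=
            M.eRk_mono (Set.union_subset hzX (M.subset_closure _ (fun _ _ => trivial)))
        _ = M.eRk (Set.range x) := M.eRk_closure_eq _
    rw [h1, hX.eRk_eq_encard, ← Set.image_univ, hx.injective.encard_image, Set.encard_univ, ENat.card_eq_coe_fintype_card,
      Fintype.card_fin]
  have hJfin : J.Finite := Set.finite_of_encard_eq_coe hJrk
  have hIfin : Ib.Finite := hJfin.subset hIJ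
  have hTfin : (J \ Ib).Finite := hJfin.subset Set.diff_subset
  refine ⟨hIfin.toFinset.card, hTfin.toFinset, ?_, ?_, ?_⟩
  · have h1 : (J \ Ib).encard + Ib.encard = J.encard := Set.encard_diff_add_encard_of_subset hIJ
    rw [hJrk, hTfin.encard_eq_coe_toFinset_card, hIfin.encard_eq_coe_toFinset_card] at h1
    have h2 : hTfin.toFinset.card + hIfin.toFinset.card = m := by exact_mod_cast h1
    omega
  · apply q21_trdeg_le
    rw [← hI.encard_eq_eRk, hIfin.encard_eq_coe_toFinset_card]
  · intro l
    rw [m15_mem]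
    have h1 : (x l) ∈ M.closure J := by
      rw [hJ.closure_eq_closure]
      exact M.subset_closure _ (fun _ _ => trivial) (Or.inr ⟨l, rfl⟩)
    refine M.closure_subset_closure ?_ h1
    intro y hy
    by_cases hyI : y ∈ Ib
    · exact Or.inl (hI.subset hyI)
    · refine Or.inr ?_
      rw [Set.Finite.coe_toFinset]
      exact ⟨hy, hyI⟩

end Pool.Agent.MSD
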