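import Mathlib
import Pool.Agent.Lib.MP_f58a57_nt.Defs
import Pool.Agent.Lib.MP_f58a57_nt.FK.K007
import Pool.Agent.Lib.MP_f58a57_nt.FK.K048
import Pool.Agent.Lib.MP_f58a57_nt.FK.K060
import Pool.Agent.Lib.MP_f58a57_nt.FK.K061
import Pool.Agent.Lib.MP_f58a57_nt.FK.K063
import Pool.Agent.Lib.MP_f58a57_nt.FK.K065
import Pool.Agent.Lib.MP_f58a57_nt.FK.K066
import Pool.Agent.Lib.MP_f58a57_nt.M00_Defs
import Pool.Agent.Lib.MP_f58a57_nt.Q00_Defs

/-! # Q22: the general inequality for the fields ℚ(x_1, ..., x_m, √(-x_b)) (MP_f58a57_nt) -/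

open Complex ModularForm EisensteinSeries Filter
open UpperHalfPlane hiding I
open scoped Topology MatrixGroups Polynomial

noncomputable section

namespace Pool.Agent.MSD

/-- the field `ℚ(x_1, ..., x_m, √(-x_b))` -/
def FA {m : ℕ} (x : Fin m → ℝ) (b : Fin m) : IntermediateField ℚ ℂ :=
  IntermediateField.adjoin ℚ ({((Real.sqrt (x b) : ℝ) : ℂ) * I} ∪ Set.range (fun l => (x l : ℂ)))

theorem FA_le_FV {m : ℕ} (x : Fin m → ℝ) (b : Fin m) (hb : 0 < x b) : FA x b ≤ FV {b} x b := by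
  unfold FA
  rw [IntermediateField.adjoin_le_iff]
  have hg : ((Real.sqrt (x b) : ℝ) : ℂ) * I ∈ FV {b} x b :=
    IntermediateField.subset_adjoin _ _ (Or.inl rfl)
  rintro y (hy | ⟨l, rfl⟩)
  · rw [Set.mem_singleton_iff] at hy
    rw [hy]
    exact hg
  · by_cases hl : l = b
    · subst hl
      have h1 : (x l : ℂ) = -((((Real.sqrt (x l) : ℝ) : ℂ) * I) ^ 2) := by
        rw [mul_pow, I_sq, ← ofReal_pow, Real.sq_sqrt hb.le]
        ring
      show (x l : ℂ) ∈ FV {l} x l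
      rw [h1]
      exact neg_mem (pow_mem hg 2)
    · exact IntermediateField.subset_adjoin _ _ (Or.inr ⟨l, by simpa using hl, rfl⟩)

/-- the field is algebraic over `ℚ(x)` -/
theorem FA_algebraic {m : ℕ} (x : Fin m → ℝ) (b : Fin m) (hb : 0 < x b) (z : ℂ) (hz : z ∈ FA x b) :
    IsAlgebraic (IntermediateField.adjoin ℚ (Set.range (fun l => (x l : ℂ)))) z := by
  have h1 : IsAlgebraic (FA x b) z := by
    have := isAlgebraic_algebraMap (R := FA x b) (A := ℂ) ⟨z, hz⟩
    simpa using this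
  unfold FA at h1
  rw [m15_mem] at h1 ⊢
  rw [← (AlgebraicIndependent.matroid ℚ ℂ).closure_closure (Set.range (fun l => (x l : ℂ)))]
  refine (AlgebraicIndependent.matroid ℚ ℂ).closure_subset_closure ?_ h1
  rintro y (hy | hy)
  · rw [Set.mem_singleton_iff] at hy
    rw [hy, ← m15_mem]
    refine IsAlgebraic.of_pow (n := 2) two_pos ?_
    have h2 : (((Real.sqrt (x b) : ℝ) : ℂ) * I) ^ 2 = -(x b : ℂ) := by
      rw [mul_pow, I_sq, ← ofReal_pow, Real.sq_sqrt hb.le]
      ring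
    rw [h2]
    refine IsAlgebraic.neg ?_
    have h3 : (x b : ℂ) ∈ IntermediateField.adjoin ℚ (Set.range (fun l => (x l : ℂ))) :=
      IntermediateField.subset_adjoin _ _ ⟨b, rfl⟩
    exact isAlgebraic_algebraMap (⟨_, h3⟩ : IntermediateField.adjoin ℚ (Set.range (fun l => (x l : ℂ))))
  · exact (AlgebraicIndependent.matroid ℚ ℂ).subset_closure _ (fun _ _ => trivial) hy

/-- Q22. The general inequality. As `main3`, with the complement `T` from `exists_complement`. -/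
theorem main4 {m n : ℕ} (V : Finset (Fin m)) (x : Fin m → ℝ) (hx : HyperLiouville x) (hV : ∀ l ∈ V, 0 < x l)
    (z : Fin n → ℂ) (hz : ∀ i, 0 < (z i).im) (hind : ∀ i j, i ≠ j → ¬ GEquiv (z i) (z j)) (hj : ∀ i, deriv jj (z i) ≠ 0)
    (hor : ∀ i, ∃ b ∈ V, z i ∈ FA x b) :
    (∀ i, ¬ IsSpecial (z i)) ∧ ((3 * n : ℕ) : Cardinal) + Algebra.trdeg ℚ (IntermediateField.adjoin ℚ (Set.range z)) ≤
      Algebra.trdeg ℚ (IntermediateField.adjoin ℚ
        (⋃ i, {z i, jj (z i), deriv jj (z i), deriv (deriv jj) (z i)} : Set ℂ)) + (V.card : Cardinal) := by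
  classical
  obtain ⟨Om, C, hO⟩ := uctrl
  -- the `x l` are algebraically independent
  have hxA : AlgebraicIndependent ℚ (fun l => (x l : ℂ)) := by
    have h0 := alg_indepM (r := 1) (fun _ => 0) (fun _ => 1) x hx (fun _ => Om 1) (fun _ => hO.base 1 one_pos)
      (fun _ => Empty) (fun _ e => e.elim) (fun _ e => e.elim)
      ⟨fun _ => one_pos, fun _ e => e.elim, fun _ e => e.elim, fun _ e => e.elim, fun _ e => e.elim,
        fun _ e => e.elim, fun _ e => e.elim⟩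
    exact h0.comp Sum.inl Sum.inl_injective
  choose β hβV hβz using hor
  have him0 : ∀ i, (z i).im ≠ 0 := fun i => (hz i).ne'
  have hβz' : ∀ i, z i ∈ FV {β i} x (β i) := fun i => FA_le_FV x (β i) (hV _ (hβV i)) (hβz i)
  have hns : ∀ i, ¬ IsSpecial (z i) := fun i =>
    FV_not_special {β i} x hxA (β i) (Finset.mem_singleton_self _) (hV _ (hβV i)) (z i) (hβz' i) (him0 i)
  refine ⟨hns, ?_⟩
  choose U W hUv hWv hWne hrep using fun i => memFV_rep {β i} x (β i) (hV _ (hβV i)) (z i) (hβz' i)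
  have hsys : SysQ V x β U W := by
    refine ⟨hV, hβV, hWne, fun i => ?_, fun i j hij => ?_⟩
    · rw [← hrep i]; exact hz i
    · rw [← hrep i, ← hrep j]; exact hind i j hij
  have hne46 : ∀ i, e4 (z i) ≠ 0 ∧ e6 (z i) ≠ 0 := fun i => by
    obtain ⟨-, -, h3, h4⟩ := jj_ne (z i) (hz i) (hj i)
    exact ⟨h3, h4⟩
  -- representatives of the blocks
  have hrepc : ∀ i, ∃ i', β i' = β i := fun i => ⟨i, rfl⟩
  let rp : Fin m → Option (Fin n) := fun c => if h : ∃ i, β i = c then some h.choose else none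
  let k : Fin n → Fin n := fun i => (⟨i, rfl⟩ : ∃ i', β i' = β i).choose
  have hkβ : ∀ i, β (k i) = β i := fun i => (⟨i, rfl⟩ : ∃ i', β i' = β i).choose_spec
  have hkcongr : ∀ i j, β i = β j → k i = k j := by
    intro i j hij
    have : (fun i' => β i' = β i) = (fun i' => β i' = β j) := by rw [hij]
    simp only [k]
    congr 1
  have hkk : ∀ i, k (k i) = k i := fun i => hkcongr _ _ (hkβ i)
  have hAI := alg_indepQ hO V x hx β U W hsys k hkk hkβ (fun i => by rw [← hrep i]; exact hne46 i)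
  -- the counting
  set Bs : Finset (Fin m) := Finset.univ.image β with hBs
  have hJcard : Fintype.card (JN (A := Fin m) k) + Bs.card = m + 3 * n := by
    exact q19_card β k hkβ hkcongr
  set S : Set ℂ := ⋃ i, {z i, jj (z i), deriv jj (z i), deriv (deriv jj) (z i)} with hS
  obtain ⟨q, T, hqT, hqz, hTx⟩ := exists_complement (fun l => (x l : ℂ)) hxA z
    (fun i => FA_algebraic x (β i) (hV _ (hβV i)) (z i) (hβz i))
  set L := IntermediateField.adjoin ℚ (S ∪ (T : Set ℂ)) with hL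
  have hSL : ∀ y ∈ S, y ∈ L := fun y hy => IntermediateField.subset_adjoin _ _ (Or.inl hy)
  have hTL : ∀ y ∈ T, y ∈ L := fun y hy => IntermediateField.subset_adjoin _ _ (Or.inr hy)
  have hzS : ∀ i, z i ∈ S := fun i => Set.mem_iUnion.2 ⟨i, by simp⟩
  have hjS : ∀ i, jj (z i) ∈ S := fun i => Set.mem_iUnion.2 ⟨i, by simp⟩
  have hj1S : ∀ i, deriv jj (z i) ∈ S := fun i => Set.mem_iUnion.2 ⟨i, by simp⟩
  have hj2S : ∀ i, deriv (deriv jj) (z i) ∈ S := fun i => Set.mem_iUnion.2 ⟨i, by simp⟩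
  set F : Subfield ℂ := (algebraicClosure L ℂ).toSubfield with hF
  have hFmem : ∀ y : ℂ, y ∈ F ↔ IsAlgebraic L y := by
    intro y
    rw [hF]
    exact mem_algebraicClosure_iff
  have hLF : ∀ y ∈ L, y ∈ F := fun y hy => (hFmem y).2 (isAlgebraic_algebraMap (⟨y, hy⟩ : L))
  have hQF : ∀ y : ℂ, IsAlgebraic ℚ y → y ∈ F := fun y hy => (hFmem y).2 (hy.tower_top L)
  have hIF : I ∈ F := hQF _ isIntegral_rat_I.isAlgebraic
  have hsqF : ∀ y : ℂ, y ^ 2 ∈ F → y ∈ F := fun y hy =>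
    (hFmem _).2 (IsAlgebraic.of_pow two_pos ((hFmem _).1 hy))
  have hxF : ∀ l, (x l : ℂ) ∈ F := by
    intro l
    refine (hFmem _).2 (m16_alg_mono ?_ (hTx l))
    rw [IntermediateField.adjoin_le_iff]
    rintro y (⟨i, rfl⟩ | hy)
    · exact hSL _ (hzS i)
    · exact hTL _ hy
  have hrtF : ∀ i, ((Real.sqrt (x (β i)) : ℝ) : ℂ) ∈ F := by
    intro i
    apply hsqF
    rw [← ofReal_pow, Real.sq_sqrt (hV _ (hβV i)).le]
    exact hxF _
  have hyF : ∀ i, ((z i).im : ℂ) ∈ F := fun i =>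
    FV_im_mem {β i} x (β i) (hV _ (hβV i)) (z i) (hβz' i) F hIF (hrtF i) hxF
  have hθF : ∀ i, (Real.pi : ℂ) * (e6 (z i) / e4 (z i)) ∈ F := by
    intro i
    obtain ⟨h1, h2, h3, h4⟩ := jj_ne (z i) (hz i) (hj i)
    have hlink := link6 (z i) 1 (hz i) one_ne_zero (hj i)
    simp only [one_pow, div_one, mul_one] at hlink
    have hpi : (Real.pi : ℂ) ≠ 0 := by exact_mod_cast Real.pi_ne_zero
    have he : (Real.pi : ℂ) * (e6 (z i) / e4 (z i)) = -(deriv jj (z i)) / (2 * I * jj (z i)) := by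
      rw [hlink]
      field_simp
    rw [he]
    have h2F : (2 : ℂ) ∈ F := by simp
    exact F.div_mem (F.neg_mem (hLF _ (hSL _ (hj1S i)))) (F.mul_mem (F.mul_mem h2F hIF) (hLF _ (hSL _ (hjS i))))
  have halg : ∀ j : JN (A := Fin m) k, IsAlgebraic L (nrm k (famQ β U W (fun l => (x l : ℂ))) j.1) := by
    rintro ⟨l | ⟨i, κ⟩, hj'⟩
    · exact (hFmem _).1 (hxF l)
    · rw [← hFmem]
      have hreal : ∀ (i' : Fin n) (κ' : Fin 3), famQ β U W (fun l => (x l : ℂ)) (Sum.inr (i', κ')) =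
          ![e2s (z i'), e4 (z i'), e6 (z i')] κ' := fun i' κ' =>
        famQ_real β U W x i' (hV _ (hβV i')) κ' (z i') (hrep i')
      show famQ β U W (fun l => (x l : ℂ)) (Sum.inr (i, κ)) /
        (famQ β U W (fun l => (x l : ℂ)) (Sum.inr (k i, 2)) /
          famQ β U W (fun l => (x l : ℂ)) (Sum.inr (k i, 1))) ^ ((![1, 2, 3] : Fin 3 → ℕ) κ) ∈ F
      rw [hreal, hreal, hreal]
      obtain ⟨O, hOO⟩ := IsAlgClosed.exists_pow_nat_eq (e6 (z (k i)) / e4 (z (k i))) (n := 2) (by norm_num)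
      have hO0 : O ≠ 0 := by
        rintro rfl
        rw [zero_pow (by norm_num)] at hOO
        exact div_ne_zero (hne46 (k i)).2 (hne46 (k i)).1 hOO.symm
      obtain ⟨ha, hb, hc⟩ := link_mem F (z i) O (hz i) hO0 (hj i)
        (hLF _ (hSL _ (hjS i))) (hLF _ (hSL _ (hj1S i))) (hLF _ (hSL _ (hj2S i))) hIF (hyF i)
        (by rw [hOO]; exact hθF (k i))
      show ![e2s (z i), e4 (z i), e6 (z i)] κ / (e6 (z (k i)) / e4 (z (k i))) ^ ((![1, 2, 3] : Fin 3 → ℕ) κ) ∈ F
      rw [← hOO, ← pow_mul]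
      fin_cases κ
      · exact hc
      · exact ha
      · exact hb
  have hmain := trdeg_lower (JN (A := Fin m) k) _ hAI S T halg
  have hBV : Bs.card ≤ V.card := by
    refine Finset.card_le_card fun l hl => ?_
    obtain ⟨i, -, rfl⟩ := Finset.mem_image.1 hl
    exact hβV i
  have h3 : ((3 * n : ℕ) : Cardinal) + (q : Cardinal) ≤
      Algebra.trdeg ℚ (IntermediateField.adjoin ℚ S) + (V.card : Cardinal) := by
    rcases lt_or_ge (Algebra.trdeg ℚ (IntermediateField.adjoin ℚ S)) Cardinal.aleph0 with hc | hc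
    · obtain ⟨c, hc'⟩ := Cardinal.lt_aleph0.1 hc
      rw [hc'] at hmain ⊢
      have h4 : Fintype.card (JN (A := Fin m) k) ≤ c + T.card := by exact_mod_cast hmain
      have h5 : 3 * n + q ≤ c + V.card := by omega
      exact_mod_cast h5
    · refine le_trans ?_ (hc.trans le_self_add)
      have : ((3 * n : ℕ) : Cardinal) + (q : Cardinal) = ((3 * n + q : ℕ) : Cardinal) := by push_cast; rfl
      rw [this]
      exact (Cardinal.natCast_lt_aleph0).le
  refine le_trans ?_ h3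
  gcongr

end Pool.Agent.MSD
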